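import Pool.Agent.P.MP_45ff98_nt.JDefs
import Pool.Agent.Lib.Sieve.Mertens

/-! Abel summation and elementary bounds. -/

namespace Pool.Agent.Jac
open Finset MeasureTheory Complex

noncomputable section

theorem ja0_piece (a : ℕ → ℂ) {s : ℂ} (hs : s ≠ 0) {N : ℕ} (hN : 1 ≤ N) :
    IntervalIntegrable (fun u : ℝ => (∑ n ∈ Icc 1 ⌊u⌋₊, a n) * (u : ℂ) ^ (-(s + 1))) volume
        (N : ℝ) ((N + 1 : ℕ) : ℝ) ∧
      s * ∫ u in (N : ℝ)..((N + 1 : ℕ) : ℝ), (∑ n ∈ Icc 1 ⌊u⌋₊, a n) * (u : ℂ) ^ (-(s + 1)) =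
        (∑ n ∈ Icc 1 N, a n) * ((N : ℂ) ^ (-s) - ((N + 1 : ℕ) : ℂ) ^ (-s)) := by
  have hN' : (1 : ℝ) ≤ N := by exact_mod_cast hN
  have hle : (N : ℝ) ≤ ((N + 1 : ℕ) : ℝ) := by exact_mod_cast Nat.le_succ N
  have h0 : (0 : ℝ) ∉ Set.uIcc (N : ℝ) ((N + 1 : ℕ) : ℝ) := by
    rw [Set.uIcc_of_le hle]
    intro h
    linarith [h.1]
  have he : Set.EqOn (fun u : ℝ => (∑ n ∈ Icc 1 N, a n) * (u : ℂ) ^ (-(s + 1)))
      (fun u : ℝ => (∑ n ∈ Icc 1 ⌊u⌋₊, a n) * (u : ℂ) ^ (-(s + 1)))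
      (Set.uIoo (N : ℝ) ((N + 1 : ℕ) : ℝ)) := by
    rw [Set.uIoo_of_le hle]
    intro u hu
    have : ⌊u⌋₊ = N := (Nat.floor_eq_iff (by linarith [hu.1])).2
      ⟨hu.1.le, by exact_mod_cast hu.2⟩
    simp only [this]
  refine ⟨((intervalIntegral.intervalIntegrable_cpow (Or.inr h0)).const_mul _).congr_uIoo he, ?_⟩
  have h1 : -(s + 1) ≠ -1 := fun h => hs (by linear_combination -h)
  have h2 : -(s + 1) + 1 = -s := by ring
  rw [← intervalIntegral.integral_congr_uIoo he, intervalIntegral.integral_const_mul,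
    integral_cpow (Or.inr ⟨h1, h0⟩), h2, Complex.ofReal_natCast, Complex.ofReal_natCast]
  field_simp
  ring

theorem abel_core (a : ℕ → ℂ) {s : ℂ} (hs : s ≠ 0) {N : ℕ} (hN : 1 ≤ N) :
    s * ∫ u in (1 : ℝ)..N, (∑ n ∈ Icc 1 ⌊u⌋₊, a n) * (u : ℂ) ^ (-(s + 1)) =
      ∑ n ∈ Icc 1 N, a n * (n : ℂ) ^ (-s) - (∑ n ∈ Icc 1 N, a n) * (N : ℂ) ^ (-s) := by
  have key : IntervalIntegrable (fun u : ℝ => (∑ n ∈ Icc 1 ⌊u⌋₊, a n) * (u : ℂ) ^ (-(s + 1)))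
      volume (1 : ℝ) N ∧
      s * ∫ u in (1 : ℝ)..N, (∑ n ∈ Icc 1 ⌊u⌋₊, a n) * (u : ℂ) ^ (-(s + 1)) =
        ∑ n ∈ Icc 1 N, a n * (n : ℂ) ^ (-s) - (∑ n ∈ Icc 1 N, a n) * (N : ℂ) ^ (-s) := by
    induction N, hN using Nat.le_induction with
    | base => simp
    | succ N hN ih =>
      obtain ⟨h1, h2⟩ := ja0_piece a hs hN
      refine ⟨ih.1.trans h1, ?_⟩
      rw [← intervalIntegral.integral_add_adjacent_intervals ih.1 h1, mul_add, ih.2, h2,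
        sum_Icc_succ_top (by omega), sum_Icc_succ_top (by omega)]
      ring
  exact key.2

theorem psum_le {a : ℕ → ℂ} (ha : ∀ n, ‖a n‖ ≤ 1) {η : ℝ} (h0 : 0 < η) {s : ℂ}
    (hs : 1 - η / 2 ≤ s.re) {N : ℕ} (hN : 1 ≤ N) :
    ‖∑ n ∈ Icc 1 N, a n * (n : ℂ) ^ (-s)‖ ≤ (1 + 2 / η) * (N : ℝ) ^ η := by
  have hN' : (1 : ℝ) ≤ N := by exact_mod_cast hN
  have hN0 : (0 : ℝ) < N := by linarith
  have h1 : (1 : ℝ) ≤ (N : ℝ) ^ (η / 2) := Real.one_le_rpow hN' (by linarith)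
  have h2 : ∀ n ∈ Icc 1 N, ‖a n * (n : ℂ) ^ (-s)‖ ≤ (N : ℝ) ^ (η / 2) * (1 / (n : ℝ)) := by
    intro n hn
    obtain ⟨n1, n2⟩ := mem_Icc.1 hn
    have n1' : (1 : ℝ) ≤ n := by exact_mod_cast n1
    have n2' : (n : ℝ) ≤ N := by exact_mod_cast n2
    have n0 : (0 : ℝ) < n := by linarith
    rw [norm_mul, Complex.norm_natCast_cpow_of_pos n1, Complex.neg_re]
    calc ‖a n‖ * (n : ℝ) ^ (-s.re) ≤ 1 * (n : ℝ) ^ (η / 2 - 1) :=
          mul_le_mul (ha n) (Real.rpow_le_rpow_of_exponent_le n1' (by linarith))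
            (by positivity) zero_le_one
      _ = (n : ℝ) ^ (η / 2) * (1 / (n : ℝ)) := by
          rw [one_mul, Real.rpow_sub_one n0.ne', mul_one_div]
      _ ≤ _ := mul_le_mul_of_nonneg_right (Real.rpow_le_rpow n0.le n2' (by linarith))
            (by positivity)
  have h3 : ∑ n ∈ Icc 1 N, 1 / (n : ℝ) ≤ 1 + Real.log N := Lib.Sieve.sum_inv_Ioc_le N
  have h4 : Real.log N ≤ (N : ℝ) ^ (η / 2) / (η / 2) := Real.log_le_rpow_div hN0.le (by linarith)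
  have h5 : (N : ℝ) ^ η = (N : ℝ) ^ (η / 2) * (N : ℝ) ^ (η / 2) := by
    rw [← Real.rpow_add hN0, add_halves]
  have h6 : (N : ℝ) ^ (η / 2) / (η / 2) = 2 / η * (N : ℝ) ^ (η / 2) := by field_simp
  refine (norm_sum_le _ _).trans ((sum_le_sum h2).trans ?_)
  rw [← mul_sum, h5, ← mul_assoc, mul_comm]
  refine mul_le_mul_of_nonneg_right ?_ (by linarith)
  rw [add_mul]
  linarith

theorem tail_le {E : ℝ → ℂ} (hE : Measurable E) {D : ℝ} (hD : ∀ u, ‖E u‖ ≤ D) {s : ℂ}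
    (hs : 0 < s.re) {N : ℝ} (hN : 1 ≤ N) :
    ‖(∫ u in Set.Ioi (1 : ℝ), E u * (u : ℂ) ^ (-(s + 1))) -
      ∫ u in (1 : ℝ)..N, E u * (u : ℂ) ^ (-(s + 1))‖ ≤ D * N ^ (-s.re) / s.re := by
  have ha : -s.re - 1 < -1 := by linarith
  have hb : ∀ t : ℝ, 0 < t → ‖E t * (t : ℂ) ^ (-(s + 1))‖ ≤ D * t ^ (-s.re - 1) := fun t ht => by
    have e : (-(s + 1)).re = -s.re - 1 := by
      simp only [Complex.neg_re, Complex.add_re, Complex.one_re]
      ring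
    rw [norm_mul, Complex.norm_cpow_eq_rpow_re_of_pos ht, e]
    exact mul_le_mul_of_nonneg_right (hD t) (Real.rpow_nonneg ht.le _)
  have hm : Measurable fun u : ℝ => E u * (u : ℂ) ^ (-(s + 1)) :=
    hE.mul (Complex.measurable_ofReal.pow_const _)
  have hi : IntegrableOn (fun u : ℝ => E u * (u : ℂ) ^ (-(s + 1))) (Set.Ioi 1) := by
    refine Integrable.mono' ((integrableOn_Ioi_rpow_of_lt ha zero_lt_one).const_mul D)
      hm.aestronglyMeasurable ?_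
    filter_upwards [ae_restrict_mem measurableSet_Ioi] with t ht
    exact hb t (zero_lt_one.trans ht)
  have hN0 : 0 < N := by linarith
  have h2 : ∫ t in Set.Ioi N, D * t ^ (-s.re - 1) = D * N ^ (-s.re) / s.re := by
    rw [integral_const_mul, integral_Ioi_rpow_of_lt ha hN0, sub_add_cancel, neg_div_neg_eq,
      mul_div_assoc]
  rw [← intervalIntegral.integral_Ioi_sub_Ioi hi hN, sub_sub_cancel, ← h2]
  refine norm_integral_le_of_norm_le ((integrableOn_Ioi_rpow_of_lt ha hN0).const_mul D) ?_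
  filter_upwards [ae_restrict_mem measurableSet_Ioi] with t ht
  exact hb t (hN0.trans ht)

theorem log_pow_le (m : ℕ) : ∃ C : ℝ, 1 ≤ C ∧ ∀ x : ℝ, 1 ≤ x → Real.log x ^ m ≤ C * √x := by
  have hf : (1 : ℝ) ≤ (m.factorial : ℝ) := by exact_mod_cast m.factorial_pos
  refine ⟨2 ^ m * m.factorial, one_le_mul_of_one_le_of_one_le (one_le_pow₀ one_le_two) hf,
    fun x hx => ?_⟩
  have h1 : 1 ≤ √x := Real.one_le_sqrt.2 hx
  have h2 := Real.pow_div_factorial_le_exp (Real.log √x) (Real.log_nonneg h1) m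
  have h3 : Real.log x = 2 * Real.log √x := by
    rw [Real.log_sqrt (by linarith)]
    ring
  rw [Real.exp_log (by linarith), div_le_iff₀ (by linarith)] at h2
  rw [h3, mul_pow, mul_assoc, mul_comm (m.factorial : ℝ)]
  exact mul_le_mul_of_nonneg_left h2 (by positivity)

end

end Pool.Agent.Jac
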