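import Pool.Agent.P.MP_45ff98_nt.JDefs

/-! The integral representation of the zeta function. -/

namespace Pool.Agent.Jac
open Finset MeasureTheory Complex

noncomputable section

/-- The fractional value, cut off below `1`. -/
def ja1rE (t : ℝ) : ℂ := if t < 1 then 0 else ((Int.fract t : ℝ) : ℂ)

theorem ja1r_fract_le (t : ℝ) : ‖((Int.fract t : ℝ) : ℂ)‖ ≤ 1 := by
  rw [Complex.norm_real, Real.norm_eq_abs, abs_of_nonneg (Int.fract_nonneg t)]
  exact (Int.fract_lt_one t).le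

theorem ja1r_le (t : ℝ) : ‖ja1rE t‖ ≤ 1 := by
  unfold ja1rE
  split_ifs
  · simp
  · exact ja1r_fract_le t

theorem ja1r_meas : Measurable ja1rE :=
  Measurable.ite measurableSet_Iio measurable_const
    (Complex.measurable_ofReal.comp measurable_fract)

theorem ja1r_mellin (s : ℂ) : mellin ja1rE (-s) =
    ∫ u in Set.Ioi (1 : ℝ), ((Int.fract u : ℝ) : ℂ) * (u : ℂ) ^ (-(s + 1)) := by
  rw [← integral_Ici_eq_integral_Ioi]
  unfold mellin
  rw [setIntegral_eq_of_subset_of_forall_sdiff_eq_zero (s := Set.Ici (1 : ℝ)) measurableSet_Ioi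
    (Set.Ici_subset_Ioi.2 zero_lt_one)]
  · refine setIntegral_congr_fun measurableSet_Ici fun t ht => ?_
    have h1 : ¬ t < 1 := not_lt.2 ht
    simp only [smul_eq_mul, ja1rE, if_neg h1]
    rw [mul_comm, neg_add', sub_eq_add_neg]
  · intro x hx
    have h1 : x < 1 := not_le.1 hx.2
    simp only [ja1rE, if_pos h1, smul_zero]

theorem ja1r_diff {w : ℂ} (hw : w.re < 0) : DifferentiableAt ℂ (mellin ja1rE) w := by
  refine mellin_differentiableAt_of_isBigO_rpow (a := 0) (b := w.re - 1) ?_ ?_ hw ?_ (by linarith)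
  · refine LocallyIntegrable.locallyIntegrableOn ?_ _
    refine (locallyIntegrable_const (1 : ℝ)).mono ja1r_meas.aestronglyMeasurable
      (Filter.Eventually.of_forall fun t => ?_)
    exact (ja1r_le _).trans (le_abs_self _)
  · refine Asymptotics.IsBigO.of_bound 1 (Filter.Eventually.of_forall fun t => ?_)
    simpa using ja1r_le t
  · refine Asymptotics.IsBigO.of_bound 0 ?_
    filter_upwards [mem_nhdsWithin_of_mem_nhds (Iio_mem_nhds zero_lt_one)] with t ht
    have h1 : t < 1 := ht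
    simp [ja1rE, h1]

theorem ja1r_gt {z : ℂ} (hz : 1 < z.re) : riemannZeta₀ z =
    1 - z * ∫ u in Set.Ioi (1 : ℝ), ((Int.fract u : ℝ) : ℂ) * (u : ℂ) ^ (-(z + 1)) := by
  have hz1 : z ≠ 1 := by
    rintro rfl
    simp at hz
  have hz2 : z - 1 ≠ 0 := sub_ne_zero.2 hz1
  have h1 : riemannZeta z = z * ∫ t in Set.Ioi (1 : ℝ),
      (∑ k ∈ Icc 1 ⌊t⌋₊, (1 : ℕ → ℂ) k) * (t : ℂ) ^ (-(z + 1)) := by
    rw [← LSeries_one_eq_riemannZeta hz]
    refine LSeries_eq_mul_integral _ zero_le_one hz (LSeriesSummable_one_iff.2 hz) ?_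
    refine Asymptotics.IsBigO.of_bound 1 (Filter.Eventually.of_forall fun n => ?_)
    simp
  have ha : (-z).re < -1 := by
    rw [Complex.neg_re]
    linarith
  have hb : (-(z + 1)).re < -1 := by
    simp only [Complex.neg_re, Complex.add_re, Complex.one_re]
    linarith
  have h2 : IntegrableOn (fun t : ℝ => (t : ℂ) ^ (-z)) (Set.Ioi 1) :=
    integrableOn_Ioi_cpow_of_lt ha zero_lt_one
  have h3 : IntegrableOn (fun t : ℝ => ((Int.fract t : ℝ) : ℂ) * (t : ℂ) ^ (-(z + 1)))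
      (Set.Ioi 1) :=
    Integrable.bdd_mul (integrableOn_Ioi_cpow_of_lt hb zero_lt_one)
      (Complex.measurable_ofReal.comp measurable_fract).aestronglyMeasurable
      (Filter.Eventually.of_forall ja1r_fract_le)
  have h4 : ∫ t in Set.Ioi (1 : ℝ), (∑ k ∈ Icc 1 ⌊t⌋₊, (1 : ℕ → ℂ) k) * (t : ℂ) ^ (-(z + 1)) =
      ∫ t in Set.Ioi (1 : ℝ), ((t : ℂ) ^ (-z) -
        ((Int.fract t : ℝ) : ℂ) * (t : ℂ) ^ (-(z + 1))) := by
    refine setIntegral_congr_fun measurableSet_Ioi fun t ht => ?_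
    have ht0 : 0 < t := zero_lt_one.trans ht
    have ht1 : (t : ℂ) ≠ 0 := Complex.ofReal_ne_zero.2 ht0.ne'
    have h5 : ((⌊t⌋₊ : ℕ) : ℝ) = t - Int.fract t := by
      rw [natCast_floor_eq_intCast_floor ht0.le, Int.self_sub_fract]
    have h6 : ((⌊t⌋₊ : ℕ) : ℂ) = (t : ℂ) - ((Int.fract t : ℝ) : ℂ) := by
      exact_mod_cast congrArg (fun x : ℝ => (x : ℂ)) h5
    have h7 : (t : ℂ) ^ (-z) = t * (t : ℂ) ^ (-(z + 1)) := by
      have h8 : -z = 1 + -(z + 1) := by ring
      rw [h8, Complex.cpow_add _ _ ht1, Complex.cpow_one]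
    simp only [Pi.one_apply, sum_const, Nat.card_Icc, Nat.add_sub_cancel, nsmul_eq_mul, mul_one]
    rw [h6, h7, sub_mul]
  have h9 : ∫ t in Set.Ioi (1 : ℝ), (t : ℂ) ^ (-z) = (z - 1)⁻¹ := by
    rw [integral_Ioi_cpow_of_lt ha zero_lt_one]
    have h10 : -z + 1 = -(z - 1) := by ring
    rw [Complex.ofReal_one, Complex.one_cpow, h10, neg_div_neg_eq, one_div]
  rw [h4, integral_sub h2 h3, h9, riemannZeta_eq_inv_sub_add hz1] at h1
  have h11 : z * (z - 1)⁻¹ = 1 + (z - 1)⁻¹ := by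
    field_simp
    ring
  linear_combination h1 + h11

theorem zeta0_repr {s : ℂ} (hs : 0 < s.re) : riemannZeta₀ s =
    1 - s * ∫ u in Set.Ioi (1 : ℝ), ((Int.fract u : ℝ) : ℂ) * (u : ℂ) ^ (-(s + 1)) := by
  rw [← ja1r_mellin]
  have hU : IsOpen {z : ℂ | 0 < z.re} := isOpen_lt continuous_const Complex.continuous_re
  have h1 : AnalyticOnNhd ℂ riemannZeta₀ {z : ℂ | 0 < z.re} :=
    differentiable_riemannZeta₀.differentiableOn.analyticOnNhd hU
  have h2 : AnalyticOnNhd ℂ (fun z : ℂ => 1 - z * mellin ja1rE (-z)) {z : ℂ | 0 < z.re} := by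
    refine DifferentiableOn.analyticOnNhd (fun z hz => ?_) hU
    have h3 : (-z).re < 0 := by
      rw [Complex.neg_re]
      exact neg_neg_of_pos hz
    exact ((differentiableAt_const _).sub (differentiableAt_id.mul
      ((ja1r_diff h3).comp z differentiableAt_id.neg))).differentiableWithinAt
  have h4 : (2 : ℂ) ∈ {z : ℂ | 0 < z.re} := by simp
  refine h1.eqOn_of_preconnected_of_eventuallyEq h2 (convex_halfSpace_re_gt 0).isPreconnected h4
    ?_ hs
  have h5 : {z : ℂ | 1 < z.re} ∈ nhds (2 : ℂ) :=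
    (isOpen_lt continuous_const Complex.continuous_re).mem_nhds (by simp)
  filter_upwards [h5] with z hz
  rw [ja1r_mellin]
  exact ja1r_gt hz

end

end Pool.Agent.Jac
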