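import Pool.Agent.P.MP_45ff98_nt.JA0
import Pool.Agent.P.MP_45ff98_nt.JA1r

/-! Upper bound for the zeta function near the line of real part one. -/

namespace Pool.Agent.Jac
open Finset MeasureTheory Complex

noncomputable section

/-- The zeta function with its pole removed, of the same size as zeta at infinity. -/
def zf (s : ℂ) : ℂ := riemannZeta₁ s / s

theorem zf_diff : DifferentiableOn ℂ zf {s | 0 < s.re} := fun s hs => by
  have h : s ≠ 0 := fun e => by simp [e] at hs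
  exact ((differentiable_riemannZeta₁ s).div differentiableAt_id h).differentiableWithinAt

theorem zeta_eq_zf {s : ℂ} (h0 : s ≠ 0) (h1 : s ≠ 1) : riemannZeta s = s * zf s / (s - 1) := by
  rw [riemannZeta_eq_inv_sub_mul h1, zf, mul_div_cancel₀ _ h0, div_eq_inv_mul]

theorem ja1z_split {s : ℂ} (h0 : s ≠ 0) (h1 : s ≠ 1) {N : ℕ} (hN : 1 ≤ N) :
    s * ∫ u in (1 : ℝ)..N, ((Int.fract u : ℝ) : ℂ) * (u : ℂ) ^ (-(s + 1)) =
      s * (((N : ℂ) ^ (-s + 1) - 1) / (-s + 1)) -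
        (∑ n ∈ Icc 1 N, (1 : ℂ) * (n : ℂ) ^ (-s) - N * (N : ℂ) ^ (-s)) := by
  have hN' : (1 : ℝ) ≤ N := by exact_mod_cast hN
  have hz : (0 : ℝ) ∉ Set.uIcc (1 : ℝ) N := by
    rw [Set.uIcc_of_le hN']
    exact fun h => absurd h.1 (by norm_num)
  have i1 : IntervalIntegrable (fun u : ℝ => (u : ℂ) ^ (-s)) volume 1 N :=
    intervalIntegral.intervalIntegrable_cpow (Or.inr hz)
  have i2 : IntervalIntegrable (fun u : ℝ => (u : ℂ) ^ (-(s + 1))) volume 1 N :=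
    intervalIntegral.intervalIntegrable_cpow (Or.inr hz)
  have i3 : IntervalIntegrable
      (fun u : ℝ => ((Int.fract u : ℝ) : ℂ) * (u : ℂ) ^ (-(s + 1))) volume 1 N := by
    refine i2.mono_fun ((measurable_ofReal.comp measurable_fract).mul
      (measurable_ofReal.pow_const _)).aestronglyMeasurable
      (Filter.Eventually.of_forall fun u => ?_)
    show ‖((Int.fract u : ℝ) : ℂ) * (u : ℂ) ^ (-(s + 1))‖ ≤ ‖(u : ℂ) ^ (-(s + 1))‖
    rw [norm_mul, Complex.norm_real, Real.norm_of_nonneg (Int.fract_nonneg u)]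
    exact mul_le_of_le_one_left (norm_nonneg _) (Int.fract_lt_one u).le
  have e1 : ∫ u in (1 : ℝ)..N, (∑ n ∈ Icc 1 ⌊u⌋₊, (1 : ℂ)) * (u : ℂ) ^ (-(s + 1)) =
      (∫ u in (1 : ℝ)..N, (u : ℂ) ^ (-s)) -
        ∫ u in (1 : ℝ)..N, ((Int.fract u : ℝ) : ℂ) * (u : ℂ) ^ (-(s + 1)) := by
    rw [← intervalIntegral.integral_sub i1 i3]
    refine intervalIntegral.integral_congr fun u hu => ?_
    rw [Set.uIcc_of_le hN'] at hu
    have hu0 : (0 : ℝ) ≤ u := zero_le_one.trans hu.1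
    have hu1 : (u : ℂ) ≠ 0 := ofReal_ne_zero.2 (zero_lt_one.trans_le hu.1).ne'
    have h2 : (u : ℂ) ^ (-s) = u * (u : ℂ) ^ (-(s + 1)) := by
      rw [show -s = 1 + -(s + 1) by ring, cpow_add _ _ hu1, cpow_one]
    have h3 : Int.fract u = u - (⌊u⌋₊ : ℝ) := by
      rw [natCast_floor_eq_intCast_floor hu0, Int.self_sub_floor]
    simp only [sum_const, Nat.card_Icc, Nat.add_sub_cancel, nsmul_eq_mul, mul_one]
    rw [h2, h3]
    push_cast
    ring
  have e2 := abel_core (fun _ => (1 : ℂ)) h0 hN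
  have e3 : ∫ u in (1 : ℝ)..N, (u : ℂ) ^ (-s) = ((N : ℂ) ^ (-s + 1) - 1) / (-s + 1) := by
    rw [integral_cpow (Or.inr ⟨fun h => h1 (neg_injective h), hz⟩)]
    simp
  rw [e1, e3, mul_sub] at e2
  simp only [sum_const, Nat.card_Icc, Nat.add_sub_cancel, nsmul_eq_mul, mul_one] at e2
  rw [← e2]
  ring

theorem ja1z_big {η : ℝ} (h0 : 0 < η) (h1 : η ≤ 1) {s : ℂ} (h2 : 1 - η / 2 ≤ s.re) (h3 : s.re ≤ 4)
    (h4 : 1 ≤ |s.im|) : ‖riemannZeta₀ s‖ ≤ 2 * (17 + 2 / η) * (|s.im| + 2) ^ η := by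
  have hσ : 1 / 2 ≤ s.re := by linarith
  have hσ0 : 0 < s.re := by linarith
  have hs0 : s ≠ 0 := fun e => by simp [e] at hσ0
  have hs1 : s ≠ 1 := fun e => by
    rw [e] at h4
    norm_num at h4
  set N : ℕ := ⌈|s.im| + 2⌉₊ with hNdef
  have hTN : |s.im| + 2 ≤ N := Nat.le_ceil _
  have hNT : (N : ℝ) ≤ 2 * (|s.im| + 2) := by
    have := Nat.ceil_lt_add_one (a := |s.im| + 2) (by positivity)
    linarith
  have hN' : (1 : ℝ) ≤ N := by linarith
  have hN0 : (0 : ℝ) < N := by linarith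
  have hN : 1 ≤ N := by exact_mod_cast hN'
  have hs : ‖s‖ ≤ 4 + |s.im| := by
    have := Complex.norm_le_abs_re_add_abs_im s
    rw [abs_of_pos hσ0] at this
    linarith
  have hs' : ‖s‖ ≤ 5 * ‖-s + 1‖ := by
    have h5 := Complex.abs_im_le_norm (-s + 1)
    simp only [add_im, neg_im, one_im, add_zero, abs_neg] at h5
    linarith
  have hP : (1 : ℝ) ≤ (N : ℝ) ^ η := Real.one_le_rpow hN' h0.le
  have hQ : (N : ℝ) * (N : ℝ) ^ (-s.re) ≤ (N : ℝ) ^ η := by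
    calc (N : ℝ) * (N : ℝ) ^ (-s.re) = (N : ℝ) ^ (1 + -s.re) := by
          rw [Real.rpow_add hN0, Real.rpow_one]
      _ ≤ _ := Real.rpow_le_rpow_of_exponent_le hN' (by linarith)
  have hR : (N : ℝ) ^ η ≤ 2 * (|s.im| + 2) ^ η := by
    refine (Real.rpow_le_rpow hN0.le hNT h0.le).trans ?_
    rw [Real.mul_rpow (by norm_num) (by positivity)]
    exact mul_le_mul_of_nonneg_right (Real.rpow_le_self_of_one_le (by norm_num) h1)
      (by positivity)
  have t1 := tail_le (E := fun u => ((Int.fract u : ℝ) : ℂ))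
    (measurable_ofReal.comp measurable_fract) (D := 1) (fun u => by
      rw [Complex.norm_real, Real.norm_of_nonneg (Int.fract_nonneg u)]
      exact (Int.fract_lt_one u).le) hσ0 hN'
  have t2 := psum_le (a := fun _ => (1 : ℂ)) (fun _ => by simp) h0 h2 hN
  have hpos : (0 : ℝ) < (N : ℝ) ^ (-s.re) := Real.rpow_pos_of_pos hN0 _
  have n1 : ‖s * ((∫ u in Set.Ioi (1 : ℝ), ((Int.fract u : ℝ) : ℂ) * (u : ℂ) ^ (-(s + 1))) -
      ∫ u in (1 : ℝ)..N, ((Int.fract u : ℝ) : ℂ) * (u : ℂ) ^ (-(s + 1)))‖ ≤ 4 * (N : ℝ) ^ η := by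
    rw [norm_mul]
    have h5 : 1 * (N : ℝ) ^ (-s.re) / s.re ≤ 2 * (N : ℝ) ^ (-s.re) := by
      rw [div_le_iff₀ hσ0]
      nlinarith
    have h6 : ‖s‖ ≤ 2 * N := by linarith
    calc _ ≤ (2 * N) * (2 * (N : ℝ) ^ (-s.re)) :=
          mul_le_mul h6 (t1.trans h5) (norm_nonneg _) (by positivity)
      _ ≤ _ := by linarith
  have n2 : ‖(N : ℂ) * (N : ℂ) ^ (-s)‖ ≤ (N : ℝ) ^ η := by
    rw [norm_mul, Complex.norm_natCast, Complex.norm_natCast_cpow_of_pos hN, neg_re]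
    exact hQ
  have n3 : ‖s * (((N : ℂ) ^ (-s + 1) - 1) / (-s + 1))‖ ≤ 10 * (N : ℝ) ^ η := by
    have h5 : 0 < ‖-s + 1‖ := norm_pos_iff.2 fun e => hs1 (by linear_combination -e)
    have h6 : ‖(N : ℂ) ^ (-s + 1) - 1‖ ≤ 2 * (N : ℝ) ^ η := by
      refine (norm_sub_le _ _).trans ?_
      rw [cpow_add _ _ (Nat.cast_ne_zero.2 (by omega)), cpow_one, mul_comm, norm_one]
      linarith
    rw [norm_mul, norm_div, ← mul_div_assoc, div_le_iff₀ h5]
    calc _ ≤ (5 * ‖-s + 1‖) * (2 * (N : ℝ) ^ η) :=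
          mul_le_mul hs' h6 (norm_nonneg _) (by positivity)
      _ = _ := by ring
  have e := ja1z_split hs0 hs1 hN
  have e' : riemannZeta₀ s = 1 - s * ((∫ u in Set.Ioi (1 : ℝ),
      ((Int.fract u : ℝ) : ℂ) * (u : ℂ) ^ (-(s + 1))) -
      ∫ u in (1 : ℝ)..N, ((Int.fract u : ℝ) : ℂ) * (u : ℂ) ^ (-(s + 1))) -
      (s * (((N : ℂ) ^ (-s + 1) - 1) / (-s + 1)) -
        (∑ n ∈ Icc 1 N, (1 : ℂ) * (n : ℂ) ^ (-s) - N * (N : ℂ) ^ (-s))) := by
    rw [zeta0_repr hσ0, ← e]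
    ring
  have n4 : ‖riemannZeta₀ s‖ ≤ (17 + 2 / η) * (N : ℝ) ^ η := by
    rw [e']
    refine (norm_sub_le _ _).trans ((add_le_add ((norm_sub_le _ _).trans
      (add_le_add (norm_one.le.trans hP) n1)) ((norm_sub_le _ _).trans
      (add_le_add n3 ((norm_sub_le _ _).trans (add_le_add t2 n2))))).trans (le_of_eq ?_))
    ring
  calc _ ≤ (17 + 2 / η) * (2 * (|s.im| + 2) ^ η) :=
        n4.trans (mul_le_mul_of_nonneg_left hR (by positivity))
    _ = _ := by ring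

theorem zeta0_up {η : ℝ} (h0 : 0 < η) (h1 : η ≤ 1) : ∃ C : ℝ, 1 ≤ C ∧ ∀ s : ℂ,
    1 - η / 2 ≤ s.re → s.re ≤ 4 → ‖riemannZeta₀ s‖ ≤ C * (|s.im| + 2) ^ η := by
  obtain ⟨B, hB⟩ := (isCompact_closedBall (0 : ℂ) 5).exists_bound_of_continuousOn
    differentiable_riemannZeta₀.continuous.continuousOn
  have hC : (1 : ℝ) ≤ 2 * (17 + 2 / η) := by
    have : 0 < 2 / η := by positivity
    linarith
  refine ⟨max B (2 * (17 + 2 / η)), hC.trans (le_max_right _ _), fun s h2 h3 => ?_⟩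
  have hP : (1 : ℝ) ≤ (|s.im| + 2) ^ η :=
    Real.one_le_rpow (by linarith [abs_nonneg s.im]) h0.le
  rcases le_total |s.im| 1 with h4 | h4
  · have h5 : ‖s‖ ≤ 5 := by
      have := Complex.norm_le_abs_re_add_abs_im s
      rw [abs_of_pos (by linarith : 0 < s.re)] at this
      linarith
    refine (hB s (mem_closedBall_zero_iff.2 h5)).trans
      ((le_max_left B (2 * (17 + 2 / η))).trans ?_)
    exact le_mul_of_one_le_right (zero_le_one.trans (hC.trans (le_max_right _ _))) hP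
  · exact (ja1z_big h0 h1 h2 h3 h4).trans
      (mul_le_mul_of_nonneg_right (le_max_right _ _) (by positivity))

theorem zf_up {η : ℝ} (h0 : 0 < η) (h1 : η ≤ 1) : ∃ C : ℝ, 1 ≤ C ∧ ∀ s : ℂ,
    1 - η / 2 ≤ s.re → s.re ≤ 4 → ‖zf s‖ ≤ C * (|s.im| + 2) ^ η := by
  obtain ⟨C, hC, h⟩ := zeta0_up h0 h1
  refine ⟨2 + 3 * C, by linarith, fun s h2 h3 => ?_⟩
  have hP : (1 : ℝ) ≤ (|s.im| + 2) ^ η :=
    Real.one_le_rpow (by linarith [abs_nonneg s.im]) h0.le
  have h4 : 1 / 2 ≤ ‖s‖ := by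
    have := Complex.re_le_norm s
    linarith
  have h5 : ‖s - 1‖ ≤ 3 * ‖s‖ := by
    have := norm_sub_le s 1
    rw [norm_one] at this
    linarith
  have h6 : ‖riemannZeta₁ s‖ ≤ 1 + 3 * ‖s‖ * (C * (|s.im| + 2) ^ η) := by
    rw [riemannZeta₁]
    refine (norm_add_le _ _).trans ?_
    rw [norm_one, norm_mul]
    exact add_le_add le_rfl (mul_le_mul h5 (h s h2 h3) (norm_nonneg _) (by positivity))
  rw [zf, norm_div, div_le_iff₀ (by linarith)]
  nlinarith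

end

end Pool.Agent.Jac
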