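import Pool.Agent.P.MP_45ff98_nt.JDefs
import Pool.Agent.Lib.Sieve.Mertens

/-! Tools for lower bounds. -/

namespace Pool.Agent.Jac
open Finset MeasureTheory Complex

noncomputable section

theorem low_abs {g : ℝ → ℂ} {M M' : ℝ} (hM : 1 ≤ M) (hM' : 1 ≤ M')
    (hL : ∀ a ∈ Set.Icc (1 : ℝ) 2, ∀ b ∈ Set.Icc (1 : ℝ) 2, ‖g a - g b‖ ≤ M * |a - b|)
    (h : ∀ x : ℝ, 0 < x → x ≤ 1 → x ^ 3 ≤ M' * ‖g (1 + x)‖ ^ 4) :
    ∀ σ ∈ Set.Icc (1 : ℝ) 2, 1 / (16 * M ^ 3 * M') ≤ ‖g σ‖ := by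
  intro σ hσ
  have hM0 : 0 < M := by linarith
  have hM0' : 0 < M' := by linarith
  obtain ⟨x, hx⟩ : ∃ x, x = 1 / (16 * M ^ 4 * M') := ⟨_, rfl⟩
  have x0 : 0 < x := by rw [hx]; positivity
  have x1 : x ≤ 1 := by
    rw [hx, div_le_one (by positivity)]
    nlinarith [one_le_pow₀ (n := 4) hM]
  have e1 : 1 / (16 * M ^ 3 * M') = M * x := by rw [hx]; field_simp
  have e2 : M' * (2 * (M * x)) ^ 4 = x ^ 3 := by rw [hx]; field_simp; norm_num
  have key : ∀ y, x ≤ y → y ≤ 1 → 2 * (M * x) ≤ ‖g (1 + y)‖ := fun y h1 h2 =>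
    le_of_pow_le_pow_left₀ four_ne_zero (norm_nonneg _) (le_of_mul_le_mul_left
      (e2.trans_le ((pow_le_pow_left₀ x0.le h1 3).trans (h y (x0.trans_le h1) h2))) hM0')
  rw [e1]
  rcases le_total x (σ - 1) with h1 | h1
  · have h2 := key _ h1 (by linarith [hσ.2])
    rw [add_sub_cancel] at h2
    linarith [mul_pos hM0 x0]
  · have h2 := key x le_rfl x1
    have h3 := hL (1 + x) ⟨by linarith, by linarith⟩ σ hσ
    have h4 : |1 + x - σ| ≤ x := abs_le.2 ⟨by linarith, by linarith [hσ.1]⟩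
    linarith [norm_sub_norm_le (g (1 + x)) (g σ), mul_le_mul_of_nonneg_left h4 hM0.le]

theorem lip_of_up {f : ℂ → ℂ} {R A η : ℝ} (hR : 0 < R) (hR1 : R ≤ 1) (hA : 0 ≤ A) (h0 : 0 ≤ η)
    (h1 : η ≤ 1) (hf : DifferentiableOn ℂ f {s | 1 - R < s.re})
    (hup : ∀ s : ℂ, 1 - R < s.re → s.re ≤ 4 → ‖f s‖ ≤ A * (|s.im| + 2) ^ η) {T : ℝ} {s w : ℂ}
    (hs : 1 ≤ s.re ∧ s.re ≤ 2 ∧ |s.im| ≤ T) (hw : 1 ≤ w.re ∧ w.re ≤ 2 ∧ |w.im| ≤ T) :
    ‖f s - f w‖ ≤ 4 * A / R * (T + 2) ^ η * ‖s - w‖ := by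
  have hT : 0 ≤ T := (abs_nonneg _).trans hs.2.2
  have hK : Convex ℝ {s : ℂ | 1 ≤ s.re ∧ s.re ≤ 2 ∧ |s.im| ≤ T} := by
    simp only [abs_le]
    exact (convex_halfSpace_re_ge 1).inter ((convex_halfSpace_re_le 2).inter
      ((convex_halfSpace_im_ge (-T)).inter (convex_halfSpace_im_le T)))
  have ho : IsOpen {s : ℂ | 1 - R < s.re} := isOpen_lt continuous_const continuous_re
  refine hK.norm_image_sub_le_of_norm_deriv_le (fun z hz => hf.differentiableAt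
    (ho.mem_nhds (show 1 - R < z.re by linarith [hz.1]))) (fun z hz => ?_) hw hs
  have hb : ∀ y ∈ Metric.closedBall z (R / 2),
      1 - R < y.re ∧ y.re ≤ 4 ∧ |y.im| + 2 ≤ 2 * (T + 2) := fun y hy => by
    rw [mem_closedBall_iff_norm] at hy
    have a1 := abs_le.1 ((abs_re_le_norm _).trans hy)
    have a2 := abs_le.1 ((abs_im_le_norm _).trans hy)
    have a3 := abs_le.1 hz.2.2
    rw [sub_re] at a1
    rw [sub_im] at a2
    have a4 : |y.im| ≤ T + 1 := abs_le.2 ⟨by linarith, by linarith⟩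
    exact ⟨by linarith [hz.1], by linarith [hz.2.1], by linarith⟩
  refine (norm_deriv_le_of_forall_mem_sphere_norm_le (C := 2 * A * (T + 2) ^ η) (half_pos hR)
    (hf.diffContOnCl_ball fun y hy => (hb y hy).1) fun y hy => ?_).trans_eq (by field_simp; ring)
  obtain ⟨a1, a2, a3⟩ := hb y (Metric.sphere_subset_closedBall hy)
  have a4 := Real.rpow_le_rpow (by positivity) a3 h0
  rw [Real.mul_rpow zero_le_two (by linarith)] at a4
  have a5 := mul_le_mul_of_nonneg_right (Real.rpow_le_self_of_one_le one_le_two h1)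
    (Real.rpow_nonneg (show 0 ≤ T + 2 by linarith) η)
  linarith [hup y a1 a2, mul_le_mul_of_nonneg_left (a4.trans a5) hA]

theorem ja2a_le {a : ℕ → ℂ} (ha : ∀ n, ‖a n‖ ≤ 1) {κ : ℝ} (hκ : 0 < κ) {s : ℂ}
    (hs : 1 + κ ≤ s.re) : ‖LSeries a s‖ ≤ 1 + 1 / κ := by
  have h1 : LSeriesSummable a s :=
    LSeriesSummable_of_bounded_of_one_lt_re (fun n _ => ha n) (by linarith)
  refine (norm_tsum_le_tsum_norm h1.norm).trans (Real.tsum_le_of_sum_range_le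
    (fun _ => norm_nonneg _) fun N => le_trans ?_ (Lib.Sieve.sum_rpow_le hκ N))
  refine (sum_le_sum_of_subset_of_nonneg (t := insert 0 (Ioc 0 N)) (fun n hn => ?_)
    fun _ _ _ => norm_nonneg _).trans ?_
  · have := mem_range.1 hn
    simp only [mem_insert, mem_Ioc]
    omega
  rw [sum_insert (by simp), LSeries.term_zero, norm_zero, zero_add]
  refine sum_le_sum fun n hn => ?_
  · have h2 : (1 : ℝ) ≤ n := Nat.one_le_cast.2 (Nat.succ_le_of_lt (mem_Ioc.1 hn).1)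
    rw [LSeries.norm_term_eq, if_neg (mem_Ioc.1 hn).1.ne', Real.rpow_neg (by linarith),
      ← one_div]
    exact div_le_div₀ zero_le_one (ha n) (by positivity) (Real.rpow_le_rpow_of_exponent_le h2 hs)

theorem triv_le {q : ℕ} [NeZero q] (χ : DirichletCharacter ℂ q) {s : ℂ} (h1 : 1 < s.re)
    (h2 : s.re ≤ 2) : ‖χ.LFunction s‖ ≤ 2 / (s.re - 1) := by
  rw [χ.LFunction_eq_LSeries h1]
  refine (ja2a_le (fun n => χ.norm_le_one n) (sub_pos.2 h1) (by linarith)).trans ?_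
  rw [le_div_iff₀ (sub_pos.2 h1), add_mul, one_div_mul_cancel (sub_pos.2 h1).ne']
  linarith

theorem zeta_le {s : ℂ} (h : 3 / 2 ≤ s.re) : ‖riemannZeta s‖ ≤ 3 := by
  rw [← LSeries_one_eq_riemannZeta (by linarith)]
  exact (ja2a_le (κ := 1 / 2) (fun n => by simp) one_half_pos (by linarith)).trans (by norm_num)

theorem three_four_one {q : ℕ} [NeZero q] (χ : DirichletCharacter ℂ q) {x : ℝ} (h0 : 0 < x)
    (h1 : x ≤ 1) (t : ℝ) :
    x ^ 3 ≤ 8 * ‖(χ ^ 2).LFunction (((1 + x : ℝ) : ℂ) + ((2 * t : ℝ) : ℂ) * I)‖ *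
      ‖χ.LFunction (((1 + x : ℝ) : ℂ) + (t : ℂ) * I)‖ ^ 4 := by
  have h2 := χ.norm_LFunction_product_ge_one h0 t
  have h3 := triv_le (1 : DirichletCharacter ℂ q) (s := 1 + x) (by simpa using h0)
    (by simp; linarith)
  have e1 : ((1 + x : ℝ) : ℂ) + ((2 * t : ℝ) : ℂ) * I = 1 + x + 2 * I * t := by push_cast; ring
  have e2 : ((1 + x : ℝ) : ℂ) + (t : ℂ) * I = 1 + x + I * t := by push_cast; ring
  rw [add_re, one_re, ofReal_re, add_sub_cancel_left, le_div_iff₀ h0] at h3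
  rw [norm_mul, norm_mul, norm_pow, norm_pow, DirichletCharacter.LFunctionTrivChar] at h2
  have h4 := pow_le_pow_left₀ (by positivity) h3 3
  rw [e1, e2]
  have h5 := mul_le_mul_of_nonneg_left h2.le (pow_pos h0 3).le
  have h6 := mul_le_mul_of_nonneg_right h4 (mul_nonneg
    (norm_nonneg ((χ ^ 2).LFunction (1 + x + 2 * I * t)))
    (pow_nonneg (norm_nonneg (χ.LFunction (1 + x + I * t))) 4))
  linarith

end

end Pool.Agent.Jac
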