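import Pool.Agent.P.MP_45ff98_nt.JA1z
import Pool.Agent.P.MP_45ff98_nt.JA2a

/-! Lower bound for the zeta function. -/

namespace Pool.Agent.Jac
open Finset MeasureTheory Complex

noncomputable section

theorem ja2z_norm {s : ℂ} (h : 1 ≤ |s.im|) : 1 ≤ ‖s - 1‖ := by
  have h1 := Complex.abs_im_le_norm (s - 1)
  rw [sub_im, one_im, sub_zero] at h1
  exact h.trans h1

theorem ja2z_le {s : ℂ} (h : 1 ≤ |s.im|) : ‖riemannZeta s‖ ≤ 2 * ‖zf s‖ := by
  have h1 := ja2z_norm h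
  have s1 : s ≠ 1 := by
    rintro rfl
    norm_num at h1
  have s0 : s ≠ 0 := by
    rintro rfl
    norm_num at h
  have h2 : ‖s‖ ≤ 2 * ‖s - 1‖ := by
    have h3 : ‖s‖ ≤ ‖s - 1‖ + ‖(1 : ℂ)‖ := by
      simpa using norm_add_le (s - 1) 1
    rw [norm_one] at h3
    linarith
  rw [zeta_eq_zf s0 s1, norm_div, norm_mul, div_le_iff₀ (by linarith)]
  nlinarith [norm_nonneg (zf s)]

theorem ja2z_up {s : ℂ} (h : 1 ≤ |s.im|) : ‖riemannZeta s‖ ≤ 1 + ‖riemannZeta₀ s‖ := by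
  have h1 := ja2z_norm h
  have s1 : s ≠ 1 := by
    rintro rfl
    norm_num at h1
  rw [riemannZeta_eq_inv_sub_add s1]
  refine (norm_add_le _ _).trans ?_
  rw [norm_inv]
  have := inv_le_one_of_one_le₀ h1
  linarith

theorem ja2z_big {e : ℝ} (h0 : 0 < e) (h1 : e ≤ 1) : ∃ K : ℝ, 0 < K ∧ ∀ σ t : ℝ, 1 ≤ σ → σ ≤ 2 →
    1 ≤ |t| → 1 / (K * ((|t| + 2) ^ e) ^ 4) ≤ ‖zf (σ + t * I)‖ := by
  obtain ⟨C, hC, hup⟩ := zf_up h0 h1
  obtain ⟨C', hC', hup'⟩ := zeta0_up h0 h1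
  refine ⟨16 * (4 * C / (e / 2)) ^ 3 * (384 * C'), by positivity, fun σ t hσ1 hσ2 ht => ?_⟩
  have hT : 1 ≤ |t| + 2 := by linarith
  have hP : 1 ≤ (|t| + 2) ^ e := Real.one_le_rpow hT h0.le
  have hA : 1 ≤ 4 * C / (e / 2) := by
    rw [le_div_iff₀ (by positivity)]
    linarith
  have hP2 : (|2 * t| + 2) ^ e ≤ 2 * (|t| + 2) ^ e := by
    have a1 : (|2 * t| + 2) ^ e ≤ (2 * (|t| + 2)) ^ e := by
      refine Real.rpow_le_rpow (by positivity) ?_ h0.le
      rw [abs_mul, abs_two]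
      linarith
    rw [Real.mul_rpow (by norm_num) (by positivity)] at a1
    have a2 : (2 : ℝ) ^ e ≤ 2 := Real.rpow_le_self_of_one_le (by norm_num) h1
    exact a1.trans (mul_le_mul_of_nonneg_right a2 (by positivity))
  set P := (|t| + 2) ^ e with hPdef
  have key := low_abs (g := fun σ : ℝ => zf (σ + t * I)) (M := 4 * C / (e / 2) * P)
    (M' := 384 * C' * P) (one_le_mul_of_one_le_of_one_le hA hP)
    (one_le_mul_of_one_le_of_one_le (by linarith) hP) ?_ ?_ σ ⟨hσ1, hσ2⟩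
  · refine le_trans (le_of_eq ?_) key
    congr 1
    ring
  · intro a ha b hb
    have hd : DifferentiableOn ℂ zf {s | 1 - e / 2 < s.re} :=
      zf_diff.mono fun s hs => by
        have hs' : 1 - e / 2 < s.re := hs
        show 0 < s.re
        linarith
    have := lip_of_up (f := zf) (R := e / 2) (A := C) (η := e) (by positivity) (by linarith)
      (by linarith) h0.le h1 hd (fun s hs hs' => hup s hs.le hs') (T := |t|)
      (s := a + t * I) (w := b + t * I) ⟨by simpa using ha.1, by simpa using ha.2, by simp⟩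
      ⟨by simpa using hb.1, by simpa using hb.2, by simp⟩
    have e1 : ‖(a + t * I : ℂ) - (b + t * I)‖ = |a - b| := by
      rw [add_sub_add_right_eq_sub, ← ofReal_sub, norm_real, Real.norm_eq_abs]
    rwa [e1] at this
  · intro x hx0 hx1
    have h341 := three_four_one (q := 1) (1 : DirichletCharacter ℂ 1) hx0 hx1 t
    rw [DirichletCharacter.LFunction_modOne_eq, DirichletCharacter.LFunction_modOne_eq] at h341
    have b1 : ‖riemannZeta (((1 + x : ℝ) : ℂ) + (t : ℂ) * I)‖ ≤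
        2 * ‖zf (((1 + x : ℝ) : ℂ) + (t : ℂ) * I)‖ := ja2z_le (by simpa using ht)
    have b2 : ‖riemannZeta (((1 + x : ℝ) : ℂ) + ((2 * t : ℝ) : ℂ) * I)‖ ≤ 3 * C' * P := by
      have him : (((1 + x : ℝ) : ℂ) + ((2 * t : ℝ) : ℂ) * I).im = 2 * t := by simp
      have hre : (((1 + x : ℝ) : ℂ) + ((2 * t : ℝ) : ℂ) * I).re = 1 + x := by simp
      have c1 := ja2z_up (s := ((1 + x : ℝ) : ℂ) + ((2 * t : ℝ) : ℂ) * I) (by
        rw [him, abs_mul, abs_two]
        linarith)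
      have c2 := hup' (((1 + x : ℝ) : ℂ) + ((2 * t : ℝ) : ℂ) * I) (by rw [hre]; linarith)
        (by rw [hre]; linarith)
      rw [him] at c2
      have c3 : C' * (|2 * t| + 2) ^ e ≤ C' * (2 * P) :=
        mul_le_mul_of_nonneg_left hP2 (by linarith)
      have c4 : 1 ≤ C' * P := one_le_mul_of_one_le_of_one_le hC' hP
      linarith
    have b3 := pow_le_pow_left₀ (norm_nonneg _) b1 4
    calc x ^ 3 ≤ _ := h341
      _ ≤ 8 * (3 * C' * P) * (2 * ‖zf (((1 + x : ℝ) : ℂ) + (t : ℂ) * I)‖) ^ 4 :=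
        mul_le_mul (mul_le_mul_of_nonneg_left b2 (by norm_num)) b3 (by positivity) (by positivity)
      _ = _ := by ring

theorem ja2z_ne {s : ℂ} (h : 1 ≤ s.re) : zf s ≠ 0 := by
  have s0 : s ≠ 0 := by
    rintro rfl
    norm_num at h
  by_cases s1 : s = 1
  · rw [s1, zf, riemannZeta₁_one]
    norm_num
  · intro e
    refine riemannZeta_ne_zero_of_one_le_re h ?_
    rw [zeta_eq_zf s0 s1, e, mul_zero, zero_div]

theorem ja2z_small : ∃ c : ℝ, 0 < c ∧ ∀ σ t : ℝ, 1 ≤ σ → σ ≤ 2 → |t| ≤ 1 →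
    c ≤ ‖zf (σ + t * I)‖ := by
  have hK : IsCompact (Set.Icc (1 : ℝ) 2 ×ℂ Set.Icc (-1 : ℝ) 1) :=
    isCompact_Icc.reProdIm isCompact_Icc
  have hc : ContinuousOn (fun s => ‖zf s‖) (Set.Icc (1 : ℝ) 2 ×ℂ Set.Icc (-1 : ℝ) 1) :=
    (zf_diff.continuousOn.mono fun s hs => by
      have := hs.1.1
      show 0 < s.re
      linarith).norm
  obtain ⟨z, hz, hmin⟩ := hK.exists_isMinOn ⟨1, by simp [Complex.mem_reProdIm]⟩ hc
  refine ⟨‖zf z‖, norm_pos_iff.2 (ja2z_ne hz.1.1), fun σ t h1 h2 ht => hmin ?_⟩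
  rw [Complex.mem_reProdIm]
  exact ⟨by simpa using ⟨h1, h2⟩, by simpa using abs_le.1 ht⟩

theorem zf_low {η : ℝ} (h0 : 0 < η) (h1 : η ≤ 1) : ∃ c : ℝ, 0 < c ∧ ∀ σ t : ℝ, 1 ≤ σ → σ ≤ 2 →
    c * (|t| + 2) ^ (-η) ≤ ‖zf (σ + t * I)‖ := by
  obtain ⟨K, hK, hbig⟩ := ja2z_big (e := η / 4) (by positivity) (by linarith)
  obtain ⟨c, hc, hsmall⟩ := ja2z_small
  refine ⟨min c (1 / K), lt_min hc (by positivity), fun σ t hσ1 hσ2 => ?_⟩
  have hT : 1 ≤ |t| + 2 := by linarith [abs_nonneg t]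
  have hpos : 0 ≤ (|t| + 2) ^ (-η) := by positivity
  rcases le_total |t| 1 with ht | ht
  · have a1 : (|t| + 2) ^ (-η) ≤ 1 := Real.rpow_le_one_of_one_le_of_nonpos hT (by linarith)
    calc min c (1 / K) * (|t| + 2) ^ (-η) ≤ c * 1 := mul_le_mul (min_le_left _ _) a1 hpos hc.le
      _ = c := mul_one c
      _ ≤ _ := hsmall σ t hσ1 hσ2 ht
  · refine le_trans (mul_le_mul_of_nonneg_right (min_le_right _ _) hpos)
      (le_trans (le_of_eq ?_) (hbig σ t hσ1 hσ2 ht))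
    rw [← Real.rpow_natCast, ← Real.rpow_mul (by positivity), Real.rpow_neg (by positivity)]
    have : η / 4 * ((4 : ℕ) : ℝ) = η := by
      push_cast
      ring
    rw [this, one_div, one_div, mul_inv]

end

end Pool.Agent.Jac
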