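import Mathlib

/-! Definitions for the sieve of arbitrary intervals. -/

namespace Pool.Agent.Jac
open Finset

noncomputable section

/-- Dyadic box of `p`: `kk p = k` iff `2^(k-1) ≤ p < 2^k`. -/
def kk (p : ℕ) : ℕ := Nat.log 2 p + 1

def ks (T : Finset ℕ) : ℕ := ∑ p ∈ T, kk p

def pr (T : Finset ℕ) : ℕ := ∏ p ∈ T, p

def mn (T : Finset ℕ) : ℕ := sInf (T : Set ℕ)

def top (T : Finset ℕ) (p : ℕ) : Finset ℕ := T.filter (fun q => p ≤ q)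

def abv (T : Finset ℕ) (p : ℕ) : Finset ℕ := T.filter (fun q => p < q)

/-- Primes below `p` lying in boxes of index at least `k`. -/
def PP (k p : ℕ) : Finset ℕ := (range p).filter (fun q => q.Prime ∧ k ≤ kk q)

def Box (k : ℕ) : Finset ℕ := (range (2 ^ k)).filter (fun q => q.Prime ∧ kk q = k)

def mb (k : ℕ) : ℝ := ∑ q ∈ Box k, 1 / (q : ℝ)

def HB (k0 : ℕ) : Prop := ∀ k, k0 ≤ k → 99 / 100 / (k : ℝ) ≤ mb k ∧ mb k ≤ 101 / 100 / (k : ℝ)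

/-- All upper segments pass the test. -/
def GV (ok : Finset ℕ → Prop) (T : Finset ℕ) : Prop := ∀ p ∈ T, ok (top T p)

/-- Only the last step fails the test. -/
def GB (ok : Finset ℕ → Prop) (T : Finset ℕ) : Prop :=
  T.Nonempty ∧ GV ok (T.erase (mn T)) ∧ ¬ ok T

def okR (e t : ℕ) (T : Finset ℕ) : Prop := Even (e + T.card) → ks T + 2 * kk (mn T) ≤ t

def Valid (e t : ℕ) (T : Finset ℕ) : Prop := GV (okR e t) T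

def Bd (e t : ℕ) (T : Finset ℕ) : Prop := GB (okR e t) T

def St (e t k : ℕ) : Prop := k ≤ t ∧ (Even e → 2 * k ≤ t)

def Cont (e t k : ℕ) : Prop := Even (e + 1) → 3 * k ≤ t

instance (e t k : ℕ) : Decidable (Cont e t k) := by unfold Cont; infer_instance

structure Par where
  k0 : ℕ
  kw : ℕ
  k1 : ℕ
  kW : ℕ
  CW : ℕ

def Alw (P : Par) (t : ℕ) (T : Finset ℕ) : Prop :=
  ∀ p ∈ T, (kk p < P.kW → t ≤ P.CW * P.kW + ks (abv T p)) ∧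
    (kk p < P.k1 → t ≤ 7 * P.k1 + ks (abv T p) ∧ t ≤ 9 * kk p + ks (abv T p))

def Term (P : Par) (t : ℕ) (T : Finset ℕ) : Prop :=
  P.kw ≤ kk (mn T) ∧ kk (mn T) ≤ 5 * P.kw ∧ 2 * ks T + 3 * kk (mn T) ≤ 2 * t

def GF (P : Par) (e t : ℕ) (T : Finset ℕ) : Prop := Bd e t T ∧ Alw P t T ∧ Term P t T

def AlwS (P : Par) (t k : ℕ) : Prop :=
  (k < P.kW → t ≤ P.CW * P.kW) ∧ (k < P.k1 → t ≤ 7 * P.k1 ∧ t ≤ 9 * k)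

def TermS (P : Par) (t k : ℕ) : Prop := P.kw ≤ k ∧ k ≤ 5 * P.kw ∧ 5 * k ≤ 2 * t

instance (P : Par) (t k : ℕ) : Decidable (AlwS P t k) := by unfold AlwS; infer_instance

instance (P : Par) (t k : ℕ) : Decidable (TermS P t k) := by unfold TermS; infer_instance

open Classical in
def vals (k0 e t p : ℕ) : Finset (Finset ℕ) := (PP k0 p).powerset.filter (Valid e t)

open Classical in
def bds (k0 e t p : ℕ) : Finset (Finset ℕ) := (PP k0 p).powerset.filter (Bd e t)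

open Classical in
def fam (P : Par) (e t p : ℕ) : Finset (Finset ℕ) := (PP P.k0 p).powerset.filter (GF P e t)

def Gam (P : Par) (e t p : ℕ) : ℝ := ∑ T ∈ fam P e t p, 1 / ((pr T : ℝ) * kk (mn T))

def psi (C : ℝ) (k0 t : ℕ) : ℝ := C * (Real.exp (-2 * t / k0) / k0 + 1 / (t : ℝ) ^ 7)

def bd (C : ℝ) (G t k : ℕ) : ℝ :=
  C * (1 / 2 ^ t + if 2 * k ≤ t + G then (G : ℝ) / (k : ℝ) ^ 2 else 0)

def UU (C : ℝ) (G k0 e t p : ℕ) : ℝ :=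
  ∑ T ∈ vals k0 e t p, psi C k0 (t - ks T) / pr T +
    ∑ T ∈ bds k0 e t p, bd C G (t - ks T) (kk (mn T)) / pr T

/-- The tree operator on primes. -/
def TP (k0 : ℕ) (X : ℕ → ℕ → ℕ → ℝ) (e t p : ℕ) : ℝ :=
  ∑ q ∈ (PP k0 p).filter (fun q => Cont e t (kk q)), X (e + 1) (t - kk q) q / q

/-- The tree operator on boxes, upper form. -/
def TB (lo hi : ℕ) (F : ℕ → ℕ → ℕ → ℝ) (e t : ℕ) : ℝ :=
  ∑ k ∈ (Icc lo hi).filter (Cont e t), 101 / 100 / (k : ℝ) * F (e + 1) (t - k) k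

def psiS (C : ℝ) (G k0 t k : ℕ) : ℝ :=
  C * (Real.exp (-2 * t / k0) / k0 + (G : ℝ) ^ 2 / (t : ℝ) ^ 3 * Real.exp (-(5 / 4) * t / k))

def Rr (C : ℝ) (e t k : ℕ) : ℝ :=
  2 * C * (k : ℝ) ^ 3 / (t : ℝ) ^ 7 +
    if Even e then 54 * C * 4 ^ k / (2 ^ t * t * k) else 13 * C * 2 ^ k / (2 ^ t * t)

def hS (e t k : ℕ) : ℝ :=
  if Even e then Real.exp (-(5 / 4) * t / k)
  else if 3 * k ≤ t then 11 / 10 * Real.exp (-(5 / 4) * t / k)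
  else 11 / 10 * Real.exp (-(15 / 4)) * (3 * k / t)

def Sup (k0 e t k : ℕ) : ℝ := (9 / 10) ^ Nat.log 2 (t / k0) * hS e t k / k

def ind (a b : ℕ) : ℝ := if a ≤ b then 1 else 0

def Gs (e t k : ℕ) : ℝ :=
  (if Even e then 66 / 100 * ind (2 * t) (5 * k) + 45 / 100 * ind t (3 * k) +
      33 / 100 * ind (2 * t) (7 * k) + 3 / 100 * ind t (4 * k)
    else 92 / 100 * ind t (3 * k) + 8 / 100 * ind t (4 * k)) +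
  4 / 1000 * ind (2 * t) (9 * k) + 2 / 10000 * ind (4 * t) (21 * k)

/-- Sifted count in the interval `N + 1, ..., N + y`. -/
def cntA (N : ℤ) (y d p : ℕ) : ℕ :=
  ((Icc 1 y).filter (fun i : ℕ => (d : ℤ) ∣ N + i ∧ ∀ r < p, r.Prime → ¬ (r : ℤ) ∣ N + i)).card

/-- Sifted count in the class of integers with an even number of prime factors. -/
def cntE (x d p : ℕ) : ℕ :=
  ((Icc 1 x).filter (fun n : ℕ => d ∣ n ∧ ArithmeticFunction.liouville n = 1 ∧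
    ∀ r < p, r.Prime → ¬ r ∣ n)).card

def LL (t : ℕ) : ℤ := ∑ n ∈ Icc 1 t, ArithmeticFunction.liouville n

def Cap (z om : ℕ) : ℝ :=
  ∑ T ∈ (PP 0 z).powerset.filter (fun T => om < T.card), 1 / (pr T : ℝ)

def ee (x : ℝ) : ℂ := Complex.exp (2 * Real.pi * Complex.I * x)

/-- Sieve weights of level `D` for the prime set `S`. -/
def Wts (S : Finset ℕ) (D : ℝ) (w : Finset ℕ → ℝ) : Prop :=
  ∀ T, |w T| ≤ 1 ∧ (w T ≠ 0 → T ⊆ S ∧ (pr T : ℝ) ≤ D)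

def Dens (S : Finset ℕ) (g : ℕ → ℝ) : Prop :=
  ∀ r ∈ S, 0 ≤ g r ∧ g r ≤ 1 / 2 ∧ g r ≤ 1 / ((r : ℝ) - 1)

open Classical in
def NN (P : Par) (t0 z om : ℕ) : Finset (Finset ℕ) :=
  (PP P.kW z).powerset.filter
    (fun T => Valid 0 t0 T ∧ t0 ≤ P.CW * P.kW + ks T ∧ T.card ≤ om)

def famW (P : Par) (e t : ℕ) : Finset (Finset ℕ) := fam P e t (2 ^ (P.kW - 1))

def phi (P : Par) (e t : ℕ) : ℝ := Gam P e t (2 ^ (P.kW - 1))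

def GA (P : Par) (N : ℤ) (y e t n : ℕ) : ℝ :=
  ∑ T ∈ famW P e t, (cntA N y (n * pr T) (mn T) : ℝ)

/-- Model weight of a big part. -/
def wN (P : Par) (t0 : ℕ) (T : Finset ℕ) : ℝ := phi P T.card (t0 - ks T) / pr T

/-- True gain of a big part. -/
def gN (P : Par) (N : ℤ) (y t0 : ℕ) (T : Finset ℕ) : ℝ :=
  GA P N y T.card (t0 - ks T) (pr T) / y

def IE (kw E : ℕ) : Finset (Finset ℕ) := (PP 0 (2 ^ (5 * kw))).powerset.filter (fun T => pr T ≤ E)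

abbrev Cl : Type := ℕ × ℕ × ℕ

/-- The exponential sum that carries the error term; the class is parity, level, length. -/
def Ex (P : Par) (E H : ℕ) (b : Cl → Finset ℕ → Finset ℕ → ℕ → ℂ) (c : Cl) (ξ : ℤ) : ℂ :=
  ∑ T ∈ famW P c.1 c.2.1, ∑ S ∈ IE P.kw E, ∑ h ∈ Icc 1 H,
    1 / ((pr T : ℂ) * h) * b c T S h * ee (h * ξ / ((pr T : ℝ) * pr S))

def Coef (b : Cl → Finset ℕ → Finset ℕ → ℕ → ℂ) : Prop :=
  ∀ c T S h, ‖b c T S h‖ ≤ 1 ∧ (b c T S h ≠ 0 → 2 * h ≤ pr T * pr S)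

structure Dat1 (ι : Type) where
  I : Finset ι
  wt : ι → ℝ
  h : ι → ℕ
  Q : ι → ℕ
  Pi : Finset ℕ
  β : Cl → ι → ℕ → ℂ

def Dat1.B {ι : Type} (D : Dat1 ι) (c : Cl) (ξ : ℤ) : ℝ :=
  ∑ i ∈ D.I, D.wt i *
    ‖∑ p ∈ D.Pi, 1 / (p : ℂ) * D.β c i p * ee (D.h i * ξ / ((p : ℝ) * D.Q i))‖

structure Dat1.Ok {ι : Type} (D : Dat1 ι) (Om : ℝ) (Zb W P1 : ℕ) : Prop where
  wt0 : ∀ i, 0 ≤ D.wt i
  sum : ∑ i ∈ D.I, D.wt i ≤ Om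
  sumd : ∀ r : ℕ, 1 ≤ r → ∑ i ∈ D.I.filter (fun i => r ∣ D.h i), D.wt i ≤ Om / r
  hb : ∀ i ∈ D.I, 1 ≤ D.h i ∧ D.h i ≤ Zb
  Qb : ∀ i ∈ D.I, 1 ≤ D.Q i ∧ D.Q i ≤ Zb
  Qp : ∀ i ∈ D.I, ∀ r : ℕ, r.Prime → r ∣ D.Q i → r < W
  Pp : ∀ p ∈ D.Pi, p.Prime ∧ P1 ≤ p ∧ p < W
  Ps : ∑ p ∈ D.Pi, 1 / (p : ℝ) ≤ 3
  βb : ∀ c i p, ‖D.β c i p‖ ≤ 1 ∧ (D.β c i p ≠ 0 → 2 * D.h i ≤ p * D.Q i)

structure Dat2 (ι : Type) where
  I : Finset ι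
  wt : ι → ℝ
  h : ι → ℕ
  Q : ι → ℕ
  Q1 : ι → ℕ
  kb : ι → ℕ
  A : ι → Finset ℕ
  σ : ℕ
  β : Cl → ι → ℕ → ℕ → ℂ

def Dat2.F {ι : Type} (D : Dat2 ι) (c : Cl) (i : ι) (p : ℕ) (ξ : ℤ) : ℂ :=
  1 / (D.σ : ℂ) * ∑ a ∈ D.A i, D.β c i a p * ee (D.h i * ξ / ((a : ℝ) * p * D.Q i))

def Dat2.B {ι : Type} (D : Dat2 ι) (c : Cl) (ξ : ℤ) : ℝ :=
  ∑ i ∈ D.I, D.wt i * ∑ p ∈ Box (D.kb i), 1 / (p : ℝ) * ‖D.F c i p ξ‖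

structure Dat2.Ok {ι : Type} (D : Dat2 ι) (Om : ℝ) (y Yq klo khi : ℕ) : Prop where
  wt0 : ∀ i, 0 ≤ D.wt i
  sum : ∑ i ∈ D.I, D.wt i ≤ Om
  hb : ∀ i ∈ D.I, 1 ≤ D.h i ∧ D.h i ≤ y
  Qb : ∀ i ∈ D.I, 1 ≤ D.Q i ∧ 1 ≤ D.Q1 i ∧ D.Q i * D.Q1 i ≤ Yq
  kb : ∀ i ∈ D.I, klo ≤ D.kb i ∧ D.kb i < khi
  Ab : ∀ i ∈ D.I, (D.A i).card ≤ D.σ ∧ ∀ a ∈ D.A i, 1 ≤ a ∧ a ≤ y ∧ a ∣ D.Q1 i
  Qp : ∀ i ∈ D.I, ∀ p ∈ Box (D.kb i), ¬ p ∣ D.Q1 i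
  βb : ∀ c i a p, ‖D.β c i a p‖ ≤ 1
  σb : 2 ^ khi ≤ D.σ

/-- Virtual count attached to the fraction `R / v`. -/
def vc (v : ℕ) (Ns R : ℤ) (y n f p : ℕ) : ℕ :=
  ((Ioc (R / n) ((R + v * y) / n)).filter (fun m : ℤ => ((v * f : ℕ) : ℤ) ∣ Ns + n * m ∧
    ∀ r < p, r.Prime → ¬ ((v * r : ℕ) : ℤ) ∣ Ns + n * m)).card

/-- `e (b / n mod m)`, the inverse being taken modulo `m`. -/
def ch (m : ℕ) (b : ℤ) (n : ℕ) : ℂ := ee (b * ((n : ZMod m)⁻¹).val / m)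

def thA (t : ℝ) (μ c : ℕ) : ℝ :=
  ∑ q ∈ (Icc 1 ⌊t⌋₊).filter (fun q => q.Prime ∧ q ≡ c [MOD μ]), Real.log q

/-- `F` is holomorphic and bounded on small discs around the strip `1 ≤ Re s ≤ 2`. -/
def Disc (F : ℂ → ℂ) (V η : ℝ) : Prop :=
  ∀ σ t : ℝ, 1 ≤ σ → σ ≤ 2 →
    DifferentiableOn ℂ F (Metric.ball (σ + t * Complex.I) (1 / (V * (|t| + 2) ^ η))) ∧
    ∀ s ∈ Metric.ball (σ + t * Complex.I) (1 / (V * (|t| + 2) ^ η)), ‖F s‖ ≤ V * (|t| + 2) ^ η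

def JJ (t k : ℕ) : ℝ := Real.exp (-(t : ℝ) / k) / (t : ℝ) ^ 3

/-- Number of multiples of `n` in the interval. -/
def MM (N : ℤ) (y n : ℕ) : ℕ := ((N + y) / n - N / n).toNat

def cl (N : ℤ) (y t0 : ℕ) (T : Finset ℕ) : Cl := (T.card % 2, t0 - ks T, MM N y (pr T))

def nf (N : ℤ) (s : ℕ × ℤ) : ℤ := s.1 * N - s.2

/-- A reduced fraction `s.2 / s.1` of moderate size. -/
def Fr (y : ℕ) (s : ℕ × ℤ) : Prop :=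
  1 ≤ s.1 ∧ s.1 ≤ y ∧ |s.2| ≤ 2 * (y : ℤ) ^ 2 ∧ IsCoprime (s.1 : ℤ) s.2

/-- Virtual gain attached to the fraction `s.2 / s.1`. -/
def vg (P : Par) (N : ℤ) (y t0 : ℕ) (s : ℕ × ℤ) (T : Finset ℕ) : ℝ :=
  (∑ F ∈ famW P T.card (t0 - ks T), (vc s.1 (nf N s) s.2 y (pr T) (pr F) (mn F) : ℝ)) / y

def XX (C : ℝ) (G k0 e t p : ℕ) : ℝ := UU C G k0 e t p - Rr C e t (kk p)

/-- The test of the beta sieve. -/
def okB (e : ℕ) (D : ℝ) (T : Finset ℕ) : Prop :=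
  Even (e + T.card) → (pr T : ℝ) * (mn T : ℝ) ^ 1215 ≤ D

/-- One term of the dispersion. -/
def Gt (V Q h : ℕ) (Ns R : ℤ) (Pi : Finset ℕ) (β : ℕ → ℂ) (n : ℕ) : ℂ :=
  ∑ p ∈ Pi.filter (fun p => n.Coprime (V * p * Q)),
    1 / (p : ℂ) * β p * ch (V * p * Q) (h * Ns) n * ee (h * R / ((n : ℝ) * (V * p * Q)))

/-- The pair sum of the dispersion. -/
def PS (m : ℕ) (b : ℤ) (α : ℝ) (X X' : ℕ) : ℂ :=
  ∑ n ∈ (Ioc X X').filter (fun n => n.Coprime m), ch m b n * ee (α / n)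

structure Setup (P : Par) (y z t0 L : ℕ) : Prop where
  hB : HB P.k0
  k0 : 2 ≤ P.k0
  kw : P.k0 ≤ P.kw
  k1 : 5 * P.kw < P.k1
  kW : P.k1 ≤ P.kW
  hz : 2 ^ (P.kW - 1) ≤ z
  st : St 0 t0 (kk z)
  y1 : y ≤ 2 ^ t0
  y2 : (2 ^ t0) ^ 10 ≤ 2 ^ P.kw * y ^ 10
  yL : y ≤ 2 ^ L
  L1 : 1 ≤ L

end

end Pool.Agent.Jac
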