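import Mathlib

/-! Consequences of the count of rough integers in an interval. -/

open Filter

namespace Pool.Agent.Jac.Er

theorem crt (a : ℕ → ℤ) (z : ℝ) :
    ∃ m : ℤ, ∀ p : ℕ, p.Prime → (p : ℝ) ≤ z → (p : ℤ) ∣ m - a p := by
  have h : ∀ N : ℕ, ∃ m : ℤ, ∀ p : ℕ, p.Prime → p < N → (p : ℤ) ∣ m - a p := by
    intro N
    induction N with
    | zero => exact ⟨0, fun p _ h => absurd h (Nat.not_lt_zero p)⟩
    | succ N ih =>
      obtain ⟨m, hm⟩ := ih
      by_cases hN : N.Prime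
      · have hc : IsCoprime ((N - 1).factorial : ℤ) (N : ℤ) := by
          rw [Nat.isCoprime_iff_coprime]
          exact ((Nat.Prime.coprime_iff_not_dvd hN).2 fun h => by
            have := (hN.dvd_factorial).1 h
            have := hN.pos
            omega).symm
        obtain ⟨u, v, e⟩ := hc
        refine ⟨m + (a N - m) * u * (N - 1).factorial, fun p hp h => ?_⟩
        rcases Nat.lt_succ_iff_lt_or_eq.1 h with h1 | h1
        · have h2 : (p : ℤ) ∣ ((N - 1).factorial : ℤ) :=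
            Int.natCast_dvd_natCast.2 ((hp.dvd_factorial).2 (by omega))
          have h3 := (hm p hp h1).add (h2.mul_left ((a N - m) * u))
          exact (by ring : m - a p + (a N - m) * u * ((N - 1).factorial : ℤ) =
            m + (a N - m) * u * (N - 1).factorial - a p) ▸ h3
        · subst h1
          exact ⟨-((a p - m) * v), by linear_combination (a p - m) * e⟩
      · refine ⟨m, fun p hp h => hm p hp ?_⟩
        rcases Nat.lt_succ_iff_lt_or_eq.1 h with h1 | h1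
        · exact h1
        · exact absurd (h1 ▸ hp) hN
  obtain ⟨m, hm⟩ := h (⌊z⌋₊ + 1)
  exact ⟨m, fun p hp h => hm p hp (Nat.lt_succ_of_le (Nat.le_floor h))⟩

variable (H : ∀ A : ℝ, ∃ y0 : ℝ, ∀ y : ℝ, y0 ≤ y → ∀ x : ℝ,
    A * y * Real.log (Real.log y) / Real.log y ^ 2 ≤
      (Set.ncard {n : ℤ | x < n ∧ n < x + y ∧
        ∀ p : ℕ, p.Prime → (p : ℝ) ≤ √y * Real.log y ^ A → ¬ (p : ℤ) ∣ n} : ℝ))

include H

theorem count_classes (A : ℝ) : ∃ y0 : ℝ, ∀ y : ℝ, y0 ≤ y → ∀ (a : ℕ → ℤ) (x : ℝ),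
    A * y * Real.log (Real.log y) / Real.log y ^ 2 ≤
      (Set.ncard {n : ℤ | x < n ∧ n < x + y ∧
        ∀ p : ℕ, p.Prime → (p : ℝ) ≤ √y * Real.log y ^ A → ¬ (p : ℤ) ∣ n - a p} : ℝ) := by
  obtain ⟨y0, h⟩ := H A
  refine ⟨y0, fun y hy a x => ?_⟩
  obtain ⟨m, hm⟩ := crt a (√y * Real.log y ^ A)
  refine (h y hy (x - m)).trans (le_of_eq ?_)
  rw [← Set.ncard_image_of_injective _ (add_left_injective m)]
  refine congrArg (fun S : Set ℤ => (S.ncard : ℝ)) (Set.ext fun n => ⟨?_, ?_⟩)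
  · rintro ⟨k, ⟨h1, h2, h3⟩, rfl⟩
    refine ⟨by push_cast; linarith, by push_cast; linarith, fun p hp hz hd => h3 p hp hz ?_⟩
    have h4 := hd.sub (hm p hp hz)
    simpa using h4
  · rintro ⟨h1, h2, h3⟩
    refine ⟨n - m, ⟨by push_cast; linarith, by push_cast; linarith,
      fun p hp hz hd => h3 p hp hz ?_⟩, sub_add_cancel n m⟩
    have h4 := hd.add (hm p hp hz)
    simpa using h4

theorem one_class (A : ℝ) : ∀ᶠ y : ℝ in atTop, ∀ (a : ℕ → ℤ) (x : ℝ), ∃ n : ℤ,
    x < n ∧ n < x + y ∧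
      ∀ p : ℕ, p.Prime → (p : ℝ) ≤ √y * Real.log y ^ max A 1 → ¬ (p : ℤ) ∣ n - a p := by
  obtain ⟨y0, h⟩ := count_classes H (max A 1)
  filter_upwards [eventually_ge_atTop y0, eventually_gt_atTop 0,
    Real.tendsto_log_atTop.eventually_gt_atTop 1] with y h0 h1 h2 a x
  have h3 := Real.log_pos h2
  have h4 : 0 < max A 1 := lt_max_of_lt_right one_pos
  have h5 : 0 < Real.log y := one_pos.trans h2
  have h6 := lt_of_lt_of_le (by positivity) (h y h0 a x)
  exact Set.nonempty_of_ncard_ne_zero (by exact_mod_cast h6.ne')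

theorem short_interval (A : ℝ) : ∃ x0 : ℝ, ∀ x : ℝ, x0 ≤ x → ∃ n : ℤ,
    x < n ∧ n < x + Real.log x ^ 2 ∧ ∀ p : ℕ, p.Prime →
      (p : ℝ) ≤ Real.log x * Real.log (Real.log x) ^ A → ¬ (p : ℤ) ∣ n := by
  refine eventually_atTop.1 ?_
  have t : Tendsto (fun x : ℝ => Real.log x ^ 2) atTop atTop :=
    (tendsto_pow_atTop two_ne_zero).comp Real.tendsto_log_atTop
  filter_upwards [t.eventually (one_class H A), Real.tendsto_log_atTop.eventually_ge_atTop 0,
    (Real.tendsto_log_atTop.comp Real.tendsto_log_atTop).eventually_ge_atTop 1] with x h h0 h1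
  obtain ⟨n, e1, e2, e3⟩ := h 0 x
  refine ⟨n, e1, e2, fun p hp hz hd => e3 p hp (hz.trans ?_) (by simpa using hd)⟩
  rw [Real.sqrt_sq h0, Real.log_pow]
  refine mul_le_mul_of_nonneg_left ?_ h0
  simp only [Function.comp] at h1
  refine (Real.rpow_le_rpow_of_exponent_le h1 (le_max_left A 1)).trans
    (Real.rpow_le_rpow (by linarith) ?_ (le_max_of_le_right zero_le_one))
  push_cast
  linarith

theorem no_cover (A : ℝ) : ∃ z0 : ℝ, ∀ z : ℝ, z0 ≤ z → ∀ (a : ℕ → ℤ) (x : ℝ), ∃ n : ℤ,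
    x < n ∧ n < x + z ^ 2 / Real.log z ^ A ∧ ∀ p : ℕ, p.Prime → (p : ℝ) ≤ z →
      ¬ (p : ℤ) ∣ n - a p := by
  refine eventually_atTop.1 ?_
  obtain ⟨y0, h⟩ := eventually_atTop.1 (one_class H A)
  have t := (isLittleO_log_rpow_rpow_atTop (max A 1) one_pos).bound one_pos
  filter_upwards [eventually_ge_atTop y0, eventually_gt_atTop 0,
    Real.tendsto_log_atTop.eventually_ge_atTop 1, t] with z h0 z0 h1 h2 a x
  have l0 : 0 < Real.log z := one_pos.trans_le h1
  set B := Real.log z ^ max A 1 with hB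
  have B1 : 1 ≤ B := Real.one_le_rpow h1 (le_max_of_le_right zero_le_one)
  have B0 : 0 < B := one_pos.trans_le B1
  have h3 : B ≤ z := by
    rw [Real.rpow_one, one_mul, Real.norm_of_nonneg B0.le, Real.norm_of_nonneg z0.le] at h2
    exact h2
  have h4 : z ≤ z ^ 2 / B := by
    rw [le_div_iff₀ B0]
    nlinarith
  obtain ⟨n, e1, e2, e3⟩ := h (z ^ 2 / B) (h0.trans h4) a x
  refine ⟨n, e1, e2.trans_le ?_, fun p hp hz => e3 p hp (hz.trans ?_)⟩
  · have := div_le_div_of_nonneg_left (sq_nonneg z) (Real.rpow_pos_of_pos l0 A)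
      (Real.rpow_le_rpow_of_exponent_le h1 (le_max_left A 1))
    linarith
  · have h5 : B ≤ Real.log (z ^ 2 / B) ^ max A 1 :=
      Real.rpow_le_rpow l0.le (Real.log_le_log z0 h4) (le_max_of_le_right zero_le_one)
    have h6 : z / B ≤ √(z ^ 2 / B) := by
      refine Real.le_sqrt_of_sq_le ?_
      rw [div_pow]
      exact div_le_div_of_nonneg_left (sq_nonneg z) B0 (by nlinarith)
    calc z = z / B * B := (div_mul_cancel₀ z B0.ne').symm
      _ ≤ _ := mul_le_mul h6 h5 B0.le (Real.sqrt_nonneg _)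

end Pool.Agent.Jac.Er
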