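import Pool.Agent.P.MP_45ff98_nt.JA0
import Pool.Agent.P.MP_ad7a55_nt.SgB

/-! Upper bound for L-functions near the line of real part one. -/

namespace Pool.Agent.Jac
open Finset MeasureTheory Complex

noncomputable section

theorem ja1_core {η : ℝ} (h0 : 0 < η) (h1 : η ≤ 1) {q : ℕ} [NeZero q]
    {χ : DirichletCharacter ℂ q} (hχ : χ ≠ 1) {s : ℂ} (hs : 1 - η / 2 ≤ s.re) {N : ℕ} (hN : 1 ≤ N)
    (hq : ‖s‖ * q ≤ 2 * N) : ‖χ.LFunction s‖ ≤ (6 + 2 / η) * (N : ℝ) ^ η := by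
  have hσ : 1 / 2 ≤ s.re := by linarith
  have hσ0 : 0 < s.re := by linarith
  have hs0 : s ≠ 0 := fun h => by
    rw [h, Complex.zero_re] at hσ0
    exact lt_irrefl _ hσ0
  have hN1 : (1 : ℝ) ≤ N := Nat.one_le_cast.2 hN
  have hN0 : (0 : ℝ) < N := zero_lt_one.trans_le hN1
  have hm : Measurable fun t : ℝ => EQ.sgbA χ ⌊t⌋₊ :=
    (measurable_of_countable (EQ.sgbA χ)).comp Nat.measurable_floor
  have hP : 0 ≤ (N : ℝ) ^ η := Real.rpow_nonneg hN0.le _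
  have hW : 0 ≤ (N : ℝ) ^ (-s.re) := Real.rpow_nonneg hN0.le _
  have hpow : (N : ℝ) * (N : ℝ) ^ (-s.re) ≤ (N : ℝ) ^ η := by
    rw [mul_comm, ← Real.rpow_add_one hN0.ne']
    exact Real.rpow_le_rpow_of_exponent_le hN1 (by linarith)
  have ht := tail_le hm (fun u => EQ.sgb_le_q hχ ⌊u⌋₊) hσ0 hN1
  have ha : s * ∫ u in (1 : ℝ)..N, EQ.sgbA χ ⌊u⌋₊ * (u : ℂ) ^ (-(s + 1)) =
      ∑ n ∈ Icc 1 N, χ (n : ZMod q) * (n : ℂ) ^ (-s) - EQ.sgbA χ N * (N : ℂ) ^ (-s) :=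
    abel_core (fun n => χ (n : ZMod q)) hs0 hN
  have hp := psum_le (a := fun n => χ (n : ZMod q)) (fun n => χ.norm_le_one _) h0 hs hN
  have hb : ‖EQ.sgbA χ N * (N : ℂ) ^ (-s)‖ ≤ (N : ℝ) ^ η := by
    rw [norm_mul, Complex.norm_natCast_cpow_of_pos hN, Complex.neg_re]
    exact (mul_le_mul_of_nonneg_right (EQ.sgb_le_self χ N) hW).trans hpow
  set I1 := ∫ u in Set.Ioi (1 : ℝ), EQ.sgbA χ ⌊u⌋₊ * (u : ℂ) ^ (-(s + 1)) with hI1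
  set J := ∫ u in (1 : ℝ)..N, EQ.sgbA χ ⌊u⌋₊ * (u : ℂ) ^ (-(s + 1)) with hJ
  have hc : ‖s * (I1 - J)‖ ≤ 4 * (N : ℝ) ^ η := by
    rw [norm_mul]
    have h2 : (q : ℝ) * (N : ℝ) ^ (-s.re) / s.re ≤ 2 * ((q : ℝ) * (N : ℝ) ^ (-s.re)) := by
      rw [div_le_iff₀ hσ0]
      have h3 : 0 ≤ (q : ℝ) * (N : ℝ) ^ (-s.re) := mul_nonneg (Nat.cast_nonneg q) hW
      nlinarith
    calc ‖s‖ * ‖I1 - J‖ ≤ ‖s‖ * (2 * ((q : ℝ) * (N : ℝ) ^ (-s.re))) :=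
          mul_le_mul_of_nonneg_left (ht.trans h2) (norm_nonneg _)
      _ = 2 * (‖s‖ * q * (N : ℝ) ^ (-s.re)) := by ring
      _ ≤ 2 * (2 * N * (N : ℝ) ^ (-s.re)) := by gcongr
      _ = 4 * ((N : ℝ) * (N : ℝ) ^ (-s.re)) := by ring
      _ ≤ _ := by gcongr
  have he : χ.LFunction s = s * (I1 - J) + s * J := by
    rw [EQ.sgb_repr hχ hσ0]
    ring
  rw [he, ha]
  have h4 := norm_add_le (s * (I1 - J))
    (∑ n ∈ Icc 1 N, χ (n : ZMod q) * (n : ℂ) ^ (-s) - EQ.sgbA χ N * (N : ℂ) ^ (-s))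
  have h5 := norm_sub_le (∑ n ∈ Icc 1 N, χ (n : ZMod q) * (n : ℂ) ^ (-s))
    (EQ.sgbA χ N * (N : ℂ) ^ (-s))
  linarith

theorem L_up {η : ℝ} (h0 : 0 < η) (h1 : η ≤ 1) : ∃ C : ℝ, 1 ≤ C ∧ ∀ (q : ℕ) [NeZero q]
    (χ : DirichletCharacter ℂ q), χ ≠ 1 → ∀ s : ℂ, 1 - η / 2 ≤ s.re → s.re ≤ 4 →
      ‖χ.LFunction s‖ ≤ C * (q : ℝ) ^ η * (|s.im| + 2) ^ η := by
  have h2 : 0 < 2 / η := by positivity
  refine ⟨2 * (6 + 2 / η), by linarith, fun q _ χ hχ s hs hs' => ?_⟩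
  have hq : (1 : ℝ) ≤ q := Nat.one_le_cast.2 (NeZero.pos q)
  have hT : 2 ≤ |s.im| + 2 := by linarith [abs_nonneg s.im]
  set T := |s.im| + 2 with hTd
  have hqT : 1 ≤ (q : ℝ) * T := by nlinarith
  have h3 : (q : ℝ) * T ≤ ⌈(q : ℝ) * T⌉₊ := Nat.le_ceil _
  have h4 : (⌈(q : ℝ) * T⌉₊ : ℝ) ≤ 2 * ((q : ℝ) * T) := by
    have := Nat.ceil_lt_add_one (zero_le_one.trans hqT)
    linarith
  have h5 : ‖s‖ ≤ 2 * T := by
    have h6 := Complex.norm_le_abs_re_add_abs_im s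
    have h7 : |s.re| ≤ 4 := abs_le.2 ⟨by linarith, hs'⟩
    linarith [abs_nonneg s.im]
  have hN : 1 ≤ ⌈(q : ℝ) * T⌉₊ := Nat.one_le_cast.1 (hqT.trans h3)
  refine (ja1_core h0 h1 hχ hs hN (by nlinarith)).trans ?_
  have h8 : (⌈(q : ℝ) * T⌉₊ : ℝ) ^ η ≤ 2 * ((q : ℝ) ^ η * T ^ η) := by
    refine (Real.rpow_le_rpow (Nat.cast_nonneg _) h4 h0.le).trans ?_
    rw [Real.mul_rpow zero_le_two (zero_le_one.trans hqT),
      Real.mul_rpow (zero_le_one.trans hq) (zero_le_two.trans hT)]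
    refine mul_le_mul_of_nonneg_right ?_ (by positivity)
    exact (Real.rpow_le_rpow_of_exponent_le one_le_two h1).trans_eq (Real.rpow_one 2)
  calc (6 + 2 / η) * (⌈(q : ℝ) * T⌉₊ : ℝ) ^ η ≤ (6 + 2 / η) * (2 * ((q : ℝ) ^ η * T ^ η)) :=
        mul_le_mul_of_nonneg_left h8 (by linarith)
    _ = _ := by ring

end

end Pool.Agent.Jac
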