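import Pool.Agent.P.MP_45ff98_nt.JBase
import Pool.Agent.P.MP_78d079_nt.PNT

/-! The mass of the dyadic boxes. -/

namespace Pool.Agent.Jac
open Finset MeasureTheory Complex

noncomputable section

/-- the prime part of the Mertens sum -/
def ja10_P (N : ℕ) : ℝ := ∑ n ∈ range N, (if n.Prime then Real.log n else 0) / (n : ℝ)

theorem ja10_lim : ∃ c : ℝ, Filter.Tendsto (fun N : ℕ => ja10_P (N + 1) - Real.log N)
    Filter.atTop (nhds c) := by
  obtain ⟨c, hc⟩ := Pool.Agent.P.MP_78d079_nt.mertens_one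
  have h := ArithmeticFunction.vonMangoldt.summable_residueClass_non_primes_div (q := 1) 0
  have h1 : ∀ n, ArithmeticFunction.vonMangoldt.residueClass (q := 1) 0 n =
      ArithmeticFunction.vonMangoldt n :=
    fun n => Set.indicator_of_mem (s := {n : ℕ | (n : ZMod 1) = 0})
      (Subsingleton.elim (α := ZMod 1) _ _) _
  simp only [h1] at h
  have h2 := (Filter.tendsto_add_atTop_iff_nat 1).2 h.hasSum.tendsto_sum_nat
  refine ⟨_, (hc.sub h2).congr fun N => ?_⟩
  have h3 : ja10_P (N + 1) = ∑ k ∈ range (N + 1), ArithmeticFunction.vonMangoldt k / (k : ℝ) -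
      ∑ k ∈ range (N + 1), (if k.Prime then 0 else ArithmeticFunction.vonMangoldt k) / (k : ℝ) := by
    rw [ja10_P, ← sum_sub_distrib]
    refine sum_congr rfl fun k _ => ?_
    split_ifs with hk
    · rw [ArithmeticFunction.vonMangoldt_apply_prime hk]; simp
    · simp
  rw [h3]
  ring

theorem ja10_lim2 : ∃ c : ℝ, Filter.Tendsto (fun k : ℕ => ja10_P (2 ^ k) - k * Real.log 2)
    Filter.atTop (nhds c) := by
  obtain ⟨c, hc⟩ := ja10_lim
  refine ⟨c, (hc.comp (tendsto_pow_atTop_atTop_of_one_lt (r := (2 : ℕ)) one_lt_two)).congr' ?_⟩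
  filter_upwards [Filter.eventually_ge_atTop 2] with k hk
  have h1 : ¬(2 ^ k).Prime := Nat.Prime.not_prime_pow hk
  show ja10_P (2 ^ k + 1) - Real.log ((2 ^ k : ℕ) : ℝ) = _
  rw [ja10_P, sum_range_succ, if_neg h1, zero_div, add_zero, ← ja10_P]
  push_cast
  rw [Real.log_pow]

theorem ja10_mem {k q : ℕ} (h : q ∈ Box (k + 1)) : q.Prime ∧ 2 ^ k ≤ q ∧ q < 2 ^ (k + 1) := by
  obtain ⟨h1, h2⟩ := mem_Box.1 h
  exact ⟨h1, by simpa using (le_kk_iff h1.ne_zero).1 h2.ge, (kk_le_iff h1.ne_zero).1 h2.le⟩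

theorem ja10_box (k : ℕ) : ∑ q ∈ Box (k + 1), Real.log q / q =
    ja10_P (2 ^ (k + 1)) - ja10_P (2 ^ k) := by
  have e : Box (k + 1) = (Ico (2 ^ k) (2 ^ (k + 1))).filter Nat.Prime := by
    ext q
    rw [mem_filter, mem_Ico]
    refine ⟨fun h => ⟨(ja10_mem h).2, (ja10_mem h).1⟩, fun ⟨⟨h1, h2⟩, h3⟩ => mem_Box.2 ⟨h3, ?_⟩⟩
    exact le_antisymm ((kk_le_iff h3.ne_zero).2 h2) ((le_kk_iff h3.ne_zero).2 (by simpa using h1))
  rw [e, ja10_P, ja10_P, ← sum_Ico_eq_sub _ (Nat.pow_le_pow_right two_pos (Nat.le_succ k)),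
    sum_filter]
  refine sum_congr rfl fun q _ => ?_
  split_ifs <;> simp

theorem box_log : Filter.Tendsto (fun k : ℕ => ∑ q ∈ Box k, Real.log q / q) Filter.atTop
    (nhds (Real.log 2)) := by
  obtain ⟨c, hc⟩ := ja10_lim2
  refine (Filter.tendsto_add_atTop_iff_nat 1).1 ?_
  have h := (((Filter.tendsto_add_atTop_iff_nat 1).2 hc).sub hc).add_const (Real.log 2)
  rw [sub_self, zero_add] at h
  refine h.congr fun k => ?_
  rw [ja10_box]
  push_cast
  ring

theorem ja10_num {l j m S : ℝ} (hl : 0 < l) (hj : 1000 ≤ j) (m0 : 0 ≤ m)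
    (a1 : 995 / 1000 * l < S) (a2 : S < 1005 / 1000 * l) (s1 : j * l * m ≤ S)
    (s2 : S ≤ (j + 1) * l * m) : 99 / 100 ≤ m * (j + 1) ∧ m * (j + 1) ≤ 101 / 100 := by
  have t1 : 995 / 1000 ≤ (j + 1) * m := le_of_mul_le_mul_right (by linarith) hl
  have t2 : j * m ≤ 1005 / 1000 := le_of_mul_le_mul_right (by linarith) hl
  have t3 : 1000 * m ≤ j * m := mul_le_mul_of_nonneg_right hj m0
  constructor <;> linarith

theorem exists_HB : ∃ k : ℕ, HB k := by
  have hl : 0 < Real.log 2 := Real.log_pos one_lt_two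
  have h1 := box_log.eventually (lt_mem_nhds (show 995 / 1000 * Real.log 2 < Real.log 2 by linarith))
  have h2 := box_log.eventually (gt_mem_nhds (show Real.log 2 < 1005 / 1000 * Real.log 2 by linarith))
  obtain ⟨k0, hk0⟩ := Filter.eventually_atTop.1 (h1.and (h2.and (Filter.eventually_ge_atTop 1001)))
  refine ⟨k0, fun k hk => ?_⟩
  obtain ⟨a1, a2, a3⟩ := hk0 k hk
  obtain ⟨j, rfl⟩ : ∃ j, k = j + 1 := ⟨k - 1, by omega⟩
  have hj : (1000 : ℝ) ≤ j := by exact_mod_cast (by omega : 1000 ≤ j)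
  have hb : ∀ q ∈ Box (j + 1), j * Real.log 2 * (1 / (q : ℝ)) ≤ Real.log q / q ∧
      Real.log q / q ≤ (j + 1) * Real.log 2 * (1 / (q : ℝ)) := fun q hq => by
    obtain ⟨b1, b2, b3⟩ := ja10_mem hq
    have q0 : (0 : ℝ) < q := by exact_mod_cast b1.pos
    have c1 : j * Real.log 2 ≤ Real.log q := by
      rw [← Real.log_pow]
      exact Real.log_le_log (by positivity) (by exact_mod_cast b2)
    have c2 : Real.log q ≤ (j + 1) * Real.log 2 := by
      have : Real.log q ≤ Real.log ((2 : ℝ) ^ (j + 1)) :=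
        Real.log_le_log q0 (by exact_mod_cast b3.le)
      rw [Real.log_pow] at this
      exact_mod_cast this
    rw [mul_one_div, mul_one_div]
    exact ⟨div_le_div_of_nonneg_right c1 q0.le, div_le_div_of_nonneg_right c2 q0.le⟩
  have s1 : j * Real.log 2 * mb (j + 1) ≤ ∑ q ∈ Box (j + 1), Real.log q / q := by
    rw [mb, mul_sum]
    exact sum_le_sum fun q hq => (hb q hq).1
  have s2 : ∑ q ∈ Box (j + 1), Real.log q / q ≤ (j + 1) * Real.log 2 * mb (j + 1) := by
    rw [mb, mul_sum]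
    exact sum_le_sum fun q hq => (hb q hq).2
  have m0 : 0 ≤ mb (j + 1) := sum_nonneg fun q _ => by positivity
  push_cast
  rw [div_le_iff₀ (by positivity), le_div_iff₀ (by positivity)]
  exact ja10_num hl hj m0 a1 a2 s1 s2

end

end Pool.Agent.Jac
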