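import Pool.Agent.P.MP_45ff98_nt.JA1
import Pool.Agent.P.MP_45ff98_nt.JA2a

/-! Lower bound for L-functions of complex characters. -/

namespace Pool.Agent.Jac
open Finset MeasureTheory Complex

noncomputable section

theorem L_low_ne {η : ℝ} (h0 : 0 < η) (h1 : η ≤ 1) : ∃ c : ℝ, 0 < c ∧ ∀ (q : ℕ) [NeZero q]
    (χ : DirichletCharacter ℂ q), χ ≠ 1 → χ ^ 2 ≠ 1 → ∀ σ t : ℝ, 1 ≤ σ → σ ≤ 2 →
      c * ((q : ℝ) ^ (-(6 * η)) * (|t| + 2) ^ (-(6 * η))) ≤ ‖χ.LFunction (σ + t * I)‖ := by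
  obtain ⟨C, hC, hup⟩ := L_up h0 h1
  refine ⟨1 / (16 * (8 * C / η) ^ 3 * (16 * C)), by positivity,
    fun q _ χ hχ hχ2 σ t hσ1 hσ2 => ?_⟩
  have hq : (1 : ℝ) ≤ q := by exact_mod_cast NeZero.one_le
  have ht : (1 : ℝ) ≤ |t| + 2 := by linarith [abs_nonneg t]
  have hQ : 1 ≤ (q : ℝ) ^ η := Real.one_le_rpow hq h0.le
  have hP : 1 ≤ (|t| + 2) ^ η := Real.one_le_rpow ht h0.le
  have e : ∀ y : ℝ, 0 ≤ y → y ^ (-(6 * η)) = 1 / (y ^ η) ^ 6 := fun y hy => by
    rw [Real.rpow_neg hy, one_div, ← Real.rpow_natCast, ← Real.rpow_mul hy, mul_comm]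
    norm_num
  have h2 : (|2 * t| + 2) ^ η ≤ 2 * (|t| + 2) ^ η := by
    calc (|2 * t| + 2) ^ η ≤ (2 * (|t| + 2)) ^ η := by
          refine Real.rpow_le_rpow (by positivity) ?_ h0.le
          rw [abs_mul, abs_two]
          linarith
      _ = 2 ^ η * (|t| + 2) ^ η := Real.mul_rpow (by norm_num) (by positivity)
      _ ≤ 2 * (|t| + 2) ^ η := mul_le_mul_of_nonneg_right
          (Real.rpow_le_self_of_one_le (by norm_num) h1) (by positivity)
  have hL : ∀ a ∈ Set.Icc (1 : ℝ) 2, ∀ b ∈ Set.Icc (1 : ℝ) 2,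
      ‖χ.LFunction (a + t * I) - χ.LFunction (b + t * I)‖ ≤
        8 * C / η * (q : ℝ) ^ η * (|t| + 2) ^ η * |a - b| := fun a ha b hb => by
    have := lip_of_up (f := χ.LFunction) (R := η / 2) (A := C * (q : ℝ) ^ η) (η := η)
      (by positivity) (by linarith) (by positivity) h0.le h1
      (DirichletCharacter.differentiable_LFunction hχ).differentiableOn
      (fun s k1 k2 => hup q χ hχ s k1.le k2) (T := |t|) (s := a + t * I) (w := b + t * I)
      (by simpa using ha) (by simpa using hb)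
    refine this.trans (le_of_eq ?_)
    rw [add_sub_add_right_eq_sub, ← ofReal_sub, norm_real, Real.norm_eq_abs]
    field_simp
    ring
  have h3 : ∀ x : ℝ, 0 < x → x ≤ 1 → x ^ 3 ≤ 16 * C * (q : ℝ) ^ η * (|t| + 2) ^ η *
      ‖χ.LFunction (((1 + x : ℝ) : ℂ) + t * I)‖ ^ 4 := fun x k1 k2 => by
    refine (three_four_one χ k1 k2 t).trans (mul_le_mul_of_nonneg_right ?_ (by positivity))
    have k3 := hup q (χ ^ 2) hχ2 (((1 + x : ℝ) : ℂ) + ((2 * t : ℝ) : ℂ) * I)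
      (by simp only [add_re, ofReal_re, mul_re, I_re, ofReal_im, I_im]; linarith)
      (by simp only [add_re, ofReal_re, mul_re, I_re, ofReal_im, I_im]; linarith)
    have k4 : (((1 + x : ℝ) : ℂ) + ((2 * t : ℝ) : ℂ) * I).im = 2 * t := by simp
    rw [k4] at k3
    have k5 := mul_le_mul_of_nonneg_left h2 (by positivity : 0 ≤ C * (q : ℝ) ^ η)
    linarith
  rw [e _ (by positivity), e _ (by positivity)]
  generalize (q : ℝ) ^ η = Q at hQ hL h3
  generalize (|t| + 2) ^ η = P at hP hL h3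
  have hQP : 1 ≤ Q * P := one_le_mul_of_one_le_of_one_le hQ hP
  have hK : 1 ≤ 8 * C / η := by rw [le_div_iff₀ h0]; linarith
  have h4 := low_abs (g := fun a : ℝ => χ.LFunction (a + t * I)) (M := 8 * C / η * Q * P)
    (M' := 16 * C * Q * P) (by rw [mul_assoc]; exact one_le_mul_of_one_le_of_one_le hK hQP)
    (by rw [mul_assoc]; exact one_le_mul_of_one_le_of_one_le (by linarith) hQP) hL h3 σ ⟨hσ1, hσ2⟩
  refine le_trans ?_ h4
  generalize 8 * C / η = K at hK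
  rw [div_mul_div_comm, div_mul_div_comm, one_mul, one_mul]
  refine one_div_le_one_div_of_le (by positivity) ?_
  have h5 : (Q * P) ^ 4 ≤ (Q * P) ^ 6 := pow_le_pow_right₀ hQP (by norm_num)
  calc 16 * (K * Q * P) ^ 3 * (16 * C * Q * P) = 16 * K ^ 3 * (16 * C) * (Q * P) ^ 4 := by ring
    _ ≤ 16 * K ^ 3 * (16 * C) * (Q * P) ^ 6 := mul_le_mul_of_nonneg_left h5 (by positivity)
    _ = _ := by ring

end

end Pool.Agent.Jac
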