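import Pool.Agent.P.MP_45ff98_nt.JA1
import Pool.Agent.P.MP_45ff98_nt.JA1z
import Pool.Agent.P.MP_45ff98_nt.JA2a
import Pool.Agent.P.MP_ad7a55_nt.SgD

/-! Lower bound for L-functions of real characters. -/

namespace Pool.Agent.Jac
open Finset MeasureTheory Complex

noncomputable section

theorem triv_up {η : ℝ} (h0 : 0 < η) (h1 : η ≤ 1) : ∃ C : ℝ, 1 ≤ C ∧ ∀ (q : ℕ) [NeZero q] (s : ℂ),
    1 ≤ s.re → s.re ≤ 2 → s.im ≠ 0 → ‖(1 : DirichletCharacter ℂ q).LFunction s‖ ≤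
      C * (q : ℝ) ^ η * (1 / |s.im| + (|s.im| + 2) ^ η) := by
  obtain ⟨C1, hC1, h2⟩ := EQ.div_bound h0
  obtain ⟨C2, hC2, h3⟩ := zeta0_up h0 h1
  refine ⟨max 1 C1 * C2, one_le_mul_of_one_le_of_one_le (le_max_left _ _) hC2,
    fun q _ s hs1 hs2 hs => ?_⟩
  have hq : 0 < q := NeZero.pos q
  have hs' : s ≠ 1 := fun e => hs (by simp [e])
  have e : (1 : DirichletCharacter ℂ q).LFunction s =
      (∏ p ∈ q.primeFactors, (1 - (p : ℂ) ^ (-s))) * riemannZeta s :=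
    DirichletCharacter.LFunctionTrivChar_eq_mul_riemannZeta hs'
  have a1 : ‖∏ p ∈ q.primeFactors, (1 - (p : ℂ) ^ (-s))‖ ≤ max 1 C1 * (q : ℝ) ^ η := by
    rw [norm_prod]
    have b1 : ∏ p ∈ q.primeFactors, ‖1 - (p : ℂ) ^ (-s)‖ ≤ ∏ _p ∈ q.primeFactors, (2 : ℝ) := by
      refine Finset.prod_le_prod (fun _ _ => norm_nonneg _) fun p hp => ?_
      have hp' := (Nat.prime_of_mem_primeFactors hp).pos
      refine (norm_sub_le _ _).trans ?_
      rw [norm_one, norm_natCast_cpow_of_pos hp']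
      have : (p : ℝ) ^ (-s).re ≤ 1 :=
        Real.rpow_le_one_of_one_le_of_nonpos (by exact_mod_cast hp') (by rw [neg_re]; linarith)
      linarith
    rw [Finset.prod_const] at b1
    have b2 : (2 : ℝ) ^ q.primeFactors.card ≤ q.divisors.card := by
      exact_mod_cast EQ.two_pow_omega_le hq
    exact b1.trans (b2.trans ((h2 q hq).trans
      (mul_le_mul_of_nonneg_right (le_max_right _ _) (by positivity))))
  have a2 : ‖riemannZeta s‖ ≤ C2 * (1 / |s.im| + (|s.im| + 2) ^ η) := by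
    have hp : 0 < |s.im| := abs_pos.2 hs
    rw [riemannZeta_eq_inv_sub_add hs']
    refine (norm_add_le _ _).trans ?_
    have b1 : ‖(s - 1)⁻¹‖ ≤ 1 / |s.im| := by
      rw [norm_inv, one_div]
      refine inv_anti₀ hp ?_
      have := abs_im_le_norm (s - 1)
      simpa using this
    have b2 := h3 s (by linarith) (by linarith)
    have b3 : 1 / |s.im| ≤ C2 * (1 / |s.im|) := le_mul_of_one_le_left (by positivity) hC2
    linarith
  rw [e, norm_mul]
  refine (mul_le_mul a1 a2 (norm_nonneg _) (by positivity)).trans (le_of_eq ?_)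
  ring

theorem L_near {η : ℝ} (h0 : 0 < η) (h1 : η ≤ 1) : ∃ c : ℝ, 0 < c ∧ c ≤ 1 ∧ ∀ (q : ℕ) [NeZero q]
    (χ : DirichletCharacter ℂ q), χ ≠ 1 → χ ^ 2 = 1 → ∀ σ t : ℝ, 1 ≤ σ → σ ≤ 2 →
      |t| ≤ c * (q : ℝ) ^ (-(2 * η)) →
        c / 2 * (q : ℝ) ^ (-(2 * η)) ≤ ‖χ.LFunction (σ + t * I)‖ := by
  obtain ⟨c0, hc0, h2⟩ := EQ.siegel h0
  obtain ⟨C, hC, h3⟩ := L_up h0 h1
  have hc : 0 < min 1 (c0 * η / (96 * C)) := lt_min one_pos (by positivity)
  refine ⟨min 1 (c0 * η / (96 * C)), hc, min_le_left _ _, fun q _ χ hχ hχ2 σ t hσ1 hσ2 ht => ?_⟩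
  have c1 : min 1 (c0 * η / (96 * C)) ≤ 1 := min_le_left _ _
  have c2 : min 1 (c0 * η / (96 * C)) * (96 * C) ≤ c0 * η :=
    (le_div_iff₀ (by positivity)).1 (min_le_right _ _)
  generalize min 1 (c0 * η / (96 * C)) = c at hc c1 c2 ht ⊢
  have hq : (1 : ℝ) ≤ q := by exact_mod_cast NeZero.pos q
  have hQ : 1 ≤ (q : ℝ) ^ η := Real.one_le_rpow hq h0.le
  have e2 : (q : ℝ) ^ (-(2 * η)) = (((q : ℝ) ^ η)⁻¹) ^ 2 := by
    rw [Real.rpow_neg (by linarith), mul_comm, Real.rpow_mul (by linarith), Real.rpow_two, inv_pow]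
  have h4 := h2 q χ hχ hχ2
  rw [Real.rpow_neg (by linarith)] at h4
  have h5 := lip_of_up (f := χ.LFunction) (R := η / 2) (A := C * (q : ℝ) ^ η) (T := 1)
    (s := σ + t * I) (w := 1) (by positivity) (by linarith) (by positivity) h0.le h1
    (DirichletCharacter.differentiable_LFunction hχ).differentiableOn
    (fun s a b => h3 q χ hχ s a.le b)
  rw [e2] at ht ⊢
  have hu0 : 0 < ((q : ℝ) ^ η)⁻¹ := by positivity
  have hu1 : ((q : ℝ) ^ η)⁻¹ ≤ 1 := inv_le_one_of_one_le₀ hQ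
  have hu2 : (q : ℝ) ^ η * ((q : ℝ) ^ η)⁻¹ = 1 := mul_inv_cancel₀ (by positivity)
  generalize ((q : ℝ) ^ η)⁻¹ = u at ht h4 hu0 hu1 hu2 ⊢
  generalize (q : ℝ) ^ η = Q at h5 hQ hu2
  have hu3 : u ^ 2 ≤ u := by nlinarith
  have hτ : c * u ^ 2 ≤ 1 := by nlinarith
  rcases le_or_gt (σ - 1) (c * u ^ 2) with hx | hx
  · have h6 := h5 (by simpa using ⟨hσ1, hσ2, ht.trans hτ⟩) (by simp)
    have h7 : ((1 : ℝ) + 2) ^ η ≤ 3 := by
      have := Real.rpow_le_rpow_of_exponent_le (show (1 : ℝ) ≤ 1 + 2 by norm_num) h1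
      rw [Real.rpow_one] at this
      linarith
    have h8 : ‖(σ + t * I : ℂ) - 1‖ ≤ 2 * (c * u ^ 2) := by
      refine (norm_le_abs_re_add_abs_im _).trans ?_
      have a1 : ((σ + t * I : ℂ) - 1).re = σ - 1 := by simp
      have a2 : ((σ + t * I : ℂ) - 1).im = t := by simp
      rw [a1, a2, abs_of_nonneg (by linarith)]
      linarith
    have h9 : 4 * (C * Q) / (η / 2) * ((1 : ℝ) + 2) ^ η * ‖(σ + t * I : ℂ) - 1‖ ≤
        4 * (C * Q) / (η / 2) * 3 * (2 * (c * u ^ 2)) :=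
      mul_le_mul (mul_le_mul_of_nonneg_left h7 (by positivity)) h8 (norm_nonneg _) (by positivity)
    have h10 : 4 * (C * Q) / (η / 2) * 3 * (2 * (c * u ^ 2)) ≤ c0 * u / 2 := by
      have a1 : 4 * (C * Q) / (η / 2) * 3 * (2 * (c * u ^ 2)) =
          c * (96 * C) * (Q * u) * u / (2 * η) := by
        field_simp
        ring
      rw [a1, hu2, mul_one, div_le_div_iff₀ (by positivity) (by norm_num)]
      nlinarith [mul_le_mul_of_nonneg_right c2 hu0.le]
    have h11 := norm_sub_norm_le (χ.LFunction 1) (χ.LFunction (σ + t * I))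
    rw [norm_sub_rev] at h11
    have h12 : c ≤ c0 := by
      have a1 : c * 1 ≤ c * (96 * C) := mul_le_mul_of_nonneg_left (by linarith) hc.le
      have a2 : c0 * η ≤ c0 * 1 := mul_le_mul_of_nonneg_left h1 hc0.le
      linarith
    have h13 : c * u ^ 2 ≤ c0 * u := mul_le_mul h12 hu3 (by positivity) hc0.le
    linarith
  · have hx0 : 0 < σ - 1 := lt_of_le_of_lt (by positivity) hx
    have h6 := three_four_one χ hx0 (by linarith) t
    rw [show 1 + (σ - 1) = σ by ring] at h6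
    have h7 := triv_le (χ ^ 2) (s := (σ : ℂ) + ((2 * t : ℝ) : ℂ) * I) (by simp; linarith)
      (by simpa using hσ2)
    rw [show ((σ : ℂ) + ((2 * t : ℝ) : ℂ) * I).re = σ by simp] at h7
    have hL := norm_nonneg (χ.LFunction (σ + t * I))
    generalize ‖χ.LFunction (σ + t * I)‖ = L at h6 hL ⊢
    generalize σ - 1 = x at hx hx0 h6 h7
    have h8 : x ^ 3 ≤ 8 * (2 / x) * L ^ 4 := h6.trans
      (mul_le_mul_of_nonneg_right (mul_le_mul_of_nonneg_left h7 (by norm_num)) (by positivity))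
    have h9 : x ^ 4 ≤ (2 * L) ^ 4 := by
      have a1 := mul_le_mul_of_nonneg_right h8 hx0.le
      have a2 : 8 * (2 / x) * L ^ 4 * x = (2 * L) ^ 4 := by
        field_simp
        norm_num
      rw [a2] at a1
      linarith
    have h10 : x ≤ 2 * L := le_of_pow_le_pow_left₀ (by norm_num) (by positivity) h9
    linarith

end

end Pool.Agent.Jac
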