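import Pool.Agent.P.MP_45ff98_nt.JA2b
import Pool.Agent.P.MP_45ff98_nt.JA2c

/-! Lower bound for L-functions. -/

namespace Pool.Agent.Jac
open Finset MeasureTheory Complex

noncomputable section

theorem ja2d_pow {x : ℝ} (hx : 0 ≤ x) (η : ℝ) (n : ℕ) : x ^ (-(n * η)) = 1 / (x ^ η) ^ n := by
  rw [Real.rpow_neg hx, mul_comm, Real.rpow_mul hx, Real.rpow_natCast, one_div]

theorem ja2d_two {η : ℝ} (h0 : 0 < η) (h1 : η ≤ 1) (t : ℝ) :
    (|2 * t| + 2) ^ η ≤ 2 * (|t| + 2) ^ η := by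
  have h2 : (2 : ℝ) ^ η ≤ 2 := Real.rpow_le_self_of_one_le one_le_two h1
  calc (|2 * t| + 2) ^ η ≤ (2 * (|t| + 2)) ^ η := by
        refine Real.rpow_le_rpow (by positivity) ?_ h0.le
        rw [abs_mul, abs_two]
        linarith
    _ = 2 ^ η * (|t| + 2) ^ η := Real.mul_rpow (by positivity) (by positivity)
    _ ≤ _ := by gcongr

theorem L_low_eq {η : ℝ} (h0 : 0 < η) (h1 : η ≤ 1) : ∃ c : ℝ, 0 < c ∧ ∀ (q : ℕ) [NeZero q]
    (χ : DirichletCharacter ℂ q), χ ≠ 1 → χ ^ 2 = 1 → ∀ σ t : ℝ, 1 ≤ σ → σ ≤ 2 →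
      c * ((q : ℝ) ^ (-(6 * η)) * (|t| + 2) ^ (-(6 * η))) ≤ ‖χ.LFunction (σ + t * I)‖ := by
  obtain ⟨C, hC, hup⟩ := L_up h0 h1
  obtain ⟨C3, hC3, htr⟩ := triv_up h0 h1
  obtain ⟨c, hc, -, hnear⟩ := L_near h0 h1
  obtain ⟨K, hK⟩ : ∃ K, K = 8 * C / η := ⟨_, rfl⟩
  obtain ⟨K', hK'⟩ : ∃ K', K' = 8 * C3 * (1 / (2 * c) + 2) := ⟨_, rfl⟩
  have hK1 : 1 ≤ K := by rw [hK, le_div_iff₀ h0]; linarith
  have hc2 : 0 < 1 / (2 * c) := by positivity
  have hK1' : 1 ≤ K' := by rw [hK']; nlinarith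
  refine ⟨min (c / 2) (1 / (16 * K ^ 3 * K')), by positivity, fun q _ χ hχ hχ2 σ t s1 s2 => ?_⟩
  have hq : (1 : ℝ) ≤ q := Nat.one_le_cast.2 (Nat.pos_of_ne_zero (NeZero.ne q))
  have hT : (1 : ℝ) ≤ |t| + 2 := by linarith [abs_nonneg t]
  have e6 := ja2d_pow (zero_le_one.trans hq) η 6
  have e6' := ja2d_pow (zero_le_one.trans hT) η 6
  have e2 := ja2d_pow (zero_le_one.trans hq) η 2
  have hQ : 1 ≤ (q : ℝ) ^ η := Real.one_le_rpow hq h0.le
  have hP : 1 ≤ (|t| + 2) ^ η := Real.one_le_rpow hT h0.le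
  have h2t := ja2d_two h0 h1 t
  have hn := hnear q χ hχ hχ2 σ t s1 s2
  push_cast at e6 e6' e2
  rw [e2] at hn
  rw [e6, e6']
  have hlip : ∀ a ∈ Set.Icc (1 : ℝ) 2, ∀ b ∈ Set.Icc (1 : ℝ) 2,
      ‖χ.LFunction (a + t * I) - χ.LFunction (b + t * I)‖ ≤
        K * (q : ℝ) ^ η * (|t| + 2) ^ η * |a - b| := by
    intro a ha b hb
    have := lip_of_up (f := χ.LFunction) (R := η / 2) (A := C * (q : ℝ) ^ η) (by positivity)
      (by linarith) (by positivity) h0.le h1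
      (DirichletCharacter.differentiable_LFunction hχ).differentiableOn
      (fun s hs hs' => hup q χ hχ s hs.le hs') (T := |t|) (s := a + t * I) (w := b + t * I)
      (by simpa using ha) (by simpa using hb)
    rw [add_sub_add_right_eq_sub, ← ofReal_sub, norm_real, Real.norm_eq_abs] at this
    refine this.trans (le_of_eq ?_)
    rw [hK]
    field_simp
    ring
  have htv := fun (x : ℝ) (x0 : 0 < x) (x1 : x ≤ 1) (ht : t ≠ 0) =>
    htr q (((1 + x : ℝ) : ℂ) + ((2 * t : ℝ) : ℂ) * I) (by simp [x0.le]) (by simp; linarith)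
      (by simpa using ht)
  generalize (q : ℝ) ^ η = Q at *
  generalize hPt : (|t| + 2) ^ η = P at *
  have hQ0 : 0 < Q := by linarith
  have hP0 : 0 < P := by linarith
  rcases le_or_gt |t| (c * (1 / Q ^ 2)) with ht | ht
  · refine le_trans ?_ (hn ht)
    refine mul_le_mul (min_le_left _ _) ?_ (by positivity) (by positivity)
    rw [one_div_mul_one_div]
    refine one_div_le_one_div_of_le (by positivity) ?_
    exact (pow_le_pow_right₀ hQ (by norm_num)).trans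
      (le_mul_of_one_le_right (by positivity) (one_le_pow₀ hP))
  · have ht0 : 0 < |t| := lt_of_le_of_lt (by positivity) ht
    have h3 : 1 / |2 * t| ≤ 1 / (2 * c) * Q ^ 2 := by
      rw [abs_mul, abs_two, div_le_iff₀ (by positivity)]
      rw [mul_one_div, div_lt_iff₀ (by positivity)] at ht
      rw [show 1 / (2 * c) * Q ^ 2 * (2 * |t|) = |t| * Q ^ 2 / c by field_simp, le_div_iff₀ hc]
      linarith
    have hQ2 : 1 ≤ Q ^ 2 := one_le_pow₀ hQ
    have h4 : 1 / |2 * t| + (|2 * t| + 2) ^ η ≤ (1 / (2 * c) + 2) * (Q ^ 2 * P) := by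
      have := mul_le_mul_of_nonneg_left hP (show 0 ≤ 1 / (2 * c) * Q ^ 2 by positivity)
      have := mul_le_mul_of_nonneg_right hQ2 hP0.le
      nlinarith
    have h5 := low_abs (g := fun a : ℝ => χ.LFunction (a + t * I)) (M := K * Q * P)
      (M' := K' * Q ^ 3 * P) (one_le_mul_of_one_le_of_one_le (one_le_mul_of_one_le_of_one_le hK1 hQ) hP)
      (one_le_mul_of_one_le_of_one_le (one_le_mul_of_one_le_of_one_le hK1' (one_le_pow₀ hQ)) hP)
      hlip (fun x x0 x1 => ?_) σ ⟨s1, s2⟩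
    · refine le_trans ?_ h5
      refine (mul_le_mul_of_nonneg_right (min_le_right _ _) (by positivity)).trans ?_
      rw [one_div_mul_one_div, one_div_mul_one_div]
      refine one_div_le_one_div_of_le (by positivity) ?_
      have : P ^ 4 ≤ P ^ 6 := pow_le_pow_right₀ hP (by norm_num)
      calc 16 * (K * Q * P) ^ 3 * (K' * Q ^ 3 * P) = 16 * K ^ 3 * K' * (Q ^ 6 * P ^ 4) := by ring
        _ ≤ _ := by gcongr
    · refine (three_four_one χ x0 x1 t).trans (mul_le_mul_of_nonneg_right ?_ (by positivity))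
      have h6 := htv x x0 x1 (abs_pos.1 ht0)
      rw [show (((1 + x : ℝ) : ℂ) + ((2 * t : ℝ) : ℂ) * I).im = 2 * t by simp] at h6
      rw [hχ2]
      calc _ ≤ 8 * (C3 * Q * ((1 / (2 * c) + 2) * (Q ^ 2 * P))) := by
            gcongr
            exact h6.trans (by gcongr)
        _ = _ := by rw [hK']; ring

theorem L_low {η : ℝ} (h0 : 0 < η) (h1 : η ≤ 1) : ∃ c : ℝ, 0 < c ∧ ∀ (q : ℕ) [NeZero q]
    (χ : DirichletCharacter ℂ q), χ ≠ 1 → ∀ σ t : ℝ, 1 ≤ σ → σ ≤ 2 →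
      c * (q : ℝ) ^ (-η) * (|t| + 2) ^ (-η) ≤ ‖χ.LFunction (σ + t * I)‖ := by
  obtain ⟨c, hc, h⟩ := L_low_ne (η := η / 6) (by positivity) (by linarith)
  obtain ⟨c', hc', h'⟩ := L_low_eq (η := η / 6) (by positivity) (by linarith)
  have e : 6 * (η / 6) = η := by ring
  rw [e] at h h'
  refine ⟨min c c', lt_min hc hc', fun q _ χ hχ σ t h1 h2 => ?_⟩
  rw [mul_assoc]
  by_cases hq : χ ^ 2 = 1
  · exact (mul_le_mul_of_nonneg_right (min_le_right _ _) (by positivity)).trans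
      (h' q χ hχ hq σ t h1 h2)
  · exact (mul_le_mul_of_nonneg_right (min_le_left _ _) (by positivity)).trans
      (h q χ hχ hq σ t h1 h2)

end

end Pool.Agent.Jac
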