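import Pool.Agent.P.MP_45ff98_nt.JA3a

/-! Logarithmic derivatives and inverses on small discs. -/

namespace Pool.Agent.Jac
open Finset MeasureTheory Complex

noncomputable section

theorem disc_lem {f : ℂ → ℂ} {s0 : ℂ} {R M m : ℝ} (hR : 0 < R) (hm : 0 < m)
    (hf : DifferentiableOn ℂ f (Metric.ball s0 R)) (hM : ∀ s ∈ Metric.ball s0 R, ‖f s‖ ≤ M)
    (h0 : m ≤ ‖f s0‖) :
    ∀ s ∈ Metric.ball s0 (R * m / (8 * M)), m / 2 ≤ ‖f s‖ ∧ ‖deriv f s‖ ≤ 4 * M / R := by
  have hmM : m ≤ M := h0.trans (hM s0 (Metric.mem_ball_self hR))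
  have hM0 : 0 < M := hm.trans_le hmM
  have hr : R * m / (8 * M) ≤ R / 2 := by
    rw [div_le_div_iff₀ (by positivity) (by positivity)]
    nlinarith [mul_le_mul_of_nonneg_left hmM hR.le, mul_pos hR hM0]
  have hr0 : 0 < R * m / (8 * M) := by positivity
  have hder : ∀ z ∈ Metric.ball s0 (R / 2), ‖deriv f z‖ ≤ 4 * M / R := by
    intro z hz
    have hsub : Metric.closedBall z (R / 2) ⊆ Metric.ball s0 R := by
      intro w hw
      rw [Metric.mem_closedBall] at hw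
      rw [Metric.mem_ball] at hz ⊢
      linarith [dist_triangle w z s0]
    have h1 := Complex.norm_deriv_le_of_forall_mem_sphere_norm_le (half_pos hR)
      (hf.diffContOnCl_ball hsub) (fun w hw => hM w (hsub (Metric.sphere_subset_closedBall hw)))
    refine h1.trans ?_
    rw [div_le_div_iff₀ (by positivity) hR]
    nlinarith [mul_pos hR hM0]
  intro s hs
  have hsub2 : Metric.ball s0 (R * m / (8 * M)) ⊆ Metric.ball s0 (R / 2) :=
    Metric.ball_subset_ball hr
  refine ⟨?_, hder s (hsub2 hs)⟩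
  have hdiff : ∀ x ∈ Metric.ball s0 (R * m / (8 * M)), DifferentiableAt ℂ f x := fun x hx =>
    hf.differentiableAt (Metric.isOpen_ball.mem_nhds
      (Metric.ball_subset_ball (by linarith) (hsub2 hx)))
  have h2 := (convex_ball s0 (R * m / (8 * M))).norm_image_sub_le_of_norm_deriv_le hdiff
    (fun x hx => hder x (hsub2 hx)) (Metric.mem_ball_self hr0) hs
  have h3 : ‖s - s0‖ ≤ R * m / (8 * M) := by
    rw [Metric.mem_ball, dist_eq_norm] at hs
    exact hs.le
  have h4 : 4 * M / R * ‖s - s0‖ ≤ m / 2 := by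
    refine (mul_le_mul_of_nonneg_left h3 (by positivity)).trans (le_of_eq ?_)
    field_simp
    ring
  have h5 : ‖f s0‖ ≤ ‖f s‖ + ‖f s - f s0‖ := by
    have := norm_sub_le (f s) (f s - f s0)
    rwa [sub_sub_cancel] at this
  linarith

theorem ja3_two {η : ℝ} (h1 : η ≤ 1) : (2 : ℝ) ^ η ≤ 2 := by
  have := Real.rpow_le_rpow_of_exponent_le (by norm_num : (1 : ℝ) ≤ 2) h1
  rwa [Real.rpow_one] at this

theorem disc_of_low {f : ℂ → ℂ} {R A a η : ℝ} (hR : 0 < R) (hR1 : R ≤ 1) (hA : 1 ≤ A)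
    (ha : 0 < a) (h0 : 0 ≤ η) (h1 : η ≤ 1) (hf : DifferentiableOn ℂ f {s | 1 - R < s.re})
    (hup : ∀ s : ℂ, 1 - R < s.re → s.re ≤ 4 → ‖f s‖ ≤ A * (|s.im| + 2) ^ η)
    (hlo : ∀ σ t : ℝ, 1 ≤ σ → σ ≤ 2 → a * (|t| + 2) ^ (-η) ≤ ‖f (σ + t * I)‖) :
    1 ≤ 16 * A / (R * a) ∧ Disc (fun s => -deriv f s / f s) (16 * A / (R * a)) (2 * η) ∧
      Disc (fun s => (f s)⁻¹) (16 * A / (R * a)) (2 * η) := by
  have hA0 : 0 < A := by linarith
  have key : ∀ σ t : ℝ, 1 ≤ σ → σ ≤ 2 → ∃ P : ℝ, 1 ≤ P ∧ (|t| + 2) ^ (2 * η) = P ^ 2 ∧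
      a / P ≤ 2 * A * P ∧
      DifferentiableOn ℂ f (Metric.ball (σ + t * I) (1 / (16 * A / (R * a) * P ^ 2))) ∧
      ∀ s ∈ Metric.ball ((σ : ℂ) + t * I) (1 / (16 * A / (R * a) * P ^ 2)),
        a / P / 2 ≤ ‖f s‖ ∧ ‖deriv f s‖ ≤ 4 * (2 * A * P) / R := by
    intro σ t hσ1 hσ2
    have hT : (2 : ℝ) ≤ |t| + 2 := by linarith [abs_nonneg t]
    have hT0 : (0 : ℝ) < |t| + 2 := by linarith
    set P := (|t| + 2) ^ η with hPdef
    have hP : 1 ≤ P := Real.one_le_rpow (by linarith) h0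
    have hP0 : 0 < P := by linarith
    have hin : ∀ s ∈ Metric.ball ((σ : ℂ) + t * I) R,
        1 - R < s.re ∧ s.re ≤ 4 ∧ |s.im| + 2 ≤ 2 * (|t| + 2) := by
      intro s hs
      rw [Metric.mem_ball, dist_eq_norm] at hs
      have e1 := (abs_re_le_norm (s - (σ + t * I))).trans_lt hs
      have e2 := (abs_im_le_norm (s - (σ + t * I))).trans_lt hs
      simp only [sub_re, add_re, ofReal_re, mul_re, I_re, mul_zero, ofReal_im, I_im, mul_one,
        sub_self, add_zero, sub_im, add_im, mul_im, zero_add] at e1 e2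
      have e3 := abs_lt.1 e1
      have e4 : |s.im| ≤ |s.im - t| + |t| := by
        have := abs_add_le (s.im - t) t
        rwa [sub_add_cancel] at this
      refine ⟨by linarith [e3.1], by linarith [e3.2], by linarith [abs_nonneg t]⟩
    have hfb : DifferentiableOn ℂ f (Metric.ball ((σ : ℂ) + t * I) R) :=
      hf.mono fun s hs => (hin s hs).1
    have hM : ∀ s ∈ Metric.ball ((σ : ℂ) + t * I) R, ‖f s‖ ≤ 2 * A * P := by
      intro s hs
      obtain ⟨e1, e2, e3⟩ := hin s hs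
      refine (hup s e1 e2).trans ?_
      have e4 : (|s.im| + 2) ^ η ≤ (2 * (|t| + 2)) ^ η :=
        Real.rpow_le_rpow (by positivity) e3 h0
      rw [Real.mul_rpow (by norm_num) hT0.le] at e4
      have e5 : (2 : ℝ) ^ η * P ≤ 2 * P := mul_le_mul_of_nonneg_right (ja3_two h1) hP0.le
      nlinarith [mul_le_mul_of_nonneg_left (e4.trans e5) hA0.le]
    have hm : a / P ≤ ‖f (σ + t * I)‖ := by
      have := hlo σ t hσ1 hσ2
      rwa [Real.rpow_neg hT0.le, ← div_eq_mul_inv] at this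
    have hle : a / P ≤ 2 * A * P := hm.trans (hM _ (Metric.mem_ball_self hR))
    have hrad : R * (a / P) / (8 * (2 * A * P)) = 1 / (16 * A / (R * a) * P ^ 2) := by
      field_simp
      ring
    have hl := disc_lem hR (div_pos ha hP0) hfb hM hm
    rw [hrad] at hl
    refine ⟨P, hP, ?_, hle, hfb.mono (Metric.ball_subset_ball ?_), hl⟩
    · rw [hPdef, mul_comm 2 η, Real.rpow_mul hT0.le, Real.rpow_two]
    · rw [← hrad, div_le_iff₀ (by positivity)]
      nlinarith [mul_le_mul_of_nonneg_left hle hR.le, mul_pos hR (mul_pos hA0 hP0)]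
  refine ⟨?_, ?_, ?_⟩
  · have e1 := hlo 1 0 le_rfl (by norm_num)
    have e2 := hup ((1 : ℝ) + (0 : ℝ) * I) (by simp; linarith) (by simp)
    have e3 := e1.trans e2
    simp only [abs_zero, zero_add, ofReal_one, ofReal_zero, zero_mul, add_zero, one_im] at e3
    have e0 : (0 : ℝ) < (2 : ℝ) ^ η := by positivity
    rw [Real.rpow_neg (by norm_num), ← div_eq_mul_inv, div_le_iff₀ e0] at e3
    have e4 := ja3_two h1
    have e5 : (2 : ℝ) ^ η * 2 ^ η ≤ 4 := by nlinarith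
    have e6 : a ≤ 4 * A := by nlinarith [mul_le_mul_of_nonneg_left e5 hA0.le]
    rw [le_div_iff₀ (by positivity)]
    nlinarith [mul_le_mul_of_nonneg_right hR1 ha.le]
  · intro σ t hσ1 hσ2
    obtain ⟨P, hP, hP2, -, hd, hb⟩ := key σ t hσ1 hσ2
    have hP0 : 0 < P := by linarith
    rw [hP2]
    have hne : ∀ s ∈ Metric.ball ((σ : ℂ) + t * I) (1 / (16 * A / (R * a) * P ^ 2)), f s ≠ 0 := by
      intro s hs
      have : 0 < a / P / 2 := by positivity
      exact norm_pos_iff.1 (this.trans_le (hb s hs).1)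
    refine ⟨((hd.deriv Metric.isOpen_ball).neg).div hd hne, fun s hs => ?_⟩
    obtain ⟨e1, e2⟩ := hb s hs
    rw [norm_div, norm_neg]
    refine (div_le_div₀ (by positivity) e2 (by positivity) e1).trans (le_of_eq ?_)
    field_simp
    ring
  · intro σ t hσ1 hσ2
    obtain ⟨P, hP, hP2, -, hd, hb⟩ := key σ t hσ1 hσ2
    have hP0 : 0 < P := by linarith
    rw [hP2]
    have hne : ∀ s ∈ Metric.ball ((σ : ℂ) + t * I) (1 / (16 * A / (R * a) * P ^ 2)), f s ≠ 0 := by
      intro s hs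
      have : 0 < a / P / 2 := by positivity
      exact norm_pos_iff.1 (this.trans_le (hb s hs).1)
    refine ⟨hd.inv hne, fun s hs => ?_⟩
    obtain ⟨e1, -⟩ := hb s hs
    rw [norm_inv]
    refine (inv_anti₀ (by positivity) e1).trans ?_
    have e2 : (a / P / 2)⁻¹ = 2 * P / a := by field_simp
    have e3 : 16 * A / (R * a) * P ^ 2 = 16 * A * P ^ 2 / R / a := by field_simp
    rw [e2, e3]
    refine div_le_div_of_nonneg_right ?_ ha.le
    rw [le_div_iff₀ hR]
    have e4 : P ≤ P ^ 2 := by nlinarith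
    have e5 : P ^ 2 ≤ A * P ^ 2 := by nlinarith
    nlinarith [mul_le_mul_of_nonneg_left hR1 hP0.le]

end

end Pool.Agent.Jac
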