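import Pool.Agent.P.MP_45ff98_nt.JDefs

/-! Operations on functions that are bounded on small discs. -/

namespace Pool.Agent.Jac
open Finset MeasureTheory Complex

noncomputable section

theorem ja3a_two_le (t : ℝ) : (2 : ℝ) ≤ |t| + 2 := by
  have := abs_nonneg t
  linarith

theorem ja3a_pos (t η : ℝ) : 0 < (|t| + 2) ^ η :=
  Real.rpow_pos_of_pos (by have := ja3a_two_le t; linarith) η

theorem ja3a_one_le (t : ℝ) {η : ℝ} (h : 0 ≤ η) : 1 ≤ (|t| + 2) ^ η :=
  Real.one_le_rpow (by have := ja3a_two_le t; linarith) h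

theorem ja3a_sub (z : ℂ) {a b : ℝ} (ha : 0 < a) (hab : a ≤ b) :
    Metric.ball z (1 / b) ⊆ Metric.ball z (1 / a) :=
  Metric.ball_subset_ball (one_div_le_one_div_of_le ha hab)

theorem Disc.mono {F : ℂ → ℂ} {V V' η η' : ℝ} (h : Disc F V η) (hV : 0 < V) (hV' : V ≤ V')
    (hη : η ≤ η') : Disc F V' η' := by
  intro σ t h1 h2
  have hle : V * (|t| + 2) ^ η ≤ V' * (|t| + 2) ^ η' :=
    mul_le_mul hV' (Real.rpow_le_rpow_of_exponent_le (by have := ja3a_two_le t; linarith) hη)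
      (ja3a_pos t η).le (hV.le.trans hV')
  have hs := ja3a_sub (σ + t * Complex.I) (mul_pos hV (ja3a_pos t η)) hle
  exact ⟨(h σ t h1 h2).1.mono hs, fun s hs' => ((h σ t h1 h2).2 s (hs hs')).trans hle⟩

theorem Disc.add {F G : ℂ → ℂ} {V η : ℝ} (h : Disc F V η) (h' : Disc G V η) (hV : 0 < V) :
    Disc (fun s => F s + G s) (2 * V) η := by
  intro σ t h1 h2
  have hp := mul_pos hV (ja3a_pos t η)
  have hle : V * (|t| + 2) ^ η ≤ 2 * V * (|t| + 2) ^ η := by nlinarith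
  have hs := ja3a_sub (σ + t * Complex.I) hp hle
  refine ⟨((h σ t h1 h2).1.mono hs).add ((h' σ t h1 h2).1.mono hs), fun s hs' => ?_⟩
  have a := (h σ t h1 h2).2 s (hs hs')
  have b := (h' σ t h1 h2).2 s (hs hs')
  have c := norm_add_le (F s) (G s)
  linarith

theorem Disc.mul {F G : ℂ → ℂ} {V η : ℝ} (h : Disc F V η) (h' : Disc G V η) (hV : 1 ≤ V)
    (hη : 0 ≤ η) : Disc (fun s => F s * G s) (V ^ 2) (2 * η) := by
  intro σ t h1 h2
  have hT : (0 : ℝ) < |t| + 2 := by have := ja3a_two_le t; linarith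
  have e : V ^ 2 * (|t| + 2) ^ (2 * η) = (V * (|t| + 2) ^ η) * (V * (|t| + 2) ^ η) := by
    rw [two_mul, Real.rpow_add hT]
    ring
  have h1' : 1 ≤ V * (|t| + 2) ^ η := one_le_mul_of_one_le_of_one_le hV (ja3a_one_le t hη)
  have hle : V * (|t| + 2) ^ η ≤ V ^ 2 * (|t| + 2) ^ (2 * η) := by
    rw [e]
    nlinarith
  have hs := ja3a_sub (σ + t * Complex.I) (by linarith) hle
  refine ⟨((h σ t h1 h2).1.mono hs).mul ((h' σ t h1 h2).1.mono hs), fun s hs' => ?_⟩
  have a := (h σ t h1 h2).2 s (hs hs')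
  have b := (h' σ t h1 h2).2 s (hs hs')
  rw [e, norm_mul]
  exact mul_le_mul a b (norm_nonneg _) (by linarith)

theorem disc_of_up {f : ℂ → ℂ} {R A η : ℝ} (hR : 0 < R) (hR1 : R ≤ 1) (hA : 1 ≤ A) (h0 : 0 ≤ η)
    (h1 : η ≤ 1) (hf : DifferentiableOn ℂ f {s | 1 - R < s.re})
    (hup : ∀ s : ℂ, 1 - R < s.re → s.re ≤ 4 → ‖f s‖ ≤ A * (|s.im| + 2) ^ η) :
    Disc f (2 * A / R) η := by
  intro σ t hσ1 hσ2
  have hP := ja3a_one_le t h0
  have hrad : 1 / (2 * A / R * (|t| + 2) ^ η) ≤ R / 2 := by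
    have h2 : 2 / R ≤ 2 * A / R * (|t| + 2) ^ η := by
      have a : 2 / R ≤ 2 * A / R := div_le_div_of_nonneg_right (by linarith) hR.le
      have b : 0 < 2 / R := by positivity
      nlinarith
    calc 1 / (2 * A / R * (|t| + 2) ^ η) ≤ 1 / (2 / R) :=
          one_div_le_one_div_of_le (by positivity) h2
      _ = R / 2 := by field_simp
  have hball : ∀ s ∈ Metric.ball ((σ : ℂ) + t * Complex.I) (1 / (2 * A / R * (|t| + 2) ^ η)),
      1 - R < s.re ∧ s.re ≤ 4 ∧ |s.im| + 2 ≤ 2 * (|t| + 2) := by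
    intro s hs
    rw [Metric.mem_ball, dist_eq_norm] at hs
    have hre := Complex.abs_re_le_norm (s - (σ + t * Complex.I))
    have him := Complex.abs_im_le_norm (s - (σ + t * Complex.I))
    have e1 : (s - ((σ : ℂ) + t * Complex.I)).re = s.re - σ := by simp
    have e2 : (s - ((σ : ℂ) + t * Complex.I)).im = s.im - t := by simp
    rw [e1] at hre
    rw [e2] at him
    have a := abs_le.1 (hre.trans (hs.le.trans hrad))
    have b := him.trans (hs.le.trans hrad)
    have c : |s.im| ≤ |s.im - t| + |t| := by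
      have := abs_add_le (s.im - t) t
      rwa [sub_add_cancel] at this
    have d := abs_nonneg t
    refine ⟨by linarith [a.1], by linarith [a.2], by linarith⟩
  refine ⟨hf.mono fun s hs => (hball s hs).1, fun s hs => ?_⟩
  obtain ⟨a, b, c⟩ := hball s hs
  have hT : (0 : ℝ) ≤ |t| + 2 := by have := ja3a_two_le t; linarith
  have d : (|s.im| + 2) ^ η ≤ 2 * (|t| + 2) ^ η := by
    calc (|s.im| + 2) ^ η ≤ (2 * (|t| + 2)) ^ η :=
          Real.rpow_le_rpow (by have := ja3a_two_le s.im; linarith) c h0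
      _ = (2 : ℝ) ^ η * (|t| + 2) ^ η := Real.mul_rpow (by norm_num) hT
      _ ≤ 2 * (|t| + 2) ^ η :=
          mul_le_mul_of_nonneg_right (Real.rpow_le_self_of_one_le (by norm_num) h1) (by linarith)
  have e : 2 * A ≤ 2 * A / R := by
    rw [le_div_iff₀ hR]
    nlinarith
  calc ‖f s‖ ≤ A * (|s.im| + 2) ^ η := hup s a b
    _ ≤ A * (2 * (|t| + 2) ^ η) := mul_le_mul_of_nonneg_left d (by linarith)
    _ = 2 * A * (|t| + 2) ^ η := by ring
    _ ≤ 2 * A / R * (|t| + 2) ^ η := mul_le_mul_of_nonneg_right e (by linarith)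

end

end Pool.Agent.Jac
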