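import Pool.Agent.P.MP_45ff98_nt.JA4a

/-! The Riesz mean as an integral. -/

namespace Pool.Agent.Jac
open Finset MeasureTheory Complex

noncomputable section

theorem ja4_term (a : ℕ → ℂ) {x : ℝ} (hx : 0 < x) (s : ℂ) {n : ℕ} (hn : n ≠ 0) :
    (x : ℂ) ^ s * LSeries.term a s n = a n * (((n : ℝ) / x : ℝ) : ℂ) ^ (-s) := by
  rw [LSeries.term_of_ne_zero hn, ofReal_div, div_cpow_ofReal_nonneg (Nat.cast_nonneg n) hx.le,
    cpow_neg, cpow_neg, ofReal_natCast, inv_div_inv]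
  ring

theorem ja4_norm (a : ℕ → ℂ) (σ t : ℝ) {x : ℝ} (hx : 0 < x) (n : ℕ) :
    ‖(x : ℂ) ^ ((σ : ℂ) + t * I) * LSeries.term a (σ + t * I) n‖ =
      x ^ σ * ‖LSeries.term a σ n‖ := by
  rw [norm_mul, norm_cpow_eq_rpow_re_of_pos hx, LSeries.norm_term_eq, LSeries.norm_term_eq]
  simp

theorem ja4_cont (a : ℕ → ℂ) (σ : ℝ) {x : ℝ} (hx : 0 < x) (n : ℕ) :
    Continuous fun t : ℝ => (x : ℂ) ^ ((σ : ℂ) + t * I) * LSeries.term a (σ + t * I) n := by
  rcases eq_or_ne n 0 with rfl | hn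
  · simp only [LSeries.term_zero, mul_zero]
    exact continuous_const
  · simp only [ja4_term a hx _ hn]
    have h : (((n : ℝ) / x : ℝ) : ℂ) ≠ 0 :=
      ofReal_ne_zero.2 (div_pos (Nat.cast_pos.2 (Nat.pos_of_ne_zero hn)) hx).ne'
    exact continuous_const.mul (Continuous.const_cpow (by fun_prop) (Or.inl h))

theorem riesz {a : ℕ → ℂ} {σ x : ℝ} (hσ : 0 < σ) (hx : 0 < x) (ha : LSeriesSummable a σ) :
    ∑ n ∈ Icc 1 ⌊x⌋₊, a n * (1 - (n : ℂ) / x) = 1 / (2 * Real.pi) *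
      ∫ t : ℝ, (x : ℂ) ^ ((σ : ℂ) + t * I) *
        (LSeries a (σ + t * I) / (((σ : ℂ) + t * I) * (σ + t * I + 1))) := by
  have hK := ker_int hσ
  have h1 := hasSum_integral_of_summable_integral_norm (μ := volume)
    (F := fun (n : ℕ) (t : ℝ) => (x : ℂ) ^ ((σ : ℂ) + t * I) * LSeries.term a (σ + t * I) n *
      (1 / (((σ : ℂ) + t * I) * (σ + t * I + 1))))
    (fun n => hK.bdd_mul (ja4_cont a σ hx n).aestronglyMeasurable
      (Filter.Eventually.of_forall fun t => (ja4_norm a σ t hx n).le)) (by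
      simp only [norm_mul _ (1 / _ : ℂ), ja4_norm a σ _ hx, integral_const_mul]
      exact (ha.norm.mul_left _).mul_right _)
  have h2 := h1.mul_left (1 / (2 * Real.pi) : ℂ)
  have h3 : ∀ n : ℕ, (1 / (2 * Real.pi) : ℂ) * ∫ t : ℝ, (x : ℂ) ^ ((σ : ℂ) + t * I) *
      LSeries.term a (σ + t * I) n * (1 / (((σ : ℂ) + t * I) * (σ + t * I + 1))) =
      if n ∈ Icc 1 ⌊x⌋₊ then a n * (1 - (n : ℂ) / x) else 0 := by
    intro n
    rcases eq_or_ne n 0 with rfl | hn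
    · simp
    · have hp : 0 < (n : ℝ) / x := div_pos (Nat.cast_pos.2 (Nat.pos_of_ne_zero hn)) hx
      simp only [ja4_term a hx _ hn, mul_assoc (a n), integral_const_mul]
      rw [mul_left_comm, ← riesz_kernel hσ hp]
      split_ifs with h
      · have h4 : (n : ℝ) ≤ x := (Nat.le_floor_iff hx.le).1 (mem_Icc.1 h).2
        rw [max_eq_left (sub_nonneg.2 ((div_le_one hx).2 h4))]
        push_cast
        rfl
      · have h4 : x ≤ n := by
          by_contra h5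
          exact h (mem_Icc.2 ⟨Nat.pos_of_ne_zero hn,
            (Nat.le_floor_iff hx.le).2 (not_le.1 h5).le⟩)
        rw [max_eq_right (sub_nonpos.2 ((one_le_div hx).2 h4)), ofReal_zero, mul_zero]
  simp only [h3] at h2
  have h4 : HasSum (fun n : ℕ => if n ∈ Icc 1 ⌊x⌋₊ then a n * (1 - (n : ℂ) / x) else 0)
      (∑ n ∈ Icc 1 ⌊x⌋₊, if n ∈ Icc 1 ⌊x⌋₊ then a n * (1 - (n : ℂ) / x) else 0) :=
    hasSum_sum_of_ne_finset_zero fun n hn => if_neg hn
  rw [sum_congr rfl fun n hn => if_pos hn] at h4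
  rw [h4.unique h2]
  congr 2
  funext t
  rw [tsum_mul_right, tsum_mul_left, LSeries]
  ring

end

end Pool.Agent.Jac
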