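import Pool.Agent.P.MP_45ff98_nt.JDefs

/-! The kernel of the Riesz mean. -/

namespace Pool.Agent.Jac
open Finset MeasureTheory Complex

noncomputable section

theorem ja4a_ne {σ : ℝ} (hσ : 0 < σ) (t : ℝ) :
    ((σ : ℂ) + t * I) ≠ 0 ∧ ((σ : ℂ) + t * I + 1) ≠ 0 := by
  constructor
  · intro h
    have := congrArg Complex.re h
    simp at this
    linarith
  · intro h
    have := congrArg Complex.re h
    simp at this
    linarith

theorem ja4a_mellin {s : ℂ} (hs : 0 < s.re) :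
    HasMellin (fun v : ℝ => ((max (1 - v) 0 : ℝ) : ℂ)) s (1 / (s * (s + 1))) := by
  have h1 := hasMellin_one_Ioc hs
  have h2 := hasMellin_cpow_Ioc 1 (s := s) (by simp; linarith)
  have h3 := hasMellin_sub h1.1 h2.1
  rw [h1.2, h2.2] at h3
  have hs0 : s ≠ 0 := by
    intro h; rw [h] at hs; simp at hs
  have hs1 : s + 1 ≠ 0 := by
    intro h
    have := congrArg Complex.re h
    simp at this
    linarith
  have e : 1 / s - 1 / (s + 1) = 1 / (s * (s + 1)) := by field_simp; ring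
  rw [e] at h3
  have key : ∀ v ∈ Set.Ioi (0 : ℝ), (v : ℂ) ^ (s - 1) •
      (Set.indicator (Set.Ioc 0 1) (fun _ => 1 : ℝ → ℂ) v -
        Set.indicator (Set.Ioc 0 1) (fun t => (t : ℂ) ^ (1 : ℂ) : ℝ → ℂ) v) =
      (v : ℂ) ^ (s - 1) • ((max (1 - v) 0 : ℝ) : ℂ) := by
    intro v hv
    congr 1
    by_cases h : v ≤ 1
    · have hm : v ∈ Set.Ioc (0 : ℝ) 1 := ⟨hv, h⟩
      rw [Set.indicator_of_mem hm, Set.indicator_of_mem hm, max_eq_left (by linarith), cpow_one]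
      push_cast
      rfl
    · have hm : v ∉ Set.Ioc (0 : ℝ) 1 := fun g => h g.2
      rw [Set.indicator_of_notMem hm, Set.indicator_of_notMem hm,
        max_eq_right (by linarith [not_le.1 h])]
      simp
  refine ⟨?_, ?_⟩
  · exact IntegrableOn.congr_fun h3.1 key measurableSet_Ioi
  · rw [← h3.2]
    exact (setIntegral_congr_fun measurableSet_Ioi key).symm

theorem ker_int {σ : ℝ} (hσ : 0 < σ) :
    Integrable fun t : ℝ => 1 / (((σ : ℂ) + t * I) * (σ + t * I + 1)) := by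
  have hc : Continuous fun t : ℝ => 1 / (((σ : ℂ) + t * I) * (σ + t * I + 1)) := by
    refine Continuous.div continuous_const (by fun_prop) fun t => ?_
    exact mul_ne_zero (ja4a_ne hσ t).1 (ja4a_ne hσ t).2
  have hm : 0 < min (σ ^ 2) 1 := lt_min (by positivity) one_pos
  refine (integrable_inv_one_add_sq.const_mul (min (σ ^ 2) 1)⁻¹).mono'
    hc.aestronglyMeasurable (Filter.Eventually.of_forall fun t => ?_)
  have h1 : ‖(σ : ℂ) + t * I‖ ^ 2 = σ ^ 2 + t ^ 2 := by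
    rw [Complex.sq_norm, Complex.normSq_add_mul_I]
  have h2 : ‖(σ : ℂ) + t * I + 1‖ ^ 2 = (σ + 1) ^ 2 + t ^ 2 := by
    have : (σ : ℂ) + t * I + 1 = ((σ + 1 : ℝ) : ℂ) + t * I := by push_cast; ring
    rw [this, Complex.sq_norm, Complex.normSq_add_mul_I]
  have h3 : ‖(σ : ℂ) + t * I‖ ≤ ‖(σ : ℂ) + t * I + 1‖ := by
    refine le_of_sq_le_sq ?_ (norm_nonneg _) |>.trans le_rfl
    rw [h1, h2]; nlinarith
  have h4 : min (σ ^ 2) 1 * (1 + t ^ 2) ≤ ‖(σ : ℂ) + t * I‖ * ‖(σ : ℂ) + t * I + 1‖ := by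
    have a1 : min (σ ^ 2) 1 ≤ σ ^ 2 := min_le_left _ _
    have a2 : min (σ ^ 2) 1 ≤ 1 := min_le_right _ _
    have a3 : min (σ ^ 2) 1 * (1 + t ^ 2) ≤ σ ^ 2 + t ^ 2 := by nlinarith [sq_nonneg t]
    have a4 := mul_le_mul_of_nonneg_left h3 (norm_nonneg ((σ : ℂ) + t * I))
    nlinarith
  rw [norm_div, norm_one, norm_mul, ← mul_inv, one_div]
  exact inv_anti₀ (by positivity) h4

theorem riesz_kernel {σ u : ℝ} (hσ : 0 < σ) (hu : 0 < u) :
    ((max (1 - u) 0 : ℝ) : ℂ) = 1 / (2 * Real.pi) *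
      ∫ t : ℝ, (u : ℂ) ^ (-((σ : ℂ) + t * I)) * (1 / (((σ : ℂ) + t * I) * (σ + t * I + 1))) := by
  have hre : ∀ t : ℝ, 0 < ((σ : ℂ) + t * I).re := fun t => by simpa using hσ
  have hm : ∀ t : ℝ, mellin (fun v : ℝ => ((max (1 - v) 0 : ℝ) : ℂ)) ((σ : ℂ) + t * I) =
      1 / (((σ : ℂ) + t * I) * (σ + t * I + 1)) := fun t => (ja4a_mellin (hre t)).2
  have hc : Continuous fun v : ℝ => ((max (1 - v) 0 : ℝ) : ℂ) := by fun_prop
  have h := mellinInv_mellin_eq σ (fun v : ℝ => ((max (1 - v) 0 : ℝ) : ℂ)) hu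
    (ja4a_mellin (s := σ) (by simpa using hσ)).1
    (by
      unfold VerticalIntegrable
      simp only [hm]
      exact ker_int hσ) hc.continuousAt
  rw [← h, mellinInv]
  simp only [hm, smul_eq_mul, Complex.real_smul]
  push_cast
  rfl

end

end Pool.Agent.Jac
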