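import Pool.Agent.P.MP_45ff98_nt.JDefs

/-! Cauchy estimates on the small discs. -/

namespace Pool.Agent.Jac
open Finset MeasureTheory Complex

noncomputable section

theorem ja5b_low {w : ℂ} {t : ℝ} (h1 : 1 / 2 ≤ w.re) (h2 : |t| - 1 / 2 ≤ |w.im|) :
    (|t| + 2) / 6 ≤ ‖w‖ := by
  have a1 : w.re ≤ ‖w‖ := Complex.re_le_norm w
  have a2 : |w.im| ≤ ‖w‖ := Complex.abs_im_le_norm w
  rcases le_total |t| 1 with h | h <;> linarith

theorem ja5b_near {σ t r : ℝ} {z : ℂ} (hz : ‖z - (σ + t * I)‖ ≤ r) :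
    σ - r ≤ z.re ∧ |t| - r ≤ |z.im| := by
  have a1 := (Complex.abs_re_le_norm (z - (σ + t * I))).trans hz
  have a2 := (Complex.abs_im_le_norm (z - (σ + t * I))).trans hz
  simp only [Complex.sub_re, Complex.add_re, Complex.ofReal_re, Complex.mul_re, Complex.I_re,
    mul_zero, Complex.ofReal_im, Complex.I_im, mul_one, sub_self, add_zero, Complex.sub_im,
    Complex.add_im, Complex.mul_im, zero_add] at a1 a2
  refine ⟨by linarith [(abs_le.1 a1).1], ?_⟩
  have := abs_sub_abs_le_abs_sub t z.im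
  rw [abs_sub_comm] at this
  linarith

theorem disc_cauchy {F : ℂ → ℂ} {V η : ℝ} (h : Disc F V η) (hV : 1 ≤ V) (h0 : 0 ≤ η) {σ : ℝ}
    (h1 : 1 ≤ σ) (h2 : σ ≤ 2) (t : ℝ) :
    AnalyticAt ℂ (fun s => F s / (s * (s + 1))) (σ + t * I) ∧
      ∀ n : ℕ, ‖iteratedDeriv n (fun s => F s / (s * (s + 1))) (σ + t * I)‖ ≤
        36 * n.factorial * 2 ^ n * V ^ (n + 1) * (|t| + 2) ^ (η * (n + 1) - 2) := by
  obtain ⟨hd, hb⟩ := h σ t h1 h2
  have hT : (2 : ℝ) ≤ |t| + 2 := by linarith [abs_nonneg t]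
  have hT0 : (0 : ℝ) < |t| + 2 := by linarith
  have hP : 1 ≤ (|t| + 2) ^ η := Real.one_le_rpow (by linarith) h0
  set W := V * (|t| + 2) ^ η with hW
  have hW1 : 1 ≤ W := one_le_mul_of_one_le_of_one_le hV hP
  have hW0 : 0 < W := by linarith
  have hr1 : 1 / W ≤ 1 := by rw [div_le_one hW0]; exact hW1
  have hq : DifferentiableOn ℂ (fun s => F s / (s * (s + 1)))
      (Metric.ball (σ + t * I : ℂ) (1 / W)) := by
    refine hd.div (by fun_prop) fun z hz => ?_
    have hz' : ‖z - (σ + t * I)‖ < 1 / W := by simpa [dist_eq_norm] using hz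
    have a1 := (Complex.abs_re_le_norm (z - (σ + t * I))).trans_lt hz'
    simp only [Complex.sub_re, Complex.add_re, Complex.ofReal_re, Complex.mul_re, Complex.I_re,
      mul_zero, Complex.ofReal_im, Complex.I_im, mul_one, sub_self, add_zero] at a1
    have hre : 0 < z.re := by linarith [(abs_lt.1 a1).1]
    refine mul_ne_zero (fun e => ?_) fun e => ?_
    · rw [e] at hre; simp at hre
    · have := congrArg Complex.re e
      simp only [Complex.add_re, Complex.one_re, Complex.zero_re] at this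
      linarith
  have hr0 : 0 < 1 / (2 * W) := by positivity
  have hrr : 1 / (2 * W) < 1 / W := one_div_lt_one_div_of_lt hW0 (by linarith)
  have hr2 : 1 / (2 * W) ≤ 1 / 2 := one_div_le_one_div_of_le two_pos (by linarith)
  refine ⟨hq.analyticAt (Metric.ball_mem_nhds _ (by positivity)), fun n => ?_⟩
  have hc := Complex.norm_iteratedDeriv_le_of_forall_mem_sphere_norm_le (C := 36 * W / (|t| + 2) ^ 2)
    n hr0 (hq.diffContOnCl_ball (Metric.closedBall_subset_ball hrr)) (fun z hz => by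
      have hz' : ‖z - (σ + t * I)‖ = 1 / (2 * W) := by simpa [dist_eq_norm] using hz
      obtain ⟨b1, b2⟩ := ja5b_near (hz'.le.trans hr2)
      have c1 : (|t| + 2) / 6 ≤ ‖z‖ := ja5b_low (by linarith) b2
      have c2 : (|t| + 2) / 6 ≤ ‖z + 1‖ := ja5b_low (by
        simp only [Complex.add_re, Complex.one_re]; linarith) (by simpa using b2)
      have c3 : ‖F z‖ ≤ W := hb z (by rw [Metric.mem_ball, dist_eq_norm, hz']; exact hrr)
      rw [norm_div, norm_mul]
      have c4 : (|t| + 2) ^ 2 / 36 ≤ ‖z‖ * ‖z + 1‖ := by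
        have := mul_le_mul c1 c2 (by positivity) (norm_nonneg _)
        linarith
      calc ‖F z‖ / (‖z‖ * ‖z + 1‖) ≤ W / ((|t| + 2) ^ 2 / 36) :=
            div_le_div₀ hW0.le c3 (by positivity) c4
        _ = 36 * W / (|t| + 2) ^ 2 := by field_simp)
  refine hc.trans (le_of_eq ?_)
  have e1 : (|t| + 2) ^ (η * (n + 1) - 2) = ((|t| + 2) ^ η) ^ (n + 1) / (|t| + 2) ^ 2 := by
    rw [Real.rpow_sub hT0, ← Real.rpow_natCast, ← Real.rpow_mul hT0.le, ← Real.rpow_natCast _ 2]
    push_cast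
    rfl
  rw [e1, hW]
  have hV0 : 0 < V := by linarith
  have hP0 : 0 < (|t| + 2) ^ η := by linarith
  rw [one_div, inv_pow, mul_pow, mul_pow]
  field_simp
  ring

end

end Pool.Agent.Jac
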