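import Pool.Agent.P.MP_45ff98_nt.JA5a
import Pool.Agent.P.MP_45ff98_nt.JA5b

/-! The oscillatory integral. -/

namespace Pool.Agent.Jac
open Finset MeasureTheory Complex

noncomputable section

lemma ja5_int : Integrable (fun t : ℝ => (1 + ‖t‖) ^ (-(3 / 2 : ℝ))) :=
  integrable_one_add_norm (by rw [Module.finrank_self]; norm_num)

lemma ja5_pow {η : ℝ} (h0 : 0 ≤ η) {n K : ℕ} (hn : n ≤ K) (hη : η * (K + 1) ≤ 1 / 2) (t : ℝ) :
    (|t| + 2) ^ (η * (n + 1) - 2) ≤ (1 + ‖t‖) ^ (-(3 / 2 : ℝ)) := by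
  have ht := abs_nonneg t
  have hn' : (n : ℝ) ≤ K := by exact_mod_cast hn
  have h1 : η * (n + 1) ≤ η * (K + 1) := mul_le_mul_of_nonneg_left (by linarith) h0
  calc (|t| + 2) ^ (η * (n + 1) - 2) ≤ (|t| + 2) ^ (-(3 / 2 : ℝ)) :=
        Real.rpow_le_rpow_of_exponent_le (by linarith) (by linarith)
    _ ≤ (1 + ‖t‖) ^ (-(3 / 2 : ℝ)) := by
        rw [Real.norm_eq_abs]
        exact Real.rpow_le_rpow_of_nonpos (by linarith) (by linarith) (by norm_num)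

lemma ja5_cpow {x : ℝ} (hx : 0 < x) (σ t : ℝ) : (x : ℂ) ^ ((σ : ℂ) + t * I) =
    ((x ^ σ : ℝ) : ℂ) * Complex.exp ((Real.log x : ℝ) * t * I) := by
  have h0 : (x : ℂ) ≠ 0 := ofReal_ne_zero.2 hx.ne'
  rw [cpow_add _ _ h0, ofReal_cpow hx.le, cpow_def_of_ne_zero h0 (t * I), ← ofReal_log hx.le,
    mul_assoc]

theorem osc (K : ℕ) : ∃ C : ℝ, 0 < C ∧ ∀ (F : ℂ → ℂ) (V η σ x : ℝ), Disc F V η → 1 ≤ V → 0 ≤ η →
    η * (K + 1) ≤ 1 / 2 → 1 ≤ σ → σ ≤ 2 → 1 < x →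
      ‖∫ t : ℝ, (x : ℂ) ^ ((σ : ℂ) + t * I) *
        (F (σ + t * I) / (((σ : ℂ) + t * I) * (σ + t * I + 1)))‖ ≤
          C * V ^ (K + 1) * x ^ σ / Real.log x ^ K := by
  have hJ : 0 ≤ ∫ t : ℝ, (1 + ‖t‖) ^ (-(3 / 2 : ℝ)) :=
    integral_nonneg fun t => Real.rpow_nonneg (by positivity) _
  refine ⟨36 * K.factorial * 2 ^ K * ((∫ t : ℝ, (1 + ‖t‖) ^ (-(3 / 2 : ℝ))) + 1), by positivity,
    fun F V η σ x hF hV h0 hη h1 h2 hx => ?_⟩
  have hx0 : 0 < x := by linarith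
  have hL : 0 < Real.log x := Real.log_pos hx
  have hxs : 0 < x ^ σ := Real.rpow_pos_of_pos hx0 _
  have hc := fun t => disc_cauchy hF hV h0 h1 h2 t
  obtain ⟨G, hG⟩ : ∃ G : ℕ → ℝ → ℂ, ∀ n, G n = fun u : ℝ =>
      I ^ n * iteratedDeriv n (fun s => F s / (s * (s + 1))) (σ + u * I) := ⟨_, fun _ => rfl⟩
  have hd : ∀ n t, HasDerivAt (G n) (G (n + 1) t) t := fun n t => by
    rw [hG, hG]
    exact line_deriv (fun t => (hc t).1) n t
  have hb : ∀ n ≤ K, ∀ t, ‖G n t‖ ≤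
      36 * n.factorial * 2 ^ n * V ^ (n + 1) * (1 + ‖t‖) ^ (-(3 / 2 : ℝ)) := fun n hn t => by
    rw [hG]
    simp only [norm_mul, norm_pow, norm_I, one_pow, one_mul]
    exact ((hc t).2 n).trans (mul_le_mul_of_nonneg_left (ja5_pow h0 hn hη t) (by positivity))
  have hi : ∀ n ≤ K, Integrable (G n) := fun n hn =>
    (ja5_int.const_mul _).mono'
      (continuous_iff_continuousAt.2 fun t => (hd n t).continuousAt).aestronglyMeasurable
      (Filter.Eventually.of_forall (hb n hn))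
  have key := parts (G := G) (K := K) (fun n _ t => hd n t) hi hL
  have hK : ∫ t, ‖G K t‖ ≤ 36 * K.factorial * 2 ^ K * V ^ (K + 1) *
      ∫ t : ℝ, (1 + ‖t‖) ^ (-(3 / 2 : ℝ)) := by
    rw [← integral_const_mul]
    exact integral_mono (hi K le_rfl).norm (ja5_int.const_mul _) (hb K le_rfl)
  have e : ∀ t : ℝ, (x : ℂ) ^ ((σ : ℂ) + t * I) *
      (F (σ + t * I) / (((σ : ℂ) + t * I) * (σ + t * I + 1))) =
      ((x ^ σ : ℝ) : ℂ) * (Complex.exp ((Real.log x : ℝ) * t * I) * G 0 t) := fun t => by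
    rw [ja5_cpow hx0, hG, mul_assoc]
    simp only [pow_zero, one_mul, iteratedDeriv_zero]
  simp only [e]
  rw [integral_const_mul, norm_mul, norm_real, Real.norm_of_nonneg hxs.le]
  refine (mul_le_mul_of_nonneg_left key hxs.le).trans ?_
  rw [← mul_div_assoc, mul_comm (x ^ σ)]
  refine div_le_div_of_nonneg_right (mul_le_mul_of_nonneg_right (hK.trans ?_) hxs.le)
    (by positivity)
  have : (0 : ℝ) ≤ 36 * K.factorial * 2 ^ K * V ^ (K + 1) := by positivity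
  nlinarith

end

end Pool.Agent.Jac
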