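import Pool.Agent.P.MP_45ff98_nt.JDefs

/-! Repeated integration by parts on a vertical line. -/

namespace Pool.Agent.Jac
open Finset MeasureTheory Complex

noncomputable section

theorem ja5a_norm (l t : ℝ) : ‖Complex.exp (l * t * I)‖ = 1 := by
  rw [← Complex.ofReal_mul, Complex.norm_exp_ofReal_mul_I]

theorem ja5a_deriv (l t : ℝ) : HasDerivAt (fun t : ℝ => Complex.exp (l * t * I))
    (l * I * Complex.exp (l * t * I)) t := by
  have h1 : HasDerivAt (fun z : ℂ => Complex.exp (l * z * I))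
      (Complex.exp (l * t * I) * (l * 1 * I)) (t : ℂ) :=
    (((hasDerivAt_id (t : ℂ)).const_mul (l : ℂ)).mul_const I).cexp
  have h2 := h1.comp_ofReal
  rw [mul_one, mul_comm] at h2
  exact h2

theorem ja5a_int (l : ℝ) {g : ℝ → ℂ} (hg : Integrable g) :
    Integrable fun t : ℝ => Complex.exp (l * t * I) * g t := by
  refine hg.bdd_mul (c := 1) ?_ (Filter.Eventually.of_forall fun t => (ja5a_norm l t).le)
  exact (by fun_prop : Continuous fun t : ℝ => Complex.exp (l * t * I)).aestronglyMeasurable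

theorem ja5a_step (l : ℝ) {g g' : ℝ → ℂ} (hd : ∀ t, HasDerivAt g (g' t) t) (hg : Integrable g)
    (hg' : Integrable g') : ∫ t : ℝ, Complex.exp (l * t * I) * g' t =
      -(l * I * ∫ t : ℝ, Complex.exp (l * t * I) * g t) := by
  have h0 : (fun t : ℝ => l * I * Complex.exp (l * t * I) * g t) =
      fun t : ℝ => l * I * (Complex.exp (l * t * I) * g t) := by
    funext t
    ring
  have h := integral_mul_deriv_eq_deriv_mul_of_integrable
    (u := fun t : ℝ => Complex.exp (l * t * I)) (v := g)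
    (u' := fun t : ℝ => l * I * Complex.exp (l * t * I)) (v' := g')
    (fun t _ => ja5a_deriv l t) (fun t _ => hd t) (ja5a_int l hg')
    (by
      change Integrable fun t : ℝ => l * I * Complex.exp (l * t * I) * g t
      rw [h0]
      exact (ja5a_int l hg).const_mul _)
    (ja5a_int l hg)
  rw [h, h0, integral_const_mul]

theorem parts {G : ℕ → ℝ → ℂ} {K : ℕ} (hd : ∀ n < K, ∀ t, HasDerivAt (G n) (G (n + 1) t) t)
    (hi : ∀ n ≤ K, Integrable (G n)) {l : ℝ} (hl : 0 < l) :
    ‖∫ t : ℝ, Complex.exp (l * t * I) * G 0 t‖ ≤ (∫ t, ‖G K t‖) / l ^ K := by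
  have key : ∀ n ≤ K, l ^ n * ‖∫ t : ℝ, Complex.exp (l * t * I) * G 0 t‖ =
      ‖∫ t : ℝ, Complex.exp (l * t * I) * G n t‖ := by
    intro n
    induction n with
    | zero => intro _; rw [pow_zero, one_mul]
    | succ n ih =>
      intro hn
      rw [ja5a_step l (hd n (by omega)) (hi n (by omega)) (hi (n + 1) hn), norm_neg, norm_mul,
        norm_mul, Complex.norm_I, mul_one, Complex.norm_real, Real.norm_of_nonneg hl.le,
        ← ih (by omega)]
      ring
  rw [le_div_iff₀ (pow_pos hl K), mul_comm, key K le_rfl]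
  refine (norm_integral_le_integral_norm _).trans (le_of_eq ?_)
  refine integral_congr_ae (Filter.Eventually.of_forall fun t => ?_)
  simp only [norm_mul, ja5a_norm, one_mul]

theorem line_deriv {H : ℂ → ℂ} {σ : ℝ} (hH : ∀ t : ℝ, AnalyticAt ℂ H (σ + t * I)) (n : ℕ)
    (t : ℝ) : HasDerivAt (fun u : ℝ => I ^ n * iteratedDeriv n H (σ + u * I))
      (I ^ (n + 1) * iteratedDeriv (n + 1) H (σ + t * I)) t := by
  have h1 : AnalyticAt ℂ (iteratedDeriv n H) (σ + t * I) := by
    rw [iteratedDeriv_eq_iterate]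
    exact (hH t).iterated_deriv n
  have h2 : HasDerivAt (iteratedDeriv n H) (iteratedDeriv (n + 1) H (σ + t * I)) (σ + t * I) := by
    rw [iteratedDeriv_succ]
    exact h1.differentiableAt.hasDerivAt
  have h3 : HasDerivAt (fun z : ℂ => (σ : ℂ) + z * I) (1 * I) (t : ℂ) :=
    ((hasDerivAt_id (t : ℂ)).mul_const I).const_add (σ : ℂ)
  have h4 := ((HasDerivAt.comp (t : ℂ) h2 h3).const_mul (I ^ n)).comp_ofReal
  have e : I ^ (n + 1) * iteratedDeriv (n + 1) H (σ + t * I) =
      I ^ n * (iteratedDeriv (n + 1) H (σ + t * I) * (1 * I)) := by ring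
  rw [e]
  exact h4

end

end Pool.Agent.Jac
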