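import Pool.Agent.P.MP_45ff98_nt.JA4
import Pool.Agent.P.MP_45ff98_nt.JA5

/-! The bound for the Riesz mean. -/

namespace Pool.Agent.Jac
open Finset MeasureTheory Complex

noncomputable section

theorem ja6a_summable {a : ℕ → ℂ} (ha : ∀ n : ℕ, ‖a n‖ ≤ 2 + Real.log n) {σ : ℝ} (h1 : 1 < σ) :
    LSeriesSummable a σ := by
  obtain ⟨e, he⟩ : ∃ e : ℝ, e = (σ - 1) / 2 := ⟨_, rfl⟩
  have h0 : 0 < e := by linarith
  refine LSeriesSummable_of_le_const_mul_rpow (x := 1 + e) (by rw [ofReal_re]; linarith)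
    ⟨2 + 1 / e, fun n hn => (ha n).trans ?_⟩
  have hn1 : (1 : ℝ) ≤ n := by exact_mod_cast Nat.one_le_iff_ne_zero.2 hn
  have h2 := Real.one_le_rpow hn1 h0.le
  have h3 := Real.log_le_rpow_div (Nat.cast_nonneg n) h0
  rw [add_sub_cancel_left, add_mul, one_div, ← div_eq_inv_mul]
  linarith

theorem riesz_le (K : ℕ) : ∃ C : ℝ, 0 < C ∧ ∀ (a : ℕ → ℂ) (F : ℂ → ℂ) (V η : ℝ),
    (∀ n : ℕ, ‖a n‖ ≤ 2 + Real.log n) → (∀ s : ℂ, 1 < s.re → LSeries a s = F s) → Disc F V η →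
    1 ≤ V → 0 ≤ η → η * (K + 1) ≤ 1 / 2 → ∀ x : ℝ, 3 ≤ x →
      ‖∑ n ∈ Icc 1 ⌊x⌋₊, a n * ((x : ℂ) - n)‖ ≤ C * V ^ (K + 1) * x ^ 2 / Real.log x ^ K := by
  obtain ⟨C, hC, h⟩ := osc K
  refine ⟨3 * C, by positivity, fun a F V η ha hF hD hV h0 hη x hx => ?_⟩
  have hx0 : 0 < x := by linarith
  have hL : 1 ≤ Real.log x := by
    rw [Real.le_log_iff_exp_le hx0]
    exact Real.exp_one_lt_three.le.trans hx
  have hL0 : 0 < Real.log x := by linarith
  have hi : 0 < 1 / Real.log x := by positivity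
  have hi1 : 1 / Real.log x ≤ 1 := (div_le_one hL0).2 hL
  obtain ⟨σ, hσ⟩ : ∃ σ : ℝ, σ = 1 + 1 / Real.log x := ⟨_, rfl⟩
  have h1 : 1 < σ := by linarith
  have hxσ : x ^ σ ≤ 3 * x := by
    rw [hσ, Real.rpow_add hx0, Real.rpow_one, Real.rpow_def_of_pos hx0, mul_one_div_cancel hL0.ne',
      mul_comm]
    exact mul_le_mul_of_nonneg_right Real.exp_one_lt_three.le hx0.le
  have hs : LSeriesSummable a σ := ja6a_summable ha h1
  have e1 : ∑ n ∈ Icc 1 ⌊x⌋₊, a n * ((x : ℂ) - n) =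
      x * ∑ n ∈ Icc 1 ⌊x⌋₊, a n * (1 - (n : ℂ) / x) := by
    rw [mul_sum]
    refine sum_congr rfl fun n _ => ?_
    have : (x : ℂ) ≠ 0 := ofReal_ne_zero.2 hx0.ne'
    field_simp
  have e2 : ∀ t : ℝ, LSeries a (σ + t * I) = F (σ + t * I) := fun t => hF _ (by simpa using h1)
  have h2 := h F V η σ x hD hV h0 hη h1.le (by linarith) (by linarith)
  have h3 : ‖(1 / (2 * Real.pi) : ℂ)‖ ≤ 1 := by
    rw [norm_div, norm_one, norm_mul, Complex.norm_real, Real.norm_of_nonneg Real.pi_pos.le,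
      Complex.norm_two]
    exact (div_le_one (by positivity)).2 (by linarith [Real.two_le_pi])
  rw [e1, riesz (by linarith) hx0 hs, norm_mul, norm_mul, Complex.norm_real,
    Real.norm_of_nonneg hx0.le]
  simp only [e2]
  calc _ ≤ x * (1 * (C * V ^ (K + 1) * (3 * x) / Real.log x ^ K)) := by
        refine mul_le_mul_of_nonneg_left (mul_le_mul h3 (h2.trans ?_) (norm_nonneg _) one_pos.le)
          hx0.le
        have : 0 ≤ V := by linarith
        gcongr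
    _ = _ := by ring

end

end Pool.Agent.Jac
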