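import Pool.Agent.P.MP_45ff98_nt.JA0
import Pool.Agent.P.MP_45ff98_nt.JA6a

/-! Removal of the smoothing. -/

namespace Pool.Agent.Jac
open Finset MeasureTheory Complex

noncomputable section

theorem unsm_core {a : ℕ → ℂ} (ha : ∀ n : ℕ, ‖a n‖ ≤ 2 + Real.log n) {x h : ℝ} (hx : 1 ≤ x)
    (h0 : 0 < h) (h1 : h ≤ x) :
    ‖∑ n ∈ Icc 1 ⌊x⌋₊, a n‖ ≤ (‖∑ n ∈ Icc 1 ⌊x + h⌋₊, a n * (((x + h : ℝ) : ℂ) - n)‖ +
      ‖∑ n ∈ Icc 1 ⌊x⌋₊, a n * ((x : ℂ) - n)‖) / h + (h + 1) * (3 + Real.log x) := by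
  have hI : ∀ m : ℕ, Icc 1 m = Ioc 0 m := fun m => rfl
  have hm : ⌊x⌋₊ ≤ ⌊x + h⌋₊ := Nat.floor_mono (by linarith)
  have hL : 0 ≤ Real.log x := Real.log_nonneg hx
  have hB : ‖∑ n ∈ Ioc ⌊x⌋₊ ⌊x + h⌋₊, a n * (((x + h : ℝ) : ℂ) - n)‖ ≤
      (h + 1) * ((3 + Real.log x) * h) := by
    refine (norm_sum_le_of_le _ (n := fun _ => (3 + Real.log x) * h) fun n hn => ?_).trans ?_
    · obtain ⟨h2, h3⟩ := mem_Ioc.1 hn
      have h4 : x < n := Nat.lt_of_floor_lt h2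
      have h5 : (n : ℝ) ≤ x + h := (Nat.le_floor_iff (by linarith)).1 h3
      have h6 : Real.log n ≤ 1 + Real.log x := by
        have h7 : Real.log n ≤ Real.log (2 * x) := Real.log_le_log (by linarith) (by linarith)
        rw [Real.log_mul two_ne_zero (by linarith)] at h7
        linarith [Real.log_two_lt_d9]
      have h8 : ‖((x + h : ℝ) : ℂ) - n‖ ≤ h := by
        rw [← ofReal_natCast, ← ofReal_sub, norm_real, Real.norm_of_nonneg (by linarith)]
        linarith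
      rw [norm_mul]
      exact mul_le_mul (by linarith [ha n]) h8 (norm_nonneg _) (by linarith)
    · rw [sum_const, Nat.card_Ioc, nsmul_eq_mul, Nat.cast_sub hm]
      refine mul_le_mul_of_nonneg_right ?_ (by positivity)
      linarith [Nat.floor_le (show 0 ≤ x + h by linarith), Nat.lt_floor_add_one x]
  have e : (h : ℂ) * ∑ n ∈ Icc 1 ⌊x⌋₊, a n =
      ∑ n ∈ Icc 1 ⌊x + h⌋₊, a n * (((x + h : ℝ) : ℂ) - n) -
        ∑ n ∈ Icc 1 ⌊x⌋₊, a n * ((x : ℂ) - n) -
        ∑ n ∈ Ioc ⌊x⌋₊ ⌊x + h⌋₊, a n * (((x + h : ℝ) : ℂ) - n) := by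
    rw [hI, hI, ← sum_Ioc_consecutive _ (Nat.zero_le _) hm, add_sub_right_comm,
      add_sub_cancel_right, ← sum_sub_distrib, mul_sum]
    refine sum_congr rfl fun n _ => ?_
    push_cast
    ring
  have h2 := congrArg norm e
  rw [norm_mul, norm_real, Real.norm_of_nonneg h0.le] at h2
  have h3 := (h2.trans_le (norm_sub_le _ _)).trans (add_le_add (norm_sub_le _ _) hB)
  rw [div_add' _ _ _ h0.ne', le_div_iff₀ h0]
  linarith

theorem unsmooth (k : ℕ) : ∃ C : ℝ, 0 < C ∧ ∀ (a : ℕ → ℂ) (F : ℂ → ℂ) (V η : ℝ),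
    (∀ n : ℕ, ‖a n‖ ≤ 2 + Real.log n) → (∀ s : ℂ, 1 < s.re → LSeries a s = F s) → Disc F V η →
    1 ≤ V → 0 ≤ η → η * (4 * k + 4) ≤ 1 → ∀ x : ℝ, 2 ≤ x →
      ‖∑ n ∈ Icc 1 ⌊x⌋₊, a n‖ ≤ C * V ^ (2 * k + 2) * x / Real.log x ^ k := by
  obtain ⟨C₀, hC₀, h₀⟩ := riesz_le (2 * k + 1)
  obtain ⟨C₁, hC₁, h₁⟩ := log_pow_le (k + 1)
  refine ⟨5 * C₀ + 4 + 4 * C₁ + 5 * 2 ^ k, by positivity, fun a F V η ha hF hD hV h0 hη x hx => ?_⟩
  have hR := h₀ a F V η ha hF hD hV h0 (by push_cast; linarith)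
  have hW : 1 ≤ V ^ (2 * k + 2) := one_le_pow₀ hV
  rw [show 2 * k + 1 + 1 = 2 * k + 2 from rfl] at hR
  generalize V ^ (2 * k + 2) = W at hR hW ⊢
  have hL0 : 0 < Real.log x := Real.log_pos (by linarith)
  have hP : 0 < Real.log x ^ k := pow_pos hL0 k
  have h2k : (0 : ℝ) < 2 ^ k := by positivity
  rcases lt_or_ge x 3 with h3 | h3
  · have hf : ⌊x⌋₊ = 2 := (Nat.floor_eq_iff (by linarith)).2 ⟨by simpa using hx, by
      push_cast; linarith⟩
    have h4 : ‖∑ n ∈ Icc 1 ⌊x⌋₊, a n‖ ≤ 5 := by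
      have h5 := ha 1
      have h6 := ha 2
      rw [hf, show Icc 1 2 = {1, 2} from rfl, sum_pair (by norm_num)]
      simp only [Nat.cast_one, Real.log_one, Nat.cast_ofNat] at h5 h6
      linarith [norm_add_le (a 1) (a 2), Real.log_two_lt_d9]
    have h7 : Real.log x ^ k ≤ 2 ^ k :=
      pow_le_pow_left₀ hL0.le (by linarith [Real.log_le_sub_one_of_pos (show 0 < x by linarith)]) k
    refine h4.trans ?_
    rw [le_div_iff₀ hP, mul_assoc]
    have h8 : 1 ≤ W * x := by nlinarith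
    nlinarith
  · have hL : 1 ≤ Real.log x := by
      rw [Real.le_log_iff_exp_le (by linarith)]
      linarith [Real.exp_one_lt_d9]
    have hx0 : 0 < x := by linarith
    have hQ : 1 ≤ Real.log x ^ (k + 1) := one_le_pow₀ hL
    have hh0 : 0 < x / Real.log x ^ (k + 1) := by positivity
    have hh1 : x / Real.log x ^ (k + 1) ≤ x := div_le_self hx0.le hQ
    have h4 := unsm_core ha (by linarith) hh0 hh1
    have h5 := hR x h3
    have h6 := hR (x + x / Real.log x ^ (k + 1)) (by linarith)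
    have h7 : C₀ * W * (x + x / Real.log x ^ (k + 1)) ^ 2 /
        Real.log (x + x / Real.log x ^ (k + 1)) ^ (2 * k + 1) ≤
          C₀ * W * (2 * x) ^ 2 / Real.log x ^ (2 * k + 1) := by
      gcongr
      · linarith
      · linarith
    have h8 : Real.log x ^ (k + 1) ≤ C₁ * x := by
      refine (h₁ x (by linarith)).trans (mul_le_mul_of_nonneg_left ?_ (by linarith))
      rw [Real.sqrt_le_left hx0.le]
      nlinarith
    have h9 := h4.trans (add_le_add (div_le_div_of_nonneg_right (add_le_add (h6.trans h7) h5) hh0.le)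
      (mul_le_mul_of_nonneg_left (show 3 + Real.log x ≤ 4 * Real.log x by linarith)
        (by linarith)))
    refine h9.trans ?_
    have e : (C₀ * W * (2 * x) ^ 2 / Real.log x ^ (2 * k + 1) +
        C₀ * W * x ^ 2 / Real.log x ^ (2 * k + 1)) / (x / Real.log x ^ (k + 1)) +
        (x / Real.log x ^ (k + 1) + 1) * (4 * Real.log x) =
          (5 * C₀ * W * x + 4 * x + 4 * Real.log x ^ (k + 1)) / Real.log x ^ k := by
      field_simp
      ring
    rw [e]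
    refine div_le_div_of_nonneg_right ?_ hP.le
    have h10 : x ≤ W * x := le_mul_of_one_le_left hx0.le hW
    have h11 : C₁ * x ≤ C₁ * (W * x) := mul_le_mul_of_nonneg_left h10 (by linarith)
    have h12 : 0 ≤ 2 ^ k * (W * x) := by positivity
    nlinarith

end

end Pool.Agent.Jac
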