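import Pool.Agent.P.MP_45ff98_nt.JA2d
import Pool.Agent.P.MP_45ff98_nt.JA3
import Pool.Agent.P.MP_45ff98_nt.JA6

/-! Sums of the von Mangoldt function twisted by a character. -/

namespace Pool.Agent.Jac
open Finset MeasureTheory Complex

noncomputable section

theorem psi_char (k : ℕ) : ∃ C : ℝ, 0 < C ∧ ∀ (q : ℕ) [NeZero q] (χ : DirichletCharacter ℂ q),
    χ ≠ 1 → ∀ x : ℝ, 2 ≤ x →
      ‖∑ n ∈ Icc 1 ⌊x⌋₊, χ n * ((ArithmeticFunction.vonMangoldt n : ℝ) : ℂ)‖ ≤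
        C * q * x / Real.log x ^ k := by
  obtain ⟨η, hη⟩ : ∃ η : ℝ, η = 1 / (8 * k + 8) := ⟨_, rfl⟩
  have hk : (0 : ℝ) ≤ k := Nat.cast_nonneg k
  have h0 : 0 < η := by rw [hη]; positivity
  have hηk : η * (8 * k + 8) = 1 := by rw [hη]; field_simp
  have h1 : η ≤ 1 := by nlinarith
  obtain ⟨C, hC, hup⟩ := L_up h0 h1
  obtain ⟨c, hc, hlo⟩ := L_low h0 h1
  obtain ⟨C0, hC0, hun⟩ := unsmooth k
  refine ⟨C0 * (32 * C / (η * c)) ^ (2 * k + 2), by positivity, fun q _ χ hχ x hx => ?_⟩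
  have hq : (1 : ℝ) ≤ q := by exact_mod_cast Nat.one_le_iff_ne_zero.2 (NeZero.ne q)
  have hq0 : (0 : ℝ) < q := by linarith
  have hQ : 1 ≤ (q : ℝ) ^ η := Real.one_le_rpow hq h0.le
  have hA : 1 ≤ C * (q : ℝ) ^ η := one_le_mul_of_one_le_of_one_le hC hQ
  have ha : 0 < c * (q : ℝ) ^ (-η) := by positivity
  obtain ⟨hV, hD, -⟩ := disc_of_low (f := χ.LFunction) (R := η / 2) (by positivity)
    (by linarith) hA ha h0.le h1 (DirichletCharacter.differentiable_LFunction hχ).differentiableOn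
    (fun s h2 h3 => hup q χ hχ s h2.le h3) (fun σ t h2 h3 => hlo q χ hχ σ t h2 h3)
  have hL : ∀ s : ℂ, 1 < s.re →
      LSeries (fun n : ℕ => χ n * ((ArithmeticFunction.vonMangoldt n : ℝ) : ℂ)) s =
        -deriv χ.LFunction s / χ.LFunction s := by
    intro s hs
    rw [DirichletCharacter.deriv_LFunction_eq_deriv_LSeries χ hs,
      DirichletCharacter.LFunction_eq_LSeries χ hs]
    exact DirichletCharacter.LSeries_twist_vonMangoldt_eq χ hs
  have hb : ∀ n : ℕ, ‖χ n * ((ArithmeticFunction.vonMangoldt n : ℝ) : ℂ)‖ ≤ 2 + Real.log n := by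
    intro n
    rw [norm_mul, Complex.norm_real, Real.norm_of_nonneg ArithmeticFunction.vonMangoldt_nonneg]
    have h2 := χ.norm_le_one (n : ZMod q)
    have h3 : ArithmeticFunction.vonMangoldt n ≤ Real.log n := ArithmeticFunction.vonMangoldt_le_log
    have h4 : 0 ≤ ArithmeticFunction.vonMangoldt n := ArithmeticFunction.vonMangoldt_nonneg
    nlinarith [norm_nonneg (χ (n : ZMod q))]
  refine (hun _ _ _ _ hb hL hD hV (by positivity) (by linarith) x hx).trans ?_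
  have hx0 : 0 < Real.log x := Real.log_pos (by linarith)
  have e1 : 16 * (C * (q : ℝ) ^ η) / (η / 2 * (c * (q : ℝ) ^ (-η))) =
      32 * C / (η * c) * ((q : ℝ) ^ η) ^ 2 := by
    rw [Real.rpow_neg hq0.le]
    field_simp
    ring
  have e2 : (((q : ℝ) ^ η) ^ 2) ^ (2 * k + 2) ≤ q := by
    rw [← pow_mul, ← Real.rpow_natCast, ← Real.rpow_mul hq0.le]
    refine (Real.rpow_le_rpow_of_exponent_le hq (y := _) (z := 1) ?_).trans_eq (Real.rpow_one _)
    push_cast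
    nlinarith
  rw [e1, mul_pow, mul_assoc C0 _ (q : ℝ)]
  have hx1 : (0 : ℝ) ≤ x := by linarith
  gcongr

end

end Pool.Agent.Jac
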