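import Pool.Agent.P.MP_45ff98_nt.JA2z
import Pool.Agent.P.MP_45ff98_nt.JA3
import Pool.Agent.P.MP_45ff98_nt.JA6

/-! The prime number theorem with an error term. -/

namespace Pool.Agent.Jac
open Finset MeasureTheory Complex

noncomputable section

theorem LSeries_lam_sub {s : ℂ} (hs : 1 < s.re) :
    LSeries (fun n => ((ArithmeticFunction.vonMangoldt n : ℝ) : ℂ) - 1) s =
      -deriv zf s / zf s + (-1 / s - riemannZeta₀ s) := by
  have h0 : s ≠ 0 := fun e => by rw [e, zero_re] at hs; linarith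
  have h1 : s ≠ 1 := fun e => by rw [e, one_re] at hs; linarith
  have h1' : s - 1 ≠ 0 := sub_ne_zero.2 h1
  have e1 : (fun n : ℕ => ((ArithmeticFunction.vonMangoldt n : ℝ) : ℂ) - 1) =
      (fun n : ℕ => ((ArithmeticFunction.vonMangoldt n : ℝ) : ℂ)) - 1 := rfl
  have hz : riemannZeta s ≠ 0 := riemannZeta_ne_zero_of_one_lt_re hs
  have hzf : zf s ≠ 0 := fun e => hz (by rw [zeta_eq_zf h0 h1, e, mul_zero, zero_div])
  have hop : IsOpen {z : ℂ | 0 < z.re} := isOpen_lt continuous_const continuous_re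
  have hs0 : s ∈ {z : ℂ | 0 < z.re} := show 0 < s.re by linarith
  have hd : HasDerivAt zf (deriv zf s) s :=
    (zf_diff.differentiableAt (hop.mem_nhds hs0)).hasDerivAt
  have hq : HasDerivAt (fun z : ℂ => z * zf z / (z - 1))
      (((1 * zf s + s * deriv zf s) * (s - 1) - s * zf s * 1) / (s - 1) ^ 2) s :=
    ((hasDerivAt_id s).mul hd).div ((hasDerivAt_id s).sub_const 1) h1'
  have hev : riemannZeta =ᶠ[nhds s] fun z : ℂ => z * zf z / (z - 1) := by
    filter_upwards [compl_singleton_mem_nhds h0, compl_singleton_mem_nhds h1] with z hz0 hz1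
    exact zeta_eq_zf hz0 hz1
  have hder : deriv riemannZeta s =
      ((1 * zf s + s * deriv zf s) * (s - 1) - s * zf s * 1) / (s - 1) ^ 2 :=
    hev.deriv_eq.trans hq.deriv
  rw [e1, LSeries_sub (ArithmeticFunction.LSeriesSummable_vonMangoldt hs)
    (LSeriesSummable_one_iff.2 hs), ArithmeticFunction.LSeries_vonMangoldt_eq_deriv_riemannZeta_div hs,
    LSeries_one_eq_riemannZeta hs, hder]
  have e2 : -(((1 * zf s + s * deriv zf s) * (s - 1) - s * zf s * 1) / (s - 1) ^ 2) /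
      riemannZeta s = -deriv zf s / zf s - 1 / s + (s - 1)⁻¹ := by
    rw [zeta_eq_zf h0 h1]
    field_simp
    ring
  rw [e2, riemannZeta_eq_inv_sub_add h1]
  ring

theorem ja7b_coef (n : ℕ) :
    ‖((ArithmeticFunction.vonMangoldt n : ℝ) : ℂ) - 1‖ ≤ 2 + Real.log n := by
  refine (norm_sub_le _ _).trans ?_
  rw [norm_real, norm_one, Real.norm_of_nonneg ArithmeticFunction.vonMangoldt_nonneg]
  have := ArithmeticFunction.vonMangoldt_le_log (n := n)
  linarith

theorem ja7b_sum (x : ℝ) :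
    ∑ n ∈ Icc 1 ⌊x⌋₊, (((ArithmeticFunction.vonMangoldt n : ℝ) : ℂ) - 1) =
      ((Chebyshev.psi x - ⌊x⌋₊ : ℝ) : ℂ) := by
  have e : Icc 1 ⌊x⌋₊ = Ioc 0 ⌊x⌋₊ := by
    ext n
    simp only [mem_Icc, mem_Ioc]
    omega
  rw [sum_sub_distrib, e, Chebyshev.psi]
  simp

theorem ja7b_disc {η : ℝ} (h0 : 0 < η) (h1 : η ≤ 1) : ∃ V : ℝ, 1 ≤ V ∧
    Disc (fun s => -deriv zf s / zf s + (-1 / s - riemannZeta₀ s)) V (2 * η) := by
  obtain ⟨A, hA, hup⟩ := zf_up h0 h1
  obtain ⟨a, ha, hlo⟩ := zf_low h0 h1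
  obtain ⟨C, hC, hup0⟩ := zeta0_up h0 h1
  have hR : 0 < η / 2 := by positivity
  have hR1 : η / 2 ≤ 1 := by linarith
  have hsub : {s : ℂ | 1 - η / 2 < s.re} ⊆ {s : ℂ | 0 < s.re} := fun s hs => by
    have : 1 - η / 2 < s.re := hs
    show 0 < s.re
    linarith
  obtain ⟨hV, hD, -⟩ := disc_of_low hR hR1 hA ha h0.le h1 (zf_diff.mono hsub)
    (fun s hs hs' => hup s hs.le hs') hlo
  have hD2 : Disc (fun s : ℂ => -1 / s - riemannZeta₀ s) (2 * (2 + C) / (η / 2)) η := by
    refine disc_of_up hR hR1 (by linarith) h0.le h1 (fun s hs => ?_) fun s hs hs' => ?_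
    · have h : s ≠ 0 := fun e => by
        have := hsub hs
        rw [e] at this
        exact lt_irrefl _ (show (0 : ℝ) < 0 from this)
      exact (((differentiableAt_const _).div differentiableAt_id h).sub
        (differentiable_riemannZeta₀ s)).differentiableWithinAt
    · have hP : 1 ≤ (|s.im| + 2) ^ η :=
        Real.one_le_rpow (by linarith [abs_nonneg s.im]) h0.le
      have hn : 1 / 2 ≤ ‖s‖ := by
        have := re_le_norm s
        linarith
      have hi : ‖-1 / s‖ ≤ 2 := by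
        rw [norm_div, norm_neg, norm_one, div_le_iff₀ (by linarith)]
        linarith
      have := hup0 s hs.le hs'
      refine (norm_sub_le _ _).trans ?_
      nlinarith
  have hV2 : 0 < 2 * (2 + C) / (η / 2) := by positivity
  refine ⟨2 * max (16 * A / (η / 2 * a)) (2 * (2 + C) / (η / 2)), ?_, ?_⟩
  · have := le_max_left (16 * A / (η / 2 * a)) (2 * (2 + C) / (η / 2))
    linarith
  · exact (hD.mono (by linarith) (le_max_left _ _) le_rfl).add
      (hD2.mono hV2 (le_max_right _ _) (by linarith)) (lt_max_of_lt_right hV2)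

theorem psi_one (k : ℕ) : ∃ C : ℝ, 0 < C ∧ ∀ x : ℝ, 2 ≤ x →
    |Chebyshev.psi x - x| ≤ C * x / Real.log x ^ k := by
  have hk : (0 : ℝ) ≤ k := Nat.cast_nonneg k
  have h0 : (0 : ℝ) < 1 / (8 * k + 8) := by positivity
  have h1 : (1 : ℝ) / (8 * k + 8) ≤ 1 := by
    rw [div_le_one (by positivity)]
    linarith
  obtain ⟨V, hV, hD⟩ := ja7b_disc h0 h1
  obtain ⟨C, hC, hun⟩ := unsmooth k
  obtain ⟨C1, hC1, hlog⟩ := log_pow_le k
  refine ⟨C * V ^ (2 * k + 2) + C1, by positivity, fun x hx => ?_⟩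
  have h2 := hun _ _ V _ ja7b_coef (fun s hs => LSeries_lam_sub hs) hD hV (by positivity)
    (le_of_eq (by field_simp; ring)) x hx
  rw [ja7b_sum, norm_real, Real.norm_eq_abs] at h2
  have hL : 0 < Real.log x ^ k := pow_pos (Real.log_pos (by linarith)) k
  have h3 : 1 ≤ C1 * x / Real.log x ^ k := by
    rw [le_div_iff₀ hL, one_mul]
    refine (hlog x (by linarith)).trans (mul_le_mul_of_nonneg_left ?_ (by linarith))
    exact Real.sqrt_le_iff.2 ⟨by linarith, by nlinarith⟩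
  have h4 : |(⌊x⌋₊ : ℝ) - x| ≤ 1 := by
    have := Nat.floor_le (show (0 : ℝ) ≤ x by linarith)
    have := Nat.lt_floor_add_one x
    rw [abs_le]
    constructor <;> linarith
  have h5 := abs_sub_le (Chebyshev.psi x) (⌊x⌋₊ : ℝ) x
  rw [add_mul, add_div]
  linarith

end

end Pool.Agent.Jac
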