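import Pool.Agent.P.MP_45ff98_nt.JA8a
import Pool.Agent.Lib.Sieve.Mertens

/-! From prime powers to primes. -/

namespace Pool.Agent.Jac
open Finset MeasureTheory Complex

noncomputable section

theorem ja8b_Icc (N : ℕ) : Icc 1 N = Ioc 0 N := by
  ext n; simp [Nat.succ_le_iff]

theorem psA_thA (t : ℝ) (μ c : ℕ) :
    0 ≤ psA t μ c - thA t μ c ∧ psA t μ c - thA t μ c ≤ Chebyshev.psi t - Chebyshev.theta t := by
  have e : psA t μ c - thA t μ c = ∑ n ∈ ((Ioc 0 ⌊t⌋₊).filter (fun n => n ≡ c [MOD μ])).filter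
      (fun n => ¬n.Prime), ArithmeticFunction.vonMangoldt n := by
    rw [psA, thA, ja8b_Icc, ← sum_filter_add_sum_filter_not _ (fun n : ℕ => n.Prime),
      filter_filter, sub_eq_iff_eq_add']
    congr 1
    refine sum_congr (filter_congr fun n _ => and_comm) fun n hn => ?_
    exact ArithmeticFunction.vonMangoldt_apply_prime (mem_filter.1 hn).2.1
  rw [e, Chebyshev.psi_sub_theta_eq_sum_not_prime]
  exact ⟨sum_nonneg fun _ _ => ArithmeticFunction.vonMangoldt_nonneg,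
    sum_le_sum_of_subset_of_nonneg (filter_subset_filter _ (filter_subset _ _))
      fun _ _ _ => ArithmeticFunction.vonMangoldt_nonneg⟩

theorem ps0_psi (t : ℝ) {μ : ℕ} (hμ : μ ≠ 0) : 0 ≤ Chebyshev.psi t - ps0 t μ ∧
    Chebyshev.psi t - ps0 t μ ≤ Chebyshev.psi t - Chebyshev.theta t + Real.log μ := by
  have e : Chebyshev.psi t - ps0 t μ = ∑ n ∈ (Ioc 0 ⌊t⌋₊).filter (fun n => ¬n.Coprime μ),
      ArithmeticFunction.vonMangoldt n := by
    rw [ps0, Chebyshev.psi, ja8b_Icc, ← sum_filter_add_sum_filter_not _ (fun n : ℕ => n.Coprime μ),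
      add_sub_cancel_left]
  rw [e, Chebyshev.psi_sub_theta_eq_sum_not_prime]
  refine ⟨sum_nonneg fun _ _ => ArithmeticFunction.vonMangoldt_nonneg, ?_⟩
  rw [← sum_filter_add_sum_filter_not _ (fun n : ℕ => n.Prime), add_comm]
  refine add_le_add (sum_le_sum_of_subset_of_nonneg (filter_subset_filter _ (filter_subset _ _))
    fun _ _ _ => ArithmeticFunction.vonMangoldt_nonneg) ?_
  refine le_trans ?_ (Pool.Agent.Lib.Sieve.sum_log_primeFactors_le hμ)
  rw [sum_congr rfl fun n hn => ArithmeticFunction.vonMangoldt_apply_prime (mem_filter.1 hn).2]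
  refine sum_le_sum_of_subset_of_nonneg (fun n hn => ?_)
    fun _ _ _ => Real.log_natCast_nonneg _
  obtain ⟨h1, h2⟩ := mem_filter.1 hn
  exact Nat.mem_primeFactors.2 ⟨h2, not_not.1 fun h =>
    (mem_filter.1 h1).2 (h2.coprime_iff_not_dvd.2 h), hμ⟩

theorem thA_le {t E : ℝ} {μ c : ℕ} [NeZero μ] (hE : 0 ≤ E) (hc : c.Coprime μ)
    (h : ∀ χ : DirichletCharacter ℂ μ, χ ≠ 1 →
      ‖∑ n ∈ Icc 1 ⌊t⌋₊, χ n * ((ArithmeticFunction.vonMangoldt n : ℝ) : ℂ)‖ ≤ E) :
    |thA t μ c - t / Nat.totient μ| ≤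
      E + |Chebyshev.psi t - t| + 2 * (Chebyshev.psi t - Chebyshev.theta t) + Real.log μ := by
  have h1 := orth_le hE hc h
  obtain ⟨h2, h3⟩ := psA_thA t μ c
  obtain ⟨h4, h5⟩ := ps0_psi t (NeZero.ne μ)
  have hφ : (1 : ℝ) ≤ Nat.totient μ := by
    exact_mod_cast Nat.totient_pos.2 (Nat.pos_of_ne_zero (NeZero.ne μ))
  have h6 : |ps0 t μ - t| ≤
      |Chebyshev.psi t - t| + (Chebyshev.psi t - Chebyshev.theta t + Real.log μ) := by
    have := le_abs_self (Chebyshev.psi t - t)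
    have := neg_abs_le (Chebyshev.psi t - t)
    exact abs_le.2 ⟨by linarith, by linarith⟩
  have h7 : |ps0 t μ / Nat.totient μ - t / Nat.totient μ| ≤ |ps0 t μ - t| := by
    rw [← sub_div, abs_div, abs_of_pos (zero_lt_one.trans_le hφ)]
    exact div_le_self (abs_nonneg _) hφ
  obtain ⟨a1, a2⟩ := abs_le.1 h1
  obtain ⟨b1, b2⟩ := abs_le.1 (h7.trans h6)
  exact abs_le.2 ⟨by linarith, by linarith⟩

end

end Pool.Agent.Jac
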