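import Pool.Agent.P.MP_45ff98_nt.JA7a
import Pool.Agent.P.MP_45ff98_nt.JA7b
import Pool.Agent.P.MP_45ff98_nt.JA8b

/-! The theorem of Siegel and Walfisz. -/

namespace Pool.Agent.Jac
open Finset MeasureTheory Complex

noncomputable section

theorem siegel_walfisz (B : ℕ) : ∃ C : ℝ, 0 < C ∧ ∀ (t : ℝ) (μ c : ℕ), 2 ≤ t → 1 ≤ μ →
    (μ : ℝ) ≤ Real.log t ^ B → c.Coprime μ →
      |thA t μ c - t / Nat.totient μ| ≤ C * t / Real.log t ^ B := by
  obtain ⟨C1, hC1, h1⟩ := psi_char (2 * B)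
  obtain ⟨C2, hC2, h2⟩ := psi_one B
  obtain ⟨C3, h3⟩ := Chebyshev.psi_sub_theta_le_mul_sqrt
  obtain ⟨C4, hC4, h4⟩ := log_pow_le B
  refine ⟨C1 + C2 + 2 * (|C3| * C4) + C4 * C4, by positivity, fun t μ c ht hμ hle hc => ?_⟩
  have : NeZero μ := ⟨by omega⟩
  have ht0 : 0 < t := by linarith
  have hL : 0 < Real.log t := Real.log_pos (by linarith)
  have hW : 0 < Real.log t ^ B := pow_pos hL B
  have hμ0 : (0 : ℝ) < μ := by exact_mod_cast hμ
  have hs : 0 < √t := Real.sqrt_pos.2 ht0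
  have h5 := h4 t (by linarith)
  have h6 : √t ≤ C4 * (t / Real.log t ^ B) := by
    rw [← mul_div_assoc, le_div_iff₀ hW]
    calc √t * Real.log t ^ B ≤ √t * (C4 * √t) := mul_le_mul_of_nonneg_left h5 hs.le
      _ = C4 * (√t * √t) := by ring
      _ = C4 * t := by rw [Real.mul_self_sqrt ht0.le]
  have h7 := thA_le (t := t) (E := C1 * (t / Real.log t ^ B)) (by positivity) hc fun χ hχ => by
    refine (h1 μ χ hχ t ht).trans ?_
    rw [two_mul, pow_add, div_le_iff₀ (mul_pos hW hW)]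
    calc C1 * μ * t ≤ C1 * Real.log t ^ B * t := by gcongr
      _ = C1 * (t / Real.log t ^ B) * (Real.log t ^ B * Real.log t ^ B) := by field_simp
  have h8 := h2 t ht
  have h9 : Chebyshev.psi t - Chebyshev.theta t ≤ |C3| * C4 * (t / Real.log t ^ B) := by
    calc Chebyshev.psi t - Chebyshev.theta t ≤ C3 * √t := h3 t
      _ ≤ |C3| * √t := mul_le_mul_of_nonneg_right (le_abs_self _) hs.le
      _ ≤ |C3| * (C4 * (t / Real.log t ^ B)) := mul_le_mul_of_nonneg_left h6 (abs_nonneg _)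
      _ = _ := by ring
  have h10 : Real.log μ ≤ C4 * C4 * (t / Real.log t ^ B) := by
    calc Real.log μ ≤ μ := (Real.log_le_sub_one_of_pos hμ0).trans (by linarith)
      _ ≤ C4 * √t := hle.trans h5
      _ ≤ C4 * (C4 * (t / Real.log t ^ B)) := mul_le_mul_of_nonneg_left h6 (by linarith)
      _ = _ := by ring
  rw [mul_div_assoc] at h8 ⊢
  linarith

end

end Pool.Agent.Jac
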