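import Pool.Agent.P.MP_45ff98_nt.JDefs

/-! Orthogonality of characters. -/

namespace Pool.Agent.Jac
open Finset MeasureTheory Complex

noncomputable section

def psA (t : ℝ) (μ c : ℕ) : ℝ :=
  ∑ n ∈ (Icc 1 ⌊t⌋₊).filter (fun n => n ≡ c [MOD μ]), ArithmeticFunction.vonMangoldt n

def ps0 (t : ℝ) (μ : ℕ) : ℝ :=
  ∑ n ∈ (Icc 1 ⌊t⌋₊).filter (fun n => n.Coprime μ), ArithmeticFunction.vonMangoldt n

theorem orth_le {t E : ℝ} {μ c : ℕ} [NeZero μ] (hE : 0 ≤ E) (hc : c.Coprime μ)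
    (h : ∀ χ : DirichletCharacter ℂ μ, χ ≠ 1 →
      ‖∑ n ∈ Icc 1 ⌊t⌋₊, χ n * ((ArithmeticFunction.vonMangoldt n : ℝ) : ℂ)‖ ≤ E) :
    |psA t μ c - ps0 t μ / Nat.totient μ| ≤ E := by
  classical
  have hu : IsUnit (c : ZMod μ) := (ZMod.isUnit_iff_coprime c μ).2 hc
  have hφ : (0 : ℝ) < Nat.totient μ := by exact_mod_cast Nat.totient_pos.2 (NeZero.pos μ)
  have h1 : ((Nat.totient μ * psA t μ c : ℝ) : ℂ) = ∑ χ : DirichletCharacter ℂ μ,
      χ (c : ZMod μ)⁻¹ * ∑ n ∈ Icc 1 ⌊t⌋₊, χ n * ((ArithmeticFunction.vonMangoldt n : ℝ) : ℂ) := by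
    simp only [mul_sum, ← mul_assoc]
    rw [sum_comm]
    simp only [← sum_mul, DirichletCharacter.sum_char_inv_mul_char_eq ℂ hu]
    rw [psA, sum_filter]
    push_cast
    rw [mul_sum]
    refine sum_congr rfl fun n _ => ?_
    by_cases hn : n ≡ c [MOD μ]
    · rw [if_pos hn, if_pos ((ZMod.natCast_eq_natCast_iff _ _ _).2 hn.symm)]
    · rw [if_neg hn, if_neg fun h2 => hn ((ZMod.natCast_eq_natCast_iff _ _ _).1 h2).symm]
      simp
  have hi : IsUnit (c : ZMod μ)⁻¹ := IsUnit.of_mul_eq_one _ (ZMod.inv_mul_of_unit _ hu)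
  have h2 : (1 : DirichletCharacter ℂ μ) (c : ZMod μ)⁻¹ * ∑ n ∈ Icc 1 ⌊t⌋₊,
      (1 : DirichletCharacter ℂ μ) n * ((ArithmeticFunction.vonMangoldt n : ℝ) : ℂ)
      = ((ps0 t μ : ℝ) : ℂ) := by
    rw [MulChar.one_apply hi, one_mul, ps0, sum_filter]
    push_cast
    refine sum_congr rfl fun n _ => ?_
    by_cases hn : n.Coprime μ
    · rw [if_pos hn, MulChar.one_apply ((ZMod.isUnit_iff_coprime n μ).2 hn), one_mul]
    · rw [if_neg hn, MulChar.map_nonunit _ fun h3 => hn ((ZMod.isUnit_iff_coprime n μ).1 h3)]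
      simp
  rw [← add_sum_erase _ _ (mem_univ (1 : DirichletCharacter ℂ μ)), h2] at h1
  have h3 : |Nat.totient μ * psA t μ c - ps0 t μ| ≤ Nat.totient μ * E := by
    rw [← Real.norm_eq_abs, ← Complex.norm_real, ofReal_sub, h1, add_sub_cancel_left]
    refine (norm_sum_le _ _).trans ((sum_le_card_nsmul _ _ E fun χ hχ => ?_).trans ?_)
    · rw [norm_mul]
      exact (mul_le_of_le_one_left (norm_nonneg _) (χ.norm_le_one _)).trans
        (h χ (ne_of_mem_erase hχ))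
    · rw [nsmul_eq_mul]
      refine mul_le_mul_of_nonneg_right ?_ hE
      have h4 := card_erase_le (s := (univ : Finset (DirichletCharacter ℂ μ))) (a := 1)
      rw [card_univ, ← Nat.card_eq_fintype_card,
        DirichletCharacter.card_eq_totient_of_hasEnoughRootsOfUnity] at h4
      exact_mod_cast h4
  rw [show psA t μ c - ps0 t μ / Nat.totient μ
    = (Nat.totient μ * psA t μ c - ps0 t μ) / Nat.totient μ by field_simp, abs_div,
    abs_of_pos hφ, div_le_iff₀' hφ]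
  exact h3

end

end Pool.Agent.Jac
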