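import Pool.Agent.P.MP_45ff98_nt.JA1z

/-! The Dirichlet series of the Liouville function. -/

namespace Pool.Agent.Jac
open Finset MeasureTheory Complex

noncomputable section

theorem ja9a_norm (n : ℕ) : ‖((ArithmeticFunction.liouville n : ℤ) : ℂ)‖ ≤ 1 := by
  rcases eq_or_ne n 0 with rfl | h
  · simp
  · rw [ArithmeticFunction.liouville_apply h]
    push_cast
    simp

def ja9a_hom {s : ℂ} (hs : s ≠ 0) : ℕ →*₀ ℂ where
  toFun n := ((ArithmeticFunction.liouville n : ℤ) : ℂ) * riemannZetaSummandHom hs n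
  map_zero' := by simp
  map_one' := by simp [ArithmeticFunction.liouville_apply_one]
  map_mul' m n := by
    rw [ArithmeticFunction.liouville_apply_mul, map_mul]
    push_cast
    ring

theorem ja9a_hom_apply {s : ℂ} (hs : s ≠ 0) (n : ℕ) :
    ja9a_hom hs n = ((ArithmeticFunction.liouville n : ℤ) : ℂ) * (n : ℂ) ^ (-s) := rfl

theorem LSeries_liouville {s : ℂ} (hs : 1 < s.re) :
    LSeries (fun n => ((ArithmeticFunction.liouville n : ℤ) : ℂ)) s * riemannZeta s =
      riemannZeta (2 * s) := by
  have h0 : s ≠ 0 := Complex.ne_zero_of_one_lt_re hs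
  have hsum : Summable (fun n => ‖ja9a_hom h0 n‖) := by
    refine Summable.of_nonneg_of_le (fun n => norm_nonneg _) (fun n => ?_)
      (summable_riemannZetaSummand hs)
    show ‖((ArithmeticFunction.liouville n : ℤ) : ℂ) * riemannZetaSummandHom h0 n‖ ≤ _
    rw [norm_mul]
    exact mul_le_of_le_one_left (norm_nonneg _) (ja9a_norm n)
  have h1 := EulerProduct.eulerProduct_completely_multiplicative_hasProd hsum
  have h2 := riemannZeta_eulerProduct_hasProd hs
  have hs2 : 1 < (2 * s).re := by
    simp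
    linarith
  have h3 := riemannZeta_eulerProduct_hasProd hs2
  have h4 := h1.mul h2
  have hL : ∑' n, ja9a_hom h0 n =
      LSeries (fun n => ((ArithmeticFunction.liouville n : ℤ) : ℂ)) s := by
    unfold LSeries
    refine tsum_congr fun n => ?_
    rw [ja9a_hom_apply, LSeries.term_def]
    split_ifs with h
    · subst h; simp
    · rw [cpow_neg, div_eq_mul_inv]
  rw [hL] at h4
  refine HasProd.unique h4 ?_
  have : (fun p : Nat.Primes => (1 - ja9a_hom h0 p)⁻¹ * (1 - ((p : ℕ) : ℂ) ^ (-s))⁻¹) =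
      fun p : Nat.Primes => (1 - ((p : ℕ) : ℂ) ^ (-(2 * s)))⁻¹ := by
    funext p
    rw [ja9a_hom_apply, ArithmeticFunction.liouville_apply p.prop.ne_zero,
      ArithmeticFunction.cardFactors_apply_prime p.prop, ← mul_inv]
    have e : -(2 * s) = ((2 : ℕ) : ℂ) * (-s) := by push_cast; ring
    rw [e, cpow_nat_mul]
    push_cast
    congr 1
    ring
  rw [this]
  exact h3

theorem LSeries_liouville' {s : ℂ} (hs : 1 < s.re) :
    LSeries (fun n => ((ArithmeticFunction.liouville n : ℤ) : ℂ)) s =
      riemannZeta (2 * s) * ((s - 1) / s) * (zf s)⁻¹ := by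
  have h0 : s ≠ 0 := Complex.ne_zero_of_one_lt_re hs
  have h1 : s ≠ 1 := by
    rintro rfl
    simp at hs
  have hz := riemannZeta_ne_zero_of_one_lt_re hs
  have he := zeta_eq_zf h0 h1
  have hf : zf s ≠ 0 := by
    intro h
    apply hz
    rw [he, h]
    simp
  have h1' : s - 1 ≠ 0 := sub_ne_zero.2 h1
  rw [← LSeries_liouville hs, he]
  field_simp

end

end Pool.Agent.Jac
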