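import Pool.Agent.P.MP_45ff98_nt.JA2z
import Pool.Agent.P.MP_45ff98_nt.JA3
import Pool.Agent.P.MP_45ff98_nt.JA6
import Pool.Agent.P.MP_45ff98_nt.JA9a

/-! The summatory Liouville function. -/

namespace Pool.Agent.Jac
open Finset MeasureTheory Complex

noncomputable section

theorem ja9_coef (n : ℕ) : ‖((ArithmeticFunction.liouville n : ℤ) : ℂ)‖ ≤ 2 + Real.log n := by
  have h : 0 ≤ Real.log n := Real.log_natCast_nonneg n
  rcases eq_or_ne n 0 with rfl | hn
  · simp
  · rw [ArithmeticFunction.liouville_apply hn]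
    push_cast
    rw [norm_pow, norm_neg, norm_one, one_pow]
    linarith

theorem ja9_diff : DifferentiableOn ℂ (fun s : ℂ => riemannZeta (2 * s) * ((s - 1) / s))
    {s | 1 - 1 / 288 < s.re} := fun s hs => by
  have hs' : 1 - 1 / 288 < s.re := hs
  have h0 : s ≠ 0 := fun e => by
    rw [e, zero_re] at hs'
    norm_num at hs'
  have h1 : 2 * s ≠ 1 := fun e => by
    have := congrArg Complex.re e
    simp at this
    linarith
  have h2 : DifferentiableAt ℂ (fun s : ℂ => riemannZeta (2 * s)) s :=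
    (differentiableAt_riemannZeta h1).comp s (differentiableAt_id.const_mul 2)
  exact (h2.mul ((differentiableAt_id.sub_const 1).div differentiableAt_id h0)).differentiableWithinAt

theorem ja9_up (s : ℂ) (hs : 1 - 1 / 288 < s.re) :
    ‖riemannZeta (2 * s) * ((s - 1) / s)‖ ≤ 9 * (|s.im| + 2) ^ (1 / 144 : ℝ) := by
  have h1 : ‖riemannZeta (2 * s)‖ ≤ 3 := zeta_le (by simp; linarith)
  have h2 : 1 / 2 ≤ ‖s‖ := le_trans (by linarith) (re_le_norm s)
  have h3 : ‖(s - 1) / s‖ ≤ 3 := by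
    rw [norm_div, div_le_iff₀ (by linarith)]
    have := norm_sub_le s 1
    rw [norm_one] at this
    linarith
  have h4 : 1 ≤ (|s.im| + 2) ^ (1 / 144 : ℝ) :=
    Real.one_le_rpow (by linarith [abs_nonneg s.im]) (by norm_num)
  rw [norm_mul]
  calc ‖riemannZeta (2 * s)‖ * ‖(s - 1) / s‖ ≤ 3 * 3 :=
        mul_le_mul h1 h3 (norm_nonneg _) (by norm_num)
    _ ≤ _ := by linarith

theorem ja9_disc : ∃ V : ℝ, 1 ≤ V ∧
    Disc (fun s => riemannZeta (2 * s) * ((s - 1) / s) * (zf s)⁻¹) V (1 / 36) := by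
  obtain ⟨A, hA, hup⟩ := zf_up (η := 1 / 144) (by norm_num) (by norm_num)
  obtain ⟨a, ha, hlo⟩ := zf_low (η := 1 / 144) (by norm_num) (by norm_num)
  obtain ⟨g1, -, g2⟩ := disc_of_low (f := zf) (R := 1 / 288) (η := 1 / 144) (by norm_num)
    (by norm_num) hA ha (by norm_num) (by norm_num)
    (zf_diff.mono fun s hs => lt_trans (by norm_num) (show 1 - 1 / 288 < s.re from hs))
    (fun s h1 h2 => hup s (by linarith) h2) hlo
  have g3 := disc_of_up (R := 1 / 288) (A := 9) (η := 1 / 144) (by norm_num) (by norm_num)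
    (by norm_num) (by norm_num) (by norm_num) ja9_diff fun s h1 _ => ja9_up s h1
  have hV : 1 ≤ max (16 * A / (1 / 288 * a)) (2 * 9 / (1 / 288)) := g1.trans (le_max_left _ _)
  have g4 := (g3.mono (by norm_num) (le_max_right (16 * A / (1 / 288 * a)) _)
    (η' := 2 * (1 / 144)) (by norm_num)).mul
    (g2.mono (by linarith) (le_max_left _ _) le_rfl) hV (by norm_num)
  refine ⟨_, one_le_pow₀ hV (n := 2), ?_⟩
  rwa [show (2 * (2 * (1 / 144)) : ℝ) = 1 / 36 by norm_num] at g4

theorem liouville_bound : ∃ C : ℝ, 0 < C ∧ ∀ t : ℕ, 2 ≤ t →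
    |(LL t : ℝ)| ≤ C * t / Real.log t ^ 8 := by
  obtain ⟨V, hV, hD⟩ := ja9_disc
  obtain ⟨C, hC, h⟩ := unsmooth 8
  refine ⟨C * V ^ (2 * 8 + 2), by positivity, fun t ht => ?_⟩
  have h1 := h (fun n => ((ArithmeticFunction.liouville n : ℤ) : ℂ)) _ V (1 / 36) ja9_coef
    (fun s hs => LSeries_liouville' hs) hD hV (by norm_num) (by norm_num) t (by exact_mod_cast ht)
  rw [Nat.floor_natCast, ← Int.cast_sum, Complex.norm_intCast] at h1
  exact h1

end

end Pool.Agent.Jac
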