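import Pool.Agent.P.MP_45ff98_nt.JBase

/-! Ramanujan sums and an oscillatory integral. -/

namespace Pool.Agent.Jac
open Finset

noncomputable section

theorem jb1_block (m : ℕ) (hm : 1 ≤ m) (b : ℤ) (X : ℕ) :
    ∑ n ∈ (Ioc X (X + m)).filter (fun n => n.Coprime m), ch m b n =
      ∑ n ∈ (range m).filter (fun n => n.Coprime m), ee (b * n / m) := by
  have : NeZero m := ⟨by omega⟩
  have hu : ∀ n : ℕ, n.Coprime m → (n : ZMod m) * (n : ZMod m)⁻¹ = 1 := fun n hn =>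
    ZMod.mul_inv_of_unit _ ((ZMod.isUnit_iff_coprime n m).2 hn)
  refine sum_bij (fun n _ => ((n : ZMod m)⁻¹).val) (fun n hn => ?_) (fun n hn n' hn' e => ?_)
    (fun k hk => ?_) (fun n _ => rfl)
  · rw [mem_filter] at hn ⊢
    refine ⟨mem_range.2 (ZMod.val_lt _), (ZMod.isUnit_iff_coprime _ m).1 ?_⟩
    rw [ZMod.natCast_zmod_val]
    exact IsUnit.of_mul_eq_one _ ((mul_comm _ _).trans (hu n hn.2))
  · rw [mem_filter, mem_Ioc] at hn hn'
    have e1 : (n : ZMod m)⁻¹ = (n' : ZMod m)⁻¹ := ZMod.val_injective m e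
    have e2 : (n : ZMod m) = (n' : ZMod m) := by
      have h1 := hu n hn.2
      have h2 := hu n' hn'.2
      rw [e1] at h1
      linear_combination (n' : ZMod m) * h1 - (n : ZMod m) * h2
    have e3 : (m : ℤ) ∣ (n' : ℤ) - n := ((ZMod.natCast_eq_natCast_iff n n' m).1 e2).dvd
    have e4 := Int.eq_zero_of_abs_lt_dvd e3 (abs_lt.2 ⟨by omega, by omega⟩)
    omega
  · rw [mem_filter, mem_range] at hk
    have e1 : ((X + 1 + ((k : ZMod m)⁻¹ - ((X + 1 : ℕ) : ZMod m)).val : ℕ) : ZMod m) = (k : ZMod m)⁻¹ := by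
      rw [Nat.cast_add, ZMod.natCast_zmod_val]
      ring
    have hl := ZMod.val_lt ((k : ZMod m)⁻¹ - ((X + 1 : ℕ) : ZMod m))
    have h1 : (k : ZMod m)⁻¹ * k = 1 := (mul_comm _ _).trans (hu k hk.2)
    refine ⟨X + 1 + ((k : ZMod m)⁻¹ - ((X + 1 : ℕ) : ZMod m)).val, ?_, ?_⟩
    · rw [mem_filter, mem_Ioc]
      refine ⟨⟨by omega, by omega⟩, (ZMod.isUnit_iff_coprime _ m).1 ?_⟩
      rw [e1]
      exact IsUnit.of_mul_eq_one _ h1
    · rw [e1, ZMod.inv_eq_of_mul_eq_one m _ _ h1, ZMod.val_cast_of_lt hk.1]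

theorem jb1_ind (m : ℕ) (hm : 1 ≤ m) (n : ℕ) :
    ∑ d ∈ m.divisors, (if d ∣ n then (ArithmeticFunction.moebius d : ℂ) else 0) =
      if n.Coprime m then 1 else 0 := by
  have h1 := congrArg (fun f : ArithmeticFunction ℤ => f (Nat.gcd n m))
    ArithmeticFunction.moebius_mul_coe_zeta
  simp only [ArithmeticFunction.coe_mul_zeta_apply, ArithmeticFunction.one_apply] at h1
  have h2 : (Nat.gcd n m).divisors = m.divisors.filter (fun d => d ∣ n) := by
    ext d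
    have : Nat.gcd n m ≠ 0 := Nat.gcd_ne_zero_right (by omega)
    simp only [Nat.mem_divisors, mem_filter, Nat.dvd_gcd_iff]
    exact ⟨fun h => ⟨⟨h.1.2, by omega⟩, h.1.1⟩, fun h => ⟨⟨h.2, h.1.1⟩, this⟩⟩
  rw [← sum_filter, ← h2]
  have h3 := congrArg (fun z : ℤ => (z : ℂ)) h1
  simpa [Nat.Coprime] using h3

theorem jb1_mult (d e : ℕ) (hd : 1 ≤ d) (b : ℤ) :
    ∑ n ∈ (range (d * e)).filter (fun n => d ∣ n), ee (b * n / (d * e : ℕ)) =
      ∑ t ∈ range e, ee (b * t / e) := by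
  symm
  refine sum_bij (fun t _ => d * t) (fun t ht => ?_) (fun t _ t' _ h => ?_) (fun n hn => ?_)
    (fun t _ => ?_)
  · rw [mem_filter, mem_range]
    exact ⟨Nat.mul_lt_mul_of_pos_left (mem_range.1 ht) hd, dvd_mul_right _ _⟩
  · exact Nat.eq_of_mul_eq_mul_left hd h
  · rw [mem_filter, mem_range] at hn
    obtain ⟨h1, t, rfl⟩ := hn
    exact ⟨t, mem_range.2 (Nat.lt_of_mul_lt_mul_left h1), rfl⟩
  · have : (d : ℝ) ≠ 0 := by positivity
    congr 1
    push_cast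
    rw [mul_left_comm, mul_div_mul_left _ _ this]

theorem jb1_val (m : ℕ) (hm : 1 ≤ m) (b : ℤ) :
    ∑ n ∈ (range m).filter (fun n => n.Coprime m), ee (b * n / m) =
      ∑ d ∈ m.divisors, (ArithmeticFunction.moebius d : ℂ) *
        (if ((m / d : ℕ) : ℤ) ∣ b then ((m / d : ℕ) : ℂ) else 0) := by
  have h1 : ∀ n ∈ range m, (if n.Coprime m then ee (b * n / m) else 0) =
      ∑ d ∈ m.divisors,
        (ArithmeticFunction.moebius d : ℂ) * (if d ∣ n then ee (b * n / m) else 0) := by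
    intro n _
    have h2 := congrArg (· * ee (b * n / m)) (jb1_ind m hm n)
    simp only [sum_mul, ite_mul, one_mul, zero_mul] at h2
    simp only [mul_ite, mul_zero]
    exact h2.symm
  rw [sum_filter, sum_congr rfl h1, sum_comm]
  refine sum_congr rfl fun d hd => ?_
  obtain ⟨e, rfl⟩ := Nat.dvd_of_mem_divisors hd
  have hd1 : 1 ≤ d := Nat.pos_of_mem_divisors hd
  have he : 1 ≤ e := Nat.pos_of_mul_pos_left hm
  rw [← mul_sum, ← sum_filter, jb1_mult d e hd1, Nat.mul_div_cancel_left e hd1, sum_ee e he]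

theorem jb1_sigma (g : ℕ) : ∑ e ∈ g.divisors, (e : ℝ) ≤ g * (1 + Real.log g) := by
  rw [← Nat.sum_div_divisors g (fun e => (e : ℝ))]
  refine le_trans ?_ (mul_le_mul_of_nonneg_left (Lib.Sieve.sum_inv_Ioc_le g) (by positivity))
  rw [mul_sum]
  refine le_trans (sum_le_sum (g := fun d : ℕ => (g : ℝ) * (1 / (d : ℝ))) fun d _ => ?_)
    (sum_le_sum_of_subset_of_nonneg (fun d hd => ?_) fun d _ _ => by positivity)
  · rw [mul_one_div]
    exact Nat.cast_div_le
  · exact mem_Ioc.2 ⟨Nat.pos_of_mem_divisors hd, Nat.divisor_le hd⟩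

theorem ramanujan (m : ℕ) (hm : 1 ≤ m) (b : ℤ) : ∃ c : ℂ,
    ‖c‖ ≤ (Int.gcd b m : ℝ) * (1 + Real.log m) ∧ ‖c‖ ≤ m ∧
      ∀ X : ℕ, ∑ n ∈ (Ioc X (X + m)).filter (fun n => n.Coprime m), ch m b n = c := by
  refine ⟨_, ?_, ?_, jb1_block m hm b⟩
  · rw [jb1_val m hm]
    have hg : 0 < Int.gcd b m := Int.gcd_pos_of_ne_zero_right _ (by omega)
    have hgm : Int.gcd b m ∣ m := by exact_mod_cast Int.gcd_dvd_right b m
    have h1 : ∀ d ∈ m.divisors, ‖(ArithmeticFunction.moebius d : ℂ) *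
        (if ((m / d : ℕ) : ℤ) ∣ b then ((m / d : ℕ) : ℂ) else 0)‖ ≤
        (fun e : ℕ => if (e : ℤ) ∣ b then (e : ℝ) else 0) (m / d) := by
      intro d _
      have h2 : ‖(ArithmeticFunction.moebius d : ℂ)‖ ≤ 1 := by
        rw [Complex.norm_intCast]
        exact_mod_cast ArithmeticFunction.abs_moebius_le_one
      rw [norm_mul]
      refine (mul_le_of_le_one_left (norm_nonneg _) h2).trans (le_of_eq ?_)
      simp only
      split_ifs
      · exact Complex.norm_natCast _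
      · exact norm_zero
    have h3 : m.divisors.filter (fun e : ℕ => (e : ℤ) ∣ b) = (Int.gcd b m).divisors := by
      ext e
      simp only [Nat.mem_divisors, mem_filter, Int.dvd_gcd_iff, Int.natCast_dvd_natCast]
      exact ⟨fun h => ⟨⟨h.2, h.1.1⟩, hg.ne'⟩, fun h => ⟨⟨h.1.2, by omega⟩, h.1.1⟩⟩
    refine (norm_sum_le_of_le _ h1).trans ?_
    rw [Nat.sum_div_divisors m (fun e : ℕ => if (e : ℤ) ∣ b then (e : ℝ) else 0), ← sum_filter, h3]
    refine (jb1_sigma _).trans (mul_le_mul_of_nonneg_left ?_ (by positivity))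
    have h4 : Real.log (Int.gcd b m) ≤ Real.log m :=
      Real.log_le_log (by exact_mod_cast hg) (by exact_mod_cast Nat.le_of_dvd hm hgm)
    linarith
  · refine (norm_sum_le _ _).trans ?_
    simp only [norm_ee, sum_const, nsmul_eq_mul, mul_one]
    exact_mod_cast (card_filter_le _ _).trans (card_range m).le

theorem jb1_deriv (α : ℝ) {t : ℝ} (ht : t ≠ 0) :
    HasDerivAt (fun t : ℝ => ee (α / t))
      (-(2 * Real.pi * Complex.I * α) / (t : ℂ) ^ 2 * ee (α / t)) t := by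
  have h1 : HasDerivAt (fun y : ℝ => α / y) (α * -(t ^ 2)⁻¹) t := by
    simpa only [div_eq_mul_inv] using (hasDerivAt_inv ht).const_mul α
  have h2 := (h1.ofReal_comp.const_mul (2 * Real.pi * Complex.I : ℂ)).cexp
  refine h2.congr_deriv ?_
  rw [ee]
  push_cast
  ring

theorem osc_int (α : ℝ) (hα : α ≠ 0) (a b : ℝ) (ha : 0 < a) (hab : a ≤ b) :
    ‖∫ t in a..b, ee (α / t)‖ ≤ b ^ 2 / |α| := by
  set κ : ℂ := -(2 * Real.pi * Complex.I * α) with hκ
  have hA : 0 < |α| := abs_pos.2 hα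
  have hn : ‖κ‖ = 2 * Real.pi * |α| := by
    simp [hκ, abs_of_pos Real.pi_pos]
  have hn4 : 4 * |α| ≤ ‖κ‖ := by
    rw [hn]
    nlinarith [Real.two_le_pi]
  have hκ0 : κ ≠ 0 := norm_pos_iff.1 (by linarith)
  have hpos : ∀ t ∈ Set.uIcc a b, 0 < t ∧ t ≤ b := fun t ht => by
    rw [Set.uIcc_of_le hab] at ht
    exact ⟨ha.trans_le ht.1, ht.2⟩
  have hu : ∀ t ∈ Set.uIcc a b,
      HasDerivAt (fun t : ℝ => (t : ℂ) ^ 2 / κ) (2 * (t : ℂ) / κ) t := fun t _ => by
    have h1 := (((hasDerivAt_id t).ofReal_comp).pow 2).div_const κ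
    refine h1.congr_deriv ?_
    simp
  have hv : ∀ t ∈ Set.uIcc a b,
      HasDerivAt (fun t : ℝ => ee (α / t)) (κ / (t : ℂ) ^ 2 * ee (α / t)) t := fun t ht =>
    jb1_deriv α (hpos t ht).1.ne'
  have cv : ContinuousOn (fun t : ℝ => ee (α / t)) (Set.uIcc a b) := fun t ht =>
    (hv t ht).continuousAt.continuousWithinAt
  have iu : IntervalIntegrable (fun t : ℝ => 2 * (t : ℂ) / κ) MeasureTheory.volume a b :=
    Continuous.intervalIntegrable (by fun_prop) _ _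
  have iv : IntervalIntegrable (fun t : ℝ => κ / (t : ℂ) ^ 2 * ee (α / t))
      MeasureTheory.volume a b := by
    refine ContinuousOn.intervalIntegrable (ContinuousOn.mul ?_ cv)
    refine continuousOn_const.div (by fun_prop) fun t ht => ?_
    exact pow_ne_zero _ (Complex.ofReal_ne_zero.2 (hpos t ht).1.ne')
  have key := intervalIntegral.integral_mul_deriv_eq_deriv_mul hu hv iu iv
  have e : ∫ t in a..b, ee (α / t) =
      ∫ t in a..b, (t : ℂ) ^ 2 / κ * (κ / (t : ℂ) ^ 2 * ee (α / t)) := by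
    refine intervalIntegral.integral_congr fun t ht => ?_
    have : (t : ℂ) ≠ 0 := Complex.ofReal_ne_zero.2 (hpos t ht).1.ne'
    field_simp
  have hb : 0 < b := ha.trans_le hab
  have hk : 0 < ‖κ‖ := by linarith
  have b1 : ∀ t : ℝ, 0 < t → t ≤ b → ‖(t : ℂ) ^ 2 / κ * ee (α / t)‖ ≤ b ^ 2 / ‖κ‖ := by
    intro t h0 h1
    rw [norm_mul, norm_ee, mul_one, norm_div, norm_pow, Complex.norm_real, Real.norm_of_nonneg h0.le]
    gcongr
  have b2 : ‖∫ t in a..b, 2 * (t : ℂ) / κ * ee (α / t)‖ ≤ 2 * b / ‖κ‖ * |b - a| := by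
    refine intervalIntegral.norm_integral_le_of_norm_le_const fun t ht => ?_
    have h0 := hpos t (Set.uIoc_subset_uIcc ht)
    rw [norm_mul, norm_ee, mul_one, norm_div, norm_mul, Complex.norm_real,
      Real.norm_of_nonneg h0.1.le, Complex.norm_two]
    gcongr
    exact h0.2
  have b3 : 2 * b / ‖κ‖ * |b - a| ≤ 2 * (b ^ 2 / ‖κ‖) := by
    rw [abs_of_nonneg (by linarith)]
    calc 2 * b / ‖κ‖ * (b - a) ≤ 2 * b / ‖κ‖ * b :=
          mul_le_mul_of_nonneg_left (by linarith) (by positivity)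
      _ = _ := by ring
  have b4 : 4 * (b ^ 2 / ‖κ‖) ≤ b ^ 2 / |α| := by
    rw [← mul_div_assoc, div_le_div_iff₀ hk hA]
    nlinarith [sq_nonneg b]
  rw [e, key]
  refine (norm_sub_le _ _).trans ?_
  have b5 := norm_sub_le ((b : ℂ) ^ 2 / κ * ee (α / b)) ((a : ℂ) ^ 2 / κ * ee (α / a))
  linarith [b1 b hb le_rfl, b1 a ha hab]

end

end Pool.Agent.Jac
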