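import Pool.Agent.P.MP_45ff98_nt.JB1

/-! Pair sums. -/

namespace Pool.Agent.Jac
open Finset

noncomputable section

theorem jb2_osc (α : ℝ) {X Y t m : ℝ} (hX : 0 < X) (hY : X ≤ Y) (h1 : Y ≤ t) (h2 : t ≤ Y + m) :
    ‖ee (α / t) - ee (α / Y)‖ ≤ 7 * |α| * m / X ^ 2 := by
  have hY0 : 0 < Y := hX.trans_le hY
  have ht0 : 0 < t := hY0.trans_le h1
  have e : α / t - α / Y = -(α * ((t - Y) / (t * Y))) := by field_simp; ring
  have h3 : (t - Y) / (t * Y) ≤ m / X ^ 2 := by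
    refine div_le_div₀ (by linarith) (by linarith) (by positivity) ?_
    rw [sq]
    exact mul_le_mul (hY.trans h1) hY hX.le ht0.le
  have h4 : 0 ≤ (t - Y) / (t * Y) := div_nonneg (by linarith) (by positivity)
  refine (norm_ee_sub _ _).trans ?_
  rw [e, abs_neg, abs_mul, abs_of_nonneg h4, mul_div_assoc, mul_assoc 7]
  exact mul_le_mul (by linarith [Real.pi_lt_d2]) (mul_le_mul_of_nonneg_left h3 (abs_nonneg _))
    (by positivity) (by norm_num)

theorem jb2_add (m : ℕ) (b : ℤ) (α : ℝ) {X Y Z : ℕ} (h1 : X ≤ Y) (h2 : Y ≤ Z) :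
    PS m b α X Z = PS m b α X Y + PS m b α Y Z := by
  simp only [PS, sum_filter]
  exact (sum_Ioc_consecutive _ h1 h2).symm

theorem jb2_sum_le {Y k m : ℕ} {f : ℕ → ℂ} {B : ℝ} (hB : 0 ≤ B)
    (h : ∀ n ∈ Ioc Y (Y + k), ‖f n‖ ≤ B) :
    ‖∑ n ∈ (Ioc Y (Y + k)).filter (fun n => n.Coprime m), f n‖ ≤ k * B := by
  refine (norm_sum_le _ _).trans ((sum_le_card_nsmul _ _ B
    fun n hn => h n (mem_filter.1 hn).1).trans ?_)
  rw [nsmul_eq_mul]
  refine mul_le_mul_of_nonneg_right ?_ hB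
  have := card_filter_le (Ioc Y (Y + k)) (fun n => n.Coprime m)
  rw [Nat.card_Ioc, Nat.add_sub_cancel_left] at this
  exact_mod_cast this

theorem jb2_blocks {m : ℕ} {b : ℤ} (α : ℝ) {c : ℂ}
    (hc : ∀ X : ℕ, ∑ n ∈ (Ioc X (X + m)).filter (fun n => n.Coprime m), ch m b n = c)
    {X : ℕ} (hX : 1 ≤ X) (J : ℕ) :
    ‖PS m b α X (X + J * m) - c * ∑ j ∈ range J, ee (α / ((X + j * m : ℕ) : ℝ))‖ ≤
      J * (m * (7 * |α| * m / (X : ℝ) ^ 2)) := by
  have hX0 : (0 : ℝ) < X := by exact_mod_cast hX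
  induction J with
  | zero => simp [PS]
  | succ J ih =>
    have e : X + (J + 1) * m = X + J * m + m := by ring
    have h1 : ‖PS m b α (X + J * m) (X + J * m + m) - c * ee (α / ((X + J * m : ℕ) : ℝ))‖ ≤
        m * (7 * |α| * m / (X : ℝ) ^ 2) := by
      rw [← hc (X + J * m), PS, sum_mul, ← sum_sub_distrib]
      refine jb2_sum_le (by positivity) fun n hn => ?_
      rw [← mul_sub, norm_mul, ch, norm_ee, one_mul]
      obtain ⟨a1, a2⟩ := mem_Ioc.1 hn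
      exact jb2_osc α hX0 (by exact_mod_cast Nat.le_add_right _ _) (by exact_mod_cast a1.le)
        (by exact_mod_cast a2)
    rw [e, jb2_add m b α (Nat.le_add_right X (J * m)) (Nat.le_add_right _ m), sum_range_succ,
      mul_add, add_sub_add_comm, Nat.cast_succ, add_mul, one_mul]
    exact norm_add_le_of_le ih h1

theorem jb2_main {m : ℕ} (hm : 1 ≤ m) {b : ℤ} (α : ℝ) {c : ℂ}
    (hc : ∀ X : ℕ, ∑ n ∈ (Ioc X (X + m)).filter (fun n => n.Coprime m), ch m b n = c)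
    {X X' : ℕ} (hX : 1 ≤ X) (hXX : X ≤ X') : ∃ J : ℕ, (J : ℝ) * m ≤ X' - X ∧
      ‖PS m b α X X'‖ ≤ ‖c‖ * ‖∑ j ∈ range J, ee (α / ((X + j * m : ℕ) : ℝ))‖ + m +
        7 * |α| * m * ((X' : ℝ) - X) / (X : ℝ) ^ 2 := by
  obtain ⟨k, rfl⟩ := Nat.exists_eq_add_of_le hXX
  have h0 : k / m * m + k % m = k := Nat.div_add_mod' k m
  have h1 : ((k / m : ℕ) : ℝ) * m ≤ ((X + k : ℕ) : ℝ) - X := by
    rw [Nat.cast_add, add_sub_cancel_left]
    exact_mod_cast Nat.div_mul_le_self k m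
  refine ⟨k / m, h1, ?_⟩
  have h2 := jb2_blocks α hc hX (k / m)
  have h3 : ‖PS m b α (X + k / m * m) (X + k)‖ ≤ m := by
    have e : X + k = X + k / m * m + k % m := by omega
    rw [e, PS]
    refine (jb2_sum_le zero_le_one fun n _ => ?_).trans ?_
    · rw [norm_mul, ch, norm_ee, norm_ee, one_mul]
    · rw [mul_one]; exact_mod_cast (Nat.mod_lt k hm).le
  have h4 : ((k / m : ℕ) : ℝ) * (m * (7 * |α| * m / (X : ℝ) ^ 2)) ≤
      7 * |α| * m * (((X + k : ℕ) : ℝ) - X) / (X : ℝ) ^ 2 := by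
    rw [← mul_assoc, mul_comm, mul_div_right_comm _ (((X + k : ℕ) : ℝ) - X)]
    exact mul_le_mul_of_nonneg_left h1 (by positivity)
  rw [jb2_add m b α (Nat.le_add_right X (k / m * m)) (by omega), ← norm_mul]
  have h5 := norm_add_le (PS m b α X (X + k / m * m)) (PS m b α (X + k / m * m) (X + k))
  have h6 := norm_le_norm_add_norm_sub' (PS m b α X (X + k / m * m))
    (c * ∑ j ∈ range (k / m), ee (α / ((X + j * m : ℕ) : ℝ)))
  linarith

theorem pair_a (m : ℕ) (hm : 1 ≤ m) (b : ℤ) (α : ℝ) (X X' : ℕ) (hX : 1 ≤ X) (hXX : X ≤ X') :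
    ‖PS m b α X X'‖ ≤ (Int.gcd b m : ℝ) * (1 + Real.log m) / m * ((X' : ℝ) - X) + m +
      7 * |α| * m * ((X' : ℝ) - X) / (X : ℝ) ^ 2 := by
  obtain ⟨c, h1, -, hc⟩ := ramanujan m hm b
  obtain ⟨J, h2, h3⟩ := jb2_main hm α hc hX hXX
  have hm0 : (0 : ℝ) < m := by exact_mod_cast hm
  have h4 : ‖∑ j ∈ range J, ee (α / ((X + j * m : ℕ) : ℝ))‖ ≤ ((X' : ℝ) - X) / m := by
    refine (norm_sum_le _ _).trans ?_
    simp only [norm_ee, sum_const, card_range, nsmul_eq_mul, mul_one]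
    exact (le_div_iff₀ hm0).2 h2
  have h5 := mul_le_mul h1 h4 (norm_nonneg _) ((norm_nonneg _).trans h1)
  have e : (Int.gcd b m : ℝ) * (1 + Real.log m) / m * ((X' : ℝ) - X) =
      (Int.gcd b m : ℝ) * (1 + Real.log m) * (((X' : ℝ) - X) / m) := by ring
  rw [e]
  linarith

theorem jb2_int (α : ℝ) {a b : ℝ} (ha : 0 < a) (hab : a ≤ b) :
    IntervalIntegrable (fun t => ee (α / t)) MeasureTheory.volume a b := by
  have hc : Continuous ee := by unfold ee; fun_prop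
  refine ContinuousOn.intervalIntegrable (hc.comp_continuousOn
    (continuousOn_const.div continuousOn_id fun t ht => ?_))
  rw [Set.uIcc_of_le hab] at ht
  exact (ha.trans_le ht.1).ne'

theorem jb2_riemann (α : ℝ) (m : ℕ) {X : ℕ} (hX : 1 ≤ X) (J : ℕ) :
    ‖(∫ t in (X : ℝ)..((X + J * m : ℕ) : ℝ), ee (α / t)) -
      m * ∑ j ∈ range J, ee (α / ((X + j * m : ℕ) : ℝ))‖ ≤
      J * (7 * |α| * m / (X : ℝ) ^ 2 * m) := by
  have hX0 : (0 : ℝ) < X := by exact_mod_cast hX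
  induction J with
  | zero => simp
  | succ J ih =>
    have hY : (X : ℝ) ≤ ((X + J * m : ℕ) : ℝ) := by exact_mod_cast Nat.le_add_right _ _
    have e : ((X + (J + 1) * m : ℕ) : ℝ) = ((X + J * m : ℕ) : ℝ) + m := by push_cast; ring
    rw [sum_range_succ, e]
    generalize ((X + J * m : ℕ) : ℝ) = Y at hY ih ⊢
    have hm0 : Y ≤ Y + m := le_add_of_nonneg_right (Nat.cast_nonneg m)
    have i2 := jb2_int α (hX0.trans_le hY) hm0
    have h1 : ‖(∫ t in Y..Y + m, ee (α / t)) - m * ee (α / Y)‖ ≤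
        7 * |α| * m / (X : ℝ) ^ 2 * m := by
      have e1 : (∫ t in Y..Y + m, ee (α / t)) - m * ee (α / Y) =
          ∫ t in Y..Y + m, (ee (α / t) - ee (α / Y)) := by
        rw [intervalIntegral.integral_sub i2 intervalIntegrable_const,
          intervalIntegral.integral_const]
        simp
      rw [e1]
      refine (intervalIntegral.norm_integral_le_of_norm_le_const
        (C := 7 * |α| * m / (X : ℝ) ^ 2) fun t ht => ?_).trans (by simp)
      rw [Set.uIoc_of_le hm0] at ht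
      exact jb2_osc α hX0 hY ht.1.le ht.2
    rw [← intervalIntegral.integral_add_adjacent_intervals (jb2_int α hX0 hY) i2, mul_add,
      add_sub_add_comm, Nat.cast_succ, add_mul, one_mul]
    exact norm_add_le_of_le ih h1

theorem pair_b (m : ℕ) (hm : 1 ≤ m) (b : ℤ) (α : ℝ) (hα : α ≠ 0) (X X' : ℕ) (hX : 1 ≤ X)
    (hXX : X ≤ X') : ‖PS m b α X X'‖ ≤ (X' : ℝ) ^ 2 / |α| + m +
      14 * |α| * m * ((X' : ℝ) - X) / (X : ℝ) ^ 2 := by
  obtain ⟨c, -, h1, hc⟩ := ramanujan m hm b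
  obtain ⟨J, h2, h3⟩ := jb2_main hm α hc hX hXX
  have hX0 : (0 : ℝ) < X := by exact_mod_cast hX
  have hY : (X : ℝ) ≤ ((X + J * m : ℕ) : ℝ) := by exact_mod_cast Nat.le_add_right _ _
  have hY' : ((X + J * m : ℕ) : ℝ) ≤ X' := by push_cast; linarith
  have h4 := jb2_riemann α m hX J
  have h5 := (osc_int α hα _ _ hX0 hY).trans (div_le_div_of_nonneg_right
    (pow_le_pow_left₀ (hX0.le.trans hY) hY' 2) (abs_nonneg α))
  have h6 : (J : ℝ) * (7 * |α| * m / (X : ℝ) ^ 2 * m) ≤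
      7 * |α| * m * ((X' : ℝ) - X) / (X : ℝ) ^ 2 := by
    rw [mul_left_comm, mul_div_right_comm _ ((X' : ℝ) - X)]
    exact mul_le_mul_of_nonneg_left h2 (by positivity)
  have h7 := mul_le_mul_of_nonneg_right h1
    (norm_nonneg (∑ j ∈ range J, ee (α / ((X + j * m : ℕ) : ℝ))))
  have h8 := norm_le_norm_add_norm_sub
    (∫ t in (X : ℝ)..((X + J * m : ℕ) : ℝ), ee (α / t))
    (m * ∑ j ∈ range J, ee (α / ((X + j * m : ℕ) : ℝ)))
  rw [norm_mul, Complex.norm_natCast] at h8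
  have e : 14 * |α| * m * ((X' : ℝ) - X) / (X : ℝ) ^ 2 =
      2 * (7 * |α| * m * ((X' : ℝ) - X) / (X : ℝ) ^ 2) := by ring
  rw [e]
  linarith

end

end Pool.Agent.Jac
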