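import Pool.Agent.P.MP_45ff98_nt.JBase

/-! Dispersion and the change of phase. -/

namespace Pool.Agent.Jac
open Finset

noncomputable section

theorem jb3_inv {n m : ℕ} (h : n.Coprime m) : ∃ u : ℤ, (m : ℤ) ∣ n * u - 1 := by
  obtain ⟨a, b, hab⟩ := Nat.isCoprime_iff_coprime.2 h
  exact ⟨a, -b, by linear_combination hab⟩

theorem jb3_ch {n m : ℕ} (hm : 1 ≤ m) {u : ℤ} (hu : (m : ℤ) ∣ n * u - 1) (b : ℤ) :
    ch m b n = ee (b * u / m) := by
  have : NeZero m := ⟨by omega⟩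
  have h1 : (n : ZMod m) * (u : ZMod m) = 1 := by
    have := (ZMod.intCast_zmod_eq_zero_iff_dvd _ m).2 hu
    push_cast at this
    linear_combination this
  have h2 : (((n : ZMod m)⁻¹).val : ℤ) = u % m := by
    rw [ZMod.inv_eq_of_mul_eq_one m _ _ h1, ZMod.val_intCast]
  have h3 : (((n : ZMod m)⁻¹).val : ℝ) = u - m * (u / m : ℤ) := by
    have := Int.emod_add_mul_ediv u m
    have h4 : (((n : ZMod m)⁻¹).val : ℤ) = u - m * (u / m) := by rw [h2]; linarith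
    exact_mod_cast h4
  have hm0 : (m : ℝ) ≠ 0 := by positivity
  rw [ch, h3, ← ee_add_int _ (b * (u / m))]
  congr 1
  push_cast
  field_simp
  ring

theorem jb3_norm_ch (m : ℕ) (b : ℤ) (n : ℕ) : ‖ch m b n‖ = 1 := norm_ee _

/-- one term of the sum -/
def jb3_a (V Q h : ℕ) (Ns R : ℤ) (β : ℕ → ℂ) (p n : ℕ) : ℂ :=
  if n.Coprime (V * p * Q) then
    1 / (p : ℂ) * β p * ch (V * p * Q) (h * Ns) n * ee (h * R / ((n : ℝ) * (V * p * Q))) else 0

theorem jb3_norm_a (V Q h : ℕ) (Ns R : ℤ) {β : ℕ → ℂ} (hβ : ∀ p, ‖β p‖ ≤ 1) (p n : ℕ) :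
    ‖jb3_a V Q h Ns R β p n‖ ≤ 1 / (p : ℝ) := by
  rw [jb3_a]
  split_ifs
  · rw [norm_mul, norm_mul, norm_mul, norm_ee, jb3_norm_ch, mul_one, mul_one, norm_div, norm_one,
      Complex.norm_natCast]
    exact mul_le_of_le_one_right (by positivity) (hβ p)
  · rw [norm_zero]; positivity

theorem jb3_pair {V Q : ℕ} (h : ℕ) (hV : 1 ≤ V) (hQ : 1 ≤ Q) (Ns R : ℤ) (β : ℕ → ℂ) {p p' n : ℕ}
    (hp : 1 ≤ p) (hp' : 1 ≤ p') (hn : 1 ≤ n) :
    jb3_a V Q h Ns R β p n * (starRingEnd ℂ) (jb3_a V Q h Ns R β p' n) =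
      (1 / (p : ℂ) * β p * (starRingEnd ℂ) (1 / (p' : ℂ) * β p')) *
        if n.Coprime (V * Q * p * p') then ch (V * Q * p * p') (h * Ns * ((p' : ℤ) - p)) n *
          ee (h * R * ((p' : ℝ) - p) / (V * Q * p * p' : ℕ) / n) else 0 := by
  have d1 : V * p * Q ∣ V * Q * p * p' := ⟨p', by ring⟩
  have d2 : V * p' * Q ∣ V * Q * p * p' := ⟨p, by ring⟩
  by_cases hc : n.Coprime (V * Q * p * p')
  · obtain ⟨u, hu⟩ := jb3_inv hc
    have m0 : 1 ≤ V * Q * p * p' := Nat.succ_le_of_lt (by positivity)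
    have m1 : 1 ≤ V * p * Q := Nat.succ_le_of_lt (by positivity)
    have m2 : 1 ≤ V * p' * Q := Nat.succ_le_of_lt (by positivity)
    rw [jb3_a, jb3_a, if_pos hc, if_pos (hc.coprime_dvd_right d1),
      if_pos (hc.coprime_dvd_right d2), jb3_ch m0 hu,
      jb3_ch m1 ((Int.natCast_dvd_natCast.2 d1).trans hu),
      jb3_ch m2 ((Int.natCast_dvd_natCast.2 d2).trans hu), map_mul, map_mul, conj_ee, conj_ee]
    have hV0 : (V : ℝ) ≠ 0 := by positivity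
    have hQ0 : (Q : ℝ) ≠ 0 := by positivity
    have hp0 : (p : ℝ) ≠ 0 := by positivity
    have hp0' : (p' : ℝ) ≠ 0 := by positivity
    have hn0 : (n : ℝ) ≠ 0 := by positivity
    have e1 : ee (((h * Ns * ((p' : ℤ) - p) : ℤ) : ℝ) * u / (V * Q * p * p' : ℕ)) =
        ee (((h * Ns : ℤ) : ℝ) * u / (V * p * Q : ℕ)) *
          ee (-(((h * Ns : ℤ) : ℝ) * u / (V * p' * Q : ℕ))) := by
      rw [← ee_add]
      congr 1
      push_cast
      field_simp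
      ring
    have e2 : ee (h * R * ((p' : ℝ) - p) / (V * Q * p * p' : ℕ) / n) =
        ee (h * R / ((n : ℝ) * (V * p * Q))) * ee (-(h * R / ((n : ℝ) * (V * p' * Q)))) := by
      rw [← ee_add]
      congr 1
      push_cast
      field_simp
      ring
    rw [e1, e2]
    ring
  · rw [if_neg hc, mul_zero]
    by_cases h1 : n.Coprime (V * p * Q)
    · have h2 : ¬ n.Coprime (V * p' * Q) := fun h2 =>
        hc ((h1.mul_right h2).coprime_dvd_right ⟨V * Q, by ring⟩)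
      rw [jb3_a, jb3_a, if_neg h2, map_zero, mul_zero]
    · rw [jb3_a, if_neg h1, zero_mul]

theorem disp (V Q h : ℕ) (hV : 1 ≤ V) (hQ : 1 ≤ Q) (Ns R : ℤ) (Pi : Finset ℕ) (β : ℕ → ℂ) (P1 : ℕ)
    (hP1 : 1 ≤ P1) (hP : ∀ p ∈ Pi, p.Prime ∧ P1 ≤ p) (hs : ∑ p ∈ Pi, 1 / (p : ℝ) ≤ 3)
    (hβ : ∀ p, ‖β p‖ ≤ 1) (X X' : ℕ) (hX : X ≤ X') (η : ℝ) (hη0 : 0 ≤ η)
    (hη : ∀ p ∈ Pi, ∀ p' ∈ Pi, p ≠ p' → ‖PS (V * Q * p * p') (h * Ns * ((p' : ℤ) - p))
      (h * R * ((p' : ℝ) - p) / (V * Q * p * p' : ℕ)) X X'‖ ≤ η) :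
    ∑ n ∈ Ioc X X', ‖Gt V Q h Ns R Pi β n‖ ^ 2 ≤ 3 * ((X' : ℝ) - X) / P1 + 9 * η := by
  have hG : ∀ n, Gt V Q h Ns R Pi β n = ∑ p ∈ Pi, jb3_a V Q h Ns R β p n := fun n => by
    rw [Gt, sum_filter]; rfl
  have hXX : (0 : ℝ) ≤ (X' : ℝ) - X := sub_nonneg.2 (by exact_mod_cast hX)
  have hP0 : (0 : ℝ) < P1 := by exact_mod_cast hP1
  have h1 : ((∑ n ∈ Ioc X X', ‖Gt V Q h Ns R Pi β n‖ ^ 2 : ℝ) : ℂ) = ∑ p ∈ Pi, ∑ p' ∈ Pi,
      ∑ n ∈ Ioc X X', jb3_a V Q h Ns R β p n * (starRingEnd ℂ) (jb3_a V Q h Ns R β p' n) := by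
    push_cast
    rw [sum_congr rfl fun p _ => sum_comm, sum_comm]
    refine sum_congr rfl fun n _ => ?_
    rw [← Complex.mul_conj', hG, map_sum, sum_mul_sum]
  have h2 : ∀ p ∈ Pi, ∀ p' ∈ Pi, ‖∑ n ∈ Ioc X X',
      jb3_a V Q h Ns R β p n * (starRingEnd ℂ) (jb3_a V Q h Ns R β p' n)‖ ≤
      (if p = p' then ((X' : ℝ) - X) / P1 * (1 / p) else 0) + η * (1 / p * (1 / p')) := by
    intro p hp p' hp'
    have q1 := (hP p hp).1.one_le
    have q2 := (hP p' hp').1.one_le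
    split_ifs with e
    · subst e
      have k1 : (1 : ℝ) / p ≤ 1 / P1 :=
        one_div_le_one_div_of_le hP0 (by exact_mod_cast (hP p hp).2)
      have k2 : ∀ n ∈ Ioc X X', ‖jb3_a V Q h Ns R β p n *
          (starRingEnd ℂ) (jb3_a V Q h Ns R β p n)‖ ≤ 1 / P1 * (1 / p) := fun n _ => by
        rw [norm_mul, Complex.norm_conj]
        exact mul_le_mul ((jb3_norm_a V Q h Ns R hβ p n).trans k1) (jb3_norm_a V Q h Ns R hβ p n)
          (norm_nonneg _) (by positivity)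
      refine (norm_sum_le_of_le _ k2).trans ?_
      rw [sum_const, Nat.card_Ioc, nsmul_eq_mul, Nat.cast_sub hX]
      have : 0 ≤ η * (1 / (p : ℝ) * (1 / p)) := by positivity
      have e : ((X' : ℝ) - X) * (1 / P1 * (1 / p)) = (X' - X) / P1 * (1 / p) := by ring
      linarith
    · rw [sum_congr rfl fun n hn => jb3_pair h hV hQ Ns R β q1 q2
        (by have := (mem_Ioc.1 hn).1; omega), ← mul_sum, ← sum_filter, zero_add, norm_mul, mul_comm]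
      refine mul_le_mul (hη p hp p' hp' e) ?_ (norm_nonneg _) hη0
      rw [norm_mul, Complex.norm_conj, norm_mul, norm_mul, norm_div, norm_div, norm_one,
        Complex.norm_natCast, Complex.norm_natCast]
      exact mul_le_mul (mul_le_of_le_one_right (by positivity) (hβ p))
        (mul_le_of_le_one_right (by positivity) (hβ p')) (by positivity) (by positivity)
  have h0 : 0 ≤ ∑ p ∈ Pi, 1 / (p : ℝ) := sum_nonneg fun p _ => by positivity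
  calc ∑ n ∈ Ioc X X', ‖Gt V Q h Ns R Pi β n‖ ^ 2
      ≤ ‖((∑ n ∈ Ioc X X', ‖Gt V Q h Ns R Pi β n‖ ^ 2 : ℝ) : ℂ)‖ := by
        rw [Complex.norm_real]; exact le_abs_self _
    _ ≤ ∑ p ∈ Pi, ∑ p' ∈ Pi,
        ((if p = p' then ((X' : ℝ) - X) / P1 * (1 / p) else 0) + η * (1 / p * (1 / p'))) := by
        rw [h1]
        exact norm_sum_le_of_le _ fun p hp => norm_sum_le_of_le _ (h2 p hp)
    _ = ((X' : ℝ) - X) / P1 * ∑ p ∈ Pi, 1 / (p : ℝ) +
        η * ((∑ p ∈ Pi, 1 / (p : ℝ)) * ∑ p ∈ Pi, 1 / (p : ℝ)) := by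
        rw [sum_mul_sum, mul_sum, mul_sum, ← sum_add_distrib]
        refine sum_congr rfl fun p hp => ?_
        rw [sum_add_distrib, sum_ite_eq, if_pos hp, mul_sum]
    _ ≤ ((X' : ℝ) - X) / P1 * 3 + η * (3 * 3) :=
        add_le_add (mul_le_mul_of_nonneg_left hs (by positivity))
          (mul_le_mul_of_nonneg_left (mul_le_mul hs hs h0 (by norm_num)) hη0)
    _ = 3 * ((X' : ℝ) - X) / P1 + 9 * η := by ring

theorem phase (v δ n p Q h : ℕ) (N R : ℤ) (hv : 1 ≤ v) (hδ : 1 ≤ δ) (hn : 1 ≤ n) (hp : 1 ≤ p)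
    (hQ : 1 ≤ Q) (hd : (n : ℤ) ∣ v * N - R) (hc : n.Coprime (v * δ * p * Q)) :
    ee (h * (N / (δ * n : ℕ) : ℤ) / ((p : ℝ) * Q)) =
      ch (v * δ * p * Q) (h * (v * N - R)) n * ee (h * R / ((n : ℝ) * ((v * δ : ℕ) * p * Q))) *
        ee (-(h * ((N % (δ * n : ℕ) : ℤ) / ((δ * n : ℕ) : ℝ)) / ((p : ℝ) * Q))) := by
  obtain ⟨u, hu⟩ := jb3_inv hc
  have m0 : 1 ≤ v * δ * p * Q := Nat.succ_le_of_lt (by positivity)
  rw [jb3_ch m0 hu]
  obtain ⟨k, hk⟩ := hu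
  obtain ⟨M, hM⟩ := hd
  have hv0 : (v : ℝ) ≠ 0 := by positivity
  have hδ0 : (δ : ℝ) ≠ 0 := by positivity
  have hn0 : (n : ℝ) ≠ 0 := by positivity
  have hp0 : (p : ℝ) ≠ 0 := by positivity
  have hQ0 : (Q : ℝ) ≠ 0 := by positivity
  have e1 : (n : ℝ) * u = 1 + v * δ * p * Q * k := by
    have : (n : ℤ) * u = 1 + (v * δ * p * Q : ℕ) * k := by linarith
    exact_mod_cast this
  have e2 : (R : ℝ) = v * N - n * M := by
    have : R = v * N - n * M := by linarith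
    exact_mod_cast this
  have e3 : ((N % (δ * n : ℕ) : ℤ) : ℝ) = N - δ * n * (N / (δ * n : ℕ) : ℤ) := by
    have h1 := Int.emod_add_mul_ediv N (δ * n : ℕ)
    have : N % (δ * n : ℕ) = N - (δ * n : ℕ) * (N / (δ * n : ℕ)) := by linarith
    rw [this]
    push_cast
    ring
  rw [← ee_add, ← ee_add, ← ee_add_int _ (h * M * k), e3, hM]
  congr 1
  generalize ((N / (δ * n : ℕ) : ℤ) : ℝ) = ξ
  have e4 : (((h : ℤ) * (n * M) : ℤ) : ℝ) * u = h * M * (1 + v * δ * p * Q * k) := by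
    rw [← e1]; push_cast; ring
  rw [e4, e2]
  push_cast
  field_simp
  ring

end

end Pool.Agent.Jac
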