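import Pool.Agent.P.MP_45ff98_nt.JB2

/-! Pair sums for far fractions. -/

namespace Pool.Agent.Jac
open Finset

noncomputable section

theorem jb4_gcd1 {m r W : ℕ} {b : ℤ} (hm : 1 ≤ m) (hr : r.Prime) (hrm : r ∣ m) (hW : W ≤ r)
    (hb : ¬ (r : ℤ) ∣ b) : Int.gcd b m * W ≤ m := by
  have h1 : Int.gcd b m ∣ m := Int.natCast_dvd_natCast.1 (Int.gcd_dvd_right b m)
  have h2 : ¬ r ∣ Int.gcd b m := fun h =>
    hb ((Int.natCast_dvd_natCast.2 h).trans (Int.gcd_dvd_left b m))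
  have h3 : (Int.gcd b m).Coprime r := ((Nat.Prime.coprime_iff_not_dvd hr).2 h2).symm
  exact (Nat.mul_le_mul_left _ hW).trans
    (Nat.le_of_dvd hm (Nat.Coprime.mul_dvd_of_dvd_of_dvd h3 h1 hrm))

theorem jb4_gcd2 {v k : ℕ} {c n : ℤ} (hk : 1 ≤ k) (hc : c ≠ 0) (hcop : IsCoprime (v : ℤ) n) :
    Int.gcd (c * n) ((v * k : ℕ) : ℤ) ≤ c.natAbs * k := by
  obtain ⟨a, b, e⟩ := hcop
  have h1 := Int.gcd_dvd_left (c * n) ((v * k : ℕ) : ℤ)
  have h2 := Int.gcd_dvd_right (c * n) ((v * k : ℕ) : ℤ)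
  have h3 : ((Int.gcd (c * n) ((v * k : ℕ) : ℤ) : ℕ) : ℤ) ∣ c * k := by
    have e2 : c * k = (a * c) * ((v * k : ℕ) : ℤ) + (b * k) * (c * n) := by
      push_cast
      linear_combination (-(c * k)) * e
    rw [e2]
    exact (h2.mul_left _).add (h1.mul_left _)
  have h4 := Int.natAbs_dvd_natAbs.2 h3
  rw [Int.natAbs_natCast, Int.natAbs_mul, Int.natAbs_natCast] at h4
  exact Nat.le_of_dvd (Nat.mul_pos (Int.natAbs_pos.2 hc) hk) h4

theorem jb4_osc {A X D l y Zb W Y1 : ℝ} (hZ : 1 ≤ Zb) (hW : 1 ≤ W) (hY : 1 ≤ Y1) (hl : 0 ≤ l)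
    (hy : 64 * Zb ^ 3 * W ^ 3 * Y1 ^ 3 ≤ y) (hA : A ≤ 2 * Zb * W * y * Y1) (hA0 : 0 ≤ A)
    (hX : y ≤ 4 * Zb * Y1 * X) (hD : D ≤ 2 * l) : A * D / X ^ 2 ≤ l / W := by
  have hy0 : 0 < y := lt_of_lt_of_le (by positivity) hy
  have hX0 : 0 < X := by
    by_contra h
    have : 4 * Zb * Y1 * X ≤ 0 := mul_nonpos_of_nonneg_of_nonpos (by positivity) (not_lt.1 h)
    linarith
  have h1 : A * D ≤ 2 * Zb * W * y * Y1 * (2 * l) :=
    (mul_le_mul_of_nonneg_left hD hA0).trans (mul_le_mul_of_nonneg_right hA (by positivity))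
  have h2 : y ^ 2 ≤ (4 * Zb * Y1 * X) ^ 2 := pow_le_pow_left₀ hy0.le hX 2
  have h3 : 4 * Zb * W ^ 2 * Y1 * y ≤ X ^ 2 := by
    have h4 : 64 * Zb ^ 3 * W ^ 2 * Y1 ^ 3 ≤ y := by
      refine le_trans ?_ hy
      have : W ^ 2 ≤ W ^ 3 := pow_le_pow_right₀ hW (by norm_num)
      gcongr
    have h5 : (16 * Zb ^ 2 * Y1 ^ 2) * (4 * Zb * W ^ 2 * Y1 * y) ≤ (16 * Zb ^ 2 * Y1 ^ 2) * X ^ 2 := by
      have := mul_le_mul_of_nonneg_right h4 hy0.le
      nlinarith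
    exact le_of_mul_le_mul_left h5 (by positivity)
  rw [div_le_div_iff₀ (by positivity) (by positivity)]
  calc A * D * W ≤ 2 * Zb * W * y * Y1 * (2 * l) * W := mul_le_mul_of_nonneg_right h1 (by positivity)
    _ = l * (4 * Zb * W ^ 2 * Y1 * y) := by ring
    _ ≤ l * X ^ 2 := mul_le_mul_of_nonneg_left h3 hl

theorem far_pair : ∃ C : ℝ, 1 ≤ C ∧ ∀ (v δ Q h p p' Zb W Y1 y L m0 : ℕ) (N R : ℤ), 1 ≤ v → 1 ≤ δ →
    1 ≤ Q → Q ≤ Zb → 1 ≤ h → h ≤ Zb → p.Prime → p'.Prime → p ≠ p' → p < W → p' < W →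
    IsCoprime (v : ℤ) R → v * δ ≤ Y1 → |R| ≤ 2 * y * Y1 → 64 * Zb ^ 3 * W ^ 3 * Y1 ^ 3 ≤ y →
    y ≤ 2 ^ L → 1 ≤ L → 1 ≤ m0 → m0 ≤ Zb →
    ((∃ r : ℕ, r.Prime ∧ r ∣ δ ∧ W ≤ r ∧ ¬ r ∣ h ∧ ¬ (r : ℤ) ∣ v * N - R) ∨ Zb * W ^ 2 ≤ v ∨
      (δ = 1 ∧ ((Zb * W ^ 3 * v * y : ℕ) : ℤ) ≤ |R|)) →
    ‖PS (v * δ * Q * p * p') (h * (v * N - R) * ((p' : ℤ) - p))
        (h * R * ((p' : ℝ) - p) / (v * δ * Q * p * p' : ℕ)) (y / ((m0 + 1) * δ)) (y / (m0 * δ))‖ ≤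
      C * L * (y / ((m0 : ℝ) * (m0 + 1) * δ)) / W := by
  refine ⟨17, by norm_num, ?_⟩
  intro v δ Q h p p' Zb W Y1 y L m0 N R hv hδ hQ hQZ hh hhZ hp hp' hne hpW hp'W hcop hvY hR hy hyL
    hL hm0 hm0Z hcase
  have hp1 := hp.one_le
  have hp1' := hp'.one_le
  have hδY : δ ≤ Y1 := le_trans (Nat.le_mul_of_pos_left δ hv) hvY
  have hm1 : 1 ≤ v * δ * Q * p * p' :=
    Nat.mul_pos (Nat.mul_pos (Nat.mul_pos (Nat.mul_pos hv hδ) hQ) hp1) hp1'
  have hmle : v * δ * Q * p * p' ≤ Y1 * Zb * W * W :=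
    Nat.mul_le_mul (Nat.mul_le_mul (Nat.mul_le_mul hvY hQZ) hpW.le) hp'W.le
  have hXX : y / ((m0 + 1) * δ) ≤ y / (m0 * δ) :=
    Nat.div_le_div_left (Nat.mul_le_mul_right _ (Nat.le_succ _)) (Nat.mul_pos hm0 hδ)
  have hd1 : 1 ≤ |(p' : ℤ) - p| := Int.one_le_abs (by omega)
  have hdW : |(p' : ℤ) - p| < W := abs_lt.2 ⟨by omega, by omega⟩
  have hg : (∃ r : ℕ, r.Prime ∧ r ∣ δ ∧ W ≤ r ∧ ¬ r ∣ h ∧ ¬ (r : ℤ) ∣ v * N - R) ∨ Zb * W ^ 2 ≤ v →
      Int.gcd (h * (v * N - R) * ((p' : ℤ) - p)) ((v * δ * Q * p * p' : ℕ) : ℤ) * W ≤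
        v * δ * Q * p * p' := by
    rintro (⟨r, hr, hrδ, hWr, hrh, hrN⟩ | h2)
    · refine jb4_gcd1 hm1 hr ((((hrδ.mul_left v).mul_right Q).mul_right p).mul_right p') hWr ?_
      have hri : Prime (r : ℤ) := Nat.prime_iff_prime_int.1 hr
      intro hd
      rcases hri.dvd_or_dvd hd with hd | hd
      · rcases hri.dvd_or_dvd hd with hd | hd
        · exact hrh (Int.natCast_dvd_natCast.1 hd)
        · exact hrN hd
      · have := Int.le_of_dvd (by omega) ((dvd_abs _ _).2 hd)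
        omega
    · have hc : IsCoprime (v : ℤ) (v * N - R) := by
        obtain ⟨a, b, e⟩ := hcop
        exact ⟨a + b * N, -b, by linear_combination e⟩
      have hc0 : (h : ℤ) * ((p' : ℤ) - p) ≠ 0 := mul_ne_zero (by omega) (by omega)
      have hk : 1 ≤ δ * Q * p * p' := Nat.mul_pos (Nat.mul_pos (Nat.mul_pos hδ hQ) hp1) hp1'
      have := jb4_gcd2 hk hc0 hc
      have e1 : (h : ℤ) * ((p' : ℤ) - p) * (v * N - R) = h * (v * N - R) * ((p' : ℤ) - p) := by ring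
      have e2 : v * (δ * Q * p * p') = v * δ * Q * p * p' := by ring
      rw [e1, e2, Int.natAbs_mul, Int.natAbs_natCast] at this
      have h3 : ((p' : ℤ) - p).natAbs ≤ W := by omega
      calc _ ≤ h * ((p' : ℤ) - p).natAbs * (δ * Q * p * p') * W := Nat.mul_le_mul_right _ this
        _ ≤ Zb * W * (δ * Q * p * p') * W := by gcongr
        _ = Zb * W ^ 2 * (δ * Q * p * p') := by ring
        _ ≤ v * (δ * Q * p * p') := Nat.mul_le_mul_right _ h2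
        _ = _ := e2
  -- real versions
  have rZ : (1 : ℝ) ≤ Zb := by exact_mod_cast hQ.trans hQZ
  have rW : (1 : ℝ) ≤ W := by exact_mod_cast hp1.trans hpW.le
  have rY : (1 : ℝ) ≤ Y1 := by exact_mod_cast hδ.trans hδY
  have rδ : (1 : ℝ) ≤ δ := by exact_mod_cast hδ
  have rδY : (δ : ℝ) ≤ Y1 := by exact_mod_cast hδY
  have rm0 : (1 : ℝ) ≤ m0 := by exact_mod_cast hm0
  have rm0Z : (m0 : ℝ) ≤ Zb := by exact_mod_cast hm0Z
  have rL : (1 : ℝ) ≤ L := by exact_mod_cast hL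
  have ry : 64 * (Zb : ℝ) ^ 3 * (W : ℝ) ^ 3 * (Y1 : ℝ) ^ 3 ≤ y := by exact_mod_cast hy
  have ry0 : (0 : ℝ) < y := lt_of_lt_of_le (by positivity) ry
  have rh : (1 : ℝ) ≤ h := by exact_mod_cast hh
  have rhZ : (h : ℝ) ≤ Zb := by exact_mod_cast hhZ
  have rR : |(R : ℝ)| ≤ 2 * y * Y1 := by exact_mod_cast hR
  have rd1 : 1 ≤ |(p' : ℝ) - p| := by exact_mod_cast hd1
  have rdW : |(p' : ℝ) - p| ≤ W := by exact_mod_cast hdW.le
  have hXlo : (y : ℝ) / ((m0 + 1) * δ) < ((y / ((m0 + 1) * δ) : ℕ) : ℝ) + 1 := by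
    have := Nat.lt_floor_add_one ((y : ℝ) / (((m0 + 1) * δ : ℕ) : ℝ))
    rw [Nat.floor_div_eq_div] at this
    push_cast at this
    exact this
  have hXhi : ((y / (m0 * δ) : ℕ) : ℝ) ≤ (y : ℝ) / (m0 * δ) := by
    have := Nat.cast_div_le (α := ℝ) (m := y) (n := m0 * δ)
    push_cast at this
    exact this
  generalize hmm : v * δ * Q * p * p' = m at *
  generalize y / ((m0 + 1) * δ) = X at *
  generalize y / (m0 * δ) = X' at *
  generalize (h : ℤ) * (v * N - R) * ((p' : ℤ) - p) = b at *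
  have rm1 : (1 : ℝ) ≤ m := by exact_mod_cast hm1
  have rmle : (m : ℝ) ≤ Y1 * Zb * W * W := by exact_mod_cast hmle
  set l : ℝ := y / ((m0 : ℝ) * (m0 + 1) * δ) with hl
  set α : ℝ := h * R * ((p' : ℝ) - p) / m with hα
  have hl32 : 32 * Zb * (W : ℝ) ^ 3 * (Y1 : ℝ) ^ 2 ≤ l := by
    rw [hl, le_div_iff₀ (by positivity)]
    refine le_trans ?_ ry
    calc 32 * Zb * (W : ℝ) ^ 3 * (Y1 : ℝ) ^ 2 * (m0 * (m0 + 1) * δ)
        ≤ 32 * Zb * (W : ℝ) ^ 3 * (Y1 : ℝ) ^ 2 * (Zb * (Zb + Zb) * Y1) := by gcongr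
      _ = _ := by ring
  have hone : (1 : ℝ) ≤ Zb * (W : ℝ) ^ 3 * (Y1 : ℝ) ^ 2 :=
    one_le_mul_of_one_le_of_one_le (one_le_mul_of_one_le_of_one_le rZ (one_le_pow₀ rW))
      (one_le_pow₀ rY)
  have hl1 : 32 ≤ l := by linarith
  have hly : l ≤ y := by
    rw [hl]
    refine div_le_self ry0.le ?_
    exact one_le_mul_of_one_le_of_one_le (one_le_mul_of_one_le_of_one_le rm0 (by linarith)) rδ
  have hx : (y : ℝ) / ((m0 + 1) * δ) = m0 * l := by
    rw [hl]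
    field_simp
  have hx' : (y : ℝ) / (m0 * δ) = (m0 + 1) * l := by
    rw [hl]
    field_simp
  rw [hx] at hXlo
  rw [hx'] at hXhi
  have hml : l ≤ m0 * l := le_mul_of_one_le_left (by linarith) rm0
  have rX : (1 : ℝ) ≤ X := by linarith
  have hX1 : 1 ≤ X := by exact_mod_cast rX
  have hD : (X' : ℝ) - X ≤ 2 * l := by linarith
  have hD0 : (0 : ℝ) ≤ (X' : ℝ) - X := by
    have : (X : ℝ) ≤ X' := by exact_mod_cast hXX
    linarith
  have hyX : (y : ℝ) ≤ 4 * Zb * Y1 * X := by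
    have e : (y : ℝ) = (m0 + 1) * δ * (m0 * l) := by
      rw [hl]
      field_simp
    calc (y : ℝ) = (m0 + 1) * δ * (m0 * l) := e
      _ ≤ (Zb + Zb) * Y1 * (2 * X) :=
        mul_le_mul (mul_le_mul (by linarith) rδY (by linarith) (by linarith)) (by linarith)
          (by positivity) (by positivity)
      _ = _ := by ring
  have hmW : (m : ℝ) ≤ l / W := by
    rw [le_div_iff₀ (by positivity)]
    calc (m : ℝ) * W ≤ Y1 * Zb * W * W * W := mul_le_mul_of_nonneg_right rmle (by positivity)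
      _ = Zb * (W : ℝ) ^ 3 * (Y1 : ℝ) ^ 1 := by ring
      _ ≤ Zb * (W : ℝ) ^ 3 * (Y1 : ℝ) ^ 2 :=
        mul_le_mul_of_nonneg_left (pow_le_pow_right₀ rY (by norm_num)) (by positivity)
      _ ≤ l := by linarith
  have hαm : |α| * m = h * |(R : ℝ)| * |(p' : ℝ) - p| := by
    rw [hα, abs_div, abs_mul, abs_mul, Nat.abs_cast, Nat.abs_cast]
    field_simp
  have hA : |α| * m ≤ 2 * Zb * W * y * Y1 := by
    rw [hαm]
    calc (h : ℝ) * |(R : ℝ)| * |(p' : ℝ) - p| ≤ Zb * (2 * y * Y1) * W := by gcongr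
      _ = _ := by ring
  have hosc := jb4_osc rZ rW rY (by linarith) ry hA (by positivity) hyX hD
  have hlW : 0 ≤ l / W := by positivity
  have hLl : l / W ≤ L * (l / W) := le_mul_of_one_le_left hlW rL
  have hfin : 17 * (L : ℝ) * l / W = 17 * (L * (l / W)) := by ring
  rw [hfin]
  rcases or_assoc.2 hcase with hc | ⟨hδ1, hc⟩
  · have rg : (Int.gcd b m : ℝ) * W ≤ m := by exact_mod_cast hg hc
    have hlog : 1 + Real.log m ≤ 2 * L := by
      have h1 : (m : ℝ) ≤ 2 ^ L := by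
        have h2 : (y : ℝ) ≤ 2 ^ L := by exact_mod_cast hyL
        have h3 : l / W ≤ l := div_le_self (by linarith) rW
        linarith
      have h2 := Real.log_le_log (by linarith) h1
      rw [Real.log_pow] at h2
      have h3 : Real.log 2 ≤ 1 := by have := Real.log_two_lt_d9; linarith
      nlinarith
    have hlog0 : 0 ≤ 1 + Real.log m := by have := Real.log_nonneg rm1; linarith
    have h1 : (Int.gcd b m : ℝ) * (1 + Real.log m) / m * ((X' : ℝ) - X) ≤ 4 * (L * (l / W)) := by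
      have h2 : (Int.gcd b m : ℝ) / m ≤ 1 / W := by
        rw [div_le_div_iff₀ (by linarith) (by linarith)]
        linarith
      calc (Int.gcd b m : ℝ) * (1 + Real.log m) / m * ((X' : ℝ) - X)
          = (Int.gcd b m : ℝ) / m * (1 + Real.log m) * ((X' : ℝ) - X) := by ring
        _ ≤ 1 / W * (2 * L) * (2 * l) := by gcongr
        _ = _ := by ring
    have h2 := pair_a m hm1 b α X X' hX1 hXX
    have e : 7 * |α| * m * ((X' : ℝ) - X) / (X : ℝ) ^ 2 =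
        7 * (|α| * m * ((X' : ℝ) - X) / (X : ℝ) ^ 2) := by ring
    rw [e] at h2
    linarith
  · subst hδ1
    have rc : (Zb : ℝ) * (W : ℝ) ^ 3 * v * y ≤ |(R : ℝ)| := by exact_mod_cast hc
    have hmv : (m : ℝ) ≤ v * Zb * W * W := by
      have : m ≤ v * Zb * W * W := by
        rw [← hmm, mul_one]
        exact Nat.mul_le_mul (Nat.mul_le_mul (Nat.mul_le_mul le_rfl hQZ) hpW.le) hp'W.le
      exact_mod_cast this
    have hαlo : (W : ℝ) * y ≤ |α| := by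
      have h1 : (W : ℝ) * y * m ≤ |α| * m := by
        rw [hαm]
        calc (W : ℝ) * y * m ≤ W * y * (v * Zb * W * W) :=
              mul_le_mul_of_nonneg_left hmv (by positivity)
          _ = 1 * (Zb * (W : ℝ) ^ 3 * v * y) * 1 := by ring
          _ ≤ _ := by gcongr
      exact le_of_mul_le_mul_right h1 (by linarith)
    have hWy : (0 : ℝ) < W * y := by positivity
    have hα0 : α ≠ 0 := abs_pos.1 (lt_of_lt_of_le hWy hαlo)
    have h1 : (X' : ℝ) ^ 2 / |α| ≤ 2 * (l / W) := by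
      have e : (y : ℝ) = m0 * (m0 + 1) * l := by
        rw [hl]
        field_simp
        simp
      calc (X' : ℝ) ^ 2 / |α| ≤ ((m0 + 1) * l) ^ 2 / (W * y) := by gcongr
        _ ≤ 2 * (l / W) := by
          rw [div_le_iff₀ hWy]
          have e2 : 2 * (l / W) * (W * y) = 2 * l * y := by field_simp
          rw [e2]
          have h3 : ((m0 + 1) * l) ^ 2 = (m0 + 1) * ((m0 + 1) * l * l) := by ring
          have h4 : 2 * l * y = (m0 + m0) * ((m0 + 1) * l * l) := by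
            rw [e]
            ring
          rw [h3, h4]
          exact mul_le_mul_of_nonneg_right (by linarith) (by positivity)
    have h2 := pair_b m hm1 b α hα0 X X' hX1 hXX
    have e : 14 * |α| * m * ((X' : ℝ) - X) / (X : ℝ) ^ 2 =
        14 * (|α| * m * ((X' : ℝ) - X) / (X : ℝ) ^ 2) := by ring
    rw [e] at h2
    linarith

end

end Pool.Agent.Jac
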