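import Pool.Agent.P.MP_45ff98_nt.JB3
import Pool.Agent.P.MP_45ff98_nt.JB4

/-! One cell of a far fraction. -/

namespace Pool.Agent.Jac
open Finset

noncomputable section

theorem JB5_norm_ch (m : ℕ) (b : ℤ) (n : ℕ) : ‖ch m b n‖ = 1 := norm_ee _

theorem JB5_Gt_le (V Q h : ℕ) (Ns R : ℤ) (Pi : Finset ℕ) (β : ℕ → ℂ) (n : ℕ)
    (hs : ∑ p ∈ Pi, 1 / (p : ℝ) ≤ 3) (hβ : ∀ p, ‖β p‖ ≤ 1) : ‖Gt V Q h Ns R Pi β n‖ ≤ 3 := by
  refine (norm_sum_le _ _).trans (le_trans ?_ hs)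
  refine (sum_le_sum (g := fun p : ℕ => 1 / (p : ℝ)) fun p _ => ?_).trans
    (sum_le_sum_of_subset_of_nonneg (filter_subset _ _) fun p _ _ => by positivity)
  rw [norm_mul, norm_mul, norm_mul, JB5_norm_ch, norm_ee, mul_one, mul_one, norm_div, norm_one,
    Complex.norm_natCast]
  exact mul_le_of_le_one_right (by positivity) (hβ p)

theorem JB5_inner_le (Pi : Finset ℕ) (β : ℕ → ℂ) (x : ℕ → ℝ)
    (hs : ∑ p ∈ Pi, 1 / (p : ℝ) ≤ 3) (hβ : ∀ p, ‖β p‖ ≤ 1) :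
    ‖∑ p ∈ Pi, 1 / (p : ℂ) * β p * ee (x p)‖ ≤ 3 := by
  refine (norm_sum_le _ _).trans (le_trans (sum_le_sum fun p _ => ?_) hs)
  rw [norm_mul, norm_mul, norm_ee, mul_one, norm_div, norm_one, Complex.norm_natCast]
  exact mul_le_of_le_one_right (by positivity) (hβ p)

theorem JB5_cop (v δ n p Q W : ℕ) (N R : ℤ) (hvR : IsCoprime (v : ℤ) R)
    (hd : (n : ℤ) ∣ v * N - R) (hδ : n.Coprime δ) (hn : ∀ r : ℕ, r.Prime → r ∣ n → W ≤ r)
    (hp : p.Prime) (hpW : p < W) (hQ : ∀ r : ℕ, r.Prime → r ∣ Q → r < W) :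
    n.Coprime (v * δ * p * Q) := by
  refine Nat.Coprime.mul_right (Nat.Coprime.mul_right (Nat.Coprime.mul_right ?_ hδ) ?_) ?_
  · refine Nat.coprime_of_dvd fun r hr h1 h2 => ?_
    have h3 : (r : ℤ) ∣ v := Int.natCast_dvd_natCast.2 h2
    have h4 : (r : ℤ) ∣ v * N - R := (Int.natCast_dvd_natCast.2 h1).trans hd
    have h5 : (r : ℤ) ∣ R := by
      have := dvd_sub (h3.mul_right N) h4
      simpa using this
    have h6 := hvR.isUnit_of_dvd' h3 h5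
    rw [Int.isUnit_iff] at h6
    have := hr.two_le
    omega
  · refine Nat.coprime_of_dvd fun r hr h1 h2 => ?_
    have := hn r hr h1
    have := (Nat.prime_dvd_prime_iff_eq hr hp).1 h2
    omega
  · refine Nat.coprime_of_dvd fun r hr h1 h2 => ?_
    have := hn r hr h1
    have := hQ r hr h2
    omega

/-- change of phase for one index -/
theorem JB5_phase (v δ n Q h : ℕ) (N R : ℤ) (Pi : Finset ℕ) (β : ℕ → ℂ) (θ ε : ℝ) (hv : 1 ≤ v)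
    (hδ : 1 ≤ δ) (hn : 1 ≤ n) (hQ : 1 ≤ Q) (hd : (n : ℤ) ∣ v * N - R)
    (hP : ∀ p ∈ Pi, 1 ≤ p ∧ n.Coprime (v * δ * p * Q)) (hs : ∑ p ∈ Pi, 1 / (p : ℝ) ≤ 3)
    (hβ : ∀ p, ‖β p‖ ≤ 1 ∧ (β p ≠ 0 → 2 * h ≤ p * Q))
    (hθ : |((N % (δ * n : ℕ) : ℤ) : ℝ) / (δ * n : ℕ) - θ| ≤ ε) :
    ‖∑ p ∈ Pi, 1 / (p : ℂ) * β p * ee (h * (N / (δ * n : ℕ) : ℤ) / ((p : ℝ) * Q))‖ ≤
      ‖Gt (v * δ) Q h (v * N - R) R Pi (fun p => β p * ee (-(h * θ / ((p : ℝ) * Q)))) n‖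
        + 10 * ε := by
  have hε : 0 ≤ ε := (abs_nonneg _).trans hθ
  set t : ℝ := ((N % (δ * n : ℕ) : ℤ) : ℝ) / ((δ * n : ℕ) : ℝ) with ht
  refine (norm_le_norm_add_norm_sub' _
    (Gt (v * δ) Q h (v * N - R) R Pi (fun p => β p * ee (-(h * θ / ((p : ℝ) * Q)))) n)).trans ?_
  refine add_le_add le_rfl ?_
  rw [Gt, filter_true_of_mem fun p hp => (hP p hp).2, ← sum_sub_distrib]
  have key : ∀ p ∈ Pi, ‖1 / (p : ℂ) * β p * ee (h * (N / (δ * n : ℕ) : ℤ) / ((p : ℝ) * Q)) -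
      1 / (p : ℂ) * (β p * ee (-(h * θ / ((p : ℝ) * Q)))) * ch (v * δ * p * Q) (h * (v * N - R)) n *
        ee (h * R / ((n : ℝ) * ((v * δ : ℕ) * p * Q)))‖ ≤ 1 / (p : ℝ) * (Real.pi * ε) := by
    intro p hp
    rw [phase v δ n p Q h N R hv hδ hn (hP p hp).1 hQ hd (hP p hp).2, ← ht]
    by_cases h0 : β p = 0
    · simp only [h0, mul_zero, zero_mul, sub_zero, norm_zero]
      positivity
    have h2 : (2 : ℝ) * h ≤ p * Q := by exact_mod_cast (hβ p).2 h0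
    have hp0 : (0 : ℝ) < p := by exact_mod_cast (hP p hp).1
    have hQ0 : (0 : ℝ) < Q := by exact_mod_cast hQ
    have e : 1 / (p : ℂ) * β p * (ch (v * δ * p * Q) (h * (v * N - R)) n *
        ee (h * R / ((n : ℝ) * ((v * δ : ℕ) * p * Q))) * ee (-(h * t / ((p : ℝ) * Q)))) -
        1 / (p : ℂ) * (β p * ee (-(h * θ / ((p : ℝ) * Q)))) *
          ch (v * δ * p * Q) (h * (v * N - R)) n * ee (h * R / ((n : ℝ) * ((v * δ : ℕ) * p * Q))) =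
        1 / (p : ℂ) * β p * ch (v * δ * p * Q) (h * (v * N - R)) n *
          ee (h * R / ((n : ℝ) * ((v * δ : ℕ) * p * Q))) *
          (ee (-(h * t / ((p : ℝ) * Q))) - ee (-(h * θ / ((p : ℝ) * Q)))) := by ring
    rw [e, norm_mul, norm_mul, norm_mul, norm_mul, JB5_norm_ch, norm_ee, mul_one, mul_one,
      norm_div, norm_one, Complex.norm_natCast]
    have h3 : ‖ee (-(h * t / ((p : ℝ) * Q))) - ee (-(h * θ / ((p : ℝ) * Q)))‖ ≤ Real.pi * ε := by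
      refine (norm_ee_sub _ _).trans ?_
      have e2 : -(h * t / ((p : ℝ) * Q)) - -(h * θ / ((p : ℝ) * Q)) =
          -(h / ((p : ℝ) * Q) * (t - θ)) := by ring
      rw [e2, abs_neg, abs_mul, abs_of_nonneg (by positivity : (0 : ℝ) ≤ h / ((p : ℝ) * Q))]
      have h4 : (h : ℝ) / ((p : ℝ) * Q) ≤ 1 / 2 := by
        rw [div_le_iff₀ (by positivity)]; linarith
      have h5 : (h : ℝ) / ((p : ℝ) * Q) * |t - θ| ≤ 1 / 2 * ε :=
        mul_le_mul h4 hθ (abs_nonneg _) (by norm_num)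
      have := Real.pi_pos
      nlinarith
    calc 1 / (p : ℝ) * ‖β p‖ * ‖ee (-(h * t / ((p : ℝ) * Q))) - ee (-(h * θ / ((p : ℝ) * Q)))‖
        ≤ 1 / (p : ℝ) * 1 * (Real.pi * ε) :=
          mul_le_mul (mul_le_mul_of_nonneg_left (hβ p).1 (by positivity)) h3 (norm_nonneg _)
            (by positivity)
      _ = 1 / (p : ℝ) * (Real.pi * ε) := by ring
  refine (norm_sum_le _ _).trans ((sum_le_sum key).trans ?_)
  rw [← sum_mul]
  have h1 : (∑ p ∈ Pi, 1 / (p : ℝ)) * (Real.pi * ε) ≤ 3 * (Real.pi * ε) :=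
    mul_le_mul_of_nonneg_right hs (by positivity)
  have h2 := Real.pi_lt_d2
  nlinarith

/-- weighted Cauchy-Schwarz and summation over the cell -/
theorem JB5_cs {ι : Type} (I : Finset ι) (w : ι → ℝ) (g : ι → ℕ → ℝ) (J : Finset ℕ)
    (Om a Dd : ℝ) (hw : ∀ i, 0 ≤ w i) (hs : ∑ i ∈ I, w i ≤ Om) (ha : 0 ≤ a) (hD : 0 ≤ Dd)
    (h1 : ∀ n ∈ J, a ≤ ∑ i ∈ I, w i * g i n) (h2 : ∀ i ∈ I, ∑ n ∈ J, g i n ^ 2 ≤ Dd) :
    (J.card : ℝ) * a ^ 2 ≤ Om ^ 2 * Dd := by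
  have hO : 0 ≤ Om := (sum_nonneg fun i _ => hw i).trans hs
  have h3 : ∀ n ∈ J, a ^ 2 ≤ Om * ∑ i ∈ I, w i * g i n ^ 2 := fun n hn => by
    have h4 : (∑ i ∈ I, w i * g i n) ^ 2 ≤ (∑ i ∈ I, w i) * ∑ i ∈ I, w i * g i n ^ 2 :=
      sum_sq_le_sum_mul_sum_of_sq_le_mul I (fun i _ => hw i)
        (fun i _ => mul_nonneg (hw i) (sq_nonneg _)) (fun i _ => le_of_eq (by ring))
    exact (pow_le_pow_left₀ ha (h1 n hn) 2).trans (h4.trans (mul_le_mul_of_nonneg_right hs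
      (sum_nonneg fun i _ => mul_nonneg (hw i) (sq_nonneg _))))
  calc (J.card : ℝ) * a ^ 2 = ∑ _n ∈ J, a ^ 2 := by rw [sum_const, nsmul_eq_mul]
    _ ≤ ∑ n ∈ J, Om * ∑ i ∈ I, w i * g i n ^ 2 := sum_le_sum h3
    _ = Om * ∑ i ∈ I, w i * ∑ n ∈ J, g i n ^ 2 := by
      rw [← mul_sum, sum_comm]
      simp only [mul_sum]
    _ ≤ Om * ∑ i ∈ I, w i * Dd :=
      mul_le_mul_of_nonneg_left (sum_le_sum fun i hi =>
        mul_le_mul_of_nonneg_left (h2 i hi) (hw i)) hO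
    _ ≤ Om * (Om * Dd) := by
      rw [← sum_mul]
      exact mul_le_mul_of_nonneg_left (mul_le_mul_of_nonneg_right hs hD) hO
    _ = Om ^ 2 * Dd := by ring

theorem JB5_len (y δ m0 : ℕ) (hδ : 1 ≤ δ) (hm : 1 ≤ m0) (h : m0 * (m0 + 1) * δ ≤ y) :
    ((y / (m0 * δ) : ℕ) : ℝ) - ((y / ((m0 + 1) * δ) : ℕ) : ℝ) ≤
      2 * (y / ((m0 : ℝ) * (m0 + 1) * δ)) := by
  have hδ0 : (0 : ℝ) < δ := by exact_mod_cast hδ
  have hm0 : (0 : ℝ) < m0 := by exact_mod_cast hm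
  have h1 : ((y / (m0 * δ) : ℕ) : ℝ) ≤ y / ((m0 : ℝ) * δ) := by
    have := @Nat.cast_div_le ℝ _ _ _ y (m0 * δ)
    simpa using this
  have h2 : (y : ℝ) / (((m0 : ℝ) + 1) * δ) ≤ ((y / ((m0 + 1) * δ) : ℕ) : ℝ) + 1 := by
    rw [div_le_iff₀ (by positivity)]
    have h3 := Nat.lt_div_mul_add (a := y) (b := (m0 + 1) * δ) (by positivity)
    have h4 : (y : ℝ) < ((y / ((m0 + 1) * δ) : ℕ) : ℝ) * (((m0 : ℝ) + 1) * δ) +
        ((m0 : ℝ) + 1) * δ := by exact_mod_cast h3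
    linarith
  have h3 : (1 : ℝ) ≤ y / ((m0 : ℝ) * (m0 + 1) * δ) := by
    rw [le_div_iff₀ (by positivity), one_mul]; exact_mod_cast h
  have h4 : (y : ℝ) / ((m0 : ℝ) * δ) - y / (((m0 : ℝ) + 1) * δ) =
      y / ((m0 : ℝ) * (m0 + 1) * δ) := by field_simp; ring
  linarith

theorem cell_bound : ∃ C : ℝ, 1 ≤ C ∧ ∀ {ι : Type} (D : Dat1 ι) (Om c θ : ℝ)
    (Zb W P1 Y1 y L v δ m0 : ℕ) (N R : ℤ) (cc : Cl) (J : Finset ℕ), D.Ok Om Zb W P1 → 1 ≤ P1 →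
    y ≤ 2 ^ L → 1 ≤ L → 1 ≤ v → 1 ≤ δ → IsCoprime (v : ℤ) R → v * δ ≤ Y1 → |R| ≤ 2 * y * Y1 →
    64 * Zb ^ 3 * W ^ 3 * Y1 ^ 3 ≤ y → 1 ≤ m0 → m0 ≤ Zb → 0 < c → 12 * Om ≤ c * W →
    (∀ r : ℕ, r.Prime → r ∣ δ → W ≤ r ∧ ¬ (r : ℤ) ∣ v * N - R) →
    (1 < δ ∨ Zb * W ^ 2 ≤ v ∨ ((Zb * W ^ 3 * v * y : ℕ) : ℤ) ≤ |R|) →
    (∀ n ∈ J, 1 ≤ n ∧ y / (δ * n) = m0 ∧ (n : ℤ) ∣ v * N - R ∧ n.Coprime δ ∧
      (∀ r : ℕ, r.Prime → r ∣ n → W ≤ r) ∧ c ≤ D.B cc (N / (δ * n : ℕ)) ∧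
      |((N % (δ * n : ℕ) : ℤ) : ℝ) / (δ * n : ℕ) - θ| ≤ c / (20 * Om)) →
    (J.card : ℝ) ≤ C * (Om / c) ^ 2 * L * (1 / P1 + 1 / W) * (y / ((m0 : ℝ) * (m0 + 1) * δ)) := by
  obtain ⟨C, hC, hfar⟩ := far_pair
  refine ⟨144 * C + 96, by linarith, ?_⟩
  intro ι D Om c θ Zb W P1 Y1 y L v δ m0 N R cc J hD hP1 hyL hL hv hδ hvR hY hR hy hm hmZ hc hOm
    hδp hcase hJ
  have hP0 : (0 : ℝ) < P1 := by exact_mod_cast hP1
  have hL1 : (1 : ℝ) ≤ L := by exact_mod_cast hL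
  rcases J.eq_empty_or_nonempty with rfl | ⟨n0, hn0⟩
  · rw [card_empty, Nat.cast_zero]
    have : (0 : ℝ) ≤ C := by linarith
    positivity
  have hO : 0 < Om := by
    have h1 := (hJ n0 hn0).2.2.2.2.2.1
    have h2 : D.B cc (N / (δ * n0 : ℕ)) ≤ ∑ i ∈ D.I, D.wt i * 3 :=
      sum_le_sum fun i _ => mul_le_mul_of_nonneg_left
        (JB5_inner_le D.Pi (D.β cc i) _ hD.Ps fun p => (hD.βb cc i p).1) (hD.wt0 i)
    rw [← sum_mul] at h2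
    have := hD.sum
    linarith
  have hW0 : (0 : ℝ) < W := by
    by_contra h
    have : (W : ℝ) = 0 := le_antisymm (not_lt.1 h) (by positivity)
    rw [this] at hOm
    linarith
  have hW : 1 ≤ W := by exact_mod_cast hW0
  set β' : ι → ℕ → ℂ := fun i p => D.β cc i p * ee (-(D.h i * θ / ((p : ℝ) * D.Q i))) with hβ'
  have hβ1 : ∀ i p, ‖β' i p‖ ≤ 1 := fun i p => by
    simp only [hβ', norm_mul, norm_ee, mul_one]
    exact (hD.βb cc i p).1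
  set g : ι → ℕ → ℝ := fun i n => ‖Gt (v * δ) (D.Q i) (D.h i) (v * N - R) R D.Pi (β' i) n‖ with hg
  have hhalf : ∀ n ∈ J, c / 2 ≤ ∑ i ∈ D.I, D.wt i * g i n := fun n hn => by
    obtain ⟨h1, -, h3, h4, h5, h6, h7⟩ := hJ n hn
    have h8 : D.B cc (N / (δ * n : ℕ)) ≤ ∑ i ∈ D.I, D.wt i * (g i n + 10 * (c / (20 * Om))) :=
      sum_le_sum fun i hi => mul_le_mul_of_nonneg_left
        (JB5_phase v δ n (D.Q i) (D.h i) N R D.Pi (D.β cc i) θ _ hv hδ h1 (hD.Qb i hi).1 h3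
          (fun p hp => ⟨(hD.Pp p hp).1.one_lt.le, JB5_cop v δ n p (D.Q i) W N R hvR h3 h4 h5
            (hD.Pp p hp).1 (hD.Pp p hp).2.2 (hD.Qp i hi)⟩) hD.Ps (hD.βb cc i) h7) (hD.wt0 i)
    simp only [mul_add, sum_add_distrib] at h8
    rw [← sum_mul] at h8
    have h9 : (∑ i ∈ D.I, D.wt i) * (10 * (c / (20 * Om))) ≤ Om * (10 * (c / (20 * Om))) :=
      mul_le_mul_of_nonneg_right hD.sum (by positivity)
    have h10 : Om * (10 * (c / (20 * Om))) = c / 2 := by field_simp; ring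
    linarith
  obtain ⟨I', hI', hq, hf⟩ : ∃ I' ⊆ D.I, (∀ n ∈ J, c / 4 ≤ ∑ i ∈ I', D.wt i * g i n) ∧
      ∀ i ∈ I', (∃ r : ℕ, r.Prime ∧ r ∣ δ ∧ W ≤ r ∧ ¬ r ∣ D.h i ∧ ¬ (r : ℤ) ∣ v * N - R) ∨
        Zb * W ^ 2 ≤ v ∨ (δ = 1 ∧ ((Zb * W ^ 3 * v * y : ℕ) : ℤ) ≤ |R|) := by
    by_cases h1 : 1 < δ
    · have hr : δ.minFac.Prime := Nat.minFac_prime h1.ne'
      obtain ⟨hr1, hr2⟩ := hδp _ hr (Nat.minFac_dvd δ)
      refine ⟨D.I.filter (fun i => ¬ δ.minFac ∣ D.h i), filter_subset _ _, fun n hn => ?_,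
        fun i hi => Or.inl ⟨_, hr, Nat.minFac_dvd δ, hr1, (mem_filter.1 hi).2, hr2⟩⟩
      have h2 := hhalf n hn
      rw [← sum_filter_add_sum_filter_not D.I (fun i => δ.minFac ∣ D.h i)] at h2
      have h3 : ∑ i ∈ D.I.filter (fun i => δ.minFac ∣ D.h i), D.wt i * g i n ≤
          ∑ i ∈ D.I.filter (fun i => δ.minFac ∣ D.h i), D.wt i * 3 :=
        sum_le_sum fun i _ => mul_le_mul_of_nonneg_left
          (JB5_Gt_le _ _ _ _ _ _ _ _ hD.Ps (hβ1 i)) (hD.wt0 i)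
      rw [← sum_mul] at h3
      have h4 := hD.sumd _ hr.one_lt.le
      have h5 : Om / (δ.minFac : ℝ) ≤ Om / W :=
        div_le_div_of_nonneg_left hO.le hW0 (by exact_mod_cast hr1)
      have h6 : Om / W ≤ c / 12 := by
        rw [div_le_iff₀ hW0]; linarith
      linarith
    · refine ⟨D.I, Subset.refl _, fun n hn => by linarith [hhalf n hn], fun i _ => Or.inr ?_⟩
      rcases hcase with h | h | h
      · exact absurd h h1
      · exact Or.inl h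
      · exact Or.inr ⟨by omega, h⟩
  set l : ℝ := y / ((m0 : ℝ) * (m0 + 1) * δ) with hl
  have hl0 : 0 ≤ l := by positivity
  have hsz : m0 * (m0 + 1) * δ ≤ y := by
    have h1 : δ ≤ Y1 := le_trans (Nat.le_mul_of_pos_left δ hv) hY
    have h2 : 1 ≤ Y1 := hδ.trans h1
    have h3 : 1 ≤ Zb := hm.trans hmZ
    have h4 : m0 * (m0 + 1) ≤ 64 * Zb ^ 3 := by
      have h5 : Zb * Zb ≤ Zb ^ 3 := by
        rw [← sq]; exact Nat.pow_le_pow_right h3 (by norm_num)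
      have h6 : m0 * (m0 + 1) ≤ Zb * (2 * Zb) := Nat.mul_le_mul hmZ (by omega)
      nlinarith
    have h5 : δ ≤ Y1 ^ 3 := h1.trans (Nat.le_self_pow (by norm_num) Y1)
    calc m0 * (m0 + 1) * δ ≤ 64 * Zb ^ 3 * 1 * Y1 ^ 3 := by
          rw [mul_one]; exact Nat.mul_le_mul h4 h5
      _ ≤ 64 * Zb ^ 3 * W ^ 3 * Y1 ^ 3 := by gcongr; exact Nat.one_le_pow _ _ hW
      _ ≤ y := hy
  have hlen := JB5_len y δ m0 hδ hm hsz
  rw [← hl] at hlen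
  have hXX : y / ((m0 + 1) * δ) ≤ y / (m0 * δ) :=
    Nat.div_le_div_left (Nat.mul_le_mul_right δ (Nat.le_succ m0)) (by positivity)
  have hsub : J ⊆ Ioc (y / ((m0 + 1) * δ)) (y / (m0 * δ)) := fun n hn => by
    obtain ⟨h1, h2, -⟩ := hJ n hn
    have h3 : 0 < δ * n := by positivity
    have h4 : m0 * (δ * n) ≤ y := by rw [← h2]; exact Nat.div_mul_le_self y (δ * n)
    have h5 : y < m0 * (δ * n) + δ * n := by
      have := Nat.lt_div_mul_add (a := y) h3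
      rwa [h2] at this
    rw [mem_Ioc, Nat.div_lt_iff_lt_mul (by positivity), Nat.le_div_iff_mul_le (by positivity)]
    constructor <;> nlinarith
  have hη : 0 ≤ C * L * l / W := by
    have : (0 : ℝ) ≤ C := by linarith
    positivity
  have hdisp : ∀ i ∈ I', ∑ n ∈ J, g i n ^ 2 ≤ 6 * l / P1 + 9 * (C * L * l / W) := fun i hi => by
    have hi' := hI' hi
    have h1 := disp (v * δ) (D.Q i) (D.h i) (Nat.mul_pos hv hδ) (hD.Qb i hi').1 (v * N - R) R D.Pi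
      (β' i) P1 hP1 (fun p hp => ⟨(hD.Pp p hp).1, (hD.Pp p hp).2.1⟩) hD.Ps (hβ1 i) _ _ hXX
      (C * L * l / W) hη fun p hp p' hp' hne =>
        hfar v δ (D.Q i) (D.h i) p p' Zb W Y1 y L m0 N R hv hδ (hD.Qb i hi').1 (hD.Qb i hi').2
          (hD.hb i hi').1 (hD.hb i hi').2 (hD.Pp p hp).1 (hD.Pp p' hp').1 hne (hD.Pp p hp).2.2
          (hD.Pp p' hp').2.2 hvR hY hR hy hyL hL hm hmZ (hf i hi)
    refine (sum_le_sum_of_subset_of_nonneg hsub fun n _ _ => sq_nonneg _).trans (h1.trans ?_)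
    refine add_le_add (div_le_div_of_nonneg_right ?_ hP0.le) le_rfl
    linarith
  have hfin := JB5_cs I' D.wt g J Om (c / 4) _ hD.wt0
    ((sum_le_sum_of_subset_of_nonneg hI' fun i _ _ => hD.wt0 i).trans hD.sum) (by positivity)
    (by positivity) hq hdisp
  have h1 : (J.card : ℝ) ≤ 16 * (Om / c) ^ 2 * (6 * l / P1 + 9 * (C * L * l / W)) := by
    have e : 16 * (Om / c) ^ 2 * (6 * l / P1 + 9 * (C * L * l / W)) =
        Om ^ 2 * (6 * l / P1 + 9 * (C * L * l / W)) / (c / 4) ^ 2 := by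
      field_simp; ring
    rw [e, le_div_iff₀ (by positivity)]
    exact hfin
  refine h1.trans ?_
  have h2 : 16 * (6 * l / P1 + 9 * (C * L * l / W)) ≤
      (144 * C + 96) * L * (1 / P1 + 1 / W) * l := by
    have a1 : 0 ≤ l / P1 := by positivity
    have a2 : 0 ≤ l / W := by positivity
    have e1 : 16 * (6 * l / P1 + 9 * (C * L * l / W)) =
        96 * (l / P1) + 144 * C * L * (l / W) := by ring
    have e2 : (144 * C + 96) * L * (1 / P1 + 1 / W) * l =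
        (144 * C + 96) * L * (l / P1) + (144 * C + 96) * L * (l / W) := by ring
    rw [e1, e2]
    refine add_le_add (mul_le_mul_of_nonneg_right (by nlinarith) a1)
      (mul_le_mul_of_nonneg_right (by nlinarith) a2)
  calc 16 * (Om / c) ^ 2 * (6 * l / P1 + 9 * (C * L * l / W))
      = (Om / c) ^ 2 * (16 * (6 * l / P1 + 9 * (C * L * l / W))) := by ring
    _ ≤ (Om / c) ^ 2 * ((144 * C + 96) * L * (1 / P1 + 1 / W) * l) :=
      mul_le_mul_of_nonneg_left h2 (sq_nonneg _)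
    _ = _ := by ring

end

end Pool.Agent.Jac
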