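import Pool.Agent.P.MP_45ff98_nt.JB5

/-! The mass of a far fraction. -/

namespace Pool.Agent.Jac
open Finset

noncomputable section

theorem jb6_split (n : ℕ) (hn : 1 ≤ n) (hs : Squarefree n) (M : ℤ) :
    n / Int.gcd n M * Int.gcd n M = n ∧ 1 ≤ Int.gcd n M ∧ 1 ≤ n / Int.gcd n M ∧
      ((Int.gcd n M : ℕ) : ℤ) ∣ M ∧ (Int.gcd n M).Coprime (n / Int.gcd n M) ∧
      (∀ r : ℕ, r.Prime → r ∣ n / Int.gcd n M → ¬ (r : ℤ) ∣ M) ∧
      (∀ g : ℕ, 1 ≤ g → (n : ℤ) ∣ g * M → n / Int.gcd n M ≤ g) ∧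
      (¬ (n : ℤ) ∣ M → 1 < n / Int.gcd n M) := by
  have h1 : Int.gcd n M ∣ n := by exact_mod_cast Int.gcd_dvd_left (n : ℤ) M
  have h2 : ((Int.gcd n M : ℕ) : ℤ) ∣ M := Int.gcd_dvd_right _ _
  have h3 : ∀ r : ℕ, r ∣ n → (r : ℤ) ∣ M → r ∣ Int.gcd n M := fun r a b =>
    Int.dvd_gcd (by exact_mod_cast a) b
  generalize Int.gcd n M = d at h1 h2 h3
  have e : n / d * d = n := Nat.div_mul_cancel h1
  generalize n / d = δ at e
  have hd : 1 ≤ d := Nat.pos_of_dvd_of_pos h1 hn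
  have hδ : 1 ≤ δ := Nat.pos_of_dvd_of_pos (Dvd.intro _ e) hn
  have hc : d.Coprime δ := by
    rw [← e] at hs
    exact (Nat.squarefree_mul_iff.1 hs).1.symm
  have hp : ∀ r : ℕ, r.Prime → r ∣ δ → ¬ (r : ℤ) ∣ M := fun r hr a b => by
    have h4 := h3 r (a.trans (Dvd.intro _ e)) b
    exact hr.one_lt.ne' (Nat.eq_one_of_dvd_coprimes hc h4 a)
  refine ⟨e, hd, hδ, h2, hc, hp, ?_, ?_⟩
  · intro g hg hdv
    have h5 : δ ∣ g * M.natAbs := by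
      have h6 : n ∣ g * M.natAbs := by
        have := Int.natAbs_dvd_natAbs.2 hdv
        simpa [Int.natAbs_mul] using this
      exact (Dvd.intro _ e).trans h6
    have h7 : δ.Coprime M.natAbs := by
      refine Nat.Coprime.symm (Nat.coprime_of_dvd fun r hr a b => hp r hr b ?_)
      exact Int.natCast_dvd.2 a
    exact Nat.le_of_dvd hg (h7.dvd_of_dvd_mul_right h5)
  · intro h
    by_contra h8
    have h9 : δ = 1 := by omega
    rw [h9, one_mul] at e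
    exact h (e ▸ h2)

theorem jb6_B_le {ι : Type} {D : Dat1 ι} {Om : ℝ} {Zb W P1 : ℕ} (h : D.Ok Om Zb W P1) (c : Cl)
    (ξ : ℤ) : D.B c ξ ≤ 3 * Om := by
  have h1 : D.B c ξ ≤ ∑ i ∈ D.I, D.wt i * 3 := by
    refine sum_le_sum fun i _ => mul_le_mul_of_nonneg_left ?_ (h.wt0 i)
    refine (norm_sum_le _ _).trans (le_trans (sum_le_sum fun p _ => ?_) h.Ps)
    rw [norm_mul, norm_mul, norm_ee, mul_one, norm_div, norm_one, Complex.norm_natCast]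
    exact mul_le_of_le_one_right (by positivity) (h.βb c i p).1
  rw [← sum_mul] at h1
  linarith [h.sum]

theorem jb6_harm {y L : ℕ} (hy : y ≤ 2 ^ L) (hL : 1 ≤ L) :
    ∑ k ∈ Icc 1 y, 1 / (k : ℝ) ≤ 2 * L := by
  have h1 := harmonic_le_one_add_log y
  rw [harmonic_eq_sum_Icc] at h1
  push_cast at h1
  have hL' : (1 : ℝ) ≤ L := by exact_mod_cast hL
  have h2 : Real.log y ≤ L := by
    rcases Nat.eq_zero_or_pos y with h | h
    · rw [h]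
      simp
    · have h3 : Real.log y ≤ Real.log ((2 : ℝ) ^ L) :=
        Real.log_le_log (by exact_mod_cast h) (by exact_mod_cast hy)
      rw [Real.log_pow] at h3
      have h4 := Real.log_two_lt_d9
      nlinarith
  simp only [one_div]
  linarith

theorem jb6_fib {α β : Type} [DecidableEq β] (J : Finset α) (T : Finset β) (g : α → β) (f : α → ℝ)
    (b : β → ℝ) (hm : ∀ n ∈ J, g n ∈ T)
    (h : ∀ t ∈ T, ∑ n ∈ J.filter (fun n => g n = t), f n ≤ b t) :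
    ∑ n ∈ J, f n ≤ ∑ t ∈ T, b t := by
  rw [← sum_fiberwise_of_maps_to hm]
  exact sum_le_sum h

theorem jb6_cell {x A : ℝ} (hx : 0 ≤ x) (hA : 0 < A) :
    |x - (⌊x * A⌋₊ : ℝ) / A| ≤ 1 / A := by
  have h1 := Nat.floor_le (mul_nonneg hx hA.le)
  have h2 := Nat.lt_floor_add_one (x * A)
  have e : x - (⌊x * A⌋₊ : ℝ) / A = (x * A - ⌊x * A⌋₊) / A := by field_simp
  rw [e, abs_div, abs_of_pos hA]
  refine div_le_div_of_nonneg_right ?_ hA.le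
  rw [abs_le]
  constructor <;> linarith

theorem jb6_theta (N : ℤ) {n : ℕ} (hn : 1 ≤ n) :
    0 ≤ ((N % (n : ℤ) : ℤ) : ℝ) / n ∧ ((N % (n : ℤ) : ℤ) : ℝ) / n ≤ 1 := by
  have h0 : (0 : ℤ) < n := by exact_mod_cast hn
  have h1 : (0 : ℝ) ≤ ((N % (n : ℤ) : ℤ) : ℝ) := by exact_mod_cast Int.emod_nonneg N h0.ne'
  have h2 : ((N % (n : ℤ) : ℤ) : ℝ) ≤ n := by exact_mod_cast (Int.emod_lt_of_pos N h0).le
  have h3 : (0 : ℝ) < n := by exact_mod_cast hn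
  exact ⟨div_nonneg h1 h3.le, (div_le_one h3).2 h2⟩

theorem jb6_total {K : ℝ} (hK : 0 ≤ K) {y L J0 Cc : ℕ} (hy : y ≤ 2 ^ L) (hL : 1 ≤ L)
    (Cm : ℕ → Finset Cl) (hC : ∀ m, (Cm m).card ≤ Cc) :
    ∑ t ∈ (Icc 1 y ×ˢ range J0) ×ˢ (Icc 1 y).sigma Cm, K / ((t.2.1 : ℝ) * t.1.1) ≤
      K * J0 * Cc * (4 * (L : ℝ) ^ 2) := by
  have hH := jb6_harm hy hL
  have hH0 : 0 ≤ ∑ k ∈ Icc 1 y, 1 / (k : ℝ) := sum_nonneg fun k _ => by positivity
  have h1 : ∀ δ : ℕ, ∑ s ∈ (Icc 1 y).sigma Cm, K / ((s.1 : ℝ) * δ) ≤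
      K * Cc * (2 * L) * (1 / (δ : ℝ)) := by
    intro δ
    rw [sum_sigma]
    have h2 : ∀ m ∈ Icc 1 y, ∑ _s ∈ Cm m, K / ((m : ℝ) * δ) ≤
        K * Cc * (1 / (δ : ℝ)) * (1 / (m : ℝ)) := by
      intro m _
      rw [sum_const, nsmul_eq_mul]
      have h3 : ((Cm m).card : ℝ) ≤ Cc := by exact_mod_cast hC m
      calc ((Cm m).card : ℝ) * (K / ((m : ℝ) * δ)) ≤ Cc * (K / ((m : ℝ) * δ)) :=
            mul_le_mul_of_nonneg_right h3 (by positivity)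
        _ = _ := by ring
    refine (sum_le_sum h2).trans ?_
    rw [← mul_sum]
    calc K * Cc * (1 / (δ : ℝ)) * ∑ k ∈ Icc 1 y, 1 / (k : ℝ)
        ≤ K * Cc * (1 / (δ : ℝ)) * (2 * L) := mul_le_mul_of_nonneg_left hH (by positivity)
      _ = _ := by ring
  rw [sum_product]
  refine (sum_le_sum fun s _ => h1 s.1).trans ?_
  rw [sum_product]
  simp only [sum_const, card_range, nsmul_eq_mul]
  rw [← mul_sum, ← mul_sum]
  calc (J0 : ℝ) * (K * Cc * (2 * L) * ∑ k ∈ Icc 1 y, 1 / (k : ℝ))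
      ≤ J0 * (K * Cc * (2 * L) * (2 * L)) :=
        mul_le_mul_of_nonneg_left (mul_le_mul_of_nonneg_left hH (by positivity)) (by positivity)
    _ = _ := by ring

theorem far_mass : ∃ C : ℝ, 1 ≤ C ∧ ∀ {ι : Type} (D : Dat1 ι) (Om c : ℝ)
    (Zb W P1 Y1 y L v Cc : ℕ) (N R : ℤ) (cl : ℕ → Cl) (Cm : ℕ → Finset Cl) (J : Finset ℕ),
    D.Ok Om Zb W P1 → 1 ≤ P1 → y ≤ 2 ^ L → 1 ≤ L → 1 ≤ v → IsCoprime (v : ℤ) R →
    |R| ≤ 2 * y * Y1 → 64 * Zb ^ 3 * W ^ 3 * Y1 ^ 3 ≤ y → 0 < c → 12 * Om ≤ c * W →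
    (∀ m, (Cm m).card ≤ Cc) →
    (∀ n ∈ J, 1 ≤ n ∧ n ≤ y ∧ y ≤ Zb * n ∧ Squarefree n ∧ (∀ r : ℕ, r.Prime → r ∣ n → W ≤ r) ∧
      cl n ∈ Cm (y / n) ∧ c ≤ D.B (cl n) (N / n) ∧
      (∃ g : ℕ, 1 ≤ g ∧ v * g ≤ Y1 ∧ (n : ℤ) ∣ g * (v * N - R)) ∧
      (¬ (n : ℤ) ∣ v * N - R ∨ Zb * W ^ 2 ≤ v ∨ ((Zb * W ^ 3 * v * y : ℕ) : ℤ) ≤ |R|)) →
    ∑ n ∈ J, 1 / (n : ℝ) ≤ C * Cc * (Om / c) ^ 3 * (L : ℝ) ^ 3 * (1 / P1 + 1 / W) := by
  classical
  obtain ⟨C, hC, hcell⟩ := cell_bound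
  refine ⟨92 * C, by linarith, ?_⟩
  intro ι D Om c Zb W P1 Y1 y L v Cc N R cl Cm J hD hP1 hyL hL hv hcop hR hy hc hW hCm hJ
  have hOm0 : 0 ≤ Om := (sum_nonneg fun i _ => hD.wt0 i).trans hD.sum
  rcases J.eq_empty_or_nonempty with hJe | ⟨n1, hn1⟩
  · rw [hJe, sum_empty]
    positivity
  have hc3 : c ≤ 3 * Om := (hJ n1 hn1).2.2.2.2.2.2.1.trans (jb6_B_le hD _ _)
  have hOm : 0 < Om := by linarith
  have hA : 0 < 20 * Om / c := by positivity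
  have hK : 0 ≤ C * (Om / c) ^ 2 * L * (1 / P1 + 1 / W) := by positivity
  have key := jb6_fib J ((Icc 1 y ×ˢ range (⌊20 * Om / c⌋₊ + 1)) ×ˢ (Icc 1 y).sigma Cm)
    (fun n => ((n / Int.gcd n (v * N - R), ⌊((N % (n : ℤ) : ℤ) : ℝ) / n * (20 * Om / c)⌋₊),
      (⟨y / n, cl n⟩ : Σ _ : ℕ, Cl)))
    (fun n => 1 / (n : ℝ))
    (fun t => C * (Om / c) ^ 2 * L * (1 / P1 + 1 / W) / ((t.2.1 : ℝ) * t.1.1)) ?_ ?_
  · refine key.trans ((jb6_total hK hyL hL Cm hCm).trans ?_)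
    have h1 : ((⌊20 * Om / c⌋₊ + 1 : ℕ) : ℝ) ≤ 23 * (Om / c) := by
      have h2 := Nat.floor_le hA.le
      have h3 : 1 ≤ 3 * (Om / c) := by
        rw [← mul_div_assoc, le_div_iff₀ hc]
        linarith
      push_cast
      rw [mul_div_assoc] at h2 ⊢
      linarith
    calc C * (Om / c) ^ 2 * L * (1 / P1 + 1 / W) * ((⌊20 * Om / c⌋₊ + 1 : ℕ) : ℝ) * Cc
          * (4 * (L : ℝ) ^ 2)
        ≤ C * (Om / c) ^ 2 * L * (1 / P1 + 1 / W) * (23 * (Om / c)) * Cc * (4 * (L : ℝ) ^ 2) :=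
          mul_le_mul_of_nonneg_right (mul_le_mul_of_nonneg_right
            (mul_le_mul_of_nonneg_left h1 hK) (by positivity)) (by positivity)
      _ = _ := by ring
  · intro n hn
    obtain ⟨h1, h2, -, h4, -, h6, -⟩ := hJ n hn
    have hs := jb6_split n h1 h4 (v * N - R)
    have ht := jb6_theta N h1
    simp only [mem_product, mem_Icc, mem_range, mem_sigma]
    refine ⟨⟨⟨hs.2.2.1, (Nat.div_le_self _ _).trans h2⟩, Nat.lt_succ_of_le (Nat.floor_le_floor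
      (mul_le_of_le_one_left hA.le ht.2))⟩, ⟨(Nat.one_le_div_iff h1).2 h2, Nat.div_le_self _ _⟩, h6⟩
  · rintro ⟨⟨δ, j⟩, ⟨m, cc⟩⟩ -
    simp only [Prod.mk.injEq, Sigma.mk.injEq, heq_eq_eq]
    generalize hF : J.filter (fun n : ℕ => (n / Int.gcd n (v * N - R) = δ ∧
      ⌊((N % (n : ℤ) : ℤ) : ℝ) / n * (20 * Om / c)⌋₊ = j) ∧ y / n = m ∧ cl n = cc) = F
    have hmem : ∀ n ∈ F, n ∈ J ∧ (n / Int.gcd n (v * N - R) = δ ∧
        ⌊((N % (n : ℤ) : ℤ) : ℝ) / n * (20 * Om / c)⌋₊ = j) ∧ y / n = m ∧ cl n = cc := by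
      intro n hn
      rw [← hF] at hn
      exact mem_filter.1 hn
    rcases F.eq_empty_or_nonempty with hFe | ⟨n0, hn0⟩
    · rw [hFe, sum_empty]
      positivity
    obtain ⟨hn0J, ⟨e1, -⟩, e3, -⟩ := hmem n0 hn0
    obtain ⟨a1, a2, a3, a4, a5, -, -, ⟨g, hg1, hg2, hg3⟩, a9⟩ := hJ n0 hn0J
    obtain ⟨s1, -, s3, -, -, s6, s7, s8⟩ := jb6_split n0 a1 a4 (v * N - R)
    rw [e1] at s1 s3 s6 s7 s8
    have hm1 : 1 ≤ m := e3 ▸ (Nat.one_le_div_iff a1).2 a2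
    have hm2 : m ≤ Zb := e3 ▸ Nat.div_le_of_le_mul (by rwa [mul_comm] at a3)
    have hy0 : (0 : ℝ) < y := by exact_mod_cast (a1.trans a2)
    have hinj : Set.InjOn (fun n : ℕ => Int.gcd n (v * N - R)) F := by
      intro a ha b hb hab
      have ha' := hmem a ha
      have hb' := hmem b hb
      have ea := (jb6_split a (hJ a ha'.1).1 (hJ a ha'.1).2.2.2.1 (v * N - R)).1
      have eb := (jb6_split b (hJ b hb'.1).1 (hJ b hb'.1).2.2.2.1 (v * N - R)).1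
      rw [ha'.2.1.1] at ea
      rw [hb'.2.1.1] at eb
      simp only at hab
      rw [← ea, ← eb]
      exact congrArg (δ * ·) hab
    have hb := hcell D Om c ((j : ℝ) / (20 * Om / c)) Zb W P1 Y1 y L v δ m N R cc
      (F.image (fun n : ℕ => Int.gcd n (v * N - R))) hD hP1 hyL hL hv s3 hcop
      ((Nat.mul_le_mul_left v (s7 g hg1 hg3)).trans hg2) hR hy hm1 hm2 hc hW
      (fun r hr hd => ⟨a5 r hr (hd.trans (Dvd.intro _ s1)), s6 r hr hd⟩)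
      (a9.imp_left s8) ?_
    · rw [card_image_of_injOn hinj] at hb
      have h1 : ∀ n ∈ F, 1 / (n : ℝ) ≤ ((m : ℝ) + 1) / y := by
        intro n hn
        obtain ⟨hnJ, -, f3, -⟩ := hmem n hn
        have hn1 := (hJ n hnJ).1
        have h2 : y < n * (y / n + 1) := Nat.lt_mul_div_succ y hn1
        rw [f3] at h2
        have h3 : (y : ℝ) ≤ n * ((m : ℝ) + 1) := by exact_mod_cast h2.le
        rw [div_le_div_iff₀ (by exact_mod_cast hn1) hy0]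
        linarith
      refine (sum_le_card_nsmul F _ _ h1).trans ?_
      rw [nsmul_eq_mul]
      refine (mul_le_mul_of_nonneg_right hb (by positivity)).trans (le_of_eq ?_)
      have hm0 : (m : ℝ) ≠ 0 := by exact_mod_cast (by omega : m ≠ 0)
      have hd0 : (δ : ℝ) ≠ 0 := by exact_mod_cast (by omega : δ ≠ 0)
      generalize C * (Om / c) ^ 2 * L * (1 / P1 + 1 / W) = K
      field_simp
    · intro n' hn'
      obtain ⟨n, hn, rfl⟩ := mem_image.1 hn'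
      obtain ⟨hnJ, ⟨f1, f2⟩, f3, f4⟩ := hmem n hn
      obtain ⟨b1, -, -, b4, b5, -, b7, -⟩ := hJ n hnJ
      obtain ⟨t1, t2, -, t4, t5, -⟩ := jb6_split n b1 b4 (v * N - R)
      rw [f1] at t1 t5
      rw [t1]
      refine ⟨t2, f3, t4, t5, fun r hr hd => b5 r hr (hd.trans (Dvd.intro_left _ t1)),
        f4 ▸ b7, ?_⟩
      have h1 := jb6_cell (jb6_theta N b1).1 hA
      rw [f2, one_div_div] at h1
      exact h1

end

end Pool.Agent.Jac
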