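import Pool.Agent.P.MP_45ff98_nt.JDefs
import Pool.Agent.Lib.Sieve.Mertens

/-! Basic facts about boxes, products of primes and exponentials. -/

namespace Pool.Agent.Jac
open Finset

noncomputable section

theorem kk_pos (p : ℕ) : 1 ≤ kk p := Nat.le_add_left 1 _

theorem lt_two_pow_kk (p : ℕ) : p < 2 ^ kk p := Nat.lt_pow_succ_log_self (by norm_num) p

theorem two_pow_kk_le {p : ℕ} (hp : p ≠ 0) : 2 ^ (kk p - 1) ≤ p := by
  simpa [kk] using Nat.pow_log_le_self 2 hp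

theorem two_pow_kk_le' {p : ℕ} (hp : p ≠ 0) : 2 ^ kk p ≤ 2 * p := by
  have := Nat.pow_log_le_self 2 hp
  rw [kk, pow_succ]; omega

theorem kk_mono {p q : ℕ} (h : p ≤ q) : kk p ≤ kk q :=
  Nat.succ_le_succ (Nat.log_mono_right h)

theorem kk_two_pow {k : ℕ} (hk : 1 ≤ k) : kk (2 ^ (k - 1)) = k := by
  rw [kk, Nat.log_pow (by norm_num)]; omega

theorem le_kk_iff {k p : ℕ} (hp : p ≠ 0) : k ≤ kk p ↔ 2 ^ (k - 1) ≤ p := by
  rw [← Nat.le_log_iff_pow_le (by norm_num) hp, kk]; omega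

theorem kk_lt_iff {k p : ℕ} (hp : p ≠ 0) : kk p < k ↔ p < 2 ^ (k - 1) := by
  rw [← not_le, le_kk_iff hp, not_le]

theorem kk_le_iff {k p : ℕ} (hp : p ≠ 0) : kk p ≤ k ↔ p < 2 ^ k := by
  rw [← Nat.lt_succ_iff, kk_lt_iff hp]; simp

theorem lt_of_kk_lt {p q : ℕ} (h : kk p < kk q) : p < q := by
  by_contra hc
  exact absurd (kk_mono (not_lt.1 hc)) (not_le.2 h)

theorem two_le_kk {p : ℕ} (hp : p.Prime) : 2 ≤ kk p :=
  (le_kk_iff hp.ne_zero).2 (by simpa using hp.two_le)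

theorem mem_PP {k p q : ℕ} : q ∈ PP k p ↔ q < p ∧ q.Prime ∧ k ≤ kk q := by
  simp [PP]

theorem mem_Box {k q : ℕ} : q ∈ Box k ↔ q.Prime ∧ kk q = k := by
  simp only [Box, mem_filter, mem_range, and_iff_right_iff_imp]
  rintro ⟨-, rfl⟩
  exact lt_two_pow_kk q

theorem card_Box_le (k : ℕ) : (Box k).card ≤ 2 ^ (k - 1) := by
  rcases Nat.eq_zero_or_pos k with rfl | hk
  · have : Box 0 = ∅ := eq_empty_of_forall_notMem fun q hq => by
      have := (mem_Box.1 hq).2; have := kk_pos q; omega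
    simp [this]
  have h : Box k ⊆ Ico (2 ^ (k - 1)) (2 ^ k) := fun q hq => by
    obtain ⟨h1, rfl⟩ := mem_Box.1 hq
    exact mem_Ico.2 ⟨two_pow_kk_le h1.ne_zero, lt_two_pow_kk q⟩
  have h2 := card_le_card h
  rw [Nat.card_Ico] at h2
  have h3 : 2 ^ k = 2 * 2 ^ (k - 1) := by rw [← pow_succ']; congr 1; omega
  omega

theorem PP_mono {k k' p p' : ℕ} (hk : k ≤ k') (hp : p' ≤ p) : PP k' p' ⊆ PP k p := fun q hq => by
  rw [mem_PP] at hq ⊢
  exact ⟨by omega, hq.2.1, by omega⟩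

theorem mn_mem {T : Finset ℕ} (h : T.Nonempty) : mn T ∈ T := by
  have := Nat.sInf_mem (s := (T : Set ℕ)) (by exact_mod_cast h)
  exact_mod_cast this

theorem mn_le {T : Finset ℕ} {p : ℕ} (h : p ∈ T) : mn T ≤ p := Nat.sInf_le (by exact_mod_cast h)

theorem mn_eq {T : Finset ℕ} {p : ℕ} (h : p ∈ T) (h2 : ∀ q ∈ T, p ≤ q) : mn T = p :=
  le_antisymm (mn_le h) (h2 _ (mn_mem ⟨p, h⟩))

theorem mn_top {T : Finset ℕ} {p : ℕ} (h : p ∈ T) : mn (top T p) = p :=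
  mn_eq (mem_filter.2 ⟨h, le_rfl⟩) fun _ hq => (mem_filter.1 hq).2

theorem pr_pos {T : Finset ℕ} (h : ∀ p ∈ T, p.Prime) : 0 < pr T :=
  prod_pos fun p hp => (h p hp).pos

theorem pr_le_two_pow (T : Finset ℕ) : pr T ≤ 2 ^ ks T := by
  rw [ks, ← prod_pow_eq_pow_sum]
  exact prod_le_prod' fun p _ => (lt_two_pow_kk p).le

theorem two_pow_ks_le {T : Finset ℕ} (h : ∀ p ∈ T, p.Prime) : 2 ^ ks T ≤ 2 ^ T.card * pr T := by
  rw [ks, ← prod_pow_eq_pow_sum, pr, ← prod_const, ← prod_mul_distrib]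
  exact prod_le_prod' fun p hp => two_pow_kk_le' (h p hp).ne_zero

theorem primeFactors_pr {T : Finset ℕ} (h : ∀ p ∈ T, p.Prime) : (pr T).primeFactors = T :=
  Nat.primeFactors_prod h

theorem pr_inj {S T : Finset ℕ} (hS : ∀ p ∈ S, p.Prime) (hT : ∀ p ∈ T, p.Prime)
    (h : pr S = pr T) : S = T := by
  rw [← primeFactors_pr hS, h, primeFactors_pr hT]

theorem prime_dvd_pr {T : Finset ℕ} (h : ∀ p ∈ T, p.Prime) {r : ℕ} (hr : r.Prime) :
    r ∣ pr T ↔ r ∈ T := by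
  rw [← primeFactors_pr h, Nat.mem_primeFactors, primeFactors_pr h]
  exact ⟨fun h1 => ⟨hr, h1, (pr_pos h).ne'⟩, fun h1 => h1.2.1⟩

theorem pr_dvd_iff {T : Finset ℕ} (h : ∀ p ∈ T, p.Prime) (m : ℤ) :
    (pr T : ℤ) ∣ m ↔ ∀ p ∈ T, (p : ℤ) ∣ m := by
  refine ⟨fun h1 p hp => (Int.natCast_dvd_natCast.2 (dvd_prod_of_mem _ hp)).trans h1, fun h1 => ?_⟩
  rw [pr, Nat.cast_prod]
  refine Finset.prod_dvd_of_coprime (fun p hp q hq hne => ?_) h1
  exact Nat.isCoprime_iff_coprime.2 ((Nat.coprime_primes (h p hp) (h q hq)).2 hne)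

theorem pr_dvd_iff_nat {T : Finset ℕ} (h : ∀ p ∈ T, p.Prime) (m : ℕ) :
    pr T ∣ m ↔ ∀ p ∈ T, p ∣ m := by
  rw [← Int.natCast_dvd_natCast, pr_dvd_iff h]
  simp only [Int.natCast_dvd_natCast]

theorem pr_insert {T : Finset ℕ} {q : ℕ} (h : q ∉ T) : pr (insert q T) = q * pr T :=
  prod_insert h

theorem ks_insert {T : Finset ℕ} {q : ℕ} (h : q ∉ T) : ks (insert q T) = kk q + ks T :=
  sum_insert h

theorem pr_union {S T : Finset ℕ} (h : Disjoint S T) : pr (S ∪ T) = pr S * pr T := prod_union h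

theorem ks_union {S T : Finset ℕ} (h : Disjoint S T) : ks (S ∪ T) = ks S + ks T := sum_union h

theorem card_le_of_pr_le (F : Finset (Finset ℕ)) (Z : ℕ)
    (h : ∀ T ∈ F, (∀ p ∈ T, p.Prime) ∧ pr T ≤ Z) : F.card ≤ Z := by
  have := card_le_card_of_injOn (s := F) (t := Ioc 0 Z) pr
    (fun T hT => by simpa using ⟨pr_pos (h T hT).1, (h T hT).2⟩)
    (fun S hS T hT e => pr_inj (h S hS).1 (h T hT).1 e)
  simpa using this

theorem sum_inv_pr_le (F : Finset (Finset ℕ)) (Z : ℕ)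
    (h : ∀ T ∈ F, (∀ p ∈ T, p.Prime) ∧ pr T ≤ Z) :
    ∑ T ∈ F, 1 / (pr T : ℝ) ≤ 1 + Real.log Z := by
  classical
  rw [← sum_image (f := fun n : ℕ => 1 / (n : ℝ)) (g := pr)
    (fun S hS T hT e => pr_inj (h S hS).1 (h T hT).1 e)]
  refine le_trans (sum_le_sum_of_subset_of_nonneg (fun n hn => ?_) fun _ _ _ => by positivity)
    (Pool.Agent.Lib.Sieve.sum_inv_Ioc_le Z)
  obtain ⟨T, hT, rfl⟩ := mem_image.1 hn
  simpa using ⟨pr_pos (h T hT).1, (h T hT).2⟩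

/-- Decomposition of a sum over subsets according to the largest element. -/
theorem sum_powerset_max (S : Finset ℕ) (F : Finset ℕ → ℝ) :
    ∑ T ∈ S.powerset, F T =
      F ∅ + ∑ q ∈ S, ∑ T ∈ (S.filter (fun r => r < q)).powerset, F (insert q T) := by
  induction S using Finset.induction_on_max with
  | empty => simp
  | insert a s ha ih =>
    have hn : a ∉ s := fun h => lt_irrefl _ (ha a h)
    rw [sum_powerset_insert hn, ih, sum_insert hn]
    have h1 : (insert a s).filter (fun r => r < a) = s := by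
      rw [filter_insert, if_neg (lt_irrefl a)]
      exact filter_true_of_mem ha
    have h2 : ∀ q ∈ s, (insert a s).filter (fun r => r < q) = s.filter (fun r => r < q) :=
      fun q hq => by rw [filter_insert, if_neg (not_lt.2 (ha q hq).le)]
    have h3 : ∑ q ∈ s, ∑ T ∈ ((insert a s).filter (fun r => r < q)).powerset, F (insert q T) =
        ∑ q ∈ s, ∑ T ∈ (s.filter (fun r => r < q)).powerset, F (insert q T) :=
      sum_congr rfl fun q hq => by rw [h2 q hq]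
    rw [h1, h3]
    ring

theorem PP_filter_lt {k p q : ℕ} (h : q ≤ p) : (PP k p).filter (fun r => r < q) = PP k q := by
  ext r
  simp only [mem_filter, mem_PP]
  constructor
  · rintro ⟨⟨-, h2⟩, h3⟩; exact ⟨h3, h2⟩
  · rintro ⟨h1, h2⟩; exact ⟨⟨by omega, h2⟩, h1⟩

theorem sum_PP_powerset (k p : ℕ) (F : Finset ℕ → ℝ) :
    ∑ T ∈ (PP k p).powerset, F T =
      F ∅ + ∑ q ∈ PP k p, ∑ T ∈ (PP k q).powerset, F (insert q T) := by
  rw [sum_powerset_max]
  congr 1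
  exact sum_congr rfl fun q hq => by rw [PP_filter_lt (mem_PP.1 hq).1.le]

theorem St.mono {e t k k' : ℕ} (h : St e t k) (hk : k' ≤ k) : St e t k' :=
  ⟨hk.trans h.1, fun he => by have := h.2 he; omega⟩

theorem St.child {e t k k' : ℕ} (h : St e t k) (hk : k' ≤ k) (hc : Cont e t k') :
    St (e + 1) (t - k') k' ∧ 2 * k' ≤ t := by
  rcases Nat.even_or_odd e with he | he
  · have := h.2 he
    exact ⟨⟨by omega, fun h1 => absurd h1 (Nat.not_even_iff_odd.2 he.add_one)⟩, by omega⟩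
  · have := hc he.add_one
    exact ⟨⟨by omega, fun _ => by omega⟩, by omega⟩

theorem sum_boxes (S : Finset ℕ) (K : Finset ℕ) (f : ℕ → ℝ) :
    ∑ q ∈ S.filter (fun q => kk q ∈ K), f (kk q) / q =
      ∑ k ∈ K, (∑ q ∈ S.filter (fun q => kk q = k), 1 / (q : ℝ)) * f k := by
  rw [← sum_fiberwise_of_maps_to (g := kk) (t := K) (fun q hq => (mem_filter.1 hq).2)]
  refine sum_congr rfl fun k hk => ?_
  rw [sum_mul, filter_filter]
  refine sum_congr (filter_congr fun q _ => ⟨fun h => h.2, fun h => ⟨h ▸ hk, h⟩⟩) fun q hq => ?_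
  rw [(mem_filter.1 hq).2]; ring

/-- Passage from primes to boxes, upper bound. -/
theorem box_upper {k0 : ℕ} (hB : HB k0) (S K : Finset ℕ) (hS : ∀ q ∈ S, q.Prime ∧ kk q ∈ K)
    (hK : ∀ k ∈ K, k0 ≤ k) (f : ℕ → ℝ) (hf : ∀ k ∈ K, 0 ≤ f k) :
    ∑ q ∈ S, f (kk q) / q ≤ ∑ k ∈ K, 101 / 100 / (k : ℝ) * f k := by
  rw [← filter_true_of_mem (s := S) (p := fun q => kk q ∈ K) fun q hq => (hS q hq).2, sum_boxes]
  refine sum_le_sum fun k hk => mul_le_mul_of_nonneg_right ?_ (hf k hk)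
  refine le_trans (sum_le_sum_of_subset_of_nonneg (fun q hq => ?_) fun _ _ _ => by positivity)
    (hB k (hK k hk)).2
  exact mem_Box.2 ⟨(hS q (mem_filter.1 hq).1).1, (mem_filter.1 hq).2⟩

/-- Passage from primes to boxes, lower bound. -/
theorem box_lower {k0 : ℕ} (hB : HB k0) (p : ℕ) (K : Finset ℕ)
    (hK : ∀ k ∈ K, k0 ≤ k ∧ k < kk p) (f : ℕ → ℝ) (hf : ∀ k ∈ K, 0 ≤ f k) :
    ∑ k ∈ K, 99 / 100 / (k : ℝ) * f k ≤
      ∑ q ∈ (PP k0 p).filter (fun q => kk q ∈ K), f (kk q) / q := by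
  rw [sum_boxes]
  refine sum_le_sum fun k hk => mul_le_mul_of_nonneg_right ?_ (hf k hk)
  refine le_trans (hB k (hK k hk).1).1
    (sum_le_sum_of_subset_of_nonneg (fun q hq => ?_) fun _ _ _ => by positivity)
  obtain ⟨h1, rfl⟩ := mem_Box.1 hq
  exact mem_filter.2 ⟨mem_PP.2 ⟨lt_of_kk_lt (hK _ hk).2, h1, (hK _ hk).1⟩, rfl⟩

theorem TP_le_TB {k0 : ℕ} (hB : HB k0) (F : ℕ → ℕ → ℕ → ℝ) (hF : ∀ e t k, 0 ≤ F e t k)
    (e t p : ℕ) : TP k0 (fun e t q => F e t (kk q)) e t p ≤ TB k0 (kk p) F e t := by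
  refine box_upper hB _ _ (fun q hq => ?_) (fun k hk => (mem_Icc.1 (mem_filter.1 hk).1).1)
    (fun k => F (e + 1) (t - k) k) fun k _ => hF _ _ _
  obtain ⟨h1, h2⟩ := mem_filter.1 hq
  obtain ⟨h3, h4, h5⟩ := mem_PP.1 h1
  exact ⟨h4, mem_filter.2 ⟨mem_Icc.2 ⟨h5, kk_mono h3.le⟩, h2⟩⟩

theorem HB.mono {k0 k1 : ℕ} (h : HB k0) (hk : k0 ≤ k1) : HB k1 := fun k h1 => h k (hk.trans h1)

theorem norm_ee (x : ℝ) : ‖ee x‖ = 1 := by
  have : (2 * Real.pi * Complex.I * x : ℂ) = ((2 * Real.pi * x : ℝ) : ℂ) * Complex.I := by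
    push_cast; ring
  rw [ee, this, Complex.norm_exp_ofReal_mul_I]

theorem ee_add (x y : ℝ) : ee (x + y) = ee x * ee y := by
  rw [ee, ee, ee, ← Complex.exp_add]; congr 1; push_cast; ring

theorem ee_zero : ee 0 = 1 := by simp [ee]

theorem ee_int (n : ℤ) : ee n = 1 := by
  rw [ee, ← Complex.exp_int_mul_two_pi_mul_I n]; congr 1; push_cast; ring

theorem ee_add_int (x : ℝ) (n : ℤ) : ee (x + n) = ee x := by rw [ee_add, ee_int, mul_one]

theorem conj_ee (x : ℝ) : (starRingEnd ℂ) (ee x) = ee (-x) := by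
  rw [ee, ee, ← Complex.exp_conj]; congr 1
  simp only [map_mul, Complex.conj_ofReal, Complex.conj_I, map_ofNat]; push_cast; ring

theorem ee_nat_mul (x : ℝ) (n : ℕ) : ee (n * x) = ee x ^ n := by
  rw [ee, ee, ← Complex.exp_nat_mul]; congr 1; push_cast; ring

theorem norm_ee_sub (x y : ℝ) : ‖ee x - ee y‖ ≤ 2 * Real.pi * |x - y| := by
  have h1 : ee x - ee y = ee y * (ee (x - y) - 1) := by
    rw [mul_sub, ← ee_add, mul_one]; congr 2; ring
  have h2 : (2 * Real.pi * Complex.I * (x - y : ℝ) : ℂ) =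
      Complex.I * ((2 * Real.pi * (x - y) : ℝ) : ℂ) := by push_cast; ring
  rw [h1, norm_mul, norm_ee, one_mul, ee, h2]
  refine Real.norm_exp_I_mul_ofReal_sub_one_le.trans (le_of_eq ?_)
  rw [Real.norm_eq_abs, abs_mul, abs_of_pos Real.two_pi_pos]

theorem ee_eq_one_iff (x : ℝ) : ee x = 1 ↔ ∃ n : ℤ, x = n := by
  rw [ee, Complex.exp_eq_one_iff]
  refine exists_congr fun n => ⟨fun h => ?_, fun h => by rw [h]; push_cast; ring⟩
  have h0 : (2 * Real.pi * Complex.I : ℂ) ≠ 0 := Complex.two_pi_I_ne_zero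
  have : (x : ℂ) = n := mul_left_cancel₀ h0 (by rw [h]; ring)
  exact_mod_cast this

/-- Orthogonality of additive characters. -/
theorem sum_ee (q : ℕ) (hq : 1 ≤ q) (a : ℤ) :
    ∑ t ∈ range q, ee (a * t / q) = if (q : ℤ) ∣ a then (q : ℂ) else 0 := by
  have hq0 : (q : ℝ) ≠ 0 := by positivity
  have h1 : ∀ t : ℕ, ee (a * t / q) = ee (a / q) ^ t := fun t => by
    rw [← ee_nat_mul]; congr 1; ring
  simp only [h1]
  split_ifs with h
  · obtain ⟨c, rfl⟩ := h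
    have : (((q * c : ℤ) : ℝ) / q) = (c : ℝ) := by push_cast; field_simp
    rw [this, ee_int]; simp
  · have h2 : ee (a / q) ≠ 1 := fun h3 => by
      obtain ⟨n, hn⟩ := (ee_eq_one_iff _).1 h3
      refine h ⟨n, ?_⟩
      have : (a : ℝ) = q * n := by rw [← hn]; field_simp
      exact_mod_cast this
    rw [geom_sum_eq h2, ← ee_nat_mul]
    have : (q : ℝ) * (a / q) = a := by field_simp
    rw [this, ee_int]; simp

theorem mb_le_one (k : ℕ) : mb k ≤ 1 := by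
  have h : ∀ q ∈ Box k, 1 / (q : ℝ) ≤ 1 / 2 ^ (k - 1) := fun q hq => by
    obtain ⟨h1, rfl⟩ := mem_Box.1 hq
    exact one_div_le_one_div_of_le (by positivity) (by exact_mod_cast two_pow_kk_le h1.ne_zero)
  refine (sum_le_card_nsmul _ _ _ h).trans ?_
  rw [nsmul_eq_mul, mul_one_div, div_le_one (by positivity)]
  exact_mod_cast card_Box_le k

/-- A nonzero integer of size at most `2^L` has at most `L` prime factors. -/
theorem card_primes_dvd (S : Finset ℕ) (a : ℤ) (L : ℕ) (ha : a ≠ 0) (hL : |a| ≤ 2 ^ L)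
    (h : ∀ p ∈ S, p.Prime ∧ (p : ℤ) ∣ a) : S.card ≤ L := by
  have h1 : (pr S : ℤ) ∣ a := (pr_dvd_iff (fun p hp => (h p hp).1) a).2 fun p hp => (h p hp).2
  have h2 : (pr S : ℤ) ≤ 2 ^ L := (Int.le_of_dvd (abs_pos.2 ha) ((dvd_abs _ _).2 h1)).trans hL
  have h3 : 2 ^ S.card ≤ pr S := by
    rw [← prod_const]
    exact prod_le_prod' fun p hp => (h p hp).1.two_le
  have h4 : pr S ≤ 2 ^ L := by exact_mod_cast h2
  exact (Nat.pow_le_pow_iff_right (by norm_num)).1 (h3.trans h4)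

theorem MM_bounds (N : ℤ) (y : ℕ) {n : ℕ} (hn : 1 ≤ n) :
    y / n ≤ MM N y n ∧ MM N y n ≤ y / n + 1 := by
  have h0 : (0 : ℤ) < n := by exact_mod_cast hn
  have h1 := Int.mul_ediv_add_emod (N + y) n
  have h2 := Int.mul_ediv_add_emod N n
  have h3 := Int.mul_ediv_add_emod (y : ℤ) n
  have h4 := Int.emod_nonneg (N + y) h0.ne'
  have h5 := Int.emod_lt_of_pos (N + y) h0
  have h6 := Int.emod_nonneg N h0.ne'
  have h7 := Int.emod_lt_of_pos N h0
  have h8 := Int.emod_nonneg (y : ℤ) h0.ne'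
  have h9 := Int.emod_lt_of_pos (y : ℤ) h0
  have ha : (y : ℤ) / n ≤ (N + y) / n - N / n := by
    by_contra hc
    have : (N + y) / n - N / n + 1 ≤ (y : ℤ) / n := by omega
    nlinarith
  have hb : (N + y) / n - N / n ≤ (y : ℤ) / n + 1 := by
    by_contra hc
    have : (y : ℤ) / n + 2 ≤ (N + y) / n - N / n := by omega
    nlinarith
  have hc : ((y / n : ℕ) : ℤ) = (y : ℤ) / n := Int.natCast_div y n
  rw [← hc] at ha hb
  unfold MM
  generalize y / n = w at *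
  omega

end

end Pool.Agent.Jac
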