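import Pool.Agent.P.MP_45ff98_nt.JBase

/-! Boundary terms for the Liouville class. -/

namespace Pool.Agent.Jac
open Finset

noncomputable section

theorem jbd_cnt {k : ℕ} (hk : 2 ≤ k) (S : Finset ℕ) {Y : ℝ} (hY : 0 ≤ Y)
    (hS : ∀ q ∈ S, q.Prime ∧ 2 ^ (k - 1) ≤ q ∧ (q : ℝ) ≤ Y) :
    (S.card : ℝ) ≤ 2 * Y / ((k : ℝ) - 1) := by
  have hk1 : (0 : ℝ) < (k : ℝ) - 1 := by
    have : (2 : ℝ) ≤ k := by exact_mod_cast hk
    linarith
  have hl : 0 < Real.log 2 := Real.log_pos (by norm_num)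
  have h1 : ∑ q ∈ S, ((k : ℝ) - 1) * Real.log 2 ≤ ∑ q ∈ S, Real.log q := by
    refine sum_le_sum fun q hq => ?_
    have h2 : ((2 : ℝ)) ^ (k - 1) ≤ q := by exact_mod_cast (hS q hq).2.1
    have h3 := Real.log_le_log (by positivity) h2
    rw [Real.log_pow, Nat.cast_sub (by omega)] at h3
    simpa using h3
  have h2 : ∑ q ∈ S, Real.log q ≤ Chebyshev.theta Y := by
    unfold Chebyshev.theta
    refine sum_le_sum_of_subset_of_nonneg (fun q hq => ?_) fun q _ _ => Real.log_natCast_nonneg q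
    obtain ⟨a, -, c⟩ := hS q hq
    exact mem_filter.2 ⟨mem_Ioc.2 ⟨a.pos, Nat.le_floor c⟩, a⟩
  have h3 := Chebyshev.theta_le_log4_mul_x hY
  have h4 : Real.log 4 = 2 * Real.log 2 := by
    rw [show (4 : ℝ) = 2 ^ 2 by norm_num, Real.log_pow]; norm_num
  rw [sum_const, nsmul_eq_mul] at h1
  rw [le_div_iff₀ hk1]
  have h5 : (S.card * ((k : ℝ) - 1)) * Real.log 2 ≤ (2 * Y) * Real.log 2 := by
    rw [h4] at h3; nlinarith
  exact le_of_mul_le_mul_right h5 hl

theorem jbd_sum {k : ℕ} (hk : 2 ≤ k) (om : ℕ) (S : Finset ℕ)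
    (hS : ∀ q ∈ S, q.Prime ∧ k ≤ kk q ∧ kk q ≤ k + om) :
    ∑ q ∈ S, 1 / (q : ℝ) ≤ ((om : ℝ) + 1) * (4 / ((k : ℝ) - 1)) := by
  have hk1 : (0 : ℝ) < (k : ℝ) - 1 := by
    have : (2 : ℝ) ≤ k := by exact_mod_cast hk
    linarith
  rw [← sum_fiberwise_of_maps_to (g := kk) (t := Icc k (k + om))
    (fun q hq => mem_Icc.2 (hS q hq).2)]
  have h : ∀ j ∈ Icc k (k + om), ∑ q ∈ S.filter (fun q => kk q = j), 1 / (q : ℝ) ≤
      4 / ((k : ℝ) - 1) := by
    intro j hj
    have hkj := (mem_Icc.1 hj).1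
    have hj1 : ((k : ℝ) - 1) ≤ (j : ℝ) - 1 := by
      have : (k : ℝ) ≤ j := by exact_mod_cast hkj
      linarith
    have h1 : ∀ q ∈ S.filter (fun q => kk q = j), 1 / (q : ℝ) ≤ 1 / 2 ^ (j - 1) := by
      intro q hq
      obtain ⟨h1, rfl⟩ := mem_filter.1 hq
      exact one_div_le_one_div_of_le (by positivity)
        (by exact_mod_cast two_pow_kk_le (hS q h1).1.ne_zero)
    refine (sum_le_card_nsmul _ _ _ h1).trans ?_
    have h2 := jbd_cnt (k := j) (by omega) (S.filter (fun q => kk q = j)) (Y := 2 ^ j)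
      (by positivity) (fun q hq => by
        obtain ⟨g1, g2⟩ := mem_filter.1 hq
        rw [← g2]
        exact ⟨(hS q g1).1, two_pow_kk_le (hS q g1).1.ne_zero,
          by exact_mod_cast (lt_two_pow_kk q).le⟩)
    have h3 : (2 : ℝ) ^ j = 2 * 2 ^ (j - 1) := by
      rw [← pow_succ']; congr 1; omega
    rw [nsmul_eq_mul]
    calc ((S.filter (fun q => kk q = j)).card : ℝ) * (1 / 2 ^ (j - 1))
        ≤ 2 * 2 ^ j / ((j : ℝ) - 1) * (1 / 2 ^ (j - 1)) :=
          mul_le_mul_of_nonneg_right h2 (by positivity)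
      _ = 4 / ((j : ℝ) - 1) := by
          have : (j : ℝ) - 1 ≠ 0 := by linarith
          rw [h3]; field_simp; norm_num
      _ ≤ 4 / ((k : ℝ) - 1) := div_le_div_of_nonneg_left (by norm_num) hk1 hj1
  refine (sum_le_card_nsmul _ _ _ h).trans ?_
  rw [nsmul_eq_mul, Nat.card_Icc, show k + om + 1 - k = om + 1 by omega]
  push_cast
  exact le_rfl

theorem jbd_lam_prime {q : ℕ} (hq : q.Prime) : ArithmeticFunction.liouville q = -1 := by
  rw [ArithmeticFunction.liouville_apply hq.ne_zero, ArithmeticFunction.cardFactors_apply_prime hq]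
  simp

theorem jbd_shape {m B : ℕ} (hl : ArithmeticFunction.liouville m = 1)
    (hp : ∀ r, r.Prime → r ∣ m → B ≤ r) (hm : m < B ^ 3) (h0 : m ≠ 0) :
    m = 1 ∨ ∃ q r : ℕ, q.Prime ∧ r.Prime ∧ q ≤ r ∧ m = q * r := by
  by_cases h1 : m = 1
  · exact Or.inl h1
  right
  have hq := Nat.minFac_prime h1
  obtain ⟨m1, e1⟩ := Nat.minFac_dvd m
  have l1 : ArithmeticFunction.liouville m1 = -1 := by
    rw [e1, ArithmeticFunction.liouville_apply_mul, jbd_lam_prime hq] at hl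
    omega
  have h2 : m1 ≠ 1 := by
    rintro rfl
    rw [ArithmeticFunction.liouville_apply_one] at l1
    omega
  have hr := Nat.minFac_prime h2
  obtain ⟨m2, e2⟩ := Nat.minFac_dvd m1
  have d1 : m1 ∣ m := Dvd.intro_left _ e1.symm
  have d2 : m2 ∣ m1 := Dvd.intro_left _ e2.symm
  refine ⟨m.minFac, m1.minFac, hq, hr,
    Nat.minFac_le_of_dvd hr.two_le ((Nat.minFac_dvd m1).trans d1), ?_⟩
  by_cases h3 : m2 = 1
  · rw [h3, mul_one] at e2
    rw [← e2]; exact e1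
  exfalso
  have hs := Nat.minFac_prime h3
  have m20 : 0 < m2 := Nat.pos_of_ne_zero fun h => h0 (by rw [e1, e2, h]; simp)
  have a1 := hp _ hq (Nat.minFac_dvd m)
  have a2 := hp _ hr ((Nat.minFac_dvd m1).trans d1)
  have a3 := (hp _ hs ((Nat.minFac_dvd m2).trans (d2.trans d1))).trans (Nat.minFac_le m20)
  have b1 : B * B ≤ m1 := by rw [e2]; exact Nat.mul_le_mul a2 a3
  have b2 : B * (B * B) ≤ m := by rw [e1]; exact Nat.mul_le_mul a1 b1
  have : B ^ 3 = B * (B * B) := by ring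
  omega

theorem bd_err : ∃ C : ℝ, 0 < C ∧ ∀ (t0 t om d p : ℕ), p.Prime → om + 3 ≤ kk p → t < 2 * kk p →
    1 ≤ d → 2 ^ t * d ≤ 2 ^ t0 → 2 ^ t0 ≤ 2 ^ (t + om) * d → ArithmeticFunction.liouville d = 1 →
    2 * (cntE (2 ^ t0) d p : ℝ) / 2 ^ t0 ≤ bd C (om + 3) t (kk p) / d := by
  classical
  refine ⟨36, by norm_num, fun t0 t om d p hp hk ht hd h1 h2 hl => ?_⟩
  set k := kk p with hkdef
  set x := 2 ^ t0 with hx
  have hpk : 2 ^ (k - 1) ≤ p := two_pow_kk_le hp.ne_zero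
  set Q1 := (range (x + 1)).filter (fun q => q.Prime ∧ k ≤ kk q ∧ kk q ≤ k + om) with hQ1
  set Q2 : ℕ → Finset ℕ := fun q =>
    (range (x + 1)).filter (fun r => r.Prime ∧ 2 ^ (k - 1) ≤ r ∧ d * (q * r) ≤ x) with hQ2
  set A := (Icc 1 x).filter (fun n : ℕ => d ∣ n ∧ ArithmeticFunction.liouville n = 1 ∧
    ∀ r < p, r.Prime → ¬ r ∣ n) with hA
  have hcnt : cntE x d p = A.card := by
    unfold cntE
    congr 1
  have key : ∀ n ∈ A, n = d ∨ (2 * k ≤ t + (om + 3) ∧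
      ∃ q ∈ Q1, ∃ r ∈ Q2 q, d * (q * r) = n) := by
    intro n hn
    obtain ⟨hn1, ⟨m, rfl⟩, hn2, hn3⟩ := mem_filter.1 hn
    obtain ⟨hn0, hnx⟩ := mem_Icc.1 hn1
    have m0 : m ≠ 0 := by rintro rfl; simp at hn0
    have hm : m ≤ 2 ^ (t + om) := by
      have : d * m ≤ d * 2 ^ (t + om) := by rw [mul_comm d (2 ^ (t + om))]; exact hnx.trans h2
      exact Nat.le_of_mul_le_mul_left this hd
    have lm : ArithmeticFunction.liouville m = 1 := by
      rw [ArithmeticFunction.liouville_apply_mul, hl, one_mul] at hn2; exact hn2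
    have hpr : ∀ r, r.Prime → r ∣ m → p ≤ r := fun r hr hrm => by
      by_contra hc
      exact hn3 r (not_le.1 hc) hr (hrm.mul_left d)
    have hlt : m < (2 ^ (k - 1)) ^ 3 := by
      rw [← pow_mul]
      exact lt_of_le_of_lt hm (Nat.pow_lt_pow_right (by norm_num) (by omega))
    rcases jbd_shape lm (fun r hr hrm => hpk.trans (hpr r hr hrm)) hlt m0 with rfl | ⟨q, r, hq, hr, hqr, rfl⟩
    · left; simp
    right
    have pq := hpr q hq (Dvd.intro _ rfl)
    have kq : k ≤ kk q := kk_mono pq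
    have e1 : 2 ^ (kk q - 1) ≤ q := two_pow_kk_le hq.ne_zero
    have e2 : 2 ^ (kk q - 1 + (kk q - 1)) ≤ 2 ^ (t + om) := by
      rw [pow_add]
      exact (Nat.mul_le_mul e1 (e1.trans hqr)).trans hm
    have e3 := (Nat.pow_le_pow_iff_right (by norm_num)).1 e2
    have e4 : q * r ≤ x := (Nat.le_mul_of_pos_left _ hd).trans hnx
    have e5 : r ≤ x := (Nat.le_mul_of_pos_left _ hq.pos).trans e4
    refine ⟨by omega, q, mem_filter.2 ⟨mem_range.2 (by omega), hq, kq, by omega⟩, r,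
      mem_filter.2 ⟨mem_range.2 (by omega), hr, hpk.trans (pq.trans hqr), hnx⟩, rfl⟩
  have hd0 : (0 : ℝ) < d := by exact_mod_cast hd
  have hxr : ((2 : ℝ)) ^ t0 = (x : ℝ) := by rw [hx]; push_cast; rfl
  have hx0 : (0 : ℝ) < x := by rw [← hxr]; positivity
  have h1r : (2 : ℝ) ^ t * d ≤ x := by exact_mod_cast h1
  have first : 2 * 1 / (x : ℝ) ≤ 36 * (1 / 2 ^ t) / d := by
    rw [div_le_div_iff₀ hx0 hd0]
    have ht0 : (0 : ℝ) < 2 ^ t := by positivity
    have : (d : ℝ) ≤ 1 / 2 ^ t * x := by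
      rw [one_div, inv_mul_eq_div, le_div_iff₀ ht0]; linarith
    nlinarith
  rw [hcnt, hxr]
  unfold bd
  split_ifs with hc
  · have hsub : A ⊆ insert d (Q1.biUnion fun q => (Q2 q).image fun r => d * (q * r)) := by
      intro n hn
      rcases key n hn with rfl | ⟨-, q, hq, r, hr, rfl⟩
      · exact mem_insert_self _ _
      · exact mem_insert_of_mem (mem_biUnion.2 ⟨q, hq, mem_image.2 ⟨r, hr, rfl⟩⟩)
    have c1 : A.card ≤ ∑ q ∈ Q1, (Q2 q).card + 1 :=
      (card_le_card hsub).trans ((card_insert_le _ _).trans (Nat.add_le_add_right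
        (card_biUnion_le.trans (sum_le_sum fun q _ => card_image_le)) 1))
    have hk3 : (3 : ℝ) ≤ k := by exact_mod_cast (show 3 ≤ k by omega)
    have hk1 : (0 : ℝ) < (k : ℝ) - 1 := by linarith
    have c2 : ∀ q ∈ Q1, ((Q2 q).card : ℝ) ≤ 2 * (x / d) / ((k : ℝ) - 1) * (1 / q) := by
      intro q hq
      have hq0 : (0 : ℝ) < q := by exact_mod_cast (mem_filter.1 hq).2.1.pos
      refine (jbd_cnt (k := k) (by omega) (Q2 q) (Y := x / d / q) (by positivity)
        fun r hr => ?_).trans (le_of_eq (by field_simp))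
      obtain ⟨-, a, b, c⟩ := mem_filter.1 hr
      refine ⟨a, b, ?_⟩
      rw [le_div_iff₀ hq0, le_div_iff₀ hd0]
      have : (d : ℝ) * (q * r) ≤ x := by exact_mod_cast c
      linarith
    have c3 := jbd_sum (k := k) (by omega) om Q1 fun q hq => (mem_filter.1 hq).2
    have c4 : (A.card : ℝ) ≤
        2 * (x / d) / ((k : ℝ) - 1) * (((om : ℝ) + 1) * (4 / ((k : ℝ) - 1))) + 1 := by
      have a : (A.card : ℝ) ≤ ∑ q ∈ Q1, ((Q2 q).card : ℝ) + 1 := by exact_mod_cast c1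
      have b := sum_le_sum c2
      rw [← mul_sum] at b
      have c := mul_le_mul_of_nonneg_left c3
        (show (0 : ℝ) ≤ 2 * (x / d) / ((k : ℝ) - 1) by positivity)
      linarith
    have second : 2 * (2 * (x / d) / ((k : ℝ) - 1) * (((om : ℝ) + 1) * (4 / ((k : ℝ) - 1)))) / x ≤
        36 * (((om + 3 : ℕ) : ℝ) / (k : ℝ) ^ 2) / d := by
      have e : 2 * (2 * (x / d) / ((k : ℝ) - 1) * (((om : ℝ) + 1) * (4 / ((k : ℝ) - 1)))) / x =
          16 * ((om : ℝ) + 1) / ((k : ℝ) - 1) ^ 2 / d := by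
        field_simp; ring
      rw [e]
      refine div_le_div_of_nonneg_right ?_ hd0.le
      rw [← mul_div_assoc, div_le_div_iff₀ (by positivity) (by positivity)]
      push_cast
      have o0 : (0 : ℝ) ≤ om := Nat.cast_nonneg om
      have q1 : 16 * (k : ℝ) ^ 2 ≤ 36 * ((k : ℝ) - 1) ^ 2 := by nlinarith
      have q2 := mul_le_mul_of_nonneg_left q1 (show (0 : ℝ) ≤ om + 1 by linarith)
      have q3 : (0 : ℝ) ≤ ((k : ℝ) - 1) ^ 2 := by positivity
      nlinarith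
    calc 2 * (A.card : ℝ) / x
        ≤ 2 * (2 * (x / d) / ((k : ℝ) - 1) * (((om : ℝ) + 1) * (4 / ((k : ℝ) - 1))) + 1) / x :=
          div_le_div_of_nonneg_right (by linarith) hx0.le
      _ = 2 * 1 / (x : ℝ) +
          2 * (2 * (x / d) / ((k : ℝ) - 1) * (((om : ℝ) + 1) * (4 / ((k : ℝ) - 1)))) / x := by
          ring
      _ ≤ 36 * (1 / 2 ^ t) / d + 36 * (((om + 3 : ℕ) : ℝ) / (k : ℝ) ^ 2) / d :=
          add_le_add first second
      _ = _ := by ring
  · have hsub : A ⊆ {d} := by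
      intro n hn
      rcases key n hn with rfl | ⟨h, -⟩
      · exact mem_singleton_self _
      · exact absurd h hc
    have c1 : (A.card : ℝ) ≤ 1 := by
      exact_mod_cast (card_le_card hsub).trans (card_singleton d).le
    rw [add_zero]
    exact (div_le_div_of_nonneg_right (by linarith) hx0.le).trans first

end

end Pool.Agent.Jac
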