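import Pool.Agent.P.MP_45ff98_nt.JG1b

/-! First rearrangement of the exponential sum. -/

namespace Pool.Agent.Jac
open Finset

noncomputable section

theorem jg3a_log {a : ℕ} (ha : 1 ≤ a) {n : ℕ} (hn : a ≤ n) :
    ∑ k ∈ Ico (a + 1) (n + 1), 1 / (k : ℝ) ≤ Real.log n - Real.log a := by
  induction n, hn using Nat.le_induction with
  | base => simp
  | succ n hn ih =>
    rw [sum_Ico_succ_top (by omega)]
    have h0 : (0 : ℝ) < n := by exact_mod_cast ha.trans hn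
    have h1 := Real.log_le_sub_one_of_pos (show (0 : ℝ) < n / (n + 1) by positivity)
    rw [Real.log_div h0.ne' (by positivity)] at h1
    have h2 : (n : ℝ) / (n + 1) - 1 = -(1 / (n + 1)) := by field_simp; ring
    push_cast
    linarith

theorem jg3a_Ps {k0 k1 : ℕ} (hB : HB k0) (h0 : k0 ≤ k1 / 9) (h90 : 90 ≤ k1) :
    ∑ p ∈ PP (k1 / 9) (2 ^ (k1 - 1)), 1 / (p : ℝ) ≤ 3 := by
  have h1 := box_upper hB (PP (k1 / 9) (2 ^ (k1 - 1))) (Ico (k1 / 9) k1) (fun q hq => by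
    obtain ⟨h1, h2, h3⟩ := mem_PP.1 hq
    exact ⟨h2, mem_Ico.2 ⟨h3, (kk_lt_iff h2.ne_zero).2 h1⟩⟩)
    (fun k hk => h0.trans (mem_Ico.1 hk).1) (fun _ => 1) fun _ _ => zero_le_one
  obtain ⟨a, ha⟩ : ∃ a, k1 / 9 = a + 1 := ⟨k1 / 9 - 1, by omega⟩
  obtain ⟨n, rfl⟩ : ∃ n, k1 = n + 1 := ⟨k1 - 1, by omega⟩
  have h2 := jg3a_log (a := a) (n := n) (by omega) (by omega)
  have h3 : (0 : ℝ) < a := by exact_mod_cast (show 0 < a by omega)
  have h4 : Real.log n ≤ Real.log (2 ^ 4 * a) :=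
    Real.log_le_log (by exact_mod_cast (show 0 < n by omega))
      (by exact_mod_cast (show n ≤ 2 ^ 4 * a by omega))
  rw [Real.log_mul (by positivity) h3.ne', Real.log_pow] at h4
  have h5 : ∑ k ∈ Ico (a + 1) (n + 1), 101 / 100 / (k : ℝ) * 1 =
      101 / 100 * ∑ k ∈ Ico (a + 1) (n + 1), 1 / (k : ℝ) := by
    rw [mul_sum]
    exact sum_congr rfl fun k _ => by ring
  refine h1.trans ?_
  rw [ha, h5]
  push_cast at h4
  linarith [Real.log_two_lt_d9]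

theorem jg3a_mult (H : ℕ) {r : ℕ} (hr : 1 ≤ r) :
    ∑ h ∈ (Icc 1 H).filter (fun h => r ∣ h), 1 / (h : ℝ) ≤ (1 + Real.log H) / r := by
  have h1 : (Icc 1 H).filter (fun h => r ∣ h) ⊆ (Ioc 0 H).image (r * ·) := fun h hh => by
    obtain ⟨h2, m, rfl⟩ := mem_filter.1 hh
    obtain ⟨h3, h4⟩ := mem_Icc.1 h2
    exact mem_image.2 ⟨m, mem_Ioc.2 ⟨Nat.pos_of_mul_pos_left h3,
      (Nat.le_mul_of_pos_left m hr).trans h4⟩, rfl⟩
  refine (sum_le_sum_of_subset_of_nonneg h1 fun _ _ _ => by positivity).trans ?_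
  rw [sum_image fun a _ b _ e => Nat.eq_of_mul_eq_mul_left hr e]
  refine le_trans (le_of_eq ?_) (div_le_div_of_nonneg_right
    (Pool.Agent.Lib.Sieve.sum_inv_Ioc_le H) (Nat.cast_nonneg r))
  rw [sum_div]
  exact sum_congr rfl fun m _ => by push_cast; ring

/-- the cofactors -/
def jg3aG (P : Par) : Finset (Finset ℕ) :=
  (PP 0 (2 ^ (P.kW - 1))).powerset.filter fun G => pr G ≤ 2 ^ (P.CW * P.kW)

/-- `p` is the distinguished prime of `insert p G` -/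
def jg3aC (P : Par) (c : Cl) (G : Finset ℕ) (p : ℕ) : Prop :=
  insert p G ∈ famW P c.1 c.2.1 ∧ p ∉ G ∧ ∀ q ∈ G, kk q < P.k1 → q ≤ p

theorem jg3a_memG {P : Par} {G : Finset ℕ} (h : G ∈ jg3aG P) :
    (∀ p ∈ G, p.Prime ∧ p < 2 ^ (P.kW - 1)) ∧ pr G ≤ 2 ^ (P.CW * P.kW) :=
  ⟨fun _ hp => have := mem_PP.1 (mem_powerset.1 (mem_filter.1 h).1 hp); ⟨this.2.1, this.1⟩,
    (mem_filter.1 h).2⟩

theorem jg3a_memE {kw E : ℕ} {S : Finset ℕ} (h : S ∈ IE kw E) :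
    (∀ p ∈ S, p.Prime ∧ p < 2 ^ (5 * kw)) ∧ pr S ≤ E :=
  ⟨fun _ hp => have := mem_PP.1 (mem_powerset.1 (mem_filter.1 h).1 hp); ⟨this.2.1, this.1⟩,
    (mem_filter.1 h).2⟩

open Classical in
theorem jg3a_key {P : Par} (h5 : 5 * P.kw < P.k1) (hW : P.k1 ≤ P.kW) {c : Cl}
    (hs : St c.1 c.2.1 P.kW) (ht : c.2.1 ≤ P.CW * P.kW) (Φ : Finset ℕ → ℂ) :
    ∑ T ∈ famW P c.1 c.2.1, Φ T = ∑ G ∈ jg3aG P, ∑ p ∈ PP (P.k1 / 9) (2 ^ (P.k1 - 1)),
      if jg3aC P c G p then Φ (insert p G) else 0 := by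
  rw [← sum_product' (f := fun G p => if jg3aC P c G p then Φ (insert p G) else 0), ← sum_filter]
  symm
  refine sum_nbij (fun x : Finset ℕ × ℕ => insert x.2 x.1) (fun x hx => (mem_filter.1 hx).2.1)
    ?_ ?_ fun _ _ => rfl
  · rintro ⟨G, p⟩ hx ⟨G', p'⟩ hx' (e : insert p G = insert p' G')
    obtain ⟨h1, -, h2, h3⟩ := mem_filter.1 (mem_coe.1 hx)
    obtain ⟨h1', -, h2', h3'⟩ := mem_filter.1 (mem_coe.1 hx')
    have k1 := mem_PP.1 (mem_product.1 h1).2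
    have k2 := mem_PP.1 (mem_product.1 h1').2
    have l1 : p ≤ p' := (mem_insert.1 (e ▸ mem_insert_self p G)).elim le_of_eq
      fun h => h3' p h ((kk_lt_iff k1.2.1.ne_zero).2 k1.1)
    have l2 : p' ≤ p := (mem_insert.1 (e.symm ▸ mem_insert_self p' G')).elim le_of_eq
      fun h => h3 p' h ((kk_lt_iff k2.2.1.ne_zero).2 k2.1)
    obtain rfl : p = p' := le_antisymm l1 l2
    exact Prod.ext ((erase_insert h2).symm.trans ((congrArg (erase · p) e).trans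
      (erase_insert h2'))) rfl
  · intro T hT
    have hT' : T ∈ famW P c.1 c.2.1 := hT
    obtain ⟨π, h1, h2, h3, h4⟩ := fam_pi h5 hW hs hT'
    obtain ⟨-, h6, -, -, h7, -⟩ := fam_facts hT'
    have h8 : pr (T.erase π) ≤ pr T := prod_le_prod_of_subset_of_one_le' (erase_subset π T)
      fun q hq _ => (h6 q hq).1.one_le
    refine ⟨(T.erase π, π), mem_coe.2 (mem_filter.2 ⟨mem_product.2 ⟨mem_filter.2
      ⟨mem_powerset.2 fun q hq => ?_, h8.trans (h7.trans (Nat.pow_le_pow_right two_pos ht))⟩,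
      mem_PP.2 ⟨(kk_lt_iff (h6 π h1).1.ne_zero).1 h2, (h6 π h1).1,
        Nat.div_le_of_le_mul h3⟩⟩,
      by rwa [insert_erase h1], notMem_erase π T, fun q hq => h4 q (mem_of_mem_erase hq)⟩),
      insert_erase h1⟩
    have := h6 q (mem_of_mem_erase hq)
    exact mem_PP.2 ⟨this.2.1, this.1, Nat.zero_le _⟩

open Classical in
/-- the data of the first rearrangement -/
def jg3aD (P : Par) (E H : ℕ) (b : Cl → Finset ℕ → Finset ℕ → ℕ → ℂ) :
    Dat1 ((Finset ℕ × ℕ) × Finset ℕ) where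
  I := (IE P.kw E ×ˢ Icc 1 H) ×ˢ jg3aG P
  wt i := 1 / (i.1.2 : ℝ) * (1 / (pr i.2 : ℝ))
  h i := i.1.2
  Q i := pr i.2 * pr i.1.1
  Pi := PP (P.k1 / 9) (2 ^ (P.k1 - 1))
  β c i p := if jg3aC P c i.2 p then b c (insert p i.2) i.1.1 i.1.2 else 0

theorem jg3a_sumd (P : Par) (E H : ℕ) (b : Cl → Finset ℕ → Finset ℕ → ℕ → ℂ) {r : ℕ}
    (hr : 1 ≤ r) : ∑ i ∈ (jg3aD P E H b).I.filter (fun i => r ∣ (jg3aD P E H b).h i),
      (jg3aD P E H b).wt i ≤ E * (1 + Real.log H) * (1 + (P.CW * P.kW : ℕ)) / r := by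
  have e : (jg3aD P E H b).I.filter (fun i => r ∣ (jg3aD P E H b).h i) =
      (IE P.kw E ×ˢ (Icc 1 H).filter fun h => r ∣ h) ×ˢ jg3aG P := by
    ext i
    simp only [jg3aD, mem_filter, mem_product]
    tauto
  have h1 : ((IE P.kw E).card : ℝ) ≤ E := by
    exact_mod_cast card_le_of_pr_le _ E fun S hS =>
      ⟨fun p hp => ((jg3a_memE hS).1 p hp).1, (jg3a_memE hS).2⟩
  have h2 := jg3a_mult H hr
  have h3 := sum_inv_pr_le (jg3aG P) _ fun G hG =>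
      ⟨fun p hp => ((jg3a_memG hG).1 p hp).1, (jg3a_memG hG).2⟩
  have h4 : Real.log ((2 ^ (P.CW * P.kW) : ℕ) : ℝ) ≤ (P.CW * P.kW : ℕ) := by
    rw [Nat.cast_pow, Real.log_pow, Nat.cast_ofNat]
    exact mul_le_of_le_one_right (Nat.cast_nonneg _) (by linarith [Real.log_two_lt_d9])
  have h5 : 0 ≤ (1 + Real.log H) / r := by
    have := Real.log_natCast_nonneg H
    positivity
  rw [e, sum_product, sum_product]
  simp only [jg3aD, ← mul_sum, ← sum_mul, sum_const, nsmul_eq_mul]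
  rw [mul_left_comm, ← mul_assoc]
  refine (mul_le_mul (mul_le_mul h1 h2 (by positivity) (Nat.cast_nonneg E))
    (h3.trans (add_le_add le_rfl h4)) (by positivity) (by positivity)).trans_eq ?_
  ring

theorem red_one (P : Par) (E H : ℕ) (b : Cl → Finset ℕ → Finset ℕ → ℕ → ℂ) (hb : Coef b)
    (hB : HB P.k0) (h0 : P.k0 ≤ P.k1 / 9) (h90 : 90 ≤ P.k1) (h5 : 5 * P.kw < P.k1)
    (hW : P.k1 ≤ P.kW) (hE : 1 ≤ E) (hH : 2 ^ (P.CW * P.kW) * E ≤ H) :
    ∃ (ι : Type) (D : Dat1 ι),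
      D.Ok (E * (1 + Real.log H) * (1 + (P.CW * P.kW : ℕ))) H (2 ^ (P.kW - 1))
        (2 ^ (P.k1 / 9 - 1)) ∧
      ∀ c : Cl, St c.1 c.2.1 P.kW → c.2.1 ≤ P.CW * P.kW → ∀ ξ : ℤ, ‖Ex P E H b c ξ‖ ≤ D.B c ξ := by
  have hI : ∀ i ∈ (jg3aD P E H b).I, i.1.1 ∈ IE P.kw E ∧ i.1.2 ∈ Icc 1 H ∧ i.2 ∈ jg3aG P :=
    fun i hi => ⟨(mem_product.1 (mem_product.1 hi).1).1, (mem_product.1 (mem_product.1 hi).1).2,
      (mem_product.1 hi).2⟩
  refine ⟨_, jg3aD P E H b, ⟨fun i => ?_, ?_, fun r hr => jg3a_sumd P E H b hr,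
    fun i hi => mem_Icc.1 (hI i hi).2.1, fun i hi => ?_, fun i hi r hr hd => ?_, fun p hp => ?_,
    jg3a_Ps hB h0 h90, fun c i p => ?_⟩, fun c hs ht ξ => ?_⟩
  · simp only [jg3aD]
    positivity
  · simpa using jg3a_sumd P E H b le_rfl
  · have h1 := jg3a_memE (hI i hi).1
    have h2 := jg3a_memG (hI i hi).2.2
    exact ⟨Nat.mul_pos (pr_pos fun p hp => (h2.1 p hp).1) (pr_pos fun p hp => (h1.1 p hp).1),
      (Nat.mul_le_mul h2.2 h1.2).trans hH⟩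
  · have h1 := jg3a_memE (hI i hi).1
    have h2 := jg3a_memG (hI i hi).2.2
    rcases (hr.dvd_mul).1 hd with h | h
    · exact (h2.1 r ((prime_dvd_pr (fun p hp => (h2.1 p hp).1) hr).1 h)).2
    · exact (h1.1 r ((prime_dvd_pr (fun p hp => (h1.1 p hp).1) hr).1 h)).2.trans_le
        (Nat.pow_le_pow_right two_pos (by omega))
  · obtain ⟨h1, h2, h3⟩ := mem_PP.1 hp
    exact ⟨h2, (le_kk_iff h2.ne_zero).1 h3, h1.trans_le (Nat.pow_le_pow_right two_pos (by omega))⟩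
  · simp only [jg3aD]
    split_ifs with h
    · refine ⟨(hb _ _ _ _).1, fun h1 => ?_⟩
      have h2 := (hb _ _ _ _).2 h1
      rwa [pr_insert h.2.1, mul_assoc] at h2
    · simp
  · have e : Ex P E H b c ξ = ∑ i ∈ (jg3aD P E H b).I, ((jg3aD P E H b).wt i : ℂ) *
        ∑ p ∈ (jg3aD P E H b).Pi, 1 / (p : ℂ) * (jg3aD P E H b).β c i p *
          ee ((jg3aD P E H b).h i * ξ / ((p : ℝ) * (jg3aD P E H b).Q i)) := by
      simp only [jg3aD]
      rw [Ex, sum_comm, sum_product, sum_product]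
      refine sum_congr rfl fun S _ => ?_
      rw [sum_comm]
      refine sum_congr rfl fun h _ => ?_
      rw [jg3a_key h5 hW hs ht]
      refine sum_congr rfl fun G _ => ?_
      rw [mul_sum]
      refine sum_congr rfl fun p _ => ?_
      split_ifs with h1
      · rw [pr_insert h1.2.1]
        push_cast
        rw [mul_assoc (p : ℝ)]
        ring
      · simp
    rw [e]
    refine norm_sum_le_of_le _ fun i _ => le_of_eq ?_
    rw [norm_mul, Complex.norm_real, Real.norm_of_nonneg]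
    simp only [jg3aD]
    positivity

end

end Pool.Agent.Jac
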