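import Pool.Agent.P.MP_45ff98_nt.JG1b

/-! Second rearrangement of the exponential sum. -/

namespace Pool.Agent.Jac
open Finset

noncomputable section

/-- A choice of `j` big primes. -/
def jg3bU (k1 j : ℕ) (T : Finset ℕ) : Fin j → ℕ :=
  if h : j ≤ (T.filter (fun q => k1 ≤ kk q)).card then orderEmbOfCardLe _ h else 0

open Classical in
/-- A choice of a middle prime. -/
def jg3bP (k1 : ℕ) (T : Finset ℕ) : ℕ :=
  if h : ∃ π ∈ T, kk π < k1 ∧ k1 ≤ 9 * kk π then h.choose else 0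

def jg3bG (k1 j : ℕ) (T : Finset ℕ) : Finset ℕ :=
  (T \ image (jg3bU k1 j T) univ).erase (jg3bP k1 T)

def jg3bA (k1 j : ℕ) (T : Finset ℕ) : ℕ := ∏ m, jg3bU k1 j T m

def jg3bK (k1 j sg : ℕ) (T : Finset ℕ) : Finset ℕ × (Fin j → ℕ) × ℕ :=
  (jg3bG k1 j T, fun m => jg3bU k1 j T m / sg, kk (jg3bP k1 T))

structure Jg3bN (P : Par) (j : ℕ) (T : Finset ℕ) : Prop where
  pm : ∀ p ∈ T, p.Prime ∧ p < 2 ^ P.kW
  sz : pr T ≤ 2 ^ (P.CW * P.kW)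
  big : j ≤ (T.filter (fun q => P.k1 ≤ kk q)).card
  mid : ∃ π ∈ T, kk π < P.k1 ∧ P.k1 ≤ 9 * kk π

def jg3bGrp (P : Par) (sg g : ℕ) : Finset ℕ := (PP P.k1 (2 ^ P.kW)).filter (fun r => r / sg = g)

def jg3bGG (P : Par) : Finset (Finset ℕ) :=
  (PP 0 (2 ^ P.kW)).powerset.filter (fun G => pr G ≤ 2 ^ (P.CW * P.kW))

def jg3bJ (P : Par) (j : ℕ) : Finset (Finset ℕ × (Fin j → ℕ) × ℕ) :=
  jg3bGG P ×ˢ (Fintype.piFinset fun _ => Ioc 0 (2 ^ P.kW)) ×ˢ Ico (P.k1 / 9) P.k1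

def jg3bS (P : Par) {j : ℕ} (sg : ℕ) (Γ : Fin j → ℕ) : Finset ℕ :=
  (Fintype.piFinset fun m => jg3bGrp P sg (Γ m)).image (fun v => ∏ m, v m)

open Classical in
def jg3bFam (P : Par) (j : ℕ) (c : Cl) : Finset (Finset ℕ) := (famW P c.1 c.2.1).filter (Jg3bN P j)

def jg3bFib (P : Par) (j sg : ℕ) (c : Cl) (g : Finset ℕ × (Fin j → ℕ) × ℕ) (p a : ℕ) :
    Finset (Finset ℕ) :=
  (((jg3bFam P j c).filter (fun T => jg3bK P.k1 j sg T = g)).filter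
    (fun T => jg3bP P.k1 T = p)).filter (fun T => jg3bA P.k1 j T = a)

def jg3bD (P : Par) (E H j sg : ℕ) (b : Cl → Finset ℕ → Finset ℕ → ℕ → ℂ) :
    Dat2 (Finset ℕ × ℕ × Finset ℕ × (Fin j → ℕ) × ℕ) where
  I := IE P.kw E ×ˢ Ioc 0 H ×ˢ jg3bJ P j
  wt i := 1 / (i.2.1 : ℝ) * (1 / (pr i.2.2.1 : ℝ) * ∏ m, 1 / (i.2.2.2.1 m : ℝ))
  h i := i.2.1
  Q i := pr i.2.2.1 * pr i.1
  Q1 i := ∏ m, pr (jg3bGrp P sg (i.2.2.2.1 m))
  kb i := i.2.2.2.2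
  A i := jg3bS P sg i.2.2.2.1
  σ := sg ^ j
  β c i a p := ∑ T ∈ jg3bFib P j sg c i.2.2 p a,
    b c T i.1 i.2.1 * (((sg ^ j * ∏ m, i.2.2.2.1 m : ℕ) : ℂ) / a)

section nice
variable {P : Par} {j sg : ℕ} {T : Finset ℕ}

theorem Jg3bN.u_mem (h : Jg3bN P j T) (m : Fin j) :
    jg3bU P.k1 j T m ∈ T ∧ P.k1 ≤ kk (jg3bU P.k1 j T m) := by
  rw [jg3bU, dif_pos h.big]
  exact mem_filter.1 (orderEmbOfCardLe_mem _ h.big m)

theorem Jg3bN.u_inj (h : Jg3bN P j T) : Function.Injective (jg3bU P.k1 j T) := by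
  rw [jg3bU, dif_pos h.big]
  exact (orderEmbOfCardLe _ h.big).injective

theorem Jg3bN.p_mem (h : Jg3bN P j T) :
    jg3bP P.k1 T ∈ T ∧ kk (jg3bP P.k1 T) < P.k1 ∧ P.k1 ≤ 9 * kk (jg3bP P.k1 T) := by
  rw [jg3bP, dif_pos h.mid]
  exact h.mid.choose_spec

theorem Jg3bN.pr_eq (h : Jg3bN P j T) :
    pr T = jg3bA P.k1 j T * jg3bP P.k1 T * pr (jg3bG P.k1 j T) := by
  have h1 : image (jg3bU P.k1 j T) univ ⊆ T := fun q hq => by
    obtain ⟨m, -, rfl⟩ := mem_image.1 hq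
    exact (h.u_mem m).1
  have h2 : jg3bP P.k1 T ∈ T \ image (jg3bU P.k1 j T) univ := by
    refine mem_sdiff.2 ⟨h.p_mem.1, fun hq => ?_⟩
    obtain ⟨m, -, e⟩ := mem_image.1 hq
    have h3 := (h.u_mem m).2
    have h4 := h.p_mem.2.1
    rw [e] at h3
    omega
  have h3 := prod_sdiff (f := fun q : ℕ => q) h1
  have h4 := mul_prod_erase _ (fun q : ℕ => q) h2
  have h5 : ∏ q ∈ image (jg3bU P.k1 j T) univ, q = jg3bA P.k1 j T :=
    prod_image fun _ _ _ _ e => h.u_inj e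
  rw [pr, pr, jg3bG, ← h3, ← h4, h5]
  ring

theorem Jg3bN.G_sub (_ : Jg3bN P j T) : jg3bG P.k1 j T ⊆ T :=
  (erase_subset _ _).trans sdiff_subset

theorem Jg3bN.K_mem (h : Jg3bN P j T) (hs : 1 ≤ sg) (hs1 : sg ≤ 2 ^ (P.k1 - 1)) :
    jg3bK P.k1 j sg T ∈ jg3bJ P j := by
  refine mem_product.2 ⟨mem_filter.2 ⟨mem_powerset.2 fun q hq => ?_, ?_⟩,
    mem_product.2 ⟨Fintype.mem_piFinset.2 fun m => ?_, ?_⟩⟩
  · have := h.pm q (h.G_sub hq)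
    exact mem_PP.2 ⟨this.2, this.1, Nat.zero_le _⟩
  · refine le_trans ?_ h.sz
    exact prod_le_prod_of_subset_of_one_le' h.G_sub fun q hq _ => (h.pm q hq).1.one_le
  · have h1 := h.pm _ (h.u_mem m).1
    have h2 := (le_kk_iff h1.1.ne_zero).1 (h.u_mem m).2
    exact mem_Ioc.2 ⟨Nat.div_pos (hs1.trans h2) hs, (Nat.div_le_self _ _).trans h1.2.le⟩
  · have h1 := h.p_mem.2
    refine mem_Ico.2 ⟨?_, h1.1⟩
    change P.k1 / 9 ≤ kk (jg3bP P.k1 T)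
    omega

theorem Jg3bN.A_mem (h : Jg3bN P j T) :
    jg3bA P.k1 j T ∈ jg3bS P sg (jg3bK P.k1 j sg T).2.1 := by
  refine mem_image.2 ⟨jg3bU P.k1 j T, Fintype.mem_piFinset.2 fun m => ?_, rfl⟩
  have h1 := h.pm _ (h.u_mem m).1
  exact mem_filter.2 ⟨mem_PP.2 ⟨h1.2, h1.1, (h.u_mem m).2⟩, rfl⟩

theorem jg3b_mem_fib {c : Cl} {g : Finset ℕ × (Fin j → ℕ) × ℕ} {p a : ℕ}
    (h : T ∈ jg3bFib P j sg c g p a) :
    Jg3bN P j T ∧ jg3bK P.k1 j sg T = g ∧ jg3bP P.k1 T = p ∧ jg3bA P.k1 j T = a := by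
  simp only [jg3bFib, jg3bFam, mem_filter] at h
  exact ⟨h.1.1.1.2, h.1.1.2, h.1.2, h.2⟩

theorem jg3b_fib_card (c : Cl) (g : Finset ℕ × (Fin j → ℕ) × ℕ) (p a : ℕ) :
    (jg3bFib P j sg c g p a).card ≤ 1 := by
  refine card_le_one.2 fun T hT T' hT' => ?_
  obtain ⟨h1, h2, h3, h4⟩ := jg3b_mem_fib hT
  obtain ⟨g1, g2, g3, g4⟩ := jg3b_mem_fib hT'
  have h5 : jg3bG P.k1 j T = jg3bG P.k1 j T' := congrArg Prod.fst (h2.trans g2.symm)
  refine pr_inj (fun q hq => (h1.pm q hq).1) (fun q hq => (g1.pm q hq).1) ?_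
  rw [h1.pr_eq, g1.pr_eq, h3, h4, g3, g4, h5]

theorem jg3b_grp_card (hs : 1 ≤ sg) (g : ℕ) : (jg3bGrp P sg g).card ≤ sg := by
  have h : jg3bGrp P sg g ⊆ Ico (sg * g) (sg * g + sg) := fun r hr => by
    obtain rfl := (mem_filter.1 hr).2
    exact mem_Ico.2 ⟨Nat.mul_div_le _ _, Nat.lt_mul_div_succ _ hs⟩
  simpa using card_le_card h

theorem jg3b_grp_mem {g r : ℕ} (h : r ∈ jg3bGrp P sg g) :
    r < 2 ^ P.kW ∧ r.Prime ∧ P.k1 ≤ kk r := mem_PP.1 (mem_filter.1 h).1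

theorem jg3b_fam (h5 : 5 * P.kw < P.k1) (hj : 7 * 2 ^ j * P.k1 ≤ P.kW) {c : Cl}
    (h1 : St c.1 c.2.1 P.kW) (h2 : c.2.1 ≤ P.CW * P.kW) : jg3bFam P j c = famW P c.1 c.2.1 := by
  classical
  refine filter_true_of_mem fun T hT => ?_
  have hk : P.k1 ≤ P.kW := le_trans (Nat.le_mul_of_pos_left _ (by positivity)) hj
  obtain ⟨h3, h4⟩ := mem_filter.1 hT
  have h6 : ∀ p ∈ T, p.Prime ∧ p < 2 ^ P.kW := fun p hp => by
    have := mem_PP.1 (mem_powerset.1 h3 hp)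
    exact ⟨this.2.1, this.1.trans_le (Nat.pow_le_pow_right (by norm_num) (Nat.sub_le _ _))⟩
  have h7 := (bd_state h1 (fun p hp => (kk_le_iff (h6 p hp).1.ne_zero).2 (h6 p hp).2) h4.1).1
  obtain ⟨π, g1, g2, g3, -⟩ := fam_pi h5 hk h1 hT
  exact ⟨h6, (pr_le_two_pow T).trans (Nat.pow_le_pow_right (by norm_num) (h7.trans h2)),
    fam_big h5 hj h1 hT, π, g1, g2, g3⟩

theorem jg3b_split (hs : 1 ≤ sg) (hs1 : sg ≤ 2 ^ (P.k1 - 1)) (c : Cl) (f : Finset ℕ → ℂ) :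
    ∑ T ∈ jg3bFam P j c, f T = ∑ g ∈ jg3bJ P j, ∑ p ∈ Box g.2.2, ∑ a ∈ jg3bS P sg g.2.1,
      ∑ T ∈ jg3bFib P j sg c g p a, f T := by
  classical
  have hN : ∀ T ∈ jg3bFam P j c, Jg3bN P j T := fun T hT => (mem_filter.1 hT).2
  rw [← sum_fiberwise_of_maps_to (g := jg3bK P.k1 j sg) fun T hT => (hN T hT).K_mem hs hs1]
  refine sum_congr rfl fun g _ => ?_
  rw [← sum_fiberwise_of_maps_to (g := jg3bP P.k1) (t := Box g.2.2) fun T hT => by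
    obtain ⟨h1, rfl⟩ := mem_filter.1 hT
    exact mem_Box.2 ⟨((hN T h1).pm _ (hN T h1).p_mem.1).1, rfl⟩]
  refine sum_congr rfl fun p _ => ?_
  rw [← sum_fiberwise_of_maps_to (g := jg3bA P.k1 j) (t := jg3bS P sg g.2.1) fun T hT => by
    obtain ⟨h1, rfl⟩ := mem_filter.1 (mem_filter.1 hT).1
    exact (hN T h1).A_mem]
  rfl

end nice

section main
variable {P : Par} {E H j sg y : ℕ} {b : Cl → Finset ℕ → Finset ℕ → ℕ → ℂ}

theorem jg3b_IE {S : Finset ℕ} (h : S ∈ IE P.kw E) : (∀ p ∈ S, p.Prime) ∧ pr S ≤ E :=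
  ⟨fun _ hp => (mem_PP.1 (mem_powerset.1 (mem_filter.1 h).1 hp)).2.1, (mem_filter.1 h).2⟩

theorem jg3b_GG {G : Finset ℕ} (h : G ∈ jg3bGG P) :
    (∀ p ∈ G, p.Prime) ∧ pr G ≤ 2 ^ (P.CW * P.kW) :=
  ⟨fun _ hp => (mem_PP.1 (mem_powerset.1 (mem_filter.1 h).1 hp)).2.1, (mem_filter.1 h).2⟩

theorem jg3b_log (n : ℕ) : Real.log ((2 ^ n : ℕ) : ℝ) ≤ n := by
  rw [Nat.cast_pow, Real.log_pow]
  have h1 : Real.log ((2 : ℕ) : ℝ) ≤ 1 := by
    have := Real.log_two_lt_d9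
    push_cast
    linarith
  exact mul_le_of_le_one_right (Nat.cast_nonneg _) h1

theorem jg3b_card : (jg3bD P E H j sg b).I.card ≤
    E * H * 2 ^ (P.CW * P.kW) * 2 ^ (P.kW * j) * P.k1 := by
  have h1 := card_le_of_pr_le (IE P.kw E) E fun _ => jg3b_IE
  have h2 := card_le_of_pr_le (jg3bGG P) _ fun _ => jg3b_GG
  simp only [jg3bD, jg3bJ, card_product, Fintype.card_piFinset, Nat.card_Ioc, Nat.card_Ico,
    Nat.sub_zero, prod_const, card_univ, Fintype.card_fin]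
  rw [pow_mul 2 P.kW j, mul_assoc, mul_assoc, mul_assoc]
  gcongr
  exact Nat.sub_le _ _

theorem jg3b_sum : ∑ i ∈ (jg3bD P E H j sg b).I, (jg3bD P E H j sg b).wt i ≤
    E * (1 + Real.log H) * (1 + (P.CW * P.kW : ℕ)) * (1 + P.kW) ^ j * P.k1 := by
  have h1 : ((IE P.kw E).card : ℝ) ≤ E := by
    exact_mod_cast card_le_of_pr_le (IE P.kw E) E fun _ => jg3b_IE
  have h2 := Pool.Agent.Lib.Sieve.sum_inv_Ioc_le H
  have h3 := (sum_inv_pr_le (jg3bGG P) _ fun _ => jg3b_GG).trans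
    (add_le_add le_rfl (jg3b_log (P.CW * P.kW)))
  have h4 := (Pool.Agent.Lib.Sieve.sum_inv_Ioc_le (2 ^ P.kW)).trans
    (add_le_add le_rfl (jg3b_log P.kW))
  have h5 : ∑ Γ ∈ Fintype.piFinset (fun _ : Fin j => Ioc (0 : ℕ) (2 ^ P.kW)),
      ∏ m, 1 / (Γ m : ℝ) ≤ (1 + P.kW) ^ j := by
    rw [← prod_univ_sum (fun _ : Fin j => Ioc 0 (2 ^ P.kW)) fun _ (v : ℕ) => 1 / (v : ℝ),
      prod_const, card_univ, Fintype.card_fin]
    exact pow_le_pow_left₀ (sum_nonneg fun _ _ => by positivity) h4 j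
  have h6 : ((Ico (P.k1 / 9) P.k1).card : ℝ) ≤ P.k1 := by
    rw [Nat.card_Ico]
    exact_mod_cast Nat.sub_le _ _
  have h7 : 0 ≤ 1 + Real.log H := le_trans (sum_nonneg fun _ _ => by positivity) h2
  have e : ∑ i ∈ (jg3bD P E H j sg b).I, (jg3bD P E H j sg b).wt i =
      (IE P.kw E).card * (∑ v ∈ Ioc 0 H, 1 / (v : ℝ)) * (∑ G ∈ jg3bGG P, 1 / (pr G : ℝ)) *
      (∑ Γ ∈ Fintype.piFinset (fun _ : Fin j => Ioc (0 : ℕ) (2 ^ P.kW)), ∏ m, 1 / (Γ m : ℝ)) *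
      (Ico (P.k1 / 9) P.k1).card := by
    simp only [jg3bD, jg3bJ, sum_product, sum_const, nsmul_eq_mul, ← mul_sum, ← sum_mul]
    ring
  rw [e]
  gcongr

theorem jg3b_ok (hb : Coef b) (hs : 1 ≤ sg) (hσ : 2 ^ P.k1 ≤ sg ^ j) (hH : H ≤ y)
    (hW : 2 ^ (P.kW * j) ≤ y) : (jg3bD P E H j sg b).Ok
      (E * (1 + Real.log H) * (1 + (P.CW * P.kW : ℕ)) * (1 + P.kW) ^ j * P.k1) y
      (2 ^ (P.CW * P.kW) * E * 2 ^ (P.kW * j * sg)) (P.k1 / 9) P.k1 := by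
  refine ⟨fun i => ?_, jg3b_sum, fun i hi => ?_, fun i hi => ?_, fun i hi => ?_, fun i _ => ?_,
    fun i hi p hp hd => ?_, fun c i a p => ?_, hσ⟩
  · simp only [jg3bD]
    positivity
  · have := mem_Ioc.1 (mem_product.1 (mem_product.1 hi).2).1
    exact ⟨this.1, this.2.trans hH⟩
  · have h1 := jg3b_IE (mem_product.1 hi).1
    have h2 := jg3b_GG (mem_product.1 (mem_product.1 (mem_product.1 hi).2).2).1
    dsimp only [jg3bD]
    refine ⟨Nat.mul_pos (pr_pos h2.1) (pr_pos h1.1),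
      prod_pos fun m _ => pr_pos fun r hr => (jg3b_grp_mem hr).2.1,
      Nat.mul_le_mul (Nat.mul_le_mul h2.2 h1.2) ?_⟩
    have h3 : ∀ g, pr (jg3bGrp P sg g) ≤ 2 ^ (P.kW * sg) := fun g =>
      (prod_le_pow_card _ _ _ fun r hr => (jg3b_grp_mem hr).1.le).trans (by
        rw [pow_mul]
        exact Nat.pow_le_pow_right (by positivity) (jg3b_grp_card hs g))
    refine (prod_le_pow_card _ _ _ fun m _ => h3 _).trans (le_of_eq ?_)
    rw [card_univ, Fintype.card_fin, ← pow_mul, mul_right_comm]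
  · exact mem_Ico.1 (mem_product.1 (mem_product.1 (mem_product.1 (mem_product.1 hi).2).2).2).2
  · refine ⟨card_image_le.trans ?_, fun a ha => ?_⟩
    · rw [Fintype.card_piFinset]
      refine (prod_le_pow_card _ _ _ fun m _ => jg3b_grp_card hs _).trans (le_of_eq ?_)
      rw [card_univ, Fintype.card_fin]
      rfl
    · obtain ⟨v, hv, rfl⟩ := mem_image.1 ha
      have h1 := Fintype.mem_piFinset.1 hv
      refine ⟨prod_pos fun m _ => (jg3b_grp_mem (h1 m)).2.1.pos, le_trans ?_ hW,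
        prod_dvd_prod_of_dvd _ _ fun m _ => dvd_prod_of_mem _ (h1 m)⟩
      refine (prod_le_pow_card _ _ _ fun m _ => (jg3b_grp_mem (h1 m)).1.le).trans (le_of_eq ?_)
      rw [card_univ, Fintype.card_fin, ← pow_mul]
  · have h1 := mem_Ico.1
      (mem_product.1 (mem_product.1 (mem_product.1 (mem_product.1 hi).2).2).2).2
    obtain ⟨h2, h3⟩ := mem_Box.1 hp
    dsimp only [jg3bD] at hd
    obtain ⟨m, -, hm⟩ := (Prime.dvd_finsetProd_iff h2.prime _).1 hd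
    have h4 := (jg3b_grp_mem ((prime_dvd_pr (fun r hr => (jg3b_grp_mem hr).2.1) h2).1 hm)).2.2
    have h5 : kk p = i.2.2.2.2 := h3
    omega
  · dsimp only [jg3bD]
    refine (norm_sum_le _ _).trans ((sum_le_card_nsmul _ _ 1 fun T hT => ?_).trans ?_)
    · obtain ⟨-, h2, -, h4⟩ := jg3b_mem_fib hT
      rw [norm_mul, norm_div, Complex.norm_natCast, Complex.norm_natCast]
      refine mul_le_one₀ (hb c T _ _).1 (by positivity) (div_le_one_of_le₀ ?_ (by positivity))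
      have h5 : sg ^ j * ∏ m, i.2.2.2.1 m = ∏ m, sg * i.2.2.2.1 m := by
        rw [prod_mul_distrib, prod_const, card_univ, Fintype.card_fin]
      rw [Nat.cast_le, h5, ← h4, ← h2]
      exact prod_le_prod' fun m _ => Nat.mul_div_le _ _
    · rw [nsmul_eq_mul, mul_one]
      exact_mod_cast jg3b_fib_card c i.2.2 p a

theorem jg3b_ex (hs : 1 ≤ sg) (hs1 : sg ≤ 2 ^ (P.k1 - 1)) {c : Cl}
    (hc : jg3bFam P j c = famW P c.1 c.2.1) (ξ : ℤ) :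
    Ex P E H b c ξ = ∑ i ∈ (jg3bD P E H j sg b).I, ((jg3bD P E H j sg b).wt i : ℂ) *
      ∑ p ∈ Box ((jg3bD P E H j sg b).kb i), 1 / (p : ℂ) * (jg3bD P E H j sg b).F c i p ξ := by
  have hI : Icc 1 H = Ioc 0 H := by
    ext v
    simp only [mem_Icc, mem_Ioc]
    omega
  rw [Ex, ← hc, sum_comm, hI]
  change _ = ∑ i ∈ IE P.kw E ×ˢ Ioc 0 H ×ˢ jg3bJ P j, _
  rw [sum_product]
  refine sum_congr rfl fun S _ => ?_
  rw [sum_comm, sum_product]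
  refine sum_congr rfl fun h hh => ?_
  rw [jg3b_split hs hs1]
  refine sum_congr rfl fun g hg => ?_
  simp only [jg3bD, Dat2.F, mul_sum, sum_mul]
  refine sum_congr rfl fun p hp => sum_congr rfl fun a _ => sum_congr rfl fun T hT => ?_
  obtain ⟨h1, h2, h3, h4⟩ := jg3b_mem_fib hT
  have h5 : jg3bG P.k1 j T = g.1 := congrArg Prod.fst h2
  have h6 := h1.pr_eq
  rw [h3, h4, h5] at h6
  have h7 : (∏ m, (g.2.1 m : ℂ)) ≠ 0 := prod_ne_zero_iff.2 fun m _ => by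
    have := (mem_Ioc.1 (Fintype.mem_piFinset.1 (mem_product.1 (mem_product.1 hg).2).1 m)).1
    exact Nat.cast_ne_zero.2 this.ne'
  have h8 : (sg : ℂ) ≠ 0 := Nat.cast_ne_zero.2 (by omega)
  have e : (h : ℝ) * ξ / ((pr T : ℝ) * pr S) = h * ξ / ((a : ℝ) * p * (pr g.1 * pr S : ℕ)) := by
    rw [h6]
    push_cast
    ring
  rw [e, h6]
  push_cast
  rw [prod_div_distrib, prod_const_one]
  field_simp

end main

set_option linter.unusedVariables false in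
theorem red_two (P : Par) (E H j sg y : ℕ) (b : Cl → Finset ℕ → Finset ℕ → ℕ → ℂ) (hb : Coef b)
    (h5 : 5 * P.kw < P.k1) (hj : 7 * 2 ^ j * P.k1 ≤ P.kW) (hs : 1 ≤ sg)
    (hs1 : sg ≤ 2 ^ (P.k1 - 1)) (hσ : 2 ^ P.k1 ≤ sg ^ j) (hE : 1 ≤ E) (hH : H ≤ y)
    (hW : 2 ^ (P.kW * j) ≤ y) :
    ∃ (ι : Type) (D : Dat2 ι),
      D.Ok (E * (1 + Real.log H) * (1 + (P.CW * P.kW : ℕ)) * (1 + P.kW) ^ j * P.k1) y
        (2 ^ (P.CW * P.kW) * E * 2 ^ (P.kW * j * sg)) (P.k1 / 9) P.k1 ∧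
      D.I.card ≤ E * H * 2 ^ (P.CW * P.kW) * 2 ^ (P.kW * j) * P.k1 ∧
      ∀ c : Cl, St c.1 c.2.1 P.kW → c.2.1 ≤ P.CW * P.kW → ∀ ξ : ℤ, ‖Ex P E H b c ξ‖ ≤ D.B c ξ := by
  refine ⟨_, jg3bD P E H j sg b, jg3b_ok hb hs hσ hH hW, jg3b_card, fun c h1 h2 ξ => ?_⟩
  rw [jg3b_ex hs hs1 (jg3b_fam h5 hj h1 h2)]
  refine (norm_sum_le _ _).trans (sum_le_sum fun i _ => ?_)
  have h0 := (jg3b_ok (E := E) hb hs hσ hH hW).wt0 i
  rw [norm_mul, Complex.norm_real, Real.norm_of_nonneg h0]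
  refine mul_le_mul_of_nonneg_left ((norm_sum_le _ _).trans (le_of_eq ?_)) h0
  refine sum_congr rfl fun p _ => ?_
  rw [norm_mul, norm_div, norm_one, Complex.norm_natCast]

end

end Pool.Agent.Jac
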