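import Pool.Agent.P.MP_45ff98_nt.JBase

/-! The fibre lemma. -/

namespace Pool.Agent.Jac
open Finset

noncomputable section

theorem JFib_avg (A : Finset (Finset ℕ)) (win : ℕ → Prop) [DecidablePred win] (G : Finset ℕ → ℝ)
    (hprime : ∀ T ∈ A, ∀ q ∈ T, q.Prime) (hne : ∀ T ∈ A, ∃ q ∈ T, win (kk q))
    (hinv : ∀ T ∈ A, ∀ q ∈ T, win (kk q) → ∀ q' ∈ Box (kk q), q' ∉ T.erase q →
      insert q' (T.erase q) ∈ A)
    (h : ∀ T ∈ A, ∀ q ∈ T, win (kk q) →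
      0 ≤ ∑ q' ∈ Box (kk q) \ T.erase q, G (insert q' (T.erase q))) : 0 ≤ ∑ T ∈ A, G T := by
  have e : ∑ T ∈ A, G T = ∑ p ∈ A.sigma (fun T => T.filter fun q => win (kk q)),
      G p.1 / ((((p.1.erase p.2).filter fun q => win (kk q)).card : ℝ) + 1) := by
    rw [sum_sigma]
    refine sum_congr rfl fun T hT => ?_
    obtain ⟨q0, h0, h1⟩ := hne T hT
    have h2 : (0 : ℝ) < ((T.filter fun q => win (kk q)).card : ℝ) := by
      exact_mod_cast card_pos.2 ⟨q0, mem_filter.2 ⟨h0, h1⟩⟩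
    have h3 : ∀ q ∈ T.filter fun q => win (kk q),
        G T / ((((T.erase q).filter fun q => win (kk q)).card : ℝ) + 1) =
          G T / ((T.filter fun q => win (kk q)).card : ℝ) := fun q hq => by
      rw [filter_erase, ← card_erase_add_one hq]
      push_cast
      rfl
    rw [sum_congr rfl h3, sum_const, nsmul_eq_mul, mul_div_cancel₀ _ h2.ne']
  rw [e, ← sum_fiberwise_of_maps_to (g := fun p : Σ _ : Finset ℕ, ℕ => (p.1.erase p.2, kk p.2))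
    (fun p hp => mem_image_of_mem _ hp)]
  refine sum_nonneg fun j hj => ?_
  obtain ⟨⟨T, q⟩, hp, rfl⟩ := mem_image.1 hj
  obtain ⟨hT, hq⟩ := mem_sigma.1 hp
  obtain ⟨hq, hw⟩ := mem_filter.1 hq
  dsimp only at hT hq hw ⊢
  refine (div_nonneg (h T hT q hq hw)
    (b := ((((T.erase q).filter fun q => win (kk q)).card : ℝ) + 1)) (by positivity)).trans_eq ?_
  rw [sum_div]
  symm
  refine sum_nbij' (fun p => p.2) (fun q' => ⟨insert q' (T.erase q), q'⟩) ?_ ?_ ?_ ?_ ?_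
  · rintro ⟨T', q'⟩ hp'
    obtain ⟨h1, h2⟩ := mem_filter.1 hp'
    obtain ⟨h3, h4⟩ := mem_sigma.1 h1
    obtain ⟨h5, h6⟩ := Prod.mk.inj h2
    refine mem_sdiff.2 ⟨mem_Box.2 ⟨hprime _ h3 _ (mem_filter.1 h4).1, h6⟩, ?_⟩
    rw [← h5]
    exact notMem_erase _ _
  · intro q' hq'
    obtain ⟨h1, h2⟩ := mem_sdiff.1 hq'
    have h3 := (mem_Box.1 h1).2
    refine mem_filter.2 ⟨mem_sigma.2 ⟨hinv T hT q hq hw q' h1 h2,
      mem_filter.2 ⟨mem_insert_self _ _, h3 ▸ hw⟩⟩, ?_⟩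
    dsimp only
    rw [erase_insert h2, h3]
  · rintro ⟨T', q'⟩ hp'
    obtain ⟨h1, h2⟩ := mem_filter.1 hp'
    obtain ⟨h3, h4⟩ := mem_sigma.1 h1
    obtain ⟨h5, h6⟩ := Prod.mk.inj h2
    dsimp only at h3 h4 h5 ⊢
    rw [← h5, insert_erase (mem_filter.1 h4).1]
  · intro q' _
    rfl
  · rintro ⟨T', q'⟩ hp'
    obtain ⟨h1, h2⟩ := mem_filter.1 hp'
    obtain ⟨h3, h4⟩ := mem_sigma.1 h1
    obtain ⟨h5, h6⟩ := Prod.mk.inj h2
    dsimp only at h3 h4 h5 ⊢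
    rw [← h5, insert_erase (mem_filter.1 h4).1]

theorem JFib_win {lo : ℕ → ℕ} (hlo : Monotone lo) {k k' x : ℕ} (h : lo k ≤ x ∧ x < lo (k + 1))
    (h' : lo k' ≤ x ∧ x < lo (k' + 1)) : k = k' := by
  rcases lt_trichotomy k k' with e | e | e
  · have := hlo (show k + 1 ≤ k' from e)
    omega
  · exact e
  · have := hlo (show k' + 1 ≤ k from e)
    omega

/-- the exceptional sets of window `k` -/
def JFibE {ι : Type} (Col : ι → ℕ → Prop) (lo : ℕ → ℕ) (k : ℕ) (T : Finset ℕ) : Prop :=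
  ∃ q ∈ T, (lo k ≤ kk q ∧ kk q < lo (k + 1)) ∧ ∃ i, (∀ r ∈ T.erase q, Col i r) ∧ ¬ Col i q

theorem JFib_disj {ι : Type} {Col : ι → ℕ → Prop} {K0 : ℕ} {lo : ℕ → ℕ} (hK : 3 ≤ K0)
    (hlo : Monotone lo) (huniq : ∀ i i' r, Col i r → Col i' r → i = i') {T : Finset ℕ}
    (hwin : ∀ k < K0, ∃ q ∈ T, lo k ≤ kk q ∧ kk q < lo (k + 1)) {k k' : ℕ}
    (h : JFibE Col lo k T) (h' : JFibE Col lo k' T) : k = k' := by
  by_contra hne
  obtain ⟨q, hq, hw, i, h1, h2⟩ := h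
  obtain ⟨q', hq', hw', i', h1', h2'⟩ := h'
  obtain ⟨m, hm, m1, m2⟩ : ∃ m < K0, m ≠ k ∧ m ≠ k' := by
    by_cases a0 : 0 ≠ k ∧ 0 ≠ k'
    · exact ⟨0, by omega, a0⟩
    by_cases a1 : 1 ≠ k ∧ 1 ≠ k'
    · exact ⟨1, by omega, a1⟩
    exact ⟨2, by omega, by omega⟩
  obtain ⟨r, hr, hwr⟩ := hwin m hm
  have e1 : r ≠ q := fun e => m1 (JFib_win hlo hwr (e ▸ hw))
  have e2 : r ≠ q' := fun e => m2 (JFib_win hlo hwr (e ▸ hw'))
  have e3 : q' ≠ q := fun e => hne (JFib_win hlo hw (e ▸ hw'))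
  have e4 := huniq _ _ _ (h1 r (mem_erase.2 ⟨e1, hr⟩)) (h1' r (mem_erase.2 ⟨e2, hr⟩))
  exact h2' (e4 ▸ h1 q' (mem_erase.2 ⟨e3, hq'⟩))

open Classical in
theorem fibre {ι : Type} (A : Finset (Finset ℕ)) (w g : Finset ℕ → ℝ) (Col : ι → ℕ → Prop)
    (K0 : ℕ) (lo : ℕ → ℕ) (cS CU : ℝ) (vg : ι → Finset ℕ → ℝ) (hK : 3 ≤ K0) (hlo : Monotone lo)
    (hS : 0 ≤ cS) (hU : 0 ≤ CU) (hw : ∀ T, 0 ≤ w T) (hg : ∀ T, 0 ≤ g T)
    (huniq : ∀ i i' r, Col i r → Col i' r → i = i') (hprime : ∀ T ∈ A, ∀ q ∈ T, q.Prime)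
    (hwin : ∀ T ∈ A, ∀ k < K0, ∃ q ∈ T, lo k ≤ kk q ∧ kk q < lo (k + 1))
    (hinv : ∀ T ∈ A, ∀ q ∈ T, lo 0 ≤ kk q → kk q < lo K0 → ∀ q' ∈ Box (kk q), q' ∉ T.erase q →
      insert q' (T.erase q) ∈ A)
    (htrue : ∀ T ∈ A, ∀ i, (∀ r ∈ T, Col i r) → vg i T ≤ g T)
    (hup : ∀ T ∈ A, ∀ i, (∃ r, Col i r) → vg i T ≤ CU * w T)
    (hlow : ∀ T ∈ A, ∀ i, ∀ q ∈ T, lo 0 ≤ kk q → kk q < lo K0 → (∃ r, Col i r) →
      (∀ r ∈ T.erase q, Col i r) →
      cS * ∑ q' ∈ Box (kk q) \ T.erase q, w (insert q' (T.erase q)) ≤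
        ∑ q' ∈ Box (kk q) \ T.erase q, vg i (insert q' (T.erase q))) :
    cS * ∑ T ∈ A.filter (fun T => ∃ i, ∀ r ∈ T, Col i r), w T - CU / K0 * ∑ T ∈ A, w T ≤
      ∑ T ∈ A, g T := by
  have hK0 : (0 : ℝ) < K0 := by exact_mod_cast (show 0 < K0 by omega)
  have h1 : ∑ k ∈ range K0, ∑ T ∈ A, (if JFibE Col lo k T then w T else 0) ≤
      ∑ k ∈ range K0, (∑ T ∈ A, w T) / K0 := by
    rw [sum_const, card_range, nsmul_eq_mul, mul_div_cancel₀ _ hK0.ne', sum_comm]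
    refine sum_le_sum fun T hT => ?_
    rw [← sum_filter, sum_const, nsmul_eq_mul]
    have h2 : ((range K0).filter fun k => JFibE Col lo k T).card ≤ 1 :=
      card_le_one.2 fun k hk k' hk' =>
        JFib_disj hK hlo huniq (hwin T hT) (mem_filter.1 hk).2 (mem_filter.1 hk').2
    exact mul_le_of_le_one_left (hw T) (by exact_mod_cast h2)
  obtain ⟨k, hk, h2⟩ := exists_le_of_sum_le ⟨0, mem_range.2 (by omega)⟩ h1
  have hk' := mem_range.1 hk
  have w0 : ∀ {x}, lo k ≤ x ∧ x < lo (k + 1) → lo 0 ≤ x ∧ x < lo K0 := fun h =>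
    ⟨(hlo (Nat.zero_le k)).trans h.1, h.2.trans_le (hlo hk')⟩
  have h3 := JFib_avg A (fun x => lo k ≤ x ∧ x < lo (k + 1))
    (fun T => g T - cS * (if ∃ i, ∀ r ∈ T, Col i r then w T else 0) +
      CU * (if JFibE Col lo k T then w T else 0)) hprime (fun T hT => hwin T hT k hk')
    (fun T hT q hq h => hinv T hT q hq (w0 h).1 (w0 h).2) fun T hT q hq h => by
      have p1 : ∀ T', 0 ≤ CU * (if JFibE Col lo k T' then w T' else 0) := fun T' =>
        mul_nonneg hU (by split_ifs; exacts [hw _, le_rfl])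
      by_cases hp : ∃ i, ∀ r ∈ T.erase q, Col i r
      · obtain ⟨i, hi⟩ := hp
        obtain ⟨m, hm, m1⟩ : ∃ m < K0, m ≠ k := by
          by_cases a0 : 0 ≠ k
          · exact ⟨0, by omega, a0⟩
          · exact ⟨1, by omega, by omega⟩
        obtain ⟨r, hr, hwr⟩ := hwin T hT m hm
        have hc : ∃ r, Col i r :=
          ⟨r, hi r (mem_erase.2 ⟨fun e => m1 (JFib_win hlo hwr (e ▸ h)), hr⟩)⟩
        have h4 := hlow T hT i q hq (w0 h).1 (w0 h).2 hc hi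
        rw [mul_sum, ← sub_nonneg, ← sum_sub_distrib] at h4
        refine h4.trans (sum_le_sum fun q' hq' => ?_)
        obtain ⟨b1, b2⟩ := mem_sdiff.1 hq'
        have b3 := hinv T hT q hq (w0 h).1 (w0 h).2 q' b1 b2
        have b4 : cS * (if ∃ i, ∀ r ∈ insert q' (T.erase q), Col i r then
            w (insert q' (T.erase q)) else 0) ≤ cS * w (insert q' (T.erase q)) :=
          mul_le_mul_of_nonneg_left (by split_ifs; exacts [le_rfl, hw _]) hS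
        by_cases b5 : Col i q'
        · have b6 := htrue _ b3 i fun r hr => (mem_insert.1 hr).elim (fun e => e ▸ b5) (hi r)
          have b7 := p1 (insert q' (T.erase q))
          linarith
        · have b6 := hup _ b3 i hc
          have b7 : JFibE Col lo k (insert q' (T.erase q)) :=
            ⟨q', mem_insert_self _ _, (mem_Box.1 b1).2 ▸ h, i, by rwa [erase_insert b2], b5⟩
          have b8 := hg (insert q' (T.erase q))
          rw [if_pos b7]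
          linarith
      · refine sum_nonneg fun q' _ => ?_
        rw [if_neg fun ⟨i, hi⟩ => hp ⟨i, fun r hr => hi r (mem_insert_of_mem hr)⟩]
        have b7 := p1 (insert q' (T.erase q))
        have b8 := hg (insert q' (T.erase q))
        linarith
  rw [sum_add_distrib, sum_sub_distrib, ← mul_sum, ← mul_sum] at h3
  have h5 := mul_le_mul_of_nonneg_left h2 hU
  rw [sum_filter, div_mul_eq_mul_div, mul_div_assoc]
  linarith

end

end Pool.Agent.Jac
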