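import Pool.Agent.P.MP_45ff98_nt.JBase

/-! Collinear points and reduced fractions. -/

namespace Pool.Agent.Jac
open Finset

noncomputable section

theorem ji3_cong {A : Finset ℕ} {f : ℕ → ℤ} {m y : ℤ} {n0 : ℕ} (hm : 0 < m) (hA : n0 < A.card)
    (hi : Set.InjOn f A) (hb : ∀ n ∈ A, 0 ≤ f n ∧ f n ≤ y)
    (hd : ∀ n ∈ A, ∀ n' ∈ A, m ∣ f n' - f n) : m * n0 ≤ y := by
  have h1 : A.card ≤ (Icc (0 : ℤ) (y / m)).card := by
    refine card_le_card_of_injOn (fun n => f n / m) (fun n hn => ?_) fun n hn n' hn' e => ?_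
    · exact mem_coe.2 (mem_Icc.2 ⟨Int.ediv_nonneg (hb n hn).1 hm.le,
        Int.ediv_le_ediv hm (hb n hn).2⟩)
    · have e1 : f n % m = f n' % m := Int.modEq_iff_dvd.2 (hd n hn n' hn')
      have e2 : f n / m = f n' / m := e
      refine hi hn hn' ?_
      rw [← Int.mul_ediv_add_emod (f n) m, e1, e2, Int.mul_ediv_add_emod]
  rw [Int.card_Icc] at h1
  rw [mul_comm, ← Int.le_ediv_iff_mul_le hm]
  omega

theorem ji3_dir {a : ℤ} (ha : a ≠ 0) (b : ℤ) :
    ∃ D V u : ℤ, D ≠ 0 ∧ 0 < V ∧ IsCoprime V u ∧ a = D * V ∧ b = -(D * u) := by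
  obtain ⟨d, a', b', hd, h1, h2, h3⟩ := Int.exists_gcd_one' (Int.gcd_pos_of_ne_zero_left b ha)
  have hc := Int.isCoprime_iff_gcd_eq_one.2 h1
  have hd' : (d : ℤ) ≠ 0 := by exact_mod_cast hd.ne'
  have ha' : a' ≠ 0 := fun h => ha (by rw [h2, h, zero_mul])
  rcases lt_or_gt_of_ne ha' with h | h
  · exact ⟨-d, -a', b', neg_ne_zero.2 hd', neg_pos.2 h, hc.neg_left, by rw [h2]; ring,
      by rw [h3]; ring⟩
  · exact ⟨d, a', -b', hd', h, hc.neg_right, by rw [h2]; ring, by rw [h3]; ring⟩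

theorem ji3_rem (N : ℤ) {n y : ℕ} (h1 : 1 ≤ n) (h2 : n ≤ y) : 0 ≤ N % n ∧ N % n ≤ y := by
  have h0 : (0 : ℤ) < n := by exact_mod_cast h1
  have := Int.emod_lt_of_pos N h0
  exact ⟨Int.emod_nonneg N h0.ne', by omega⟩

theorem line (N : ℤ) (y L : ℕ) (hy : y ≤ 2 ^ L) (c c' : ℕ) (hc : 1 ≤ c ∧ c ≤ y)
    (hc' : 1 ≤ c' ∧ c' ≤ y) (hne : c ≠ c') :
    ∃ (v g : ℕ) (u R : ℤ), 1 ≤ v ∧ 1 ≤ g ∧ IsCoprime (v : ℤ) R ∧
      (∀ n : ℕ, 1 ≤ n → n ≤ y → ∀ S : Finset ℕ, 2 * L + 2 ≤ S.card →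
        (∀ p ∈ S, p.Prime ∧ N / n % p = N / c % p ∧ N / n % p = N / c' % p) →
        g * v * (N % n) + u * n = g * R) ∧
      (∀ S : Finset ℕ, (∀ p ∈ S, p.Prime ∧ N / c % p = N / c' % p) →
        S.card ≤ (S.filter (fun p : ℕ => (p : ℤ) ∣ v * N - R)).card + 2 * L) ∧
      (∀ n : ℕ, g * v * (N % n) + u * n = g * R → (n : ℤ) ∣ g * (v * N - R)) ∧
      (∀ (A : Finset ℕ) (n0 : ℕ), n0 < A.card →
        (∀ n ∈ A, 1 ≤ n ∧ n ≤ y ∧ g * v * (N % n) + u * n = g * R) →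
        v * g * n0 ≤ y ∧ |R| * n0 ≤ 2 * (y : ℤ) ^ 2) := by
  obtain ⟨D, V, u, hD, hV, hVu, ha, hb⟩ := ji3_dir (a := (c' : ℤ) - c) (by omega) (N % c' - N % c)
  obtain ⟨g, v', R, hg, h1, h2, h3⟩ :=
    Int.exists_gcd_one' (Int.gcd_pos_of_ne_zero_left (V * (N % c) + u * c) hV.ne')
  have hg' : (0 : ℤ) < g := by exact_mod_cast hg
  have hv' : 0 < v' := (mul_pos_iff_of_pos_right hg').1 (h2 ▸ hV)
  obtain ⟨v, rfl⟩ := Int.eq_ofNat_of_zero_le hv'.le
  have hy' : (y : ℤ) ≤ 2 ^ L := by exact_mod_cast hy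
  have hy0 : (0 : ℤ) ≤ y := by positivity
  have hyy : (y : ℤ) * y ≤ 2 ^ (2 * L) := by
    rw [two_mul, pow_add]; exact mul_le_mul hy' hy' hy0 (by positivity)
  have r1 := ji3_rem N hc.1 hc.2
  have r2 := ji3_rem N hc'.1 hc'.2
  have e1 := Int.mul_ediv_add_emod N c
  have e2 := Int.mul_ediv_add_emod N c'
  have ba : |(c' : ℤ) - c| ≤ y := abs_le.2 ⟨by omega, by omega⟩
  refine ⟨v, g, u, R, by exact_mod_cast hv', hg, Int.isCoprime_iff_gcd_eq_one.2 h1,
    fun n n1 n2 S hS h => ?_, fun S h => ?_, fun n h => ?_, fun A n0 hA h => ?_⟩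
  · have r3 := ji3_rem N n1 n2
    have e3 := Int.mul_ediv_add_emod N n
    by_contra hn
    have e : (c' - c) * (N % n - N % c) - (N % c' - N % c) * (n - c) =
        D * (g * v * (N % n) + u * n - g * R) := by
      rw [ha, hb]; linear_combination D * (N % n) * h2 - D * h3
    have := card_primes_dvd S ((c' - c) * (N % n - N % c) - (N % c' - N % c) * (n - c))
      (2 * L + 1) (e ▸ mul_ne_zero hD (sub_ne_zero.2 hn)) ?_ fun p hp => ⟨(h p hp).1, ?_⟩
    · omega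
    · have b1 : |N % n - N % c| ≤ y := abs_le.2 ⟨by omega, by omega⟩
      have b2 : |N % c' - N % c| ≤ y := abs_le.2 ⟨by omega, by omega⟩
      have b3 : |(n : ℤ) - c| ≤ y := abs_le.2 ⟨by omega, by omega⟩
      refine (abs_sub _ _).trans ?_
      rw [abs_mul, abs_mul, pow_succ]
      linarith [mul_le_mul ba b1 (abs_nonneg _) hy0, mul_le_mul b2 b3 (abs_nonneg _) hy0]
    · obtain ⟨k, hk⟩ := Int.modEq_iff_dvd.1 (h p hp).2.1
      obtain ⟨k', hk'⟩ := Int.modEq_iff_dvd.1 (h p hp).2.2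
      exact ⟨(c' - c) * c * k - (c * k - c' * k') * (n - c), by
        linear_combination (c' - c) * (e3 - e1) - (n - c) * (e2 - e1) +
          ((c' - c) * c - c * (n - c)) * hk + c' * (n - c) * hk'⟩
  · have b1 : |D * g| ≤ 2 ^ (2 * L) := by
      rw [ha, abs_mul, abs_of_pos hV] at ba
      have b2 : (g : ℤ) ≤ V := by rw [h2]; nlinarith
      have b3 : 1 ≤ |D| := Int.one_le_abs hD
      rw [abs_mul, abs_of_pos hg']
      nlinarith
    have b4 := card_primes_dvd (S.filter fun p : ℕ => ¬ (p : ℤ) ∣ v * N - R) (D * g) (2 * L)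
      (mul_ne_zero hD hg'.ne') b1 fun p hp => by
        obtain ⟨hp1, hp2⟩ := mem_filter.1 hp
        obtain ⟨k, hk⟩ := Int.modEq_iff_dvd.1 (h p hp1).2
        refine ⟨(h p hp1).1, ((Nat.prime_iff_prime_int.1 (h p hp1).1).dvd_or_dvd
          (b := v * N - R) ⟨-(c * c' * k), ?_⟩).resolve_right hp2⟩
        linear_combination (-D * N) * h2 + D * h3 - (D * V) * e1 - (c * (N / c)) * ha - c * hb +
          c * (e2 - e1) - c * c' * hk
    rw [← card_filter_add_card_filter_not (s := S) fun p : ℕ => (p : ℤ) ∣ v * N - R]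
    omega
  · exact ⟨g * v * (N / n) - u, by
      linear_combination h - g * v * Int.mul_ediv_add_emod N n⟩
  · have k : ∀ n ∈ A, ∀ n' ∈ A, V * (N % n' - N % n) = -(u * (n' - n)) := fun n hn n' hn' => by
      linear_combination (h n' hn').2.2 - (h n hn).2.2 + (N % n' - N % n) * h2
    have a1 : V * n0 ≤ y := ji3_cong (f := fun n => (n : ℤ)) hV hA Nat.cast_injective.injOn
      (fun n hn => ⟨by positivity, by exact_mod_cast (h n hn).2.1⟩) fun n hn n' hn' =>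
        hVu.dvd_of_dvd_mul_left (dvd_neg.1 ⟨_, (k n hn n' hn').symm⟩)
    have a2 : |u| * n0 ≤ y := by
      by_cases hu : u = 0
      · simp [hu]
      refine ji3_cong (f := fun n => N % n) (abs_pos.2 hu) hA (fun n hn n' hn' e => ?_)
        (fun n hn => ji3_rem N (h n hn).1 (h n hn).2.1) fun n hn n' hn' => (abs_dvd _ _).2
          (hVu.symm.dvd_of_dvd_mul_left ⟨-(n' - n), by rw [k n hn n' hn']; ring⟩)
      have := k n hn n' hn'
      rw [show N % n = N % n' from e, sub_self, mul_zero, eq_comm, neg_eq_zero, mul_eq_zero,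
        or_iff_right hu] at this
      omega
    refine ⟨by rw [h2] at a1; exact_mod_cast a1, ?_⟩
    obtain ⟨n, hn⟩ := card_pos.1 (Nat.zero_lt_of_lt hA)
    obtain ⟨n1, n2, n3⟩ := h n hn
    have r3 := ji3_rem N n1 n2
    have n2' : (n : ℤ) ≤ y := by exact_mod_cast n2
    have a3 : |R| ≤ V * y + |u| * y := by
      have a4 : |R| ≤ |g * R| := by
        rw [abs_mul, abs_of_pos hg']; exact le_mul_of_one_le_left (abs_nonneg _) hg'
      rw [← n3, mul_comm (g : ℤ), ← h2] at a4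
      refine a4.trans ((abs_add_le _ _).trans (add_le_add ?_ ?_))
      · rw [abs_of_nonneg (mul_nonneg hV.le r3.1)]; exact mul_le_mul_of_nonneg_left r3.2 hV.le
      · rw [abs_mul, Nat.abs_cast]; exact mul_le_mul_of_nonneg_left n2' (abs_nonneg _)
    nlinarith [mul_le_mul_of_nonneg_right a3 (Int.natCast_nonneg n0),
      mul_le_mul_of_nonneg_right a1 hy0, mul_le_mul_of_nonneg_right a2 hy0]

theorem frac_share (N : ℤ) (y L : ℕ) (hy : y ≤ 2 ^ L) (hL : 1 ≤ L) (s s' : ℕ × ℤ) (hne : s ≠ s')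
    (h : Fr y s) (h' : Fr y s') (S : Finset ℕ)
    (hS : ∀ p ∈ S, p.Prime ∧ (p : ℤ) ∣ nf N s ∧ (p : ℤ) ∣ nf N s') : S.card ≤ 5 * L := by
  obtain ⟨v, R⟩ := s
  obtain ⟨v', R'⟩ := s'
  obtain ⟨a1, a2, a3, a4⟩ := h
  obtain ⟨b1, b2, b3, b4⟩ := h'
  simp only [nf] at *
  refine (card_primes_dvd S (v * R' - v' * R) (3 * L + 2) (fun e => hne ?_) ?_
    fun p hp => ⟨(hS p hp).1, ?_⟩).trans (by omega)
  · have e1 : (v : ℤ) ∣ v' := a4.dvd_of_dvd_mul_right ⟨R', by linear_combination -e⟩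
    have e2 : (v' : ℤ) ∣ v := b4.dvd_of_dvd_mul_right ⟨R, by linear_combination e⟩
    obtain rfl : v = v' := Nat.dvd_antisymm (by exact_mod_cast e1) (by exact_mod_cast e2)
    have hv : (v : ℤ) ≠ 0 := by omega
    rw [mul_left_cancel₀ hv (sub_eq_zero.1 e)]
  · have hy' : (y : ℤ) ≤ 2 ^ L := by exact_mod_cast hy
    have c1 := pow_le_pow_left₀ (Int.natCast_nonneg y) hy' 3
    have c2 : (v : ℤ) ≤ y := by exact_mod_cast a2
    have c3 : (v' : ℤ) ≤ y := by exact_mod_cast b2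
    refine (abs_sub _ _).trans ?_
    rw [abs_mul, abs_mul, Nat.abs_cast, Nat.abs_cast, pow_add, mul_comm 3, pow_mul]
    linarith [mul_le_mul c2 b3 (abs_nonneg _) (Int.natCast_nonneg y),
      mul_le_mul c3 a3 (abs_nonneg _) (Int.natCast_nonneg y)]
  · have := dvd_sub ((hS p hp).2.1.mul_left v') ((hS p hp).2.2.mul_left v)
    rwa [show (v' : ℤ) * (v * N - R) - v * (v' * N - R') = v * R' - v' * R by ring] at this

end

end Pool.Agent.Jac
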