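import Pool.Agent.P.MP_45ff98_nt.JV
import Pool.Agent.P.MP_45ff98_nt.JFib
import Pool.Agent.P.MP_45ff98_nt.JI3

/-! The gain in the structured case. -/

namespace Pool.Agent.Jac
open Finset

noncomputable section

theorem JNear_w0 (P : Par) (t0 : ℕ) (T : Finset ℕ) : 0 ≤ wN P t0 T :=
  div_nonneg (phi_le P _ _).1 (Nat.cast_nonneg _)

theorem JNear_g0 (P : Par) (N : ℤ) (y t0 : ℕ) (T : Finset ℕ) : 0 ≤ gN P N y t0 T :=
  div_nonneg (sum_nonneg fun _ _ => Nat.cast_nonneg _) (Nat.cast_nonneg _)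

/-- the colour of a prime: the unique fraction of the family attached to it -/
def JNear_col (N : ℤ) (S : Finset (ℕ × ℤ)) (s : ℕ × ℤ) (r : ℕ) : Prop :=
  s ∈ S ∧ (r : ℤ) ∣ nf N s ∧ ∀ s' ∈ S, (r : ℤ) ∣ nf N s' → s' = s

/-- primes shared by two different fractions -/
def JNear_sh (N : ℤ) (z : ℕ) (S : Finset (ℕ × ℤ)) : Finset ℕ :=
  ((S ×ˢ S).filter (fun p => p.1 ≠ p.2)).biUnion
    (fun p => (PP 0 z).filter (fun r : ℕ => (r : ℤ) ∣ nf N p.1 ∧ (r : ℤ) ∣ nf N p.2))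

theorem JNear_sh_card (N : ℤ) {y L : ℕ} (z : ℕ) (hy : y ≤ 2 ^ L) (hL : 1 ≤ L)
    {S : Finset (ℕ × ℤ)} (hS : ∀ s ∈ S, Fr y s) :
    (JNear_sh N z S).card ≤ S.card ^ 2 * (5 * L) := by
  refine (card_biUnion_le_card_mul _ _ (5 * L) fun p hp => ?_).trans ?_
  · obtain ⟨h1, h2⟩ := mem_filter.1 hp
    obtain ⟨h3, h4⟩ := mem_product.1 h1
    refine frac_share N y L hy hL p.1 p.2 h2 (hS _ h3) (hS _ h4) _ fun r hr => ?_
    obtain ⟨h5, h6⟩ := mem_filter.1 hr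
    exact ⟨(mem_PP.1 h5).2.1, h6⟩
  · refine Nat.mul_le_mul_right _ ((card_filter_le _ _).trans (le_of_eq ?_))
    rw [card_product, sq]

open Classical in
theorem JNear_split {P : Par} {y z t0 L om : ℕ} (h : Setup P y z t0 L) (N : ℤ)
    {S : Finset (ℕ × ℤ)} (hS : ∀ s ∈ S, Fr y s) :
    ∑ T ∈ (NN P t0 z om).filter (fun T => ∃ s ∈ S, (pr T : ℤ) ∣ nf N s), wN P t0 T ≤
      ∑ T ∈ (NN P t0 z om).filter (fun T => ∃ i, ∀ r ∈ T, JNear_col N S i r), wN P t0 T +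
        10 * (L : ℝ) ^ 2 * (1 + (P.CW * P.kW : ℕ)) * (S.card : ℝ) ^ 2 / 2 ^ (P.kW - 1) := by
  have hw : ∀ T ∈ NN P t0 z om, wN P t0 T ≤ (1 + (P.CW * P.kW : ℕ)) * (1 / (pr T : ℝ)) := by
    intro T hT
    have h1 := (phi_le P T.card (t0 - ks T)).2
    have h2 : ((t0 - ks T : ℕ) : ℝ) ≤ (P.CW * P.kW : ℕ) := by
      exact_mod_cast (NN_facts h hT).2.2.1
    rw [wN, mul_one_div]
    exact div_le_div_of_nonneg_right (by linarith) (Nat.cast_nonneg _)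
  have hr : ∀ r ∈ JNear_sh N z S, ∑ T ∈ (NN P t0 z om).filter (fun T => r ∈ T), wN P t0 T ≤
      (1 + (P.CW * P.kW : ℕ)) * (2 * L / 2 ^ (P.kW - 1)) := by
    intro r _
    refine (sum_le_sum fun T hT => hw T (mem_filter.1 hT).1).trans ?_
    rw [← mul_sum]
    exact mul_le_mul_of_nonneg_left (NN_mass_prime h r) (by positivity)
  have hsum : ∑ r ∈ JNear_sh N z S, ∑ T ∈ (NN P t0 z om).filter (fun T => r ∈ T), wN P t0 T ≤
      10 * (L : ℝ) ^ 2 * (1 + (P.CW * P.kW : ℕ)) * (S.card : ℝ) ^ 2 / 2 ^ (P.kW - 1) := by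
    refine (sum_le_card_nsmul _ _ _ hr).trans ?_
    rw [nsmul_eq_mul]
    have hc : ((JNear_sh N z S).card : ℝ) ≤ (S.card : ℝ) ^ 2 * (5 * L) := by
      exact_mod_cast JNear_sh_card N z h.yL h.L1 hS
    refine (mul_le_mul_of_nonneg_right hc (by positivity)).trans (le_of_eq ?_)
    ring
  refine le_trans ?_ (add_le_add le_rfl hsum)
  have hswap : ∑ r ∈ JNear_sh N z S, ∑ T ∈ (NN P t0 z om).filter (fun T => r ∈ T), wN P t0 T =
      ∑ T ∈ NN P t0 z om, ∑ r ∈ JNear_sh N z S, if r ∈ T then wN P t0 T else 0 := by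
    rw [sum_comm]
    exact sum_congr rfl fun r _ => sum_filter _ _
  rw [hswap, sum_filter, sum_filter, ← sum_add_distrib]
  refine sum_le_sum fun T hT => ?_
  have h0 : 0 ≤ ∑ r ∈ JNear_sh N z S, if r ∈ T then wN P t0 T else 0 :=
    sum_nonneg fun r _ => by split_ifs; exacts [JNear_w0 P t0 T, le_rfl]
  have hp := (NN_facts h hT).1
  split_ifs with h1 h2 h2
  · linarith
  · obtain ⟨s, hs, hd⟩ := h1
    have hd' := (pr_dvd_iff (fun p hq => (hp p hq).1) _).1 hd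
    have h3 : ∃ r ∈ T, r ∈ JNear_sh N z S := by
      by_contra hc
      refine h2 ⟨s, fun r hr => ⟨hs, hd' r hr, fun s' hs' hd2 => ?_⟩⟩
      by_contra hne
      refine hc ⟨r, hr, mem_biUnion.2 ⟨(s', s), mem_filter.2 ⟨mem_product.2 ⟨hs', hs⟩, hne⟩, ?_⟩⟩
      exact mem_filter.2 ⟨mem_PP.2 ⟨(hp r hr).2.2.2, (hp r hr).1, Nat.zero_le _⟩, hd2, hd' r hr⟩
    obtain ⟨r, hr1, hr2⟩ := h3
    have h4 := single_le_sum (f := fun r => if r ∈ T then wN P t0 T else 0)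
      (fun r _ => by split_ifs; exacts [JNear_w0 P t0 T, le_rfl]) hr2
    rw [if_pos hr1] at h4
    linarith
  · have := JNear_w0 P t0 T
    linarith
  · linarith

theorem near : ∃ (cS : ℝ) (K0 : ℕ), 0 < cS ∧ cS ≤ 1 ∧ ∀ B : ℕ, ∃ κ0 : ℕ, ∀ (P : Par) (N : ℤ)
    (y z t0 L om lo V0 T0 : ℕ) (S : Finset (ℕ × ℤ)), Setup P y z t0 L → κ0 ≤ lo → 1 ≤ lo →
    P.CW * P.kW ≤ lo → lo * (2 * om + 2) ^ K0 ≤ kk z → kk z ≤ 2 ^ P.kw → V0 ≤ lo ^ B →
    T0 ≤ lo ^ B → 2 ^ (P.CW * P.kW) ≤ lo ^ B → om ≤ lo ^ B →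
    (∀ s ∈ S, Fr y s ∧ s.1 ≤ V0 ∧ |s.2| ≤ ((T0 * s.1 * y : ℕ) : ℤ)) →
    cS * (∑ T ∈ (NN P t0 z om).filter (fun T => ∃ s ∈ S, (pr T : ℤ) ∣ nf N s), wN P t0 T -
        (∑ T ∈ NN P t0 z om, wN P t0 T) / 4 -
        10 * (L : ℝ) ^ 2 * (1 + (P.CW * P.kW : ℕ)) * (S.card : ℝ) ^ 2 / 2 ^ (P.kW - 1)) ≤
      ∑ T ∈ NN P t0 z om, gN P N y t0 T := by
  obtain ⟨CU, hCU, hU⟩ := vg_upper
  obtain ⟨c, hc, hLo⟩ := vg_lower
  have hcS : 0 < min c 1 := lt_min hc one_pos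
  obtain ⟨K1, hK1⟩ := exists_nat_ge (4 * CU / min c 1)
  refine ⟨min c 1, K1 + 3, hcS, min_le_right _ _, fun B => ?_⟩
  obtain ⟨κ0, hκ⟩ := hLo B
  refine ⟨κ0, fun P N y z t0 L om lo V0 T0 S h h1 h2 h3 h4 h5 h6 h7 h8 h9 hS => ?_⟩
  have hmono : Monotone (fun k => lo * (2 * om + 2) ^ k) := fun a b hab =>
    Nat.mul_le_mul_left _ (Nat.pow_le_pow_right (by omega) hab)
  have hlo0 : ∀ k, lo ≤ lo * (2 * om + 2) ^ k := fun k =>
    Nat.le_mul_of_pos_right _ (by positivity)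
  have hwin : ∀ T ∈ NN P t0 z om, ∀ k < K1 + 3, ∃ q ∈ T,
      lo * (2 * om + 2) ^ k ≤ kk q ∧ kk q < lo * (2 * om + 2) ^ (k + 1) := by
    intro T hT k hk
    refine window h hT (h2.trans (hlo0 k)) (h3.trans (hlo0 k)) (le_of_eq ?_)
      ((hmono (show k + 1 ≤ K1 + 3 by omega)).trans h4)
    rw [pow_succ, mul_assoc]
  have hF := fibre (NN P t0 z om) (wN P t0) (gN P N y t0) (JNear_col N S) (K1 + 3)
    (fun k => lo * (2 * om + 2) ^ k) (min c 1) CU (vg P N y t0) (by omega) hmono hcS.le hCU.le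
    (JNear_w0 P t0) (JNear_g0 P N y t0)
    (fun i i' r hi hi' => hi'.2.2 i hi.1 hi.2.1)
    (fun T hT q hq => ((NN_facts h hT).1 q hq).1) hwin
    (fun T hT q hq _ hq2 q' hq' hn => (NN_swap hT hq (lt_of_lt_of_le hq2 h4) hq' hn).1)
    (fun T hT i hi => by
      obtain ⟨q, hq, -⟩ := hwin T hT 0 (by omega)
      refine vg_true h hT N (hS i (hi q hq).1).1 ?_
      exact (pr_dvd_iff (fun p hp => ((NN_facts h hT).1 p hp).1) _).2 fun p hp => (hi p hp).2.1)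
    (fun T hT i ⟨r, hr⟩ => hU P N y z t0 L om T i h hT (hS i hr.1).1)
    (fun T hT i q hq hq1 hq2 ⟨r, hr⟩ hi => by
      have hq3 : lo ≤ kk q := (hlo0 0).trans hq1
      have hq4 : lo ^ B ≤ kk q ^ B := Nat.pow_le_pow_left hq3 B
      have := hκ P N y z t0 L om T0 q T i h hT hq (hS i hr.1).1 (h1.trans hq3)
        ((hq2.le.trans h4).trans h5) (((hS i hr.1).2.1.trans h6).trans hq4) (h7.trans hq4)
        (h8.trans hq4) (h9.trans hq4) (hS i hr.1).2.2 (fun p hp => (hi p hp).2.1)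
      exact le_trans (mul_le_mul_of_nonneg_right (min_le_left _ _)
        (sum_nonneg fun _ _ => JNear_w0 P t0 _)) this)
  have hsp := JNear_split (om := om) h N (fun s hs => (hS s hs).1)
  have hK : CU / ((K1 + 3 : ℕ) : ℝ) ≤ min c 1 / 4 := by
    rw [div_le_iff₀ hcS] at hK1
    rw [div_le_div_iff₀ (by positivity) (by norm_num)]
    push_cast
    nlinarith
  have hA : 0 ≤ ∑ T ∈ NN P t0 z om, wN P t0 T := sum_nonneg fun _ _ => JNear_w0 P t0 _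
  have hm := mul_le_mul_of_nonneg_right hK hA
  have hs2 := mul_le_mul_of_nonneg_left hsp hcS.le
  refine le_trans ?_ hF
  linarith

end

end Pool.Agent.Jac
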