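import Pool.Agent.P.MP_45ff98_nt.JI5
import Pool.Agent.P.MP_45ff98_nt.JB6

/-! Deficient integers divide one of few near numbers. -/

namespace Pool.Agent.Jac
open Finset

noncomputable section

theorem JStr_cover {κ : Type} (A Y : Finset ℕ) (S : Finset κ) (F : κ → Finset ℕ) (f : ℕ → ℝ)
    (hf : ∀ n, 0 ≤ f n) (h : ∀ n ∈ A, n ∉ Y → ∃ s ∈ S, n ∈ F s) :
    ∑ n ∈ A, f n ≤ ∑ n ∈ A.filter (fun n => n ∈ Y), f n + ∑ s ∈ S, ∑ n ∈ F s, f n := by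
  have h1 : ∀ n ∈ A, f n ≤ (if n ∈ Y then f n else 0) + ∑ s ∈ S, if n ∈ F s then f n else 0 := by
    intro n hn
    have h0 : ∀ s ∈ S, 0 ≤ if n ∈ F s then f n else 0 := fun s _ => by
      split_ifs
      exacts [hf n, le_rfl]
    by_cases hY : n ∈ Y
    · rw [if_pos hY]
      exact le_add_of_nonneg_right (sum_nonneg h0)
    · obtain ⟨s, hs, hn⟩ := h n hn hY
      rw [if_neg hY, zero_add]
      exact le_trans (by rw [if_pos hn]) (single_le_sum h0 hs)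
  refine (sum_le_sum h1).trans ?_
  rw [sum_add_distrib, sum_comm, ← sum_filter]
  refine add_le_add le_rfl (sum_le_sum fun s _ => ?_)
  rw [← sum_filter]
  exact sum_le_sum_of_subset_of_nonneg (fun n hn => (mem_filter.1 hn).2) fun n _ _ => hf n

theorem struct : ∃ C : ℝ, 1 ≤ C ∧ ∀ {ι ι' : Type} (D1 : Dat1 ι) (D2 : Dat2 ι') (Om c : ℝ)
    (Zb W P1 y Yq klo khi L Y1 Cc : ℕ) (N : ℤ) (J : Finset ℕ) (cl : ℕ → Cl) (Cs : Finset Cl)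
    (Cm : ℕ → Finset Cl), D1.Ok Om Zb W P1 → D2.Ok Om y Yq klo khi → y ≤ 2 ^ L → 1 ≤ L → 0 < c →
    1 ≤ P1 → 1 ≤ Y1 → 12 * Om ≤ c * W → 64 * Zb ^ 3 * W ^ 3 * Y1 ^ 3 ≤ y →
    C * (L : ℝ) ^ 3 * (Om / c) ^ 8 ≤ 2 ^ (klo - 1) → (∀ m, (Cm m).card ≤ Cc) →
    (∀ n ∈ J, 1 ≤ n ∧ n ≤ y ∧ y ≤ Zb * n ∧ Squarefree n ∧ (∀ r : ℕ, r.Prime → r ∣ n → W ≤ r) ∧
      cl n ∈ Cs ∧ cl n ∈ Cm (y / n) ∧ c ≤ D1.B (cl n) (N / n) ∧ c ≤ D2.B (cl n) (N / n)) →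
    ∃ S : Finset (ℕ × ℤ), (S.card : ℝ) ≤ C * khi * L * (Om / c) ^ 4 ∧
      (∀ s ∈ S, Fr y s ∧ s.1 ≤ Zb * W ^ 2 ∧ |s.2| ≤ ((Zb * W ^ 3 * s.1 * y : ℕ) : ℤ)) ∧
      ∑ n ∈ J.filter (fun n : ℕ => ∀ s ∈ S, ¬ (n : ℤ) ∣ nf N s), 1 / (n : ℝ) ≤
        C * khi * Cc * (L : ℝ) ^ 4 * (Om / c) ^ 7 * (1 / P1 + 1 / W) +
          C * Cs.card * D2.I.card * Yq * (L : ℝ) ^ 2 * (Om / c) ^ 7 * Zb / Y1 := by
  classical
  obtain ⟨C1, hC1, h1⟩ := inv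
  obtain ⟨C2, hC2, h2⟩ := far_mass
  have hC12 : C1 ≤ C1 * C2 := le_mul_of_one_le_right (by linarith) hC2
  refine ⟨2 * (C1 * C2), by linarith, ?_⟩
  intro ι ι' D1 D2 Om c Zb W P1 y Yq klo khi L Y1 Cc N J cl Cs Cm hD1 hD2 hyL hL hc hP1 hY1 hW hy
    hk hCm hJ
  have hOm : 0 ≤ Om := (sum_nonneg fun i _ => hD1.wt0 i).trans hD1.sum
  have hq : 0 ≤ Om / c := div_nonneg hOm hc.le
  have hn0 : y < (y / Y1 + 1) * Y1 := by
    rw [mul_comm]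
    exact Nat.lt_mul_div_succ y hY1
  have hn1 : 1 ≤ y / Y1 + 1 := Nat.le_add_left 1 _
  have hn2 : Y1 ≤ y → (y / Y1 + 1) * Y1 ≤ 2 * y := fun h => by
    have := Nat.div_mul_le_self y Y1
    rw [add_mul, one_mul]
    omega
  generalize y / Y1 + 1 = n0 at hn0 hn1 hn2
  obtain ⟨S0, Y, hS, hY, hF, hcov⟩ := h1 D2 Om c y Yq klo khi L n0 N J cl Cs hD2 hyL hL hc hn1
    (le_trans (by gcongr; linarith) hk)
    (fun n hn => by
      obtain ⟨a1, a2, -, -, -, a3, -, -, a4⟩ := hJ n hn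
      exact ⟨a1, a2, a3, a4⟩)
  refine ⟨S0.filter fun s => s.1 ≤ Zb * W ^ 2 ∧ |s.2| ≤ ((Zb * W ^ 3 * s.1 * y : ℕ) : ℤ), ?_,
    fun s hs => ⟨(hF s (mem_filter.1 hs).1).1, (mem_filter.1 hs).2⟩, ?_⟩
  · refine le_trans (Nat.cast_le.2 (card_filter_le _ _)) (hS.trans ?_)
    gcongr
    linarith
  let F : ℕ × ℤ → Finset ℕ := fun s => J.filter fun n : ℕ =>
    (∃ g : ℕ, 1 ≤ g ∧ s.1 * g ≤ Y1 ∧ (n : ℤ) ∣ g * (s.1 * N - s.2)) ∧
      (¬ (n : ℤ) ∣ s.1 * N - s.2 ∨ Zb * W ^ 2 ≤ s.1 ∨ ((Zb * W ^ 3 * s.1 * y : ℕ) : ℤ) ≤ |s.2|)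
  refine (JStr_cover _ Y S0 F (fun n => 1 / (n : ℝ)) (fun n => by positivity)
    fun n hn hnY => ?_).trans ?_
  · obtain ⟨hnJ, hn⟩ := mem_filter.1 hn
    obtain ⟨s, hs, g, hg, hg1, hg2⟩ := hcov n hnJ hnY
    refine ⟨s, hs, mem_filter.2 ⟨hnJ, ⟨g, hg, ?_, hg2⟩, ?_⟩⟩
    · exact (Nat.lt_of_mul_lt_mul_right (hg1.trans_lt (hn0.trans_eq (mul_comm _ _)))).le
    · by_contra hcon
      simp only [not_or, not_le, not_not] at hcon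
      exact hn s (mem_filter.2 ⟨hs, hcon.2.1.le, hcon.2.2.le⟩) hcon.1
  rw [add_comm]
  refine add_le_add ?_ ?_
  · have h3 : ∀ s ∈ S0, ∑ n ∈ F s, 1 / (n : ℝ) ≤
        C2 * Cc * (Om / c) ^ 3 * (L : ℝ) ^ 3 * (1 / P1 + 1 / W) := fun s hs => by
      obtain ⟨⟨b1, -, -, b2⟩, b3⟩ := hF s hs
      refine h2 D1 Om c Zb W P1 Y1 y L s.1 Cc N s.2 cl Cm (F s) hD1 hP1 hyL hL b1 b2 ?_ hy hc hW
        hCm fun n hn => ?_
      · have e1 : (y : ℤ) ≤ n0 * Y1 := by exact_mod_cast hn0.le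
        have e2 : (0 : ℤ) < n0 := by exact_mod_cast hn1
        have e3 : (0 : ℤ) ≤ y := Int.natCast_nonneg y
        refine le_of_mul_le_mul_right (b3.trans ?_) e2
        nlinarith [mul_le_mul_of_nonneg_left e1 e3]
      · obtain ⟨hnJ, c1, c2⟩ := mem_filter.1 hn
        obtain ⟨a1, a2, a3, a4, a5, -, a6, a7, -⟩ := hJ n hnJ
        exact ⟨a1, a2, a3, a4, a5, a6, a7, c1, c2⟩
    refine (sum_le_card_nsmul _ _ _ h3).trans ?_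
    rw [nsmul_eq_mul]
    have h4 : 0 ≤ C2 * Cc * (Om / c) ^ 3 * (L : ℝ) ^ 3 * (1 / P1 + 1 / W) := by
      have : 0 ≤ C2 := by linarith
      positivity
    refine (mul_le_mul_of_nonneg_right hS h4).trans ?_
    have h5 : 0 ≤ C1 * C2 * khi * Cc * (L : ℝ) ^ 4 * (Om / c) ^ 7 * (1 / P1 + 1 / W) := by
      have : 0 ≤ C1 * C2 := by linarith
      positivity
    have h6 : C1 * khi * L * (Om / c) ^ 4 *
        (C2 * Cc * (Om / c) ^ 3 * (L : ℝ) ^ 3 * (1 / P1 + 1 / W)) =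
        C1 * C2 * khi * Cc * (L : ℝ) ^ 4 * (Om / c) ^ 7 * (1 / P1 + 1 / W) := by ring
    have h7 : 2 * (C1 * C2) * khi * Cc * (L : ℝ) ^ 4 * (Om / c) ^ 7 * (1 / P1 + 1 / W) =
        2 * (C1 * C2 * khi * Cc * (L : ℝ) ^ 4 * (Om / c) ^ 7 * (1 / P1 + 1 / W)) := by ring
    rw [h6, h7]
    linarith
  · suffices key : ∀ A : Finset ℕ, (∀ n ∈ A, n ∈ J ∧ n ∈ Y) → ∑ n ∈ A, 1 / (n : ℝ) ≤
        2 * (C1 * C2) * Cs.card * D2.I.card * Yq * (L : ℝ) ^ 2 * (Om / c) ^ 7 * Zb / Y1 from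
      key _ fun n hn => ⟨(mem_filter.1 (mem_filter.1 hn).1).1, (mem_filter.1 hn).2⟩
    intro A hAJ
    have hK : 0 ≤ (Cs.card : ℝ) * D2.I.card * Yq * (L : ℝ) ^ 2 * (Om / c) ^ 7 := by positivity
    rcases A.eq_empty_or_nonempty with h0 | ⟨m, hm⟩
    · rw [h0, sum_empty]
      have : 0 ≤ C1 * C2 := by linarith
      positivity
    obtain ⟨a1, a2, a3, -⟩ := hJ m (hAJ m hm).1
    have hZb : 1 ≤ Zb := Nat.pos_of_ne_zero fun h => by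
      rw [h, zero_mul] at a3
      omega
    have hW1 : 1 ≤ W := Nat.pos_of_ne_zero fun h => by
      have e1 : Om = 0 := le_antisymm (by rw [h, Nat.cast_zero, mul_zero] at hW; linarith) hOm
      have e2 : (0 : ℝ) < Y.card := Nat.cast_pos.2 (card_pos.2 ⟨m, (hAJ m hm).2⟩)
      rw [e1] at hY
      simp only [zero_div, ne_eq, OfNat.ofNat_ne_zero, not_false_eq_true, zero_pow, mul_zero,
        zero_mul] at hY
      linarith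
    have hYy : Y1 ≤ y := by
      refine le_trans ?_ hy
      have e1 : 1 ≤ 64 * Zb ^ 3 * W ^ 3 := Nat.pos_of_ne_zero (by positivity)
      calc Y1 ≤ Y1 ^ 3 := Nat.le_self_pow (by norm_num) Y1
        _ ≤ _ := Nat.le_mul_of_pos_left _ e1
    have hy0 : (0 : ℝ) < y := by exact_mod_cast a1.trans a2
    have hY0 : (0 : ℝ) < Y1 := by exact_mod_cast hY1
    have h3 : ∀ n ∈ A, 1 / (n : ℝ) ≤ Zb / y := fun n hn => by
      obtain ⟨b1, -, b3, -⟩ := hJ n (hAJ n hn).1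
      rw [div_le_div_iff₀ (by exact_mod_cast b1) hy0, one_mul]
      exact_mod_cast b3
    refine (sum_le_card_nsmul _ _ _ h3).trans ?_
    rw [nsmul_eq_mul]
    have h4 : (A.card : ℝ) ≤ Y.card := Nat.cast_le.2 (card_le_card fun n hn => (hAJ n hn).2)
    have h5 : (n0 : ℝ) / y ≤ 2 / Y1 := by
      rw [div_le_div_iff₀ hy0 hY0]
      exact_mod_cast hn2 hYy
    calc (A.card : ℝ) * (Zb / y)
        ≤ C1 * Cs.card * D2.I.card * Yq * (L : ℝ) ^ 2 * (Om / c) ^ 7 * n0 * (Zb / y) :=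
          mul_le_mul_of_nonneg_right (h4.trans hY) (by positivity)
      _ = C1 * ((Cs.card : ℝ) * D2.I.card * Yq * (L : ℝ) ^ 2 * (Om / c) ^ 7 * Zb) * (n0 / y) := by
          ring
      _ ≤ C1 * C2 * ((Cs.card : ℝ) * D2.I.card * Yq * (L : ℝ) ^ 2 * (Om / c) ^ 7 * Zb) *
          (2 / Y1) := by
          have : 0 ≤ C1 * C2 := by linarith
          gcongr
      _ = _ := by ring

end

end Pool.Agent.Jac
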