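import Pool.Agent.P.MP_45ff98_nt.JG2
import Pool.Agent.P.MP_45ff98_nt.JG3a
import Pool.Agent.P.MP_45ff98_nt.JG3b
import Pool.Agent.P.MP_45ff98_nt.JStr
import Pool.Agent.P.MP_45ff98_nt.JNear

/-! The gain is there, under explicit numerical conditions. -/

namespace Pool.Agent.Jac
open Finset

noncomputable section

theorem Dat1.Ok.mono {ι : Type} {D : Dat1 ι} {Om Om' : ℝ} {Zb W P1 : ℕ} (h : D.Ok Om Zb W P1)
    (hO : Om ≤ Om') : D.Ok Om' Zb W P1 :=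
  { h with
    sum := h.sum.trans hO
    sumd := fun r hr => (h.sumd r hr).trans (by gcongr) }

theorem Dat2.Ok.mono {ι : Type} {D : Dat2 ι} {Om Om' : ℝ} {y Yq klo khi : ℕ}
    (h : D.Ok Om y Yq klo khi) (hO : Om ≤ Om') : D.Ok Om' y Yq klo khi :=
  { h with sum := h.sum.trans hO }

theorem cl1_a {L E P W A K s : ℝ} (hL : 8 ≤ L) (hE : L ^ 70 ≤ E) (hP : E ^ 9 ≤ P) (hW : P ≤ W)
    (hA0 : 0 ≤ A) (hA : A ≤ L) (hK0 : 0 ≤ K) (hK : K ≤ L) (hs0 : 0 ≤ s)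
    (hs : s ≤ K * L * (E * L ^ 7) ^ 4) :
    A * (K * (4 * A) * L ^ 4 * (E * L ^ 7) ^ 7 * (1 / P + 1 / W)) ≤ 1 / (8 * L ^ 4) ∧
      10 * L ^ 2 * A * s ^ 2 / W ≤ 1 / (4 * L ^ 4) := by
  have hL0 : 0 < L := by linarith
  have hE0 : 0 < E := lt_of_lt_of_le (by positivity) hE
  have hP0 : 0 < P := lt_of_lt_of_le (by positivity) hP
  have hW0 : 0 < W := hP0.trans_le hW
  have hL1 : 1 ≤ L := by linarith
  have h2 : 64 ≤ L ^ 2 := by nlinarith
  constructor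
  · have h1 : 1 / P + 1 / W ≤ 2 / E ^ 9 := by
      have := one_div_le_one_div_of_le (by positivity) hP
      have := one_div_le_one_div_of_le (by positivity) (hP.trans hW)
      rw [show 2 / E ^ 9 = 1 / E ^ 9 + 1 / E ^ 9 by ring]; linarith
    calc _ ≤ L * (L * (4 * L) * L ^ 4 * (E * L ^ 7) ^ 7 * (2 / E ^ 9)) := by gcongr
      _ = 8 * L ^ 56 / E ^ 2 := by field_simp; ring
      _ ≤ 8 * L ^ 56 / (L ^ 70) ^ 2 := by gcongr
      _ = 8 / (L ^ 2 * L ^ 78 * L ^ 4) := by field_simp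
      _ ≤ 8 / (64 * 1 * L ^ 4) := by gcongr; exact one_le_pow₀ hL1
      _ = _ := by field_simp; norm_num
  · have h1 : E ^ 8 * L ^ 70 ≤ W := by
      calc _ ≤ E ^ 8 * E := by gcongr
        _ = E ^ 9 := by ring
        _ ≤ W := hP.trans hW
    calc _ ≤ 10 * L ^ 2 * L * (L * L * (E * L ^ 7) ^ 4) ^ 2 / (E ^ 8 * L ^ 70) := by
          gcongr
          exact hs.trans (by gcongr)
      _ = 10 / (L ^ 2 * L * L ^ 4) := by field_simp
      _ ≤ 10 / (64 * 1 * L ^ 4) := by gcongr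
      _ ≤ _ := by
          rw [div_le_div_iff₀ (by positivity) (by positivity)]
          nlinarith [pow_pos hL0 4]

theorem cl1_b {L E H Q Y A C k Z Q1 cs ci : ℝ} (hL : 8 ≤ L) (hE : L ^ 70 ≤ E) (hH : E ≤ H)
    (hQ : 0 < Q) (hY : H ^ 15 * Q ^ 2 ≤ Y) (hA0 : 0 ≤ A) (hA : A ≤ L) (hC : 0 ≤ C) (hk : 0 ≤ k)
    (hK : C * k ≤ L) (hZ0 : 0 ≤ Z) (hZ : Z ≤ H) (hQ0 : 0 ≤ Q1) (hQ1 : Q1 ≤ Q) (hcs0 : 0 ≤ cs)
    (hcs : cs ≤ 2 * (A * (H + 2))) (hci0 : 0 ≤ ci) (hci : ci ≤ E * H * Z * Q1 * k) :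
    A * (C * cs * ci * (Z * E * Q) * L ^ 2 * (E * L ^ 7) ^ 7 * H / Y) ≤ 1 / (8 * L ^ 4) := by
  have hL0 : 0 < L := by linarith
  have hL1 : 1 ≤ L := by linarith
  have hE0 : 0 < E := lt_of_lt_of_le (by positivity) hE
  have hH1 : 1 ≤ H := ((one_le_pow₀ hL1).trans hE).trans hH
  have hH0 : 0 < H := by linarith
  have h2 : 64 ≤ L ^ 2 := by nlinarith
  have h3 : cs ≤ 6 * L * H := hcs.trans (by nlinarith [mul_le_mul hA (show H + 2 ≤ 3 * H by linarith) (by linarith) hL0.le])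
  have hY0 : 0 < Y := lt_of_lt_of_le (by positivity) hY
  have h4 : C * ci ≤ L * (H * H * H * Q) := by
    calc C * ci ≤ C * (H * H * H * Q * k) := by
          gcongr
          exact hci.trans (by gcongr)
      _ = C * k * (H * H * H * Q) := by ring
      _ ≤ _ := by gcongr
  calc _ = A * (cs * (C * ci) * (Z * E * Q) * L ^ 2 * (E * L ^ 7) ^ 7 * H / Y) := by ring
    _ ≤ L * (6 * L * H * (L * (H * H * H * Q)) * (H * H * Q) * L ^ 2 * (H * L ^ 7) ^ 7 * H /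
          (H ^ 15 * Q ^ 2)) := by gcongr
    _ = 6 * L ^ 54 / H := by field_simp
    _ ≤ 6 * L ^ 54 / L ^ 70 := by gcongr; exact hE.trans hH
    _ = 6 / (L ^ 2 * L ^ 10 * L ^ 4) := by field_simp
    _ ≤ 6 / (64 * 1 * L ^ 4) := by gcongr; exact one_le_pow₀ hL1
    _ ≤ _ := by
        rw [div_le_div_iff₀ (by positivity) (by positivity)]
        nlinarith [pow_pos hL0 4]

theorem claim_core : ∃ (cG C : ℝ) (u K0 : ℕ), 0 < cG ∧ cG ≤ 1 ∧ 1 ≤ C ∧ 1 ≤ u ∧ ∀ B : ℕ, ∃ κ0 : ℕ,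
    ∀ (P : Par) (N : ℤ) (y z t0 L om j sg Y1 E H W : ℕ), Setup P y z t0 L →
    E = 2 ^ (5 * u * P.kw) → H = 2 ^ (P.CW * P.kW + om) * E → W = 2 ^ (P.kW - 1) →
    P.k0 ≤ P.k1 / 9 → 90 ≤ P.k1 → 7 * 2 ^ j * P.k1 ≤ P.kW → 1 ≤ sg → sg ≤ 2 ^ (P.k1 - 1) →
    2 ^ P.k1 ≤ sg ^ j → 64 * H ^ 3 * W ^ 3 * Y1 ^ 3 ≤ y →
    H ^ 15 * (2 ^ (P.kW * j * sg)) ^ 2 ≤ Y1 →
    (1 + Real.log H) * (1 + (P.CW * P.kW : ℕ)) * (1 + P.kW) ^ j * P.k1 ≤ L →
    C * P.k1 ≤ L → 8 ≤ L → L ^ 70 ≤ E → E ^ 9 ≤ 2 ^ (P.k1 / 9 - 1) → κ0 ≤ sg →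
    P.CW * P.kW ≤ sg → sg * (2 * om + 2) ^ K0 ≤ kk z → kk z ≤ 2 ^ P.kw → H * W ^ 3 ≤ sg ^ B →
    cG * ∑ T ∈ NN P t0 z om, wN P t0 T - 1 / (2 * (L : ℝ) ^ 4) ≤
      ∑ T ∈ NN P t0 z om, gN P N y t0 T := by
  classical
  obtain ⟨cV, u, hcV, hu, b, hb, hgain⟩ := gain_lower
  obtain ⟨C, hC, hstr⟩ := struct
  obtain ⟨cS, K0, hcS, hcS1, hnear⟩ := near
  refine ⟨min (cV / 4) (cS / 2), C, u, K0, lt_min (by positivity) (by positivity),
    (min_le_right _ _).trans (by linarith), hC, hu, fun B => ?_⟩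
  obtain ⟨κ0, hnear⟩ := hnear B
  refine ⟨κ0, fun P N y z t0 L om j sg Y1 E H W h hE hH hW h1 h2 h3 h4 h5 h6 h7 h8 h9 h10 h11 h12
    h13 h14 h15 h16 h17 h18 => ?_⟩
  set a := P.CW * P.kW with ha
  have hE1 : 1 ≤ E := hE ▸ Nat.one_le_two_pow
  have hW1 : 1 ≤ W := hW ▸ Nat.one_le_two_pow
  have hZH : 2 ^ (a + om) ≤ H := hH ▸ Nat.le_mul_of_pos_right _ hE1
  have hEH : E ≤ H := hH ▸ Nat.le_mul_of_pos_left _ Nat.one_le_two_pow
  have hH1 : 1 ≤ H := hE1.trans hEH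
  have haH : 2 ^ a ≤ H := (Nat.pow_le_pow_right (by norm_num) (by omega)).trans hZH
  have haEH : 2 ^ a * E ≤ H :=
    hH ▸ Nat.mul_le_mul_right _ (Nat.pow_le_pow_right (by norm_num) (by omega))
  have hQY : 2 ^ (P.kW * j * sg) ≤ Y1 := by
    refine le_trans ?_ h8
    calc _ ≤ (2 ^ (P.kW * j * sg)) ^ 2 := Nat.le_self_pow (by norm_num) _
      _ ≤ _ := Nat.le_mul_of_pos_left _ (by positivity)
  have hY1 : 1 ≤ Y1 := Nat.one_le_two_pow.trans hQY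
  have hHy : H ≤ y := by
    refine le_trans ?_ h7
    calc H ≤ H ^ 3 := Nat.le_self_pow (by norm_num) _
      _ ≤ 64 * H ^ 3 := Nat.le_mul_of_pos_left _ (by norm_num)
      _ ≤ 64 * H ^ 3 * W ^ 3 := Nat.le_mul_of_pos_right _ (by positivity)
      _ ≤ _ := Nat.le_mul_of_pos_right _ (by positivity)
  have hYy : Y1 ≤ y := by
    refine le_trans ?_ h7
    calc Y1 ≤ Y1 ^ 3 := Nat.le_self_pow (by norm_num) _
      _ ≤ _ := Nat.le_mul_of_pos_left _ (by positivity)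
  have hQQ : 2 ^ (P.kW * j) ≤ 2 ^ (P.kW * j * sg) :=
    Nat.pow_le_pow_right (by norm_num) (Nat.le_mul_of_pos_right _ h4)
  have hPW : 2 ^ (P.k1 / 9 - 1) ≤ W :=
    hW ▸ Nat.pow_le_pow_right (by norm_num) (by have := h.kW; omega)
  obtain ⟨ι, D1, hD1, hB1⟩ := red_one P E H b hb h.hB h1 h2 h.k1 h.kW hE1 haEH
  obtain ⟨ι', D2, hD2, hI, hB2⟩ := red_two P E H j sg y b hb h.k1 h3 h4 h5 h6 hE1 hHy
    (hQQ.trans (hQY.trans hYy))
  have hL : (8 : ℝ) ≤ L := by exact_mod_cast h11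
  have hL0 : (0 : ℝ) < L := by linarith
  have hlog : 0 ≤ Real.log H := Real.log_natCast_nonneg H
  have hk1 : (1 : ℝ) ≤ P.k1 := by exact_mod_cast (by omega : 1 ≤ P.k1)
  have hf : (1 : ℝ) ≤ (1 + P.kW) ^ j * P.k1 :=
    one_le_mul_of_one_le_of_one_le (one_le_pow₀ (by linarith [Nat.cast_nonneg (α := ℝ) P.kW])) hk1
  have h9' : (1 + Real.log H) * (1 + (a : ℝ)) ≤ L := by
    refine le_trans ?_ h9
    rw [mul_assoc _ _ (P.k1 : ℝ)]
    exact le_mul_of_one_le_right (by positivity) hf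
  have hA : 1 + (a : ℝ) ≤ L := le_trans (le_mul_of_one_le_left (by positivity) (by linarith)) h9'
  have hD1' := hD1.mono (Om' := E * L) (by rw [mul_assoc]; gcongr)
  have hD2' := hD2.mono (Om' := E * L) (by
    calc _ = E * ((1 + Real.log H) * (1 + (a : ℝ)) * (1 + P.kW) ^ j * P.k1) := by ring
      _ ≤ _ := by gcongr)
  have hOc : (E * L : ℝ) / (1 / (L : ℝ) ^ 6) = E * L ^ 7 := by field_simp
  have hER : (L : ℝ) ^ 70 ≤ E := by exact_mod_cast h12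
  have hPR : (E : ℝ) ^ 9 ≤ (2 ^ (P.k1 / 9 - 1) : ℕ) := by exact_mod_cast h13
  have hWR : ((2 ^ (P.k1 / 9 - 1) : ℕ) : ℝ) ≤ W := by exact_mod_cast hPW
  have hE1R : (1 : ℝ) ≤ E := by exact_mod_cast hE1
  have hL1 : (1 : ℝ) ≤ L := by linarith
  set DD := (NN P t0 z om).filter
    (fun T => 1 / (L : ℝ) ^ 6 ≤ ‖Ex P E H b (cl N y t0 T) (N / pr T)‖) with hDD
  have hpr : ∀ T ∈ NN P t0 z om, ∀ p ∈ T, p.Prime := fun T hT p hp => ((NN_facts h hT).1 p hp).1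
  obtain ⟨S, hS1, hS2, hS3⟩ := hstr D1 D2 (E * L) (1 / (L : ℝ) ^ 6) H W (2 ^ (P.k1 / 9 - 1)) y _ _ _
    L Y1 (4 * (a + 1)) N (DD.image pr) (fun n => cl N y t0 n.primeFactors)
    (range 2 ×ˢ range (a + 1) ×ˢ range (H + 2)) (fun m => range 2 ×ˢ range (a + 1) ×ˢ {m, m + 1})
    (hW ▸ hD1') hD2' h.yL h.L1 (by positivity) Nat.one_le_two_pow hY1
    (by
      rw [one_div_mul_eq_div, le_div_iff₀ (by positivity)]
      have h2 : 64 ≤ (L : ℝ) ^ 2 := by nlinarith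
      calc 12 * ((E : ℝ) * L) * (L : ℝ) ^ 6 = (E : ℝ) * (12 * (L : ℝ) ^ 7) := by ring
        _ ≤ (E : ℝ) * ((L : ℝ) ^ 2 * (L : ℝ) ^ 68) := by
            gcongr
            · linarith
            · norm_num
        _ = (E : ℝ) * (L : ℝ) ^ 70 := by ring
        _ ≤ (E : ℝ) ^ 8 * E := by gcongr; exact le_self_pow₀ hE1R (by norm_num)
        _ = (E : ℝ) ^ 9 := by ring
        _ ≤ W := hPR.trans hWR)
    h7
    (by
      rw [hOc]
      have hCL : C ≤ L := le_trans (le_mul_of_one_le_right (by linarith) hk1) h10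
      calc C * (L : ℝ) ^ 3 * (E * L ^ 7) ^ 8 ≤ L * (L : ℝ) ^ 3 * (E * L ^ 7) ^ 8 := by gcongr
        _ = (E : ℝ) ^ 8 * (L : ℝ) ^ 60 := by ring
        _ ≤ (E : ℝ) ^ 8 * (L : ℝ) ^ 70 := by gcongr; norm_num
        _ ≤ (E : ℝ) ^ 8 * E := by gcongr
        _ = (E : ℝ) ^ 9 := by ring
        _ ≤ _ := by exact_mod_cast h13)
    (fun m => by
      rw [card_product, card_product, card_range, card_range]
      have := card_le_two (a := m) (b := m + 1)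
      nlinarith)
    (fun n hn => by
      obtain ⟨T, hT, rfl⟩ := mem_image.1 hn
      obtain ⟨hT, hc⟩ := mem_filter.1 hT
      obtain ⟨f1, f2, f3, f4, f5, f6, f7⟩ := NN_facts h hT
      have hp := pr_pos (hpr T hT)
      obtain ⟨m1, m2⟩ := MM_bounds N y hp
      have hy : y ≤ H * pr T := f6.trans (Nat.mul_le_mul_right _ hZH)
      have hq : y / pr T ≤ H := Nat.div_le_of_le_mul (by rwa [mul_comm])
      have hst : St (cl N y t0 T).1 (cl N y t0 T).2.1 P.kW :=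
        ⟨f2.1, fun he => f2.2 (by rw [Nat.even_iff] at he ⊢; simpa [cl] using he)⟩
      simp only [primeFactors_pr (hpr T hT)]
      refine ⟨hp, by omega, hy, Finset.squarefree_prod_of_pairwise_isCoprime
        (fun p hp q hq hne => Nat.coprime_iff_isRelPrime.1
          ((Nat.coprime_primes (hpr T hT p hp) (hpr T hT q hq)).2 hne))
        (fun p hp => (hpr T hT p hp).squarefree),
        fun r hr hd => hW ▸ (f1 r ((prime_dvd_pr (hpr T hT) hr).1 hd)).2.1, ?_, ?_,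
        hc.trans (hB1 _ hst f3 _), hc.trans (hB2 _ hst f3 _)⟩
      · simp only [cl, mem_product, mem_range]
        omega
      · simp only [cl, mem_product, mem_range, mem_insert, mem_singleton]
        omega)
  rw [hOc] at hS1 hS3
  have hw0 : ∀ T, 0 ≤ wN P t0 T := fun T => div_nonneg (phi_le _ _ _).1 (Nat.cast_nonneg _)
  have hg0 : ∀ T, 0 ≤ gN P N y t0 T := fun T =>
    div_nonneg (sum_nonneg fun _ _ => Nat.cast_nonneg _) (Nat.cast_nonneg _)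
  have hM0 : 0 ≤ ∑ T ∈ NN P t0 z om, wN P t0 T := sum_nonneg fun T _ => hw0 T
  have hsp := sum_filter_add_sum_filter_not (NN P t0 z om)
    (fun T => 1 / (L : ℝ) ^ 6 ≤ ‖Ex P E H b (cl N y t0 T) (N / pr T)‖) (wN P t0)
  rw [← hDD] at hsp
  have hm1 := mul_le_mul_of_nonneg_right (min_le_left (cV / 4) (cS / 2)) hM0
  have hm2 := mul_le_mul_of_nonneg_right (min_le_right (cV / 4) (cS / 2)) hM0
  by_cases hc : ∑ T ∈ DD, wN P t0 T ≤ 3 / 4 * ∑ T ∈ NN P t0 z om, wN P t0 T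
  · set D' := (NN P t0 z om).filter
      (fun T => ¬ 1 / (L : ℝ) ^ 6 ≤ ‖Ex P E H b (cl N y t0 T) (N / pr T)‖) with hD'
    have e1 : ∑ T ∈ D', gN P N y t0 T ≤ ∑ T ∈ NN P t0 z om, gN P N y t0 T :=
      sum_le_sum_of_subset_of_nonneg (filter_subset _ _) fun T _ _ => hg0 T
    have e2 : ∑ T ∈ D', (cV * wN P t0 T - 2 / (L : ℝ) ^ 6 * (1 / pr T)) ≤
        ∑ T ∈ D', gN P N y t0 T := by
      refine sum_le_sum fun T hT => ?_
      obtain ⟨hT, hn⟩ := mem_filter.1 hT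
      refine le_trans ?_ (hgain P N y z t0 L om H h (hE ▸ haEH) T hT)
      rw [← hE]
      have : 2 * ‖Ex P E H b (cl N y t0 T) (N / pr T)‖ / pr T ≤ 2 * (1 / (L : ℝ) ^ 6) / pr T := by
        gcongr; exact (not_le.1 hn).le
      rw [show 2 / (L : ℝ) ^ 6 * (1 / pr T) = 2 * (1 / (L : ℝ) ^ 6) / pr T by ring]
      linarith
    rw [sum_sub_distrib, ← mul_sum, ← mul_sum] at e2
    have e3 : ∑ T ∈ D', 1 / (pr T : ℝ) ≤ 2 * L :=
      le_trans (sum_le_sum_of_subset_of_nonneg (filter_subset _ _) fun T _ _ => by positivity)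
        (NN_mass h)
    have e4 : 2 / (L : ℝ) ^ 6 * ∑ T ∈ D', 1 / (pr T : ℝ) ≤ 1 / (2 * (L : ℝ) ^ 4) := by
      calc _ ≤ 2 / (L : ℝ) ^ 6 * (2 * L) := by gcongr
        _ = 4 / (L * L ^ 4) := by field_simp; norm_num
        _ ≤ 4 / (8 * L ^ 4) := by gcongr
        _ = _ := by field_simp; norm_num
    have e5 := mul_le_mul_of_nonneg_left
      (show (∑ T ∈ NN P t0 z om, wN P t0 T) / 4 ≤ ∑ T ∈ D', wN P t0 T by linarith) hcV.le
    linarith
  · have hHW : ∀ x, x ≤ H * W ^ 3 → x ≤ sg ^ B := fun x hx => hx.trans h18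
    have hH3 : H ≤ H * W ^ 3 := Nat.le_mul_of_pos_right _ (by positivity)
    have e0 := hnear P N y z t0 L om sg (H * W ^ 2) (H * W ^ 3) S h h14 h4 h15 h16 h17
      (hHW _ (Nat.mul_le_mul_left _ (Nat.pow_le_pow_right hW1 (by norm_num)))) h18
      (hHW _ (haH.trans hH3))
      (hHW _ (le_trans (Nat.lt_two_pow_self.le.trans
        (Nat.pow_le_pow_right (by norm_num) (by omega))) (hZH.trans hH3))) hS2
    have e1 := sum_filter_add_sum_filter_not DD (fun T => ∃ s ∈ S, (pr T : ℤ) ∣ nf N s) (wN P t0)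
    have e2 : ∑ T ∈ DD.filter (fun T => ∃ s ∈ S, (pr T : ℤ) ∣ nf N s), wN P t0 T ≤
        ∑ T ∈ (NN P t0 z om).filter (fun T => ∃ s ∈ S, (pr T : ℤ) ∣ nf N s), wN P t0 T :=
      sum_le_sum_of_subset_of_nonneg (filter_subset_filter _ (filter_subset _ _)) fun T _ _ => hw0 T
    have e3 : ∑ T ∈ DD.filter (fun T => ¬ ∃ s ∈ S, (pr T : ℤ) ∣ nf N s), wN P t0 T ≤ (1 + (a : ℝ)) *
        ∑ n ∈ (DD.image pr).filter (fun n : ℕ => ∀ s ∈ S, ¬ (n : ℤ) ∣ nf N s), 1 / (n : ℝ) := by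
      rw [filter_image, sum_image fun S hS T hT e => pr_inj
        (hpr S (mem_filter.1 (mem_filter.1 hS).1).1) (hpr T (mem_filter.1 (mem_filter.1 hT).1).1) e,
        mul_sum]
      refine le_of_eq_of_le (sum_congr (filter_congr fun T _ => by simp) fun _ _ => rfl)
        (sum_le_sum fun T hT => ?_)
      have f3 := (NN_facts h (mem_filter.1 (mem_filter.1 hT).1).1).2.2.1
      rw [mul_one_div, wN]
      gcongr
      refine (phi_le _ _ _).2.trans ?_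
      gcongr
    obtain ⟨a1, a2⟩ := cl1_a hL hER hPR hWR (A := 1 + (a : ℝ)) (by positivity) hA
      (K := C * P.k1) (by positivity) h10 (Nat.cast_nonneg S.card) hS1
    have a3 := cl1_b (Q := (2 ^ (P.kW * j * sg) : ℕ)) (Y := Y1) (Z := (2 ^ a : ℕ))
      (Q1 := (2 ^ (P.kW * j) : ℕ)) (H := H) (ci := D2.I.card)
      (cs := (range 2 ×ˢ range (a + 1) ×ˢ range (H + 2)).card) hL hER (by exact_mod_cast hEH)
      (by positivity) (by exact_mod_cast h8) (A := 1 + (a : ℝ)) (by positivity) hA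
      (by linarith) (by linarith) h10 (by positivity) (by exact_mod_cast haH) (by positivity)
      (by exact_mod_cast hQQ) (by positivity)
      (by rw [card_product, card_product, card_range, card_range, card_range]; push_cast; linarith)
      (by positivity) (by exact_mod_cast hI)
    have e4 := mul_le_mul_of_nonneg_left hS3 (show 0 ≤ 1 + (a : ℝ) by positivity)
    have hWe : (2 : ℝ) ^ (P.kW - 1) = W := by rw [hW]; push_cast; rfl
    rw [hWe] at e0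
    push_cast at e4 a1 a3
    have e5 : ∑ T ∈ DD.filter (fun T => ¬ ∃ s ∈ S, (pr T : ℤ) ∣ nf N s), wN P t0 T ≤
        1 / (4 * (L : ℝ) ^ 4) := by
      refine e3.trans (e4.trans ?_)
      rw [show 1 / (4 * (L : ℝ) ^ 4) = 1 / (8 * (L : ℝ) ^ 4) + 1 / (8 * (L : ℝ) ^ 4) by ring, mul_add]
      refine add_le_add (le_of_eq_of_le ?_ a1) (le_of_eq_of_le ?_ a3) <;> ring
    refine le_trans ?_ e0
    have e6 : (∑ T ∈ NN P t0 z om, wN P t0 T) / 2 - 1 / (2 * (L : ℝ) ^ 4) ≤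
        ∑ T ∈ (NN P t0 z om).filter (fun T => ∃ s ∈ S, (pr T : ℤ) ∣ nf N s), wN P t0 T -
        (∑ T ∈ NN P t0 z om, wN P t0 T) / 4 -
        10 * (L : ℝ) ^ 2 * (1 + (a : ℝ)) * (S.card : ℝ) ^ 2 / W := by
      rw [show 1 / (2 * (L : ℝ) ^ 4) = 1 / (4 * (L : ℝ) ^ 4) + 1 / (4 * (L : ℝ) ^ 4) by ring]
      linarith
    have e7 := mul_le_mul_of_nonneg_left e6 hcS.le
    have e8 : cS * (1 / (2 * (L : ℝ) ^ 4)) ≤ 1 / (2 * (L : ℝ) ^ 4) :=
      mul_le_of_le_one_left (by positivity) hcS1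
    linarith

end

end Pool.Agent.Jac
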