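import Pool.Agent.P.MP_45ff98_nt.JBase

/-! The root term and the cap on the number of primes. -/

namespace Pool.Agent.Jac
open Finset

noncomputable section

theorem root_card_Box {k0 k : ℕ} (hB : HB k0) (hk : k0 ≤ k) :
    99 / 100 / (k : ℝ) * 2 ^ (k - 1) ≤ (Box k).card := by
  have h : ∀ q ∈ Box k, 1 / (q : ℝ) ≤ 1 / 2 ^ (k - 1) := fun q hq => by
    obtain ⟨h1, rfl⟩ := mem_Box.1 hq
    exact one_div_le_one_div_of_le (by positivity) (by exact_mod_cast two_pow_kk_le h1.ne_zero)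
  have h2 := (hB k hk).1.trans (sum_le_card_nsmul _ _ _ h)
  rw [nsmul_eq_mul, mul_one_div, le_div_iff₀ (by positivity)] at h2
  exact h2

theorem root_pair {k0 k l t : ℕ} (hB : HB k0) (hk : k0 ≤ k) (hl : k0 ≤ l) (h1 : 1 ≤ k)
    (h2 : 1 ≤ l) (ht : t = k + l) :
    (2 : ℝ) ^ t / (2 * (t : ℝ) ^ 2) ≤ ((Box k).card : ℝ) * (Box l).card := by
  have ha := root_card_Box hB hk
  have hb := root_card_Box hB hl
  have hk0 : (0 : ℝ) < k := by exact_mod_cast h1
  have hl0 : (0 : ℝ) < l := by exact_mod_cast h2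
  refine le_trans ?_ (mul_le_mul ha hb (by positivity) (by positivity))
  have e1 : (2 : ℝ) ^ t = 4 * (2 ^ (k - 1) * 2 ^ (l - 1)) := by
    have : t = (k - 1) + (l - 1) + 2 := by omega
    rw [this, pow_add, pow_add]; ring
  have e2 : (t : ℝ) = k + l := by rw [ht]; push_cast; ring
  have e3 : 99 / 100 / (k : ℝ) * 2 ^ (k - 1) * (99 / 100 / (l : ℝ) * 2 ^ (l - 1)) =
      (2 ^ (k - 1) * 2 ^ (l - 1)) * (9801 / 10000 / ((k : ℝ) * l)) := by
    field_simp
    norm_num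
  rw [e1, e2, e3]
  have hp : (0 : ℝ) < 2 ^ (k - 1) * 2 ^ (l - 1) := by positivity
  generalize (2 : ℝ) ^ (k - 1) * 2 ^ (l - 1) = w at hp
  have e4 : 4 * w / (2 * ((k : ℝ) + l) ^ 2) = w * (2 / ((k : ℝ) + l) ^ 2) := by
    field_simp
    norm_num
  rw [e4]
  refine mul_le_mul_of_nonneg_left ?_ hp.le
  rw [div_le_div_iff₀ (by positivity) (by positivity)]
  nlinarith [sq_nonneg ((k : ℝ) - l), mul_pos hk0 hl0]

theorem root_inj {z a t0 : ℕ} (ht : t0 = 2 * (kk z + a) + 1) :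
    ∑ k ∈ Ioc (kk z) (kk z + a), (Box k).card * (Box (t0 - k)).card ≤ cntE (2 ^ t0) 1 z := by
  have hc : ((Ioc (kk z) (kk z + a)).sigma (fun k => Box k ×ˢ Box (t0 - k))).card =
      ∑ k ∈ Ioc (kk z) (kk z + a), (Box k).card * (Box (t0 - k)).card := by
    rw [card_sigma]; simp only [card_product]
  rw [← hc, cntE]
  have hm : ∀ x ∈ (Ioc (kk z) (kk z + a)).sigma (fun k => Box k ×ˢ Box (t0 - k)),
      x.2.1.Prime ∧ x.2.2.Prime ∧ kk x.2.1 = x.1 ∧ kk x.2.2 = t0 - x.1 ∧ kk z < x.1 ∧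
        x.1 ≤ kk z + a := fun x hx => by
    obtain ⟨h1, h2⟩ := mem_sigma.1 hx
    obtain ⟨h3, h4⟩ := mem_product.1 h2
    exact ⟨(mem_Box.1 h3).1, (mem_Box.1 h4).1, (mem_Box.1 h3).2, (mem_Box.1 h4).2,
      (mem_Ioc.1 h1).1, (mem_Ioc.1 h1).2⟩
  refine card_le_card_of_injOn (fun x => x.2.1 * x.2.2) (fun x hx => ?_) (fun x hx y hy e => ?_)
  · obtain ⟨hp, hq, h1, h2, h3, h4⟩ := hm x (by exact_mod_cast hx)
    have h5 := lt_two_pow_kk x.2.1
    have h6 := lt_two_pow_kk x.2.2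
    have h7 : x.2.1 * x.2.2 ≤ 2 ^ t0 := by
      have : t0 = kk x.2.1 + kk x.2.2 := by omega
      rw [this, pow_add]
      exact Nat.mul_le_mul h5.le h6.le
    have h8 : z < x.2.1 := lt_of_kk_lt (by omega)
    have h9 : z < x.2.2 := lt_of_kk_lt (by omega)
    simp only [coe_filter, mem_Icc, Set.mem_ofPred_eq]
    refine ⟨⟨Nat.mul_pos hp.pos hq.pos, h7⟩, one_dvd _, ?_, fun r hr hr2 hd => ?_⟩
    · rw [ArithmeticFunction.liouville_apply (mul_ne_zero hp.ne_zero hq.ne_zero),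
        ArithmeticFunction.cardFactors_mul hp.ne_zero hq.ne_zero,
        ArithmeticFunction.cardFactors_apply_prime hp,
        ArithmeticFunction.cardFactors_apply_prime hq]
      norm_num
    · rcases (Nat.Prime.dvd_mul hr2).1 hd with h | h
      · have := (Nat.prime_dvd_prime_iff_eq hr2 hp).1 h
        omega
      · have := (Nat.prime_dvd_prime_iff_eq hr2 hq).1 h
        omega
  · obtain ⟨hp, hq, h1, h2, h3, h4⟩ := hm x (by exact_mod_cast hx)
    obtain ⟨hp', hq', h1', h2', h3', h4'⟩ := hm y (by exact_mod_cast hy)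
    have e' : x.2.1 * x.2.2 = y.2.1 * y.2.2 := e
    have hd : x.2.1 ∣ y.2.1 * y.2.2 := e' ▸ dvd_mul_right _ _
    have hpp : x.2.1 = y.2.1 := by
      rcases (Nat.Prime.dvd_mul hp).1 hd with h | h
      · exact (Nat.prime_dvd_prime_iff_eq hp hp').1 h
      · have h5 := (Nat.prime_dvd_prime_iff_eq hp hq').1 h
        have h6 : x.2.2 = y.2.1 := by
          rw [h5, mul_comm] at e'
          exact Nat.eq_of_mul_eq_mul_right hq'.pos e'
        rw [h5] at h1
        rw [h6] at h2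
        omega
    have hqq : x.2.2 = y.2.2 := by
      rw [hpp] at e'
      exact Nat.eq_of_mul_eq_mul_left hp'.pos e'
    have hk : x.1 = y.1 := by rw [← h1, ← h1', hpp]
    obtain ⟨k, p, q⟩ := x
    obtain ⟨k', p', q'⟩ := y
    simp only at hpp hqq hk
    subst hpp hqq hk
    rfl

theorem root {k0 z a t0 : ℕ} (hB : HB k0) (hk : k0 ≤ kk z) (ht : t0 = 2 * (kk z + a) + 1) :
    (a : ℝ) / (t0 : ℝ) ^ 2 ≤ 2 * (cntE (2 ^ t0) 1 z : ℝ) / 2 ^ t0 := by
  have h1 : ((∑ k ∈ Ioc (kk z) (kk z + a), (Box k).card * (Box (t0 - k)).card : ℕ) : ℝ) ≤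
      (cntE (2 ^ t0) 1 z : ℝ) := by exact_mod_cast root_inj ht
  have h2 : ∀ k ∈ Ioc (kk z) (kk z + a), (2 : ℝ) ^ t0 / (2 * (t0 : ℝ) ^ 2) ≤
      ((Box k).card : ℝ) * (Box (t0 - k)).card := fun k hk' => by
    obtain ⟨h3, h4⟩ := mem_Ioc.1 hk'
    exact root_pair hB (by omega) (by omega) (by omega) (by omega) (by omega)
  have h3 := card_nsmul_le_sum _ _ _ h2
  rw [Nat.card_Ioc, Nat.add_sub_cancel_left, nsmul_eq_mul] at h3
  push_cast at h1
  have h4 := h3.trans h1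
  have ht0 : (0 : ℝ) < t0 := by rw [ht]; positivity
  rw [le_div_iff₀ (by positivity)]
  have e : (a : ℝ) / (t0 : ℝ) ^ 2 * 2 ^ t0 = 2 * (a * (2 ^ t0 / (2 * (t0 : ℝ) ^ 2))) := by
    field_simp
  rw [e]
  linarith

theorem cap_le (z om : ℕ) (hz : 3 ≤ z) :
    Cap z om ≤ Real.exp 20 * Real.log z ^ 3 * Real.exp (-om) := by
  have hl : 1 ≤ Real.log z := by
    rw [Real.le_log_iff_exp_le (by positivity)]
    have h3 : (3 : ℝ) ≤ z := by exact_mod_cast hz
    have := Real.exp_one_lt_d9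
    linarith
  have hll : 0 ≤ Real.log (Real.log z) := Real.log_nonneg hl
  have h1 : Cap z om ≤
      (∑ T ∈ (PP 0 z).powerset, ∏ p ∈ T, Real.exp 1 * (1 / (p : ℝ))) * Real.exp (-om) := by
    rw [sum_mul, Cap]
    refine le_trans (sum_le_sum fun T hT => ?_)
      (sum_le_sum_of_subset_of_nonneg (filter_subset (fun T : Finset ℕ => om < T.card) _)
        fun _ _ _ => by positivity)
    have hc : (om : ℝ) ≤ T.card := by exact_mod_cast (mem_filter.1 hT).2.le
    rw [prod_mul_distrib, prod_const, ← Real.exp_nat_mul, mul_one, pr, Nat.cast_prod,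
      prod_div_distrib, prod_const_one, mul_right_comm, ← Real.exp_add]
    refine le_mul_of_one_le_left (by positivity) (Real.one_le_exp (by linarith))
  refine h1.trans (mul_le_mul_of_nonneg_right ?_ (Real.exp_pos _).le)
  rw [← prod_one_add]
  refine (Real.prod_one_add_le_exp_sum _ fun p => by positivity).trans ?_
  have h2 : ∑ p ∈ PP 0 z, 1 / (p : ℝ) ≤ Real.log (Real.log z) + 7 := by
    refine le_trans (sum_le_sum_of_subset_of_nonneg (fun p hp => ?_) fun _ _ _ => by positivity)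
      (Pool.Agent.Lib.Sieve.sum_inv_primes_le (y := z) (by omega))
    exact Nat.mem_primesLE.2 ⟨(mem_PP.1 hp).1.le, (mem_PP.1 hp).2.1⟩
  have h3 : Real.log z ^ 3 = Real.exp (3 * Real.log (Real.log z)) := by
    have := Real.exp_nat_mul (Real.log (Real.log z)) 3
    rw [Real.exp_log (by linarith)] at this
    rw [← this]; norm_num
  rw [h3, ← Real.exp_add, ← mul_sum]
  refine Real.exp_le_exp.2 ?_
  have h4 := Real.exp_one_lt_d9
  have h5 := mul_le_mul_of_nonneg_left h2 (Real.exp_pos 1).le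
  nlinarith

end

end Pool.Agent.Jac
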