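import Pool.Agent.P.MP_45ff98_nt.JG0
import Pool.Agent.P.MP_45ff98_nt.JCl1
import Pool.Agent.P.MP_45ff98_nt.JRoot

/-! The gain is there. -/

namespace Pool.Agent.Jac
open Finset Filter Topology

noncomputable section

theorem poly_ev (A m : ℕ) : ∀ᶠ l : ℕ in atTop, A * (l + 1) ^ m ≤ 2 ^ (l / 2 - 3) := by
  have h1 := (tendsto_pow_const_div_const_pow_of_one_lt m (r := 2) (by norm_num)).const_mul
    ((8 * A * 4 ^ m : ℕ) : ℝ)
  rw [mul_zero] at h1
  obtain ⟨n0, hn⟩ := eventually_atTop.1 (h1.eventually (gt_mem_nhds one_pos))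
  filter_upwards [eventually_ge_atTop (2 * n0 + 6)] with l hl
  have h2 := hn (l / 2) (by omega)
  rw [← mul_div_assoc, div_lt_one (by positivity)] at h2
  have h3 : 8 * A * 4 ^ m * (l / 2) ^ m < 2 ^ (l / 2) := by exact_mod_cast h2
  have h4 : (l + 1) ^ m ≤ 4 ^ m * (l / 2) ^ m := by
    rw [← mul_pow]; exact Nat.pow_le_pow_left (by omega) m
  have h5 : 2 ^ (l / 2) = 8 * 2 ^ (l / 2 - 3) := by
    rw [show 8 = 2 ^ 3 by norm_num, ← pow_add]; congr 1; omega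
  have h6 := Nat.mul_le_mul_left A h4
  nlinarith

theorem cap_small : ∀ᶠ l : ℕ in atTop, ∀ z : ℕ, 3 ≤ z → kk z ≤ 2 ^ l →
    Cap z (10 * l) ≤ 1 / (2 * ((2 : ℝ) ^ l) ^ 4) := by
  filter_upwards [eventually_ge_atTop 21] with l hl z hz hk
  refine (cap_le z _ hz).trans ?_
  have h1 : Real.log z ≤ 2 ^ l := by
    have h2 : (z : ℝ) ≤ 2 ^ kk z := by exact_mod_cast (lt_two_pow_kk z).le
    have h3 := Real.log_le_log (by positivity) h2
    rw [Real.log_pow] at h3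
    have h4 : (kk z : ℝ) ≤ 2 ^ l := by exact_mod_cast hk
    have := Real.log_two_lt_d9
    nlinarith [Nat.cast_nonneg (α := ℝ) (kk z)]
  have h2 : (2 : ℝ) ≤ Real.exp 1 := by linarith [Real.add_one_le_exp 1]
  have h3 : (2 : ℝ) ^ l ≤ Real.exp l := by
    rw [show (l : ℝ) = l * 1 by ring, Real.exp_nat_mul]; gcongr
  have hl' : (21 : ℝ) ≤ l := by exact_mod_cast hl
  rw [le_div_iff₀ (by positivity)]
  have h0 := Real.log_natCast_nonneg z
  calc _ ≤ Real.exp 20 * Real.exp l ^ 3 * Real.exp (-(10 * l : ℕ)) *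
        (Real.exp 1 * Real.exp l ^ 4) := by gcongr; exact h1.trans h3
    _ = Real.exp (21 - 3 * l) := by
        rw [← Real.exp_nat_mul, ← Real.exp_nat_mul]
        simp only [← Real.exp_add]
        congr 1; push_cast; ring
    _ ≤ 1 := Real.exp_le_one_iff.2 (by linarith)

theorem claimG : ∃ (cG : ℝ) (C2 : ℕ), 0 < cG ∧ 11 ≤ C2 ∧ ∀ aL a0 : ℕ, 2 ≤ a0 → ∃ aS : ℕ, ∀ aw : ℕ,
    aS ≤ aw → ∃ K' : ℕ, 1 ≤ K' ∧ ∀ CW : ℕ, ∃ l0 : ℕ, ∀ l : ℕ, l0 ≤ l →
    ∀ (P : Par) (N : ℤ) (y z t0 : ℕ), P.k0 = a0 * l → P.kw = aw * l → P.k1 = C2 * P.kw →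
    P.kW = K' * P.k1 → P.CW = CW → HB P.k0 → 2 ^ 2 ^ (l - 1) ≤ y → y ≤ 2 ^ 2 ^ l → y ≤ 2 ^ t0 →
    2 ^ t0 ≤ 2 ^ (aL * l) * y → St 0 t0 (kk z) → t0 ≤ 4 * kk z →
    cG * Gam P 0 t0 z - 1 / ((2 : ℝ) ^ l) ^ 4 ≤
      ∑ T ∈ fam P 0 t0 z, (cntA N y (pr T) (mn T) : ℝ) / y := by
  obtain ⟨cG, C, u, K0, hG, hG1, hC, hu, hcore⟩ := claim_core
  refine ⟨cG, 9 * (45 * u + 1), hG, by omega, fun aL a0 ha0 => ⟨14 + a0 + 10 * aL, fun aw haw => ?_⟩⟩
  obtain ⟨C2, hC2⟩ : ∃ C2, C2 = 9 * (45 * u + 1) := ⟨_, rfl⟩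
  obtain ⟨j, hj⟩ : ∃ j, j = 2 * (C2 * aw) := ⟨_, rfl⟩
  rw [← hC2]
  refine ⟨7 * 2 ^ j, by have := Nat.one_le_two_pow (n := j); omega, fun CW => ?_⟩
  obtain ⟨w, hw⟩ : ∃ w, w = 7 * 2 ^ j * (C2 * aw) := ⟨_, rfl⟩
  obtain ⟨hH, hhH⟩ : ∃ hH, hH = CW * w + 10 + 5 * u * aw := ⟨_, rfl⟩
  obtain ⟨κ0, hcore⟩ := hcore (2 * (hH + 3 * w))
  obtain ⟨l0, hl0⟩ := eventually_atTop.1 ((eventually_ge_atTop 10).and (cap_small.and
    ((poly_ev (κ0 + 6 + 15 * hH + 2 * w * j + 3 * w + aL + ⌈C⌉₊ * w) 1).and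
    ((poly_ev (20 ^ K0) K0).and (poly_ev ((1 + hH + w) ^ (j + 3)) (j + 3))))))
  refine ⟨l0, fun l hl P N y z t0 e0 ew e1 eW eC hB hy1 hy2 hy3 hy4 hst ht => ?_⟩
  obtain ⟨h10, hcap, p1, p2, p3⟩ := hl0 l hl
  obtain ⟨G, hGe⟩ : ∃ G, G = 2 ^ (l / 2 - 3) := ⟨_, rfl⟩
  obtain ⟨sg, hsg⟩ : ∃ sg, sg = 2 ^ ((l + 1) / 2) := ⟨_, rfl⟩
  obtain ⟨Q, hQ⟩ : ∃ Q, Q = 2 ^ (l - 3) := ⟨_, rfl⟩
  rw [← hGe] at p1 p2 p3
  have hQ1 : sg * G = Q := by rw [hsg, hGe, hQ, ← pow_add]; congr 1; omega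
  have hQ2 : 2 ^ (l - 1) = 4 * Q := by
    rw [hQ, show 4 = 2 ^ 2 by norm_num, ← pow_add]; congr 1; omega
  have hQ3 : 2 ^ l = 8 * Q := by rw [hQ, show 8 = 2 ^ 3 by norm_num, ← pow_add]; congr 1; omega
  have hs1 : 1 ≤ sg := hsg ▸ Nat.one_le_two_pow
  have hG0 : 1 ≤ G := hGe ▸ Nat.one_le_two_pow
  have hGs : G ≤ sg := hGe ▸ hsg ▸ Nat.pow_le_pow_right (by norm_num) (by omega)
  have hGQ : G ≤ Q := hQ1 ▸ Nat.le_mul_of_pos_left _ hs1
  have ek1 : P.k1 = C2 * aw * l := by rw [e1, ew]; ring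
  have ekW : P.kW = w * l := by rw [eW, ek1, hw]; ring
  have ek9 : P.k1 / 9 = 45 * (u * P.kw) + P.kw := by
    rw [e1, hC2, mul_assoc, Nat.mul_div_cancel_left _ (by norm_num)]; ring
  have hkw : 14 * l ≤ P.kw := ew ▸ Nat.mul_le_mul_right _ (by omega)
  have hk0 : P.k0 ≤ P.kw := e0 ▸ ew ▸ Nat.mul_le_mul_right _ (by omega)
  have hk1 : 11 * P.kw ≤ P.k1 := e1 ▸ Nat.mul_le_mul_right _ (by omega)
  have hkW : P.k1 ≤ P.kW := eW ▸ Nat.le_mul_of_pos_left _ (by positivity)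
  have hukw : P.kw ≤ u * P.kw := Nat.le_mul_of_pos_left _ hu
  rw [pow_one] at p1
  have q0 : κ0 + 6 + 15 * (hH * l) + 2 * (w * l * j) + 3 * (w * l) + aL * l + ⌈C⌉₊ * (w * l) ≤ G := by
    refine le_trans ?_ p1
    linarith only [Nat.zero_le (κ0 * l), Nat.zero_le hH, Nat.zero_le (w * j), Nat.zero_le w,
      Nat.zero_le aL, Nat.zero_le (⌈C⌉₊ * w), Nat.zero_le l]
  have ht0 : 4 * Q ≤ t0 :=
    hQ2 ▸ (Nat.pow_le_pow_iff_right (by norm_num)).1 (hy1.trans hy3)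
  have ht1 : t0 ≤ aL * l + 8 * Q := by
    rw [← hQ3]
    refine (Nat.pow_le_pow_iff_right (a := 2) (by norm_num)).1 (hy4.trans ?_)
    rw [pow_add]; exact Nat.mul_le_mul_left _ hy2
  have hst2 := hst.2 (by simp)
  have hQz : Q ≤ kk z := by omega
  have hz0 : z ≠ 0 := by
    rintro rfl
    have : kk 0 = 1 := by simp [kk]
    omega
  have hS : Setup P y z t0 (2 ^ l) :=
    { hB := hB
      k0 := e0 ▸ ha0.trans (Nat.le_mul_of_pos_right _ (by omega))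
      kw := hk0
      k1 := by omega
      kW := hkW
      hz := (le_kk_iff hz0).1 (by omega)
      st := hst
      y1 := hy3
      y2 := by
        refine (Nat.pow_le_pow_left hy4 10).trans ?_
        rw [mul_pow, ← pow_mul]
        refine Nat.mul_le_mul_right _ (Nat.pow_le_pow_right (by norm_num) ?_)
        rw [ew, mul_right_comm]
        exact Nat.mul_le_mul_right _ (by omega)
      yL := hy2
      L1 := Nat.one_le_two_pow }
  have eH : 2 ^ (P.CW * P.kW + 10 * l) * 2 ^ (5 * u * P.kw) = 2 ^ (hH * l) := by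
    rw [← pow_add, eC, ekW, ew, hhH]; congr 1; ring
  have ea : P.CW * P.kW ≤ hH * l := by
    rw [eC, ekW, hhH, ← mul_assoc]; exact Nat.mul_le_mul_right _ (by omega)
  have key := hcore P N y z t0 (2 ^ l) (10 * l) j sg (2 ^ Q) _ (2 ^ (hH * l)) _ hS rfl eH.symm rfl
    (by omega) (by omega) (by rw [eW]) hs1
    (hsg ▸ Nat.pow_le_pow_right (by norm_num) (by omega))
    (by
      rw [hsg, ← pow_mul]
      refine Nat.pow_le_pow_right (by norm_num) ?_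
      rw [ek1, hj, ← mul_assoc, mul_comm _ l]
      exact Nat.mul_le_mul_right _ (by omega))
    (by
      refine le_trans ?_ hy1
      rw [show 64 = 2 ^ 6 by norm_num]
      simp only [← pow_mul, ← pow_add]
      exact Nat.pow_le_pow_right (by norm_num) (by omega))
    (by
      simp only [← pow_mul, ← pow_add]
      refine Nat.pow_le_pow_right (by norm_num) ?_
      have h1 : hH * l * 15 + w * l * j * 2 ≤ G := by omega
      have h2 := Nat.mul_le_mul_left sg h1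
      have h3 : hH * l * 15 ≤ sg * (hH * l * 15) := Nat.le_mul_of_pos_left _ hs1
      rw [ekW, ← hQ1]
      linarith only [h2, h3])
    (by
      have h1 : Real.log ((2 ^ (hH * l) : ℕ) : ℝ) ≤ (hH * l : ℕ) := by
        push_cast
        rw [Real.log_pow]
        have := Real.log_two_lt_d9
        push_cast
        exact mul_le_of_le_one_right (by positivity) (by linarith only [this])
      have h2 : 1 + hH * l + w * l ≤ (1 + hH + w) * (l + 1) := by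
        linarith only [Nat.zero_le hH, Nat.zero_le w, Nat.zero_le l]
      have h3 : (1 + hH * l) * (1 + P.CW * P.kW) * (1 + P.kW) ^ j * P.k1 ≤ 2 ^ l := by
        calc _ ≤ ((1 + hH + w) * (l + 1)) * ((1 + hH + w) * (l + 1)) *
              ((1 + hH + w) * (l + 1)) ^ j * ((1 + hH + w) * (l + 1)) := by
              gcongr <;> omega
          _ = (1 + hH + w) ^ (j + 3) * (l + 1) ^ (j + 3) := by rw [← mul_pow]; ring
          _ ≤ _ := by omega
      calc _ ≤ (1 + ((hH * l : ℕ) : ℝ)) * (1 + (P.CW * P.kW : ℕ)) * (1 + P.kW) ^ j * P.k1 := by gcongr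
        _ ≤ _ := by exact_mod_cast h3)
    (by
      have h1 : ⌈C⌉₊ * P.k1 ≤ 2 ^ l := by
        have := Nat.mul_le_mul_left ⌈C⌉₊ (hkW.trans ekW.le)
        omega
      calc C * P.k1 ≤ (⌈C⌉₊ : ℝ) * P.k1 := by gcongr; exact Nat.le_ceil C
        _ ≤ _ := by exact_mod_cast h1)
    (by omega)
    (by
      rw [← pow_mul]
      refine Nat.pow_le_pow_right (by norm_num) ?_
      rw [mul_assoc]; omega)
    (by
      rw [← pow_mul]
      refine Nat.pow_le_pow_right (by norm_num) ?_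
      rw [mul_assoc 5]; omega)
    (by omega) (by omega)
    (by
      refine le_trans ?_ (hQ1 ▸ hQz)
      refine Nat.mul_le_mul_left _ (le_trans ?_ p2)
      rw [← mul_pow]
      exact Nat.pow_le_pow_left (by omega) _)
    (by
      have : 2 ^ l ≤ 2 ^ P.kw := Nat.pow_le_pow_right (by norm_num) (by omega)
      omega)
    (by
      rw [hsg]
      simp only [← pow_mul, ← pow_add]
      refine Nat.pow_le_pow_right (by norm_num) ?_
      have h1 := Nat.mul_le_mul_right (hH + 3 * w) (show l ≤ (l + 1) / 2 * 2 by omega)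
      have h2 : (P.kW - 1) * 3 ≤ w * l * 3 := by omega
      linarith only [h1, h2])
  have h3 : 3 ≤ z := le_trans (by norm_num) ((le_kk_iff (k := 3) hz0).1 (by omega))
  have c1 := hcap z h3 (by omega)
  have c2 := mul_le_mul_of_nonneg_left (split_gam hS (10 * l)) hG.le
  have c3 := split_gain hS N (10 * l)
  have c4 : cG * Cap z (10 * l) ≤ Cap z (10 * l) :=
    mul_le_of_le_one_left (sum_nonneg fun _ _ => by positivity) hG1
  push_cast at key
  rw [show 1 / ((2 : ℝ) ^ l) ^ 4 = 1 / (2 * ((2 : ℝ) ^ l) ^ 4) + 1 / (2 * ((2 : ℝ) ^ l) ^ 4) by ring]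
  linarith

end

end Pool.Agent.Jac
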