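import Pool.Agent.P.MP_45ff98_nt.JTree

/-! The tree identity for the two sifted counts. -/

namespace Pool.Agent.Jac
open Finset

noncomputable section

open Classical in
/-- Indicator of a proposition. -/
def jcntI (p : Prop) : ℝ := if p then 1 else 0

theorem jcnt_and (p q : Prop) : jcntI (p ∧ q) = jcntI p * jcntI q := by
  unfold jcntI
  by_cases hp : p <;> by_cases hq : q <;> simp [hp, hq]

theorem jcnt_not (p : Prop) : jcntI (¬ p) = 1 - jcntI p := by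
  unfold jcntI
  by_cases hp : p <;> simp [hp]

theorem jcnt_congr {p q : Prop} (h : p ↔ q) : jcntI p = jcntI q := by rw [propext h]

theorem jcnt_prod (S : Finset ℕ) (p : ℕ → Prop) :
    ∏ r ∈ S, jcntI (p r) = jcntI (∀ r ∈ S, p r) := by
  induction S using Finset.induction_on with
  | empty => simp [jcntI]
  | insert a S ha ih => rw [prod_insert ha, ih, ← jcnt_and, jcnt_congr (forall_mem_insert a S p)]

theorem jcnt_card {α : Type} (A : Finset α) (p : α → Prop) [DecidablePred p] :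
    ((A.filter p).card : ℝ) = ∑ a ∈ A, jcntI (p a) := by
  rw [card_filter, Nat.cast_sum]
  refine sum_congr rfl fun a _ => ?_
  unfold jcntI
  by_cases h : p a <;> simp [h]

theorem jcnt_sift (m : ℤ) {k0 p : ℕ} (h : 2 ^ (k0 - 1) ≤ p) :
    jcntI (∀ r : ℕ, r < 2 ^ (k0 - 1) → r.Prime → ¬ (r : ℤ) ∣ m) *
      ∏ r ∈ PP k0 p, (1 - jcntI ((r : ℤ) ∣ m)) = jcntI (∀ r < p, r.Prime → ¬ (r : ℤ) ∣ m) := by
  rw [prod_congr rfl fun r _ => (jcnt_not _).symm, jcnt_prod, ← jcnt_and]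
  refine jcnt_congr ⟨fun h1 r hr hp => ?_, fun h1 => ⟨fun r hr hp => h1 r (hr.trans_le h) hp,
    fun r hr => h1 r (mem_PP.1 hr).1 (mem_PP.1 hr).2.1⟩⟩
  rcases lt_or_ge r (2 ^ (k0 - 1)) with h2 | h2
  · exact h1.1 r h2 hp
  · exact h1.2 r (mem_PP.2 ⟨hr, hp, (le_kk_iff hp.ne_zero).2 h2⟩)

theorem jcnt_point (m : ℤ) (k0 t z : ℕ) (h : 2 ^ (k0 - 1) ≤ z) :
    jcntI (∀ r < z, r.Prime → ¬ (r : ℤ) ∣ m) =
      ∑ T ∈ vals k0 0 t z, (-1) ^ T.card *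
        jcntI ((pr T : ℤ) ∣ m ∧ ∀ r : ℕ, r < 2 ^ (k0 - 1) → r.Prime → ¬ (r : ℤ) ∣ m) +
      ∑ T ∈ bds k0 0 t z, jcntI ((pr T : ℤ) ∣ m ∧ ∀ r < mn T, r.Prime → ¬ (r : ℤ) ∣ m) := by
  classical
  have hT : ∀ T ∈ (PP k0 z).powerset, ∏ r ∈ T, jcntI ((r : ℤ) ∣ m) = jcntI ((pr T : ℤ) ∣ m) :=
    fun T hT => by
      rw [jcnt_prod]
      exact jcnt_congr (pr_dvd_iff (fun p hp => (mem_PP.1 (mem_powerset.1 hT hp)).2.1) m).symm
  rw [← jcnt_sift m h, tree (okR 0 t) (PP k0 z) fun r => jcntI ((r : ℤ) ∣ m), mul_add, mul_sum,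
    mul_sum]
  congr 1
  · refine sum_congr rfl fun T hT' => ?_
    rw [hT T (mem_filter.1 hT').1, jcnt_and]
    ring
  · refine sum_congr rfl fun T hT' => ?_
    obtain ⟨h1, h2, -, h3⟩ := mem_filter.1 hT'
    have h4 := mem_PP.1 (mem_powerset.1 h1 (mn_mem h2))
    have h5 : Even T.card := by
      by_contra h5
      exact h3 fun h6 => absurd (by simpa using h6) h5
    rw [hT T h1, jcnt_and, PP_filter_lt h4.1.le, h5.neg_one_pow,
      ← jcnt_sift m ((le_kk_iff h4.2.1.ne_zero).1 h4.2.2)]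
    ring

theorem jcnt_gen {α : Type} (A : Finset α) (f : α → ℤ) (c : ℕ → ℕ → ℝ)
    (hc : ∀ d p : ℕ, c d p =
      ∑ a ∈ A, jcntI ((d : ℤ) ∣ f a ∧ ∀ r < p, r.Prime → ¬ (r : ℤ) ∣ f a))
    (k0 t z : ℕ) (h : 2 ^ (k0 - 1) ≤ z) : c 1 z =
    ∑ T ∈ vals k0 0 t z, (-1) ^ T.card * c (pr T) (2 ^ (k0 - 1)) +
      ∑ T ∈ bds k0 0 t z, c (pr T) (mn T) := by
  simp only [hc, mul_sum]
  rw [sum_comm, sum_comm (s := bds k0 0 t z), ← sum_add_distrib]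
  refine sum_congr rfl fun a _ => ?_
  rw [← jcnt_point (f a) k0 t z h]
  exact jcnt_congr (by simp)

theorem cntA_tree (N : ℤ) (y k0 t z : ℕ) (h : 2 ^ (k0 - 1) ≤ z) : (cntA N y 1 z : ℝ) =
    ∑ T ∈ vals k0 0 t z, (-1) ^ T.card * (cntA N y (pr T) (2 ^ (k0 - 1)) : ℝ) +
      ∑ T ∈ bds k0 0 t z, (cntA N y (pr T) (mn T) : ℝ) :=
  jcnt_gen (Icc 1 y) (fun i : ℕ => N + i) (fun d p => (cntA N y d p : ℝ))
    (fun _ _ => jcnt_card _ _) k0 t z h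

theorem cntE_tree (x k0 t z : ℕ) (h : 2 ^ (k0 - 1) ≤ z) : (cntE x 1 z : ℝ) =
    ∑ T ∈ vals k0 0 t z, (-1) ^ T.card * (cntE x (pr T) (2 ^ (k0 - 1)) : ℝ) +
      ∑ T ∈ bds k0 0 t z, (cntE x (pr T) (mn T) : ℝ) := by
  refine jcnt_gen ((Icc 1 x).filter fun n : ℕ => ArithmeticFunction.liouville n = 1)
    (fun n : ℕ => (n : ℤ)) (fun d p => (cntE x d p : ℝ)) (fun d p => ?_) k0 t z h
  classical
  rw [← jcnt_card, filter_filter, cntE]
  congr 2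
  ext n
  simp only [Int.natCast_dvd_natCast, mem_filter]
  tauto

end

end Pool.Agent.Jac
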