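import Pool.Agent.P.MP_45ff98_nt.JMain

/-! Real intervals and the function of Jacobsthal. -/

namespace Pool.Agent.Jac
open Finset

noncomputable section

theorem jend_half {u : ℝ} (hu : 1 ≤ u) : u / 2 ≤ ⌊u⌋₊ := by
  have h1 := Nat.lt_floor_add_one u
  have h2 : (1 : ℝ) ≤ ⌊u⌋₊ := by exact_mod_cast Nat.le_floor (by simpa using hu)
  linarith

theorem jend_loglog {y : ℝ} (h : 3 ≤ Real.log y) : 1 ≤ Real.log (Real.log y) := by
  rw [Real.le_log_iff_exp_le (by linarith)]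
  exact Real.exp_one_lt_three.le.trans h

theorem main_real (A : ℝ) : ∃ y0 : ℝ, ∀ y : ℝ, y0 ≤ y → ∀ x : ℝ,
    A * y * Real.log (Real.log y) / Real.log y ^ 2 ≤
      (Set.ncard {n : ℤ | x < n ∧ n < x + y ∧
        ∀ p : ℕ, p.Prime → (p : ℝ) ≤ √y * Real.log y ^ A → ¬ (p : ℤ) ∣ n} : ℝ) := by
  classical
  obtain ⟨B, hB⟩ : ∃ B : ℕ, A ≤ B := ⟨⌈A⌉₊, Nat.le_ceil A⟩
  obtain ⟨y0, h0⟩ := main_int (4 * B + 1)
  refine ⟨y0 + Real.exp 3 + 2, fun y hy x => ?_⟩
  have he : 4 ≤ Real.exp 3 := by linarith [Real.add_one_le_exp (3 : ℝ)]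
  have hy0 : (0 : ℝ) ≤ y0 := Nat.cast_nonneg _
  obtain ⟨w, hw1, hw2⟩ : ∃ w : ℕ, (w : ℝ) + 1 ≤ y ∧ y < w + 2 := by
    have h1 : 1 ≤ ⌊y⌋₊ := Nat.le_floor (by simp only [Nat.cast_one]; linarith)
    refine ⟨⌊y⌋₊ - 1, ?_, ?_⟩
    · rw [Nat.cast_sub h1]
      linarith [Nat.floor_le (show 0 ≤ y by linarith), Nat.cast_one (R := ℝ)]
    · rw [Nat.cast_sub h1]
      linarith [Nat.lt_floor_add_one y, Nat.cast_one (R := ℝ)]
  have hwpos : (0 : ℝ) < w := by linarith
  have hypos : 0 < y := by linarith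
  have hL3 : 3 ≤ Real.log w := by
    rw [Real.le_log_iff_exp_le hwpos]
    linarith
  have hLL : Real.log w ≤ Real.log y := Real.log_le_log hwpos (by linarith)
  have hy2 : y ≤ 2 * w := by linarith
  have hL2 : Real.log y ≤ Real.log w ^ 2 := by
    have h1 : Real.log y ≤ Real.log 2 + Real.log w := by
      rw [← Real.log_mul (by norm_num) hwpos.ne']
      exact Real.log_le_log hypos hy2
    have h2 : Real.log 2 ≤ 1 := by linarith [Real.log_two_lt_d9]
    nlinarith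
  have hll : Real.log (Real.log y) ≤ 2 * Real.log (Real.log w) := by
    have := Real.log_le_log (by linarith) hL2
    rwa [Real.log_pow, Nat.cast_ofNat] at this
  have hl1 := jend_loglog hL3
  have hl2 := jend_loglog (hL3.trans hLL)
  have hsw : 1 ≤ √(w : ℝ) := Real.one_le_sqrt.2 (by linarith)
  have hz : ((⌊√y * Real.log y ^ A⌋₊ + 1 : ℕ) : ℝ) ≤ √(w : ℝ) * Real.log w ^ (4 * B + 1) := by
    have h1 : √y ≤ 2 * √(w : ℝ) := by
      rw [Real.sqrt_le_left (by positivity), mul_pow, Real.sq_sqrt hwpos.le]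
      linarith
    have h2 : Real.log y ^ A ≤ Real.log w ^ (4 * B) := by
      calc Real.log y ^ A ≤ Real.log y ^ (B : ℝ) :=
            Real.rpow_le_rpow_of_exponent_le (by linarith) hB
        _ = Real.log y ^ B := Real.rpow_natCast _ _
        _ ≤ (Real.log w ^ 2) ^ B := pow_le_pow_left₀ (by linarith) hL2 B
        _ = Real.log w ^ (2 * B) := (pow_mul _ _ _).symm
        _ ≤ Real.log w ^ (4 * B) := pow_le_pow_right₀ (by linarith) (by omega)
    have h3 : 0 ≤ Real.log y ^ A := Real.rpow_nonneg (by linarith) _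
    have h4 := Nat.floor_le (mul_nonneg (Real.sqrt_nonneg y) h3)
    have h5 : √y * Real.log y ^ A ≤ 2 * √(w : ℝ) * Real.log w ^ (4 * B) :=
      mul_le_mul h1 h2 h3 (by positivity)
    have h6 : 1 ≤ √(w : ℝ) * Real.log w ^ (4 * B) :=
      one_le_mul_of_one_le_of_one_le hsw (one_le_pow₀ (by linarith))
    rw [pow_succ, ← mul_assoc]
    push_cast
    nlinarith
  have h1 := h0 w (by
    have : (y0 : ℝ) ≤ w := by linarith
    exact_mod_cast this) ⌊x⌋ _ hz
  refine le_trans ?_ (h1.trans ?_)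
  · have hB0 : (0 : ℝ) ≤ B := Nat.cast_nonneg _
    calc A * y * Real.log (Real.log y) / Real.log y ^ 2
        ≤ B * y * Real.log (Real.log y) / Real.log y ^ 2 := by gcongr
      _ ≤ B * (2 * w) * (2 * Real.log (Real.log w)) / Real.log w ^ 2 := by
        gcongr
      _ ≤ _ := by
        refine div_le_div_of_nonneg_right ?_ (by positivity)
        push_cast
        nlinarith [mul_nonneg hwpos.le (zero_le_one.trans hl1)]
  · rw [Nat.cast_le, cntA, ← card_image_of_injective (f := fun i : ℕ => ⌊x⌋ + (i : ℤ)) _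
      (fun i j e => by simpa using e), ← Set.ncard_coe_finset]
    refine Set.ncard_le_ncard ?_ ((Set.finite_Icc ⌊x⌋ ⌈x + y⌉).subset ?_)
    · intro n hn
      obtain ⟨i, hi, rfl⟩ := mem_image.1 (mem_coe.1 hn)
      obtain ⟨hi1, -, hi2⟩ := mem_filter.1 hi
      obtain ⟨hi3, hi4⟩ := mem_Icc.1 hi1
      have h2 : (1 : ℝ) ≤ i := by exact_mod_cast hi3
      have h3 : (i : ℝ) ≤ w := by exact_mod_cast hi4
      refine ⟨?_, ?_, fun p hp hp' => hi2 p (Nat.lt_succ_of_le (Nat.le_floor hp')) hp⟩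
      · push_cast
        linarith [Int.lt_floor_add_one x]
      · push_cast
        linarith [Int.floor_le x]
    · rintro n ⟨h2, h3, -⟩
      exact ⟨(Int.floor_lt.2 h2).le, (Int.lt_ceil.2 h3).le⟩

theorem schinzel_rough (A : ℝ) : ∃ x0 : ℝ, ∀ x : ℝ, x0 ≤ x → ∃ n : ℕ, x < n ∧
    n < x + Real.log x ^ 2 ∧
    ∀ p : ℕ, p.Prime → p ∣ n → Real.log x * Real.log (Real.log x) ^ A < p := by
  obtain ⟨y0, h0⟩ := main_real (max A 1)
  refine ⟨Real.exp (max y0 3), fun x hx => ?_⟩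
  have hx0 : 0 < x := (Real.exp_pos _).trans_le hx
  have hL : max y0 3 ≤ Real.log x := (Real.le_log_iff_exp_le hx0).2 hx
  have hL3 : 3 ≤ Real.log x := (le_max_right _ _).trans hL
  have hl := jend_loglog hL3
  have hy : y0 ≤ Real.log x ^ 2 := by nlinarith [le_max_left y0 3]
  have h1 := h0 _ hy x
  have e1 : Real.log (Real.log x ^ 2) = 2 * Real.log (Real.log x) := by
    rw [Real.log_pow, Nat.cast_ofNat]
  rw [e1, Real.sqrt_sq (by linarith)] at h1
  have h2 : 0 < max A 1 * Real.log x ^ 2 * Real.log (2 * Real.log (Real.log x)) /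
      (2 * Real.log (Real.log x)) ^ 2 := by
    have h3 : 0 < Real.log (2 * Real.log (Real.log x)) := Real.log_pos (by linarith)
    have h4 : 0 < max A 1 := zero_lt_one.trans_le (le_max_right _ _)
    have h5 : 0 < Real.log x := by linarith
    have h6 : 0 < Real.log (Real.log x) := by linarith
    positivity
  obtain ⟨n, h3, h4, h5⟩ := Set.nonempty_of_ncard_ne_zero
    (Nat.cast_pos.1 (h2.trans_le h1)).ne'
  have hn : 0 ≤ n := by
    have : (0 : ℝ) ≤ n := by linarith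
    exact_mod_cast this
  lift n to ℕ using hn
  refine ⟨n, by exact_mod_cast h3, by exact_mod_cast h4, fun p hp hd => ?_⟩
  by_contra hc
  refine h5 p hp ((not_lt.1 hc).trans ?_) (Int.natCast_dvd_natCast.2 hd)
  refine mul_le_mul_of_nonneg_left ?_ (by linarith)
  exact (Real.rpow_le_rpow_of_exponent_le hl (le_max_left A 1)).trans
    (Real.rpow_le_rpow (by linarith) (by linarith) (zero_le_one.trans (le_max_right _ _)))

theorem jend_cnt (N : ℤ) (y p : ℕ) :
    ((Icc 1 y).filter (fun i : ℕ => (p : ℤ) ∣ N + i)).card ≤ y / p + 1 := by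
  rw [← card_range (y / p + 1)]
  refine card_le_card_of_injOn (fun i => i / p) (fun i hi => ?_) (fun i hi j hj e => ?_)
  · have h := (mem_Icc.1 (mem_filter.1 (mem_coe.1 hi)).1).2
    exact mem_coe.2 (mem_range.2 (Nat.lt_succ_of_le (Nat.div_le_div_right h)))
  · have h1 := (mem_filter.1 (mem_coe.1 hi)).2
    have h2 := (mem_filter.1 (mem_coe.1 hj)).2
    have h3 : i ≡ j [MOD p] := by
      rw [Nat.modEq_iff_dvd]
      have := dvd_sub h2 h1
      rwa [add_sub_add_left_eq_sub] at this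
    have h4 : i / p = j / p := e
    rw [← Nat.div_add_mod i p, ← Nat.div_add_mod j p, h4, show i % p = j % p from h3]

theorem jend_large (B : ℕ) : ∃ k0 : ℕ, ∀ k : ℕ, k0 ≤ k →
    3 ≤ Real.log k ∧ 16 * Real.log k ^ (B + 3) ≤ k := by
  have h1 := (Real.isLittleO_pow_log_id_atTop (n := B + 3)).bound (c := 1 / 16) (by norm_num)
  have h2 := Real.tendsto_log_atTop.eventually_ge_atTop 3
  obtain ⟨k0, h⟩ := Filter.eventually_atTop.1
    (tendsto_natCast_atTop_atTop (R := ℝ).eventually (h1.and h2))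
  refine ⟨k0, fun k hk => ⟨(h k hk).2, ?_⟩⟩
  have h3 := (h k hk).1
  rw [id, Real.norm_of_nonneg (pow_nonneg (by linarith [(h k hk).2]) _),
    Real.norm_of_nonneg (Nat.cast_nonneg k)] at h3
  linarith

theorem jacobsthal (A : ℝ) : ∃ k0 : ℕ, ∀ k : ℕ, k0 ≤ k → ∀ S : Finset ℕ, (∀ p ∈ S, p.Prime) →
    S.card ≤ k → ∀ N : ℤ, ∃ i : ℕ, 1 ≤ i ∧ (i : ℝ) ≤ (k : ℝ) ^ 2 / Real.log k ^ A ∧
      ∀ p ∈ S, ¬ (p : ℤ) ∣ N + i := by
  classical
  obtain ⟨B, hB⟩ : ∃ B : ℕ, A ≤ B := ⟨⌈A⌉₊, Nat.le_ceil A⟩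
  obtain ⟨y0, h0⟩ := main_int (B + 3)
  obtain ⟨k0, hk0⟩ := jend_large B
  refine ⟨max y0 k0, fun k hk S hS hc N => ?_⟩
  obtain ⟨hl, hbig⟩ := hk0 k ((le_max_right _ _).trans hk)
  have hlB : 1 ≤ Real.log k ^ B := one_le_pow₀ (by linarith)
  have hl3 : 1 ≤ Real.log k ^ 3 := one_le_pow₀ (by linarith)
  have hk1 : (1 : ℝ) ≤ k := by
    have : 1 ≤ Real.log k ^ (B + 3) := one_le_pow₀ (by linarith)
    linarith
  have hu : 16 * Real.log k ^ 3 * k ≤ (k : ℝ) ^ 2 / Real.log k ^ B := by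
    rw [le_div_iff₀ (by linarith)]
    rw [pow_add] at hbig
    nlinarith
  have hu1 : 1 ≤ (k : ℝ) ^ 2 / Real.log k ^ B := by nlinarith
  obtain ⟨y, hy1, hy2⟩ : ∃ y : ℕ, (y : ℝ) ≤ (k : ℝ) ^ 2 / Real.log k ^ B ∧
      (k : ℝ) ^ 2 / Real.log k ^ B / 2 ≤ y := ⟨_, Nat.floor_le (by linarith), jend_half hu1⟩
  have hyk : (k : ℝ) ≤ y := by nlinarith
  have hypos : (0 : ℝ) < y := by linarith
  have hLl : Real.log k ≤ Real.log y := Real.log_le_log (by linarith) hyk
  have hL2 : Real.log y ≤ 2 * Real.log k := by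
    have h1 : (y : ℝ) ≤ (k : ℝ) ^ 2 := hy1.trans (div_le_self (by positivity) hlB)
    have h2 := Real.log_le_log hypos h1
    rwa [Real.log_pow, Nat.cast_ofNat] at h2
  have hL0 : 0 < Real.log y := by linarith
  have hs0 : 1 ≤ √(y : ℝ) := Real.one_le_sqrt.2 (by linarith)
  have hv : 1 ≤ √(y : ℝ) * Real.log y ^ (B + 3) :=
    one_le_mul_of_one_le_of_one_le hs0 (one_le_pow₀ (by linarith))
  obtain ⟨z, hz1, hz2⟩ : ∃ z : ℕ, (z : ℝ) ≤ √(y : ℝ) * Real.log y ^ (B + 3) ∧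
      √(y : ℝ) * Real.log y ^ (B + 3) / 2 ≤ z := ⟨_, Nat.floor_le (by linarith), jend_half hv⟩
  have hz0 : (0 : ℝ) < z := by linarith
  have h1 := h0 y (by
    have h2 : (y0 : ℝ) ≤ k := by exact_mod_cast (le_max_left _ _).trans hk
    exact_mod_cast h2.trans hyk) N z hz1
  by_contra hcon
  have hsub : (Icc 1 y).filter (fun i : ℕ => ((1 : ℕ) : ℤ) ∣ N + i ∧
      ∀ r < z, r.Prime → ¬ (r : ℤ) ∣ N + i) ⊆ (S.filter (z ≤ ·)).biUnion fun p =>
        (Icc 1 y).filter (fun i : ℕ => (p : ℤ) ∣ N + i) := by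
    intro i hi
    obtain ⟨hi1, -, hi2⟩ := mem_filter.1 hi
    by_contra hn
    refine hcon ⟨i, (mem_Icc.1 hi1).1, ?_, fun p hp hd => hn (mem_biUnion.2 ⟨p, mem_filter.2
      ⟨hp, not_lt.1 fun hlt => hi2 p hlt (hS p hp) hd⟩, mem_filter.2 ⟨hi1, hd⟩⟩)⟩
    have h2 : (i : ℝ) ≤ y := by exact_mod_cast (mem_Icc.1 hi1).2
    refine h2.trans (hy1.trans (div_le_div_of_nonneg_left (by positivity)
      (Real.rpow_pos_of_pos (by linarith) _) ?_))
    rw [← Real.rpow_natCast]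
    exact Real.rpow_le_rpow_of_exponent_le (by linarith) hB
  have h2 : (cntA N y 1 z : ℝ) ≤ k * (y / z + 1) := by
    have h3 : cntA N y 1 z ≤ k * (y / z + 1) := by
      refine (card_le_card hsub).trans (card_biUnion_le.trans ?_)
      refine (sum_le_card_nsmul _ _ (y / z + 1) fun p hp => (jend_cnt N y p).trans ?_).trans ?_
      · exact Nat.succ_le_succ (Nat.div_le_div_left (mem_filter.1 hp).2 (by exact_mod_cast hz0))
      · exact Nat.mul_le_mul_right _ ((card_filter_le _ _).trans hc)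
    have h4 : ((y / z : ℕ) : ℝ) ≤ y / z := Nat.cast_div_le
    have h5 : (cntA N y 1 z : ℝ) ≤ k * ((y / z : ℕ) + 1) := by exact_mod_cast h3
    exact h5.trans (by gcongr)
  have hL3 : 0 < Real.log y ^ 3 := by positivity
  have h3 : (k : ℝ) ≤ y / Real.log y ^ 3 := by
    rw [le_div_iff₀ hL3]
    have h4 : Real.log y ^ 3 ≤ (2 * Real.log k) ^ 3 := pow_le_pow_left₀ hL0.le hL2 3
    rw [mul_pow] at h4
    nlinarith
  have h4 : (k : ℝ) ≤ 2 * √(y : ℝ) * Real.log y ^ B := by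
    have h5 : Real.log k ^ B ≤ Real.log y ^ B := pow_le_pow_left₀ (by linarith) hLl B
    have h6 : (k : ℝ) ^ 2 ≤ 2 * y * Real.log k ^ B := by
      rw [div_div, div_le_iff₀ (by positivity)] at hy2
      linarith
    refine (sq_le_sq₀ (by positivity) (by positivity)).1 ?_
    rw [mul_pow, mul_pow, Real.sq_sqrt hypos.le]
    nlinarith [mul_le_mul h5 (hlB.trans h5) zero_le_one (by positivity : 0 ≤ Real.log y ^ B)]
  have h5 : (k : ℝ) * (y / z) ≤ 4 * (y / Real.log y ^ 3) := by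
    have h6 : (k : ℝ) / z ≤ 4 / Real.log y ^ 3 := by
      rw [div_le_div_iff₀ hz0 hL3]
      rw [pow_add] at hz2
      nlinarith
    calc (k : ℝ) * (y / z) = y * (k / z) := by ring
      _ ≤ y * (4 / Real.log y ^ 3) := by gcongr
      _ = _ := by ring
  have h6 : 5 * (y / Real.log y ^ 3) < 3 * (y / Real.log y ^ 2) := by
    have h7 : (y : ℝ) / Real.log y ^ 2 = Real.log y * (y / Real.log y ^ 3) := by
      field_simp
    have h8 : 0 < (y : ℝ) / Real.log y ^ 3 := by positivity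
    rw [h7]
    nlinarith
  have h7 : 3 * (y / Real.log y ^ 2) ≤
      ((B + 3 : ℕ) : ℝ) * y * Real.log (Real.log y) / Real.log y ^ 2 := by
    rw [← mul_div_assoc]
    refine div_le_div_of_nonneg_right ?_ (by positivity)
    have h8 := jend_loglog (hl.trans hLl)
    have h9 : (3 : ℝ) ≤ ((B + 3 : ℕ) : ℝ) := by
      push_cast
      linarith [Nat.cast_nonneg (α := ℝ) B]
    nlinarith [mul_le_mul h9 h8 zero_le_one (by linarith)]
  rw [mul_add, mul_one] at h2
  linarith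

end

end Pool.Agent.Jac
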