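import Pool.Agent.P.MP_45ff98_nt.JBase

/-! The tree identity of Buchstab and Rosser. -/

namespace Pool.Agent.Jac
open Finset

noncomputable section

theorem jtree_gv {ok : Finset ℕ → Prop} {q : ℕ} {T : Finset ℕ} (h : ∀ r ∈ T, r < q) :
    GV ok (insert q T) ↔ ok {q} ∧ GV (fun U => ok (insert q U)) T := by
  have h1 : top (insert q T) q = {q} := by
    ext r
    simp only [top, mem_filter, mem_insert, mem_singleton]
    constructor
    · rintro ⟨rfl | h2, h3⟩
      · rfl
      · exact absurd (h r h2) (by omega)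
    · rintro rfl; exact ⟨Or.inl rfl, le_rfl⟩
  have h2 : ∀ p ∈ T, top (insert q T) p = insert q (top T p) := fun p hp => by
    rw [top, filter_insert, if_pos (h p hp).le]; rfl
  rw [GV, forall_mem_insert, h1]
  exact and_congr_right fun _ => forall₂_congr fun p hp => by rw [h2 p hp]

theorem jtree_mn {q : ℕ} {T : Finset ℕ} (h : ∀ r ∈ T, r < q) (hT : T.Nonempty) :
    mn (insert q T) = mn T :=
  mn_eq (mem_insert_of_mem (mn_mem hT)) fun r hr => by
    rcases mem_insert.1 hr with rfl | hr
    · exact (h _ (mn_mem hT)).le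
    · exact mn_le hr

theorem jtree_mn1 (q : ℕ) : mn {q} = q :=
  mn_eq (mem_singleton_self q) fun _ hr => (mem_singleton.1 hr).ge

theorem jtree_gb1 {ok : Finset ℕ → Prop} (q : ℕ) : GB ok {q} ↔ ¬ ok {q} := by
  simp [GB, GV, jtree_mn1]

theorem jtree_gb {ok : Finset ℕ → Prop} {q : ℕ} {T : Finset ℕ} (h : ∀ r ∈ T, r < q)
    (hT : T.Nonempty) : GB ok (insert q T) ↔ ok {q} ∧ GB (fun U => ok (insert q U)) T := by
  rw [GB, GB, jtree_mn h hT, erase_insert_of_ne (h _ (mn_mem hT)).ne',
    jtree_gv fun r hr => h r (mem_of_mem_erase hr)]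
  simp only [insert_nonempty, hT, true_and, and_assoc]

open Classical in
theorem tree (ok : Finset ℕ → Prop) (S : Finset ℕ) (g : ℕ → ℝ) :
    ∏ r ∈ S, (1 - g r) =
      ∑ T ∈ S.powerset.filter (GV ok), (-1) ^ T.card * ∏ r ∈ T, g r +
      ∑ T ∈ S.powerset.filter (GB ok),
        (-1) ^ T.card * (∏ r ∈ T, g r) * ∏ r ∈ S.filter (fun r => r < mn T), (1 - g r) := by
  induction S using Finset.strongInduction generalizing ok with
  | H S ih =>
  rw [sum_filter, sum_filter, ← sum_add_distrib, sum_powerset_max, prod_one_sub_ordered,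
    if_pos (show GV ok ∅ by simp [GV]), if_neg (show ¬ GB ok ∅ by simp [GB]), sub_eq_add_neg,
    ← sum_neg_distrib]
  congr 1
  · simp
  refine sum_congr rfl fun q hq => ?_
  have hlt : ∀ T ∈ (S.filter fun r => r < q).powerset, ∀ r ∈ T, r < q := fun T hT r hr =>
    (mem_filter.1 (mem_powerset.1 hT hr)).2
  by_cases hok : ok {q}
  · have hs : S.filter (fun r => r < q) ⊂ S := filter_ssubset.2 ⟨q, hq, lt_irrefl q⟩
    rw [ih _ hs fun U => ok (insert q U), sum_filter, sum_filter, ← sum_add_distrib, mul_sum,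
      ← sum_neg_distrib]
    refine sum_congr rfl fun T hT => ?_
    have h := hlt T hT
    have hn : q ∉ T := fun e => lt_irrefl q (h q e)
    rw [card_insert_of_notMem hn, prod_insert hn, jtree_gv h]
    rcases T.eq_empty_or_nonempty with rfl | hne
    · simp [GV, GB, hok, jtree_mn1]
    · have e : (S.filter fun r => r < q).filter (fun r => r < mn T) =
          S.filter fun r => r < mn T := by
        rw [filter_filter]
        exact filter_congr fun r _ => and_iff_right_of_imp fun e => e.trans (h _ (mn_mem hne))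
      rw [jtree_gb h hne, jtree_mn h hne, e]
      simp only [hok, true_and]
      split_ifs <;> ring
  · rw [sum_eq_single ∅]
    · rw [if_neg fun e => hok ((jtree_gv (T := ∅) (by simp)).1 e).1, insert_empty,
        if_pos ((jtree_gb1 q).2 hok), jtree_mn1]
      simp
    · intro T hT hne
      rw [if_neg fun e => hok ((jtree_gv (hlt T hT)).1 e).1,
        if_neg fun e => hok ((jtree_gb (hlt T hT) (nonempty_iff_ne_empty.2 hne)).1 e).1, add_zero]
    · simp

end

end Pool.Agent.Jac
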