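import Pool.Agent.P.MP_45ff98_nt.JFLa
import Pool.Agent.P.MP_45ff98_nt.JTree

/-! The fundamental lemma of the sieve. -/

namespace Pool.Agent.Jac
open Finset

noncomputable section

open Classical in
/-- The weights of the beta sieve. -/
def JFL_w (e : ℕ) (D : ℝ) (S T : Finset ℕ) : ℝ :=
  if T ⊆ S ∧ GV (okB e D) T then (-1) ^ T.card else 0

open Classical in
/-- The boundary sum. -/
def JFL_err (e : ℕ) (D : ℝ) (S : Finset ℕ) (g : ℕ → ℝ) : ℝ :=
  ∑ T ∈ S.powerset.filter (GB (okB e D)),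
    (∏ r ∈ T, g r) * ∏ r ∈ S.filter (fun r => r < mn T), (1 - g r)

theorem JFL_gb {e : ℕ} {D : ℝ} {T : Finset ℕ} (h : GB (okB e D) T) :
    Even (e + T.card) ∧ D < (pr T : ℝ) * (mn T : ℝ) ^ 1215 := by
  have h1 := h.2.2
  unfold okB at h1
  by_cases h2 : Even (e + T.card)
  · exact ⟨h2, not_le.1 fun h3 => h1 fun _ => h3⟩
  · exact absurd (fun h3 => absurd h3 h2) h1

theorem JFL_tree (e : ℕ) (D : ℝ) {s S : Finset ℕ} (hs : s ⊆ S) (g : ℕ → ℝ) :
    ∑ T ∈ s.powerset, JFL_w e D S T * ∏ r ∈ T, g r =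
      ∏ r ∈ s, (1 - g r) - (-1) ^ e * JFL_err e D s g := by
  classical
  rw [tree (okB e D) s g, JFL_err, mul_sum]
  have h1 : ∑ T ∈ s.powerset, JFL_w e D S T * ∏ r ∈ T, g r =
      ∑ T ∈ s.powerset.filter (GV (okB e D)), (-1) ^ T.card * ∏ r ∈ T, g r := by
    rw [sum_filter]
    refine sum_congr rfl fun T hT => ?_
    have h2 : T ⊆ S := (mem_powerset.1 hT).trans hs
    unfold JFL_w
    by_cases h3 : GV (okB e D) T
    · rw [if_pos ⟨h2, h3⟩, if_pos h3]
    · rw [if_neg (fun h => h3 h.2), if_neg h3, zero_mul]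
  have h2 : ∑ T ∈ s.powerset.filter (GB (okB e D)),
      (-1 : ℝ) ^ T.card * (∏ r ∈ T, g r) * ∏ r ∈ s.filter (fun r => r < mn T), (1 - g r) =
      ∑ T ∈ s.powerset.filter (GB (okB e D)),
        (-1 : ℝ) ^ e * ((∏ r ∈ T, g r) * ∏ r ∈ s.filter (fun r => r < mn T), (1 - g r)) := by
    refine sum_congr rfl fun T hT => ?_
    have h3 := (JFL_gb (mem_filter.1 hT).2).1
    have h4 : (-1 : ℝ) ^ T.card = (-1) ^ e := by
      rcases Nat.even_or_odd e with he | he
      · rw [he.neg_one_pow, ((Nat.even_add.1 h3).1 he).neg_one_pow]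
      · have h5 : Odd T.card := Nat.not_even_iff_odd.1 fun h6 =>
          Nat.not_even_iff_odd.2 he ((Nat.even_add.1 h3).2 h6)
        rw [he.neg_one_pow, h5.neg_one_pow]
    rw [h4, mul_assoc]
  rw [h1, h2]
  ring

theorem JFL_err_nonneg (e : ℕ) (D : ℝ) (s : Finset ℕ) (g : ℕ → ℝ)
    (hg : ∀ r ∈ s, 0 ≤ g r ∧ g r ≤ 1) : 0 ≤ JFL_err e D s g := by
  classical
  unfold JFL_err
  refine sum_nonneg fun T hT => mul_nonneg (prod_nonneg fun r hr => ?_) (prod_nonneg fun r hr => ?_)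
  · exact (hg r (mem_powerset.1 (mem_filter.1 hT).1 hr)).1
  · exact sub_nonneg.2 (hg r (mem_filter.1 hr).1).2

theorem JFL_wts (e : ℕ) {D : ℝ} (hD : 1 ≤ D) {S : Finset ℕ} (hS : ∀ r ∈ S, r.Prime)
    (h0 : Even e → ∀ r ∈ S, ((r : ℕ) : ℝ) ≤ D) : Wts S D (JFL_w e D S) := by
  intro T
  unfold JFL_w
  split_ifs with h
  · refine ⟨by simp, fun _ => ⟨h.1, ?_⟩⟩
    exact beta_level e D hD T (fun r hr => hS r (h.1 hr)) (fun he r hr => h0 he r (h.1 hr)) h.2
  · simp

theorem JFL_one (s : Finset ℕ) : ∏ _r ∈ s, ((1 : ℝ) - 1) = if s = ∅ then 1 else 0 := by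
  split_ifs with h
  · simp [h]
  · rw [sub_self, prod_const, zero_pow (fun h1 => h (card_eq_zero.1 h1))]

theorem JFL_exp {z D m : ℝ} (hz : 2 ≤ z) (h : Real.log D ≤ m * Real.log z) :
    1 ≤ Real.exp (4 * m) * Real.exp (-4 * Real.log D / Real.log z) := by
  have hl : 0 < Real.log z := Real.log_pos (by linarith)
  rw [← Real.exp_add]
  refine Real.one_le_exp ?_
  have h1 : Real.log D / Real.log z ≤ m := (div_le_iff₀ hl).2 h
  have h2 : -4 * Real.log D / Real.log z = -4 * (Real.log D / Real.log z) := by ring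
  rw [h2]
  linarith

theorem JFL_log {e : ℕ} {z D : ℝ} (hD : 1 ≤ D) {T : Finset ℕ}
    (hT : ∀ r ∈ T, (r : ℝ) < z) (hz : 2 ≤ z) (h : GB (okB e D) T) :
    Real.log D ≤ (T.card + 1215) * Real.log z := by
  have h1 := (JFL_gb h).2
  have h2 : (pr T : ℝ) ≤ z ^ T.card := by
    rw [pr, Nat.cast_prod, ← prod_const]
    exact prod_le_prod (fun r _ => by positivity) fun r hr => (hT r hr).le
  have h3 : (mn T : ℝ) ^ 1215 ≤ z ^ 1215 :=
    pow_le_pow_left₀ (by positivity) (hT _ (mn_mem h.1)).le _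
  have h4 : D ≤ z ^ (T.card + 1215) := by
    rw [pow_add]
    exact h1.le.trans (mul_le_mul h2 h3 (pow_nonneg (Nat.cast_nonneg _) _)
      (pow_nonneg (by linarith) _))
  have h5 := Real.log_le_log (by linarith) h4
  rw [Real.log_pow] at h5
  push_cast at h5
  exact h5

theorem JFL_err_le : ∃ C : ℝ, Real.exp (4 * 1215) ≤ C ∧ ∀ (e : ℕ) (S : Finset ℕ) (z D : ℝ),
    2 ≤ z → z ≤ D ^ 4 → 1 ≤ D → (∀ r ∈ S, r.Prime ∧ (r : ℝ) < z) → (Even e → z ^ 1215 ≤ D) →
    ∀ g : ℕ → ℝ, Dens S g → JFL_err e D S g ≤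
      C * Real.exp (-4 * Real.log D / Real.log z) * ∏ r ∈ S, (1 - g r) := by
  classical
  obtain ⟨C, hC1, hC⟩ := layer
  refine ⟨2 * C * Real.exp (4 * 1215), by nlinarith [Real.exp_pos (4 * 1215)], ?_⟩
  intro e S z D hz hzD hD hS h0 g hg
  have hP : 0 ≤ ∏ r ∈ S, (1 - g r) :=
    prod_nonneg fun r hr => by have := (hg r hr).2.1; linarith
  have hlD : 0 ≤ Real.log D := Real.log_nonneg hD
  set K : ℝ := C * Real.exp (4 * 1215) * Real.exp (-4 * Real.log D / Real.log z) *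
    ∏ r ∈ S, (1 - g r) with hK
  have hK0 : 0 ≤ K := by positivity
  have key : ∀ n : ℕ, ∑ T ∈ (S.powerset.filter (GB (okB e D))).filter (fun T => T.card = n),
      (∏ r ∈ T, g r) * ∏ r ∈ S.filter (fun r => r < mn T), (1 - g r) ≤ K * (1 / 2) ^ n := by
    intro n
    rcases ((S.powerset.filter (GB (okB e D))).filter (fun T => T.card = n)).eq_empty_or_nonempty
      with h | ⟨T0, hT0⟩
    · rw [h, sum_empty]; positivity
    obtain ⟨h1, h2⟩ := mem_filter.1 hT0
    obtain ⟨h3, h4⟩ := mem_filter.1 h1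
    have hn : 1 ≤ n := h2 ▸ card_pos.2 h4.1
    have h5 := JFL_exp hz (JFL_log hD (fun r hr => (hS r (mem_powerset.1 h3 hr)).2) hz h4)
    rw [h2] at h5
    have hE : 0 < 1216 * Real.exp ((n : ℝ) / 405) := by positivity
    have hw : 1 ≤ Real.exp (Real.log D / (1216 * Real.exp ((n : ℝ) / 405))) :=
      Real.one_le_exp (by positivity)
    have hlz : Real.log z ≤ 5000 * Real.exp ((n : ℝ) / 405) *
        Real.log (Real.exp (Real.log D / (1216 * Real.exp ((n : ℝ) / 405)))) := by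
      rw [Real.log_exp]
      have h6 := Real.log_le_log (by linarith) hzD
      rw [Real.log_pow] at h6
      have h7 : 5000 * Real.exp ((n : ℝ) / 405) * (Real.log D / (1216 * Real.exp ((n : ℝ) / 405)))
          = 5000 / 1216 * Real.log D := by
        field_simp
      rw [h7]
      push_cast at h6
      linarith
    have h8 := hC S g z _ n hn hw hS hg hlz
    refine le_trans (le_trans (sum_le_sum_of_subset_of_nonneg (fun T hT => ?_) fun T hT _ => ?_)
      h8) ?_
    · obtain ⟨a1, a2⟩ := mem_filter.1 hT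
      obtain ⟨a3, a4⟩ := mem_filter.1 a1
      have a5 := mem_powerset.1 a3
      refine mem_filter.2 ⟨a3, a2, fun r hr => ?_⟩
      have a6 := beta_min e D hD T (fun r hr => (hS r (a5 hr)).1)
        (fun he r hr => (pow_le_pow_left₀ (by positivity) (hS r (a5 hr)).2.le _).trans (h0 he)) a4
      rw [a2] at a6
      have a7 : (0 : ℝ) < mn T := by exact_mod_cast (hS _ (a5 (mn_mem a4.1))).1.pos
      have a8 : Real.log D / (1216 * Real.exp ((n : ℝ) / 405)) ≤ Real.log (mn T) := by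
        rw [div_le_iff₀ hE]; linarith
      have a9 : ((mn T : ℕ) : ℝ) ≤ r := by exact_mod_cast mn_le hr
      calc _ ≤ Real.exp (Real.log (mn T)) := Real.exp_le_exp.2 a8
        _ = mn T := Real.exp_log a7
        _ ≤ r := a9
    · refine mul_nonneg (prod_nonneg fun r hr => ?_) (prod_nonneg fun r hr => ?_)
      · exact (hg r (mem_powerset.1 (mem_filter.1 hT).1 hr)).1
      · have := (hg r (mem_filter.1 hr).1).2.1
        linarith
    · have b1 : Real.exp (-(n : ℝ)) ≤ (1 / 2) ^ n := by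
        have b2 : Real.exp (-(n : ℝ)) = Real.exp (-1) ^ n := by
          rw [← Real.exp_nat_mul]; congr 1; ring
        rw [b2]
        refine pow_le_pow_left₀ (by positivity) ?_ n
        rw [Real.exp_neg, ← one_div]
        refine one_div_le_one_div_of_le (by norm_num) ?_
        have := Real.add_one_le_exp (1 : ℝ)
        linarith
      have b3 : Real.exp (-5 * (n : ℝ)) * Real.exp (4 * ((n : ℝ) + 1215)) =
          Real.exp (4 * 1215) * Real.exp (-(n : ℝ)) := by
        rw [← Real.exp_add, ← Real.exp_add]; congr 1; ring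
      have b4 : 0 ≤ C * Real.exp (-5 * (n : ℝ)) * ∏ r ∈ S, (1 - g r) := by positivity
      calc _ ≤ (C * Real.exp (-5 * (n : ℝ)) * ∏ r ∈ S, (1 - g r)) *
            (Real.exp (4 * ((n : ℝ) + 1215)) * Real.exp (-4 * Real.log D / Real.log z)) :=
            le_mul_of_one_le_right b4 h5
        _ = C * (Real.exp (-5 * (n : ℝ)) * Real.exp (4 * ((n : ℝ) + 1215))) *
            Real.exp (-4 * Real.log D / Real.log z) * ∏ r ∈ S, (1 - g r) := by ring
        _ = K * Real.exp (-(n : ℝ)) := by rw [b3, hK]; ring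
        _ ≤ K * (1 / 2) ^ n := mul_le_mul_of_nonneg_left b1 hK0
  unfold JFL_err
  rw [← sum_fiberwise_of_maps_to (g := fun T : Finset ℕ => T.card) (t := range (S.card + 1))
    (fun T hT => mem_range.2 (Nat.lt_succ_of_le
      (card_le_card (mem_powerset.1 (mem_filter.1 hT).1))))]
  refine (sum_le_sum fun n _ => key n).trans ?_
  rw [← mul_sum]
  calc _ ≤ K * 2 := mul_le_mul_of_nonneg_left (sum_geometric_two_le _) hK0
    _ = _ := by rw [hK]; ring

theorem fund_lemma : ∃ C : ℝ, 1 ≤ C ∧ ∀ (S : Finset ℕ) (z D : ℝ), 2 ≤ z → z ≤ D ^ 4 → 1 ≤ D →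
    (∀ r ∈ S, r.Prime ∧ (r : ℝ) < z) →
    ∃ wu wl : Finset ℕ → ℝ, Wts S D wu ∧ Wts S D wl ∧
      (∀ s ⊆ S, ∑ T ∈ s.powerset, wl T ≤ (if s = ∅ then 1 else 0) ∧
        (if s = ∅ then 1 else 0) ≤ ∑ T ∈ s.powerset, wu T) ∧
      ∀ g : ℕ → ℝ, Dens S g →
        ∑ T ∈ S.powerset, wu T * ∏ r ∈ T, g r ≤
          (1 + C * Real.exp (-4 * Real.log D / Real.log z)) * ∏ r ∈ S, (1 - g r) ∧
        (1 - C * Real.exp (-4 * Real.log D / Real.log z)) * ∏ r ∈ S, (1 - g r) ≤
          ∑ T ∈ S.powerset, wl T * ∏ r ∈ T, g r := by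
  obtain ⟨C, hC1, hC⟩ := JFL_err_le
  refine ⟨C, (Real.one_le_exp (by norm_num)).trans hC1, fun S z D hz hzD hD hS => ?_⟩
  have hSp : ∀ r ∈ S, r.Prime := fun r hr => (hS r hr).1
  have h1o : ¬ Even 1 := by decide
  have u1 : Wts S D (JFL_w 1 D S) := JFL_wts 1 hD hSp fun h => absurd h h1o
  have u2 : ∀ s ⊆ S, (if s = ∅ then (1 : ℝ) else 0) ≤ ∑ T ∈ s.powerset, JFL_w 1 D S T := by
    intro s hs
    have a1 := JFL_tree 1 D hs (fun _ => 1)
    have a2 := JFL_err_nonneg 1 D s (fun _ => 1) (fun _ _ => ⟨zero_le_one, le_rfl⟩)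
    rw [JFL_one] at a1
    simp only [prod_const_one, mul_one, pow_one] at a1
    linarith
  have u3 : ∀ g : ℕ → ℝ, Dens S g → ∑ T ∈ S.powerset, JFL_w 1 D S T * ∏ r ∈ T, g r ≤
      (1 + C * Real.exp (-4 * Real.log D / Real.log z)) * ∏ r ∈ S, (1 - g r) := by
    intro g hg
    have a1 := JFL_tree 1 D (subset_refl S) g
    have a2 := hC 1 S z D hz hzD hD hS (fun h => absurd h h1o) g hg
    rw [pow_one] at a1
    linarith
  by_cases hc : z ^ 1215 ≤ D
  · have l1 : Wts S D (JFL_w 0 D S) := by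
      refine JFL_wts 0 hD hSp fun _ r hr => ?_
      refine (hS r hr).2.le.trans (le_trans ?_ hc)
      exact le_self_pow₀ (by linarith) (by norm_num)
    refine ⟨_, _, u1, l1, fun s hs => ⟨?_, u2 s hs⟩, fun g hg => ⟨u3 g hg, ?_⟩⟩
    · have a1 := JFL_tree 0 D hs (fun _ => 1)
      have a2 := JFL_err_nonneg 0 D s (fun _ => 1) (fun _ _ => ⟨zero_le_one, le_rfl⟩)
      rw [JFL_one] at a1
      simp only [prod_const_one, mul_one, pow_zero] at a1
      linarith
    · have a1 := JFL_tree 0 D (subset_refl S) g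
      have a2 := hC 0 S z D hz hzD hD hS (fun _ => hc) g hg
      rw [pow_zero] at a1
      linarith
  · refine ⟨_, fun _ => 0, u1, fun T => by simp, fun s hs => ⟨?_, u2 s hs⟩,
      fun g hg => ⟨u3 g hg, ?_⟩⟩
    · rw [sum_const_zero]
      split_ifs <;> norm_num
    · have hP : 0 ≤ ∏ r ∈ S, (1 - g r) :=
        prod_nonneg fun r hr => by have := (hg r hr).2.1; linarith
      have a1 : Real.log D ≤ 1215 * Real.log z := by
        have a2 := Real.log_le_log (by linarith) (not_le.1 hc).le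
        rw [Real.log_pow] at a2
        push_cast at a2
        exact a2
      have a3 := JFL_exp hz a1
      have a4 : 1 ≤ C * Real.exp (-4 * Real.log D / Real.log z) :=
        a3.trans (mul_le_mul_of_nonneg_right hC1 (Real.exp_pos _).le)
      simp only [zero_mul, sum_const_zero]
      exact mul_nonpos_of_nonpos_of_nonneg (by linarith) hP

end

end Pool.Agent.Jac
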