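import Pool.Agent.P.MP_45ff98_nt.JMert

/-! Two estimates for the beta sieve. -/

namespace Pool.Agent.Jac
open Finset

noncomputable section

theorem jfla_sum (S : Finset ℕ) (g : ℕ → ℝ) (n : ℕ) (hg : ∀ r ∈ S, 0 ≤ g r) :
    ∑ T ∈ S.powerset.filter (fun T => T.card = n), ∏ r ∈ T, g r ≤
      Real.exp (-6 * n) * Real.exp (404 * ∑ r ∈ S, g r) := by
  have h6 : Real.exp 6 ≤ 404 := by
    have h1 : Real.exp 6 = Real.exp 1 ^ 6 := by rw [← Real.exp_nat_mul]; norm_num
    rw [h1]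
    calc Real.exp 1 ^ 6 ≤ (2.7182818286 : ℝ) ^ 6 :=
          pow_le_pow_left₀ (Real.exp_pos 1).le Real.exp_one_lt_d9.le 6
      _ ≤ 404 := by norm_num
  have h1 : ∑ T ∈ S.powerset.filter (fun T => T.card = n), ∏ r ∈ T, g r ≤
      ∑ T ∈ S.powerset.filter (fun T => T.card = n), Real.exp (-6 * n) * ∏ r ∈ T, (404 * g r) := by
    refine sum_le_sum fun T hT => ?_
    obtain ⟨h1, h2⟩ := mem_filter.1 hT
    have h3 : 0 ≤ ∏ r ∈ T, g r := prod_nonneg fun r hr => hg r (mem_powerset.1 h1 hr)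
    rw [prod_mul_distrib, prod_const, h2, ← mul_assoc]
    refine le_mul_of_one_le_left h3 ?_
    have h4 : Real.exp (6 * n) ≤ 404 ^ n := by
      rw [mul_comm, Real.exp_nat_mul]
      exact pow_le_pow_left₀ (Real.exp_pos 6).le h6 n
    calc (1 : ℝ) = Real.exp (-6 * n) * Real.exp (6 * n) := by rw [← Real.exp_add]; simp
      _ ≤ _ := mul_le_mul_of_nonneg_left h4 (Real.exp_pos _).le
  refine h1.trans ?_
  rw [← mul_sum]
  refine mul_le_mul_of_nonneg_left ?_ (Real.exp_pos _).le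
  calc ∑ T ∈ S.powerset.filter (fun T => T.card = n), ∏ r ∈ T, (404 * g r)
      ≤ ∑ T ∈ S.powerset, ∏ r ∈ T, (404 * g r) :=
        sum_le_sum_of_subset_of_nonneg (filter_subset _ _) fun T hT _ =>
          prod_nonneg fun r hr => mul_nonneg (by norm_num) (hg r (mem_powerset.1 hT hr))
    _ = ∏ r ∈ S, (1 + 404 * g r) := (prod_one_add S).symm
    _ ≤ ∏ r ∈ S, Real.exp (404 * g r) := by
        refine prod_le_prod (fun r hr => ?_) fun r _ => ?_
        · have := hg r hr; positivity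
        · rw [add_comm]; exact Real.add_one_le_exp _
    _ = Real.exp (404 * ∑ r ∈ S, g r) := by rw [mul_sum, Real.exp_sum]

theorem layer : ∃ C : ℝ, 1 ≤ C ∧ ∀ (S : Finset ℕ) (g : ℕ → ℝ) (z w : ℝ) (n : ℕ), 1 ≤ n → 1 ≤ w →
    (∀ r ∈ S, r.Prime ∧ (r : ℝ) < z) → Dens S g →
    Real.log z ≤ 5000 * Real.exp (n / 405) * Real.log w →
    ∑ T ∈ S.powerset.filter (fun T => T.card = n ∧ ∀ r ∈ T, w ≤ ((r : ℕ) : ℝ)),
        (∏ r ∈ T, g r) * ∏ r ∈ S.filter (fun r => r < mn T), (1 - g r) ≤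
      C * Real.exp (-5 * n) * ∏ r ∈ S, (1 - g r) := by
  obtain ⟨K, hK, hd⟩ := dim_one
  refine ⟨(5000 * K) ^ 405, one_le_pow₀ (by linarith), fun S g z w n hn hw hS hg hz => ?_⟩
  set ρ : ℝ := 5000 * Real.exp (n / 405) with hρ
  have e1 : 1 ≤ Real.exp (n / 405) := Real.one_le_exp (by positivity)
  have hρ1 : 1 ≤ ρ := by linarith
  have hKρ : 0 < K * ρ := by positivity
  set Sh := S.filter (fun r : ℕ => w ≤ (r : ℝ)) with hSh
  set Sl := S.filter (fun r : ℕ => ¬ w ≤ (r : ℝ)) with hSl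
  obtain ⟨d1, d2⟩ := hd Sh g z w ρ hw hρ1
    (fun r hr => ⟨(hS r (mem_filter.1 hr).1).1, (mem_filter.1 hr).2, (hS r (mem_filter.1 hr).1).2⟩)
    (fun r hr => hg r (mem_filter.1 hr).1) hz
  have g0 : ∀ r ∈ S, 0 ≤ 1 - g r := fun r hr => by have := (hg r hr).2.1; linarith
  have g1 : ∀ r ∈ S, 1 - g r ≤ 1 := fun r hr => by have := (hg r hr).1; linarith
  have l0 : 0 ≤ ∏ r ∈ Sl, (1 - g r) := prod_nonneg fun r hr => g0 r (mem_filter.1 hr).1
  have p0 : 0 ≤ ∏ r ∈ S, (1 - g r) := prod_nonneg g0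
  have l1 : ∏ r ∈ Sl, (1 - g r) ≤ K * ρ * ∏ r ∈ S, (1 - g r) := by
    rw [← prod_filter_mul_prod_filter_not S (fun r : ℕ => w ≤ (r : ℝ)), ← mul_assoc]
    exact le_mul_of_one_le_left l0 d2
  have s1 : ∑ T ∈ S.powerset.filter (fun T => T.card = n ∧ ∀ r ∈ T, w ≤ ((r : ℕ) : ℝ)),
        (∏ r ∈ T, g r) * ∏ r ∈ S.filter (fun r => r < mn T), (1 - g r) ≤
      ∑ T ∈ S.powerset.filter (fun T => T.card = n ∧ ∀ r ∈ T, w ≤ ((r : ℕ) : ℝ)),
        (∏ r ∈ T, g r) * (K * ρ * ∏ r ∈ S, (1 - g r)) := by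
    refine sum_le_sum fun T hT => ?_
    obtain ⟨h1, h2, h3⟩ := mem_filter.1 hT
    refine mul_le_mul_of_nonneg_left (le_trans ?_ l1)
      (prod_nonneg fun r hr => (hg r (mem_powerset.1 h1 hr)).1)
    have h4 : w ≤ (mn T : ℝ) := h3 _ (mn_mem (card_pos.1 (by omega)))
    refine prod_le_prod_of_subset_of_le_one (fun r hr => ?_)
      (fun r hr => g0 r (mem_filter.1 hr).1) fun r hr _ => g1 r (mem_filter.1 hr).1
    obtain ⟨h5, h6⟩ := mem_filter.1 hr
    refine mem_filter.2 ⟨h5, ?_⟩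
    have : (r : ℝ) < mn T := (not_le.1 h6).trans_le h4
    exact_mod_cast this
  refine s1.trans ?_
  rw [← sum_mul]
  have s2 : S.powerset.filter (fun T => T.card = n ∧ ∀ r ∈ T, w ≤ ((r : ℕ) : ℝ)) =
      Sh.powerset.filter (fun T => T.card = n) := by
    ext T
    simp only [mem_filter, mem_powerset, hSh, subset_iff]
    constructor
    · rintro ⟨h1, h2, h3⟩
      exact ⟨fun r hr => ⟨h1 hr, h3 r hr⟩, h2⟩
    · rintro ⟨h1, h2⟩
      exact ⟨fun r hr => (h1 hr).1, h2, fun r hr => (h1 hr).2⟩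
  rw [s2]
  have s3 := jfla_sum Sh g n fun r hr => (hg r (mem_filter.1 hr).1).1
  have s4 : Real.exp (404 * ∑ r ∈ Sh, g r) ≤ (K * ρ) ^ 404 := by
    calc Real.exp (404 * ∑ r ∈ Sh, g r) ≤ Real.exp ((404 : ℕ) * Real.log (K * ρ)) :=
          Real.exp_le_exp.2 (by push_cast; linarith)
      _ = (K * ρ) ^ 404 := by rw [Real.exp_nat_mul, Real.exp_log hKρ]
  have s5 : (K * ρ) ^ 404 * (K * ρ) = (5000 * K) ^ 405 * Real.exp n := by
    have : Real.exp n = Real.exp (n / 405) ^ 405 := by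
      rw [← Real.exp_nat_mul]; congr 1; push_cast; ring
    rw [this, ← pow_succ, ← mul_pow, hρ]
    congr 1; ring
  have s6 : Real.exp (-5 * n) = Real.exp (-6 * n) * Real.exp n := by
    rw [← Real.exp_add]; congr 1; ring
  calc (∑ T ∈ Sh.powerset.filter (fun T => T.card = n), ∏ r ∈ T, g r) *
        (K * ρ * ∏ r ∈ S, (1 - g r))
      ≤ (Real.exp (-6 * n) * (K * ρ) ^ 404) * (K * ρ * ∏ r ∈ S, (1 - g r)) :=
        mul_le_mul_of_nonneg_right
          (s3.trans (mul_le_mul_of_nonneg_left s4 (Real.exp_pos _).le)) (by positivity)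
    _ = Real.exp (-6 * n) * ((K * ρ) ^ 404 * (K * ρ)) * ∏ r ∈ S, (1 - g r) := by
        generalize (K * ρ) ^ 404 = a
        ring
    _ = _ := by
        rw [s5, s6]
        generalize (5000 * K) ^ 405 = a
        ring

theorem jfla_self {ok : Finset ℕ → Prop} {T : Finset ℕ} (h : GV ok T) (hT : T.Nonempty) : ok T := by
  have := h _ (mn_mem hT)
  rwa [top, filter_true_of_mem fun q hq => mn_le hq] at this

theorem jfla_tail {ok : Finset ℕ → Prop} {a : ℕ} {s : Finset ℕ} (ha : ∀ x ∈ s, a < x)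
    (h : GV ok (insert a s)) : GV ok s := by
  intro p hp
  have := h p (mem_insert_of_mem hp)
  rwa [top, filter_insert, if_neg (not_le.2 (ha p hp))] at this

theorem jfla_mn {a : ℕ} {s : Finset ℕ} (ha : ∀ x ∈ s, a < x) : mn (insert a s) = a :=
  mn_eq (mem_insert_self a s) fun q hq => by
    rcases mem_insert.1 hq with rfl | hq
    · exact le_rfl
    · exact (ha q hq).le

theorem jfla_step {e : ℕ} {D : ℝ} {a : ℕ} {s : Finset ℕ} (ha : ∀ x ∈ s, a < x) (a1 : 1 ≤ a)
    (hv : GV (okB e D) (insert a s)) :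
    (s = ∅ ∧ Even e) ∨ (pr s : ℝ) * (a : ℝ) ^ 1215 ≤ D := by
  have hn : a ∉ s := fun h => lt_irrefl _ (ha a h)
  have a1' : (1 : ℝ) ≤ a := by exact_mod_cast a1
  rcases Nat.even_or_odd (e + s.card) with he | he
  · rcases s.eq_empty_or_nonempty with rfl | hs
    · exact Or.inl ⟨rfl, by simpa using he⟩
    · right
      refine le_trans ?_ (jfla_self (jfla_tail ha hv) hs he)
      have : (a : ℝ) ≤ mn s := by exact_mod_cast (ha _ (mn_mem hs)).le
      exact mul_le_mul_of_nonneg_left (pow_le_pow_left₀ (by linarith) this _) (by positivity)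
  · right
    have h1 := jfla_self hv (insert_nonempty a s)
      (by rw [card_insert_of_notMem hn, ← add_assoc]; exact he.add_one)
    rw [jfla_mn ha, pr_insert hn] at h1
    refine le_trans (mul_le_mul_of_nonneg_right ?_ (by positivity)) h1
    push_cast
    exact le_mul_of_one_le_left (by positivity) a1'

theorem jfla_log (e : ℕ) (D : ℝ) (hD : 1 ≤ D) (T : Finset ℕ) : (∀ r ∈ T, r.Prime) →
    (Even e → ∀ r ∈ T, ((r : ℕ) : ℝ) ^ 1215 ≤ D) → GV (okB e D) T →
    Real.exp (-(T.card / 405)) * Real.log D ≤ Real.log D - Real.log (pr T) := by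
  induction T using Finset.induction_on_min with
  | empty => intros; simp [pr]
  | insert a s ha ih =>
    intro hT h0 hv
    have hn : a ∉ s := fun h => lt_irrefl _ (ha a h)
    have hs : ∀ r ∈ s, r.Prime := fun r hr => hT r (mem_insert_of_mem hr)
    have i1 := ih hs (fun he r hr => h0 he r (mem_insert_of_mem hr)) (jfla_tail ha hv)
    have pa := hT a (mem_insert_self a s)
    have a0 : (0 : ℝ) < a := by exact_mod_cast pa.pos
    have s0 : (0 : ℝ) < pr s := by exact_mod_cast pr_pos hs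
    have h1 : (pr s : ℝ) * (a : ℝ) ^ 1215 ≤ D := by
      rcases jfla_step ha pa.pos hv with ⟨rfl, he⟩ | h
      · simpa [pr] using h0 he a (mem_insert_self _ _)
      · exact h
    have h2 := Real.log_le_log (by positivity) h1
    rw [Real.log_mul s0.ne' (by positivity), Real.log_pow] at h2
    rw [card_insert_of_notMem hn, pr_insert hn]
    push_cast at h2 ⊢
    rw [Real.log_mul a0.ne' s0.ne']
    have h3 : Real.exp (-(((s.card : ℝ) + 1) / 405)) =
        Real.exp (-(1 / 405)) * Real.exp (-(s.card / 405)) := by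
      rw [← Real.exp_add]; congr 1; ring
    have h4 : Real.exp (-(1 / 405)) ≤ 1214 / 1215 := by
      rw [Real.exp_neg, inv_le_comm₀ (Real.exp_pos _) (by norm_num)]
      have := Real.add_one_le_exp (1 / 405 : ℝ)
      norm_num at this ⊢
      linarith
    have h5 : 0 ≤ Real.exp (-(s.card / 405)) * Real.log D :=
      mul_nonneg (Real.exp_pos _).le (Real.log_nonneg hD)
    rw [h3, mul_assoc]
    have h6 := mul_le_mul_of_nonneg_right h4 h5
    linarith

theorem beta_min (e : ℕ) (D : ℝ) (hD : 1 ≤ D) (T : Finset ℕ) (hT : ∀ r ∈ T, r.Prime)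
    (h0 : Even e → ∀ r ∈ T, ((r : ℕ) : ℝ) ^ 1215 ≤ D) (hb : GB (okB e D) T) :
    Real.log D ≤ 1216 * Real.exp (T.card / 405) * Real.log (mn T) := by
  obtain ⟨hne, hv, hno⟩ := hb
  have hm := mn_mem hne
  have hs : ∀ r ∈ T.erase (mn T), r.Prime := fun r hr => hT r (mem_of_mem_erase hr)
  have i1 := jfla_log e D hD _ hs (fun he r hr => h0 he r (mem_of_mem_erase hr)) hv
  have h1 : D < (pr T : ℝ) * (mn T : ℝ) ^ 1215 := by
    by_contra hc
    exact hno fun _ => not_lt.1 hc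
  have a1 : (1 : ℝ) ≤ mn T := by exact_mod_cast (hT _ hm).pos
  have s0 : (0 : ℝ) < pr (T.erase (mn T)) := by exact_mod_cast pr_pos hs
  have h2 : pr T = mn T * pr (T.erase (mn T)) := by
    rw [← pr_insert (notMem_erase _ _), insert_erase hm]
  have h3 := Real.log_le_log (by linarith) h1.le
  rw [h2] at h3
  push_cast at h3
  rw [Real.log_mul (by positivity) (by positivity), Real.log_mul (by positivity) s0.ne',
    Real.log_pow] at h3
  push_cast at h3
  have l0 : 0 ≤ Real.log (mn T) := Real.log_nonneg a1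
  have h4 : Real.exp (-(((T.erase (mn T)).card : ℝ) / 405)) * Real.log D ≤
      1216 * Real.log (mn T) := by linarith
  have h5 : 1 ≤ Real.exp (T.card / 405) * Real.exp (-(((T.erase (mn T)).card : ℝ) / 405)) := by
    rw [← Real.exp_add]
    refine Real.one_le_exp ?_
    have : ((T.erase (mn T)).card : ℝ) ≤ T.card := by exact_mod_cast card_erase_le
    linarith
  calc Real.log D ≤ Real.exp (T.card / 405) * Real.exp (-(((T.erase (mn T)).card : ℝ) / 405)) *
        Real.log D := le_mul_of_one_le_left (Real.log_nonneg hD) h5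
    _ = Real.exp (T.card / 405) *
        (Real.exp (-(((T.erase (mn T)).card : ℝ) / 405)) * Real.log D) := mul_assoc _ _ _
    _ ≤ Real.exp (T.card / 405) * (1216 * Real.log (mn T)) :=
        mul_le_mul_of_nonneg_left h4 (Real.exp_pos _).le
    _ = _ := by ring

theorem beta_level (e : ℕ) (D : ℝ) (hD : 1 ≤ D) (T : Finset ℕ) (hT : ∀ r ∈ T, r.Prime)
    (h0 : Even e → ∀ r ∈ T, ((r : ℕ) : ℝ) ≤ D) (hv : GV (okB e D) T) : (pr T : ℝ) ≤ D := by
  induction T using Finset.induction_on_min with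
  | empty => simpa [pr] using hD
  | insert a s ha _ =>
    have hn : a ∉ s := fun h => lt_irrefl _ (ha a h)
    have pa := hT a (mem_insert_self a s)
    have a1 : (1 : ℝ) ≤ a := by exact_mod_cast pa.pos
    rw [pr_insert hn]
    push_cast
    rcases jfla_step ha pa.pos hv with ⟨rfl, he⟩ | h
    · simpa [pr] using h0 he a (mem_insert_self _ _)
    · refine le_trans ?_ h
      rw [mul_comm]
      exact mul_le_mul_of_nonneg_left (le_self_pow₀ a1 (by norm_num)) (by positivity)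

end

end Pool.Agent.Jac
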