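import Pool.Agent.P.MP_45ff98_nt.JVal

/-! Splitting a chain into its big and its small part. -/

namespace Pool.Agent.Jac
open Finset

noncomputable section

theorem jg0_mem_fam {P : Par} {e t p : ℕ} {T : Finset ℕ} :
    T ∈ fam P e t p ↔ T ⊆ PP P.k0 p ∧ GF P e t T := by
  classical
  simp [fam]

theorem jg0_mem_NN {P : Par} {t0 z om : ℕ} {T : Finset ℕ} :
    T ∈ NN P t0 z om ↔
      T ⊆ PP P.kW z ∧ Valid 0 t0 T ∧ t0 ≤ P.CW * P.kW + ks T ∧ T.card ≤ om := by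
  classical
  simp [NN]

theorem jg0_lt {P : Par} {z : ℕ} {A B : Finset ℕ} (hA : A ⊆ PP P.kW z)
    (hB : B ⊆ PP P.k0 (2 ^ (P.kW - 1))) : ∀ a ∈ A, ∀ b ∈ B, b < a := by
  intro a ha b hb
  obtain ⟨-, ap, ak⟩ := mem_PP.1 (hA ha)
  obtain ⟨bl, -, -⟩ := mem_PP.1 (hB hb)
  exact bl.trans_le ((le_kk_iff ap.ne_zero).1 ak)

theorem jg0_disj {A B : Finset ℕ} (hAB : ∀ a ∈ A, ∀ b ∈ B, b < a) : Disjoint A B :=
  disjoint_left.2 fun a ha hb => lt_irrefl a (hAB a ha a hb)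

theorem jg0_mn {A B : Finset ℕ} (hB : B.Nonempty) (hAB : ∀ a ∈ A, ∀ b ∈ B, b < a) :
    mn (A ∪ B) = mn B := by
  refine mn_eq (mem_union_right _ (mn_mem hB)) fun q hq => ?_
  rcases mem_union.1 hq with hq | hq
  · exact (hAB q hq _ (mn_mem hB)).le
  · exact mn_le hq

theorem jg0_big {P : Par} {z : ℕ} {A B : Finset ℕ} (hA : A ⊆ PP P.kW z)
    (hB : B ⊆ PP P.k0 (2 ^ (P.kW - 1))) :
    (A ∪ B).filter (fun q => P.kW ≤ kk q) = A ∧
      (A ∪ B).filter (fun q => ¬ P.kW ≤ kk q) = B := by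
  have hb : ∀ q ∈ B, ¬ P.kW ≤ kk q := fun q hq => by
    obtain ⟨bl, bp, -⟩ := mem_PP.1 (hB hq)
    exact not_le.2 ((kk_lt_iff bp.ne_zero).2 bl)
  have ha : ∀ q ∈ A, P.kW ≤ kk q := fun q hq => (mem_PP.1 (hA hq)).2.2
  constructor
  · ext q
    simp only [mem_filter, mem_union]
    exact ⟨fun ⟨h1, h2⟩ => h1.resolve_right fun h => hb q h h2, fun h => ⟨Or.inl h, ha q h⟩⟩
  · ext q
    simp only [mem_filter, mem_union]
    exact ⟨fun ⟨h1, h2⟩ => h1.resolve_left fun h => h2 (ha q h), fun h => ⟨Or.inr h, hb q h⟩⟩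

theorem jg0_join {P : Par} {y z t0 L om : ℕ} (h : Setup P y z t0 L) {A B : Finset ℕ}
    (hA : A ∈ NN P t0 z om) (hB : B ∈ famW P A.card (t0 - ks A)) :
    A ∪ B ∈ fam P 0 t0 z ∧ pr (A ∪ B) = pr A * pr B ∧ mn (A ∪ B) = mn B := by
  obtain ⟨a1, a2, -, -⟩ := jg0_mem_NN.1 hA
  obtain ⟨b1, b2⟩ := jg0_mem_fam.1 hB
  have hne : B.Nonempty := b2.1.1
  have hlt := jg0_lt a1 b1
  have h1 := h.kw
  have h2 := h.k1
  have h3 := h.kW
  refine ⟨jg0_mem_fam.2 ⟨union_subset ?_ ?_, ?_⟩, pr_union (jg0_disj hlt), jg0_mn hne hlt⟩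
  · exact a1.trans (PP_mono (by omega) le_rfl)
  · exact b1.trans (PP_mono le_rfl h.hz)
  · refine (GF_union hne hlt).2 ⟨a2, fun p hp => ?_, by simpa using b2⟩
    have := (mem_PP.1 (a1 hp)).2.2
    exact ⟨fun hh => by omega, fun hh => by omega⟩

theorem jg0_cut {P : Par} {y z t0 L om : ℕ} (h : Setup P y z t0 L) {T : Finset ℕ}
    (hT : T ∈ fam P 0 t0 z) (hc : T.card ≤ om) :
    T.filter (fun q => P.kW ≤ kk q) ∈ NN P t0 z om ∧
      T.filter (fun q => ¬ P.kW ≤ kk q) ∈ famW P (T.filter (fun q => P.kW ≤ kk q)).card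
        (t0 - ks (T.filter (fun q => P.kW ≤ kk q))) := by
  obtain ⟨t1, t2⟩ := jg0_mem_fam.1 hT
  set A := T.filter (fun q => P.kW ≤ kk q) with hA
  set B := T.filter (fun q => ¬ P.kW ≤ kk q) with hB
  have hU : A ∪ B = T := filter_union_filter_not_eq _ _
  have h2 := h.k1
  have h3 := h.kW
  have hne : B.Nonempty := by
    refine ⟨mn T, mem_filter.2 ⟨mn_mem t2.1.1, ?_⟩⟩
    have := t2.2.2.2.1
    omega
  have a1 : A ⊆ PP P.kW z := fun q hq => by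
    obtain ⟨q1, q2⟩ := mem_filter.1 hq
    obtain ⟨r1, r2, -⟩ := mem_PP.1 (t1 q1)
    exact mem_PP.2 ⟨r1, r2, q2⟩
  have b1 : B ⊆ PP P.k0 (2 ^ (P.kW - 1)) := fun q hq => by
    obtain ⟨q1, q2⟩ := mem_filter.1 hq
    obtain ⟨-, r2, r3⟩ := mem_PP.1 (t1 q1)
    exact mem_PP.2 ⟨(kk_lt_iff r2.ne_zero).1 (not_le.1 q2), r2, r3⟩
  have hlt := jg0_lt a1 b1
  have hG : GF P 0 t0 (A ∪ B) := hU ▸ t2
  obtain ⟨g1, -, g3⟩ := (GF_union hne hlt).1 hG
  refine ⟨jg0_mem_NN.2 ⟨a1, g1, ?_, (card_filter_le _ _).trans hc⟩,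
    jg0_mem_fam.2 ⟨b1, by simpa using g3⟩⟩
  have hm := B.max'_mem hne
  obtain ⟨m1, m2⟩ := mem_filter.1 hm
  have e1 : abv T (B.max' hne) = A := by
    ext q
    simp only [abv, mem_filter]
    constructor
    · rintro ⟨q1, q2⟩
      refine mem_filter.2 ⟨q1, ?_⟩
      by_contra hq
      exact absurd (B.le_max' q (mem_filter.2 ⟨q1, hq⟩)) (not_le.2 q2)
    · intro hq
      exact ⟨(mem_filter.1 hq).1, hlt q hq _ hm⟩
  have := (t2.2.1 _ m1).1 (not_le.1 m2)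
  rwa [e1] at this

theorem jg0_sum {P : Par} {y z t0 L : ℕ} (h : Setup P y z t0 L) (om : ℕ)
    (f : Finset ℕ → ℝ) :
    ∑ T ∈ (fam P 0 t0 z).filter
        (fun T => T.filter (fun q => P.kW ≤ kk q) ∈ NN P t0 z om ∧
          T.filter (fun q => ¬ P.kW ≤ kk q) ∈ famW P (T.filter (fun q => P.kW ≤ kk q)).card
            (t0 - ks (T.filter (fun q => P.kW ≤ kk q)))), f T =
      ∑ A ∈ NN P t0 z om, ∑ B ∈ famW P A.card (t0 - ks A), f (A ∪ B) := by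
  rw [sum_sigma']
  symm
  refine sum_bij' (fun x _ => x.1 ∪ x.2)
    (fun T _ => ⟨T.filter (fun q => P.kW ≤ kk q), T.filter (fun q => ¬ P.kW ≤ kk q)⟩)
    ?_ ?_ ?_ ?_ ?_
  · rintro ⟨A, B⟩ hx
    obtain ⟨hA, hB⟩ := mem_sigma.1 hx
    obtain ⟨e1, e2⟩ := jg0_big (jg0_mem_NN.1 hA).1 (jg0_mem_fam.1 hB).1
    refine mem_filter.2 ⟨(jg0_join h hA hB).1, ?_⟩
    simp only at e1 e2 ⊢
    rw [e1, e2]
    exact ⟨hA, hB⟩
  · intro T hT
    exact mem_sigma.2 (mem_filter.1 hT).2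
  · rintro ⟨A, B⟩ hx
    obtain ⟨hA, hB⟩ := mem_sigma.1 hx
    obtain ⟨e1, e2⟩ := jg0_big (jg0_mem_NN.1 hA).1 (jg0_mem_fam.1 hB).1
    simp only at e1 e2 ⊢
    rw [e1, e2]
  · intro T _
    exact filter_union_filter_not_eq _ _
  · intro x _
    rfl

theorem split_gain {P : Par} {y z t0 L : ℕ} (h : Setup P y z t0 L) (N : ℤ) (om : ℕ) :
    ∑ T ∈ NN P t0 z om, gN P N y t0 T ≤
      ∑ T ∈ fam P 0 t0 z, (cntA N y (pr T) (mn T) : ℝ) / y := by
  have e := jg0_sum h om (fun T => (cntA N y (pr T) (mn T) : ℝ) / y)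
  refine le_trans (le_of_eq ?_) (e.symm.le.trans
    (sum_le_sum_of_subset_of_nonneg (filter_subset _ _) fun T _ _ => by positivity))
  refine sum_congr rfl fun A hA => ?_
  rw [gN, GA, sum_div]
  refine sum_congr rfl fun B hB => ?_
  obtain ⟨-, e1, e2⟩ := jg0_join h hA hB
  rw [e1, e2]

theorem split_gam {P : Par} {y z t0 L : ℕ} (h : Setup P y z t0 L) (om : ℕ) :
    Gam P 0 t0 z ≤ ∑ T ∈ NN P t0 z om, wN P t0 T + Cap z om := by
  have e := jg0_sum h om (fun T => 1 / ((pr T : ℝ) * kk (mn T)))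
  rw [Gam, ← sum_filter_add_sum_filter_not (fam P 0 t0 z) (fun T => T.card ≤ om)]
  refine add_le_add ?_ ?_
  · refine le_trans (sum_le_sum_of_subset_of_nonneg ?_ fun T _ _ => by positivity)
      (e.le.trans (le_of_eq ?_))
    · intro T hT
      obtain ⟨h1, h2⟩ := mem_filter.1 hT
      exact mem_filter.2 ⟨h1, jg0_cut h h1 h2⟩
    · refine sum_congr rfl fun A hA => ?_
      rw [wN, phi, Gam, sum_div]
      refine sum_congr rfl fun B hB => ?_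
      obtain ⟨-, e1, e2⟩ := jg0_join h hA hB
      rw [e1, e2, div_div]
      push_cast
      ring_nf
  · rw [Cap]
    refine le_trans (sum_le_sum fun T hT => ?_)
      (sum_le_sum_of_subset_of_nonneg (f := fun T => 1 / (pr T : ℝ)) ?_
        fun T _ _ => by positivity)
    · have h1 := (jg0_mem_fam.1 (mem_filter.1 hT).1).1
      have hp : (0 : ℝ) < pr T := by
        exact_mod_cast pr_pos fun p hp => (mem_PP.1 (h1 hp)).2.1
      have hk : (1 : ℝ) ≤ kk (mn T) := by exact_mod_cast kk_pos _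
      exact one_div_le_one_div_of_le hp (le_mul_of_one_le_right hp.le hk)
    · intro T hT
      obtain ⟨h1, h2⟩ := mem_filter.1 hT
      exact mem_filter.2 ⟨mem_powerset.2
        ((jg0_mem_fam.1 h1).1.trans (PP_mono (Nat.zero_le _) le_rfl)), not_le.1 h2⟩

end

end Pool.Agent.Jac
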