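import Pool.Agent.P.MP_45ff98_nt.JVal

/-! Sizes of the big and of the small parts. -/

namespace Pool.Agent.Jac
open Finset

noncomputable section

theorem JG1_log (t : ℕ) : Real.log ((2 ^ t : ℕ) : ℝ) ≤ t := by
  rw [Nat.cast_pow, Real.log_pow]
  have h : Real.log ((2 : ℕ) : ℝ) ≤ 1 := by
    have := Real.log_le_sub_one_of_pos (show (0 : ℝ) < ((2 : ℕ) : ℝ) by norm_num)
    norm_num at this ⊢
    linarith
  exact mul_le_of_le_one_right (Nat.cast_nonneg _) h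

theorem JG1_sum (F : Finset (Finset ℕ)) (t : ℕ)
    (h : ∀ T ∈ F, (∀ p ∈ T, p.Prime) ∧ pr T ≤ 2 ^ t) : ∑ T ∈ F, 1 / (pr T : ℝ) ≤ 1 + t :=
  (sum_inv_pr_le F (2 ^ t) h).trans (by linarith [JG1_log t])

theorem JG1_pow {P : Par} {y z t0 L : ℕ} (h : Setup P y z t0 L) {a : ℕ}
    (ha : P.kw + a ≤ 10 * t0) : 2 ^ a ≤ y ^ 10 := by
  have h1 : 2 ^ P.kw * 2 ^ a ≤ 2 ^ P.kw * y ^ 10 := by
    refine le_trans ?_ h.y2
    rw [← pow_add, ← pow_mul]
    exact Nat.pow_le_pow_right (by norm_num) (by omega)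
  exact Nat.le_of_mul_le_mul_left h1 (by positivity)

theorem NN_facts {P : Par} {y z t0 L om : ℕ} (h : Setup P y z t0 L) {T : Finset ℕ}
    (hT : T ∈ NN P t0 z om) :
    (∀ p ∈ T, p.Prime ∧ 2 ^ (P.kW - 1) ≤ p ∧ P.kW ≤ kk p ∧ p < z) ∧
      St T.card (t0 - ks T) P.kW ∧ t0 - ks T ≤ P.CW * P.kW ∧ ks T ≤ t0 ∧ 2 * pr T ≤ y ∧
      y ≤ 2 ^ (P.CW * P.kW + om) * pr T ∧ T.card ≤ om := by
  classical
  simp only [NN, mem_filter, mem_powerset] at hT
  obtain ⟨hsub, hv, ht, hc⟩ := hT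
  have hp : ∀ p ∈ T, p.Prime ∧ 2 ^ (P.kW - 1) ≤ p ∧ P.kW ≤ kk p ∧ p < z := fun p hp => by
    obtain ⟨a, b, c⟩ := mem_PP.1 (hsub hp)
    exact ⟨b, (le_kk_iff b.ne_zero).1 c, c, a⟩
  have hz0 : z ≠ 0 := by
    have := h.hz
    have h2 : 0 < 2 ^ (P.kW - 1) := by positivity
    omega
  obtain ⟨h1, -, h3⟩ := valid_state h.st (fun p hq => kk_mono (hp p hq).2.2.2.le) hv
  have h4 := h3 P.kW ((le_kk_iff hz0).2 h.hz) fun p hq => (hp p hq).2.2.1
  rw [zero_add] at h4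
  refine ⟨hp, h4, by omega, h1, ?_, ?_, hc⟩
  · have h5 := h4.1
    have h6 := h.k1
    have h7 := h.kW
    have h8 : 2 ^ (10 * (1 + ks T)) ≤ y ^ 10 := JG1_pow h (by omega)
    rw [mul_comm, pow_mul, Nat.pow_le_pow_iff_left (by norm_num), pow_add, pow_one] at h8
    exact (Nat.mul_le_mul_left 2 (pr_le_two_pow T)).trans h8
  · calc y ≤ 2 ^ t0 := h.y1
      _ ≤ 2 ^ (P.CW * P.kW) * 2 ^ ks T := by
          rw [← pow_add]; exact Nat.pow_le_pow_right (by norm_num) ht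
      _ ≤ 2 ^ (P.CW * P.kW) * (2 ^ T.card * pr T) :=
          Nat.mul_le_mul_left _ (two_pow_ks_le fun p hq => (hp p hq).1)
      _ ≤ 2 ^ (P.CW * P.kW) * (2 ^ om * pr T) :=
          Nat.mul_le_mul_left _ (Nat.mul_le_mul_right _ (Nat.pow_le_pow_right (by norm_num) hc))
      _ = _ := by rw [pow_add, mul_assoc]

theorem fam_facts {P : Par} {e t : ℕ} {F : Finset ℕ} (hF : F ∈ famW P e t) :
    F.Nonempty ∧ (∀ p ∈ F, p.Prime ∧ p < 2 ^ (P.kW - 1) ∧ P.k0 ≤ kk p) ∧ P.kw ≤ kk (mn F) ∧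
      kk (mn F) ≤ 5 * P.kw ∧ pr F ≤ 2 ^ t ∧ 2 * ks F + 3 * kk (mn F) ≤ 2 * t := by
  classical
  simp only [famW, fam, mem_filter, mem_powerset] at hF
  obtain ⟨hsub, hb, -, h1, h2, h3⟩ := hF
  refine ⟨hb.1, fun p hp => ?_, h1, h2, ?_, h3⟩
  · obtain ⟨a, b, c⟩ := mem_PP.1 (hsub hp)
    exact ⟨b, a, c⟩
  · exact (pr_le_two_pow F).trans (Nat.pow_le_pow_right (by norm_num) (by omega))

theorem pair_facts {P : Par} {y z t0 L om : ℕ} (h : Setup P y z t0 L) {T F : Finset ℕ}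
    (hT : T ∈ NN P t0 z om) (hF : F ∈ famW P T.card (t0 - ks T)) :
    2 ^ (7 * kk (mn F)) * (pr T * pr F) ^ 5 ≤ y ^ 5 ∧ (pr T).Coprime (pr F) := by
  obtain ⟨a1, -, -, a4, -⟩ := NN_facts h hT
  obtain ⟨-, b2, b3, -, -, b6⟩ := fam_facts hF
  constructor
  · have h8 : 2 ^ ((7 * kk (mn F) + (ks T + ks F) * 5) * 2) ≤ y ^ (5 * 2) := JG1_pow h (by omega)
    rw [pow_mul, pow_mul, Nat.pow_le_pow_iff_left (by norm_num), pow_add,
      pow_mul 2 (ks T + ks F), pow_add] at h8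
    exact (Nat.mul_le_mul_left _ (Nat.pow_le_pow_left
      (Nat.mul_le_mul (pr_le_two_pow T) (pr_le_two_pow F)) 5)).trans h8
  · refine Nat.Coprime.prod_left fun p hp => Nat.Coprime.prod_right fun q hq => ?_
    refine (Nat.coprime_primes (a1 p hp).1 (b2 q hq).1).2 ?_
    have := (a1 p hp).2.1
    have := (b2 q hq).2.1
    omega

theorem phi_le (P : Par) (e t : ℕ) : 0 ≤ phi P e t ∧ phi P e t ≤ 1 + t := by
  have e1 : phi P e t = ∑ T ∈ famW P e t, 1 / ((pr T : ℝ) * kk (mn T)) := rfl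
  rw [e1]
  refine ⟨sum_nonneg fun _ _ => by positivity, ?_⟩
  refine le_trans (sum_le_sum fun T hT => ?_) (JG1_sum (famW P e t) t fun T hT =>
    ⟨fun p hp => ((fam_facts hT).2.1 p hp).1, (fam_facts hT).2.2.2.2.1⟩)
  have h1 : (0 : ℝ) < pr T := by
    exact_mod_cast pr_pos fun p hp => ((fam_facts (P := P) (e := e) (t := t) hT).2.1 p hp).1
  have h2 : (1 : ℝ) ≤ kk (mn T) := by exact_mod_cast kk_pos _
  exact one_div_le_one_div_of_le h1 (le_mul_of_one_le_right h1.le h2)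

theorem NN_mass {P : Par} {y z t0 L om : ℕ} (h : Setup P y z t0 L) :
    ∑ T ∈ NN P t0 z om, 1 / (pr T : ℝ) ≤ 2 * L := by
  have h1 : (1 : ℝ) ≤ L := by exact_mod_cast h.L1
  refine (JG1_sum _ L fun T hT => ?_).trans (by linarith)
  obtain ⟨a1, -, -, -, a5, -⟩ := NN_facts h hT
  have := h.yL
  exact ⟨fun p hp => (a1 p hp).1, by omega⟩

theorem NN_mass_prime {P : Par} {y z t0 L om : ℕ} (h : Setup P y z t0 L) (r : ℕ) :
    ∑ T ∈ (NN P t0 z om).filter (fun T => r ∈ T), 1 / (pr T : ℝ) ≤ 2 * L / 2 ^ (P.kW - 1) := by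
  have h1 : (1 : ℝ) ≤ L := by exact_mod_cast h.L1
  have hpr : ∀ T : Finset ℕ, r ∈ T → pr T = r * pr (T.erase r) := fun T hr => by
    rw [← pr_insert (notMem_erase r T), insert_erase hr]
  have h2 : ∑ T ∈ (NN P t0 z om).filter (fun T => r ∈ T), 1 / (pr (T.erase r) : ℝ) ≤ 2 * L := by
    rw [← sum_image (f := fun T : Finset ℕ => 1 / (pr T : ℝ)) (g := fun T : Finset ℕ => T.erase r)
      (fun S hS T hT e => by
        have e' : S.erase r = T.erase r := e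
        rw [← insert_erase (mem_filter.1 hS).2, e', insert_erase (mem_filter.1 hT).2])]
    refine (JG1_sum _ L fun S hS => ?_).trans (by linarith)
    obtain ⟨T, hT, rfl⟩ := mem_image.1 hS
    obtain ⟨a1, -, -, -, a5, -⟩ := NN_facts h (mem_filter.1 hT).1
    refine ⟨fun p hp => (a1 p (mem_of_mem_erase hp)).1, ?_⟩
    have h3 : pr (T.erase r) ≤ pr T := by
      rw [hpr T (mem_filter.1 hT).2]
      exact Nat.le_mul_of_pos_left _ (a1 r (mem_filter.1 hT).2).1.pos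
    have := h.yL
    omega
  rw [le_div_iff₀ (by positivity), sum_mul]
  refine le_trans (sum_le_sum fun T hT => ?_) h2
  obtain ⟨a1, -⟩ := NN_facts h (mem_filter.1 hT).1
  have hr := a1 r (mem_filter.1 hT).2
  have h3 : (2 : ℝ) ^ (P.kW - 1) ≤ r := by exact_mod_cast hr.2.1
  have h4 : (0 : ℝ) < pr (T.erase r) := by
    exact_mod_cast pr_pos fun p hp => (a1 p (mem_of_mem_erase hp)).1
  have h5 : (0 : ℝ) < r := by exact_mod_cast hr.1.pos
  rw [hpr T (mem_filter.1 hT).2, Nat.cast_mul, div_mul_eq_mul_div, div_le_div_iff₀ (by positivity) h4]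
  nlinarith

end

end Pool.Agent.Jac
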