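import Pool.Agent.P.MP_45ff98_nt.JG1

/-! Shape of the small parts, windows, exchange of a prime. -/

namespace Pool.Agent.Jac
open Finset

noncomputable section

theorem JG1b_core {P : Par} {e t : ℕ} {F : Finset ℕ} (h1 : 5 * P.kw < P.k1) (hW : P.k1 ≤ P.kW)
    (hs : St e t P.kW) (hF : F ∈ famW P e t) :
    ∃ π ∈ F, kk π < P.k1 ∧ (∀ q ∈ F, kk q < P.k1 → q ≤ π) ∧ P.k1 ≤ t - ks (abv F π) ∧
      t ≤ 2 ^ (abv F π).card * (t - ks (abv F π)) ∧ t ≤ 7 * P.k1 + ks (abv F π) ∧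
      t ≤ 9 * kk π + ks (abv F π) ∧ ∀ q ∈ abv F π, P.k1 ≤ kk q := by
  classical
  obtain ⟨hne, hp, -, hmn, -, -⟩ := fam_facts hF
  have hG : GF P e t F := (mem_filter.1 hF).2
  have hne' : (F.filter (fun q => kk q < P.k1)).Nonempty :=
    ⟨mn F, mem_filter.2 ⟨mn_mem hne, by omega⟩⟩
  obtain ⟨π, hπ, hmax⟩ := exists_max_image (F.filter (fun q => kk q < P.k1)) id hne'
  obtain ⟨hπF, hπk⟩ := mem_filter.1 hπ
  have hmax' : ∀ q ∈ F, kk q < P.k1 → q ≤ π := fun q hq hk => hmax q (mem_filter.2 ⟨hq, hk⟩)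
  have hA : ∀ q ∈ abv F π, P.k1 ≤ kk q := fun q hq => by
    obtain ⟨hqF, hlt⟩ := mem_filter.1 hq
    by_contra hc
    exact absurd (hmax' q hqF (not_le.1 hc)) (not_le.2 hlt)
  have hA' : ∀ q ∈ abv F π, kk q ≤ P.kW := fun q hq => by
    obtain ⟨hq1, hq2, -⟩ := hp q (mem_filter.1 hq).1
    exact ((kk_lt_iff hq1.ne_zero).2 hq2).le
  obtain ⟨-, h2, h3⟩ := valid_state hs hA' (bd_abv hG.1 hπF)
  obtain ⟨h4, h5⟩ := (hG.2.1 π hπF).2 hπk
  exact ⟨π, hπF, hπk, hmax', (h3 _ hW hA).1, h2, h4, h5, hA⟩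

theorem fam_pi {P : Par} {e t : ℕ} {F : Finset ℕ} (h1 : 5 * P.kw < P.k1) (hW : P.k1 ≤ P.kW)
    (hs : St e t P.kW) (hF : F ∈ famW P e t) :
    ∃ π ∈ F, kk π < P.k1 ∧ P.k1 ≤ 9 * kk π ∧ ∀ q ∈ F, kk q < P.k1 → q ≤ π := by
  obtain ⟨π, h2, h3, h4, h5, -, -, h6, -⟩ := JG1b_core h1 hW hs hF
  exact ⟨π, h2, h3, by omega, h4⟩

theorem fam_big {P : Par} {e t j : ℕ} {F : Finset ℕ} (h1 : 5 * P.kw < P.k1)
    (hW : 7 * 2 ^ j * P.k1 ≤ P.kW) (hs : St e t P.kW) (hF : F ∈ famW P e t) :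
    j ≤ (F.filter (fun q => P.k1 ≤ kk q)).card := by
  have hj : 1 ≤ 2 ^ j := Nat.one_le_two_pow
  have hW' : P.k1 ≤ P.kW := le_trans (Nat.le_mul_of_pos_left _ (by omega)) hW
  obtain ⟨π, -, -, -, -, h5, h6, -, h7⟩ := JG1b_core h1 hW' hs hF
  have hsub : abv F π ⊆ F.filter (fun q => P.k1 ≤ kk q) := fun q hq =>
    mem_filter.2 ⟨(mem_filter.1 hq).1, h7 q hq⟩
  refine le_trans ?_ (card_le_card hsub)
  have h8 : t - ks (abv F π) ≤ 7 * P.k1 := by omega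
  have h9 : 2 ^ j * (7 * P.k1) ≤ 2 ^ (abv F π).card * (7 * P.k1) :=
    calc 2 ^ j * (7 * P.k1) = 7 * 2 ^ j * P.k1 := by ring
      _ ≤ t := hW.trans hs.1
      _ ≤ _ := h5.trans (Nat.mul_le_mul_left _ h8)
  exact (Nat.pow_le_pow_iff_right (by norm_num)).1 (Nat.le_of_mul_le_mul_right h9 (by omega))

theorem window {P : Par} {y z t0 L om : ℕ} (h : Setup P y z t0 L) {T : Finset ℕ}
    (hT : T ∈ NN P t0 z om) {lo hi : ℕ} (h1 : 1 ≤ lo) (h2 : P.CW * P.kW ≤ lo)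
    (h3 : lo * (2 * om + 2) ≤ hi) (h4 : hi ≤ kk z) : ∃ q ∈ T, lo ≤ kk q ∧ kk q < hi := by
  classical
  obtain ⟨hsub, hv, ht, hc⟩ := mem_filter.1 hT
  have hsub' := mem_powerset.1 hsub
  by_contra hno
  have hlo : ∀ q ∈ T.filter (fun q => ¬ hi ≤ kk q), kk q ≤ lo := fun q hq => by
    obtain ⟨hqT, hqk⟩ := mem_filter.1 hq
    by_contra hc'
    exact hno ⟨q, hqT, by omega, by omega⟩
  have hA : ∀ q ∈ T.filter (fun q => hi ≤ kk q), kk q ≤ kk z := fun q hq =>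
    kk_mono (mem_PP.1 (hsub' (mem_filter.1 hq).1)).1.le
  obtain ⟨-, -, h5⟩ := valid_state h.st hA (valid_filter hv hi)
  have h6 := (h5 hi h4 fun q hq => (mem_filter.1 hq).2).1
  have h7 : ks (T.filter (fun q => hi ≤ kk q)) + ks (T.filter (fun q => ¬ hi ≤ kk q)) = ks T :=
    sum_filter_add_sum_filter_not T _ _
  have h8 : ks (T.filter (fun q => ¬ hi ≤ kk q)) ≤ om * lo := by
    have := sum_le_card_nsmul _ kk lo hlo
    rw [smul_eq_mul] at this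
    exact this.trans (Nat.mul_le_mul_right _ ((card_filter_le _ _).trans hc))
  have h9 : lo * (2 * om + 2) = 2 * (om * lo) + 2 * lo := by ring
  omega

theorem NN_swap {P : Par} {t0 z om : ℕ} {T : Finset ℕ} (hT : T ∈ NN P t0 z om) {q q' : ℕ}
    (hq : q ∈ T) (hz : kk q < kk z) (hq' : q' ∈ Box (kk q)) (hn : q' ∉ T.erase q) :
    insert q' (T.erase q) ∈ NN P t0 z om ∧ (insert q' (T.erase q)).card = T.card ∧
      ks (insert q' (T.erase q)) = ks T := by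
  classical
  obtain ⟨hsub, hv, ht, hc⟩ := mem_filter.1 hT
  have hsub' := mem_powerset.1 hsub
  obtain ⟨hp, hk⟩ := mem_Box.1 hq'
  have h1 : (insert q' (T.erase q)).card = T.card := by
    rw [card_insert_of_notMem hn, card_erase_add_one hq]
  have h2 : ks (insert q' (T.erase q)) = ks T := by
    rw [ks_insert hn, hk]
    exact add_sum_erase T kk hq
  refine ⟨mem_filter.2 ⟨mem_powerset.2 ?_, valid_swap hq hn hk hv, by omega, by omega⟩, h1, h2⟩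
  intro r hr
  rcases mem_insert.1 hr with rfl | hr
  · exact mem_PP.2 ⟨lt_of_kk_lt (by omega), hp, hk ▸ (mem_PP.1 (hsub' hq)).2.2⟩
  · exact hsub' (mem_of_mem_erase hr)

end

end Pool.Agent.Jac
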