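import Pool.Agent.P.MP_45ff98_nt.JG2a
import Pool.Agent.P.MP_45ff98_nt.JG1
import Pool.Agent.P.MP_45ff98_nt.JFL

/-! The gain is large unless an exponential sum is large. -/

namespace Pool.Agent.Jac
open Finset

noncomputable section

theorem JG2_nu : ∃ (c : ℝ) (u : ℕ), 0 < c ∧ 1 ≤ u ∧ ∃ ν : ℕ → Finset ℕ → ℝ,
    (∀ p S, |ν p S| ≤ 1) ∧ ∀ p, 2 ≤ p → (∀ S, ν p S ≠ 0 → S ⊆ PP 0 p ∧ pr S ≤ p ^ u) ∧
      (∀ s ⊆ PP 0 p, ∑ S ∈ s.powerset, ν p S ≤ if s = ∅ then 1 else 0) ∧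
      c / kk p ≤ ∑ S ∈ (PP 0 p).powerset, ν p S / pr S := by
  obtain ⟨C, hC, hF⟩ := fund_lemma
  obtain ⟨c, C', hc, -, hM⟩ := mertens_prod
  obtain ⟨u, hu⟩ := exists_nat_ge C
  have hu1 : 1 ≤ u := by exact_mod_cast hC.trans hu
  have he : C * Real.exp (-4 * u) ≤ 1 / 2 := by
    have h1 := Real.add_one_le_exp (4 * (u : ℝ))
    have h2 : Real.exp (-4 * u) = (Real.exp (4 * u))⁻¹ := by rw [← Real.exp_neg, neg_mul]
    rw [h2, ← div_eq_mul_inv, div_le_iff₀ (Real.exp_pos _)]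
    linarith
  have key : ∀ p : ℕ, ∃ w : Finset ℕ → ℝ, (∀ S, |w S| ≤ 1) ∧ (2 ≤ p →
      (∀ S, w S ≠ 0 → S ⊆ PP 0 p ∧ pr S ≤ p ^ u) ∧
      (∀ s ⊆ PP 0 p, ∑ S ∈ s.powerset, w S ≤ if s = ∅ then 1 else 0) ∧
      c / 2 / kk p ≤ ∑ S ∈ (PP 0 p).powerset, w S / pr S) := by
    intro p
    by_cases hp : 2 ≤ p
    swap
    · exact ⟨0, by simp, fun h => absurd h hp⟩
    have hp' : (2 : ℝ) ≤ p := by exact_mod_cast hp
    have hp1 : (1 : ℝ) ≤ p := by linarith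
    obtain ⟨_, w, _, hw, hs, hg⟩ := hF (PP 0 p) p ((p : ℝ) ^ u) hp'
      (by rw [← pow_mul]; exact le_self_pow₀ hp1 (by omega)) (one_le_pow₀ hp1)
      fun r hr => ⟨(mem_PP.1 hr).2.1, by exact_mod_cast (mem_PP.1 hr).1⟩
    refine ⟨w, fun S => (hw S).1, fun _ => ⟨fun S h => ⟨((hw S).2 h).1, ?_⟩,
      fun s h => (hs s h).1, ?_⟩⟩
    · exact_mod_cast ((hw S).2 h).2
    have h1 := (hg (fun r => 1 / (r : ℝ)) fun r hr => by
      have : (2 : ℝ) ≤ r := by exact_mod_cast (mem_PP.1 hr).2.1.two_le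
      exact ⟨by positivity, one_div_le_one_div_of_le two_pos this,
        one_div_le_one_div_of_le (by linarith) (by linarith)⟩).2
    have hl : Real.log p ≠ 0 := (Real.log_pos (by linarith)).ne'
    rw [Real.log_pow, ← mul_assoc, mul_div_assoc, div_self hl, mul_one] at h1
    have h2 := (hM p hp).1
    have h3 : 0 ≤ c / kk p := by positivity
    have h4 : ∑ S ∈ (PP 0 p).powerset, w S * ∏ r ∈ S, 1 / (r : ℝ) =
        ∑ S ∈ (PP 0 p).powerset, w S / pr S := by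
      refine sum_congr rfl fun S _ => ?_
      rw [pr, Nat.cast_prod, prod_div_distrib, prod_const_one, mul_one_div]
    rw [← h4, div_right_comm]
    nlinarith
  choose ν h1 h2 using key
  exact ⟨c / 2, u, by positivity, hu1, ν, h1, h2⟩

theorem JG2_sieve {w : Finset ℕ → ℝ} {T : Finset ℕ} (hT : ∀ r ∈ T, r.Prime) (ξ : ℤ) (M : ℕ)
    (hw : ∀ s ⊆ PP 0 (mn T), ∑ S ∈ s.powerset, w S ≤ if s = ∅ then 1 else 0) :
    ∑ S ∈ (PP 0 (mn T)).powerset,
      w S * (((Icc 1 M).filter (fun j : ℕ => ((pr T * pr S : ℕ) : ℤ) ∣ ξ + j)).card : ℝ) ≤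
      cntA ξ M (pr T) (mn T) := by
  simp only [cntA, card_filter, Nat.cast_sum, mul_sum, Nat.cast_ite, Nat.cast_one, Nat.cast_zero]
  rw [sum_comm]
  refine sum_le_sum fun j _ => ?_
  have e : ∀ S ∈ (PP 0 (mn T)).powerset, ((pr T * pr S : ℕ) : ℤ) ∣ ξ + j ↔
      (pr T : ℤ) ∣ ξ + j ∧ ∀ r : ℕ, r ∈ S → (r : ℤ) ∣ ξ + j := by
    intro S hS
    have hS' := fun r (hr : r ∈ S) => mem_PP.1 (mem_powerset.1 hS hr)
    rw [← pr_union (disjoint_left.2 fun r h1 h2 => (hS' r h2).1.not_ge (mn_le h1)),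
      pr_dvd_iff hT, pr_dvd_iff fun r hr => (mem_union.1 hr).elim (hT r) fun h => (hS' r h).2.1,
      forall_mem_union]
  by_cases hf : (pr T : ℤ) ∣ ξ + j
  · have h1 := hw _ (filter_subset (fun r : ℕ => (r : ℤ) ∣ ξ + j) _)
    have e' : ((PP 0 (mn T)).filter fun r : ℕ => (r : ℤ) ∣ ξ + j).powerset =
        (PP 0 (mn T)).powerset.filter fun S => ∀ r : ℕ, r ∈ S → (r : ℤ) ∣ ξ + j := by
      ext S
      simp only [mem_powerset, mem_filter, subset_iff]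
      exact ⟨fun h => ⟨fun r hr => (h hr).1, fun r hr => (h hr).2⟩,
        fun h r hr => ⟨h.1 hr, h.2 r hr⟩⟩
    rw [e', sum_filter] at h1
    refine le_trans (le_of_eq (sum_congr rfl fun S hS => ?_)) (h1.trans (le_of_eq ?_))
    · simp only [e S hS, hf, true_and, mul_ite, mul_one, mul_zero]
    · simp only [hf, true_and, filter_eq_empty_iff, mem_PP, zero_le, and_true, and_imp]
  · rw [if_neg fun h => hf h.1]
    exact (sum_eq_zero fun S hS => by rw [if_neg fun h => hf ((e S hS).1 h).1, mul_zero]).le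

theorem fourier_gain : ∃ (cV : ℝ) (u : ℕ), 0 < cV ∧ 1 ≤ u ∧ ∃ b, Coef b ∧
    ∀ (P : Par) (H e t M : ℕ) (ξ : ℤ),
      (∀ T ∈ famW P e t, pr T ≤ M ∧ pr T * 2 ^ (5 * u * P.kw) ≤ H) →
      cV * M * phi P e t - M * ‖Ex P (2 ^ (5 * u * P.kw)) H b (e % 2, t, M) ξ‖ ≤
        ∑ T ∈ famW P e t, (cntA ξ M (pr T) (mn T) : ℝ) := by
  obtain ⟨c, u, hc, hu, ν, hν, hp⟩ := JG2_nu
  obtain ⟨a, ha, hcount⟩ := count_fourier
  refine ⟨c, u, hc, hu, fun c T S h => if pr T ≤ c.2.2 then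
    ν (mn T) S * a c.2.2 (pr T * pr S) h * ((pr T : ℂ) / c.2.2) else 0, fun c T S h => ?_,
    fun P H e t M ξ hH => ?_⟩
  · dsimp only
    split_ifs with h1
    · refine ⟨?_, fun h2 => (ha _ _ _).2 (right_ne_zero_of_mul (left_ne_zero_of_mul h2))⟩
      rw [norm_mul, norm_mul, norm_div, Complex.norm_real, Complex.norm_natCast,
        Complex.norm_natCast]
      exact mul_le_one₀ (mul_le_one₀ (hν _ _) (norm_nonneg _) (ha _ _ _).1) (by positivity)
        (div_le_one_of_le₀ (by exact_mod_cast h1) (by positivity))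
    · simp
  have h0 : ∀ z : ℂ, -(M * ‖z‖) ≤ ((M : ℂ) * z).re := fun z => by
    have := Complex.abs_re_le_norm ((M : ℂ) * z)
    rw [norm_mul, Complex.norm_natCast] at this
    exact neg_le_of_abs_le this
  rw [sub_eq_add_neg]
  refine (add_le_add le_rfl (h0 _)).trans ?_
  have hf : famW P (e % 2) t = famW P e t := fam_mod_two _ _ _ _
  simp only [Ex, hf, phi, Gam]
  rw [mul_sum, mul_sum, Complex.re_sum]
  refine (sum_add_distrib.symm.le).trans (sum_le_sum fun T hT => ?_)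
  obtain ⟨hne, hT1, -, hT2, -⟩ := fam_facts hT
  have hTp : ∀ r ∈ T, r.Prime := fun r hr => (hT1 r hr).1
  have hf0 := pr_pos hTp
  obtain ⟨k1, k2, k3⟩ := hp (mn T) (hTp _ (mn_mem hne)).two_le
  have hm : mn T ≤ 2 ^ (5 * P.kw) :=
    (lt_two_pow_kk _).le.trans (Nat.pow_le_pow_right two_pos hT2)
  have hE : ∀ S, ν (mn T) S ≠ 0 → pr S ≤ 2 ^ (5 * u * P.kw) := fun S h =>
    (k1 S h).2.trans (by rw [mul_right_comm, pow_mul]; exact Nat.pow_le_pow_left hm u)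
  have hM0 : (M : ℂ) ≠ 0 := by exact_mod_cast (hf0.trans_le (hH T hT).1).ne'
  have hf0' : (pr T : ℂ) ≠ 0 := by exact_mod_cast hf0.ne'
  refine le_trans ?_ (JG2_sieve hTp ξ M k2)
  have e1 : ∑ S ∈ (PP 0 (mn T)).powerset, ν (mn T) S *
      (((Icc 1 M).filter (fun j : ℕ => ((pr T * pr S : ℕ) : ℤ) ∣ ξ + j)).card : ℝ) =
      M / pr T * ∑ S ∈ (PP 0 (mn T)).powerset, ν (mn T) S / pr S +
        ∑ S ∈ (PP 0 (mn T)).powerset, ν (mn T) S * (∑ h ∈ Icc 1 H,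
          1 / (h : ℂ) * a M (pr T * pr S) h * ee (h * ξ / (pr T * pr S : ℕ))).re := by
    rw [mul_sum, ← sum_add_distrib]
    refine sum_congr rfl fun S hS => ?_
    by_cases h : ν (mn T) S = 0
    · simp [h]
    have hS0 := pr_pos fun r hr => (mem_PP.1 (mem_powerset.1 hS hr)).2.1
    rw [hcount M _ H ξ (Nat.mul_pos hf0 hS0) ((Nat.mul_le_mul_left _ (hE S h)).trans (hH T hT).2)]
    push_cast
    ring
  rw [e1]
  refine add_le_add ?_ (le_of_eq ?_)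
  · refine le_trans (le_of_eq ?_) (mul_le_mul_of_nonneg_left k3 (by positivity))
    ring
  · rw [mul_sum, Complex.re_sum]
    refine sum_congr_of_eq_on_inter (fun S _ hS => ?_) (fun S _ hS => ?_) fun S _ _ => ?_
    · have : ν (mn T) S = 0 := by
        by_contra h
        exact hS (mem_powerset.2 (k1 S h).1)
      simp [this]
    · have : ν (mn T) S = 0 := by
        by_contra h
        exact hS (mem_filter.2 ⟨mem_powerset.2 ((k1 S h).1.trans (PP_mono le_rfl hm)), hE S h⟩)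
      simp [this]
    · rw [← Complex.re_ofReal_mul, mul_sum, mul_sum]
      refine congrArg _ (sum_congr rfl fun h _ => ?_)
      rw [if_pos (hH T hT).1, Nat.cast_mul]
      field_simp

theorem gain_lower : ∃ (cV : ℝ) (u : ℕ), 0 < cV ∧ 1 ≤ u ∧ ∃ b, Coef b ∧
    ∀ (P : Par) (N : ℤ) (y z t0 L om H : ℕ), Setup P y z t0 L →
      2 ^ (P.CW * P.kW) * 2 ^ (5 * u * P.kw) ≤ H → ∀ T ∈ NN P t0 z om,
      cV * wN P t0 T - 2 * ‖Ex P (2 ^ (5 * u * P.kw)) H b (cl N y t0 T) (N / pr T)‖ / pr T ≤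
        gN P N y t0 T := by
  obtain ⟨c, u, hc, hu, b, hb, h⟩ := fourier_gain
  refine ⟨c / 2, u, by positivity, hu, b, hb, fun P N y z t0 L om H hS hH T hT => ?_⟩
  obtain ⟨h1, -, h2, -, h3, -⟩ := NN_facts hS hT
  have hTp : ∀ r ∈ T, r.Prime := fun r hr => (h1 r hr).1
  have hn := pr_pos hTp
  obtain ⟨m1, m2⟩ := MM_bounds N y hn
  have h4 := h P H T.card (t0 - ks T) (MM N y (pr T)) (N / pr T) fun F hF => by
    refine ⟨le_trans ((Nat.le_div_iff_mul_le hn).2 ?_) m1, le_trans (Nat.mul_le_mul_right _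
      ((fam_facts hF).2.2.2.2.1.trans (Nat.pow_le_pow_right two_pos h2))) hH⟩
    rw [mul_comm]
    exact (Nat.pow_le_pow_iff_left (n := 5) (by norm_num)).1
      ((Nat.le_mul_of_pos_left _ (by positivity)).trans (pair_facts hS hT hF).1)
  have h5 : GA P N y T.card (t0 - ks T) (pr T) = ∑ F ∈ famW P T.card (t0 - ks T),
      (cntA (N / pr T) (MM N y (pr T)) (pr F) (mn F) : ℝ) := by
    refine sum_congr rfl fun F hF => ?_
    rw [cntA_div N y _ _ _ hn fun r hr hd => ?_]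
    obtain ⟨hne, k1, -⟩ := fam_facts hF
    exact (k1 _ (mn_mem hne)).2.1.le.trans (h1 r ((prime_dvd_pr hTp hr).1 hd)).2.1
  have hq : 1 ≤ y / pr T := (Nat.le_div_iff_mul_le hn).2 (by omega)
  have a1 : y ≤ 2 * (pr T * MM N y (pr T)) := by
    have := Nat.lt_mul_div_succ y hn
    nlinarith
  have a2 : pr T * MM N y (pr T) ≤ 2 * y := by
    have := Nat.mul_div_le y (pr T)
    nlinarith
  have b1 : (y : ℝ) ≤ 2 * (pr T * MM N y (pr T)) := by exact_mod_cast a1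
  have b2 : (pr T : ℝ) * MM N y (pr T) ≤ 2 * y := by exact_mod_cast a2
  have b3 : (0 : ℝ) < pr T := by exact_mod_cast hn
  have b4 : (0 : ℝ) < y := by exact_mod_cast (by omega : 0 < y)
  rw [gN, h5, wN, le_div_iff₀ b4]
  refine le_trans ?_ h4
  have b5 := mul_nonneg hc.le (phi_le P T.card (t0 - ks T)).1
  have b6 := norm_nonneg (Ex P (2 ^ (5 * u * P.kw)) H b (cl N y t0 T) (N / pr T))
  rw [cl] at b6 ⊢
  rw [← mul_div_assoc, ← sub_div, div_mul_eq_mul_div, div_le_iff₀ b3]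
  nlinarith [mul_le_mul_of_nonneg_left b1 b5, mul_le_mul_of_nonneg_left b2 b6]

end

end Pool.Agent.Jac
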