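import Pool.Agent.P.MP_45ff98_nt.JBase

/-! Multiples in an interval, Fourier expansion. -/

namespace Pool.Agent.Jac
open Finset

noncomputable section

/-- weights that fold the sum over residues -/
def jg2aW (m h : ℕ) : ℝ := if 2 * h < m then 2 else if 2 * h = m then 1 else 0

/-- the geometric sum -/
def jg2aS (M m h : ℕ) : ℂ := ∑ j ∈ Icc 1 M, ee (h * j / m)

theorem jg2aW_nonneg (m h : ℕ) : 0 ≤ jg2aW m h := by
  unfold jg2aW; split_ifs <;> norm_num

theorem jg2aW_le (m h : ℕ) : jg2aW m h ≤ 2 := by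
  unfold jg2aW; split_ifs <;> norm_num

theorem jg2aW_zero {m h : ℕ} (hh : m < 2 * h) : jg2aW m h = 0 := by
  unfold jg2aW; rw [if_neg (by omega), if_neg (by omega)]

theorem jg2aW_add {m h : ℕ} (hh : h ≤ m) : jg2aW m h + jg2aW m (m - h) = 2 := by
  unfold jg2aW; split_ifs <;> first | omega | norm_num

theorem jg2a_geom (z : ℂ) (M : ℕ) : (z - 1) * ∑ j ∈ Icc 1 M, z ^ j = z ^ (M + 1) - z := by
  induction M with
  | zero => simp
  | succ M ih => rw [sum_Icc_succ_top (by omega), mul_add, ih]; ring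

theorem jg2a_low {x : ℝ} (h0 : 0 ≤ x) (h1 : x ≤ 1 / 2) : 4 * x ≤ ‖ee x - 1‖ := by
  have e : ee x = Complex.exp (Complex.I * ((2 * Real.pi * x : ℝ) : ℂ)) := by
    rw [ee]; congr 1; push_cast; ring
  have hp := Real.pi_pos
  have h2 := Real.mul_le_sin (x := 2 * Real.pi * x / 2) (by positivity) (by nlinarith)
  have e2 : 2 / Real.pi * (2 * Real.pi * x / 2) = 2 * x := by field_simp
  rw [e, Complex.norm_exp_I_mul_ofReal_sub_one, Real.norm_eq_abs]
  refine le_trans ?_ (le_abs_self _)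
  linarith

theorem jg2a_norm (M m h : ℕ) (hh : 2 * h ≤ m) : 2 * ((h : ℝ) / m) * ‖jg2aS M m h‖ ≤ 1 := by
  have h0 : (0 : ℝ) ≤ h / m := by positivity
  have h1 : (h : ℝ) / m ≤ 1 / 2 := by
    rcases Nat.eq_zero_or_pos m with rfl | hm
    · simp
    · rw [div_le_iff₀ (by exact_mod_cast hm)]
      have : (2 : ℝ) * h ≤ m := by exact_mod_cast hh
      linarith
  have e : jg2aS M m h = ∑ j ∈ Icc 1 M, ee (h / m) ^ j :=
    sum_congr rfl fun j _ => by rw [← ee_nat_mul]; congr 1; ring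
  have h2 : ‖ee (h / m) - 1‖ * ‖jg2aS M m h‖ ≤ 2 := by
    rw [← norm_mul, e, jg2a_geom]
    refine (norm_sub_le _ _).trans ?_
    rw [norm_pow, norm_ee, one_pow]
    norm_num
  have h3 := mul_le_mul_of_nonneg_right (jg2a_low h0 h1) (norm_nonneg (jg2aS M m h))
  linarith

/-- the full exponential sum -/
def jg2aT (M m : ℕ) (ξ : ℤ) (h : ℕ) : ℂ := ∑ j ∈ Icc 1 M, ee ((ξ + j : ℤ) * h / m)

theorem jg2aT_eq (M m : ℕ) (ξ : ℤ) (h : ℕ) : jg2aT M m ξ h = jg2aS M m h * ee (h * ξ / m) := by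
  rw [jg2aT, jg2aS, sum_mul]
  refine sum_congr rfl fun j _ => ?_
  rw [← ee_add]; congr 1; push_cast; ring

theorem jg2aT_symm (M : ℕ) {m : ℕ} (hm : 1 ≤ m) (ξ : ℤ) {h : ℕ} (hh : h ≤ m) :
    (jg2aT M m ξ (m - h)).re = (jg2aT M m ξ h).re := by
  have hm0 : (m : ℝ) ≠ 0 := by positivity
  rw [← Complex.conj_re (jg2aT M m ξ h), jg2aT, jg2aT, map_sum]
  congr 1
  refine sum_congr rfl fun j _ => ?_
  rw [conj_ee, ← ee_add_int (-(((ξ + j : ℤ) : ℝ) * h / m)) (ξ + j)]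
  congr 1
  rw [Nat.cast_sub hh]
  field_simp
  ring

theorem jg2a_count (M : ℕ) {m : ℕ} (hm : 1 ≤ m) (ξ : ℤ) :
    (m : ℝ) * (((Icc 1 M).filter (fun j : ℕ => (m : ℤ) ∣ ξ + j)).card : ℝ) =
      ∑ h ∈ range m, (jg2aT M m ξ h).re := by
  have h1 : ∑ h ∈ range m, jg2aT M m ξ h =
      (((m : ℝ) * (((Icc 1 M).filter (fun j : ℕ => (m : ℤ) ∣ ξ + j)).card : ℝ) : ℝ) : ℂ) := by
    unfold jg2aT
    rw [sum_comm, sum_congr rfl fun (j : ℕ) _ => sum_ee m hm (ξ + j), ← sum_filter, sum_const,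
      nsmul_eq_mul]
    push_cast
    ring
  rw [← Complex.re_sum, h1, Complex.ofReal_re]

theorem jg2a_fold {m : ℕ} (R : ℕ → ℝ) (hR : ∀ h ≤ m, R (m - h) = R h) :
    ∑ h ∈ Ico 1 m, jg2aW m h * R h = ∑ h ∈ Ico 1 m, R h := by
  have h1 : ∑ h ∈ Ico 1 m, jg2aW m h * R h = ∑ h ∈ Ico 1 m, jg2aW m (m - h) * R h := by
    refine sum_nbij' (fun h => m - h) (fun h => m - h) ?_ ?_ ?_ ?_ ?_
    · intro h hh; simp only [mem_Ico] at hh ⊢; omega
    · intro h hh; simp only [mem_Ico] at hh ⊢; omega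
    · intro h hh; simp only [mem_Ico] at hh; omega
    · intro h hh; simp only [mem_Ico] at hh; omega
    · intro h hh
      have h2 := (mem_Ico.1 hh).2.le
      rw [hR h h2, Nat.sub_sub_self h2]
  have h2 : ∑ h ∈ Ico 1 m, jg2aW m h * R h + ∑ h ∈ Ico 1 m, jg2aW m (m - h) * R h =
      2 * ∑ h ∈ Ico 1 m, R h := by
    rw [← sum_add_distrib, mul_sum]
    refine sum_congr rfl fun h hh => ?_
    rw [← add_mul, jg2aW_add (mem_Ico.1 hh).2.le]
  linarith

theorem count_fourier : ∃ a : ℕ → ℕ → ℕ → ℂ,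
    (∀ M m h, ‖a M m h‖ ≤ 1 ∧ (a M m h ≠ 0 → 2 * h ≤ m)) ∧
    ∀ (M m H : ℕ) (ξ : ℤ), 1 ≤ m → m ≤ H →
      (((Icc 1 M).filter (fun j : ℕ => (m : ℤ) ∣ ξ + j)).card : ℝ) =
        M / m + (∑ h ∈ Icc 1 H, 1 / (h : ℂ) * a M m h * ee (h * ξ / m)).re := by
  refine ⟨fun M m h => ((jg2aW m h * (h / m) : ℝ) : ℂ) * jg2aS M m h, fun M m h => ?_,
    fun M m H ξ hm hH => ?_⟩
  · by_cases hh : 2 * h ≤ m
    · refine ⟨?_, fun _ => hh⟩
      have h0 := jg2aW_nonneg m h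
      rw [norm_mul, Complex.norm_real, Real.norm_of_nonneg (by positivity)]
      refine le_trans ?_ (jg2a_norm M m h hh)
      have := jg2aW_le m h
      gcongr
    · simp [jg2aW_zero (not_le.1 hh)]
  · have hm0 : (m : ℝ) ≠ 0 := by positivity
    have h1 := jg2a_count M hm ξ
    rw [range_eq_Ico, sum_eq_sum_Ico_succ_bot hm, zero_add,
      ← jg2a_fold _ fun h hh => jg2aT_symm M hm ξ hh] at h1
    have h2 : (jg2aT M m ξ 0).re = M := by simp [jg2aT, ee_zero]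
    have h3 : (∑ h ∈ Icc 1 H, 1 / (h : ℂ) * (((jg2aW m h * (h / m) : ℝ) : ℂ) * jg2aS M m h) *
        ee (h * ξ / m)).re = (∑ h ∈ Ico 1 m, jg2aW m h * (jg2aT M m ξ h).re) / m := by
      rw [Complex.re_sum, sum_div]
      symm
      refine sum_subset_zero_on_sdiff ?_ ?_ ?_
      · intro h hh; simp only [mem_Ico, mem_Icc] at hh ⊢; omega
      · intro h hh
        simp only [mem_sdiff, mem_Ico, mem_Icc] at hh
        simp [jg2aW_zero (show m < 2 * h by omega)]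
      · intro h hh
        have hh0 : (h : ℂ) ≠ 0 := by
          have := (mem_Ico.1 hh).1
          exact_mod_cast (by omega : h ≠ 0)
        have e : 1 / (h : ℂ) * (((jg2aW m h * (h / m) : ℝ) : ℂ) * jg2aS M m h) * ee (h * ξ / m) =
            ((jg2aW m h / m : ℝ) : ℂ) * jg2aT M m ξ h := by
          rw [jg2aT_eq]
          push_cast
          field_simp
        rw [e, Complex.re_ofReal_mul]
        ring
    rw [h3, ← add_div, eq_div_iff hm0, ← h2, ← h1]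
    ring

theorem cntA_div (N : ℤ) (y n f p : ℕ) (hn : 1 ≤ n) (hp : ∀ r : ℕ, r.Prime → r ∣ n → p ≤ r) :
    cntA N y (n * f) p = cntA (N / n) (MM N y n) f p := by
  have h0 : (0 : ℤ) < n := by exact_mod_cast hn
  have hr : ∀ r < p, r.Prime → ∀ q : ℤ, (r : ℤ) ∣ n * q ↔ (r : ℤ) ∣ q := fun r hr hr' q => by
    refine ⟨fun h => ?_, fun h => h.mul_left _⟩
    rcases (Nat.prime_iff_prime_int.1 hr').dvd_or_dvd h with h | h
    · exact absurd (hp r hr' (Int.natCast_dvd_natCast.1 h)) (by omega)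
    · exact h
  have hlo : ∀ q : ℤ, N < n * q ↔ N / n < q := fun q => by
    rw [Int.ediv_lt_iff_lt_mul h0, mul_comm]
  have hhi : ∀ q : ℤ, n * q ≤ N + y ↔ q ≤ (N + y) / n := fun q => by
    rw [Int.le_ediv_iff_mul_le h0, mul_comm]
  unfold cntA MM
  symm
  refine card_bij (fun j _ => ((n : ℤ) * (N / n + j) - N).toNat) ?_ ?_ ?_
  · intro j hj
    simp only [mem_filter, mem_Icc] at hj ⊢
    obtain ⟨⟨h1, h2⟩, h3, h4⟩ := hj
    have a1 := (hlo (N / n + j)).2 (by omega)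
    have a2 := (hhi (N / n + j)).2 (by omega)
    have e : N + (((n : ℤ) * (N / n + j) - N).toNat : ℤ) = n * (N / n + j) := by omega
    rw [e]
    refine ⟨⟨by omega, by omega⟩, ?_, fun r hr1 hr2 h => h4 r hr1 hr2 ((hr r hr1 hr2 _).1 h)⟩
    push_cast
    exact mul_dvd_mul_left _ h3
  · intro j hj j' hj' e
    simp only [mem_filter, mem_Icc] at hj hj'
    have a1 := (hlo (N / n + j)).2 (by omega)
    have a2 := (hlo (N / n + j')).2 (by omega)
    have e2 : (n : ℤ) * (N / n + j) = n * (N / n + j') := by omega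
    have := mul_left_cancel₀ h0.ne' e2
    omega
  · intro i hi
    simp only [mem_filter, mem_Icc] at hi
    obtain ⟨⟨h1, h2⟩, ⟨c, hc⟩, h4⟩ := hi
    have e : N + i = n * (f * c) := by rw [hc]; push_cast; ring
    have a1 := (hlo (f * c)).1 (by omega)
    have a2 := (hhi (f * c)).1 (by omega)
    have e2 : N / n + (((f : ℤ) * c - N / n).toNat : ℤ) = f * c := by omega
    refine ⟨((f : ℤ) * c - N / n).toNat, ?_, ?_⟩
    · simp only [mem_filter, mem_Icc]
      rw [e2]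
      refine ⟨⟨by omega, by omega⟩, dvd_mul_right _ _, fun r hr1 hr2 h => h4 r hr1 hr2 ?_⟩
      rw [e]
      exact h.mul_left _
    · rw [e2]
      omega

end

end Pool.Agent.Jac
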