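import Pool.Agent.P.MP_45ff98_nt.JBase

/-! Good primes and the list of good residues. -/

namespace Pool.Agent.Jac
open Finset

noncomputable section

theorem ji1_sigma {ι : Type} (D : Dat2 ι) {Om : ℝ} {y Yq klo khi : ℕ}
    (h : D.Ok Om y Yq klo khi) : (0 : ℝ) < D.σ := by
  have : 0 < D.σ := lt_of_lt_of_le (by positivity) h.σb
  exact_mod_cast this

theorem ji1_norm_le {ι : Type} (D : Dat2 ι) {Om : ℝ} {y Yq klo khi : ℕ}
    (h : D.Ok Om y Yq klo khi) (c : Cl) {i : ι} (hi : i ∈ D.I) (p : ℕ) (ξ : ℤ) :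
    ‖D.F c i p ξ‖ ≤ 1 := by
  have hσ := ji1_sigma D h
  have h1 : ‖∑ a ∈ D.A i, D.β c i a p * ee (D.h i * ξ / ((a : ℝ) * p * D.Q i))‖ ≤ D.σ := by
    refine (norm_sum_le _ _).trans ?_
    refine (sum_le_card_nsmul _ _ 1 fun a _ => ?_).trans ?_
    · rw [norm_mul, norm_ee, mul_one]
      exact h.βb c i a p
    · rw [nsmul_eq_mul, mul_one]
      exact_mod_cast (h.Ab i hi).1
  rw [Dat2.F, norm_mul, norm_div, norm_one, Complex.norm_natCast, one_div, inv_mul_le_iff₀ hσ,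
    mul_one]
  exact h1

theorem ji1_inv_le {k q : ℕ} (hq : q ∈ Box k) : 1 / (q : ℝ) ≤ 1 / 2 ^ (k - 1) := by
  obtain ⟨h1, rfl⟩ := mem_Box.1 hq
  exact one_div_le_one_div_of_le (by positivity) (by exact_mod_cast two_pow_kk_le h1.ne_zero)

theorem good_primes {ι : Type} (D : Dat2 ι) {Om : ℝ} {y Yq klo khi : ℕ}
    (h : D.Ok Om y Yq klo khi) (c : Cl) (ξ : ℤ) (c4 : ℝ) (h0 : 0 < c4) (hc : c4 ≤ D.B c ξ) :
    c4 ≤ Om ∧ ∃ i ∈ D.I, c4 / (2 * Om) * 2 ^ (D.kb i - 1) ≤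
      (((Box (D.kb i)).filter (fun p => c4 / (2 * Om) ≤ ‖D.F c i p ξ‖)).card : ℝ) := by
  set g : ι → ℝ := fun i => ∑ p ∈ Box (D.kb i), 1 / (p : ℝ) * ‖D.F c i p ξ‖ with hg
  have hB : D.B c ξ = ∑ i ∈ D.I, D.wt i * g i := rfl
  have hg0 : ∀ i, 0 ≤ g i := fun i => sum_nonneg fun p _ => by positivity
  have hg1 : ∀ i ∈ D.I, g i ≤ 1 := fun i hi =>
    (sum_le_sum fun p _ => mul_le_of_le_one_right (by positivity)
      (ji1_norm_le D h c hi p ξ)).trans (mb_le_one _)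
  have hne : D.I.Nonempty := by
    by_contra hn
    rw [not_nonempty_iff_eq_empty] at hn
    rw [hB, hn, sum_empty] at hc
    linarith
  obtain ⟨i, hi, hmax⟩ := exists_max_image D.I g hne
  have h1 : c4 ≤ Om * g i := by
    refine hc.trans ?_
    rw [hB]
    refine (sum_le_sum fun j hj => mul_le_mul_of_nonneg_left (hmax j hj) (h.wt0 j)).trans ?_
    rw [← sum_mul]
    exact mul_le_mul_of_nonneg_right h.sum (hg0 i)
  have hOm0 : 0 ≤ Om := (sum_nonneg fun j _ => h.wt0 j).trans h.sum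
  have h2 : c4 ≤ Om := h1.trans (mul_le_of_le_one_right hOm0 (hg1 i hi))
  have hOm : 0 < Om := h0.trans_le h2
  refine ⟨h2, i, hi, ?_⟩
  set t := c4 / (2 * Om) with ht
  have ht0 : 0 < t := by positivity
  have h3 : 2 * t ≤ g i := by
    have : 2 * t = c4 / Om := by rw [ht]; field_simp
    rw [this, div_le_iff₀ hOm, mul_comm]
    exact h1
  have h4 : g i ≤ t + (((Box (D.kb i)).filter (fun p => t ≤ ‖D.F c i p ξ‖)).card : ℝ) *
      (1 / 2 ^ (D.kb i - 1)) := by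
    have e1 : g i ≤ ∑ p ∈ Box (D.kb i), (1 / (p : ℝ) * t +
        if t ≤ ‖D.F c i p ξ‖ then (1 : ℝ) / 2 ^ (D.kb i - 1) else 0) := by
      refine sum_le_sum fun p hp => ?_
      have e0 : (0 : ℝ) ≤ 1 / (p : ℝ) := by positivity
      split_ifs with hp'
      · have := (mul_le_of_le_one_right e0 (ji1_norm_le D h c hi p ξ)).trans (ji1_inv_le hp)
        have := mul_nonneg e0 ht0.le
        linarith
      · rw [add_zero]
        exact mul_le_mul_of_nonneg_left (not_le.1 hp').le e0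
    rw [sum_add_distrib, ← sum_mul, ← sum_filter, sum_const, nsmul_eq_mul] at e1
    have e2 : (∑ p ∈ Box (D.kb i), 1 / (p : ℝ)) * t ≤ t :=
      mul_le_of_le_one_left ht0.le (mb_le_one _)
    linarith
  have h5 : t ≤ (((Box (D.kb i)).filter (fun p => t ≤ ‖D.F c i p ξ‖)).card : ℝ) /
      2 ^ (D.kb i - 1) := by
    rw [div_eq_mul_one_div]
    linarith
  rwa [le_div_iff₀ (by positivity)] at h5

theorem ji1_mean (A : Finset ℕ) (γ : ℕ → ℂ) (hγ : ∀ a, ‖γ a‖ ≤ 1) (u : ℕ → ℤ) {p : ℕ}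
    (hp : 1 ≤ p) :
    ∑ m ∈ range p, ‖∑ a ∈ A, γ a * ee (u a * m / p)‖ ^ 2 ≤
      p * ∑ a ∈ A, ∑ a' ∈ A, if (p : ℤ) ∣ u a - u a' then (1 : ℝ) else 0 := by
  have h1 : ∀ m : ℕ, ((‖∑ a ∈ A, γ a * ee (u a * m / p)‖ ^ 2 : ℝ) : ℂ) =
      ∑ a ∈ A, ∑ a' ∈ A, γ a * (starRingEnd ℂ) (γ a') * ee (((u a - u a' : ℤ) : ℝ) * m / p) := by
    intro m
    rw [← Complex.normSq_eq_norm_sq, ← Complex.mul_conj, map_sum, sum_mul_sum]
    refine sum_congr rfl fun a _ => sum_congr rfl fun a' _ => ?_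
    have : (((u a - u a' : ℤ) : ℝ) * m / p) = u a * m / p + -(u a' * m / p) := by
      push_cast
      ring
    rw [map_mul, conj_ee, this, ee_add]
    ring
  have h2 : ((∑ m ∈ range p, ‖∑ a ∈ A, γ a * ee (u a * m / p)‖ ^ 2 : ℝ) : ℂ) =
      ∑ a ∈ A, ∑ a' ∈ A, γ a * (starRingEnd ℂ) (γ a') *
        if (p : ℤ) ∣ u a - u a' then (p : ℂ) else 0 := by
    rw [Complex.ofReal_sum, sum_congr rfl fun m _ => h1 m, sum_comm]
    refine sum_congr rfl fun a _ => ?_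
    rw [sum_comm]
    refine sum_congr rfl fun a' _ => ?_
    rw [← mul_sum, sum_ee p hp]
  have h3 := congrArg norm h2
  rw [Complex.norm_real, Real.norm_eq_abs] at h3
  refine (le_abs_self _).trans (h3.le.trans ?_)
  rw [mul_sum]
  refine (norm_sum_le _ _).trans (sum_le_sum fun a _ => ?_)
  rw [mul_sum]
  refine (norm_sum_le _ _).trans (sum_le_sum fun a' _ => ?_)
  rw [norm_mul, norm_mul, Complex.norm_conj]
  have h4 : ‖γ a‖ * ‖γ a'‖ ≤ 1 := mul_le_one₀ (hγ a) (norm_nonneg _) (hγ a')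
  refine (mul_le_of_le_one_left (norm_nonneg _) h4).trans ?_
  split_ifs <;> simp

theorem ji1_F {ι : Type} (D : Dat2 ι) {Om : ℝ} {y Yq klo khi : ℕ}
    (h : D.Ok Om y Yq klo khi) (c : Cl) {i : ι} (hi : i ∈ D.I) {p : ℕ} (hp : 1 ≤ p)
    (ρ m n : ℤ) :
    D.F c i p (ρ + (D.Q i * D.Q1 i : ℕ) * (m + p * n)) = 1 / (D.σ : ℂ) *
      ∑ a ∈ D.A i, D.β c i a p * ee (D.h i * ρ / ((a : ℝ) * p * D.Q i)) *
        ee (((D.h i * (D.Q1 i / a : ℕ) : ℤ) : ℝ) * m / p) := by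
  rw [Dat2.F]
  congr 1
  refine sum_congr rfl fun a ha => ?_
  obtain ⟨a1, -, b, hb⟩ := (h.Ab i hi).2 a ha
  have hQ := (h.Qb i hi).1
  have e1 : D.Q1 i / a = b := by rw [hb, Nat.mul_div_cancel_left _ a1]
  have a0 : (a : ℝ) ≠ 0 := by positivity
  have p0 : (p : ℝ) ≠ 0 := by positivity
  have q0 : (D.Q i : ℝ) ≠ 0 := by positivity
  rw [e1, mul_assoc (D.β c i a p), ← ee_add, hb]
  refine congrArg _ (Eq.trans (congrArg ee ?_) (ee_add_int _ (D.h i * b * n)))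
  push_cast
  field_simp
  ring

theorem ji1_count {ι : Type} (D : Dat2 ι) {Om : ℝ} {y Yq klo khi L : ℕ}
    (h : D.Ok Om y Yq klo khi) (hy : y ≤ 2 ^ L) {i : ι} (hi : i ∈ D.I) {a a' : ℕ}
    (ha : a ∈ D.A i) (ha' : a' ∈ D.A i) :
    ∑ p ∈ Box (D.kb i), (if (p : ℤ) ∣ (D.h i * (D.Q1 i / a : ℕ) : ℤ) - D.h i * (D.Q1 i / a' : ℕ)
      then (1 : ℝ) else 0) ≤ (if a = a' then (D.σ : ℝ) else 0) + 2 * L := by
  rw [← sum_filter, sum_const, nsmul_eq_mul, mul_one]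
  have hL : (0 : ℝ) ≤ 2 * L := by positivity
  split_ifs with e
  · have h1 : 2 ^ (D.kb i - 1) ≤ 2 ^ khi :=
      Nat.pow_le_pow_right (by norm_num) (by have := (h.kb i hi).2; omega)
    have h2 := ((card_filter_le (Box (D.kb i)) (fun p : ℕ => (p : ℤ) ∣
      (D.h i * (D.Q1 i / a : ℕ) : ℤ) - D.h i * (D.Q1 i / a' : ℕ))).trans
        (card_Box_le _)).trans (h1.trans h.σb)
    have h3 : ((((Box (D.kb i)).filter (fun p : ℕ => (p : ℤ) ∣
      (D.h i * (D.Q1 i / a : ℕ) : ℤ) - D.h i * (D.Q1 i / a' : ℕ))).card : ℕ) : ℝ) ≤ D.σ := by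
      exact_mod_cast h2
    linarith
  · obtain ⟨a1, a2, b, hb⟩ := (h.Ab i hi).2 a ha
    obtain ⟨a1', a2', b', hb'⟩ := (h.Ab i hi).2 a' ha'
    obtain ⟨g1, g2⟩ := h.hb i hi
    have e1 : D.Q1 i / a = b := by rw [hb, Nat.mul_div_cancel_left _ a1]
    have e2 : D.Q1 i / a' = b' := by rw [hb', Nat.mul_div_cancel_left _ a1']
    have hz : ((D.h i : ℤ) * ((a' : ℤ) - a)) ≠ 0 :=
      mul_ne_zero (by omega) (by omega)
    have hyz : (y : ℤ) ≤ 2 ^ L := by exact_mod_cast hy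
    have habs : |(D.h i : ℤ) * ((a' : ℤ) - a)| ≤ 2 ^ (2 * L) := by
      rw [abs_mul, two_mul, pow_add]
      refine mul_le_mul (abs_le.2 ⟨by omega, by omega⟩) (abs_le.2 ⟨by omega, by omega⟩)
        (abs_nonneg _) (by positivity)
    have h1 := card_primes_dvd ((Box (D.kb i)).filter (fun p : ℕ => (p : ℤ) ∣
      (D.h i * (D.Q1 i / a : ℕ) : ℤ) - D.h i * (D.Q1 i / a' : ℕ))) _ (2 * L) hz habs ?_
    · rw [zero_add]
      exact_mod_cast h1
    · intro p hp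
      obtain ⟨hp1, hp2⟩ := mem_filter.1 hp
      have hpp := (mem_Box.1 hp1).1
      refine ⟨hpp, ?_⟩
      rw [e1, e2] at hp2
      have hb1 : (D.Q1 i : ℤ) = a * b := by exact_mod_cast hb
      have hb2 : (D.Q1 i : ℤ) = a' * b' := by exact_mod_cast hb'
      have e3 : (D.Q1 i : ℤ) * (D.h i * ((a' : ℤ) - a)) =
          ((D.h i : ℤ) * b - D.h i * b') * (a * a') := by
        linear_combination (D.h i * a' : ℤ) * hb1 - (D.h i * a : ℤ) * hb2
      have h2 : (p : ℤ) ∣ (D.Q1 i : ℤ) * (D.h i * ((a' : ℤ) - a)) := by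
        rw [e3]
        exact hp2.mul_right _
      exact ((Nat.prime_iff_prime_int.1 hpp).dvd_or_dvd h2).resolve_left fun h3 =>
        h.Qp i hi p hp1 (Int.natCast_dvd_natCast.1 h3)

theorem list_bound {ι : Type} (D : Dat2 ι) {Om : ℝ} {y Yq klo khi L : ℕ}
    (h : D.Ok Om y Yq klo khi) (hy : y ≤ 2 ^ L) (hL : 1 ≤ L) (c : Cl) {i : ι} (hi : i ∈ D.I)
    (ρ : ℤ) (c2 : ℝ) (h0 : 0 < c2) :
    ∃ U : Finset (ℕ × ℤ), (U.card : ℝ) ≤ 6 * L * 2 ^ (D.kb i - 1) / c2 ^ 2 ∧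
      ∀ p ∈ Box (D.kb i), ∀ ξ : ℤ, ξ % (D.Q i * D.Q1 i : ℕ) = ρ → c2 ≤ ‖D.F c i p ξ‖ →
        (p, ξ % p) ∈ U := by
  classical
  have hσ := ji1_sigma D h
  set x : ℕ → ℤ := fun m => ρ + (D.Q i * D.Q1 i : ℕ) * (m : ℤ) with hx
  set G : ℕ → Finset ℕ := fun p => (range p).filter (fun m => c2 ≤ ‖D.F c i p (x m)‖) with hG
  set u : ℕ → ℤ := fun a => (D.h i * (D.Q1 i / a : ℕ) : ℤ) with hu
  refine ⟨(Box (D.kb i)).biUnion fun p => (G p).image fun m => (p, x m % p), ?_, ?_⟩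
  · have h1 : ∀ p ∈ Box (D.kb i), ((G p).card : ℝ) * c2 ^ 2 ≤ 2 * 2 ^ (D.kb i - 1) / D.σ ^ 2 *
        ∑ a ∈ D.A i, ∑ a' ∈ D.A i, if (p : ℤ) ∣ u a - u a' then (1 : ℝ) else 0 := by
      intro p hp
      obtain ⟨hpp, hk⟩ := mem_Box.1 hp
      have e1 : ((G p).card : ℝ) * c2 ^ 2 ≤ ∑ m ∈ range p, ‖D.F c i p (x m)‖ ^ 2 := by
        rw [← nsmul_eq_mul]
        refine (card_nsmul_le_sum _ (fun m => ‖D.F c i p (x m)‖ ^ 2) _ fun m hm =>
          pow_le_pow_left₀ h0.le (mem_filter.1 hm).2 2).trans ?_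
        exact sum_le_sum_of_subset_of_nonneg (filter_subset _ _) fun _ _ _ => by positivity
      have e2 : ∀ m : ℕ, ‖D.F c i p (x m)‖ ^ 2 = 1 / (D.σ : ℝ) ^ 2 *
          ‖∑ a ∈ D.A i, D.β c i a p * ee (D.h i * ρ / ((a : ℝ) * p * D.Q i)) *
            ee (u a * m / p)‖ ^ 2 := by
        intro m
        have := ji1_F D h c hi hpp.one_le ρ m 0
        rw [mul_zero, add_zero] at this
        rw [hx, this, norm_mul, norm_div, norm_one, Complex.norm_natCast, mul_pow, div_pow,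
          one_pow, Int.cast_natCast]
      have e3 := ji1_mean (D.A i) (fun a => D.β c i a p * ee (D.h i * ρ / ((a : ℝ) * p * D.Q i)))
        (fun a => by rw [norm_mul, norm_ee, mul_one]; exact h.βb c i a p) u hpp.one_le
      have e4 : (p : ℝ) ≤ 2 * 2 ^ (D.kb i - 1) := by
        have f1 := lt_two_pow_kk p
        have f2 := kk_pos p
        have f3 : 2 ^ kk p = 2 * 2 ^ (D.kb i - 1) := by
          rw [← hk, ← pow_succ', Nat.sub_add_cancel f2]
        rw [f3] at f1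
        exact_mod_cast f1.le
      refine e1.trans ?_
      rw [sum_congr rfl fun m _ => e2 m, ← mul_sum]
      refine (mul_le_mul_of_nonneg_left e3 (by positivity)).trans ?_
      rw [← mul_assoc, one_div_mul_eq_div]
      refine mul_le_mul_of_nonneg_right (div_le_div_of_nonneg_right e4 (by positivity)) ?_
      exact sum_nonneg fun a _ => sum_nonneg fun a' _ => by split_ifs <;> norm_num
    have h2 : ∑ p ∈ Box (D.kb i), ∑ a ∈ D.A i, ∑ a' ∈ D.A i,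
        (if (p : ℤ) ∣ u a - u a' then (1 : ℝ) else 0) ≤ 3 * L * D.σ ^ 2 := by
      have hA : ((D.A i).card : ℝ) ≤ D.σ := by exact_mod_cast (h.Ab i hi).1
      have hL' : (1 : ℝ) ≤ L := by exact_mod_cast hL
      rw [sum_comm]
      have e1 : ∀ a ∈ D.A i, ∑ p ∈ Box (D.kb i), ∑ a' ∈ D.A i,
          (if (p : ℤ) ∣ u a - u a' then (1 : ℝ) else 0) ≤ 3 * L * D.σ := by
        intro a ha
        rw [sum_comm]
        refine (sum_le_sum fun a' ha' => ji1_count D h hy hi ha ha').trans ?_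
        rw [sum_add_distrib, sum_ite_eq, if_pos ha, sum_const, nsmul_eq_mul]
        nlinarith [mul_le_mul_of_nonneg_right hA (by linarith : (0 : ℝ) ≤ L),
          mul_le_mul_of_nonneg_right hL' hσ.le]
      refine (sum_le_card_nsmul _ _ _ e1).trans ?_
      rw [nsmul_eq_mul]
      nlinarith [mul_le_mul_of_nonneg_right hA (by positivity : (0 : ℝ) ≤ 3 * L * D.σ)]
    have h3 : (((Box (D.kb i)).biUnion fun p => (G p).image fun m => (p, x m % p)).card : ℝ) ≤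
        ∑ p ∈ Box (D.kb i), ((G p).card : ℝ) := by
      exact_mod_cast card_biUnion_le.trans (sum_le_sum fun p _ => card_image_le)
    rw [le_div_iff₀ (by positivity)]
    refine (mul_le_mul_of_nonneg_right h3 (by positivity)).trans ?_
    rw [sum_mul]
    refine (sum_le_sum h1).trans ?_
    rw [← mul_sum]
    refine (mul_le_mul_of_nonneg_left h2 (by positivity)).trans (le_of_eq ?_)
    field_simp
    ring
  · intro p hp ξ hξ hF
    have hpp := (mem_Box.1 hp).1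
    have p0 : (0 : ℤ) < p := by exact_mod_cast hpp.pos
    set q : ℤ := ((D.Q i * D.Q1 i : ℕ) : ℤ) with hq
    obtain ⟨m, hm⟩ := Int.eq_ofNat_of_zero_le (Int.emod_nonneg (ξ / q) p0.ne')
    have hmp : m < p := by
      have := Int.emod_lt_of_pos (ξ / q) p0
      omega
    have e1 : ξ = ρ + q * (m + p * (ξ / q / p)) := by
      rw [← hm, Int.emod_add_mul_ediv, ← hξ, Int.emod_add_mul_ediv]
    have e2 : D.F c i p (x m) = D.F c i p ξ := by
      have f1 := ji1_F D h c hi hpp.one_le ρ m 0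
      have f2 := ji1_F D h c hi hpp.one_le ρ m (ξ / q / p)
      rw [mul_zero, add_zero] at f1
      rw [← e1] at f2
      exact f1.trans f2.symm
    refine mem_biUnion.2 ⟨p, hp, mem_image.2 ⟨m, mem_filter.2 ⟨mem_range.2 hmp, e2 ▸ hF⟩, ?_⟩⟩
    have e3 : ξ = x m + p * (q * (ξ / q / p)) := by
      rw [hx]
      linear_combination e1
    rw [Prod.mk.injEq]
    refine ⟨rfl, ?_⟩
    conv_rhs => rw [e3]
    rw [Int.add_mul_emod_self_left]

end

end Pool.Agent.Jac
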