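import Pool.Agent.P.MP_45ff98_nt.JBase

/-! Large subsets of a small universe. -/

namespace Pool.Agent.Jac
open Finset

noncomputable section

theorem JI2_bonf {α β : Type} [DecidableEq α] (G : β → Finset α) (s t : ℝ) (ht : 0 ≤ t)
    (K : Finset β) (hG : ∀ n ∈ K, s ≤ ((G n).card : ℝ))
    (hf : ∀ n ∈ K, ∀ c ∈ K, n ≠ c → ((G n ∩ G c).card : ℝ) ≤ t) :
    (K.card : ℝ) * s - (K.card : ℝ) ^ 2 / 2 * t ≤ ((K.biUnion G).card : ℝ) := by
  classical
  induction K using Finset.induction_on with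
  | empty => simp
  | insert a K ha ih =>
    have ih' := ih (fun n hn => hG n (mem_insert_of_mem hn))
      (fun n hn c hc => hf n (mem_insert_of_mem hn) c (mem_insert_of_mem hc))
    rw [biUnion_insert, card_insert_of_notMem ha]
    have h1 : ((G a ∪ K.biUnion G).card : ℝ) + ((G a ∩ K.biUnion G).card : ℝ)
        = (G a).card + ((K.biUnion G).card : ℝ) := by
      exact_mod_cast card_union_add_card_inter (G a) (K.biUnion G)
    have h2 : ((G a ∩ K.biUnion G).card : ℝ) ≤ (K.card : ℝ) * t := by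
      have h3 : G a ∩ K.biUnion G ⊆ K.biUnion fun c => G a ∩ G c := by
        intro x hx
        obtain ⟨h4, h5⟩ := mem_inter.1 hx
        obtain ⟨c, hc, h6⟩ := mem_biUnion.1 h5
        exact mem_biUnion.2 ⟨c, hc, mem_inter.2 ⟨h4, h6⟩⟩
      have h4 : ((G a ∩ K.biUnion G).card : ℝ) ≤ ∑ c ∈ K, ((G a ∩ G c).card : ℝ) := by
        exact_mod_cast (card_le_card h3).trans card_biUnion_le
      refine h4.trans ?_
      have h5 := sum_le_card_nsmul K (fun c => ((G a ∩ G c).card : ℝ)) t fun c hc =>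
        hf a (mem_insert_self _ _) c (mem_insert_of_mem hc) fun e => ha (e ▸ hc)
      rwa [nsmul_eq_mul] at h5
    have h6 := hG a (mem_insert_self _ _)
    push_cast
    nlinarith

theorem count_far {α β : Type} [DecidableEq α] (J : Finset β) (G : β → Finset α) (U : Finset α)
    (s u : ℝ) (hs : 0 < s) (hU : (U.card : ℝ) ≤ u) (hG : ∀ n ∈ J, G n ⊆ U ∧ s ≤ (G n).card)
    (hf : ∀ n ∈ J, ∀ c ∈ J, n ≠ c → ((G n ∩ G c).card : ℝ) < s ^ 2 / (5 * u)) :
    (J.card : ℝ) ≤ 3 * u / s := by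
  have hu0 : 0 ≤ u := (Nat.cast_nonneg _).trans hU
  by_contra hc
  push Not at hc
  have hJ : J.Nonempty := by
    rw [← card_pos]
    have : (0 : ℝ) < J.card := lt_of_le_of_lt (by positivity) hc
    exact_mod_cast this
  obtain ⟨n0, hn0⟩ := hJ
  have hsu : s ≤ u := (hG n0 hn0).2.trans
    ((Nat.cast_le.2 (card_le_card (hG n0 hn0).1)).trans hU)
  have hu : 0 < u := hs.trans_le hsu
  obtain ⟨m, hm⟩ : ∃ m : ℕ, m = ⌊3 * u / s⌋₊ := ⟨_, rfl⟩
  have m1 : (m : ℝ) ≤ 3 * u / s := hm ▸ Nat.floor_le (by positivity)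
  have m2 : 3 * u / s < m + 1 := hm ▸ Nat.lt_floor_add_one _
  have m3 : m ≤ J.card := by exact_mod_cast (m1.trans hc.le)
  obtain ⟨K, hK, hKc⟩ := exists_subset_card_eq m3
  have hb := JI2_bonf G s (s ^ 2 / (5 * u)) (by positivity) K (fun n hn => (hG n (hK hn)).2)
    fun n hn c hc' h => (hf n (hK hn) c (hK hc') h).le
  have hsub : K.biUnion G ⊆ U := biUnion_subset.2 fun n hn => (hG n (hK hn)).1
  have hle : ((K.biUnion G).card : ℝ) ≤ u := (Nat.cast_le.2 (card_le_card hsub)).trans hU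
  rw [hKc] at hb
  rw [le_div_iff₀ hs] at m1
  rw [div_lt_iff₀ hs] at m2
  have e1 : (m : ℝ) ^ 2 / 2 * (s ^ 2 / (5 * u)) = (m * s) * (m * s) / (10 * u) := by
    field_simp
    ring
  have e2 : (m * s) * (m * s) / (10 * u) ≤ (m * s) * (3 / 10) := by
    rw [div_le_iff₀ (by positivity)]
    have : (0 : ℝ) ≤ m * s := by positivity
    nlinarith
  nlinarith

theorem cover {α β : Type} [DecidableEq α] (J : Finset β) (G : β → Finset α) (U : Finset α)
    (s u : ℝ) (hs : 0 < s) (hU : (U.card : ℝ) ≤ u) (hG : ∀ n ∈ J, G n ⊆ U ∧ s ≤ (G n).card) :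
    ∃ C ⊆ J, (C.card : ℝ) ≤ 3 * u / s ∧
      ∀ n ∈ J, ∃ c ∈ C, s ^ 2 / (5 * u) ≤ ((G n ∩ G c).card : ℝ) := by
  classical
  obtain ⟨C, hC, hmax⟩ := exists_max_image (J.powerset.filter fun C => ∀ n ∈ C, ∀ c ∈ C, n ≠ c →
    ((G n ∩ G c).card : ℝ) < s ^ 2 / (5 * u)) card ⟨∅, by simp⟩
  obtain ⟨hC1, hC2⟩ := mem_filter.1 hC
  have hCJ : C ⊆ J := mem_powerset.1 hC1
  refine ⟨C, hCJ, count_far C G U s u hs hU (fun n hn => hG n (hCJ hn)) hC2, fun n hn => ?_⟩
  by_cases hnC : n ∈ C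
  · refine ⟨n, hnC, ?_⟩
    rw [inter_self]
    have hsu : s ≤ u := (hG n hn).2.trans ((Nat.cast_le.2 (card_le_card (hG n hn).1)).trans hU)
    have hu : 0 < u := hs.trans_le hsu
    refine le_trans ?_ (hG n hn).2
    rw [div_le_iff₀ (by positivity)]
    nlinarith
  · by_contra hcon
    push Not at hcon
    have h1 : insert n C ∈ J.powerset.filter fun C => ∀ n ∈ C, ∀ c ∈ C, n ≠ c →
        ((G n ∩ G c).card : ℝ) < s ^ 2 / (5 * u) := by
      refine mem_filter.2 ⟨mem_powerset.2 (insert_subset hn hCJ), fun a ha c hc hac => ?_⟩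
      rcases mem_insert.1 ha with rfl | ha' <;> rcases mem_insert.1 hc with rfl | hc'
      · exact absurd rfl hac
      · exact hcon c hc'
      · rw [inter_comm]
        exact hcon a ha'
      · exact hC2 a ha' c hc' hac
    have h2 := hmax _ h1
    rw [card_insert_of_notMem hnC] at h2
    omega

end

end Pool.Agent.Jac
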