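import Pool.Agent.P.MP_45ff98_nt.JI2
import Pool.Agent.P.MP_45ff98_nt.JI3

/-! The inverse theorem for one class. -/

namespace Pool.Agent.Jac
open Finset

noncomputable section

/-- The graph of the residue map over a set of primes. -/
def JI4_gr (N : ℤ) (G : ℕ → Finset ℕ) (n : ℕ) : Finset (ℕ × ℤ) :=
  (G n).image (fun p : ℕ => (p, N / n % p))

theorem JI4_mem {N : ℤ} {G : ℕ → Finset ℕ} {n : ℕ} {x : ℕ × ℤ} :
    x ∈ JI4_gr N G n ↔ x.1 ∈ G n ∧ x.2 = N / n % x.1 := by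
  unfold JI4_gr
  rw [mem_image]
  constructor
  · rintro ⟨p, hp, rfl⟩
    exact ⟨hp, rfl⟩
  · rintro ⟨h1, h2⟩
    exact ⟨x.1, h1, by rw [← h2]⟩

theorem JI4_card (N : ℤ) (G : ℕ → Finset ℕ) (n : ℕ) : (JI4_gr N G n).card = (G n).card :=
  card_image_of_injective _ fun _ _ h => congrArg Prod.fst h

theorem JI4_fst {N : ℤ} {G : ℕ → Finset ℕ} {n : ℕ} {T : Finset (ℕ × ℤ)}
    (h : T ⊆ JI4_gr N G n) : (T.image Prod.fst).card = T.card := by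
  refine card_image_of_injOn fun x hx z hz e => ?_
  have h1 := (JI4_mem.1 (h hx)).2
  have h2 := (JI4_mem.1 (h hz)).2
  refine Prod.ext e ?_
  rw [h1, h2, e]

/-- Two rounds of covering. -/
theorem JI4_two {α : Type} [DecidableEq α] (J : Finset ℕ) (G : ℕ → Finset α) (U : Finset α)
    (s u P : ℝ) (hs : 0 < s) (hu : 0 < u) (hU : (U.card : ℝ) ≤ u)
    (hG : ∀ n ∈ J, G n ⊆ U ∧ s ≤ (G n).card ∧ ((G n).card : ℝ) ≤ P) :
    ∃ (C : Finset ℕ) (C' : ℕ → Finset ℕ), C ⊆ J ∧ (C.card : ℝ) ≤ 3 * u / s ∧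
      (∀ c ∈ C, C' c ⊆ J ∧ ((C' c).card : ℝ) ≤ 3 * P / (s ^ 2 / (5 * u))) ∧
      ∀ n ∈ J, n ∉ C → ∃ c ∈ C, ∃ c' ∈ C' c, c ≠ c' ∧
        s ^ 2 / (5 * u) ≤ ((G c' ∩ G c).card : ℝ) ∧
        (s ^ 2 / (5 * u)) ^ 2 / (5 * P) ≤ (((G n ∩ G c) ∩ (G c' ∩ G c)).card : ℝ) := by
  classical
  obtain ⟨C, hCJ, hC, hcov⟩ := cover J G U s u hs hU fun n hn => ⟨(hG n hn).1, (hG n hn).2.1⟩
  have hs1 : 0 < s ^ 2 / (5 * u) := by positivity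
  have h2 : ∀ c : ℕ, ∃ C' : Finset ℕ, c ∈ J →
      C' ⊆ J.filter (fun n => n ≠ c ∧ s ^ 2 / (5 * u) ≤ ((G n ∩ G c).card : ℝ)) ∧
      (C'.card : ℝ) ≤ 3 * P / (s ^ 2 / (5 * u)) ∧
      ∀ n ∈ J.filter (fun n => n ≠ c ∧ s ^ 2 / (5 * u) ≤ ((G n ∩ G c).card : ℝ)), ∃ c' ∈ C',
        (s ^ 2 / (5 * u)) ^ 2 / (5 * P) ≤ (((G n ∩ G c) ∩ (G c' ∩ G c)).card : ℝ) := by
    intro c
    by_cases hc : c ∈ J
    · obtain ⟨C', h1, h2, h3⟩ := cover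
        (J.filter (fun n => n ≠ c ∧ s ^ 2 / (5 * u) ≤ ((G n ∩ G c).card : ℝ)))
        (fun n => G n ∩ G c) (G c) (s ^ 2 / (5 * u)) P hs1 (hG c hc).2.2
        fun n hn => ⟨inter_subset_right, (mem_filter.1 hn).2.2⟩
      exact ⟨C', fun _ => ⟨h1, h2, h3⟩⟩
    · exact ⟨∅, fun h => absurd h hc⟩
  choose C' hC' using h2
  refine ⟨C, C', hCJ, hC, fun c hc => ⟨(hC' c (hCJ hc)).1.trans (filter_subset _ _),
    (hC' c (hCJ hc)).2.1⟩, fun n hn hnC => ?_⟩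
  obtain ⟨c, hc, hnc⟩ := hcov n hn
  have hne : n ≠ c := fun e => hnC (e ▸ hc)
  obtain ⟨c', hc', h3⟩ := (hC' c (hCJ hc)).2.2 n (mem_filter.2 ⟨hn, hne, hnc⟩)
  have h4 := (mem_filter.1 ((hC' c (hCJ hc)).1 hc')).2
  exact ⟨c, hc, c', hc', h4.1.symm, h4.2, h3⟩

/-- Data of the line through two points. -/
def JI4_Ln (N : ℤ) (y L c c' v g : ℕ) (u R : ℤ) : Prop :=
  1 ≤ v ∧ 1 ≤ g ∧ IsCoprime (v : ℤ) R ∧
    (∀ n : ℕ, 1 ≤ n → n ≤ y → ∀ S : Finset ℕ, 2 * L + 2 ≤ S.card →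
      (∀ p ∈ S, p.Prime ∧ N / n % p = N / c % p ∧ N / n % p = N / c' % p) →
      g * v * (N % n) + u * n = g * R) ∧
    (∀ S : Finset ℕ, (∀ p ∈ S, p.Prime ∧ N / c % p = N / c' % p) →
      S.card ≤ (S.filter (fun p : ℕ => (p : ℤ) ∣ v * N - R)).card + 2 * L) ∧
    (∀ n : ℕ, g * v * (N % n) + u * n = g * R → (n : ℤ) ∣ g * (v * N - R)) ∧
    (∀ (A : Finset ℕ) (n0 : ℕ), n0 < A.card →
      (∀ n ∈ A, 1 ≤ n ∧ n ≤ y ∧ g * v * (N % n) + u * n = g * R) →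
      v * g * n0 ≤ y ∧ |R| * n0 ≤ 2 * (y : ℤ) ^ 2)

theorem JI4_lines (N : ℤ) (y L : ℕ) (hy : y ≤ 2 ^ L) :
    ∃ (v g : ℕ → ℕ → ℕ) (u R : ℕ → ℕ → ℤ), ∀ c c' : ℕ, (1 ≤ c ∧ c ≤ y) → (1 ≤ c' ∧ c' ≤ y) →
      c ≠ c' → JI4_Ln N y L c c' (v c c') (g c c') (u c c') (R c c') := by
  have h : ∀ c c' : ℕ, ∃ (v g : ℕ) (u R : ℤ), (1 ≤ c ∧ c ≤ y) → (1 ≤ c' ∧ c' ≤ y) →
      c ≠ c' → JI4_Ln N y L c c' v g u R := by
    intro c c'
    by_cases hc : (1 ≤ c ∧ c ≤ y) ∧ (1 ≤ c' ∧ c' ≤ y) ∧ c ≠ c'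
    · obtain ⟨v, g, u, R, h⟩ := line N y L hy c c' hc.1 hc.2.1 hc.2.2
      exact ⟨v, g, u, R, fun _ _ _ => h⟩
    · exact ⟨0, 0, 0, 0, fun h1 h2 h3 => absurd ⟨h1, h2, h3⟩ hc⟩
  choose v g u R h using h
  exact ⟨v, g, u, R, h⟩

theorem JI4_num1 (L c P : ℝ) (hL : 1 ≤ L) (h0 : 0 < c) (hP0 : 0 < P)
    (hP : 18000 * L ^ 3 ≤ c ^ 8 * P) :
    2 * L + 2 ≤ (c ^ 4 * P / (30 * L)) ^ 2 / (5 * P) := by
  have e : (c ^ 4 * P / (30 * L)) ^ 2 / (5 * P) = c ^ 8 * P / (4500 * L ^ 2) := by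
    field_simp
    ring
  rw [e, le_div_iff₀ (by positivity)]
  have : 0 ≤ L ^ 2 * (L - 1) := mul_nonneg (by positivity) (by linarith)
  nlinarith

theorem JI4_num2 (L c P : ℝ) (hL : 1 ≤ L) (h0 : 0 < c) (h1 : c ≤ 1) (hP0 : 0 < P)
    (hP : 18000 * L ^ 3 ≤ c ^ 8 * P) :
    c ^ 4 * P / (60 * L) + 2 * L ≤ c ^ 4 * P / (30 * L) := by
  have h2 : c ^ 8 ≤ c ^ 4 := pow_le_pow_of_le_one h0.le h1 (by norm_num)
  have h3 : c ^ 8 * P ≤ c ^ 4 * P := mul_le_mul_of_nonneg_right h2 hP0.le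
  have h4 : 2 * L ≤ c ^ 4 * P / (60 * L) := by
    rw [le_div_iff₀ (by positivity)]
    have : 0 ≤ L ^ 2 * (L - 1) := mul_nonneg (by positivity) (by linarith)
    nlinarith [sq_nonneg L]
  have e : c ^ 4 * P / (30 * L) = c ^ 4 * P / (60 * L) + c ^ 4 * P / (60 * L) := by
    field_simp
    ring
  rw [e]
  linarith

theorem JI4_num3 (L c n : ℝ) (hL : 1 ≤ L) (h0 : 0 < c) (h1 : c ≤ 1) (hn : 1 ≤ n) :
    18 * L / c ^ 3 + 18 * L / c ^ 3 * (90 * L / c ^ 4 * n) ≤ 1700 * L ^ 2 / c ^ 7 * n := by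
  have h2 : c ^ 4 ≤ 1 := pow_le_one₀ h0.le h1
  have e1 : 18 * L / c ^ 3 = 18 * L * c ^ 4 / c ^ 7 := by field_simp
  have e2 : 18 * L / c ^ 3 * (90 * L / c ^ 4 * n) = 1620 * L ^ 2 * n / c ^ 7 := by
    field_simp
    ring
  have e3 : 1700 * L ^ 2 / c ^ 7 * n = 1700 * L ^ 2 * n / c ^ 7 := by ring
  rw [e2, e3, e1, ← add_div]
  refine div_le_div_of_nonneg_right ?_ (by positivity)
  have h3 : L * c ^ 4 ≤ L := by nlinarith
  have h4 : L ≤ L ^ 2 := by nlinarith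
  have h5 : L ^ 2 ≤ L ^ 2 * n := by nlinarith [sq_nonneg L]
  nlinarith [sq_nonneg L]

theorem inv_class (N : ℤ) (y L k n0 : ℕ) (c2 : ℝ) (J : Finset ℕ) (G : ℕ → Finset ℕ)
    (U : Finset (ℕ × ℤ)) (hy : y ≤ 2 ^ L) (hL : 1 ≤ L) (h0 : 0 < c2) (h1 : c2 ≤ 1) (hn : 1 ≤ n0)
    (hP : 18000 * (L : ℝ) ^ 3 ≤ c2 ^ 8 * 2 ^ (k - 1))
    (hU : (U.card : ℝ) ≤ 6 * L * 2 ^ (k - 1) / c2 ^ 2)
    (hJ : ∀ n ∈ J, 1 ≤ n ∧ n ≤ y ∧ G n ⊆ Box k ∧ c2 * 2 ^ (k - 1) ≤ ((G n).card : ℝ) ∧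
      ∀ p ∈ G n, (p, N / n % p) ∈ U) :
    ∃ Y : Finset ℕ, (Y.card : ℝ) ≤ 1700 * (L : ℝ) ^ 2 / c2 ^ 7 * n0 ∧ ∀ n ∈ J, n ∉ Y →
      ∃ (s : ℕ × ℤ) (g : ℕ), 1 ≤ s.1 ∧ 1 ≤ g ∧ s.1 * g * n0 ≤ y ∧ |s.2| * n0 ≤ 2 * (y : ℤ) ^ 2 ∧
        IsCoprime (s.1 : ℤ) s.2 ∧ (n : ℤ) ∣ g * nf N s ∧
        c2 ^ 4 * 2 ^ (k - 1) / (60 * L) ≤
          (((Box k).filter (fun p : ℕ => (p : ℤ) ∣ nf N s)).card : ℝ) := by
  classical
  have hL' : (1 : ℝ) ≤ L := by exact_mod_cast hL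
  have hn' : (1 : ℝ) ≤ n0 := by exact_mod_cast hn
  have hBox : ((Box k).card : ℝ) ≤ 2 ^ (k - 1) := by exact_mod_cast card_Box_le k
  have hP0 : (0 : ℝ) < 2 ^ (k - 1) := by positivity
  generalize (2 : ℝ) ^ (k - 1) = P at hP hU hJ hBox hP0 ⊢
  obtain ⟨C, C', hCJ, hC, hC', hcov⟩ := JI4_two J (JI4_gr N G) U (c2 * P) (6 * L * P / c2 ^ 2) P
    (by positivity) (by positivity) hU fun n hn => by
      obtain ⟨-, -, h3, h4, h5⟩ := hJ n hn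
      refine ⟨fun x hx => ?_, by rw [JI4_card]; exact h4, ?_⟩
      · obtain ⟨p, hp, rfl⟩ := mem_image.1 hx
        exact h5 p hp
      · rw [JI4_card]
        exact le_trans (by exact_mod_cast card_le_card h3) hBox
  have e1 : (c2 * P) ^ 2 / (5 * (6 * L * P / c2 ^ 2)) = c2 ^ 4 * P / (30 * L) := by
    field_simp
    ring
  have e2 : 3 * (6 * L * P / c2 ^ 2) / (c2 * P) = 18 * L / c2 ^ 3 := by
    field_simp
    ring
  have e3 : 3 * P / (c2 ^ 4 * P / (30 * L)) = 90 * L / c2 ^ 4 := by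
    field_simp
    ring
  rw [e1] at hC' hcov
  rw [e3] at hC'
  rw [e2] at hC
  obtain ⟨v, g, u, R, hln⟩ := JI4_lines N y L hy
  let A : ℕ → ℕ → Finset ℕ := fun c c' =>
    J.filter (fun n : ℕ => (g c c' : ℤ) * v c c' * (N % n) + u c c' * n = g c c' * R c c')
  let B : ℕ → ℕ → Finset ℕ := fun c c' => if (A c c').card ≤ n0 then A c c' else ∅
  have hB : ∀ c c', (B c c').card ≤ n0 := fun c c' => by
    simp only [B]
    split_ifs with h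
    · exact h
    · simp
  refine ⟨C ∪ C.biUnion (fun c => (C' c).biUnion (B c)), ?_, fun n hnJ hnY => ?_⟩
  · have h2 : ∀ c ∈ C, (((C' c).biUnion (B c)).card : ℝ) ≤ 90 * L / c2 ^ 4 * n0 := fun c hc => by
      have h3 : ((C' c).biUnion (B c)).card ≤ (C' c).card * n0 :=
        card_biUnion_le_card_mul _ _ _ fun c' _ => hB c c'
      have h4 : (((C' c).biUnion (B c)).card : ℝ) ≤ (C' c).card * n0 := by exact_mod_cast h3
      exact h4.trans (mul_le_mul_of_nonneg_right (hC' c hc).2 (by positivity))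
    have h3 : ((C.biUnion (fun c => (C' c).biUnion (B c))).card : ℝ) ≤
        C.card * (90 * L / c2 ^ 4 * n0) := by
      have h4 : ((C.biUnion (fun c => (C' c).biUnion (B c))).card : ℝ) ≤
          ∑ c ∈ C, (((C' c).biUnion (B c)).card : ℝ) := by exact_mod_cast card_biUnion_le
      refine h4.trans ((sum_le_card_nsmul _ _ _ h2).trans ?_)
      rw [nsmul_eq_mul]
    have h4 : ((C ∪ C.biUnion (fun c => (C' c).biUnion (B c))).card : ℝ) ≤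
        C.card + (C.biUnion (fun c => (C' c).biUnion (B c))).card := by
      exact_mod_cast card_union_le _ _
    have h5 : (C.card : ℝ) * (90 * L / c2 ^ 4 * n0) ≤ 18 * L / c2 ^ 3 * (90 * L / c2 ^ 4 * n0) :=
      mul_le_mul_of_nonneg_right hC (by positivity)
    have h6 := JI4_num3 L c2 n0 hL' h0 h1 hn'
    linarith
  · rw [mem_union, not_or] at hnY
    obtain ⟨c, hc, c', hc', hne, h2, h3⟩ := hcov n hnJ hnY.1
    have hcJ := hJ c (hCJ hc)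
    have hcJ' := hJ c' ((hC' c hc).1 hc')
    have hnJ' := hJ n hnJ
    obtain ⟨l1, l2, l3, l4, l5, l6, l7⟩ :=
      hln c c' ⟨hcJ.1, hcJ.2.1⟩ ⟨hcJ'.1, hcJ'.2.1⟩ hne
    have hon : (g c c' : ℤ) * v c c' * (N % n) + u c c' * n = g c c' * R c c' := by
      refine l4 n hnJ'.1 hnJ'.2.1 (((JI4_gr N G n ∩ JI4_gr N G c) ∩
        (JI4_gr N G c' ∩ JI4_gr N G c)).image Prod.fst) ?_ fun p hp => ?_
      · rw [JI4_fst (n := n) (inter_subset_left.trans inter_subset_left)]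
        have h4 := (JI4_num1 L c2 P hL' h0 hP0 hP).trans h3
        exact_mod_cast h4
      · obtain ⟨x, hx, rfl⟩ := mem_image.1 hp
        simp only [mem_inter, JI4_mem] at hx
        obtain ⟨⟨⟨x1, x2⟩, -, x3⟩, ⟨-, x4⟩, -⟩ := hx
        exact ⟨(mem_Box.1 (hnJ'.2.2.1 x1)).1, by rw [← x2, x3], by rw [← x2, x4]⟩
    have hnA : n ∈ A c c' := mem_filter.2 ⟨hnJ, hon⟩
    have hbig : n0 < (A c c').card := by
      by_contra hcon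
      refine hnY.2 (mem_biUnion.2 ⟨c, hc, mem_biUnion.2 ⟨c', hc', ?_⟩⟩)
      simp only [B]
      rw [if_pos (not_lt.1 hcon)]
      exact hnA
    obtain ⟨m1, m2⟩ := l7 (A c c') n0 hbig fun m hm =>
      ⟨(hJ m (mem_filter.1 hm).1).1, (hJ m (mem_filter.1 hm).1).2.1, (mem_filter.1 hm).2⟩
    refine ⟨(v c c', R c c'), g c c', l1, l2, m1, m2, l3, l6 n hon, ?_⟩
    have hS : ∀ p ∈ (JI4_gr N G c' ∩ JI4_gr N G c).image Prod.fst,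
        p ∈ Box k ∧ N / c % p = N / c' % p := fun p hp => by
      obtain ⟨x, hx, rfl⟩ := mem_image.1 hp
      simp only [mem_inter, JI4_mem] at hx
      obtain ⟨⟨x1, x2⟩, -, x3⟩ := hx
      exact ⟨hcJ'.2.2.1 x1, by rw [← x2, x3]⟩
    have h4 := l5 ((JI4_gr N G c' ∩ JI4_gr N G c).image Prod.fst) fun p hp =>
      ⟨(mem_Box.1 (hS p hp).1).1, (hS p hp).2⟩
    rw [JI4_fst (n := c') inter_subset_left] at h4
    have h5 : (((JI4_gr N G c' ∩ JI4_gr N G c).image Prod.fst).filter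
        (fun p : ℕ => (p : ℤ) ∣ v c c' * N - R c c')).card ≤
        ((Box k).filter (fun p : ℕ => (p : ℤ) ∣ nf N (v c c', R c c'))).card :=
      card_le_card fun p hp => mem_filter.2 ⟨(hS p (mem_filter.1 hp).1).1, (mem_filter.1 hp).2⟩
    have h6 : ((JI4_gr N G c' ∩ JI4_gr N G c).card : ℝ) ≤
        ((Box k).filter (fun p : ℕ => (p : ℤ) ∣ nf N (v c c', R c c'))).card + 2 * L := by
      exact_mod_cast h4.trans (Nat.add_le_add_right h5 _)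
    have h7 := JI4_num2 L c2 P hL' h0 h1 hP0 hP
    linarith

end

end Pool.Agent.Jac
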