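import Pool.Agent.P.MP_45ff98_nt.JI1
import Pool.Agent.P.MP_45ff98_nt.JI4

/-! The inverse theorem. -/

namespace Pool.Agent.Jac
open Finset

noncomputable section

/-- many primes of the box divide the numerator -/
def ji5M (N : ℤ) (L k : ℕ) (c2 : ℝ) (s : ℕ × ℤ) : Prop :=
  c2 ^ 4 * 2 ^ (k - 1) / (60 * L) ≤ (((Box k).filter (fun p : ℕ => (p : ℤ) ∣ nf N s)).card : ℝ)

theorem ji5_fr (N : ℤ) (y L k : ℕ) (c2 : ℝ) (hy : y ≤ 2 ^ L) (hL : 1 ≤ L) (h0 : 0 < c2)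
    (hP : 90000 * (L : ℝ) ^ 3 < c2 ^ 8 * 2 ^ (k - 1)) (S : Finset (ℕ × ℤ))
    (hS : ∀ s ∈ S, Fr y s ∧ ji5M N L k c2 s) : (S.card : ℝ) ≤ 180 * L / c2 ^ 4 := by
  have hL' : (0 : ℝ) < L := by exact_mod_cast hL
  have hU : ((Box k).card : ℝ) ≤ 2 ^ (k - 1) := by exact_mod_cast card_Box_le k
  have hp : (0 : ℝ) < 2 ^ (k - 1) := by positivity
  unfold ji5M at hS
  generalize (2 : ℝ) ^ (k - 1) = P at hP hS hU hp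
  have h := count_far S (fun s => (Box k).filter (fun p : ℕ => (p : ℤ) ∣ nf N s)) (Box k)
    (c2 ^ 4 * P / (60 * L)) P (by positivity) hU
    (fun s hs => ⟨filter_subset _ _, (hS s hs).2⟩) fun s hs s' hs' hne => by
      have h1 := frac_share N y L hy hL s s' hne (hS s hs).1 (hS s' hs').1
        ((Box k).filter (fun p : ℕ => (p : ℤ) ∣ nf N s) ∩
          (Box k).filter (fun p : ℕ => (p : ℤ) ∣ nf N s')) fun p hp => by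
          rw [mem_inter, mem_filter, mem_filter] at hp
          exact ⟨(mem_Box.1 hp.1.1).1, hp.1.2, hp.2.2⟩
      have h2 : (5 * L : ℝ) < (c2 ^ 4 * P / (60 * L)) ^ 2 / (5 * P) := by
        rw [show (c2 ^ 4 * P / (60 * L)) ^ 2 / (5 * P) = c2 ^ 8 * P / (18000 * L ^ 2) by
          field_simp; ring, lt_div_iff₀ (by positivity)]
        linarith
      refine lt_of_le_of_lt ?_ h2
      exact_mod_cast h1
  refine h.trans (le_of_eq ?_)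
  field_simp
  ring

/-- the conclusion for one integer -/
def ji5G (N : ℤ) (y L klo khi n0 : ℕ) (c2 : ℝ) (n : ℕ) : Prop :=
  ∃ (s : ℕ × ℤ) (g : ℕ), Fr y s ∧ |s.2| * n0 ≤ 2 * (y : ℤ) ^ 2 ∧ 1 ≤ g ∧ s.1 * g * n0 ≤ y ∧
    (n : ℤ) ∣ g * nf N s ∧ ∃ k ∈ Ico klo khi, ji5M N L k c2 s

theorem ji5_fib {ι : Type} (D : Dat2 ι) {Om c2 : ℝ} {y Yq klo khi L n0 : ℕ} (N : ℤ)
    (h : D.Ok Om y Yq klo khi) (hy : y ≤ 2 ^ L) (hL : 1 ≤ L) (h0 : 0 < c2) (h1 : c2 ≤ 1)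
    (hn : 1 ≤ n0) (hP : 90000 * (L : ℝ) ^ 3 < c2 ^ 8 * 2 ^ (klo - 1)) (κ : Cl) {i : ι}
    (hi : i ∈ D.I) (ρ : ℤ) (J : Finset ℕ)
    (hJ : ∀ n ∈ J, 1 ≤ n ∧ n ≤ y ∧ (N / n) % (D.Q i * D.Q1 i : ℕ) = ρ ∧
      c2 * 2 ^ (D.kb i - 1) ≤
        (((Box (D.kb i)).filter (fun p => c2 ≤ ‖D.F κ i p (N / n)‖)).card : ℝ)) :
    ∃ Y : Finset ℕ, (Y.card : ℝ) ≤ 1700 * (L : ℝ) ^ 2 / c2 ^ 7 * n0 ∧
      ∀ n ∈ J, n ∉ Y → ji5G N y L klo khi n0 c2 n := by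
  obtain ⟨U, hU, hU'⟩ := list_bound D h hy hL κ hi ρ c2 h0
  have hk := h.kb i hi
  have h2 : (2 : ℝ) ^ (klo - 1) ≤ 2 ^ (D.kb i - 1) :=
    pow_le_pow_right₀ one_le_two (Nat.sub_le_sub_right hk.1 1)
  have h3 : 18000 * (L : ℝ) ^ 3 ≤ c2 ^ 8 * 2 ^ (D.kb i - 1) := by
    have h4 := mul_le_mul_of_nonneg_left h2 (pow_pos h0 8).le
    have h5 : (0 : ℝ) ≤ (L : ℝ) ^ 3 := by positivity
    linarith
  obtain ⟨Y, hY, hY'⟩ := inv_class N y L (D.kb i) n0 c2 J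
    (fun n => (Box (D.kb i)).filter (fun p => c2 ≤ ‖D.F κ i p (N / n)‖)) U hy hL h0 h1 hn h3 hU
    fun n hn => ⟨(hJ n hn).1, (hJ n hn).2.1, filter_subset _ _, (hJ n hn).2.2.2, fun p hp =>
      hU' p (mem_filter.1 hp).1 _ (hJ n hn).2.2.1 (mem_filter.1 hp).2⟩
  refine ⟨Y, hY, fun n hnJ hnY => ?_⟩
  obtain ⟨s, g, g1, g2, g3, g4, g5, g6, g7⟩ := hY' n hnJ hnY
  refine ⟨s, g, ⟨g1, ?_, ?_, g5⟩, g4, g2, g3, g6, D.kb i, mem_Ico.2 hk, g7⟩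
  · exact ((Nat.le_mul_of_pos_right _ g2).trans (Nat.le_mul_of_pos_right _ hn)).trans g3
  · exact (le_mul_of_one_le_right (abs_nonneg _) (by exact_mod_cast hn)).trans g4

theorem ji5_Y {ι : Type} (D : Dat2 ι) {Om c2 : ℝ} {y Yq klo khi L n0 : ℕ} (N : ℤ)
    (h : D.Ok Om y Yq klo khi) (hy : y ≤ 2 ^ L) (hL : 1 ≤ L) (h0 : 0 < c2) (h1 : c2 ≤ 1)
    (hn : 1 ≤ n0) (hP : 90000 * (L : ℝ) ^ 3 < c2 ^ 8 * 2 ^ (klo - 1)) (J : Finset ℕ) (cl : ℕ → Cl)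
    (Cs : Finset Cl)
    (hJ : ∀ n ∈ J, 1 ≤ n ∧ n ≤ y ∧ cl n ∈ Cs ∧ ∃ i ∈ D.I, c2 * 2 ^ (D.kb i - 1) ≤
        (((Box (D.kb i)).filter (fun p => c2 ≤ ‖D.F (cl n) i p (N / n)‖)).card : ℝ)) :
    ∃ Y : Finset ℕ, (Y.card : ℝ) ≤ Cs.card * D.I.card * Yq * (1700 * (L : ℝ) ^ 2 / c2 ^ 7 * n0) ∧
      ∀ n ∈ J, n ∉ Y → ji5G N y L klo khi n0 c2 n := by
  classical
  have key : ∀ t : (Cl × ι) × ℕ, ∃ Y : Finset ℕ,
      (Y.card : ℝ) ≤ 1700 * (L : ℝ) ^ 2 / c2 ^ 7 * n0 ∧ (t.1.2 ∈ D.I → ∀ n ∈ J, cl n = t.1.1 →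
        (N / n) % (D.Q t.1.2 * D.Q1 t.1.2 : ℕ) = (t.2 : ℤ) → c2 * 2 ^ (D.kb t.1.2 - 1) ≤
          (((Box (D.kb t.1.2)).filter (fun p => c2 ≤ ‖D.F (cl n) t.1.2 p (N / n)‖)).card : ℝ) →
        n ∉ Y → ji5G N y L klo khi n0 c2 n) := by
    rintro ⟨⟨κ, i⟩, ρ⟩
    by_cases hi : i ∈ D.I
    · obtain ⟨Y, hY, hY'⟩ := ji5_fib D N h hy hL h0 h1 hn hP κ hi (ρ : ℤ)
        (J.filter fun n => (N / n) % (D.Q i * D.Q1 i : ℕ) = (ρ : ℤ) ∧ c2 * 2 ^ (D.kb i - 1) ≤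
          (((Box (D.kb i)).filter (fun p => c2 ≤ ‖D.F κ i p (N / n)‖)).card : ℝ))
        fun n hn => by
          obtain ⟨a, b⟩ := mem_filter.1 hn
          exact ⟨(hJ n a).1, (hJ n a).2.1, b⟩
      refine ⟨Y, hY, fun _ n hn e1 e2 e3 => hY' n (mem_filter.2 ⟨hn, e2, ?_⟩)⟩
      have e4 : cl n = κ := e1
      rw [← e4]
      exact e3
    · exact ⟨∅, by rw [card_empty, Nat.cast_zero]; positivity, fun hi' => absurd hi' hi⟩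
  choose Y hY hY' using key
  refine ⟨((Cs ×ˢ D.I) ×ˢ range Yq).biUnion Y, ?_, fun n hn hnY => ?_⟩
  · calc ((((Cs ×ˢ D.I) ×ˢ range Yq).biUnion Y).card : ℝ)
        ≤ ∑ t ∈ (Cs ×ˢ D.I) ×ˢ range Yq, ((Y t).card : ℝ) := by exact_mod_cast card_biUnion_le
      _ ≤ ∑ _t ∈ (Cs ×ˢ D.I) ×ˢ range Yq, 1700 * (L : ℝ) ^ 2 / c2 ^ 7 * n0 :=
        sum_le_sum fun t _ => hY t
      _ = _ := by
        rw [sum_const, card_product, card_product, card_range, nsmul_eq_mul, Nat.cast_mul,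
          Nat.cast_mul]
  · obtain ⟨-, -, a1, i, hi, a2⟩ := hJ n hn
    obtain ⟨q1, q2, q3⟩ := h.Qb i hi
    have hq : (0 : ℤ) < (D.Q i * D.Q1 i : ℕ) := by exact_mod_cast Nat.mul_pos q1 q2
    have b1 := Int.emod_nonneg (N / n) hq.ne'
    have b2 := Int.emod_lt_of_pos (N / n) hq
    refine hY' ((cl n, i), ((N / n) % (D.Q i * D.Q1 i : ℕ)).toNat) hi n hn rfl
      (Int.toNat_of_nonneg b1).symm a2 fun h' => hnY (mem_biUnion.2 ⟨_, ?_, h'⟩)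
    refine mem_product.2 ⟨mem_product.2 ⟨a1, hi⟩, mem_range.2 ?_⟩
    exact lt_of_lt_of_le ((Int.toNat_lt b1).2 b2) q3

theorem ji5_S (N : ℤ) (y L klo khi n0 : ℕ) (c2 : ℝ) (hy : y ≤ 2 ^ L) (hL : 1 ≤ L) (h0 : 0 < c2)
    (hP : 90000 * (L : ℝ) ^ 3 < c2 ^ 8 * 2 ^ (klo - 1)) :
    ∃ S : Finset (ℕ × ℤ), (S.card : ℝ) ≤ khi * (180 * L / c2 ^ 4) ∧
      (∀ s ∈ S, Fr y s ∧ |s.2| * n0 ≤ 2 * (y : ℤ) ^ 2) ∧
      ∀ s, Fr y s → |s.2| * n0 ≤ 2 * (y : ℤ) ^ 2 → (∃ k ∈ Ico klo khi, ji5M N L k c2 s) →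
        s ∈ S := by
  classical
  refine ⟨(Ico klo khi).biUnion fun k =>
    (Icc 1 y ×ˢ Icc (-(2 * (y : ℤ) ^ 2)) (2 * (y : ℤ) ^ 2)).filter
      fun s => Fr y s ∧ |s.2| * n0 ≤ 2 * (y : ℤ) ^ 2 ∧ ji5M N L k c2 s, ?_, fun s hs => ?_, ?_⟩
  · refine le_trans (b := ∑ _k ∈ Ico klo khi, 180 * (L : ℝ) / c2 ^ 4) ?_ ?_
    · refine le_trans ((Nat.cast_le.2 card_biUnion_le).trans_eq (Nat.cast_sum _ _))
        (sum_le_sum fun k hk => ?_)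
      refine ji5_fr N y L k c2 hy hL h0 (hP.trans_le ?_) _ fun s hs =>
        ⟨(mem_filter.1 hs).2.1, (mem_filter.1 hs).2.2.2⟩
      exact mul_le_mul_of_nonneg_left
        (pow_le_pow_right₀ one_le_two (Nat.sub_le_sub_right (mem_Ico.1 hk).1 1)) (pow_pos h0 8).le
    · rw [sum_const, Nat.card_Ico, nsmul_eq_mul]
      exact mul_le_mul_of_nonneg_right (by exact_mod_cast Nat.sub_le _ _) (by positivity)
  · obtain ⟨k, -, hk⟩ := mem_biUnion.1 hs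
    exact ⟨(mem_filter.1 hk).2.1, (mem_filter.1 hk).2.2.1⟩
  · rintro s h1 h2 ⟨k, hk, h3⟩
    exact mem_biUnion.2 ⟨k, hk, mem_filter.2 ⟨mem_product.2
      ⟨mem_Icc.2 ⟨h1.1, h1.2.1⟩, mem_Icc.2 (abs_le.1 h1.2.2.1)⟩, h1, h2, h3⟩⟩

theorem inv : ∃ C : ℝ, 1 ≤ C ∧ ∀ {ι : Type} (D : Dat2 ι) (Om c : ℝ) (y Yq klo khi L n0 : ℕ) (N : ℤ)
    (J : Finset ℕ) (cl : ℕ → Cl) (Cs : Finset Cl), D.Ok Om y Yq klo khi → y ≤ 2 ^ L → 1 ≤ L →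
    0 < c → 1 ≤ n0 → C * (L : ℝ) ^ 3 * (Om / c) ^ 8 ≤ 2 ^ (klo - 1) →
    (∀ n ∈ J, 1 ≤ n ∧ n ≤ y ∧ cl n ∈ Cs ∧ c ≤ D.B (cl n) (N / n)) →
    ∃ (S : Finset (ℕ × ℤ)) (Y : Finset ℕ), (S.card : ℝ) ≤ C * khi * L * (Om / c) ^ 4 ∧
      (Y.card : ℝ) ≤ C * Cs.card * D.I.card * Yq * (L : ℝ) ^ 2 * (Om / c) ^ 7 * n0 ∧
      (∀ s ∈ S, Fr y s ∧ |s.2| * n0 ≤ 2 * (y : ℤ) ^ 2) ∧
      ∀ n ∈ J, n ∉ Y → ∃ s ∈ S, ∃ g : ℕ, 1 ≤ g ∧ s.1 * g * n0 ≤ y ∧ (n : ℤ) ∣ g * nf N s := by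
  refine ⟨100000000, by norm_num, ?_⟩
  intro ι D Om c y Yq klo khi L n0 N J cl Cs h hy hL hc hn hP hJ
  rcases J.eq_empty_or_nonempty with rfl | ⟨m, hm⟩
  · have hO : 0 ≤ Om := (sum_nonneg fun i _ => h.wt0 i).trans h.sum
    refine ⟨∅, ∅, ?_, ?_, by simp, by simp⟩
    · rw [card_empty, Nat.cast_zero]; positivity
    · rw [card_empty, Nat.cast_zero]; positivity
  have hO : c ≤ Om := (good_primes D h _ _ c hc (hJ m hm).2.2.2).1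
  have hO' : 0 < Om := hc.trans_le hO
  have h0 : 0 < c / (2 * Om) := by positivity
  have h1 : c / (2 * Om) ≤ 1 := by
    rw [div_le_one (by positivity)]
    linarith
  have hL' : (0 : ℝ) < L := by exact_mod_cast hL
  have e : ∀ j : ℕ, 1 / (c / (2 * Om)) ^ j = 2 ^ j * (Om / c) ^ j := fun j => by
    rw [← mul_pow, one_div, ← inv_pow, inv_div, mul_div_assoc]
  have hP' : 90000 * (L : ℝ) ^ 3 < (c / (2 * Om)) ^ 8 * 2 ^ (klo - 1) := by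
    rw [← div_lt_iff₀' (pow_pos h0 8), div_eq_mul_one_div, e]
    have : 0 < (L : ℝ) ^ 3 * (Om / c) ^ 8 := by positivity
    linarith
  obtain ⟨Y, hY, hY'⟩ := ji5_Y D N h hy hL h0 h1 hn hP' J cl Cs fun n hn =>
    ⟨(hJ n hn).1, (hJ n hn).2.1, (hJ n hn).2.2.1, (good_primes D h _ _ c hc (hJ n hn).2.2.2).2⟩
  obtain ⟨S, hS, hS1, hS2⟩ := ji5_S N y L klo khi n0 _ hy hL h0 hP'
  refine ⟨S, Y, hS.trans ?_, hY.trans ?_, hS1, fun n hn hnY => ?_⟩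
  · rw [div_eq_mul_one_div, e]
    have : 0 ≤ (khi : ℝ) * L * (Om / c) ^ 4 := by positivity
    linarith
  · rw [div_eq_mul_one_div, e]
    have : 0 ≤ (Cs.card : ℝ) * D.I.card * Yq * (L : ℝ) ^ 2 * (Om / c) ^ 7 * n0 := by positivity
    linarith
  · obtain ⟨s, g, g1, g2, g3, g4, g5, g6⟩ := hY' n hn hnY
    exact ⟨s, hS2 s g1 g2 g6, g, g3, g4, g5⟩

end

end Pool.Agent.Jac
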