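import Pool.Agent.P.MP_45ff98_nt.JSv

/-! Node error for the interval. -/

namespace Pool.Agent.Jac
open Finset

noncomputable section

theorem JNodeA_count (N : ℤ) (y m : ℕ) (hm : 1 ≤ m) :
    |(((Icc 1 y).filter (fun i : ℕ => (m : ℤ) ∣ N + i)).card : ℝ) - (y : ℝ) / m| ≤ 1 := by
  have hm' : (0 : ℤ) < m := by exact_mod_cast hm
  have h1 : ((Icc 1 y).filter (fun i : ℕ => (m : ℤ) ∣ N + i)).card =
      ((Ioc N (N + y)).filter (fun x : ℤ => (m : ℤ) ∣ x)).card := by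
    refine card_bij (fun i _ => N + (i : ℤ)) (fun i hi => ?_) (fun i _ j _ h => ?_)
      (fun x hx => ?_)
    · obtain ⟨h1, h2⟩ := mem_filter.1 hi
      obtain ⟨h3, h4⟩ := mem_Icc.1 h1
      exact mem_filter.2 ⟨mem_Ioc.2 ⟨by omega, by omega⟩, h2⟩
    · omega
    · obtain ⟨h1, h2⟩ := mem_filter.1 hx
      obtain ⟨h3, h4⟩ := mem_Ioc.1 h1
      have e : N + ((x - N).toNat : ℤ) = x := by omega
      exact ⟨(x - N).toNat, mem_filter.2 ⟨mem_Icc.2 ⟨by omega, by omega⟩, by rw [e]; exact h2⟩, e⟩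
  have h2 : (((Ioc N (N + y)).filter (fun x : ℤ => (m : ℤ) ∣ x)).card : ℤ) =
      (N + y) / m - N / m := by
    rw [Int.Ioc_filter_dvd_card _ _ hm', Int.cast_natCast, Rat.floor_intCast_div_natCast,
      Rat.floor_intCast_div_natCast]
    exact max_eq_left (sub_nonneg.2 (Int.ediv_le_ediv hm' (by omega)))
  have h3 : (((Icc 1 y).filter (fun i : ℕ => (m : ℤ) ∣ N + i)).card : ℝ) =
      (((N + y) / m - N / m : ℤ) : ℝ) := by
    rw [h1, ← h2]; simp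
  have hmr : (0 : ℝ) < m := by exact_mod_cast hm
  have a1 := Int.mul_ediv_add_emod (N + y) m
  have a2 := Int.mul_ediv_add_emod N m
  have a3 := Int.emod_nonneg (N + y) hm'.ne'
  have a4 := Int.emod_lt_of_pos (N + y) hm'
  have a5 := Int.emod_nonneg N hm'.ne'
  have a6 := Int.emod_lt_of_pos N hm'
  have b1 : (m : ℤ) * ((N + y) / m - N / m) ≤ y + m := by rw [mul_sub]; omega
  have b2 : (y : ℤ) - m ≤ (m : ℤ) * ((N + y) / m - N / m) := by rw [mul_sub]; omega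
  rw [h3]
  generalize (N + y) / m - N / m = q at b1 b2
  have c1 : (m : ℝ) * q ≤ y + m := by exact_mod_cast b1
  have c2 : (y : ℝ) - m ≤ (m : ℝ) * q := by exact_mod_cast b2
  have e : (q : ℝ) - y / m = (m * q - y) / m := by field_simp
  rw [e, abs_div, abs_of_pos hmr, div_le_one hmr, abs_le]
  constructor <;> linarith

theorem JNodeA_dens (w : ℕ) : Dens (PP 0 w) (fun r => 1 / (r : ℝ)) := by
  intro r hr
  have h2 : (2 : ℝ) ≤ r := by exact_mod_cast (mem_PP.1 hr).2.1.two_le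
  exact ⟨by positivity, one_div_le_one_div_of_le (by norm_num) h2,
    one_div_le_one_div_of_le (by linarith) (by linarith)⟩

theorem JNodeA_rem (N : ℤ) (y d w : ℕ) (hd : 1 ≤ d) (hp : ∀ r : ℕ, r.Prime → r ∣ d → w ≤ r)
    (T : Finset ℕ) (hT : T ⊆ PP 0 w) :
    |∑ _x ∈ ((Icc 1 y).filter (fun i : ℕ => (d : ℤ) ∣ N + i)).filter
        (fun x : ℕ => ∀ r ∈ T, (r : ℤ) ∣ N + x), (1 : ℝ) -
      (y : ℝ) / d * ∏ r ∈ T, 1 / (r : ℝ)| ≤ 1 := by
  have hTp : ∀ p ∈ T, p.Prime := fun p h => (mem_PP.1 (hT h)).2.1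
  have hco : Nat.Coprime d (pr T) := by
    refine Nat.Coprime.prod_right fun p h => ?_
    refine ((Nat.Prime.coprime_iff_not_dvd (hTp p h)).2 fun h1 => ?_).symm
    have := hp p (hTp p h) h1
    have := (mem_PP.1 (hT h)).1
    omega
  have h1 : ((Icc 1 y).filter (fun i : ℕ => (d : ℤ) ∣ N + i)).filter
      (fun x : ℕ => ∀ r ∈ T, (r : ℤ) ∣ N + x) =
      (Icc 1 y).filter (fun i : ℕ => ((d * pr T : ℕ) : ℤ) ∣ N + i) := by
    rw [filter_filter]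
    refine filter_congr fun i _ => ?_
    rw [← pr_dvd_iff hTp, Nat.cast_mul]
    exact ⟨fun h => (Nat.isCoprime_iff_coprime.2 hco).mul_dvd h.1 h.2,
      fun h => ⟨dvd_of_mul_right_dvd h, dvd_of_mul_left_dvd h⟩⟩
  have h2 : (y : ℝ) / d * ∏ r ∈ T, 1 / (r : ℝ) = (y : ℝ) / ((d * pr T : ℕ) : ℝ) := by
    rw [prod_div_distrib, prod_const_one, Nat.cast_mul, pr, Nat.cast_prod, div_mul_div_comm,
      mul_one]
  rw [h1, h2, sum_const, nsmul_eq_mul, mul_one]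
  exact JNodeA_count N y _ (Nat.mul_pos hd (pr_pos hTp))

theorem JNodeA_y {y t0 k0 t d : ℕ} (h1 : k0 ≤ t) (h2 : 2 ^ t * d ≤ 2 ^ t0)
    (h3 : (2 ^ t0) ^ 4 ≤ 2 ^ k0 * y ^ 4) {w : ℝ} (hw : w ^ 4 = 2 ^ t) :
    w ^ 3 * d ≤ y := by
  have a1 : (2 ^ t * d) ^ 4 ≤ 2 ^ t * y ^ 4 :=
    ((Nat.pow_le_pow_left h2 4).trans h3).trans
      (Nat.mul_le_mul_right _ (Nat.pow_le_pow_right (by norm_num) h1))
  have a2 : (2 ^ t) ^ 3 * d ^ 4 ≤ y ^ 4 := by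
    refine Nat.le_of_mul_le_mul_left (le_trans (le_of_eq ?_) a1) (Nat.two_pow_pos t)
    ring
  have a3 : ((2 : ℝ) ^ t) ^ 3 * (d : ℝ) ^ 4 ≤ (y : ℝ) ^ 4 := by exact_mod_cast a2
  refine le_of_pow_le_pow_left₀ (n := 4) (by norm_num) (by positivity) ?_
  rw [← hw] at a3
  refine le_trans (le_of_eq ?_) a3
  ring

theorem node_A : ∃ C : ℝ, 0 < C ∧ ∀ (N : ℤ) (y t0 k0 t d : ℕ), 8 ≤ k0 → k0 ≤ t → 1 ≤ d → 1 ≤ y →
    2 ^ t * d ≤ 2 ^ t0 → (2 ^ t0) ^ 4 ≤ 2 ^ k0 * y ^ 4 →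
    (∀ r : ℕ, r.Prime → r ∣ d → 2 ^ (k0 - 1) ≤ r) →
    |(cntA N y d (2 ^ (k0 - 1)) : ℝ) / y -
      (∏ r ∈ PP 0 (2 ^ (k0 - 1)), (1 - 1 / (r : ℝ))) / d| ≤ psi C k0 t / d := by
  obtain ⟨Cs, hCs, hS⟩ := sieve
  obtain ⟨c, Cm, -, hCm, hM⟩ := mertens_prod
  have hl : 0 < Real.log 2 := Real.log_pos (by norm_num)
  obtain ⟨K, hK⟩ : ∃ K : ℝ, K = 5040 * (4 / Real.log 2) ^ 7 := ⟨_, rfl⟩
  have hK0 : 0 < K := by rw [hK]; positivity
  refine ⟨Cs * Cm + K, by positivity, fun N y t0 k0 t d hk hkt hd hy h2 h3 hp => ?_⟩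
  obtain ⟨w, hw⟩ : ∃ w : ℝ, w = Real.exp (t * Real.log 2 / 4) := ⟨_, rfl⟩
  have hw0 : 0 < w := by rw [hw]; exact Real.exp_pos _
  have hw1 : 1 ≤ w := by rw [hw]; exact Real.one_le_exp (by positivity)
  have hw4 : w ^ 4 = 2 ^ t := by
    rw [hw, ← Real.exp_nat_mul, ← Real.exp_log (show (0 : ℝ) < 2 by norm_num), ← Real.exp_nat_mul,
      Real.log_exp]
    congr 1
    push_cast
    ring
  have hlw : Real.log (w ^ 2) = t * Real.log 2 / 2 := by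
    rw [Real.log_pow, hw, Real.log_exp]
    push_cast
    ring
  have hy0 : (0 : ℝ) < y := by exact_mod_cast hy
  have hd0 : (0 : ℝ) < d := by exact_mod_cast hd
  have hk0 : (8 : ℝ) ≤ k0 := by exact_mod_cast hk
  have hkt' : (k0 : ℝ) ≤ t := by exact_mod_cast hkt
  have hz2 : 2 ≤ 2 ^ (k0 - 1) := by
    calc 2 = 2 ^ 1 := by norm_num
      _ ≤ 2 ^ (k0 - 1) := Nat.pow_le_pow_right (by norm_num) (by omega)
  have hD1 : 1 ≤ w ^ 2 := one_le_pow₀ hw1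
  have hzD : ((2 ^ (k0 - 1) : ℕ) : ℝ) ≤ (w ^ 2) ^ 4 := by
    have e : (w ^ 2) ^ 4 = 2 ^ (2 * t) := by
      rw [← pow_mul, show 2 * 4 = 4 * 2 by norm_num, pow_mul, hw4, ← pow_mul, mul_comm]
    rw [e]
    exact_mod_cast Nat.pow_le_pow_right (by norm_num) (by omega)
  have hprim : ∀ r ∈ PP 0 (2 ^ (k0 - 1)), r.Prime := fun r hr => (mem_PP.1 hr).2.1
  have h := hS ((Icc 1 y).filter (fun i : ℕ => (d : ℤ) ∣ N + i)) (fun _ => (1 : ℝ))
    (fun r i => (r : ℤ) ∣ N + i) (PP 0 (2 ^ (k0 - 1))) ((2 ^ (k0 - 1) : ℕ) : ℝ) (w ^ 2)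
    ((y : ℝ) / d) (fun r => 1 / (r : ℝ)) (fun _ => 1) (by exact_mod_cast hz2) hzD hD1
    (fun r hr => ⟨hprim r hr, by exact_mod_cast (mem_PP.1 hr).1⟩) (JNodeA_dens _)
    (fun _ _ => zero_le_one) (by positivity)
    (fun T hT _ => JNodeA_rem N y d _ hd hp T hT)
  have e1 : (((Icc 1 y).filter (fun i : ℕ => (d : ℤ) ∣ N + i)).filter
      (fun x : ℕ => ∀ r ∈ PP 0 (2 ^ (k0 - 1)), ¬ (r : ℤ) ∣ N + x)).card =
      cntA N y d (2 ^ (k0 - 1)) := by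
    rw [filter_filter, cntA]
    congr 1
    refine filter_congr fun i _ => and_congr_right fun _ => ?_
    exact ⟨fun h r h1 h2 => h r (mem_PP.2 ⟨h1, h2, Nat.zero_le _⟩),
      fun h r hr => h r (mem_PP.1 hr).1 (mem_PP.1 hr).2.1⟩
  rw [sum_const, sum_const, nsmul_eq_mul, nsmul_eq_mul, mul_one, mul_one, e1] at h
  have hc := (level_card _ hprim (w ^ 2) hD1).1
  have hm := (hM _ hz2).2
  rw [kk_two_pow (by omega)] at hm
  have hp0 : 0 ≤ ∏ r ∈ PP 0 (2 ^ (k0 - 1)), (1 - 1 / (r : ℝ)) :=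
    prod_nonneg fun r hr => by have := (JNodeA_dens _ r hr).2.1; linarith
  have hlz : Real.log ((2 ^ (k0 - 1) : ℕ) : ℝ) = ((k0 : ℝ) - 1) * Real.log 2 := by
    rw [Nat.cast_pow, Real.log_pow, Nat.cast_sub (by omega)]
    simp
  have hex : Real.exp (-4 * Real.log (w ^ 2) / Real.log ((2 ^ (k0 - 1) : ℕ) : ℝ)) ≤
      Real.exp (-2 * t / k0) := by
    rw [hlw, hlz]
    refine Real.exp_le_exp.2 ?_
    have hk1 : (0 : ℝ) < k0 - 1 := by linarith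
    have e : -4 * (t * Real.log 2 / 2) / (((k0 : ℝ) - 1) * Real.log 2) = -2 * t / (k0 - 1) := by
      field_simp
      ring
    rw [e, div_le_div_iff₀ hk1 (by linarith)]
    nlinarith
  have hyw := JNodeA_y hkt h2 h3 hw4
  have ht0 : (0 : ℝ) < t := by linarith
  have hwK : 1 / w ≤ K / (t : ℝ) ^ 7 := by
    have a := Real.pow_div_factorial_le_exp (t * Real.log 2 / 4) (by positivity) 7
    rw [← hw, show ((Nat.factorial 7 : ℕ) : ℝ) = 5040 by norm_num [Nat.factorial],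
      div_le_iff₀ (by norm_num)] at a
    rw [div_le_div_iff₀ hw0 (by positivity), hK, one_mul]
    have e : (t : ℝ) ^ 7 = (t * Real.log 2 / 4) ^ 7 * (4 / Real.log 2) ^ 7 := by
      rw [← mul_pow]
      congr 1
      field_simp
    rw [e]
    have := mul_le_mul_of_nonneg_right a (show 0 ≤ (4 / Real.log 2) ^ 7 by positivity)
    linarith
  unfold psi
  generalize (cntA N y d (2 ^ (k0 - 1)) : ℝ) = cn at h ⊢
  generalize ∏ r ∈ PP 0 (2 ^ (k0 - 1)), (1 - 1 / (r : ℝ)) = V at h hm hp0 ⊢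
  have e2 : cn / y - V / d = (cn - y / d * V) / y := by field_simp
  rw [e2, abs_div, abs_of_pos hy0, div_le_iff₀ hy0]
  refine h.trans ?_
  have hE := Real.exp_pos (-2 * (t : ℝ) / k0)
  generalize Real.exp (-2 * (t : ℝ) / k0) = E at hex hE ⊢
  have b1 : Cs * Real.exp (-4 * Real.log (w ^ 2) / Real.log ((2 ^ (k0 - 1) : ℕ) : ℝ)) *
      ((y : ℝ) / d * V) ≤ Cs * E * ((y : ℝ) / d * (Cm / k0)) := by
    gcongr
  have b2 : w ^ 2 ≤ K / (t : ℝ) ^ 7 * (y / d) := by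
    have a1 : w ^ 3 ≤ (y : ℝ) / d := by rwa [le_div_iff₀ hd0]
    calc w ^ 2 = 1 / w * w ^ 3 := by field_simp
      _ ≤ K / (t : ℝ) ^ 7 * (y / d) := by gcongr
  have b3 : 0 ≤ K * (E / k0) * (y / d) := by positivity
  have b4 : 0 ≤ Cs * Cm * (1 / (t : ℝ) ^ 7) * (y / d) := by positivity
  have e3 : (Cs * Cm + K) * (E / k0 + 1 / (t : ℝ) ^ 7) / d * y =
      Cs * E * ((y : ℝ) / d * (Cm / k0)) + K / (t : ℝ) ^ 7 * (y / d) + K * (E / k0) * (y / d) +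
        Cs * Cm * (1 / (t : ℝ) ^ 7) * (y / d) := by ring
  rw [e3]
  linarith

end

end Pool.Agent.Jac
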