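import Pool.Agent.P.MP_45ff98_nt.JSv
import Pool.Agent.P.MP_45ff98_nt.JA9

/-! Node error for the Liouville class. -/

namespace Pool.Agent.Jac
open Finset

noncomputable section

theorem JNodeE_pm {n : ℕ} (hn : n ≠ 0) :
    ArithmeticFunction.liouville n = 1 ∨ ArithmeticFunction.liouville n = -1 := by
  rw [ArithmeticFunction.liouville_apply hn]
  exact neg_one_pow_eq_or ℤ _

theorem JNodeE_count (x e : ℕ) (he : 0 < e) :
    2 * (((Icc 1 x).filter (fun n => e ∣ n ∧ ArithmeticFunction.liouville n = 1)).card : ℤ) =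
      (x / e : ℕ) + ArithmeticFunction.liouville e * LL (x / e) := by
  have h1 : ((Icc 1 x).filter (fun n => e ∣ n ∧ ArithmeticFunction.liouville n = 1)).card =
      ((Icc 1 (x / e)).filter (fun m => ArithmeticFunction.liouville (e * m) = 1)).card := by
    symm
    refine card_bij (fun m _ => e * m) (fun m hm => ?_) (fun m _ m' _ h => ?_) fun n hn => ?_
    · simp only [mem_filter, mem_Icc] at hm ⊢
      refine ⟨⟨Nat.mul_pos he hm.1.1, ?_⟩, dvd_mul_right _ _, hm.2⟩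
      rw [mul_comm]
      exact (Nat.le_div_iff_mul_le he).1 hm.1.2
    · exact Nat.eq_of_mul_eq_mul_left he h
    · simp only [mem_filter, mem_Icc] at hn ⊢
      obtain ⟨⟨h1, h2⟩, ⟨m, rfl⟩, h3⟩ := hn
      refine ⟨m, ⟨⟨Nat.pos_of_mul_pos_left h1, ?_⟩, h3⟩, rfl⟩
      rw [Nat.le_div_iff_mul_le he, mul_comm]
      exact h2
  have h2 : ((x / e : ℕ) : ℤ) = ∑ _m ∈ Icc 1 (x / e), (1 : ℤ) := by simp
  rw [h1, card_filter, LL, h2, mul_sum, ← sum_add_distrib, Nat.cast_sum, mul_sum]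
  refine sum_congr rfl fun m hm => ?_
  rw [← ArithmeticFunction.liouville_apply_mul]
  rcases JNodeE_pm (Nat.mul_pos he (mem_Icc.1 hm).1).ne' with h | h <;> rw [h] <;> norm_num

theorem JNodeE_err {C : ℝ} (hC : 0 < C)
    (hL : ∀ t : ℕ, 2 ≤ t → |(LL t : ℝ)| ≤ C * t / Real.log t ^ 8) (x e : ℕ) (he : 0 < e) (t : ℝ)
    (ht : 8 ≤ t) (hx : Real.exp (Real.log 2 * t / 2) * e ≤ x) :
    |(((Icc 1 x).filter (fun n => e ∣ n ∧ ArithmeticFunction.liouville n = 1)).card : ℝ) -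
      x / (2 * e)| ≤ 1 + C * 4 ^ 8 * x / (e * t ^ 8) := by
  have he' : (0 : ℝ) < e := by exact_mod_cast he
  have h1 : ((x / e : ℕ) : ℝ) ≤ x / e := Nat.cast_div_le
  have h2 : (x : ℝ) / e < (x / e : ℕ) + 1 := by
    rw [← Nat.floor_div_eq_div (K := ℝ)]
    exact Nat.lt_floor_add_one _
  have h3 : Real.exp (Real.log 2 * t / 2) ≤ x / e := (le_div_iff₀ he').2 hx
  have hl := Real.log_two_gt_d9
  have h4 : Real.exp (Real.log 2 * t / 2) = 2 * Real.exp (Real.log 2 * (t / 2 - 1)) := by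
    rw [show Real.log 2 * t / 2 = Real.log 2 + Real.log 2 * (t / 2 - 1) by ring, Real.exp_add,
      Real.exp_log (by norm_num)]
  have h5 : t / 4 ≤ Real.log 2 * (t / 2 - 1) := by nlinarith
  have h6 : t / 4 + 1 ≤ Real.exp (Real.log 2 * (t / 2 - 1)) :=
    (Real.add_one_le_exp _).trans (Real.exp_le_exp.2 h5)
  have h7 : Real.exp (Real.log 2 * (t / 2 - 1)) ≤ (x / e : ℕ) := by linarith
  have h8 : 2 ≤ x / e := by
    have : (2 : ℝ) ≤ (x / e : ℕ) := by linarith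
    exact_mod_cast this
  have h9 : t / 4 ≤ Real.log (x / e : ℕ) := h5.trans ((Real.le_log_iff_exp_le (by linarith)).2 h7)
  have g1 : |(LL (x / e) : ℝ)| ≤ C * 4 ^ 8 * x / (e * t ^ 8) := by
    refine (hL _ h8).trans ?_
    calc C * (x / e : ℕ) / Real.log (x / e : ℕ) ^ 8 ≤ C * (x / e) / (t / 4) ^ 8 := by gcongr
      _ = _ := by field_simp
  have g2 : 2 * (((Icc 1 x).filter (fun n => e ∣ n ∧ ArithmeticFunction.liouville n = 1)).card : ℝ)
      = (x / e : ℕ) + (ArithmeticFunction.liouville e : ℤ) * (LL (x / e) : ℝ) := by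
    have g0 := congrArg (Int.cast : ℤ → ℝ) (JNodeE_count x e he)
    simpa only [Int.cast_mul, Int.cast_add, Int.cast_natCast, Int.cast_ofNat] using g0
  have g3 : (x : ℝ) / (2 * e) = x / e / 2 := by field_simp
  have g4 := abs_le.1 g1
  rw [g3, abs_le]
  rcases JNodeE_pm he.ne' with h | h <;> rw [h] at g2 <;> push_cast at g2 <;> constructor <;>
    linarith [g4.1, g4.2, abs_nonneg (LL (x / e) : ℝ)]

theorem node_E : ∃ C : ℝ, 0 < C ∧ ∀ (t0 k0 t d : ℕ), 8 ≤ k0 → k0 ≤ t → 1 ≤ d →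
    2 ^ t * d ≤ 2 ^ t0 → (∀ r : ℕ, r.Prime → r ∣ d → 2 ^ (k0 - 1) ≤ r) →
    |2 * (cntE (2 ^ t0) d (2 ^ (k0 - 1)) : ℝ) / 2 ^ t0 -
      (∏ r ∈ PP 0 (2 ^ (k0 - 1)), (1 - 1 / (r : ℝ))) / d| ≤ psi C k0 t / d := by
  obtain ⟨C0, hC0, hs⟩ := sieve
  obtain ⟨C1, hC1, hL⟩ := liouville_bound
  obtain ⟨c, C2, -, hC2, hM⟩ := mertens_prod
  refine ⟨C0 * C2 + (2 * (5040 * 3 ^ 7) + 2 * (C1 * 4 ^ 8)), by positivity,
    fun t0 k0 t d hk hkt hd hx hr => ?_⟩
  have hl := Real.log_two_gt_d9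
  have hl' := Real.log_two_lt_d9
  have ht : (8 : ℝ) ≤ t := by exact_mod_cast hk.trans hkt
  have hk' : (8 : ℝ) ≤ k0 := by exact_mod_cast hk
  have hkt' : (k0 : ℝ) ≤ t := by exact_mod_cast hkt
  have hd' : (0 : ℝ) < d := by exact_mod_cast hd
  obtain ⟨D, hD⟩ : ∃ D, D = Real.exp (Real.log 2 * t / 2) := ⟨_, rfl⟩
  have hD0 : 0 < D := hD ▸ Real.exp_pos _
  have hD1 : 1 ≤ D := hD ▸ Real.one_le_exp (by positivity)
  have hD2 : D * D = 2 ^ t := by
    rw [hD, ← Real.exp_add, add_halves, mul_comm, Real.exp_nat_mul, Real.exp_log (by norm_num)]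
  have hlD : Real.log D = Real.log 2 * t / 2 := by rw [hD, Real.log_exp]
  have hx' : D * D * d ≤ 2 ^ t0 := by rw [hD2]; exact_mod_cast hx
  have hw : 2 ≤ 2 ^ (k0 - 1) := by
    calc 2 = 2 ^ 1 := rfl
      _ ≤ _ := Nat.pow_le_pow_right (by norm_num) (by omega)
  have hS : ∀ r ∈ PP 0 (2 ^ (k0 - 1)), r.Prime := fun r h => (mem_PP.1 h).2.1
  have key := hs ((Icc 1 (2 ^ t0)).filter (fun n => d ∣ n ∧ ArithmeticFunction.liouville n = 1))
    (fun _ => 1) (fun r n => r ∣ n) (PP 0 (2 ^ (k0 - 1))) ((2 ^ (k0 - 1) : ℕ) : ℝ) D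
    (2 ^ t0 / (2 * d)) (fun r => 1 / (r : ℝ))
    (fun T => 1 + C1 * 4 ^ 8 * 2 ^ t0 / (d * t ^ 8) * (1 / pr T)) (by exact_mod_cast hw)
    (by
      rw [show D ^ 4 = D * D * (D * D) by ring, hD2, ← pow_add]
      exact_mod_cast Nat.pow_le_pow_right (by norm_num) (by omega)) hD1
    (fun r h => ⟨hS r h, by exact_mod_cast (mem_PP.1 h).1⟩) (fun r h => by
      have : (2 : ℝ) ≤ r := by exact_mod_cast (hS r h).two_le
      exact ⟨by positivity, one_div_le_one_div_of_le (by norm_num) this,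
        one_div_le_one_div_of_le (by linarith) (by linarith)⟩)
    (fun _ _ => zero_le_one) (by positivity) (fun T hT hTD => by
      have hT' : ∀ r ∈ T, r.Prime := fun r h => hS r (hT h)
      have hp := pr_pos hT'
      have hp' : (0 : ℝ) < pr T := by exact_mod_cast hp
      have hc : Nat.Coprime d (pr T) := Nat.coprime_of_dvd fun r h1 h2 h3 => by
        have := (mem_PP.1 (hT ((prime_dvd_pr hT' h1).1 h3))).1
        have := hr r h1 h2
        omega
      have h1 := JNodeE_err hC1 hL (2 ^ t0) (d * pr T) (Nat.mul_pos hd hp) t ht (by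
        rw [← hD]
        push_cast
        calc D * (d * pr T) ≤ D * (d * D) := by gcongr
          _ = D * D * d := by ring
          _ ≤ _ := hx')
      have h2 : ((Icc 1 (2 ^ t0)).filter
          (fun n => d ∣ n ∧ ArithmeticFunction.liouville n = 1)).filter (fun n => ∀ r ∈ T, r ∣ n) =
          (Icc 1 (2 ^ t0)).filter (fun n => d * pr T ∣ n ∧ ArithmeticFunction.liouville n = 1) := by
        rw [filter_filter]
        refine filter_congr fun n _ => ?_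
        rw [← pr_dvd_iff_nat hT']
        exact ⟨fun h => ⟨hc.mul_dvd_of_dvd_of_dvd h.1.1 h.2, h.1.2⟩,
          fun h => ⟨⟨(dvd_mul_right _ _).trans h.1, h.2⟩, (dvd_mul_left _ _).trans h.1⟩⟩
      have h3 : ∏ r ∈ T, 1 / (r : ℝ) = 1 / pr T := by
        rw [prod_div_distrib, prod_const_one, pr, Nat.cast_prod]
      rw [h2, h3, sum_const, nsmul_eq_mul, mul_one]
      push_cast at h1
      convert h1 using 2
      · field_simp
      · field_simp)
  have h1 : ∀ s : Finset ℕ, (∀ n, n ∈ s ↔ n ∈ (Icc 1 (2 ^ t0)).filter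
      (fun n => d ∣ n ∧ ArithmeticFunction.liouville n = 1) ∧
      ∀ r ∈ PP 0 (2 ^ (k0 - 1)), ¬ r ∣ n) → ∑ _x ∈ s, (1 : ℝ) = cntE (2 ^ t0) d (2 ^ (k0 - 1)) := by
    intro s h
    rw [sum_const, nsmul_eq_mul, mul_one, cntE]
    congr 2
    ext n
    simp only [h, mem_filter, mem_PP, and_assoc, Nat.zero_le, and_true, and_imp]
  obtain ⟨h2, h3⟩ := level_card _ hS D hD1
  have h4 := (hM _ hw).2
  rw [kk_two_pow (by omega)] at h4
  have h5 : Real.exp (-4 * Real.log D / Real.log ((2 ^ (k0 - 1) : ℕ) : ℝ)) ≤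
      Real.exp (-2 * t / k0) := by
    rw [hlD, Nat.cast_pow, Real.log_pow, Nat.cast_sub (by omega), Nat.cast_one, Nat.cast_ofNat]
    refine Real.exp_le_exp.2 ?_
    have h6 : (0 : ℝ) < k0 - 1 := by linarith
    rw [div_le_div_iff₀ (by positivity) (by positivity)]
    nlinarith [mul_pos (by linarith : (0 : ℝ) < t) (by linarith : 0 < Real.log 2)]
  have h6 : (t : ℝ) ^ 7 ≤ 5040 * 3 ^ 7 * D := by
    have h7 := Real.pow_div_factorial_le_exp ((t : ℝ) / 3) (by positivity) 7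
    have h8 : Real.exp ((t : ℝ) / 3) ≤ D := hD ▸ Real.exp_le_exp.2 (by nlinarith)
    norm_num [Nat.factorial, div_pow] at h7
    linarith
  have hP : 0 ≤ ∏ r ∈ PP 0 (2 ^ (k0 - 1)), (1 - 1 / (r : ℝ)) := prod_nonneg fun r h => by
    have : (1 : ℝ) ≤ r := by exact_mod_cast (hS r h).pos
    rw [sub_nonneg, div_le_one (by linarith)]
    exact this
  rw [h1 _ (fun n => mem_filter), sum_add_distrib, ← mul_sum, sum_const, nsmul_eq_mul, mul_one] at key
  generalize ∏ r ∈ PP 0 (2 ^ (k0 - 1)), (1 - 1 / (r : ℝ)) = P at *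
  generalize (cntE (2 ^ t0) d (2 ^ (k0 - 1)) : ℝ) = N at *
  have hX : (0 : ℝ) < 2 ^ t0 := by positivity
  generalize (2 : ℝ) ^ t0 = X at *
  have ht0 : (0 : ℝ) < t := by linarith
  have g1 : |N - X / (2 * d) * P| ≤ C0 * Real.exp (-2 * t / k0) * (X / (2 * d) * (C2 / k0)) +
      (D + C1 * 4 ^ 8 * X / (d * t ^ 8) * t) := by
    refine key.trans ?_
    have : 1 + Real.log D ≤ t := by rw [hlD]; nlinarith
    gcongr
    exact h3.trans this
  have g2 : 2 * N / X - P / d = 2 / X * (N - X / (2 * d) * P) := by field_simp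
  have g3 : 2 / X * D ≤ 2 * (5040 * 3 ^ 7) / (d * t ^ 7) := by
    rw [div_mul_eq_mul_div, div_le_div_iff₀ hX (by positivity)]
    calc 2 * D * (d * (t : ℝ) ^ 7) ≤ 2 * D * (d * (5040 * 3 ^ 7 * D)) := by gcongr
      _ = 2 * (5040 * 3 ^ 7) * (D * D * d) := by ring
      _ ≤ _ := by gcongr
  rw [g2, abs_mul, abs_of_pos (by positivity : 0 < 2 / X)]
  have hE := Real.exp_pos (-2 * t / k0)
  calc 2 / X * |N - X / (2 * d) * P| ≤ 2 / X * (C0 * Real.exp (-2 * t / k0) *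
        (X / (2 * d) * (C2 / k0)) + (D + C1 * 4 ^ 8 * X / (d * t ^ 8) * t)) := by gcongr
    _ = C0 * C2 * (Real.exp (-2 * t / k0) / k0) / d + 2 / X * D +
        2 * (C1 * 4 ^ 8) / (d * t ^ 7) := by field_simp; ring
    _ ≤ C0 * C2 * (Real.exp (-2 * t / k0) / k0) / d + 2 * (5040 * 3 ^ 7) / (d * t ^ 7) +
        2 * (C1 * 4 ^ 8) / (d * t ^ 7) := by gcongr
    _ = (C0 * C2 * (Real.exp (-2 * t / k0) / k0) +
        (2 * (5040 * 3 ^ 7) + 2 * (C1 * 4 ^ 8)) * (1 / (t : ℝ) ^ 7)) / d := by field_simp; ring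
    _ ≤ _ := by
      rw [psi]
      gcongr
      have a1 : 0 ≤ C0 * C2 * (1 / (t : ℝ) ^ 7) := by positivity
      have a2 : 0 ≤ (2 * (5040 * 3 ^ 7) + 2 * (C1 * 4 ^ 8)) * (Real.exp (-2 * t / k0) / k0) := by
        positivity
      linarith [add_mul (C0 * C2) (2 * (5040 * 3 ^ 7) + 2 * (C1 * 4 ^ 8))
        (Real.exp (-2 * t / k0) / k0 + 1 / (t : ℝ) ^ 7), mul_add (C0 * C2)
        (Real.exp (-2 * t / k0) / k0) (1 / (t : ℝ) ^ 7), mul_add
        (2 * (5040 * 3 ^ 7) + 2 * (C1 * 4 ^ 8)) (Real.exp (-2 * t / k0) / k0) (1 / (t : ℝ) ^ 7)]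

end

end Pool.Agent.Jac
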