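import Pool.Agent.P.MP_45ff98_nt.JBase

/-! Valid chains. -/

namespace Pool.Agent.Jac
open Finset

noncomputable section

theorem jval_top {U T : Finset ℕ} (h1 : U ⊆ T) (h2 : ∀ p ∈ U, ∀ q ∈ T, p ≤ q → q ∈ U) {p : ℕ}
    (hp : p ∈ U) : top U p = top T p := by
  ext q
  simp only [top, mem_filter]
  exact ⟨fun h => ⟨h1 h.1, h.2⟩, fun h => ⟨h2 p hp q h.1 h.2, h.2⟩⟩

theorem jval_upper {ok : Finset ℕ → Prop} {U T : Finset ℕ} (h1 : U ⊆ T)
    (h2 : ∀ p ∈ U, ∀ q ∈ T, p ≤ q → q ∈ U) (h : GV ok T) : GV ok U := fun p hp => by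
  rw [jval_top h1 h2 hp]
  exact h p (h1 hp)

theorem jval_top_min {a : ℕ} {s : Finset ℕ} (h : ∀ x ∈ s, a < x) :
    top (insert a s) a = insert a s :=
  filter_true_of_mem fun q hq => by
    rcases mem_insert.1 hq with rfl | hq
    · exact le_rfl
    · exact (h q hq).le

theorem jval_up_ins {a : ℕ} {s : Finset ℕ} (h : ∀ x ∈ s, a < x) :
    ∀ p ∈ s, ∀ q ∈ insert a s, p ≤ q → q ∈ s := fun p hp q hq hpq => by
  rcases mem_insert.1 hq with rfl | hq
  · exact absurd (h p hp) (not_lt.2 hpq)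
  · exact hq

theorem valid_state {e t k : ℕ} {T : Finset ℕ} (hs : St e t k) (hk : ∀ p ∈ T, kk p ≤ k)
    (hv : Valid e t T) : ks T ≤ t ∧ t ≤ 2 ^ T.card * (t - ks T) ∧
      ∀ k', k' ≤ k → (∀ p ∈ T, k' ≤ kk p) → St (e + T.card) (t - ks T) k' := by
  induction T using Finset.induction_on_min with
  | empty => exact ⟨by simp [ks], by simp [ks], fun k' h _ => by simpa [ks] using hs.mono h⟩
  | insert a s h ih =>
    have ha : a ∉ s := fun g => lt_irrefl _ (h a g)
    obtain ⟨h1, h2, h3⟩ := ih (fun p hp => hk p (mem_insert_of_mem hp))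
      (jval_upper (subset_insert a s) (jval_up_ins h) hv)
    have h4 := h3 (kk a) (hk a (mem_insert_self a s)) fun p hp => kk_mono (h p hp).le
    have h5 := hv a (mem_insert_self a s)
    rw [okR, mn_top (mem_insert_self a s), jval_top_min h, card_insert_of_notMem ha,
      ks_insert ha] at h5
    have h6 : Cont (e + s.card) (t - ks s) (kk a) := fun he => by
      have := h5 (by rwa [← add_assoc])
      omega
    obtain ⟨h7, h8⟩ := h4.child le_rfl h6
    rw [card_insert_of_notMem ha, ks_insert ha]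
    refine ⟨by omega, h2.trans ?_, fun k' _ hk' => ?_⟩
    · rw [pow_succ, mul_assoc]
      exact Nat.mul_le_mul_left _ (by omega)
    · rw [← add_assoc, show t - (kk a + ks s) = t - ks s - kk a by omega]
      exact h7.mono (hk' a (mem_insert_self a s))

theorem valid_filter {e t : ℕ} {T : Finset ℕ} (hv : Valid e t T) (c : ℕ) :
    Valid e t (T.filter (fun q => c ≤ kk q)) :=
  jval_upper (filter_subset _ _)
    (fun _ hp _ hq hpq => mem_filter.2 ⟨hq, (mem_filter.1 hp).2.trans (kk_mono hpq)⟩) hv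

theorem bd_abv {e t : ℕ} {T : Finset ℕ} (hb : Bd e t T) {p : ℕ} (hp : p ∈ T) :
    Valid e t (abv T p) := by
  refine jval_upper (fun q hq => ?_) (fun r hr q hq hrq => ?_) hb.2.1
  · have h := mem_filter.1 hq
    exact mem_erase.2 ⟨((mn_le hp).trans_lt h.2).ne', h.1⟩
  · exact mem_filter.2 ⟨mem_of_mem_erase hq, (mem_filter.1 hr).2.trans_le hrq⟩

theorem bd_state {e t k : ℕ} {T : Finset ℕ} (hs : St e t k) (hk : ∀ p ∈ T, kk p ≤ k)
    (hb : Bd e t T) : ks T ≤ t ∧ t - ks T < 2 * kk (mn T) ∧ Even (e + T.card) := by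
  obtain ⟨hne, hv, hn⟩ := hb
  have hm := mn_mem hne
  obtain ⟨h1, -, h3⟩ := valid_state hs (fun p hp => hk p (mem_of_mem_erase hp)) hv
  have h4 := (h3 (kk (mn T)) (hk _ hm) fun p hp => kk_mono (mn_le (mem_of_mem_erase hp))).1
  have h5 : ks T = kk (mn T) + ks (T.erase (mn T)) := (add_sum_erase T kk hm).symm
  rw [okR, Classical.not_imp] at hn
  exact ⟨by omega, by omega, hn.1⟩

theorem jval_disj {A B : Finset ℕ} (hAB : ∀ a ∈ A, ∀ b ∈ B, b < a) : Disjoint A B :=
  disjoint_left.2 fun a ha hb => lt_irrefl _ (hAB a ha a hb)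

theorem jval_mn {A B : Finset ℕ} (hB : B.Nonempty) (hAB : ∀ a ∈ A, ∀ b ∈ B, b < a) :
    mn (A ∪ B) = mn B :=
  mn_eq (mem_union_right _ (mn_mem hB)) fun q hq => by
    rcases mem_union.1 hq with hq | hq
    · exact (hAB q hq _ (mn_mem hB)).le
    · exact mn_le hq

theorem jval_ok {e t : ℕ} {A B : Finset ℕ} (hB : B.Nonempty) (hAB : ∀ a ∈ A, ∀ b ∈ B, b < a) :
    okR e t (A ∪ B) ↔ okR (e + A.card) (t - ks A) B := by
  rw [okR, okR, jval_mn hB hAB, card_union_of_disjoint (jval_disj hAB), ks_union (jval_disj hAB),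
    ← add_assoc e]
  have := kk_pos (mn B)
  exact imp_congr_right fun _ => by omega

theorem jval_GV {e t : ℕ} {A B : Finset ℕ} (hAB : ∀ a ∈ A, ∀ b ∈ B, b < a) :
    Valid e t (A ∪ B) ↔ Valid e t A ∧ Valid (e + A.card) (t - ks A) B := by
  have h1 : ∀ p ∈ A, top (A ∪ B) p = top A p := fun p hp =>
    (jval_top subset_union_left (fun r hr q hq hrq => (mem_union.1 hq).elim id
      fun g => absurd (hAB r hr q g) (not_lt.2 hrq)) hp).symm
  have h2 : ∀ p ∈ B, top (A ∪ B) p = A ∪ top B p := fun p hp => by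
    rw [top, filter_union, filter_true_of_mem fun a ha => (hAB a ha p hp).le, top]
  have h3 : ∀ p ∈ B, (okR e t (top (A ∪ B) p) ↔ okR (e + A.card) (t - ks A) (top B p)) :=
    fun p hp => by
      rw [h2 p hp]
      exact jval_ok ⟨p, mem_filter.2 ⟨hp, le_rfl⟩⟩ fun a ha b hb => hAB a ha b (mem_filter.1 hb).1
  refine ⟨fun h => ⟨fun p hp => h1 p hp ▸ h p (mem_union_left _ hp),
    fun p hp => (h3 p hp).1 (h p (mem_union_right _ hp))⟩, fun h p hp => ?_⟩
  rcases mem_union.1 hp with hp | hp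
  · rw [h1 p hp]; exact h.1 p hp
  · exact (h3 p hp).2 (h.2 p hp)

theorem jval_alw {P : Par} {t : ℕ} {A B : Finset ℕ} (hAB : ∀ a ∈ A, ∀ b ∈ B, b < a) :
    Alw P t (A ∪ B) ↔ Alw P t A ∧ Alw P (t - ks A) B := by
  have h1 : ∀ p ∈ A, abv (A ∪ B) p = abv A p := fun p hp => by
    rw [abv, filter_union, filter_false_of_mem (s := B) fun b hb => (hAB p hp b hb).not_gt,
      union_empty, abv]
  have h2 : ∀ p ∈ B, ks (abv (A ∪ B) p) = ks A + ks (abv B p) := fun p hp => by
    rw [abv, filter_union, filter_true_of_mem fun a ha => hAB a ha p hp]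
    exact ks_union (jval_disj fun a ha b hb => hAB a ha b (mem_filter.1 hb).1)
  refine ⟨fun h => ⟨fun p hp => h1 p hp ▸ h p (mem_union_left _ hp), fun p hp => ?_⟩,
    fun h p hp => ?_⟩
  · have := h p (mem_union_right _ hp)
    rw [h2 p hp] at this
    omega
  · rcases mem_union.1 hp with hp | hp
    · rw [h1 p hp]; exact h.1 p hp
    · have := h.2 p hp
      rw [h2 p hp]
      omega

theorem GF_union {P : Par} {e t : ℕ} {A B : Finset ℕ} (hB : B.Nonempty)
    (hAB : ∀ a ∈ A, ∀ b ∈ B, b < a) :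
    GF P e t (A ∪ B) ↔ Valid e t A ∧ Alw P t A ∧ GF P (e + A.card) (t - ks A) B := by
  have hm := jval_mn hB hAB
  have he : (A ∪ B).erase (mn B) = A ∪ B.erase (mn B) := by
    rw [erase_union_distrib, erase_eq_of_notMem
      fun g => lt_irrefl _ (hAB _ g _ (mn_mem hB))]
  have h1 : Bd e t (A ∪ B) ↔ Valid e t A ∧ Bd (e + A.card) (t - ks A) B := by
    have h2 := jval_GV (e := e) (t := t) (A := A) (B := B.erase (mn B))
      fun a ha b hb => hAB a ha b (mem_of_mem_erase hb)
    rw [Bd, Bd, GB, GB, hm, he, jval_ok hB hAB]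
    exact ⟨fun h => ⟨(h2.1 h.2.1).1, hB, (h2.1 h.2.1).2, h.2.2⟩,
      fun h => ⟨hB.mono subset_union_right, h2.2 ⟨h.1, h.2.2.1⟩, h.2.2.2⟩⟩
  have h3 : Term P t (A ∪ B) ↔ Term P (t - ks A) B := by
    rw [Term, Term, hm, ks_union (jval_disj hAB)]
    have := kk_pos (mn B)
    omega
  rw [GF, GF, h1, jval_alw hAB, h3]
  tauto

theorem fam_mod_two (P : Par) (e t p : ℕ) : fam P (e % 2) t p = fam P e t p := by
  have h1 : okR (e % 2) t = okR e t := by
    funext T
    have : Even (e % 2 + T.card) ↔ Even (e + T.card) := by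
      rw [Nat.even_iff, Nat.even_iff]; omega
    rw [okR, okR, this]
  have h2 : GF P (e % 2) t = GF P e t := by
    funext T
    rw [GF, GF, Bd, Bd, h1]
  unfold fam
  rw [h2]

theorem jval_rank (S : Finset ℕ) {j : ℕ} (h1 : 1 ≤ j) (h2 : j ≤ S.card) :
    ∃ p ∈ S, (top S p).card = j := by
  induction S using Finset.induction_on_min with
  | empty => simp at h2; omega
  | insert a s h ih =>
    have ha : a ∉ s := fun g => lt_irrefl _ (h a g)
    rcases h2.eq_or_lt with e | e
    · exact ⟨a, mem_insert_self a s, by rw [jval_top_min h, e]⟩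
    · rw [card_insert_of_notMem ha] at e
      obtain ⟨p, hp, hj⟩ := ih (by omega)
      exact ⟨p, mem_insert_of_mem hp, by
        rw [← jval_top (subset_insert a s) (jval_up_ins h) hp, hj]⟩

theorem jval_split {T : Finset ℕ} (p : ℕ) :
    (top T p).card = (T.filter (fun q => kk p < kk q)).card +
        (top (T.filter (fun q => kk q = kk p)) p).card ∧
      ks (top T p) = ks (T.filter (fun q => kk p < kk q)) +
        (top (T.filter (fun q => kk q = kk p)) p).card * kk p := by
  have e : top T p = T.filter (fun q => kk p < kk q) ∪ top (T.filter (fun q => kk q = kk p)) p := by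
    ext q
    simp only [top, mem_union, mem_filter]
    constructor
    · rintro ⟨h1, h2⟩
      rcases (kk_mono h2).eq_or_lt with g | g
      · exact Or.inr ⟨⟨h1, g.symm⟩, h2⟩
      · exact Or.inl ⟨h1, g⟩
    · rintro (⟨h1, h2⟩ | ⟨⟨h1, -⟩, h2⟩)
      · exact ⟨h1, (lt_of_kk_lt h2).le⟩
      · exact ⟨h1, h2⟩
  have d : Disjoint (T.filter (fun q => kk p < kk q)) (top (T.filter (fun q => kk q = kk p)) p) :=
    disjoint_left.2 fun q h1 h2 => by
      have a1 := (mem_filter.1 h1).2
      have a2 := (mem_filter.1 (mem_filter.1 h2).1).2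
      omega
  refine ⟨by rw [e, card_union_of_disjoint d], ?_⟩
  conv_lhs => rw [e, ks_union d]
  congr 1
  rw [ks, ← smul_eq_mul]
  exact sum_eq_card_nsmul fun q hq => (mem_filter.1 (mem_filter.1 hq).1).2

theorem jval_char {e t : ℕ} {T : Finset ℕ} : Valid e t T ↔
    ∀ k j, 1 ≤ j → j ≤ (T.filter (fun q => kk q = k)).card →
      Even (e + ((T.filter (fun q => k < kk q)).card + j)) →
      ks (T.filter (fun q => k < kk q)) + j * k + 2 * k ≤ t := by
  constructor
  · intro h k j h1 h2 he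
    obtain ⟨p, hp, rfl⟩ := jval_rank _ h1 h2
    obtain ⟨hp', rfl⟩ := mem_filter.1 hp
    have h3 := h p hp'
    rw [okR, mn_top hp', (jval_split p).1, (jval_split p).2] at h3
    exact h3 he
  · intro h p hp
    rw [okR, mn_top hp, (jval_split p).1, (jval_split p).2]
    exact h (kk p) _ (card_pos.2 ⟨p, mem_filter.2 ⟨mem_filter.2 ⟨hp, rfl⟩, le_rfl⟩⟩)
      (card_filter_le _ _)

/-- Validity only depends on the boxes. -/
theorem valid_swap {e t : ℕ} {T : Finset ℕ} {q q' : ℕ} (hq : q ∈ T) (hq' : q' ∉ T.erase q)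
    (hk : kk q' = kk q) (hv : Valid e t T) : Valid e t (insert q' (T.erase q)) := by
  have key : ∀ F : ℕ → ℕ, ∑ p ∈ insert q' (T.erase q), F (kk p) = ∑ p ∈ T, F (kk p) := fun F => by
    rw [sum_insert hq', hk]
    exact add_sum_erase T (fun p => F (kk p)) hq
  rw [jval_char] at hv ⊢
  intro k j
  have a1 : ((insert q' (T.erase q)).filter (fun r => kk r = k)).card =
      (T.filter (fun r => kk r = k)).card := by
    rw [card_filter, card_filter]
    exact key fun n => if n = k then 1 else 0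
  have a2 : ((insert q' (T.erase q)).filter (fun r => k < kk r)).card =
      (T.filter (fun r => k < kk r)).card := by
    rw [card_filter, card_filter]
    exact key fun n => if k < n then 1 else 0
  have a3 : ks ((insert q' (T.erase q)).filter (fun r => k < kk r)) =
      ks (T.filter (fun r => k < kk r)) := by
    rw [ks, ks, sum_filter, sum_filter]
    exact key fun n => if k < n then n else 0
  rw [a1, a2, a3]
  exact hv k j

end

end Pool.Agent.Jac
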