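import Pool.Agent.P.MP_45ff98_nt.JCnt
import Pool.Agent.P.MP_45ff98_nt.JVal
import Pool.Agent.P.MP_45ff98_nt.JNodeA
import Pool.Agent.P.MP_45ff98_nt.JNodeE
import Pool.Agent.P.MP_45ff98_nt.JBd
import Pool.Agent.P.MP_45ff98_nt.JRoot

/-! The main sieve inequality. -/

namespace Pool.Agent.Jac
open Finset

noncomputable section

theorem JMS_psi_add (C C' : ℝ) (k0 t : ℕ) : psi (C + C') k0 t = psi C k0 t + psi C' k0 t := by
  unfold psi; ring

theorem JMS_psi_nonneg {C : ℝ} (h : 0 ≤ C) (k0 t : ℕ) : 0 ≤ psi C k0 t := by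
  unfold psi; positivity

theorem JMS_bd_add (C C' : ℝ) (G t k : ℕ) : bd (C + C') G t k = bd C G t k + bd C' G t k := by
  unfold bd; ring

theorem JMS_bd_nonneg {C : ℝ} (h : 0 ≤ C) (G t k : ℕ) : 0 ≤ bd C G t k := by
  unfold bd
  refine mul_nonneg h (add_nonneg (by positivity) ?_)
  split_ifs <;> positivity

theorem JMS_liou (T : Finset ℕ) (h : ∀ p ∈ T, p.Prime) :
    ArithmeticFunction.liouville (pr T) = (-1) ^ T.card := by
  induction T using Finset.induction_on with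
  | empty => simp [pr, ArithmeticFunction.liouville_apply_one]
  | insert q T hq ih =>
    have hp : q.Prime := h q (mem_insert_self _ _)
    rw [pr_insert hq, ArithmeticFunction.liouville_apply_mul,
      ih fun p hp => h p (mem_insert_of_mem hp), card_insert_of_notMem hq,
      ArithmeticFunction.liouville_apply hp.ne_zero,
      ArithmeticFunction.cardFactors_apply_prime hp]
    ring

theorem JMS_cntE_le (x d p : ℕ) : (cntE x d p : ℝ) ≤ x / d := by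
  have h1 : cntE x d p ≤ ((Ioc 0 x).filter (fun n => d ∣ n)).card := by
    refine card_le_card fun n hn => ?_
    rw [mem_filter, mem_Icc] at hn
    rw [mem_filter, mem_Ioc]
    exact ⟨⟨hn.1.1, hn.1.2⟩, hn.2.1⟩
  rw [Nat.Ioc_filter_dvd_card_eq_div] at h1
  exact (Nat.cast_le.2 h1).trans Nat.cast_div_le

theorem JMS_level {T : Finset ℕ} {t0 : ℕ} (h : ks T ≤ t0) :
    2 ^ (t0 - ks T) * pr T ≤ 2 ^ t0 := by
  calc 2 ^ (t0 - ks T) * pr T ≤ 2 ^ (t0 - ks T) * 2 ^ ks T :=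
        Nat.mul_le_mul_left _ (pr_le_two_pow T)
    _ = 2 ^ t0 := by rw [← pow_add]; congr 1; omega

theorem JMS_level2 {T : Finset ℕ} {t0 om : ℕ} (h : ks T ≤ t0) (hT : ∀ p ∈ T, p.Prime)
    (hc : T.card ≤ om) : 2 ^ t0 ≤ 2 ^ (t0 - ks T + om) * pr T := by
  calc 2 ^ t0 = 2 ^ (t0 - ks T) * 2 ^ ks T := by rw [← pow_add]; congr 1; omega
    _ ≤ 2 ^ (t0 - ks T) * (2 ^ T.card * pr T) := Nat.mul_le_mul_left _ (two_pow_ks_le hT)
    _ ≤ 2 ^ (t0 - ks T) * (2 ^ om * pr T) :=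
        Nat.mul_le_mul_left _ (Nat.mul_le_mul_right _ (Nat.pow_le_pow_right (by norm_num) hc))
    _ = 2 ^ (t0 - ks T + om) * pr T := by rw [pow_add, mul_assoc]

theorem JMS_sign {u v w a b : ℝ} (n : ℕ) (h1 : |u - w| ≤ a) (h2 : |v - w| ≤ b) :
    (-1) ^ n * v ≤ (-1) ^ n * u + (a + b) := by
  rw [abs_le] at h1 h2
  rcases neg_one_pow_eq_or ℝ n with h | h <;> rw [h] <;> linarith [h1.1, h1.2, h2.1, h2.2]

theorem main_sieve : ∃ C : ℝ, 0 < C ∧ ∀ (P : Par) (N : ℤ) (y z a t0 om : ℕ), HB P.k0 → 8 ≤ P.k0 →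
    om + 3 ≤ P.k0 → 2 ^ (P.k0 - 1) ≤ z → t0 = 2 * (kk z + a) + 1 → 1 ≤ y →
    (2 ^ t0) ^ 4 ≤ 2 ^ P.k0 * y ^ 4 →
    (a : ℝ) / (t0 : ℝ) ^ 2 - UU C (om + 3) P.k0 0 t0 z - 2 * Cap z om +
      ∑ T ∈ fam P 0 t0 z, (cntA N y (pr T) (mn T) : ℝ) / y ≤ (cntA N y 1 z : ℝ) / y := by
  classical
  obtain ⟨CA, hCA, HA⟩ := node_A
  obtain ⟨CE, hCE, HE⟩ := node_E
  obtain ⟨CB, hCB, HBd⟩ := bd_err
  refine ⟨CA + CE + CB, by positivity, fun P N y z a t0 om hB h8 hom hz ht hy hY => ?_⟩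
  have hz0 : z ≠ 0 := by
    have : 0 < 2 ^ (P.k0 - 1) := by positivity
    omega
  have hk : P.k0 ≤ kk z := (le_kk_iff hz0).2 hz
  have hSt : St 0 t0 (kk z) := ⟨by omega, fun _ => by omega⟩
  have hmem : ∀ T ∈ (PP P.k0 z).powerset, (∀ p ∈ T, p.Prime) ∧ (∀ p ∈ T, kk p ≤ kk z) ∧
      ∀ p ∈ T, P.k0 ≤ kk p := fun T hT => by
    rw [mem_powerset] at hT
    exact ⟨fun p hp => (mem_PP.1 (hT hp)).2.1, fun p hp => kk_mono (mem_PP.1 (hT hp)).1.le,
      fun p hp => (mem_PP.1 (hT hp)).2.2⟩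
  have hroot := root hB hk ht
  have hA := cntA_tree N y P.k0 t0 z hz
  have hE := cntE_tree (2 ^ t0) P.k0 t0 z hz
  have hA' : (cntA N y 1 z : ℝ) / y =
      ∑ T ∈ vals P.k0 0 t0 z, (-1) ^ T.card * ((cntA N y (pr T) (2 ^ (P.k0 - 1)) : ℝ) / y) +
        ∑ T ∈ bds P.k0 0 t0 z, (cntA N y (pr T) (mn T) : ℝ) / y := by
    rw [hA, add_div, sum_div, sum_div]
    congr 1
    exact sum_congr rfl fun T _ => by ring
  have hE' : 2 * (cntE (2 ^ t0) 1 z : ℝ) / 2 ^ t0 =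
      ∑ T ∈ vals P.k0 0 t0 z,
        (-1) ^ T.card * (2 * (cntE (2 ^ t0) (pr T) (2 ^ (P.k0 - 1)) : ℝ) / 2 ^ t0) +
        ∑ T ∈ bds P.k0 0 t0 z, 2 * (cntE (2 ^ t0) (pr T) (mn T) : ℝ) / 2 ^ t0 := by
    rw [hE, mul_add, add_div, mul_sum, mul_sum, sum_div, sum_div]
    congr 1
    exact sum_congr rfl fun T _ => by ring
  have h1 : ∑ T ∈ vals P.k0 0 t0 z,
        (-1) ^ T.card * (2 * (cntE (2 ^ t0) (pr T) (2 ^ (P.k0 - 1)) : ℝ) / 2 ^ t0) ≤
      ∑ T ∈ vals P.k0 0 t0 z, (-1) ^ T.card * ((cntA N y (pr T) (2 ^ (P.k0 - 1)) : ℝ) / y) +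
        ∑ T ∈ vals P.k0 0 t0 z, psi (CA + CE + CB) P.k0 (t0 - ks T) / pr T := by
    rw [← sum_add_distrib]
    refine sum_le_sum fun T hT => ?_
    obtain ⟨hT1, hT2⟩ := mem_filter.1 hT
    obtain ⟨hp, hle, hge⟩ := hmem T hT1
    obtain ⟨hks, -, hs⟩ := valid_state hSt hle hT2
    have hs0 := (hs P.k0 hk hge).1
    have hd : 1 ≤ pr T := pr_pos hp
    have hr : ∀ r : ℕ, r.Prime → r ∣ pr T → 2 ^ (P.k0 - 1) ≤ r := fun r hr hrd =>
      (le_kk_iff hr.ne_zero).1 (hge r ((prime_dvd_pr hp hr).1 hrd))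
    have e1 := HA N y t0 P.k0 (t0 - ks T) (pr T) h8 hs0 hd hy (JMS_level hks) hY hr
    have e2 := HE t0 P.k0 (t0 - ks T) (pr T) h8 hs0 hd (JMS_level hks) hr
    refine (JMS_sign T.card e1 e2).trans ?_
    rw [JMS_psi_add, JMS_psi_add, add_div, add_div]
    have : 0 ≤ psi CB P.k0 (t0 - ks T) / pr T :=
      div_nonneg (JMS_psi_nonneg hCB.le _ _) (Nat.cast_nonneg _)
    linarith
  have h2 : ∑ T ∈ bds P.k0 0 t0 z, 2 * (cntE (2 ^ t0) (pr T) (mn T) : ℝ) / 2 ^ t0 ≤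
      ∑ T ∈ bds P.k0 0 t0 z, bd (CA + CE + CB) (om + 3) (t0 - ks T) (kk (mn T)) / pr T +
        2 * Cap z om := by
    have h3 : ∑ T ∈ bds P.k0 0 t0 z, (if om < T.card then 1 / (pr T : ℝ) else 0) ≤ Cap z om := by
      rw [← sum_filter]
      refine sum_le_sum_of_subset_of_nonneg (fun T hT => ?_) fun T _ _ => by positivity
      obtain ⟨hT1, hT2⟩ := mem_filter.1 hT
      refine mem_filter.2 ⟨mem_powerset.2 ?_, hT2⟩
      exact (mem_powerset.1 (mem_filter.1 hT1).1).trans (PP_mono (Nat.zero_le _) le_rfl)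
    refine le_trans ?_ (add_le_add le_rfl (mul_le_mul_of_nonneg_left h3 (by norm_num)))
    rw [mul_sum, ← sum_add_distrib]
    refine sum_le_sum fun T hT => ?_
    obtain ⟨hT1, hT2⟩ := mem_filter.1 hT
    obtain ⟨hp, hle, hge⟩ := hmem T hT1
    have hb0 : 0 ≤ bd (CA + CE + CB) (om + 3) (t0 - ks T) (kk (mn T)) / pr T :=
      div_nonneg (JMS_bd_nonneg (by positivity) _ _ _) (Nat.cast_nonneg _)
    split_ifs with hc
    · have h4 := JMS_cntE_le (2 ^ t0) (pr T) (mn T)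
      have h5 : (0 : ℝ) < 2 ^ t0 := by positivity
      have h6 : 2 * (cntE (2 ^ t0) (pr T) (mn T) : ℝ) / 2 ^ t0 ≤ 2 * (1 / (pr T : ℝ)) := by
        rw [div_le_iff₀ h5]
        push_cast at h4
        calc 2 * (cntE (2 ^ t0) (pr T) (mn T) : ℝ) ≤ 2 * (2 ^ t0 / pr T) := by linarith
          _ = _ := by ring
      linarith
    · obtain ⟨hks, hlt, hev⟩ := bd_state hSt hle hT2
      have hm := mn_mem hT2.1
      have hl : ArithmeticFunction.liouville (pr T) = 1 := by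
        rw [JMS_liou T hp]
        exact Even.neg_one_pow (by simpa using hev)
      have e1 := HBd t0 (t0 - ks T) om (pr T) (mn T) (hp _ hm) (hom.trans (hge _ hm)) hlt
        (pr_pos hp) (JMS_level hks) (JMS_level2 hks hp (not_lt.1 hc)) hl
      rw [JMS_bd_add, add_div]
      have : 0 ≤ bd (CA + CE) (om + 3) (t0 - ks T) (kk (mn T)) / pr T :=
        div_nonneg (JMS_bd_nonneg (by positivity) _ _ _) (Nat.cast_nonneg _)
      linarith
  have h3 : ∑ T ∈ fam P 0 t0 z, (cntA N y (pr T) (mn T) : ℝ) / y ≤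
      ∑ T ∈ bds P.k0 0 t0 z, (cntA N y (pr T) (mn T) : ℝ) / y := by
    refine sum_le_sum_of_subset_of_nonneg (fun T hT => ?_) fun T _ _ => by positivity
    obtain ⟨hT1, hT2⟩ := mem_filter.1 hT
    exact mem_filter.2 ⟨hT1, hT2.1⟩
  rw [hA', UU]
  rw [hE'] at hroot
  linarith

end

end Pool.Agent.Jac
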