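import Pool.Agent.P.MP_45ff98_nt.JN8a

/-! Landing. -/

namespace Pool.Agent.Jac
open Finset

noncomputable section

theorem JN8_step {P : Par} (hB : HB P.k0) (h0 : 2 * P.k0 ≤ P.kw) (hw : 100 ≤ P.kw)
    (hW : P.k1 ≤ P.kW) (hC : 7 ≤ P.CW) {e t p : ℕ} (h1 : 11 * P.kw ≤ t) (h2 : t ≤ 7 * P.k1)
    (h3 : t ≤ 7 * kk p) {c : ℝ} (hc : 0 ≤ c)
    (h : ∀ q, t ≤ 8 * kk q → 7 * kk q < t → c ≤ Gam P (e + 1) (t - kk q) q) :
    c / 10 ≤ Gam P e t p := by
  have hCW : 7 * P.kW ≤ P.CW * P.kW := Nat.mul_le_mul_right _ hC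
  refine le_trans ?_ (Gam_step hB (Ico ((t + 7) / 8) ((t + 6) / 7)) c hc fun k hk => ?_)
  · have ht : (0 : ℝ) < t := by exact_mod_cast (by omega : 0 < t)
    have hs : ((Ico ((t + 7) / 8) ((t + 6) / 7)).card : ℝ) * (99 / 100 * 7 / t) ≤
        ∑ k ∈ Ico ((t + 7) / 8) ((t + 6) / 7), 99 / 100 / (k : ℝ) := by
      rw [← nsmul_eq_mul]
      refine card_nsmul_le_sum _ _ _ fun k hk => ?_
      rw [mem_Ico] at hk
      have hk0 : (0 : ℝ) < k := by exact_mod_cast (by omega : 0 < k)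
      have hk1 : (7 : ℝ) * k ≤ t := by exact_mod_cast (by omega : 7 * k ≤ t)
      rw [div_le_div_iff₀ ht hk0]
      linarith
    have hn : (t : ℝ) ≤ 60 * ((Ico ((t + 7) / 8) ((t + 6) / 7)).card : ℝ) := by
      rw [Nat.card_Ico]
      exact_mod_cast (by omega : t ≤ 60 * ((t + 6) / 7 - (t + 7) / 8))
    have hm : (1 : ℝ) / 10 ≤
        ((Ico ((t + 7) / 8) ((t + 6) / 7)).card : ℝ) * (99 / 100 * 7 / t) := by
      rw [← mul_div_assoc, le_div_iff₀ ht]
      linarith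
    calc c / 10 = 1 / 10 * c := by ring
      _ ≤ _ := mul_le_mul_of_nonneg_right (hm.trans hs) hc
  · rw [mem_Ico] at hk
    refine ⟨by omega, by omega, ⟨fun _ => by omega, fun _ => ⟨h2, by omega⟩⟩,
      fun _ => by omega, fun q hq => ?_⟩
    subst hq
    exact h q (by omega) (by omega)

theorem landing (C2 : ℕ) (h : 11 ≤ C2) : ∃ c : ℝ, 0 < c ∧ ∃ K : ℕ, ∀ P : Par, HB P.k0 →
    2 * P.k0 ≤ P.kw → K ≤ P.kw → P.k1 = C2 * P.kw → P.k1 ≤ P.kW → 7 ≤ P.CW →
    ∀ e t p : ℕ, P.k1 ≤ kk p → P.k1 ≤ t → t ≤ 7 * P.k1 → c / P.kw ≤ Gam P e t p := by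
  obtain ⟨c, hc, K, hK⟩ := landing_end
  obtain ⟨N, hN⟩ : ∃ N : ℕ, 7 * C2 * 7 ^ N < 13 * 8 ^ N := by
    obtain ⟨N, hN⟩ := pow_unbounded_of_one_lt (7 * C2 : ℝ) (by norm_num : (1 : ℝ) < 8 / 7)
    refine ⟨N, ?_⟩
    rw [div_pow, lt_div_iff₀ (by positivity)] at hN
    have h8 : (0 : ℝ) < 8 ^ N := by positivity
    exact_mod_cast (by linarith : (7 * C2 : ℝ) * 7 ^ N < 13 * 8 ^ N)
  refine ⟨c / 10 ^ (N + 1), by positivity, max K 100, ?_⟩
  intro P hB h0 hw hk1 hW hC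
  have hw1 : K ≤ P.kw := (le_max_left _ _).trans hw
  have hw2 : 100 ≤ P.kw := (le_max_right _ _).trans hw
  have h11 : 11 * P.kw ≤ P.k1 := hk1 ▸ Nat.mul_le_mul_right _ h
  have hc0 : 0 ≤ c / P.kw := by positivity
  have hE := hK P hB h0 hw1 h11 hW hC
  have base : ∀ e t p : ℕ, 11 * P.kw ≤ t → t ≤ 7 * P.k1 → t ≤ 7 * kk p → t < 13 * P.kw →
      c / P.kw / 10 ≤ Gam P e t p := by
    intro e t p h1 h2 h3 h4
    rcases Nat.even_or_odd e with he | he
    · have := hE e t p he (by omega) h4 h3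
      linarith
    · exact JN8_step hB h0 hw2 hW hC h1 h2 h3 hc0 fun q h5 h6 =>
        hE _ _ q he.add_one (by omega) (by omega) (by omega)
  have main : ∀ n e t p : ℕ, 11 * P.kw ≤ t → t ≤ 7 * P.k1 → t ≤ 7 * kk p →
      t * 7 ^ n < 13 * P.kw * 8 ^ n → c / P.kw / 10 ^ (n + 1) ≤ Gam P e t p := by
    intro n
    induction n with
    | zero =>
      intro e t p h1 h2 h3 h4
      simpa using base e t p h1 h2 h3 (by simpa using h4)
    | succ n ih =>
      intro e t p h1 h2 h3 h4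
      rcases lt_or_ge t (13 * P.kw) with h5 | h5
      · refine le_trans ?_ (base e t p h1 h2 h3 h5)
        refine div_le_div_of_nonneg_left hc0 (by norm_num) ?_
        exact le_self_pow₀ (by norm_num) (by omega)
      · have := JN8_step (e := e) hB h0 hw2 hW hC h1 h2 h3
          (c := c / P.kw / 10 ^ (n + 1)) (by positivity) fun q h6 h7 => by
            refine ih _ _ q (by omega) (by omega) (by omega) ?_
            have h8 : 8 * (t - kk q) ≤ 7 * t := by omega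
            have h9 := Nat.mul_le_mul_right (7 ^ n) h8
            rw [pow_succ, pow_succ] at h4
            nlinarith
        rwa [div_div, ← pow_succ] at this
  intro e t p h1 h2 h3
  have h4 : t * 7 ^ N < 13 * P.kw * 8 ^ N := by
    have h5 : t * 7 ^ N ≤ 7 * (C2 * P.kw) * 7 ^ N := Nat.mul_le_mul_right _ (hk1 ▸ h3)
    have h6 := Nat.mul_lt_mul_of_pos_left hN (by omega : 0 < P.kw)
    nlinarith
  have := main N e t p (by omega) h3 (by omega) h4
  rwa [div_right_comm] at this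

end

end Pool.Agent.Jac
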