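import Pool.Agent.P.MP_45ff98_nt.JBase

/-! Small losses. -/

namespace Pool.Agent.Jac
open Finset

noncomputable section

theorem JN9a_hS (e t k : ℕ) (hk : 1 ≤ k) (hkt : k ≤ t) :
    hS e t k ≤ 4 * Real.exp (-(5 / 4) * t / k) := by
  have hk0 : (0 : ℝ) < k := by exact_mod_cast hk
  have hkt' : (k : ℝ) ≤ t := by exact_mod_cast hkt
  have ht0 : (0 : ℝ) < t := lt_of_lt_of_le hk0 hkt'
  have hE := Real.exp_pos (-(5 / 4) * (t : ℝ) / k)
  unfold hS
  split_ifs with h1 h2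
  · linarith
  · linarith
  · have h3 : (t : ℝ) ≤ 3 * k := by
      have : t ≤ 3 * k := by omega
      exact_mod_cast this
    have h4 : Real.exp (-(15 / 4)) ≤ Real.exp (-(5 / 4) * (t : ℝ) / k) := by
      apply Real.exp_le_exp.mpr
      rw [le_div_iff₀ hk0]
      linarith
    have h5 : 3 * (k : ℝ) / t ≤ 3 := by
      rw [div_le_iff₀ ht0]
      linarith
    have h6 : 0 ≤ 3 * (k : ℝ) / t := by positivity
    have h7 := Real.exp_pos (-(15 / 4) : ℝ)
    nlinarith [mul_le_mul h4 h5 h6 hE.le]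

theorem JN9a_exp (x : ℝ) (hx : 0 < x) (n : ℕ) : Real.exp (-x) ≤ n.factorial / x ^ n := by
  have h := Real.pow_div_factorial_le_exp x hx.le n
  have hf : (0 : ℝ) < n.factorial := by exact_mod_cast n.factorial_pos
  rw [Real.exp_neg, inv_eq_one_div, div_le_div_iff₀ (Real.exp_pos x) (pow_pos hx n)]
  rw [div_le_iff₀ hf] at h
  linarith

theorem JN9a_sup (k0 e t m k : ℕ) (δ : ℝ) (hδ : (9 / 10 : ℝ) ^ Nat.log 2 (t / k0) ≤ δ)
    (hm : 1 ≤ m) (hmk : m ≤ k) (hkt : k ≤ t) :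
    Sup k0 e t m ≤ δ * 4 * (Real.exp (-(t : ℝ) / k) * Real.exp (-((t : ℝ) / m / 4))) / m := by
  have hm0 : (0 : ℝ) < m := by exact_mod_cast hm
  have hmk' : (m : ℝ) ≤ k := by exact_mod_cast hmk
  have ht0 : (0 : ℝ) ≤ t := Nat.cast_nonneg t
  have h1 := JN9a_hS e t m hm (hmk.trans hkt)
  have h2 : Real.exp (-(5 / 4) * (t : ℝ) / m) ≤
      Real.exp (-(t : ℝ) / k) * Real.exp (-((t : ℝ) / m / 4)) := by
    rw [← Real.exp_add]
    apply Real.exp_le_exp.mpr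
    have h3 : (t : ℝ) / k ≤ t / m := div_le_div_of_nonneg_left ht0 hm0 hmk'
    have h4 : -(5 / 4) * (t : ℝ) / m = -(5 / 4) * (t / m) := by ring
    have h5 : -(t : ℝ) / k = -(t / k) := by ring
    rw [h4, h5]
    linarith
  have hp : (0 : ℝ) ≤ (9 / 10 : ℝ) ^ Nat.log 2 (t / k0) := by positivity
  unfold Sup
  apply div_le_div_of_nonneg_right _ hm0.le
  calc (9 / 10 : ℝ) ^ Nat.log 2 (t / k0) * hS e t m
      ≤ (9 / 10 : ℝ) ^ Nat.log 2 (t / k0) *
        (4 * (Real.exp (-(t : ℝ) / k) * Real.exp (-((t : ℝ) / m / 4)))) :=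
        mul_le_mul_of_nonneg_left (by linarith) hp
    _ ≤ δ * (4 * (Real.exp (-(t : ℝ) / k) * Real.exp (-((t : ℝ) / m / 4)))) :=
        mul_le_mul_of_nonneg_right hδ (by positivity)
    _ = _ := by ring

theorem JN9a_psi (A : ℝ) (hA : 0 ≤ A) (G k0 k1 t k ρ : ℕ) (h0 : 1 ≤ k0) (hG : G ≤ k0)
    (hρ : 1 ≤ ρ) (h1 : ρ * k0 ≤ k1) (h2 : k1 ≤ k) (h3 : k ≤ t) :
    psiS A G k0 t k ≤ 7 * A / ρ * (k1 : ℝ) ^ 2 * JJ t k := by
  have hk0 : (0 : ℝ) < k0 := by exact_mod_cast h0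
  have hρ' : (1 : ℝ) ≤ ρ := by exact_mod_cast hρ
  have h1' : (ρ : ℝ) * k0 ≤ k1 := by exact_mod_cast h1
  have hG' : (G : ℝ) ≤ k0 := by exact_mod_cast hG
  have hG0 : (0 : ℝ) ≤ G := Nat.cast_nonneg G
  have h2' : (k1 : ℝ) ≤ k := by exact_mod_cast h2
  have h3' : (k : ℝ) ≤ t := by exact_mod_cast h3
  have hk01 : (k0 : ℝ) ≤ k1 := by nlinarith
  have hk : (0 : ℝ) < k := by linarith
  have ht : (0 : ℝ) < t := by linarith
  have hsq : (k0 : ℝ) ^ 2 ≤ (k1 : ℝ) ^ 2 / ρ := by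
    rw [le_div_iff₀ (by linarith)]
    nlinarith [mul_le_mul h1' hk01 hk0.le (by linarith : (0 : ℝ) ≤ k1)]
  have hE := Real.exp_pos (-(t : ℝ) / k)
  have a1 : Real.exp (-2 * (t : ℝ) / k0) / k0 ≤ 6 * (k0 : ℝ) ^ 2 * JJ t k := by
    have b1 := JN9a_exp ((t : ℝ) / k0) (by positivity) 3
    have b2 : Real.exp (-((t : ℝ) / k0)) ≤ Real.exp (-(t : ℝ) / k) := by
      apply Real.exp_le_exp.mpr
      have h4 : (t : ℝ) / k ≤ t / k0 := div_le_div_of_nonneg_left ht.le hk0 (by linarith)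
      have h5 : -(t : ℝ) / k = -(t / k) := by ring
      rw [h5]
      linarith
    have b3 : Real.exp (-2 * (t : ℝ) / k0) =
        Real.exp (-((t : ℝ) / k0)) * Real.exp (-((t : ℝ) / k0)) := by
      rw [← Real.exp_add]
      congr 1
      ring
    have b4 : Real.exp (-2 * (t : ℝ) / k0) ≤
        ((Nat.factorial 3 : ℕ) : ℝ) / ((t : ℝ) / k0) ^ 3 * Real.exp (-(t : ℝ) / k) := by
      rw [b3]
      exact mul_le_mul b1 b2 (Real.exp_pos _).le (by positivity)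
    calc Real.exp (-2 * (t : ℝ) / k0) / k0
        ≤ ((Nat.factorial 3 : ℕ) : ℝ) / ((t : ℝ) / k0) ^ 3 * Real.exp (-(t : ℝ) / k) / k0 :=
          div_le_div_of_nonneg_right b4 hk0.le
      _ = 6 * (k0 : ℝ) ^ 2 * JJ t k := by
          unfold JJ
          norm_num [Nat.factorial]
          field_simp
  have a2 : (G : ℝ) ^ 2 / (t : ℝ) ^ 3 * Real.exp (-(5 / 4) * t / k) ≤ (k0 : ℝ) ^ 2 * JJ t k := by
    have b1 : Real.exp (-(5 / 4) * (t : ℝ) / k) ≤ Real.exp (-(t : ℝ) / k) := by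
      apply Real.exp_le_exp.mpr
      apply div_le_div_of_nonneg_right _ hk.le
      linarith
    have b2 : (G : ℝ) ^ 2 ≤ (k0 : ℝ) ^ 2 := by nlinarith
    calc (G : ℝ) ^ 2 / (t : ℝ) ^ 3 * Real.exp (-(5 / 4) * t / k)
        ≤ (k0 : ℝ) ^ 2 / (t : ℝ) ^ 3 * Real.exp (-(t : ℝ) / k) :=
          mul_le_mul (div_le_div_of_nonneg_right b2 (by positivity)) b1 (Real.exp_pos _).le
            (by positivity)
      _ = (k0 : ℝ) ^ 2 * JJ t k := by
          unfold JJ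
          ring
  have hJ : 0 ≤ JJ t k := by
    unfold JJ
    positivity
  unfold psiS
  calc A * (Real.exp (-2 * (t : ℝ) / k0) / k0 +
        (G : ℝ) ^ 2 / (t : ℝ) ^ 3 * Real.exp (-(5 / 4) * t / k))
      ≤ A * (7 * ((k1 : ℝ) ^ 2 / ρ) * JJ t k) := by
        apply mul_le_mul_of_nonneg_left _ hA
        nlinarith [mul_le_mul_of_nonneg_right hsq hJ]
    _ = _ := by ring

theorem small_loss (A ε : ℝ) (hA : 0 ≤ A) (hε : 0 < ε) : ∃ ρ : ℕ, 2 ≤ ρ ∧ ∀ K' : ℕ, 1 ≤ K' →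
    ∃ CW0 : ℕ, 7 ≤ CW0 ∧ ∀ G k0 k1 e t k CW : ℕ, 1 ≤ k0 → G ≤ k0 → ρ * k0 ≤ k1 → k1 ≤ k → k ≤ t →
    CW0 ≤ CW →
    A * Sup k0 e t k ≤ ε / k1 ∧ psiS A G k0 t k ≤ ε * (k1 : ℝ) ^ 2 * JJ t k ∧
      (7 * k1 < t → A * Sup k0 e t k1 ≤ ε * (k1 : ℝ) ^ 2 * JJ t k) ∧
      (CW * (K' * k1) < t → A * Sup k0 e t (min k (K' * k1)) ≤ ε * (k1 : ℝ) ^ 2 * JJ t k) := by
  obtain ⟨n, hn⟩ := exists_pow_lt_of_lt_one (x := ε / (1536 * (A + 1))) (y := (9 / 10 : ℝ))
    (by positivity) (by norm_num)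
  obtain ⟨r, hr⟩ := exists_nat_ge (7 * A / ε)
  refine ⟨2 ^ n + r + 2, Nat.le_add_left _ _, fun K' hK => ?_⟩
  obtain ⟨c, hc⟩ := exists_nat_ge (24576 * A * (K' : ℝ) ^ 2 / ε)
  refine ⟨c + 7, by omega, fun G k0 k1 e t k CW h0 hG h1 h2 h3 hCW => ?_⟩
  set δ : ℝ := (9 / 10 : ℝ) ^ n with hδdef
  have hδ0 : 0 ≤ δ := by positivity
  have hδ1 : 1536 * A * δ ≤ ε := by
    rw [lt_div_iff₀ (by positivity)] at hn
    nlinarith
  have hk1 : 1 ≤ k1 := by nlinarith [Nat.zero_le (2 ^ n), Nat.zero_le r]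
  have hlog : n ≤ Nat.log 2 (t / k0) := by
    apply Nat.le_log_of_pow_le (by norm_num)
    rw [Nat.le_div_iff_mul_le h0]
    nlinarith [Nat.zero_le (r * k0)]
  have hδ : (9 / 10 : ℝ) ^ Nat.log 2 (t / k0) ≤ δ :=
    pow_le_pow_of_le_one (by norm_num) (by norm_num) hlog
  have hk10 : (0 : ℝ) < k1 := by exact_mod_cast hk1
  have h2' : (k1 : ℝ) ≤ k := by exact_mod_cast h2
  have h3' : (k : ℝ) ≤ t := by exact_mod_cast h3
  have hk : (0 : ℝ) < k := by linarith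
  have ht : (0 : ℝ) < t := by linarith
  have hE := Real.exp_pos (-(t : ℝ) / k)
  have hJ : 0 ≤ JJ t k := by
    unfold JJ
    positivity
  refine ⟨?_, ?_, fun _ => ?_, fun h4 => ?_⟩
  · have b1 := JN9a_sup k0 e t k k δ hδ (hk1.trans h2) le_rfl h3
    have b2 : Real.exp (-(t : ℝ) / k) * Real.exp (-((t : ℝ) / k / 4)) ≤ 1 := by
      rw [← Real.exp_add]
      apply Real.exp_le_one_iff.mpr
      have h5 : -(t : ℝ) / k = -(t / k) := by ring
      have h6 : 0 ≤ (t : ℝ) / k := by positivity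
      rw [h5]
      linarith
    calc A * Sup k0 e t k
        ≤ A * (δ * 4 * 1 / k1) := by
          apply mul_le_mul_of_nonneg_left (b1.trans _) hA
          exact div_le_div₀ (by positivity) (mul_le_mul_of_nonneg_left b2 (by positivity)) hk10 h2'
      _ = 4 * A * δ / k1 := by ring
      _ ≤ ε / k1 := by
          apply div_le_div_of_nonneg_right _ hk10.le
          nlinarith [mul_nonneg hA hδ0]
  · have b1 := JN9a_psi A hA G k0 k1 t k (2 ^ n + r + 2) h0 hG (Nat.le_add_left 1 _) h1 h2 h3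
    refine b1.trans ?_
    apply mul_le_mul_of_nonneg_right _ hJ
    apply mul_le_mul_of_nonneg_right _ (by positivity)
    rw [div_le_iff₀ hε] at hr
    rw [div_le_iff₀ (by positivity)]
    push_cast
    have : (0 : ℝ) ≤ 2 ^ n := by positivity
    nlinarith
  · have b1 := JN9a_sup k0 e t k1 k δ hδ hk1 h2 h3
    have b2 := JN9a_exp ((t : ℝ) / k1 / 4) (by positivity) 3
    calc A * Sup k0 e t k1
        ≤ A * (δ * 4 * (Real.exp (-(t : ℝ) / k) *
            (((Nat.factorial 3 : ℕ) : ℝ) / ((t : ℝ) / k1 / 4) ^ 3)) / k1) := by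
          apply mul_le_mul_of_nonneg_left (b1.trans _) hA
          apply div_le_div_of_nonneg_right _ hk10.le
          exact mul_le_mul_of_nonneg_left (mul_le_mul_of_nonneg_left b2 hE.le) (by positivity)
      _ = 1536 * A * δ * (k1 : ℝ) ^ 2 * JJ t k := by
          unfold JJ
          norm_num [Nat.factorial]
          field_simp
          ring
      _ ≤ _ := mul_le_mul_of_nonneg_right (mul_le_mul_of_nonneg_right hδ1 (by positivity)) hJ
  · set m : ℕ := min k (K' * k1) with hm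
    have hm1 : 1 ≤ m := le_min (hk1.trans h2) (by nlinarith)
    have hmk : m ≤ k := min_le_left _ _
    have hmK : m ≤ K' * k1 := min_le_right _ _
    have hm0 : (0 : ℝ) < m := by exact_mod_cast hm1
    have hmK' : (m : ℝ) ≤ K' * k1 := by exact_mod_cast hmK
    have hcm : ((c : ℝ) + 7) * m ≤ t := by
      have : (c + 7) * m ≤ t := (Nat.mul_le_mul hCW hmK).trans h4.le
      exact_mod_cast this
    have hc0 : (0 : ℝ) ≤ c := Nat.cast_nonneg c
    have b1 := JN9a_sup k0 e t m k 1 (pow_le_one₀ (by norm_num) (by norm_num)) hm1 hmk h3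
    have b2 := JN9a_exp ((t : ℝ) / m / 4) (by positivity) 4
    have b3 : (m : ℝ) / t ≤ 1 / (c + 7) := by
      rw [div_le_div_iff₀ ht (by positivity)]
      linarith
    have b4 : (m : ℝ) ^ 2 ≤ (K' : ℝ) ^ 2 * (k1 : ℝ) ^ 2 := by
      rw [← mul_pow]
      exact pow_le_pow_left₀ hm0.le hmK' 2
    have b5 : 24576 * A * (K' : ℝ) ^ 2 * (1 / (c + 7)) ≤ ε := by
      rw [div_le_iff₀ hε] at hc
      rw [mul_one_div, div_le_iff₀ (by positivity)]
      nlinarith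
    calc A * Sup k0 e t m
        ≤ A * (1 * 4 * (Real.exp (-(t : ℝ) / k) *
            (((Nat.factorial 4 : ℕ) : ℝ) / ((t : ℝ) / m / 4) ^ 4)) / m) := by
          apply mul_le_mul_of_nonneg_left (b1.trans _) hA
          apply div_le_div_of_nonneg_right _ hm0.le
          exact mul_le_mul_of_nonneg_left (mul_le_mul_of_nonneg_left b2 hE.le) (by positivity)
      _ = 24576 * A * ((m : ℝ) ^ 2 * (m / t)) * JJ t k := by
          unfold JJ
          norm_num [Nat.factorial]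
          field_simp
          ring
      _ ≤ 24576 * A * ((K' : ℝ) ^ 2 * (k1 : ℝ) ^ 2 * (1 / (c + 7))) * JJ t k := by
          apply mul_le_mul_of_nonneg_right _ hJ
          apply mul_le_mul_of_nonneg_left _ (by positivity)
          exact mul_le_mul b4 b3 (by positivity) (by positivity)
      _ = 24576 * A * (K' : ℝ) ^ 2 * (1 / (c + 7)) * (k1 : ℝ) ^ 2 * JJ t k := by ring
      _ ≤ _ := mul_le_mul_of_nonneg_right (mul_le_mul_of_nonneg_right b5 (by positivity)) hJ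

end

end Pool.Agent.Jac
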