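import Pool.Agent.P.MP_45ff98_nt.JN6a

/-! The subsolution at even nodes. -/

namespace Pool.Agent.Jac
open Finset

noncomputable section

/-- kernel sum over the children above a threshold -/
def jn6eT (K : Finset ℕ) (t : ℕ) (α : ℝ) : ℝ :=
  ∑ k ∈ K, if α * t ≤ k then 1 / ((k : ℝ) * ((t - k : ℕ) : ℝ) ^ 3) else 0

theorem jn6e_nonneg (K : Finset ℕ) (t : ℕ) (α : ℝ) : 0 ≤ jn6eT K t α := by
  refine sum_nonneg fun k _ => ?_
  split_ifs
  · positivity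
  · exact le_rfl

theorem jn6e_lower (α β : ℝ) (t : ℕ) (K : Finset ℕ) (ht : 1 ≤ t) (hα : 0 < α) (hβ : β < 1)
    (hK : ∀ k : ℕ, α * t ≤ k → (k : ℝ) < β * t → k ∈ K) (hK2 : ∀ k ∈ K, k < t) :
    256 / 27 * (β - α - 1 / t) / (t : ℝ) ^ 3 ≤ jn6eT K t α := by
  refine (kernel_lower α β _ t K ht hα hβ (Or.inl rfl) hK hK2).trans ?_
  rw [jn6eT, sum_filter]
  refine sum_le_sum fun k _ => ?_
  by_cases h1 : α * t ≤ k
  · rw [if_pos h1]
    split_ifs
    · exact le_rfl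
    · positivity
  · rw [if_neg h1, if_neg fun h => h1 h.1]

theorem jn6e_split (t : ℕ) (K : Finset ℕ) (ht : 1 ≤ t)
    (hK : ∀ k : ℕ, (1 / 4 : ℝ) * t ≤ k → (k : ℝ) < 2 / 5 * t → k ∈ K) (hK2 : ∀ k ∈ K, k < t) :
    256 / 27 * (1 / 3 - 1 / 4 - 1 / t) / (t : ℝ) ^ 3 + 81 / 8 * (2 / 5 - 1 / 3 - 1 / t) / (t : ℝ) ^ 3
      ≤ jn6eT K t (1 / 4) := by
  have ht0 : (0 : ℝ) ≤ t := Nat.cast_nonneg t
  have h1 := kernel_lower (1 / 4) (1 / 3) _ t K ht (by norm_num) (by norm_num) (Or.inl rfl)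
    (fun k h1 h2 => hK k h1 (by linarith)) hK2
  have h2 := kernel_lower (1 / 3) (2 / 5) _ t K ht (by norm_num) (by norm_num)
    (Or.inr ⟨rfl, le_rfl⟩) (fun k h1 h2 => hK k (by linarith) h2) hK2
  refine (add_le_add h1 h2).trans ?_
  rw [jn6eT, sum_filter, sum_filter, ← sum_add_distrib]
  refine sum_le_sum fun k _ => ?_
  have hp : (0 : ℝ) ≤ 1 / ((k : ℝ) * ((t - k : ℕ) : ℝ) ^ 3) := by positivity
  by_cases a1 : (1 / 4 : ℝ) * t ≤ k
  · rw [if_pos a1]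
    by_cases a2 : (k : ℝ) < 1 / 3 * t
    · rw [if_pos ⟨a1, a2⟩, if_neg fun h => absurd h.1 (not_le.2 a2), add_zero]
    · rw [if_neg fun h => a2 h.2, zero_add]
      split_ifs
      · exact le_rfl
      · exact hp
  · rw [if_neg a1, if_neg fun h => a1 h.1, if_neg fun h => a1 (by linarith [h.1]), add_zero]

theorem jn6e_ind {a b : ℕ} {p : Prop} [Decidable p] (h : a ≤ b ↔ p) (x : ℝ) :
    ind a b * x = if p then x else 0 := by
  unfold ind
  by_cases hp : p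
  · rw [if_pos hp, if_pos (h.2 hp), one_mul]
  · rw [if_neg hp, if_neg fun h' => hp (h.1 h'), zero_mul]

theorem jn6e_iff (t k a b : ℕ) (hk : k ≤ t) (ha : 0 < a) :
    a * (t - k) ≤ b * k ↔ ((a : ℝ) / (a + b)) * t ≤ k := by
  obtain ⟨m, rfl⟩ := Nat.exists_eq_add_of_le hk
  have ha' : (0 : ℝ) < a := by exact_mod_cast ha
  have hb' : (0 : ℝ) ≤ b := Nat.cast_nonneg b
  rw [Nat.add_sub_cancel_left, div_mul_eq_mul_div, div_le_iff₀ (by positivity),
    ← Nat.cast_le (α := ℝ)]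
  push_cast
  constructor <;> intro h <;> nlinarith

theorem jn6e_eq (e t : ℕ) (he : Even e) (K : Finset ℕ) (hK : ∀ k ∈ K, k ≤ t) :
    ∑ k' ∈ K, 99 / 100 / (k' : ℝ) * (Gs (e + 1) (t - k') k' / ((t - k' : ℕ) : ℝ) ^ 3) =
      99 / 100 * (92 / 100 * jn6eT K t (1 / 4) + 8 / 100 * jn6eT K t (1 / 5)
        + 4 / 1000 * jn6eT K t (2 / 11) + 2 / 10000 * jn6eT K t (4 / 25)) := by
  have he' : ¬ Even (e + 1) := fun h => Nat.even_add_one.1 h he
  simp only [jn6eT, mul_sum, ← sum_add_distrib]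
  refine sum_congr rfl fun k hk => ?_
  have h1 : t - k ≤ 3 * k ↔ (1 / 4 : ℝ) * t ≤ k := by
    have := jn6e_iff t k 1 3 (hK k hk) one_pos
    rw [one_mul] at this
    rw [this]; norm_num
  have h2 : t - k ≤ 4 * k ↔ (1 / 5 : ℝ) * t ≤ k := by
    have := jn6e_iff t k 1 4 (hK k hk) one_pos
    rw [one_mul] at this
    rw [this]; norm_num
  have h3 : 2 * (t - k) ≤ 9 * k ↔ (2 / 11 : ℝ) * t ≤ k := by
    rw [jn6e_iff t k 2 9 (hK k hk) two_pos]; norm_num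
  have h4 : 4 * (t - k) ≤ 21 * k ↔ (4 / 25 : ℝ) * t ≤ k := by
    rw [jn6e_iff t k 4 21 (hK k hk) four_pos]; norm_num
  rw [← jn6e_ind h1, ← jn6e_ind h2, ← jn6e_ind h3, ← jn6e_ind h4, Gs, if_neg he']
  ring

theorem jn6e_fin {G T u c : ℝ} (hu : 0 < u) (h : c / u ≤ T) (hG : G ≤ c) : G / u ≤ T :=
  (div_le_div_of_nonneg_right hG hu.le).trans h

theorem sub_even : ∃ K : ℕ, ∀ e t k : ℕ, Even e → K ≤ k → 2 * k ≤ t → t ≤ 6 * k →
    (Gs e t k + 1 / 100000) / (t : ℝ) ^ 3 ≤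
      ∑ k' ∈ (Ico 1 k).filter (fun k' => 4 * t ≤ 25 * k' ∧ Cont e t k'),
        99 / 100 / (k' : ℝ) * (Gs (e + 1) (t - k') k' / ((t - k' : ℕ) : ℝ) ^ 3) := by
  refine ⟨10 ^ 7, fun e t k he hk h2 h6 => ?_⟩
  have he' : ¬ Even (e + 1) := fun h => Nat.even_add_one.1 h he
  set K := (Ico 1 k).filter (fun k' => 4 * t ≤ 25 * k' ∧ Cont e t k') with hKdef
  have hK2 : ∀ j ∈ K, j < t := fun j hj => by
    have := (mem_Ico.1 (mem_filter.1 hj).1).2
    omega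
  have ht : 1 ≤ t := by omega
  have htr : (10 : ℝ) ^ 7 ≤ t := by exact_mod_cast (by omega : 10 ^ 7 ≤ t)
  have ht0 : (0 : ℝ) < t := by linarith [show (0 : ℝ) < 10 ^ 7 by norm_num]
  have hu : (0 : ℝ) < (t : ℝ) ^ 3 := by positivity
  have hε : 1 / (t : ℝ) ≤ 1 / 10 ^ 7 := one_div_le_one_div_of_le (by norm_num) htr
  have hmem : ∀ α β : ℝ, 4 / 25 ≤ α → β * t ≤ k → ∀ j : ℕ, α * t ≤ j → (j : ℝ) < β * t → j ∈ K := by
    intro α β hα hβ j h1 h3
    have a1 : (4 : ℝ) * t ≤ 25 * j := by nlinarith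
    have a2 : 4 * t ≤ 25 * j := by exact_mod_cast a1
    have a3 : j < k := by exact_mod_cast h3.trans_le hβ
    exact mem_filter.2 ⟨mem_Ico.2 ⟨by omega, a3⟩, a2, fun h => absurd h he'⟩
  have hlow : ∀ α β : ℝ, 4 / 25 ≤ α → β < 1 → β * t ≤ k →
      256 / 27 * (β - α - 1 / 10 ^ 7) ≤ jn6eT K t α * (t : ℝ) ^ 3 := by
    intro α β hα hβ1 hβ
    have := jn6e_lower α β t K ht (by linarith) hβ1 (hmem α β hα hβ) hK2
    rw [div_le_iff₀ hu] at this
    linarith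
  have n1 := mul_nonneg (jn6e_nonneg K t (1 / 4)) hu.le
  have n2 := mul_nonneg (jn6e_nonneg K t (1 / 5)) hu.le
  have n3 := mul_nonneg (jn6e_nonneg K t (2 / 11)) hu.le
  have n4 := mul_nonneg (jn6e_nonneg K t (4 / 25)) hu.le
  rw [jn6e_eq e t he K fun j hj => (hK2 j hj).le, div_le_iff₀ hu, Gs, if_pos he]
  have hcast : ∀ a b : ℕ, 0 < b → a * t ≤ b * k → ((a : ℝ) / b) * t ≤ k := by
    intro a b hb h
    have hb' : (0 : ℝ) < b := by exact_mod_cast hb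
    rw [div_mul_eq_mul_div, div_le_iff₀ hb', mul_comm (k : ℝ)]
    exact_mod_cast h
  have i1 : ∀ a b : ℕ, ind a b ≤ 1 := fun a b => by
    unfold ind
    split_ifs <;> norm_num
  have i0 : ∀ a b : ℕ, ¬ a ≤ b → ind a b = 0 := fun a b h => by
    unfold ind
    rw [if_neg h]
  have j1 := i1 (2 * t) (5 * k)
  have j2 := i1 t (3 * k)
  have j3 := i1 (2 * t) (7 * k)
  have j4 := i1 t (4 * k)
  have j5 := i1 (2 * t) (9 * k)
  have j6 := i1 (4 * t) (21 * k)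
  by_cases c1 : 2 * t ≤ 5 * k
  · have b := hcast 2 5 (by norm_num) c1
    push_cast at b
    have l1 := jn6e_split t K ht (hmem (1 / 4) (2 / 5) (by norm_num) b) hK2
    rw [← add_div, div_le_iff₀ hu] at l1
    have l2 := hlow (1 / 5) (2 / 5) (by norm_num) (by norm_num) b
    linarith
  rw [i0 _ _ c1]
  by_cases c2 : t ≤ 3 * k
  · have b := hcast 1 3 (by norm_num) (by omega)
    push_cast at b
    have l1 := hlow (1 / 4) (1 / 3) (by norm_num) (by norm_num) b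
    have l2 := hlow (1 / 5) (1 / 3) (by norm_num) (by norm_num) b
    linarith
  rw [i0 _ _ c2]
  by_cases c3 : 2 * t ≤ 7 * k
  · have b := hcast 2 7 (by norm_num) c3
    push_cast at b
    have l1 := hlow (1 / 4) (2 / 7) (by norm_num) (by norm_num) b
    have l2 := hlow (1 / 5) (2 / 7) (by norm_num) (by norm_num) b
    linarith
  rw [i0 _ _ c3]
  by_cases c4 : t ≤ 4 * k
  · have b := hcast 1 4 (by norm_num) (by omega)
    push_cast at b
    have l2 := hlow (1 / 5) (1 / 4) (by norm_num) (by norm_num) b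
    linarith
  rw [i0 _ _ c4]
  by_cases c5 : 2 * t ≤ 9 * k
  · have b := hcast 2 9 (by norm_num) c5
    push_cast at b
    have l2 := hlow (1 / 5) (2 / 9) (by norm_num) (by norm_num) b
    linarith
  rw [i0 _ _ c5]
  by_cases c6 : 4 * t ≤ 21 * k
  · have b := hcast 4 21 (by norm_num) c6
    push_cast at b
    have l2 := hlow (2 / 11) (4 / 21) (by norm_num) (by norm_num) b
    linarith
  rw [i0 _ _ c6]
  have b := hcast 1 6 (by norm_num) (by omega)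
  push_cast at b
  have l2 := hlow (4 / 25) (1 / 6) le_rfl (by norm_num) b
  linarith

end

end Pool.Agent.Jac
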