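import Pool.Agent.P.MP_45ff98_nt.JN6a

/-! The subsolution at odd nodes. -/

namespace Pool.Agent.Jac
open Finset

noncomputable section

/-- Kernel sum over the children above the threshold `a / b`. -/
def so_S (F : Finset ℕ) (t a b : ℕ) : ℝ :=
  ∑ k ∈ F, ind (a * t) (b * k) * (1 / ((k : ℝ) * ((t - k : ℕ) : ℝ) ^ 3))

theorem so_ind_nonneg (a b : ℕ) : 0 ≤ ind a b := by
  unfold ind; split_ifs <;> norm_num

theorem so_S_nonneg (F : Finset ℕ) (t a b : ℕ) : 0 ≤ so_S F t a b :=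
  sum_nonneg fun k _ => mul_nonneg (so_ind_nonneg _ _) (by positivity)

theorem so_S_lower (F : Finset ℕ) (t a b : ℕ) (β : ℝ) (ht : 1 ≤ t) (ha : 0 < a) (hb : 0 < b)
    (hβ : β < 1) (hK : ∀ k : ℕ, a * t ≤ b * k → (k : ℝ) < β * t → k ∈ F)
    (hK2 : ∀ k ∈ F, k < t) :
    256 / 27 * (β - (a : ℝ) / b - 1 / t) / (t : ℝ) ^ 3 ≤ so_S F t a b := by
  have hb' : (0 : ℝ) < b := by exact_mod_cast hb
  have ha' : (0 : ℝ) < a := by exact_mod_cast ha
  have key : ∀ k : ℕ, (a : ℝ) / b * t ≤ k ↔ a * t ≤ b * k := by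
    intro k
    rw [div_mul_eq_mul_div, div_le_iff₀ hb', mul_comm (k : ℝ)]
    exact_mod_cast Iff.rfl
  refine (kernel_lower ((a : ℝ) / b) β (256 / 27) t F ht (by positivity) hβ (Or.inl rfl)
    (fun k h1 h2 => hK k ((key k).1 h1) h2) hK2).trans ?_
  rw [sum_filter]
  refine sum_le_sum fun k _ => ?_
  split_ifs with h
  · have : ind (a * t) (b * k) = 1 := by unfold ind; rw [if_pos ((key k).1 h.1)]
    rw [this, one_mul]
  · exact mul_nonneg (so_ind_nonneg _ _) (by positivity)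

theorem so_ind_congr {a b c d : ℕ} (h : a ≤ b ↔ c ≤ d) : ind a b = ind c d := by
  unfold ind; simp only [h]

theorem so_child {e t k : ℕ} (he : ¬ Even e) (h : k ≤ t) :
    Gs (e + 1) (t - k) k = 66 / 100 * ind (2 * t) (7 * k) + 45 / 100 * ind (1 * t) (4 * k) +
      33 / 100 * ind (2 * t) (9 * k) + 3 / 100 * ind (1 * t) (5 * k) +
      4 / 1000 * ind (2 * t) (11 * k) + 2 / 10000 * ind (4 * t) (25 * k) := by
  have he1 : Even (e + 1) := Nat.even_add_one.2 he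
  unfold Gs
  rw [if_pos he1,
    so_ind_congr (show 2 * (t - k) ≤ 5 * k ↔ 2 * t ≤ 7 * k by omega),
    so_ind_congr (show t - k ≤ 3 * k ↔ 1 * t ≤ 4 * k by omega),
    so_ind_congr (show 2 * (t - k) ≤ 7 * k ↔ 2 * t ≤ 9 * k by omega),
    so_ind_congr (show t - k ≤ 4 * k ↔ 1 * t ≤ 5 * k by omega),
    so_ind_congr (show 2 * (t - k) ≤ 9 * k ↔ 2 * t ≤ 11 * k by omega),
    so_ind_congr (show 4 * (t - k) ≤ 21 * k ↔ 4 * t ≤ 25 * k by omega)]

theorem so_sum {e t : ℕ} (he : ¬ Even e) (F : Finset ℕ) (hF : ∀ k ∈ F, k ≤ t) :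
    ∑ k' ∈ F, 99 / 100 / (k' : ℝ) * (Gs (e + 1) (t - k') k' / ((t - k' : ℕ) : ℝ) ^ 3) =
      99 / 100 * (66 / 100 * so_S F t 2 7 + 45 / 100 * so_S F t 1 4 + 33 / 100 * so_S F t 2 9 +
        3 / 100 * so_S F t 1 5 + 4 / 1000 * so_S F t 2 11 + 2 / 10000 * so_S F t 4 25) := by
  unfold so_S
  simp only [mul_sum, ← sum_add_distrib]
  refine sum_congr rfl fun k hk => ?_
  rw [so_child he (hF k hk), ← one_div_mul_one_div]
  ring

theorem sub_odd : ∃ K : ℕ, ∀ e t k : ℕ, ¬ Even e → K ≤ k → k ≤ t → t ≤ 6 * k →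
    (Gs e t k + 1 / 100000) / (t : ℝ) ^ 3 ≤
      ∑ k' ∈ (Ico 1 k).filter (fun k' => 4 * t ≤ 25 * k' ∧ Cont e t k'),
        99 / 100 / (k' : ℝ) * (Gs (e + 1) (t - k') k' / ((t - k' : ℕ) : ℝ) ^ 3) := by
  refine ⟨10000, fun e t k he hK hkt ht6 => ?_⟩
  set F := (Ico 1 k).filter (fun k' => 4 * t ≤ 25 * k' ∧ Cont e t k') with hF
  have hF2 : ∀ j ∈ F, j < t := fun j hj => by
    have := (mem_Ico.1 (mem_filter.1 hj).1).2
    omega
  rw [so_sum he F fun j hj => (hF2 j hj).le]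
  have ht1 : 1 ≤ t := by omega
  have htp : (0 : ℝ) < t := by exact_mod_cast ht1
  have hu : 1 / (t : ℝ) ≤ 1 / 10000 := by
    apply one_div_le_one_div_of_le (by norm_num)
    exact_mod_cast (hK.trans hkt)
  have hT : (0 : ℝ) < (t : ℝ) ^ 3 := by positivity
  -- the lower bound for a threshold `c / d ≤ 1 / 3` with `c t ≤ d k`
  have low : ∀ c d a b : ℕ, 0 < d → 3 * c ≤ d → c * t ≤ d * k → 0 < a → 0 < b → 4 * b ≤ 25 * a →
      256 / 27 * ((c : ℝ) / d - (a : ℝ) / b - 1 / 10000) ≤ so_S F t a b * (t : ℝ) ^ 3 := by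
    intro c d a b hd hcd hck ha hb hab
    have hd' : (0 : ℝ) < d := by exact_mod_cast hd
    have hβ : (c : ℝ) / d < 1 := by
      rw [div_lt_one hd']
      exact_mod_cast (by omega : c < d)
    have h := so_S_lower F t a b ((c : ℝ) / d) ht1 ha hb hβ (fun j h1 h2 => ?_) hF2
    · rw [div_le_iff₀ hT] at h
      linarith
    · rw [div_mul_eq_mul_div, lt_div_iff₀ hd'] at h2
      have h3 : j * d < c * t := by exact_mod_cast h2
      have h4 : j < k := by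
        by_contra h5
        have : d * k ≤ j * d := by rw [mul_comm j d]; exact Nat.mul_le_mul_left d (by omega)
        omega
      have h6 : 4 * t ≤ 25 * j := by
        have h7 : a * (4 * t) ≤ a * (25 * j) := by nlinarith
        exact Nat.le_of_mul_le_mul_left h7 ha
      have h8 : 3 * j ≤ t := by
        have h9 : d * (3 * j) ≤ d * t := by nlinarith
        exact Nat.le_of_mul_le_mul_left h9 hd
      exact mem_filter.2 ⟨mem_Ico.2 ⟨by omega, h4⟩, h6, fun _ => h8⟩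
  have n1 := mul_nonneg (so_S_nonneg F t 2 7) hT.le
  have n2 := mul_nonneg (so_S_nonneg F t 1 4) hT.le
  have n3 := mul_nonneg (so_S_nonneg F t 2 9) hT.le
  have n4 := mul_nonneg (so_S_nonneg F t 1 5) hT.le
  have n5 := mul_nonneg (so_S_nonneg F t 2 11) hT.le
  have n6 := mul_nonneg (so_S_nonneg F t 4 25) hT.le
  have all : ∀ c d : ℕ, 0 < d → 3 * c ≤ d → c * t ≤ d * k →
      (256 / 27 * ((c : ℝ) / d - 2 / 7 - 1 / 10000) ≤ so_S F t 2 7 * (t : ℝ) ^ 3 ∧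
      256 / 27 * ((c : ℝ) / d - 1 / 4 - 1 / 10000) ≤ so_S F t 1 4 * (t : ℝ) ^ 3 ∧
      256 / 27 * ((c : ℝ) / d - 2 / 9 - 1 / 10000) ≤ so_S F t 2 9 * (t : ℝ) ^ 3) ∧
      256 / 27 * ((c : ℝ) / d - 1 / 5 - 1 / 10000) ≤ so_S F t 1 5 * (t : ℝ) ^ 3 ∧
      256 / 27 * ((c : ℝ) / d - 2 / 11 - 1 / 10000) ≤ so_S F t 2 11 * (t : ℝ) ^ 3 ∧
      256 / 27 * ((c : ℝ) / d - 4 / 25 - 1 / 10000) ≤ so_S F t 4 25 * (t : ℝ) ^ 3 := by
    intro c d hd hcd hck
    have a1 := low c d 2 7 hd hcd hck (by norm_num) (by norm_num) (by norm_num)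
    have a2 := low c d 1 4 hd hcd hck (by norm_num) (by norm_num) (by norm_num)
    have a3 := low c d 2 9 hd hcd hck (by norm_num) (by norm_num) (by norm_num)
    have a4 := low c d 1 5 hd hcd hck (by norm_num) (by norm_num) (by norm_num)
    have a5 := low c d 2 11 hd hcd hck (by norm_num) (by norm_num) (by norm_num)
    have a6 := low c d 4 25 hd hcd hck (by norm_num) (by norm_num) (by norm_num)
    push_cast at a1 a2 a3 a4 a5 a6
    exact ⟨⟨a1, a2, a3⟩, a4, a5, a6⟩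
  rw [div_le_iff₀ hT]
  unfold Gs ind
  rw [if_neg he]
  by_cases c1 : t ≤ 3 * k
  · obtain ⟨⟨a1, a2, a3⟩, a4, a5, a6⟩ := all 1 3 (by norm_num) (by norm_num) (by omega)
    push_cast at a1 a2 a3 a4 a5 a6
    rw [if_pos c1, if_pos (by omega), if_pos (by omega), if_pos (by omega)]
    linarith
  by_cases c2 : t ≤ 4 * k
  · obtain ⟨⟨a1, a2, a3⟩, a4, a5, a6⟩ := all 1 4 (by norm_num) (by norm_num) (by omega)
    push_cast at a1 a2 a3 a4 a5 a6
    rw [if_neg c1, if_pos c2, if_pos (by omega), if_pos (by omega)]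
    linarith
  by_cases c3 : 2 * t ≤ 9 * k
  · obtain ⟨⟨a1, a2, a3⟩, a4, a5, a6⟩ := all 2 9 (by norm_num) (by norm_num) (by omega)
    push_cast at a1 a2 a3 a4 a5 a6
    rw [if_neg c1, if_neg c2, if_pos c3, if_pos (by omega)]
    linarith
  by_cases c4 : 4 * t ≤ 21 * k
  · obtain ⟨⟨a1, a2, a3⟩, a4, a5, a6⟩ := all 4 21 (by norm_num) (by norm_num) (by omega)
    push_cast at a1 a2 a3 a4 a5 a6
    rw [if_neg c1, if_neg c2, if_neg c3, if_pos c4]
    linarith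
  · obtain ⟨⟨a1, a2, a3⟩, a4, a5, a6⟩ := all 1 6 (by norm_num) (by norm_num) (by omega)
    push_cast at a1 a2 a3 a4 a5 a6
    rw [if_neg c1, if_neg c2, if_neg c3, if_neg c4]
    linarith

end

end Pool.Agent.Jac
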