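import Pool.Agent.P.MP_45ff98_nt.JN0
import Pool.Agent.P.MP_45ff98_nt.JN6o
import Pool.Agent.P.MP_45ff98_nt.JN6e

/-! One step for the potential. -/

namespace Pool.Agent.Jac
open Finset

noncomputable section

/-- The potential of section 2 (e), without the factor `cg k1^2`. -/
def Pot (e t k : ℕ) : ℝ := Gs e t k / (t : ℝ) ^ 3 - 1 / 10000000 * JJ t k

theorem JN9b_JJ_nonneg (t k : ℕ) : 0 ≤ JJ t k := by
  unfold JJ; positivity

theorem JN9b_split (S : Finset ℕ) (e t : ℕ) :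
    ∑ q ∈ S, Pot (e + 1) (t - kk q) (kk q) / q =
      ∑ q ∈ S, Gs (e + 1) (t - kk q) (kk q) / ((t - kk q : ℕ) : ℝ) ^ 3 / q -
        1 / 10000000 * ∑ q ∈ S, JJ (t - kk q) (kk q) / q := by
  rw [mul_sum, ← sum_sub_distrib]
  refine sum_congr rfl fun q _ => ?_
  unfold Pot
  ring

theorem JN9b_gain {κ e t p : ℕ} (hB : HB κ) (hκ : 25 * κ ≤ 4 * t) :
    ∑ k' ∈ (Ico 1 (kk p)).filter (fun k' => 4 * t ≤ 25 * k' ∧ Cont e t k'),
        99 / 100 / (k' : ℝ) * (Gs (e + 1) (t - k') k' / ((t - k' : ℕ) : ℝ) ^ 3) ≤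
      ∑ q ∈ (PP κ p).filter (fun q => Cont e t (kk q)),
        Gs (e + 1) (t - kk q) (kk q) / ((t - kk q : ℕ) : ℝ) ^ 3 / q := by
  have h0 : ∀ k' : ℕ, 0 ≤ Gs (e + 1) (t - k') k' / ((t - k' : ℕ) : ℝ) ^ 3 := fun k' =>
    div_nonneg (Gs_nonneg _ _ _) (by positivity)
  refine (box_lower hB p _ (fun k' hk' => ?_)
    (fun k' => Gs (e + 1) (t - k') k' / ((t - k' : ℕ) : ℝ) ^ 3) fun k' _ => h0 k').trans ?_
  · obtain ⟨h1, h2, -⟩ := mem_filter.1 hk'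
    exact ⟨by omega, (mem_Ico.1 h1).2⟩
  · refine sum_le_sum_of_subset_of_nonneg (fun q hq => ?_)
      fun q _ _ => div_nonneg (h0 _) (by positivity)
    obtain ⟨h1, h2⟩ := mem_filter.1 hq
    exact mem_filter.2 ⟨h1, (mem_filter.1 h2).2.2⟩

theorem pot_step : ∃ K : ℕ, ∀ k0 κ e t p : ℕ, HB k0 → K ≤ k0 → k0 ≤ κ → k0 ≤ kk p →
    St e t (kk p) → 25 * κ ≤ 4 * t →
    Pot e t (kk p) + 2 / 100000000 * JJ t (kk p) ≤
      ∑ q ∈ (PP κ p).filter (fun q => Cont e t (kk q)), Pot (e + 1) (t - kk q) (kk q) / q := by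
  obtain ⟨K1, h1⟩ := sub_odd
  obtain ⟨K2, h2⟩ := sub_even
  refine ⟨K1 + K2 + 1000, fun k0 κ e t p hB hK hκ hk hs ht => ?_⟩
  have hB' : HB κ := hB.mono hκ
  have hL : ∑ q ∈ (PP κ p).filter (fun q => Cont e t (kk q)), JJ (t - kk q) (kk q) / q ≤
      TB κ (kk p) (fun _ t k => JJ t k) e t :=
    TP_le_TB hB' (fun _ t k => JJ t k) (fun _ _ _ => JN9b_JJ_nonneg _ _) e t p
  have hJ := JN9b_JJ_nonneg t (kk p)
  rw [JN9b_split]
  unfold Pot
  rcases Nat.lt_or_ge (6 * kk p) t with hf | hf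
  · have h3 := J_far (lo := κ) (e := e) (t := t) (k := kk p) (by omega) hf.le
    have h4 : 0 ≤ ∑ q ∈ (PP κ p).filter (fun q => Cont e t (kk q)),
        Gs (e + 1) (t - kk q) (kk q) / ((t - kk q : ℕ) : ℝ) ^ 3 / q :=
      sum_nonneg fun q _ =>
        div_nonneg (div_nonneg (Gs_nonneg _ _ _) (by positivity)) (by positivity)
    rw [Gs_zero hf, zero_div]
    linarith
  · have h3 := J_all (lo := κ) (e := e) (t := t) (k := kk p) (kk_pos p) hs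
    have h4 := JN9b_gain (e := e) (p := p) hB' ht
    have h5 : (Gs e t (kk p) + 1 / 100000) / (t : ℝ) ^ 3 ≤
        ∑ k' ∈ (Ico 1 (kk p)).filter (fun k' => 4 * t ≤ 25 * k' ∧ Cont e t k'),
          99 / 100 / (k' : ℝ) * (Gs (e + 1) (t - k') k' / ((t - k' : ℕ) : ℝ) ^ 3) := by
      by_cases he : Even e
      · exact h2 e t (kk p) he (by omega) (hs.2 he) hf
      · exact h1 e t (kk p) he (by omega) hs.1 hf
    have h6 : (Gs e t (kk p) + 1 / 100000) / (t : ℝ) ^ 3 =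
        Gs e t (kk p) / (t : ℝ) ^ 3 + 1 / 100000 * (1 / (t : ℝ) ^ 3) := by ring
    have h7 : 30 / (t : ℝ) ^ 3 = 30 * (1 / (t : ℝ) ^ 3) := by ring
    have h8 : 0 ≤ 1 / (t : ℝ) ^ 3 := by positivity
    linarith

end

end Pool.Agent.Jac
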