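import Pool.Agent.P.MP_45ff98_nt.JN5
import Pool.Agent.P.MP_45ff98_nt.JN8
import Pool.Agent.P.MP_45ff98_nt.JN9a
import Pool.Agent.P.MP_45ff98_nt.JN9b

/-! The gain beats the loss. -/

namespace Pool.Agent.Jac
open Finset

noncomputable section

theorem n9_JJ_nonneg (t k : ℕ) : 0 ≤ JJ t k := by
  unfold JJ; positivity

theorem n9_JJ_le (t k : ℕ) : JJ t k ≤ 1 / (t : ℝ) ^ 3 := by
  unfold JJ
  refine div_le_div_of_nonneg_right ?_ (by positivity)
  rw [Real.exp_le_one_iff, neg_div]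
  exact neg_nonpos.2 (by positivity)

theorem n9_psiS_mono {A B : ℝ} (h : A ≤ B) (G k0 t k : ℕ) : psiS A G k0 t k ≤ psiS B G k0 t k := by
  unfold psiS
  exact mul_le_mul_of_nonneg_right h (by positivity)

theorem n9_Pot_le (e t k : ℕ) : Pot e t k ≤ 2 / (t : ℝ) ^ 3 := by
  have h1 := n9_JJ_nonneg t k
  have h2 : Gs e t k / (t : ℝ) ^ 3 ≤ 2 / (t : ℝ) ^ 3 :=
    div_le_div_of_nonneg_right (Gs_le e t k) (by positivity)
  unfold Pot
  linarith

theorem n9_neg_Pot_le (e t k : ℕ) : -Pot e t k ≤ 1 / (t : ℝ) ^ 3 := by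
  have h1 := n9_JJ_nonneg t k
  have h2 : 0 ≤ Gs e t k / (t : ℝ) ^ 3 := div_nonneg (Gs_nonneg e t k) (by positivity)
  have h3 := n9_JJ_le t k
  unfold Pot
  linarith

/-- The gain dominates the sum over the children in boxes of index at least `κ`. -/
theorem n9_gam (P : Par) (e t p κ : ℕ) (h0 : P.k0 ≤ κ) (hA : ∀ k, κ ≤ k → AlwS P t k) :
    ∑ q ∈ (PP κ p).filter (fun q => Cont e t (kk q)), Gam P (e + 1) (t - kk q) q / q ≤
      Gam P e t p := by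
  rw [Gam_rec P e t p]
  have hs : (PP κ p).filter (fun q => Cont e t (kk q)) ⊆ PP P.k0 p :=
    (filter_subset _ _).trans (PP_mono h0 le_rfl)
  refine le_trans (le_of_eq (sum_congr rfl fun q hq => ?_))
    (sum_le_sum_of_subset_of_nonneg hs fun q _ _ => ?_)
  · obtain ⟨h1, h2⟩ := mem_filter.1 hq
    rw [if_pos (hA _ (mem_PP.1 h1).2.2), if_pos h2]
  · refine div_nonneg ?_ (Nat.cast_nonneg _)
    have := Gam_nonneg P (e + 1) (t - kk q) q
    split_ifs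
    · exact this
    · positivity
    · exact le_rfl
    · exact le_rfl

/-- Splitting the tree operator at the box `κ`. -/
theorem n9_split (k0 κ : ℕ) (h0 : k0 ≤ κ) (X : ℕ → ℕ → ℕ → ℝ) (e t p : ℕ) :
    TP k0 X e t p =
      ∑ q ∈ (PP κ p).filter (fun q => Cont e t (kk q)), X (e + 1) (t - kk q) q / q +
      ∑ q ∈ ((PP k0 p).filter (fun q => Cont e t (kk q))).filter (fun q => ¬ κ ≤ kk q),
        X (e + 1) (t - kk q) q / q := by
  have h : (PP κ p).filter (fun q => Cont e t (kk q)) =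
      ((PP k0 p).filter (fun q => Cont e t (kk q))).filter (fun q => κ ≤ kk q) := by
    ext q
    simp only [mem_filter, mem_PP]
    constructor
    · rintro ⟨⟨h1, h2, h3⟩, h4⟩
      exact ⟨⟨⟨h1, h2, h0.trans h3⟩, h4⟩, h3⟩
    · rintro ⟨⟨⟨h1, h2, -⟩, h4⟩, h3⟩
      exact ⟨⟨h1, h2, h3⟩, h4⟩
  rw [h, sum_filter_add_sum_filter_not, TP]

/-- The children in low boxes cost little. -/
theorem n9_low {k0 κ e t p : ℕ} (hB : HB k0) (h1000 : 1000 ≤ k0) (h0 : k0 ≤ κ) (hp : k0 ≤ kk p)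
    (hs : St e t (kk p)) (X : ℕ → ℕ → ℕ → ℝ) (A : ℝ) (hA : 0 ≤ A)
    (hX : ∀ e t p : ℕ, St e t (kk p) → k0 ≤ kk p → X e t p ≤ A * Sup k0 e t (kk p)) :
    ∑ q ∈ ((PP k0 p).filter (fun q => Cont e t (kk q))).filter (fun q => ¬ κ ≤ kk q),
        X (e + 1) (t - kk q) q / q ≤ A * Sup k0 e t (min (kk p) κ) := by
  have h1 : ∑ q ∈ ((PP k0 p).filter (fun q => Cont e t (kk q))).filter (fun q => ¬ κ ≤ kk q),
        X (e + 1) (t - kk q) q / q ≤
      A * ∑ q ∈ ((PP k0 p).filter (fun q => Cont e t (kk q))).filter (fun q => ¬ κ ≤ kk q),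
        Sup k0 (e + 1) (t - kk q) (kk q) / q := by
    rw [mul_sum]
    refine sum_le_sum fun q hq => ?_
    obtain ⟨h1, -⟩ := mem_filter.1 hq
    obtain ⟨h2, h3⟩ := mem_filter.1 h1
    obtain ⟨h4, -, h5⟩ := mem_PP.1 h2
    rw [← mul_div_assoc]
    exact div_le_div_of_nonneg_right (hX _ _ _ (hs.child (kk_mono h4.le) h3).1 h5)
      (Nat.cast_nonneg _)
  have h2 : ∑ q ∈ ((PP k0 p).filter (fun q => Cont e t (kk q))).filter (fun q => ¬ κ ≤ kk q),
        Sup k0 (e + 1) (t - kk q) (kk q) / q ≤ TB k0 (min (kk p) κ) (Sup k0) e t := by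
    refine box_upper hB _ _ (fun q hq => ?_) (fun k hk => (mem_Icc.1 (mem_filter.1 hk).1).1)
      (fun k => Sup k0 (e + 1) (t - k) k) fun k _ => Sup_nonneg _ _ _ _
    obtain ⟨h1, h6⟩ := mem_filter.1 hq
    obtain ⟨h2, h3⟩ := mem_filter.1 h1
    obtain ⟨h4, h7, h5⟩ := mem_PP.1 h2
    exact ⟨h7, mem_filter.2 ⟨mem_Icc.2 ⟨h5, le_min (kk_mono h4.le) (by omega)⟩, h3⟩⟩
  have h3 := sup_step (e := e) (t := t) h1000 (le_min hp h0) (hs.mono (min_le_left _ _))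
  have h4 := Sup_nonneg k0 e t (min (kk p) κ)
  refine h1.trans (mul_le_mul_of_nonneg_left ?_ hA)
  linarith

theorem num (cG C : ℝ) (hG : 0 < cG) (hC : 0 < C) (C2 : ℕ) (h2 : 11 ≤ C2) :
    ∃ (ρ Ks : ℕ) (CN : ℝ), ∀ K' : ℕ, 1 ≤ K' → ∃ CW0 : ℕ, ∀ (P : Par) (G : ℕ), HB P.k0 →
      Ks ≤ P.k0 → 1 ≤ G → G ≤ P.k0 → ρ * P.k0 ≤ P.kw → P.k1 = C2 * P.kw → P.kW = K' * P.k1 →
      CW0 ≤ P.CW → ∀ e t p : ℕ, St e t (kk p) → P.k1 ≤ kk p →
      UU C G P.k0 e t p - cG * Gam P e t p ≤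
        CN * (P.k1 : ℝ) ^ 2 / (t : ℝ) ^ 3 + Rr C e t (kk p) := by
  obtain ⟨c3, hc3, K3, hland⟩ := landing C2 h2
  obtain ⟨cR, c1, hcR, hc1, hloss⟩ := loss_bound
  obtain ⟨K4, hpot⟩ := pot_step
  obtain ⟨cg, hcg⟩ : ∃ cg : ℝ, cg = cG * c3 / 4 := ⟨_, rfl⟩
  have hcg0 : 0 < cg := by rw [hcg]; positivity
  have hA0 : 0 ≤ (cR + c1) * C := by positivity
  obtain ⟨ρ, hρ, hsm⟩ := small_loss ((cR + c1) * C) (1 / 100000000 * cg) hA0 (by positivity)
  refine ⟨ρ, max 1000 (max K3 K4), cg, fun K' hK' => ?_⟩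
  obtain ⟨CW0, hCW0, hsm⟩ := hsm K' hK'
  refine ⟨CW0, fun P G hB hKs hG1 hGk hρk hk1 hkW hCW => ?_⟩
  have h1000 : 1000 ≤ P.k0 := (le_max_left _ _).trans hKs
  have hK3 : K3 ≤ P.k0 := ((le_max_left _ _).trans (le_max_right _ _)).trans hKs
  have hK4 : K4 ≤ P.k0 := ((le_max_right _ _).trans (le_max_right _ _)).trans hKs
  have hkw2 : 2 * P.k0 ≤ P.kw := (Nat.mul_le_mul_right _ hρ).trans hρk
  have hw1 : P.kw ≤ P.k1 := by rw [hk1]; nlinarith
  have h1W : P.k1 ≤ P.kW := by rw [hkW]; nlinarith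
  have h01 : P.k0 ≤ P.k1 := by omega
  have hCW7 : 7 ≤ P.CW := hCW0.trans hCW
  have hX := hloss C G P.k0 hC.le hG1 hGk h1000 hB
  have hX2 : ∀ e t p : ℕ, St e t (kk p) → P.k0 ≤ kk p →
      XX C G P.k0 e t p ≤ (cR + c1) * C * Sup P.k0 e t (kk p) := fun e t p h1 h2 => by
    refine (hX e t p h1 h2).2.trans (mul_le_mul_of_nonneg_right ?_ (Sup_nonneg _ _ _ _))
    nlinarith
  have key : ∀ p e t : ℕ, St e t (kk p) → P.k1 ≤ kk p →
      cg * (P.k1 : ℝ) ^ 2 * Pot e t (kk p) ≤ cG * Gam P e t p - XX C G P.k0 e t p := by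
    intro p
    induction p using Nat.strong_induction_on with
    | _ p ih =>
    intro e t hs hp
    have hp0 : P.k0 ≤ kk p := h01.trans hp
    obtain ⟨s1, s2, s3, s4⟩ := hsm G P.k0 P.k1 e t (kk p) P.CW (by omega) hGk (hρk.trans hw1) hp
      hs.1 hCW
    have hkt : P.k1 ≤ t := hp.trans hs.1
    have hk1pos : (0 : ℝ) < P.k1 := by exact_mod_cast (by omega : 0 < P.k1)
    rcases le_or_gt t (7 * P.k1) with ht | ht
    · have g1 := hland P hB hkw2 (by omega) hk1 h1W hCW7 e t p hp hkt ht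
      have g2 := hX2 e t p hs hp0
      have g3 := n9_Pot_le e t (kk p)
      have hkwpos : (0 : ℝ) < P.kw := by exact_mod_cast (by omega : 0 < P.kw)
      have g4 : c3 / P.k1 ≤ c3 / P.kw :=
        div_le_div_of_nonneg_left hc3.le hkwpos (by exact_mod_cast hw1)
      have g5 : (2 : ℝ) / (t : ℝ) ^ 3 ≤ 2 / (P.k1 : ℝ) ^ 3 :=
        div_le_div_of_nonneg_left (by norm_num) (by positivity)
          (pow_le_pow_left₀ hk1pos.le (by exact_mod_cast hkt) 3)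
      have g6 : cg * (P.k1 : ℝ) ^ 2 * Pot e t (kk p) ≤ cg * (P.k1 : ℝ) ^ 2 * (2 / (P.k1 : ℝ) ^ 3) :=
        mul_le_mul_of_nonneg_left (g3.trans g5) (by positivity)
      have g7 : cg * (P.k1 : ℝ) ^ 2 * (2 / (P.k1 : ℝ) ^ 3) = 2 * (cg / P.k1) := by
        field_simp
      have g8 : cG * (c3 / P.k1) ≤ cG * Gam P e t p :=
        mul_le_mul_of_nonneg_left (g4.trans g1) hG.le
      have g9 : cG * (c3 / P.k1) = 4 * (cg / P.k1) := by rw [hcg]; ring
      have g10 : 1 / 100000000 * cg / P.k1 = 1 / 100000000 * (cg / P.k1) := by ring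
      have g11 : 0 ≤ cg / P.k1 := by positivity
      linarith
    · obtain ⟨κ, hκ1, hκt, hκA, hκS⟩ : ∃ κ : ℕ, P.k1 ≤ κ ∧ 25 * κ ≤ 4 * t ∧
          (∀ k, κ ≤ k → AlwS P t k) ∧ (cR + c1) * C * Sup P.k0 e t (min (kk p) κ) ≤
            1 / 100000000 * cg * (P.k1 : ℝ) ^ 2 * JJ t (kk p) := by
        rcases le_or_gt t (P.CW * P.kW) with hw | hw
        · refine ⟨P.k1, le_rfl, by omega, fun k hk => ⟨fun _ => hw, fun h => by omega⟩, ?_⟩
          rw [min_eq_right hp]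
          exact s3 ht
        · refine ⟨P.kW, h1W, ?_, fun k hk => ⟨fun h => by omega, fun h => by omega⟩, ?_⟩
          · have := Nat.mul_le_mul_right P.kW hCW7
            omega
          · rw [hkW] at hw ⊢
            exact s4 hw
      have h0κ : P.k0 ≤ κ := h01.trans hκ1
      have g1 := n9_gam P e t p κ h0κ hκA
      have g2 := (hX e t p hs hp0).1
      rw [n9_split P.k0 κ h0κ] at g2
      have g3 := n9_low (κ := κ) hB h1000 h0κ hp0 hs (XX C G P.k0) _ hA0 hX2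
      have g4 : psiS (cR * C) G P.k0 t (kk p) ≤ psiS ((cR + c1) * C) G P.k0 t (kk p) :=
        n9_psiS_mono (by nlinarith) _ _ _ _
      have g5 := hpot P.k0 κ e t p hB hK4 h0κ hp0 hs hκt
      have g6 : cg * (P.k1 : ℝ) ^ 2 * ∑ q ∈ (PP κ p).filter (fun q => Cont e t (kk q)),
            Pot (e + 1) (t - kk q) (kk q) / q ≤
          cG * ∑ q ∈ (PP κ p).filter (fun q => Cont e t (kk q)), Gam P (e + 1) (t - kk q) q / q -
          ∑ q ∈ (PP κ p).filter (fun q => Cont e t (kk q)),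
            XX C G P.k0 (e + 1) (t - kk q) q / q := by
        rw [mul_sum, mul_sum, ← sum_sub_distrib]
        refine sum_le_sum fun q hq => ?_
        obtain ⟨h1, h3⟩ := mem_filter.1 hq
        obtain ⟨h4, -, h5⟩ := mem_PP.1 h1
        have := ih q h4 (e + 1) (t - kk q) (hs.child (kk_mono h4.le) h3).1 (hκ1.trans h5)
        rw [← mul_div_assoc, ← mul_div_assoc, ← sub_div]
        exact div_le_div_of_nonneg_right this (Nat.cast_nonneg _)
      have g7 := mul_le_mul_of_nonneg_left g1 hG.le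
      have g8 := mul_le_mul_of_nonneg_left g5 (show 0 ≤ cg * (P.k1 : ℝ) ^ 2 by positivity)
      have g9 : cg * (P.k1 : ℝ) ^ 2 * (Pot e t (kk p) + 2 / 100000000 * JJ t (kk p)) =
          cg * (P.k1 : ℝ) ^ 2 * Pot e t (kk p) +
            2 * (1 / 100000000 * cg * (P.k1 : ℝ) ^ 2 * JJ t (kk p)) := by ring
      linarith
  intro e t p hs hp
  have g1 := key p e t hs hp
  have g2 := mul_le_mul_of_nonneg_left (n9_neg_Pot_le e t (kk p))
    (show 0 ≤ cg * (P.k1 : ℝ) ^ 2 by positivity)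
  have g3 : cg * (P.k1 : ℝ) ^ 2 * (1 / (t : ℝ) ^ 3) = cg * (P.k1 : ℝ) ^ 2 / (t : ℝ) ^ 3 := by ring
  unfold XX at g1
  linarith

end

end Pool.Agent.Jac
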