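import Pool.Agent.P.MP_45ff98_nt.JClaim
import Pool.Agent.P.MP_45ff98_nt.JMS
import Pool.Agent.P.MP_45ff98_nt.JN9
import Pool.Agent.P.MP_45ff98_nt.JA10

/-! The theorem for integer intervals. -/

namespace Pool.Agent.Jac
open Finset

noncomputable section

theorem jmain_big (B : ℕ) : ∃ l1 : ℕ, ∀ l, l1 ≤ l → (B * l) ^ 2 ≤ 2 ^ (l - 1) := by
  have h := (tendsto_pow_const_div_const_pow_of_one_lt 2 (one_lt_two (α := ℝ))).eventually
    (gt_mem_nhds (show (0 : ℝ) < 1 / (2 * (B : ℝ) ^ 2 + 1) by positivity))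
  obtain ⟨l1, h1⟩ := Filter.eventually_atTop.1 h
  refine ⟨l1 + 1, fun l hl => ?_⟩
  have h2 := h1 l (by omega)
  obtain ⟨m, rfl⟩ : ∃ m, l = m + 1 := ⟨l - 1, by omega⟩
  rw [div_lt_div_iff₀ (by positivity) (by positivity), one_mul, pow_succ 2 m] at h2
  have h3 : ((B : ℝ) * (m + 1 : ℕ)) ^ 2 ≤ 2 ^ m := by nlinarith [sq_nonneg ((m + 1 : ℕ) : ℝ)]
  rw [Nat.add_sub_cancel]
  exact_mod_cast h3

theorem jmain_rr {C : ℝ} (hC : 0 < C) {t k : ℕ} (hk : 1 ≤ k) (h1 : 2 * k ≤ t) (h2 : t ≤ 4 * k) :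
    Rr C 0 t k ≤ 218 * C / (t : ℝ) ^ 2 := by
  have k1 : (1 : ℝ) ≤ k := by exact_mod_cast hk
  have k2 : (k : ℝ) ≤ t := by exact_mod_cast (show k ≤ t by omega)
  have k3 : (t : ℝ) ≤ 4 * k := by exact_mod_cast h2
  have t1 : (1 : ℝ) ≤ t := k1.trans k2
  have k4 : (4 : ℝ) ^ k ≤ 2 ^ t := by
    rw [show (4 : ℝ) = 2 ^ 2 by norm_num, ← pow_mul]
    exact pow_le_pow_right₀ one_le_two h1
  have a1 : 2 * C * (k : ℝ) ^ 3 / (t : ℝ) ^ 7 ≤ 2 * C / (t : ℝ) ^ 2 := by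
    rw [div_le_div_iff₀ (by positivity) (by positivity)]
    have : (k : ℝ) ^ 3 ≤ (t : ℝ) ^ 5 :=
      (pow_le_pow_left₀ (by positivity) k2 3).trans (pow_le_pow_right₀ t1 (by norm_num))
    calc 2 * C * (k : ℝ) ^ 3 * (t : ℝ) ^ 2 ≤ 2 * C * (t : ℝ) ^ 5 * (t : ℝ) ^ 2 := by gcongr
      _ = _ := by ring
  have a2 : 54 * C * 4 ^ k / (2 ^ t * (t : ℝ) * k) ≤ 216 * C / (t : ℝ) ^ 2 := by
    rw [div_le_div_iff₀ (by positivity) (by positivity), sq]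
    calc 54 * C * 4 ^ k * ((t : ℝ) * t) ≤ 54 * C * 2 ^ t * ((t : ℝ) * (4 * k)) := by gcongr
      _ = _ := by ring
  rw [Rr, if_pos Even.zero, show 218 * C = 2 * C + 216 * C by ring, add_div]
  exact add_le_add a1 a2

theorem jmain_cap {m t l : ℕ} (hm : 2 ≤ m) (h1 : m ≤ t) (h2 : t ≤ 2 * 2 ^ l) :
    Cap (2 ^ m) (10 * l) ≤ 32 * Real.exp 20 / (t : ℝ) ^ 2 := by
  have hz : 3 ≤ 2 ^ m := le_trans (by norm_num) (Nat.pow_le_pow_right two_pos hm)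
  have t0 : (0 : ℝ) < t := by exact_mod_cast (show 0 < t by omega)
  have k1 : (m : ℝ) ≤ t := by exact_mod_cast h1
  have k2 : (t : ℝ) ≤ 2 * 2 ^ l := by exact_mod_cast h2
  have l2 : Real.log 2 ≤ 1 := by linarith [Real.log_two_lt_d9]
  have l0 : 0 ≤ Real.log 2 := Real.log_nonneg one_le_two
  have k3 : Real.log ((2 ^ m : ℕ) : ℝ) ≤ t := by
    rw [Nat.cast_pow, Real.log_pow, Nat.cast_ofNat]
    exact (mul_le_of_le_one_right (Nat.cast_nonneg m) l2).trans k1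
  have k4 : ((2 : ℝ) ^ l) ^ 5 ≤ Real.exp ((10 * l : ℕ) : ℝ) := by
    rw [← pow_mul, ← Real.exp_one_pow]
    exact (pow_le_pow_right₀ one_le_two (by omega)).trans
      (pow_le_pow_left₀ zero_le_two (by linarith [Real.add_one_le_exp 1]) _)
  refine (cap_le _ _ hz).trans ?_
  rw [Real.exp_neg, ← div_eq_mul_inv, div_le_div_iff₀ (by positivity) (by positivity)]
  have k5 : 0 ≤ Real.log ((2 ^ m : ℕ) : ℝ) := Real.log_natCast_nonneg _
  calc Real.exp 20 * Real.log ((2 ^ m : ℕ) : ℝ) ^ 3 * (t : ℝ) ^ 2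
      ≤ Real.exp 20 * (2 * 2 ^ l) ^ 3 * (2 * 2 ^ l) ^ 2 := by gcongr; exact k3.trans k2
    _ = 32 * Real.exp 20 * (2 ^ l) ^ 5 := by ring
    _ ≤ _ := by gcongr

/-- Dyadic form: `L = 2^l` is the size of `log y`. -/
theorem main_dyadic (A : ℕ) : ∃ l0 : ℕ, ∀ l : ℕ, l0 ≤ l → ∀ (N : ℤ) (y Y : ℕ), 2 ^ Y ≤ y →
    y ≤ 2 ^ (Y + 1) → 2 ^ (l - 1) ≤ Y → Y < 2 ^ l →
    (A : ℝ) * l / (Y : ℝ) ^ 2 ≤ (cntA N y 1 (2 ^ (Y / 2 + A * l + 2)) : ℝ) / y := by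
  obtain ⟨C, hC, hM⟩ := main_sieve
  obtain ⟨cG, C2, hG, h2, hcl⟩ := claimG
  obtain ⟨ρ, Ks, CN, hnum⟩ := num cG C hG hC C2 h2
  obtain ⟨aS, hcl⟩ := hcl (10 * A + 9) (40 * A + 49) (by omega)
  obtain ⟨K', hK', hcl⟩ := hcl (aS + ρ * (40 * A + 49)) (Nat.le_add_right _ _)
  obtain ⟨CW, hnum⟩ := hnum K' hK'
  obtain ⟨l0, hcl⟩ := hcl CW
  obtain ⟨kH, hH⟩ := exists_HB
  obtain ⟨l1, hl1⟩ := jmain_big (40 * A + 49 + C2 * (aS + ρ * (40 * A + 49)))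
  obtain ⟨l2, hl2⟩ := exists_nat_ge (|CN| + 218 * C + 64 * Real.exp 20 + 4)
  refine ⟨l0 + l1 + l2 + kH + Ks + 1, fun l hl N y Y y1 y2 y3 y4 => ?_⟩
  obtain ⟨k1, hk1⟩ : ∃ k1, k1 = C2 * ((aS + ρ * (40 * A + 49)) * l) := ⟨_, rfl⟩
  obtain ⟨u, hu⟩ : ∃ u, u = A * l := ⟨_, rfl⟩
  have e0 : (40 * A + 49) * l = 40 * u + 49 * l := by rw [hu]; ring
  have e1 : (10 * A + 9) * l = 10 * u + 9 * l := by rw [hu]; ring
  have b1 : (40 * u + 49 * l + k1) ^ 2 ≤ Y := by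
    refine le_trans (le_of_eq ?_) ((hl1 l (by omega)).trans y3)
    rw [hu, hk1]
    ring
  have b2 : 2 * (40 * u + 49 * l + k1) ≤ Y := by
    refine le_trans ?_ b1
    rw [sq]
    exact Nat.mul_le_mul_right _ (by omega)
  have b3 : k1 ^ 2 ≤ Y := (Nat.pow_le_pow_left (by omega) 2).trans b1
  rw [← hu]
  have hz : kk (2 ^ (Y / 2 + u + 2)) = Y / 2 + u + 3 := kk_two_pow (k := Y / 2 + u + 3) (by omega)
  obtain ⟨t, ht⟩ : ∃ t, t = 2 * (Y / 2 + u + 3 + (4 * u + l)) + 1 := ⟨_, rfl⟩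
  let P : Par := ⟨(40 * A + 49) * l, (aS + ρ * (40 * A + 49)) * l, k1, K' * k1, CW⟩
  have p0 : P.k0 = 40 * u + 49 * l := e0
  have hB : HB P.k0 := fun k hk => hH k (by omega)
  have y0 : 1 ≤ y := Nat.one_le_two_pow.trans y1
  have c1 : 2 ^ t ≤ 2 ^ ((10 * A + 9) * l) * y := by
    refine le_trans ?_ (Nat.mul_le_mul_left _ y1)
    rw [← pow_add]
    exact Nat.pow_le_pow_right two_pos (by omega)
  have st : St 0 t (kk (2 ^ (Y / 2 + u + 2))) := by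
    rw [hz]
    exact ⟨by omega, fun _ => by omega⟩
  have m1 := hM P N y (2 ^ (Y / 2 + u + 2)) (4 * u + l) t (10 * l) hB (by omega) (by omega)
    (Nat.pow_le_pow_right two_pos (by omega)) (by rw [hz, ht]) y0 (by
      refine (Nat.pow_le_pow_left c1 4).trans ?_
      rw [mul_pow, ← pow_mul]
      exact Nat.mul_le_mul_right _ (Nat.pow_le_pow_right two_pos (by omega)))
  have m2 := hcl l (by omega) P N y (2 ^ (Y / 2 + u + 2)) t rfl rfl hk1 rfl rfl hB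
    ((Nat.pow_le_pow_right two_pos y3).trans y1) (y2.trans (Nat.pow_le_pow_right two_pos y4))
    (y2.trans (Nat.pow_le_pow_right two_pos (by omega))) c1 st (by omega)
  have m3 := hnum P (10 * l + 3) hB (by omega) (by omega) (by omega)
    (by
      show ρ * ((40 * A + 49) * l) ≤ (aS + ρ * (40 * A + 49)) * l
      rw [← mul_assoc]
      exact Nat.mul_le_mul_right _ (Nat.le_add_left _ _))
    hk1 rfl le_rfl 0 t _ st (by show k1 ≤ _; omega)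
  have m4 := jmain_rr hC (kk_pos (2 ^ (Y / 2 + u + 2))) (st.2 Even.zero) (by omega)
  have m5 := jmain_cap (m := Y / 2 + u + 2) (t := t) (l := l) (by omega) (by omega) (by omega)
  have t0 : (0 : ℝ) < t := by exact_mod_cast (show 0 < t by omega)
  have Y0 : (0 : ℝ) < Y := by exact_mod_cast (show 0 < Y by omega)
  have t1 : (t : ℝ) ≤ 2 * Y := by exact_mod_cast (show t ≤ 2 * Y by omega)
  have t2 : (t : ℝ) ≤ 2 * 2 ^ l := by exact_mod_cast (show t ≤ 2 * 2 ^ l by omega)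
  have t3 : (k1 : ℝ) ^ 2 ≤ t := by exact_mod_cast (show k1 ^ 2 ≤ t by omega)
  have m6 : CN * (P.k1 : ℝ) ^ 2 / (t : ℝ) ^ 3 ≤ |CN| / (t : ℝ) ^ 2 := by
    rw [div_le_div_iff₀ (by positivity) (by positivity)]
    calc CN * (k1 : ℝ) ^ 2 * (t : ℝ) ^ 2 ≤ |CN| * t * (t : ℝ) ^ 2 := by
          gcongr
          exact le_abs_self _
      _ = _ := by ring
  have m7 : 1 / ((2 : ℝ) ^ l) ^ 4 ≤ 4 / (t : ℝ) ^ 2 := by
    rw [div_le_div_iff₀ (by positivity) (by positivity), one_mul]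
    calc (t : ℝ) ^ 2 ≤ (2 * 2 ^ l) ^ 2 := by gcongr
      _ = 4 * (2 ^ l) ^ 2 := by ring
      _ ≤ _ := mul_le_mul_of_nonneg_left
          (pow_le_pow_right₀ (one_le_pow₀ one_le_two) (by norm_num)) (by norm_num)
  have m8 : (A : ℝ) * l / (Y : ℝ) ^ 2 ≤ 4 * u / (t : ℝ) ^ 2 := by
    rw [div_le_div_iff₀ (by positivity) (by positivity), ← Nat.cast_mul, ← hu]
    calc (u : ℝ) * (t : ℝ) ^ 2 ≤ u * (2 * Y) ^ 2 := by gcongr
      _ = _ := by ring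
  have m9 : (|CN| + 218 * C + 64 * Real.exp 20 + 4) / (t : ℝ) ^ 2 ≤ l / (t : ℝ) ^ 2 :=
    div_le_div_of_nonneg_right (hl2.trans (by exact_mod_cast (show l2 ≤ l by omega)))
      (by positivity)
  rw [Nat.cast_add, Nat.cast_mul, Nat.cast_ofNat, add_div] at m1
  rw [add_div, add_div, add_div, show 64 * Real.exp 20 = 2 * (32 * Real.exp 20) by ring,
    mul_div_assoc 2] at m9
  linarith

theorem jmain_anti (N : ℤ) (y d : ℕ) {p p' : ℕ} (h : p ≤ p') : cntA N y d p' ≤ cntA N y d p :=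
  card_le_card fun i hi => by
    rw [mem_filter] at hi ⊢
    exact ⟨hi.1, hi.2.1, fun r hr => hi.2.2 r (hr.trans_le h)⟩

theorem main_int (A : ℕ) : ∃ y0 : ℕ, ∀ y : ℕ, y0 ≤ y → ∀ (N : ℤ) (z : ℕ),
    (z : ℝ) ≤ √y * Real.log y ^ A →
    A * y * Real.log (Real.log y) / Real.log y ^ 2 ≤ cntA N y 1 z := by
  obtain ⟨l0, h⟩ := main_dyadic (2 * A)
  refine ⟨2 ^ 2 ^ l0, fun y hy N z hz => ?_⟩
  have y0 : y ≠ 0 := Nat.one_le_iff_ne_zero.1 (Nat.one_le_two_pow.trans hy)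
  obtain ⟨Y, hY⟩ : ∃ Y, Y = Nat.log 2 y := ⟨_, rfl⟩
  have a1 : 2 ^ l0 ≤ Y := hY ▸ Nat.le_log_of_pow_le one_lt_two hy
  have Y0 : Y ≠ 0 := Nat.one_le_iff_ne_zero.1 (Nat.one_le_two_pow.trans a1)
  have a2 : 2 ^ Y ≤ y := hY ▸ Nat.pow_log_le_self 2 y0
  have a3 : y < 2 ^ (Y + 1) := hY ▸ Nat.lt_pow_succ_log_self one_lt_two y
  obtain ⟨l, hl⟩ : ∃ l, l = Nat.log 2 Y + 1 := ⟨_, rfl⟩
  have a4 : Y < 2 ^ l := hl ▸ Nat.lt_pow_succ_log_self one_lt_two Y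
  have h1 := h l (hl ▸ (Nat.le_log_of_pow_le one_lt_two a1).trans (Nat.le_succ _)) N y Y a2 a3.le
    (hl ▸ Nat.pow_log_le_self 2 Y0) a4
  have yp : (0 : ℝ) < y := by positivity
  have Yp : (0 : ℝ) < Y := by positivity
  have l2 := Real.log_two_lt_d9
  have l2' := Real.log_two_gt_d9
  have b1 : Y * Real.log 2 ≤ Real.log y := by
    rw [← Real.log_pow]
    exact Real.log_le_log (by positivity) (by exact_mod_cast a2)
  have b0 : 0 < Real.log y := lt_of_lt_of_le (by positivity) b1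
  have b2 : Real.log y ≤ 2 ^ l := by
    have h2 : Real.log y ≤ ((Y + 1 : ℕ) : ℝ) * Real.log 2 := by
      rw [← Real.log_pow]
      exact Real.log_le_log yp (by exact_mod_cast a3.le)
    exact h2.trans ((mul_le_of_le_one_right (Nat.cast_nonneg _) (by linarith)).trans
      (by exact_mod_cast a4))
  have b3 : Real.log (Real.log y) ≤ l * Real.log 2 := by
    rw [← Real.log_pow]
    exact Real.log_le_log b0 b2
  have b4 : √(y : ℝ) ≤ 2 ^ (Y / 2 + 1) := by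
    rw [Real.sqrt_le_left (by positivity), ← pow_mul]
    exact_mod_cast a3.le.trans (Nat.pow_le_pow_right two_pos (by omega))
  have b5 : z ≤ 2 ^ (Y / 2 + 2 * A * l + 2) := by
    have h2 : (z : ℝ) ≤ 2 ^ (Y / 2 + 1) * (2 ^ l) ^ A := hz.trans (by gcongr)
    rw [← pow_mul, ← pow_add] at h2
    have h3 : z ≤ 2 ^ (Y / 2 + 1 + l * A) := by exact_mod_cast h2
    refine h3.trans (Nat.pow_le_pow_right two_pos ?_)
    rw [mul_assoc, mul_comm l A]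
    omega
  rw [le_div_iff₀ yp] at h1
  refine le_trans ?_ (h1.trans (Nat.cast_le.2 (jmain_anti N y 1 b5)))
  calc A * y * Real.log (Real.log y) / Real.log y ^ 2
      ≤ A * y * (l * Real.log 2) / (Y * Real.log 2) ^ 2 := by gcongr
    _ = A * l / (Y : ℝ) ^ 2 * y * (1 / Real.log 2) := by field_simp
    _ ≤ A * l / (Y : ℝ) ^ 2 * y * 2 := by
        gcongr
        rw [div_le_iff₀ (by positivity)]
        linarith
    _ = _ := by push_cast; ring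

end

end Pool.Agent.Jac
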