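import Pool.Agent.P.MP_45ff98_nt.JBase

/-! Mertens type bounds. -/

namespace Pool.Agent.Jac
open Finset

noncomputable section

theorem jmert_lower (S : Finset ℕ) (g : ℕ → ℝ) (h : ∀ r ∈ S, 0 ≤ g r ∧ g r ≤ 1 / 2) :
    Real.exp (-(∑ r ∈ S, g r + 2 * ∑ r ∈ S, g r ^ 2)) ≤ ∏ r ∈ S, (1 - g r) := by
  rw [mul_sum, ← sum_add_distrib, ← sum_neg_distrib, Real.exp_sum]
  refine prod_le_prod (fun r _ => (Real.exp_pos _).le) fun r hr => ?_
  have h1 := Pool.Agent.Lib.Sieve.inv_one_sub_le_exp (h r hr).1 (h r hr).2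
  have h2 : 0 < 1 - g r := by linarith [(h r hr).2]
  rw [Real.exp_neg]
  exact inv_le_of_inv_le₀ h2 h1

theorem jmert_upper (S : Finset ℕ) (g : ℕ → ℝ) (h : ∀ r ∈ S, g r ≤ 1) :
    ∏ r ∈ S, (1 - g r) ≤ Real.exp (-∑ r ∈ S, g r) := by
  rw [← sum_neg_distrib, Real.exp_sum]
  refine prod_le_prod (fun r hr => by linarith [h r hr]) fun r _ => ?_
  linarith [Real.add_one_le_exp (-g r)]

theorem mertens_prod : ∃ c C : ℝ, 0 < c ∧ 0 < C ∧ ∀ p : ℕ, 2 ≤ p →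
    c / kk p ≤ ∏ r ∈ PP 0 p, (1 - 1 / (r : ℝ)) ∧ ∏ r ∈ PP 0 p, (1 - 1 / (r : ℝ)) ≤ C / kk p := by
  refine ⟨Real.exp (-9), 4 * Real.exp 3, Real.exp_pos _, by positivity, fun p hp => ?_⟩
  have hl := Pool.Agent.Lib.Sieve.one_half_le_log hp
  have hl0 : 0 < Real.log p := by linarith
  have hp0 : (2 : ℝ) ≤ p := by exact_mod_cast hp
  have hk0 : (0 : ℝ) < kk p := by exact_mod_cast kk_pos p
  have hP : ∀ r ∈ PP 0 p, r.Prime := fun r hr => (mem_PP.1 hr).2.1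
  have hg : ∀ r ∈ PP 0 p, 0 ≤ 1 / (r : ℝ) ∧ 1 / (r : ℝ) ≤ 1 / 2 := fun r hr =>
    ⟨by positivity, one_div_le_one_div_of_le two_pos (by exact_mod_cast (hP r hr).two_le)⟩
  have l2 := Real.log_two_gt_d9
  have l2' := Real.log_two_lt_d9
  constructor
  · have h1 : ∑ r ∈ PP 0 p, 1 / (r : ℝ) ≤ Real.log (Real.log p) + 7 := by
      refine le_trans (sum_le_sum_of_subset_of_nonneg (fun r hr => ?_) fun r _ _ => by positivity)
        (Pool.Agent.Lib.Sieve.sum_inv_primes_le hp)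
      exact Nat.mem_primesLE.2 ⟨(mem_PP.1 hr).1.le, hP r hr⟩
    have h2 := Pool.Agent.Lib.Sieve.sum_inv_sq_primes_le _ hP
    have h3 : Real.log p ≤ kk p := by
      have h4 : (p : ℝ) ≤ 2 ^ kk p := by exact_mod_cast (lt_two_pow_kk p).le
      have h5 := Real.log_le_log (by linarith) h4
      rw [Real.log_pow] at h5
      nlinarith
    refine le_trans ?_ (jmert_lower _ (fun r => 1 / (r : ℝ)) hg)
    calc Real.exp (-9) / kk p ≤ Real.exp (-9) / Real.log p :=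
          div_le_div_of_nonneg_left (Real.exp_pos _).le hl0 h3
      _ = Real.exp (-9 - Real.log (Real.log p)) := by rw [Real.exp_sub, Real.exp_log hl0]
      _ ≤ _ := Real.exp_le_exp.2 (by linarith)
  · have h1 : Real.log (Real.log p) - 3 ≤ ∑ r ∈ PP 0 p, 1 / (r : ℝ) := by
      have h2 := Pool.Agent.Lib.Sieve.le_sum_inv_primes hp
      have h3 : ∑ r ∈ Nat.primesLE p, 1 / (r : ℝ) ≤ ∑ r ∈ insert p (PP 0 p), 1 / (r : ℝ) := by
        refine sum_le_sum_of_subset_of_nonneg (fun r hr => ?_) fun r _ _ => by positivity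
        obtain ⟨h4, h5⟩ := Nat.mem_primesLE.1 hr
        rcases h4.eq_or_lt with h6 | h6
        · exact mem_insert.2 (Or.inl h6)
        · exact mem_insert_of_mem (mem_PP.2 ⟨h6, h5, Nat.zero_le _⟩)
      rw [sum_insert fun h => lt_irrefl _ (mem_PP.1 h).1] at h3
      have h4 : 1 / (p : ℝ) ≤ 1 := by
        rw [div_le_one (by linarith)]
        linarith
      linarith
    have h3 : (kk p : ℝ) ≤ 4 * Real.log p := by
      have h4 : (2 : ℝ) ^ kk p ≤ 2 * p := by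
        exact_mod_cast two_pow_kk_le' (show p ≠ 0 by omega)
      have h5 := Real.log_le_log (by positivity) (h4.trans (show 2 * (p : ℝ) ≤ p ^ 2 by nlinarith))
      rw [Real.log_pow, Real.log_pow] at h5
      push_cast at h5
      nlinarith
    refine le_trans (jmert_upper _ (fun r => 1 / (r : ℝ)) fun r hr => by linarith [(hg r hr).2]) ?_
    calc Real.exp (-∑ r ∈ PP 0 p, 1 / (r : ℝ)) ≤ Real.exp (3 - Real.log (Real.log p)) :=
          Real.exp_le_exp.2 (by linarith)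
      _ = 4 * Real.exp 3 / (4 * Real.log p) := by
          rw [Real.exp_sub, Real.exp_log hl0, mul_div_mul_left _ _ (by norm_num)]
      _ ≤ _ := div_le_div_of_nonneg_left (by positivity) hk0 h3

theorem jmert_sum (S : Finset ℕ) {z w ρ : ℝ} (hw : 1 ≤ w) (hρ : 1 ≤ ρ)
    (hS : ∀ r ∈ S, r.Prime ∧ w ≤ r ∧ (r : ℝ) < z) (hz : Real.log z ≤ ρ * Real.log w) :
    ∑ r ∈ S, 1 / (r : ℝ) ≤ Real.log ρ + 11 := by
  have hρ0 := Real.log_nonneg hρ
  rcases S.eq_empty_or_nonempty with rfl | ⟨r₀, h₀⟩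
  · rw [sum_empty]
    linarith
  obtain ⟨a1, a2, a3⟩ := hS r₀ h₀
  have hZ : ∀ r ∈ S, r ≤ ⌊z⌋₊ := fun r hr => Nat.le_floor (hS r hr).2.2.le
  have hZ2 : 2 ≤ ⌊z⌋₊ := a1.two_le.trans (hZ r₀ h₀)
  have hZ2' : (2 : ℝ) ≤ ⌊z⌋₊ := by exact_mod_cast hZ2
  have hz0 : 0 ≤ z := le_trans (Nat.cast_nonneg _) a3.le
  have hl := Pool.Agent.Lib.Sieve.one_half_le_log hZ2
  have h1 : Real.log ⌊z⌋₊ ≤ Real.log z := Real.log_le_log (by linarith) (Nat.floor_le hz0)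
  have h2 := Pool.Agent.Lib.Sieve.sum_inv_primes_le hZ2
  have l2 := Real.log_two_lt_d9
  by_cases hw2 : w < 2
  · have h3 : Real.log w ≤ 1 := (Real.log_le_log (by linarith) hw2.le).trans (by linarith)
    have h4 : Real.log ⌊z⌋₊ ≤ ρ := by nlinarith
    have h5 := Real.log_le_log (by linarith) h4
    have h6 : ∑ r ∈ S, 1 / (r : ℝ) ≤ ∑ r ∈ Nat.primesLE ⌊z⌋₊, 1 / (r : ℝ) :=
      sum_le_sum_of_subset_of_nonneg (fun r hr => Nat.mem_primesLE.2 ⟨hZ r hr, (hS r hr).1⟩)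
        fun r _ _ => by positivity
    linarith
  · have hw2' : 2 ≤ w := not_lt.1 hw2
    have hW2 : 2 ≤ ⌊w⌋₊ := Nat.le_floor (by exact_mod_cast hw2')
    have hW2' : (2 : ℝ) ≤ ⌊w⌋₊ := by exact_mod_cast hW2
    have hWw : (⌊w⌋₊ : ℝ) ≤ w := Nat.floor_le (by linarith)
    have hWZ : ⌊w⌋₊ ≤ ⌊z⌋₊ := Nat.floor_mono (a2.trans a3.le)
    have hlW := Pool.Agent.Lib.Sieve.one_half_le_log hW2
    have h3 := Pool.Agent.Lib.Sieve.le_sum_inv_primes hW2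
    have h4 : Real.log w ≤ 2 * Real.log ⌊w⌋₊ := by
      have h5 := Nat.lt_floor_add_one w
      have h6 := Real.log_le_log (by linarith) (show w ≤ (⌊w⌋₊ : ℝ) ^ 2 by nlinarith)
      rw [Real.log_pow] at h6
      exact_mod_cast h6
    have h5 : Real.log ⌊z⌋₊ ≤ ρ * (2 * Real.log ⌊w⌋₊) :=
      h1.trans (hz.trans (mul_le_mul_of_nonneg_left h4 (by linarith)))
    have h6 := Real.log_le_log (by linarith) h5
    rw [Real.log_mul (by linarith) (by linarith), Real.log_mul (by norm_num) (by linarith)] at h6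
    have hsub : Nat.primesLE ⌊w⌋₊ ⊆ Nat.primesLE ⌊z⌋₊ := fun r hr =>
      Nat.mem_primesLE.2 ⟨(Nat.mem_primesLE.1 hr).1.trans hWZ, (Nat.mem_primesLE.1 hr).2⟩
    have h7 := sum_sdiff (f := fun r : ℕ => 1 / (r : ℝ)) hsub
    have h8 : ∑ r ∈ S, 1 / (r : ℝ) ≤
        ∑ r ∈ insert ⌊w⌋₊ (Nat.primesLE ⌊z⌋₊ \ Nat.primesLE ⌊w⌋₊), 1 / (r : ℝ) := by
      refine sum_le_sum_of_subset_of_nonneg (fun r hr => ?_) fun r _ _ => by positivity
      have h9 : ⌊w⌋₊ ≤ r := by exact_mod_cast hWw.trans (hS r hr).2.1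
      rcases h9.eq_or_lt with h10 | h10
      · exact mem_insert.2 (Or.inl h10.symm)
      · exact mem_insert_of_mem (mem_sdiff.2 ⟨Nat.mem_primesLE.2 ⟨hZ r hr, (hS r hr).1⟩,
          fun h => absurd (Nat.mem_primesLE.1 h).1 (not_le.2 h10)⟩)
    have h9 : ∑ r ∈ insert ⌊w⌋₊ (Nat.primesLE ⌊z⌋₊ \ Nat.primesLE ⌊w⌋₊), 1 / (r : ℝ) ≤
        1 + ∑ r ∈ Nat.primesLE ⌊z⌋₊ \ Nat.primesLE ⌊w⌋₊, 1 / (r : ℝ) := by
      by_cases h : ⌊w⌋₊ ∈ Nat.primesLE ⌊z⌋₊ \ Nat.primesLE ⌊w⌋₊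
      · rw [insert_eq_of_mem h]
        linarith
      · rw [sum_insert h]
        have h10 : 1 / (⌊w⌋₊ : ℝ) ≤ 1 := by
          rw [div_le_one (by linarith)]
          linarith
        linarith
    linarith

theorem dim_one : ∃ K : ℝ, 1 ≤ K ∧ ∀ (S : Finset ℕ) (g : ℕ → ℝ) (z w ρ : ℝ), 1 ≤ w → 1 ≤ ρ →
    (∀ r ∈ S, r.Prime ∧ w ≤ r ∧ (r : ℝ) < z) → Dens S g → Real.log z ≤ ρ * Real.log w →
    ∑ r ∈ S, g r ≤ Real.log (K * ρ) ∧ 1 ≤ K * ρ * ∏ r ∈ S, (1 - g r) := by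
  refine ⟨Real.exp 16, Real.one_le_exp (by norm_num), fun S g z w ρ hw hρ hS hg hz => ?_⟩
  have h1 := jmert_sum S hw hρ hS hz
  have h2 := Pool.Agent.Lib.Sieve.sum_inv_sq_le S le_rfl fun r hr => (hS r hr).1.one_lt
  rw [Nat.cast_one, div_one] at h2
  have hr2 : ∀ r ∈ S, (2 : ℝ) ≤ r := fun r hr => by exact_mod_cast (hS r hr).1.two_le
  have h3 : ∑ r ∈ S, g r ≤ ∑ r ∈ S, 1 / (r : ℝ) + ∑ r ∈ S, 1 / ((r : ℝ) * ((r : ℝ) - 1)) := by
    rw [← sum_add_distrib]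
    refine sum_le_sum fun r hr => (hg r hr).2.2.trans (le_of_eq ?_)
    have a := hr2 r hr
    have b : (r : ℝ) - 1 ≠ 0 := by linarith
    have c : (r : ℝ) ≠ 0 := by linarith
    field_simp
    ring
  have h4 : ∑ r ∈ S, g r ^ 2 ≤ 2 * ∑ r ∈ S, 1 / ((r : ℝ) * ((r : ℝ) - 1)) := by
    rw [mul_sum]
    refine sum_le_sum fun r hr => (pow_le_pow_left₀ (hg r hr).1 (hg r hr).2.2 2).trans ?_
    have a := hr2 r hr
    have b : 0 < (r : ℝ) - 1 := by linarith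
    rw [div_pow, one_pow, mul_one_div, div_le_div_iff₀ (by positivity) (by positivity)]
    nlinarith
  have hρ0 : 0 < ρ := by linarith
  have h5 : Real.log (Real.exp 16 * ρ) = 16 + Real.log ρ := by
    rw [Real.log_mul (Real.exp_pos _).ne' hρ0.ne', Real.log_exp]
  refine ⟨by linarith, ?_⟩
  have h6 := jmert_lower S g fun r hr => ⟨(hg r hr).1, (hg r hr).2.1⟩
  have h7 : Real.exp (-(16 + Real.log ρ)) ≤ ∏ r ∈ S, (1 - g r) :=
    le_trans (Real.exp_le_exp.2 (by linarith)) h6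
  have h8 : Real.exp 16 * ρ * Real.exp (-(16 + Real.log ρ)) = 1 := by
    rw [Real.exp_neg, Real.exp_add, Real.exp_log hρ0]
    exact mul_inv_cancel₀ (by positivity)
  exact h8.ge.trans (mul_le_mul_of_nonneg_left h7 (by positivity))

end

end Pool.Agent.Jac
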