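import Pool.Agent.P.MP_45ff98_nt.JBase

/-! A sum that behaves like an integral. -/

namespace Pool.Agent.Jac
open Finset

noncomputable section

private theorem exp_step (c x : ℝ) (hx : 0 < x) (h : 2 * (x + 1) ≤ c) :
    Real.exp (-c / x) / x ^ 2 ≤ Real.exp (-c / (x + 1)) / c - Real.exp (-c / x) / c := by
  have hc : 0 < c := by linarith
  set u := c / (x * (x + 1)) with hu
  have hu0 : 0 ≤ u := by positivity
  have h1 : -c / (x + 1) = -c / x + u := by
    rw [hu]; field_simp; ring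
  have h2 : 1 + u + u ^ 2 / 2 ≤ Real.exp u := Real.quadratic_le_exp_of_nonneg hu0
  have h3 : 1 / x ^ 2 ≤ (u + u ^ 2 / 2) / c := by
    have e1 : (u + u ^ 2 / 2) / c = 1 / (x * (x + 1)) + c / (2 * (x * (x + 1)) ^ 2) := by
      rw [hu]; field_simp
    have e2 : 1 / x ^ 2 = 1 / (x * (x + 1)) + 2 * (x + 1) / (2 * (x * (x + 1)) ^ 2) := by
      field_simp
    rw [e1, e2]
    gcongr
  have h4 : (u + u ^ 2 / 2) / c ≤ (Real.exp u - 1) / c := by
    gcongr; linarith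
  rw [h1, Real.exp_add]
  have h5 : 0 < Real.exp (-c / x) := Real.exp_pos _
  calc Real.exp (-c / x) / x ^ 2 = Real.exp (-c / x) * (1 / x ^ 2) := by ring
    _ ≤ Real.exp (-c / x) * ((Real.exp u - 1) / c) :=
        mul_le_mul_of_nonneg_left (h3.trans h4) h5.le
    _ = _ := by ring

private theorem exp_last (c m x : ℝ) (hx : 0 < x) (hxm : x ≤ m) (h : 2 * m ≤ c) :
    Real.exp (-c / x) / x ^ 2 ≤ Real.exp (-c / m) / m ^ 2 := by
  have hm : 0 < m := by linarith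
  set v := (m - x) / x with hv
  have hv0 : 0 ≤ v := div_nonneg (by linarith) hx.le
  have h1 : 2 * v ≤ c / x - c / m := by
    have e1 : c / x - c / m = c * ((m - x) / (x * m)) := by field_simp
    have e2 : 2 * v = 2 * m * ((m - x) / (x * m)) := by rw [hv]; field_simp
    rw [e1, e2]
    have : 0 ≤ (m - x) / (x * m) := div_nonneg (by linarith) (by positivity)
    gcongr
  have h2 : (m / x) ^ 2 ≤ Real.exp (c / x - c / m) := by
    have e1 : m / x = v + 1 := by rw [hv]; field_simp; ring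
    calc (m / x) ^ 2 = (v + 1) ^ 2 := by rw [e1]
      _ ≤ (Real.exp v) ^ 2 := by gcongr; exact Real.add_one_le_exp v
      _ = Real.exp (2 * v) := by rw [← Real.exp_nat_mul]; norm_num
      _ ≤ _ := Real.exp_le_exp.2 h1
  have h3 : Real.exp (-c / m) = Real.exp (-c / x) * Real.exp (c / x - c / m) := by
    rw [← Real.exp_add]; congr 1; ring
  rw [h3]
  have h5 : 0 < Real.exp (-c / x) := Real.exp_pos _
  calc Real.exp (-c / x) / x ^ 2 = Real.exp (-c / x) * (m / x) ^ 2 / m ^ 2 := by field_simp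
    _ ≤ _ := by gcongr

theorem exp_sum (c m : ℝ) (hm : 0 < m) (h : 2 * m ≤ c) (K : Finset ℕ)
    (hK : ∀ k ∈ K, 1 ≤ k ∧ (k : ℝ) ≤ m) :
    ∑ k ∈ K, Real.exp (-c / k) / (k : ℝ) ^ 2 ≤ Real.exp (-c / m) * (1 / m ^ 2 + 1 / c) := by
  have hc : 0 < c := by linarith
  set n := ⌊m⌋₊ with hn
  have hnm : (n : ℝ) ≤ m := Nat.floor_le hm.le
  have hsub : K ⊆ Icc 1 n := fun k hk =>
    mem_Icc.2 ⟨(hK k hk).1, Nat.le_floor (hK k hk).2⟩
  refine (sum_le_sum_of_subset_of_nonneg hsub fun k _ _ => by positivity).trans ?_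
  rcases Nat.eq_zero_or_pos n with h0 | h0
  · rw [h0]; simp only [zero_lt_one, Icc_eq_empty_of_lt, sum_empty]; positivity
  have key : ∀ j : ℕ, 1 ≤ j → j ≤ n →
      ∑ k ∈ Ico 1 j, Real.exp (-c / k) / (k : ℝ) ^ 2 ≤ Real.exp (-c / j) / c := by
    intro j hj
    induction j, hj using Nat.le_induction with
    | base => intro _; simp only [Ico_self, sum_empty]; positivity
    | succ j hj ih =>
      intro hjn
      rw [sum_Ico_succ_top hj]
      have h1 := ih (by omega)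
      have hj0 : (0 : ℝ) < j := by exact_mod_cast hj
      have hj1 : (j : ℝ) + 1 ≤ n := by exact_mod_cast hjn
      have h2 := exp_step c j hj0 (by linarith)
      push_cast
      linarith
  have hn0 : (0 : ℝ) < n := by exact_mod_cast h0
  rw [← Ico_add_one_right_eq_Icc, sum_Ico_succ_top h0]
  have h1 := key n h0 le_rfl
  have h2 := exp_last c m n hn0 hnm h
  have h3 : Real.exp (-c / n) / c ≤ Real.exp (-c / m) / c := by
    have : c / m ≤ c / n := div_le_div_of_nonneg_left hc.le hn0 hnm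
    refine div_le_div_of_nonneg_right (Real.exp_le_exp.2 ?_) hc.le
    rw [neg_div, neg_div]; linarith
  calc _ ≤ Real.exp (-c / m) / c + Real.exp (-c / m) / m ^ 2 := by linarith
    _ = _ := by ring

private theorem sum_drop (lo k : ℕ) (p : ℕ → Prop) [DecidablePred p] (f g : ℕ → ℝ)
    (h0 : f 0 = 0) (hg : ∀ j, 0 ≤ g j) (hfg : ∀ j, 1 ≤ j → j ≤ k → p j → f j ≤ g j) :
    ∑ j ∈ (Icc lo k).filter p, f j ≤ ∑ j ∈ Icc 1 k, g j := by
  rw [← sum_filter_add_sum_filter_not _ (fun j => j = 0)]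
  have h1 : ∑ j ∈ ((Icc lo k).filter p).filter (fun j => j = 0), f j = 0 :=
    sum_eq_zero fun j hj => by rw [(mem_filter.1 hj).2, h0]
  rw [h1, zero_add]
  have hs : ((Icc lo k).filter p).filter (fun j => ¬ j = 0) ⊆ Icc 1 k := fun j hj => by
    have h2 := mem_filter.1 hj
    have h3 := mem_Icc.1 (mem_filter.1 h2.1).1
    exact mem_Icc.2 ⟨by omega, h3.2⟩
  refine (sum_le_sum fun j hj => ?_).trans (sum_le_sum_of_subset_of_nonneg hs fun j _ _ => hg j)
  have h2 := mem_Icc.1 (hs hj)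
  exact hfg j h2.1 h2.2 (mem_filter.1 (mem_filter.1 hj).1).2

theorem J_far {lo e t k : ℕ} (hk : 1000 ≤ k) (ht : 6 * k ≤ t) :
    TB lo k (fun _ t k => JJ t k) e t ≤ 4 / 5 * JJ t k := by
  have hk' : (1000 : ℝ) ≤ k := by exact_mod_cast hk
  have ht' : 6 * (k : ℝ) ≤ t := by exact_mod_cast ht
  have ht0 : (0 : ℝ) < t := by linarith
  have hk0 : (0 : ℝ) < k := by linarith
  set A : ℝ := 101 / 100 * Real.exp 1 * (6 / 5) ^ 3 / (t : ℝ) ^ 3 * k with hA
  have hA0 : 0 ≤ A := by positivity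
  unfold TB
  refine (sum_drop lo k _ _ (fun j => A * (Real.exp (-(t : ℝ) / j) / (j : ℝ) ^ 2)) (by simp)
    (fun j => by positivity) fun j hj hjk _ => ?_).trans ?_
  · have hj0 : (0 : ℝ) < j := by exact_mod_cast hj
    have hjk' : (j : ℝ) ≤ k := by exact_mod_cast hjk
    have hc : ((t - j : ℕ) : ℝ) = t - j := Nat.cast_sub (by omega)
    simp only [JJ, hc]
    have e1 : Real.exp (-((t : ℝ) - j) / j) = Real.exp 1 * Real.exp (-(t : ℝ) / j) := by
      rw [← Real.exp_add]; congr 1; field_simp; ring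
    have h1 : 1 / ((t : ℝ) - j) ^ 3 ≤ (6 / 5) ^ 3 / (t : ℝ) ^ 3 := by
      have : (6 / 5 : ℝ) ^ 3 / (t : ℝ) ^ 3 = 1 / (5 / 6 * (t : ℝ)) ^ 3 := by field_simp
      rw [this]
      gcongr
      linarith
    have h2 : 1 / (j : ℝ) ≤ k / (j : ℝ) ^ 2 := by
      rw [div_le_div_iff₀ hj0 (by positivity)]; nlinarith
    rw [e1]
    calc 101 / 100 / (j : ℝ) * (Real.exp 1 * Real.exp (-(t : ℝ) / j) / ((t : ℝ) - j) ^ 3)
        = 101 / 100 * Real.exp 1 * Real.exp (-(t : ℝ) / j) * (1 / (j : ℝ)) *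
            (1 / ((t : ℝ) - j) ^ 3) := by ring
      _ ≤ 101 / 100 * Real.exp 1 * Real.exp (-(t : ℝ) / j) * (k / (j : ℝ) ^ 2) *
            ((6 / 5) ^ 3 / (t : ℝ) ^ 3) := by
          have : (0 : ℝ) < t - j := by linarith
          gcongr
      _ = _ := by rw [hA]; ring
  · rw [← mul_sum]
    have h1 := exp_sum t k hk0 (by linarith) (Icc 1 k) fun j hj =>
      ⟨(mem_Icc.1 hj).1, by exact_mod_cast (mem_Icc.1 hj).2⟩
    have h2 : (k : ℝ) * (1 / (k : ℝ) ^ 2 + 1 / t) ≤ 1 / 1000 + 1 / 6 := by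
      have e1 : (k : ℝ) * (1 / (k : ℝ) ^ 2 + 1 / t) = 1 / k + k / t := by field_simp
      rw [e1]
      have h3 : 1 / (k : ℝ) ≤ 1 / 1000 := one_div_le_one_div_of_le (by norm_num) hk'
      have h4 : (k : ℝ) / t ≤ 1 / 6 := by rw [div_le_iff₀ ht0]; linarith
      linarith
    have h3 : Real.exp 1 ≤ 2.7182818286 := Real.exp_one_lt_d9.le
    have h4 : 0 < Real.exp (-(t : ℝ) / k) / (t : ℝ) ^ 3 := by positivity
    calc _ ≤ A * (Real.exp (-(t : ℝ) / k) * (1 / (k : ℝ) ^ 2 + 1 / t)) := by gcongr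
      _ = 101 / 100 * Real.exp 1 * (6 / 5) ^ 3 * ((k : ℝ) * (1 / (k : ℝ) ^ 2 + 1 / t)) *
            (Real.exp (-(t : ℝ) / k) / (t : ℝ) ^ 3) := by rw [hA]; ring
      _ ≤ 101 / 100 * 2.7182818286 * (6 / 5) ^ 3 * (1 / 1000 + 1 / 6) *
            (Real.exp (-(t : ℝ) / k) / (t : ℝ) ^ 3) := by gcongr
      _ ≤ 4 / 5 * (Real.exp (-(t : ℝ) / k) / (t : ℝ) ^ 3) := by gcongr; norm_num
      _ = _ := by rw [JJ]

theorem J_all {lo e t k : ℕ} (hk : 1 ≤ k) (hs : St e t k) :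
    TB lo k (fun _ t k => JJ t k) e t ≤ 30 / (t : ℝ) ^ 3 := by
  have hkt : k ≤ t := hs.1
  have hkt' : (k : ℝ) ≤ t := by exact_mod_cast hkt
  have ht0 : (0 : ℝ) < t := by exact_mod_cast (by omega : 0 < t)
  unfold TB
  refine (sum_drop lo k _ _ (fun _ => 30 / (t : ℝ) ^ 4) (by simp)
    (fun j => by positivity) fun j hj hjk hc => ?_).trans ?_
  · have h2 := (hs.child hjk hc).2
    have hj0 : (0 : ℝ) < j := by exact_mod_cast hj
    have h2' : 2 * (j : ℝ) ≤ t := by exact_mod_cast h2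
    have hc : ((t - j : ℕ) : ℝ) = t - j := Nat.cast_sub (by omega)
    simp only [JJ, hc]
    have h3 : Real.exp (-((t : ℝ) - j) / j) ≤ j / t := by
      have h4 := Real.add_one_le_exp (((t : ℝ) - j) / j)
      have e1 : ((t : ℝ) - j) / j + 1 = t / j := by field_simp; ring
      rw [e1] at h4
      rw [neg_div, Real.exp_neg, ← inv_div (t : ℝ) j]
      exact inv_anti₀ (by positivity) h4
    have h1 : 1 / ((t : ℝ) - j) ^ 3 ≤ 8 / (t : ℝ) ^ 3 := by
      have : (8 : ℝ) / (t : ℝ) ^ 3 = 1 / (1 / 2 * (t : ℝ)) ^ 3 := by field_simp; norm_num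
      rw [this]
      gcongr
      linarith
    calc 101 / 100 / (j : ℝ) * (Real.exp (-((t : ℝ) - j) / j) / ((t : ℝ) - j) ^ 3)
        = 101 / 100 / (j : ℝ) * Real.exp (-((t : ℝ) - j) / j) * (1 / ((t : ℝ) - j) ^ 3) := by
          ring
      _ ≤ 101 / 100 / (j : ℝ) * (j / t) * (8 / (t : ℝ) ^ 3) := by
          have : (0 : ℝ) < t - j := by linarith
          gcongr
      _ = 808 / 100 / (t : ℝ) ^ 4 := by field_simp; norm_num
      _ ≤ _ := by gcongr; norm_num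
  · rw [sum_const, Nat.card_Icc, nsmul_eq_mul, Nat.add_sub_cancel]
    calc (k : ℝ) * (30 / (t : ℝ) ^ 4) ≤ t * (30 / (t : ℝ) ^ 4) := by gcongr
      _ = _ := by field_simp

end

end Pool.Agent.Jac
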