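import Pool.Agent.P.MP_45ff98_nt.JBase

/-! The explicit part of the loss, two pieces. -/

namespace Pool.Agent.Jac
open Finset

noncomputable section

theorem JN1_sq_sum (k : ℕ) : ∑ j ∈ Icc 1 k, (j : ℝ) ^ 2 ≤ ((k : ℝ) + 1) ^ 3 / 3 := by
  induction k with
  | zero => simp
  | succ n ih =>
    rw [Finset.sum_Icc_succ_top (by omega)]
    push_cast
    have : (0 : ℝ) ≤ n := Nat.cast_nonneg n
    nlinarith

theorem JN1_four_sum (k : ℕ) (hk : 1 ≤ k) :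
    ∑ j ∈ Icc 1 k, (4 : ℝ) ^ j / j ≤ 2 * 4 ^ k / k := by
  induction k, hk using Nat.le_induction with
  | base => norm_num
  | succ n hn ih =>
    rw [Finset.sum_Icc_succ_top (by omega)]
    push_cast
    have h1 : (1 : ℝ) ≤ n := by exact_mod_cast hn
    have h4 : (0 : ℝ) < 4 ^ n := by positivity
    have h2 : 2 * (4 : ℝ) ^ n / n ≤ 4 ^ (n + 1) / (n + 1) := by
      rw [div_le_div_iff₀ (by positivity) (by positivity), pow_succ]
      nlinarith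
    have h3 : 2 * (4 : ℝ) ^ (n + 1) / (n + 1) = 4 ^ (n + 1) / (n + 1) + 4 ^ (n + 1) / (n + 1) := by
      ring
    linarith

theorem JN1_term {t j : ℕ} {a : ℝ} (hj : 1 ≤ j) (hjt : j ≤ t) (ha : 0 < a) (ht : 0 < (t : ℝ))
    (h : a * t ≤ (t : ℝ) - j) :
    101 / 100 / (j : ℝ) * (2 * (j : ℝ) ^ 3 / ((t - j : ℕ) : ℝ) ^ 7) ≤
      101 / 50 / (a ^ 7 * (t : ℝ) ^ 7) * (j : ℝ) ^ 2 := by
  have hj' : (0 : ℝ) < j := by exact_mod_cast hj
  rw [Nat.cast_sub hjt]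
  have h1 : (a * t) ^ 7 ≤ ((t : ℝ) - j) ^ 7 := pow_le_pow_left₀ (by positivity) h 7
  have h2 : 2 * (j : ℝ) ^ 3 / ((t : ℝ) - j) ^ 7 ≤ 2 * (j : ℝ) ^ 3 / (a * t) ^ 7 :=
    div_le_div_of_nonneg_left (by positivity) (by positivity) h1
  calc 101 / 100 / (j : ℝ) * (2 * (j : ℝ) ^ 3 / ((t : ℝ) - j) ^ 7)
      ≤ 101 / 100 / (j : ℝ) * (2 * (j : ℝ) ^ 3 / (a * t) ^ 7) :=
        mul_le_mul_of_nonneg_left h2 (by positivity)
    _ = 101 / 50 / (a ^ 7 * (t : ℝ) ^ 7) * (j : ℝ) ^ 2 := by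
        field_simp
        ring

theorem JN1_sum {k0 e t k : ℕ} {a : ℝ} (h0 : 100 ≤ k0) (hk : k0 ≤ k) (hs : St e t k) (ha : 0 < a)
    (h : ∀ j : ℕ, j ≤ k → 2 * j ≤ t → a * t ≤ (t : ℝ) - j) :
    ∑ k' ∈ (Icc k0 k).filter (Cont e t),
        101 / 100 / (k' : ℝ) * (2 * (k' : ℝ) ^ 3 / ((t - k' : ℕ) : ℝ) ^ 7) ≤
      101 / 50 / (a ^ 7 * (t : ℝ) ^ 7) * (3435 / 10000 * (k : ℝ) ^ 3) := by
  have hkt : k ≤ t := hs.1
  have ht : 0 < (t : ℝ) := by exact_mod_cast (by omega : 0 < t)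
  have hk100 : (100 : ℝ) ≤ k := by exact_mod_cast (h0.trans hk)
  calc ∑ k' ∈ (Icc k0 k).filter (Cont e t),
        101 / 100 / (k' : ℝ) * (2 * (k' : ℝ) ^ 3 / ((t - k' : ℕ) : ℝ) ^ 7)
      ≤ ∑ k' ∈ (Icc k0 k).filter (Cont e t),
          101 / 50 / (a ^ 7 * (t : ℝ) ^ 7) * (k' : ℝ) ^ 2 := by
        refine Finset.sum_le_sum fun j hj => ?_
        rw [mem_filter, mem_Icc] at hj
        have h2 := (hs.child hj.1.2 hj.2).2
        exact JN1_term (by omega) (by omega) ha ht (h j hj.1.2 h2)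
    _ ≤ ∑ k' ∈ Icc 1 k, 101 / 50 / (a ^ 7 * (t : ℝ) ^ 7) * (k' : ℝ) ^ 2 := by
        refine Finset.sum_le_sum_of_subset_of_nonneg ?_ fun _ _ _ => by positivity
        intro j hj
        rw [mem_filter, mem_Icc] at hj
        rw [mem_Icc]
        omega
    _ ≤ 101 / 50 / (a ^ 7 * (t : ℝ) ^ 7) * (3435 / 10000 * (k : ℝ) ^ 3) := by
        rw [← Finset.mul_sum]
        refine mul_le_mul_of_nonneg_left ((JN1_sq_sum k).trans ?_) (by positivity)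
        have h1 : (k : ℝ) + 1 ≤ 101 / 100 * k := by linarith
        have h2 : ((k : ℝ) + 1) ^ 3 ≤ (101 / 100 * k) ^ 3 := pow_le_pow_left₀ (by positivity) h1 3
        have h3 : (0 : ℝ) ≤ (k : ℝ) ^ 3 := by positivity
        nlinarith

theorem conv_seven : ∃ c : ℝ, 0 ≤ c ∧ ∀ k0 e t k : ℕ, 100 ≤ k0 → k0 ≤ k → St e t k →
    1 / (t : ℝ) ^ 7 + ∑ k' ∈ (Icc k0 k).filter (Cont e t),
        101 / 100 / (k' : ℝ) * (2 * (k' : ℝ) ^ 3 / ((t - k' : ℕ) : ℝ) ^ 7) ≤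
      2 * (k : ℝ) ^ 3 / (t : ℝ) ^ 7 + c / (t : ℝ) ^ 3 * Real.exp (-(5 / 4) * t / k) := by
  refine ⟨300 * Real.exp 25, by positivity, fun k0 e t k h0 hk hs => ?_⟩
  have hkt : k ≤ t := hs.1
  have ht1 : (1 : ℝ) ≤ t := by exact_mod_cast (by omega : 1 ≤ t)
  have ht : 0 < (t : ℝ) := by linarith
  have hk100 : (100 : ℝ) ≤ k := by exact_mod_cast (h0.trans hk)
  have hkt' : (k : ℝ) ≤ t := by exact_mod_cast hkt
  have hk3 : (1 : ℝ) ≤ (k : ℝ) ^ 3 := one_le_pow₀ (by linarith)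
  have h7 : 0 < (t : ℝ) ^ 7 := by positivity
  have hone : 1 / (t : ℝ) ^ 7 ≤ (k : ℝ) ^ 3 / (t : ℝ) ^ 7 :=
    div_le_div_of_nonneg_right hk3 h7.le
  have hq : 0 ≤ (k : ℝ) ^ 3 / (t : ℝ) ^ 7 := by positivity
  have htwo : 2 * (k : ℝ) ^ 3 / (t : ℝ) ^ 7 = 2 * ((k : ℝ) ^ 3 / (t : ℝ) ^ 7) := by ring
  by_cases hc : 20 * k ≤ t
  · have hc' : 20 * (k : ℝ) ≤ t := by exact_mod_cast hc
    have h1 := JN1_sum (a := 19 / 20) h0 hk hs (by norm_num) fun j hj _ => by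
      have : (j : ℝ) ≤ k := by exact_mod_cast hj
      linarith
    have h2 : 101 / 50 / ((19 / 20 : ℝ) ^ 7 * (t : ℝ) ^ 7) * (3435 / 10000 * (k : ℝ) ^ 3) =
        (101 / 50 / (19 / 20 : ℝ) ^ 7 * (3435 / 10000)) * ((k : ℝ) ^ 3 / (t : ℝ) ^ 7) := by
      field_simp
    have h3 : (101 / 50 / (19 / 20 : ℝ) ^ 7 * (3435 / 10000)) ≤ 1 := by norm_num
    have h4 := mul_le_mul_of_nonneg_right h3 hq
    have h5 : 0 ≤ 300 * Real.exp 25 / (t : ℝ) ^ 3 * Real.exp (-(5 / 4) * t / k) := by positivity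
    linarith
  · have hc' : (t : ℝ) ≤ 20 * k := by exact_mod_cast (by omega : t ≤ 20 * k)
    have h1 := JN1_sum (a := 1 / 2) h0 hk hs (by norm_num) fun j _ hj => by
      have : 2 * (j : ℝ) ≤ t := by exact_mod_cast hj
      linarith
    have h2 : 101 / 50 / ((1 / 2 : ℝ) ^ 7 * (t : ℝ) ^ 7) * (3435 / 10000 * (k : ℝ) ^ 3) =
        (101 / 50 / (1 / 2 : ℝ) ^ 7 * (3435 / 10000)) * ((k : ℝ) ^ 3 / (t : ℝ) ^ 7) := by
      field_simp
    have h3 : (101 / 50 / (1 / 2 : ℝ) ^ 7 * (3435 / 10000)) ≤ 300 := by norm_num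
    have h4 := mul_le_mul_of_nonneg_right h3 hq
    have h5 : (k : ℝ) ^ 3 / (t : ℝ) ^ 7 ≤ 1 / (t : ℝ) ^ 3 := by
      rw [div_le_div_iff₀ h7 (by positivity)]
      have a1 : (k : ℝ) ^ 3 ≤ (t : ℝ) ^ 3 := pow_le_pow_left₀ (by positivity) hkt' 3
      have a2 : (t : ℝ) ^ 3 ≤ (t : ℝ) ^ 4 := pow_le_pow_right₀ ht1 (by norm_num)
      calc (k : ℝ) ^ 3 * (t : ℝ) ^ 3 ≤ (t : ℝ) ^ 4 * (t : ℝ) ^ 3 :=
            mul_le_mul_of_nonneg_right (a1.trans a2) (by positivity)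
        _ = 1 * (t : ℝ) ^ 7 := by ring
    have h6 : 1 ≤ Real.exp 25 * Real.exp (-(5 / 4) * t / k) := by
      rw [← Real.exp_add]
      refine Real.one_le_exp ?_
      have : (-25 : ℝ) ≤ -(5 / 4) * t / k := by
        rw [le_div_iff₀ (by linarith)]
        linarith
      linarith
    have h8 : 300 * (1 / (t : ℝ) ^ 3) ≤
        300 * Real.exp 25 / (t : ℝ) ^ 3 * Real.exp (-(5 / 4) * t / k) := by
      have : 300 * Real.exp 25 / (t : ℝ) ^ 3 * Real.exp (-(5 / 4) * t / k) =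
          300 * (1 / (t : ℝ) ^ 3) * (Real.exp 25 * Real.exp (-(5 / 4) * t / k)) := by ring
      rw [this]
      exact le_mul_of_one_le_right (by positivity) h6
    linarith

theorem conv_even {k0 t k : ℕ} (h0 : 1 ≤ k0) (hk : k0 ≤ k) (ht : 2 * k ≤ t) :
    ∑ k' ∈ Icc k0 k, 101 / 100 / (k' : ℝ) * (13 * 2 ^ k' / (2 ^ (t - k') * ((t - k' : ℕ) : ℝ))) ≤
      54 * 4 ^ k / (2 ^ t * t * k) := by
  have ht0 : 0 < (t : ℝ) := by exact_mod_cast (by omega : 0 < t)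
  have hk0 : 0 < (k : ℝ) := by exact_mod_cast (by omega : 0 < k)
  calc ∑ k' ∈ Icc k0 k,
        101 / 100 / (k' : ℝ) * (13 * 2 ^ k' / (2 ^ (t - k') * ((t - k' : ℕ) : ℝ)))
      ≤ ∑ k' ∈ Icc k0 k, 27 / (2 ^ t * (t : ℝ)) * ((4 : ℝ) ^ k' / k') := by
        refine Finset.sum_le_sum fun j hj => ?_
        rw [mem_Icc] at hj
        have hj0 : 0 < (j : ℝ) := by exact_mod_cast (by omega : 0 < j)
        have hjt : j ≤ t := by omega
        have h2 : 2 * (j : ℝ) ≤ t := by exact_mod_cast (by omega : 2 * j ≤ t)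
        have hp : (2 : ℝ) ^ t = 2 ^ (t - j) * 2 ^ j := by
          rw [← pow_add, Nat.sub_add_cancel hjt]
        have h4 : (4 : ℝ) ^ j = 2 ^ j * 2 ^ j := by
          rw [← mul_pow]; norm_num
        rw [Nat.cast_sub hjt, hp, h4]
        have hd : 0 < (t : ℝ) - j := by linarith
        have e1 : 101 / 100 / (j : ℝ) * (13 * 2 ^ j / (2 ^ (t - j) * ((t : ℝ) - j))) =
            (2 ^ j / (2 ^ (t - j) * j)) * (1313 / 100 / ((t : ℝ) - j)) := by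
          field_simp
          ring
        have e2 : 27 / (2 ^ (t - j) * 2 ^ j * (t : ℝ)) * (2 ^ j * 2 ^ j / j) =
            (2 ^ j / (2 ^ (t - j) * j)) * (27 / (t : ℝ)) := by
          field_simp
        rw [e1, e2]
        refine mul_le_mul_of_nonneg_left ?_ (by positivity)
        rw [div_le_div_iff₀ hd ht0]
        linarith
    _ ≤ ∑ k' ∈ Icc 1 k, 27 / (2 ^ t * (t : ℝ)) * ((4 : ℝ) ^ k' / k') :=
        Finset.sum_le_sum_of_subset_of_nonneg (Finset.Icc_subset_Icc_left h0)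
          fun _ _ _ => by positivity
    _ ≤ 27 / (2 ^ t * (t : ℝ)) * (2 * 4 ^ k / k) := by
        rw [← Finset.mul_sum]
        exact mul_le_mul_of_nonneg_left (JN1_four_sum k (h0.trans hk)) (by positivity)
    _ = 54 * 4 ^ k / (2 ^ t * t * k) := by
        field_simp
        ring

end

end Pool.Agent.Jac
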