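import Pool.Agent.P.MP_45ff98_nt.JBase

/-! The explicit part of the loss, odd nodes. -/

namespace Pool.Agent.Jac
open Finset

noncomputable section

theorem jn1o_geom (k : ℕ) : ∑ i ∈ range (k + 1), (2 : ℝ) ^ i ≤ 2 * 2 ^ k := by
  induction k with
  | zero => simp
  | succ n ih => rw [sum_range_succ, pow_succ]; linarith

theorem jn1o_eight (m : ℕ) (hm : 1 ≤ m) :
    ∑ i ∈ Icc 1 m, (8 : ℝ) ^ i / (i : ℝ) ^ 2 ≤ 2 * (8 ^ m / (m : ℝ) ^ 2) := by
  induction m, hm using Nat.le_induction with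
  | base => simp
  | succ n hn ih =>
    rw [sum_Icc_succ_top (by omega)]
    have h0 : (1 : ℝ) ≤ n := by exact_mod_cast hn
    have h1 : 2 * ((8 : ℝ) ^ n / (n : ℝ) ^ 2) ≤ 8 ^ (n + 1) / ((n + 1 : ℕ) : ℝ) ^ 2 := by
      push_cast
      rw [← mul_div_assoc, div_le_div_iff₀ (by positivity) (by positivity), pow_succ 8 n]
      have h2 : (0 : ℝ) < 8 ^ n := by positivity
      have h3 : ((n : ℝ) + 1) ^ 2 ≤ 4 * (n : ℝ) ^ 2 := by nlinarith
      nlinarith
    linarith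

theorem jn1o_key (m t k : ℕ) (hm : 100 ≤ m) (h3 : 3 * m ≤ t) (hk : m ≤ k) :
    (8 : ℝ) ^ m / (m : ℝ) ^ 2 / 2 ^ t ≤
      Real.exp 150 / (t : ℝ) ^ 2 * Real.exp (-(5 / 4) * t / k) := by
  have hm0 : (100 : ℝ) ≤ m := by exact_mod_cast hm
  have hk0 : (m : ℝ) ≤ k := by exact_mod_cast hk
  have ht0 : 3 * (m : ℝ) ≤ t := by exact_mod_cast h3
  have hmp : (0 : ℝ) < m := by linarith
  have htp : (0 : ℝ) < t := by linarith
  set s : ℝ := t / m with hs
  have hs3 : 3 ≤ s := by rw [hs, le_div_iff₀ hmp]; linarith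
  have hts : (t : ℝ) = s * m := by rw [hs]; field_simp
  have hl : (1 / 2 : ℝ) ≤ Real.log 2 := by linarith [Real.log_two_gt_d9]
  have h1 : (8 : ℝ) ^ m / 2 ^ t = Real.exp (-(Real.log 2 * (t - 3 * m))) := by
    have e2 : (2 : ℝ) ^ t = Real.exp (Real.log 2 * t) := by
      rw [mul_comm, Real.exp_nat_mul, Real.exp_log (by norm_num)]
    have e8 : (8 : ℝ) ^ m = Real.exp (Real.log 2 * (3 * m)) := by
      have : (3 * (m : ℝ)) = ((3 * m : ℕ) : ℝ) := by push_cast; ring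
      rw [this, mul_comm, Real.exp_nat_mul, Real.exp_log (by norm_num), pow_mul]
      norm_num
    rw [e2, e8, ← Real.exp_sub]
    congr 1; ring
  have h2 : s ^ 2 ≤ Real.exp (2 * s) := by
    have h4 : s ≤ Real.exp s := by linarith [Real.add_one_le_exp s]
    have h5 : Real.exp (2 * s) = Real.exp s ^ 2 := by
      rw [← Real.exp_nat_mul]; norm_num
    rw [h5]
    exact pow_le_pow_left₀ (by linarith) h4 2
  have h4 : -(5 / 4) * s ≤ -(5 / 4) * t / k := by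
    have h5 : (t : ℝ) / k ≤ s := div_le_div_of_nonneg_left htp.le hmp hk0
    rw [mul_div_assoc]; linarith
  have h5 : -(Real.log 2 * (t - 3 * m)) + 2 * s ≤ 150 + -(5 / 4) * t / k := by
    have h6 : 100 * (s - 3) ≤ t - 3 * m := by rw [hts]; nlinarith
    have h7 : 1 / 2 * ((t : ℝ) - 3 * m) ≤ Real.log 2 * (t - 3 * m) :=
      mul_le_mul_of_nonneg_right hl (by linarith)
    linarith
  have h6 : (8 : ℝ) ^ m / (m : ℝ) ^ 2 / 2 ^ t = (8 : ℝ) ^ m / 2 ^ t * s ^ 2 / (t : ℝ) ^ 2 := by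
    rw [hs]; field_simp
  rw [h6, h1, div_mul_eq_mul_div, ← Real.exp_add]
  refine div_le_div_of_nonneg_right ?_ (by positivity)
  calc Real.exp (-(Real.log 2 * (t - 3 * m))) * s ^ 2
      ≤ Real.exp (-(Real.log 2 * (t - 3 * m))) * Real.exp (2 * s) :=
        mul_le_mul_of_nonneg_left h2 (Real.exp_pos _).le
    _ ≤ _ := by rw [← Real.exp_add]; exact Real.exp_le_exp.2 h5

theorem conv_bd : ∃ c : ℝ, 0 ≤ c ∧ ∀ G k0 t k : ℕ, 1 ≤ G → 1 ≤ k0 → k0 ≤ k → k ≤ t →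
    ∑ k' ∈ (Icc k0 k).filter (fun k' => ¬ 3 * k' ≤ t), 101 / 100 / (k' : ℝ) * bd 1 G (t - k') k' ≤
      13 * 2 ^ k / (2 ^ t * t) + c * (G : ℝ) ^ 2 / (t : ℝ) ^ 3 * Real.exp (-(5 / 4) * t / k) := by
  refine ⟨28 * Real.exp (15 / 4), by positivity, fun G k0 t k hG hk0 hk hkt => ?_⟩
  by_cases h : t < 3 * k
  swap
  · have he : (Icc k0 k).filter (fun k' => ¬ 3 * k' ≤ t) = ∅ :=
      filter_eq_empty_iff.2 fun x hx => by have := (mem_Icc.1 hx).2; omega
    rw [he, sum_empty]; positivity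
  have htp : (0 : ℝ) < t := by exact_mod_cast (by omega : 0 < t)
  have hkp : (0 : ℝ) < k := by exact_mod_cast (by omega : 0 < k)
  set S := (Icc k0 k).filter (fun k' => ¬ 3 * k' ≤ t) with hS
  have hterm : ∀ j ∈ S, 101 / 100 / (j : ℝ) * bd 1 G (t - j) j ≤
      4 / (2 ^ t * t) * 2 ^ j + if 3 * j ≤ t + G then 28 * (G : ℝ) / (t : ℝ) ^ 3 else 0 := by
    intro j hj
    obtain ⟨h1, h2⟩ := mem_filter.1 hj
    obtain ⟨h3, h4⟩ := mem_Icc.1 h1
    have hjp : (0 : ℝ) < j := by exact_mod_cast (by omega : 0 < j)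
    have hj3 : (t : ℝ) ≤ 3 * j := by exact_mod_cast (by omega : t ≤ 3 * j)
    have hpow : (2 : ℝ) ^ t = 2 ^ (t - j) * 2 ^ j := by
      rw [← pow_add]; congr 1; omega
    rw [bd, one_mul, mul_add]
    refine add_le_add ?_ ?_
    · have h5 : 101 / 100 / (j : ℝ) ≤ 4 / t := by
        rw [div_le_div_iff₀ hjp htp]; linarith
      have h6 : 4 / ((2 : ℝ) ^ t * t) * 2 ^ j = 4 / t * (1 / 2 ^ (t - j)) := by
        rw [hpow]; field_simp
      rw [h6]
      exact mul_le_mul_of_nonneg_right h5 (by positivity)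
    · by_cases h5 : 3 * j ≤ t + G
      · rw [if_pos h5, if_pos (by omega)]
        have h6 : (t : ℝ) ^ 3 ≤ (3 * j) ^ 3 := pow_le_pow_left₀ htp.le hj3 3
        have h7 : 101 / 100 / (j : ℝ) * (G / (j : ℝ) ^ 2) = 101 / 100 * G / (j : ℝ) ^ 3 := by
          field_simp
        rw [h7, div_le_div_iff₀ (by positivity) (by positivity)]
        have h8 : (0 : ℝ) ≤ G := by positivity
        have h9 : (0 : ℝ) ≤ (j : ℝ) ^ 3 := by positivity
        nlinarith [mul_le_mul_of_nonneg_left h6 h8, mul_nonneg h8 h9]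
      · rw [if_neg h5, if_neg (by omega)]; simp
  refine (sum_le_sum hterm).trans ?_
  rw [sum_add_distrib, ← mul_sum]
  refine add_le_add ?_ ?_
  · have h1 : ∑ j ∈ S, (2 : ℝ) ^ j ≤ 2 * 2 ^ k :=
      (sum_le_sum_of_subset_of_nonneg (fun x hx => by
        have := (mem_Icc.1 (mem_filter.1 hx).1).2
        exact mem_range.2 (by omega)) fun _ _ _ => by positivity).trans (jn1o_geom k)
    calc 4 / ((2 : ℝ) ^ t * t) * ∑ j ∈ S, (2 : ℝ) ^ j ≤ 4 / ((2 : ℝ) ^ t * t) * (2 * 2 ^ k) :=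
          mul_le_mul_of_nonneg_left h1 (by positivity)
      _ = 8 * 2 ^ k / (2 ^ t * t) := by ring
      _ ≤ _ := by gcongr; norm_num
  · rw [← sum_filter, sum_const, nsmul_eq_mul]
    have h1 : (S.filter (fun j => 3 * j ≤ t + G)).card ≤ G := by
      have h2 := card_le_card_of_injOn (s := S.filter (fun j => 3 * j ≤ t + G))
        (t := Ioc t (t + G)) (fun j => 3 * j)
        (fun j hj => by
          have h3 := mem_filter.1 (mem_coe.1 hj)
          have h4 := (mem_filter.1 h3.1).2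
          exact mem_coe.2 (mem_Ioc.2 ⟨not_le.1 h4, h3.2⟩))
        (fun a _ b _ hab => by simp only at hab; omega)
      simpa using h2
    have h2 : ((S.filter (fun j => 3 * j ≤ t + G)).card : ℝ) ≤ G := by exact_mod_cast h1
    have h3 : 1 ≤ Real.exp (15 / 4) * Real.exp (-(5 / 4) * t / k) := by
      rw [← Real.exp_add]
      apply Real.one_le_exp
      have h4 : (t : ℝ) / k ≤ 3 := by
        rw [div_le_iff₀ hkp]; exact_mod_cast h.le
      rw [mul_div_assoc]; linarith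
    calc _ ≤ (G : ℝ) * (28 * (G : ℝ) / (t : ℝ) ^ 3) :=
          mul_le_mul_of_nonneg_right h2 (by positivity)
      _ = 28 * (G : ℝ) ^ 2 / (t : ℝ) ^ 3 * 1 := by ring
      _ ≤ 28 * (G : ℝ) ^ 2 / (t : ℝ) ^ 3 *
          (Real.exp (15 / 4) * Real.exp (-(5 / 4) * t / k)) :=
          mul_le_mul_of_nonneg_left h3 (by positivity)
      _ = _ := by ring

theorem conv_odd : ∃ c : ℝ, 0 ≤ c ∧ ∀ k0 t k : ℕ, 100 ≤ k0 → k0 ≤ k → k ≤ t →
    ∑ k' ∈ (Icc k0 k).filter (fun k' => 3 * k' ≤ t),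
        101 / 100 / (k' : ℝ) * (54 * 4 ^ k' / (2 ^ (t - k') * ((t - k' : ℕ) : ℝ) * k')) ≤
      c / (t : ℝ) ^ 3 * Real.exp (-(5 / 4) * t / k) := by
  refine ⟨164 * Real.exp 150, by positivity, fun k0 t k hk0 hk hkt => ?_⟩
  set S := (Icc k0 k).filter (fun k' => 3 * k' ≤ t) with hS
  by_cases h : 3 * k0 ≤ t
  swap
  · have he : S = ∅ :=
      filter_eq_empty_iff.2 fun x hx => by have := (mem_Icc.1 hx).1; omega
    rw [he, sum_empty]; positivity
  have htp : (0 : ℝ) < t := by exact_mod_cast (by omega : 0 < t)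
  set m := min k (t / 3) with hm
  have hm1 : 100 ≤ m := by omega
  have hm2 : 3 * m ≤ t := by omega
  have hm3 : m ≤ k := by omega
  have hterm : ∀ j ∈ S,
      101 / 100 / (j : ℝ) * (54 * 4 ^ j / (2 ^ (t - j) * ((t - j : ℕ) : ℝ) * j)) ≤
      82 / (2 ^ t * t) * (8 ^ j / (j : ℝ) ^ 2) := by
    intro j hj
    obtain ⟨h1, h2⟩ := mem_filter.1 hj
    obtain ⟨h3, h4⟩ := mem_Icc.1 h1
    have hjp : (0 : ℝ) < j := by exact_mod_cast (by omega : 0 < j)
    have hj3 : 3 * (j : ℝ) ≤ t := by exact_mod_cast h2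
    have hpow : (2 : ℝ) ^ t = 2 ^ (t - j) * 2 ^ j := by
      rw [← pow_add]; congr 1; omega
    have h8 : (8 : ℝ) ^ j = 4 ^ j * 2 ^ j := by rw [← mul_pow]; norm_num
    have hc : ((t - j : ℕ) : ℝ) = t - j := Nat.cast_sub (by omega)
    have hd : (0 : ℝ) < t - j := by linarith
    have h5 : 101 / 100 * 54 / ((t : ℝ) - j) ≤ 82 / t := by
      rw [div_le_div_iff₀ hd htp]; linarith
    have h6 : 101 / 100 / (j : ℝ) * (54 * 4 ^ j / (2 ^ (t - j) * ((t : ℝ) - j) * j)) =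
        101 / 100 * 54 / ((t : ℝ) - j) * (4 ^ j / (2 ^ (t - j) * (j : ℝ) ^ 2)) := by
      field_simp
    have h7 : 82 / ((2 : ℝ) ^ t * t) * (8 ^ j / (j : ℝ) ^ 2) =
        82 / t * (4 ^ j / (2 ^ (t - j) * (j : ℝ) ^ 2)) := by
      rw [hpow, h8]; field_simp
    rw [hc, h6, h7]
    exact mul_le_mul_of_nonneg_right h5 (by positivity)
  refine (sum_le_sum hterm).trans ?_
  rw [← mul_sum]
  have h1 : ∑ j ∈ S, (8 : ℝ) ^ j / (j : ℝ) ^ 2 ≤ 2 * (8 ^ m / (m : ℝ) ^ 2) :=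
    (sum_le_sum_of_subset_of_nonneg (fun x hx => by
      have h2 := mem_Icc.1 (mem_filter.1 hx).1
      have h3 := (mem_filter.1 hx).2
      exact mem_Icc.2 ⟨by omega, by omega⟩) fun _ _ _ => by positivity).trans
      (jn1o_eight m (by omega))
  have h2 := jn1o_key m t k hm1 hm2 hm3
  calc _ ≤ 82 / ((2 : ℝ) ^ t * t) * (2 * (8 ^ m / (m : ℝ) ^ 2)) :=
        mul_le_mul_of_nonneg_left h1 (by positivity)
    _ = 164 / t * ((8 : ℝ) ^ m / (m : ℝ) ^ 2 / 2 ^ t) := by field_simp; norm_num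
    _ ≤ 164 / t * (Real.exp 150 / (t : ℝ) ^ 2 * Real.exp (-(5 / 4) * t / k)) :=
        mul_le_mul_of_nonneg_left h2 (by positivity)
    _ = _ := by field_simp

end

end Pool.Agent.Jac
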