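import Pool.Agent.P.MP_45ff98_nt.JN1
import Pool.Agent.P.MP_45ff98_nt.JN1o

/-! The explicit part of the loss, box form. -/

namespace Pool.Agent.Jac
open Finset

noncomputable section

theorem jn2_bd (C : ℝ) (G t k : ℕ) : bd C G t k = C * bd 1 G t k := by
  unfold bd
  rw [one_mul]

theorem jn2_cont_even {e : ℕ} (he : Even e) (t k : ℕ) : Cont e t k :=
  fun h => absurd he (Nat.even_add_one.1 h)

theorem jn2_cont_odd {e : ℕ} (he : ¬ Even e) (t k : ℕ) : Cont e t k ↔ 3 * k ≤ t :=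
  ⟨fun h => h (Nat.even_add_one.2 he), fun h _ => h⟩

theorem jn2_TB_even {e : ℕ} (he : Even e) (C : ℝ) (k0 k t : ℕ) : TB k0 k (Rr C) e t =
    C * ∑ k' ∈ (Icc k0 k).filter (Cont e t),
        101 / 100 / (k' : ℝ) * (2 * (k' : ℝ) ^ 3 / ((t - k' : ℕ) : ℝ) ^ 7) +
      C * ∑ k' ∈ Icc k0 k,
        101 / 100 / (k' : ℝ) * (13 * 2 ^ k' / (2 ^ (t - k') * ((t - k' : ℕ) : ℝ))) := by
  have h1 : ¬ Even (e + 1) := fun h => Nat.even_add_one.1 h he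
  rw [TB, filter_true_of_mem fun x _ => jn2_cont_even he t x, mul_sum, mul_sum, ← sum_add_distrib]
  refine sum_congr rfl fun x _ => ?_
  rw [Rr, if_neg h1]
  ring

theorem jn2_TB_odd {e : ℕ} (he : ¬ Even e) (C : ℝ) (k0 k t : ℕ) : TB k0 k (Rr C) e t =
    C * ∑ k' ∈ (Icc k0 k).filter (Cont e t),
        101 / 100 / (k' : ℝ) * (2 * (k' : ℝ) ^ 3 / ((t - k' : ℕ) : ℝ) ^ 7) +
      C * ∑ k' ∈ (Icc k0 k).filter (fun k' => 3 * k' ≤ t),
        101 / 100 / (k' : ℝ) * (54 * 4 ^ k' / (2 ^ (t - k') * ((t - k' : ℕ) : ℝ) * k')) := by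
  have h1 : Even (e + 1) := Nat.even_add_one.2 he
  rw [TB, filter_congr fun x _ => jn2_cont_odd he t x, mul_sum, mul_sum, ← sum_add_distrib]
  refine sum_congr rfl fun x _ => ?_
  rw [Rr, if_pos h1]
  ring

theorem conv_box : ∃ cR : ℝ, 1 ≤ cR ∧ ∀ (C : ℝ) (G k0 e t k : ℕ), 0 ≤ C → 1 ≤ G → 100 ≤ k0 →
    k0 ≤ k → St e t k →
    psi C k0 t + ∑ k' ∈ (Icc k0 k).filter (fun k' => ¬ Cont e t k'),
        101 / 100 / (k' : ℝ) * bd C G (t - k') k' + TB k0 k (Rr C) e t ≤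
      Rr C e t k + psiS (cR * C) G k0 t k := by
  obtain ⟨a, a0, ha⟩ := conv_seven
  obtain ⟨b, b0, hb⟩ := conv_bd
  obtain ⟨c, c0, hc⟩ := conv_odd
  refine ⟨1 + a + b + c, by linarith, fun C G k0 e t k hC hG h0 hk hs => ?_⟩
  have h7 := mul_le_mul_of_nonneg_left (ha k0 e t k h0 hk hs) hC
  obtain ⟨X, hX⟩ : ∃ X : ℝ, X = 1 / (t : ℝ) ^ 3 * Real.exp (-(5 / 4) * t / k) := ⟨_, rfl⟩
  obtain ⟨Y, hY⟩ : ∃ Y : ℝ, Y = Real.exp (-2 * t / k0) / k0 := ⟨_, rfl⟩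
  have X0 : 0 ≤ X := by rw [hX]; positivity
  have Y0 : 0 ≤ Y := by rw [hY]; positivity
  have eX : ∀ u : ℝ, u / (t : ℝ) ^ 3 * Real.exp (-(5 / 4) * t / k) = u * X := fun u => by
    rw [hX]; ring
  have G1 : (1 : ℝ) ≤ (G : ℝ) ^ 2 := one_le_pow₀ (by exact_mod_cast hG)
  have k1 : C * X ≤ C * ((G : ℝ) ^ 2 * X) :=
    mul_le_mul_of_nonneg_left (le_mul_of_one_le_left X0 G1) hC
  have k2 : 0 ≤ C * X := mul_nonneg hC X0
  have k3 : 0 ≤ C * Y := mul_nonneg hC Y0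
  have m1 := mul_le_mul_of_nonneg_left k1 a0
  have m2 := mul_le_mul_of_nonneg_left k1 c0
  have m3 := mul_nonneg b0 (k2.trans k1)
  have m4 := mul_nonneg c0 (k2.trans k1)
  have m5 := mul_nonneg (add_nonneg (add_nonneg a0 b0) c0) k3
  rw [eX] at h7
  rw [psi, psiS, eX, ← hY]
  by_cases he : Even e
  · have h1 := mul_le_mul_of_nonneg_left
      (conv_even (t := t) (le_trans (by norm_num) h0) hk (hs.2 he)) hC
    rw [jn2_TB_even he, filter_false_of_mem fun x _ => not_not.2 (jn2_cont_even he t x), sum_empty,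
      Rr, if_pos he]
    have e1 : 2 * C * (k : ℝ) ^ 3 / (t : ℝ) ^ 7 = C * (2 * (k : ℝ) ^ 3 / (t : ℝ) ^ 7) := by ring
    have e2 : 54 * C * 4 ^ k / (2 ^ t * t * k) = C * (54 * 4 ^ k / (2 ^ t * t * k)) := by ring
    rw [e1, e2]
    linarith [k2.trans k1]
  · have h1 := mul_le_mul_of_nonneg_left (hb G k0 t k hG (le_trans (by norm_num) h0) hk hs.1) hC
    have h2 := mul_le_mul_of_nonneg_left (hc k0 t k h0 hk hs.1) hC
    have e0 : ∑ k' ∈ (Icc k0 k).filter (fun k' => ¬ Cont e t k'),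
        101 / 100 / (k' : ℝ) * bd C G (t - k') k' =
        C * ∑ k' ∈ (Icc k0 k).filter (fun k' => ¬ 3 * k' ≤ t),
          101 / 100 / (k' : ℝ) * bd 1 G (t - k') k' := by
      rw [filter_congr fun x _ => not_congr (jn2_cont_odd he t x), mul_sum]
      refine sum_congr rfl fun x _ => ?_
      rw [jn2_bd]
      ring
    rw [eX] at h1 h2
    rw [jn2_TB_odd he, e0, Rr, if_neg he]
    have e1 : 2 * C * (k : ℝ) ^ 3 / (t : ℝ) ^ 7 = C * (2 * (k : ℝ) ^ 3 / (t : ℝ) ^ 7) := by ring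
    have e2 : 13 * C * 2 ^ k / (2 ^ t * t) = C * (13 * 2 ^ k / (2 ^ t * t)) := by ring
    rw [e1, e2]
    linarith [k2.trans k1]

end

end Pool.Agent.Jac
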