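import Pool.Agent.P.MP_45ff98_nt.JN0

/-! The supersolution at even nodes. -/

namespace Pool.Agent.Jac
open Finset

noncomputable section

theorem jn4e_exp : Real.exp (5 / 4) ≤ 7 / 2 := by
  refine le_of_pow_le_pow_left₀ (n := 4) (by norm_num) (by norm_num) ?_
  have h1 : Real.exp (5 / 4) ^ 4 = Real.exp 1 ^ 5 := by
    rw [← Real.exp_nat_mul, ← Real.exp_nat_mul]
    norm_num
  rw [h1]
  exact (pow_le_pow_left₀ (Real.exp_pos 1).le Real.exp_one_lt_d9.le 5).trans (by norm_num)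

theorem jn4e_poly {u : ℝ} (h0 : 0 ≤ u) (h2 : u ≤ 2) :
    7 / 2 * (35552 / 1000000 + 8888 / 10000 * (4 - u) + 4444 / 1000 * u) ≤
      873 / 1000 * (4 - u) ^ 2 * Real.exp (5 / 4 * u) := by
  have h1 := Real.sum_le_exp_of_nonneg (x := 5 / 4 * u) (by positivity) 5
  simp only [sum_range_succ, range_zero, sum_empty, Nat.factorial] at h1
  refine le_trans ?_ (mul_le_mul_of_nonneg_left h1 (by positivity))
  have h3 : 0 ≤ 2 - u := by linarith
  have h4 : ∀ i j : ℕ, 0 ≤ u ^ i * (2 - u) ^ j := fun i j => by positivity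
  push_cast
  nlinarith [h4 0 6, h4 1 5, h4 2 4, h4 3 3, h4 4 2, h4 5 1, h4 6 0]

theorem jn4e_A {e t j : ℕ} (he : ¬ Even (e + 1)) (h1 : 1 ≤ j) (h : 4 * j ≤ t) :
    101 / 100 / (j : ℝ) * (hS (e + 1) (t - j) j / j) =
      1111 / 1000 * Real.exp (5 / 4) * (Real.exp (-(5 / 4 * (t : ℝ)) / j) / (j : ℝ) ^ 2) := by
  have hj : (0 : ℝ) < j := by exact_mod_cast h1
  rw [hS, if_neg he, if_pos (by omega), Nat.cast_sub (by omega),
    show -(5 / 4) * ((t : ℝ) - j) / j = 5 / 4 + -(5 / 4 * (t : ℝ)) / j by field_simp; ring,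
    Real.exp_add]
  field_simp
  ring

theorem jn4e_B {e t j : ℕ} (he : ¬ Even (e + 1)) (h1 : 2 * j ≤ t) (h : ¬ 4 * j ≤ t) :
    101 / 100 / (j : ℝ) * (hS (e + 1) (t - j) j / j) ≤
      1111 / 1000 * Real.exp (-(15 / 4)) * (16 / (t : ℝ) ^ 2) := by
  have hj : (0 : ℝ) < j := by exact_mod_cast (show 0 < j by omega)
  have h2 : 2 * (j : ℝ) ≤ t := by exact_mod_cast h1
  have h3 : (t : ℝ) ≤ 4 * j := by exact_mod_cast (not_le.1 h).le
  have h4 : 0 < (t : ℝ) - j := by linarith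
  rw [hS, if_neg he, if_neg (by omega), Nat.cast_sub (by omega),
    show 101 / 100 / (j : ℝ) * (11 / 10 * Real.exp (-(15 / 4)) * (3 * j / ((t : ℝ) - j)) / j)
      = 1111 / 1000 * Real.exp (-(15 / 4)) * (3 / (j * ((t : ℝ) - j))) by field_simp; ring]
  refine mul_le_mul_of_nonneg_left ?_ (by positivity)
  rw [div_le_div_iff₀ (by positivity) (by nlinarith)]
  nlinarith [mul_nonneg (sub_nonneg.2 h3) (show 0 ≤ 3 * (t : ℝ) - 4 * j by linarith)]

theorem hS_even {e t k : ℕ} (he : Even e) (hk : 1000 ≤ k) (ht : 2 * k ≤ t) :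
    TB 1 k (fun e t k => hS e t k / k) e t ≤ 873 / 1000 * (hS e t k / k) := by
  have he' : ¬ Even (e + 1) := fun h => (Nat.even_add_one.1 h) he
  have hK : (1000 : ℝ) ≤ k := by exact_mod_cast hk
  have hT : 2 * (k : ℝ) ≤ t := by exact_mod_cast ht
  have hK0 : (0 : ℝ) < k := by linarith
  have hT0 : (0 : ℝ) < t := by linarith
  have hE := jn4e_exp
  have hA : ∀ m : ℝ, 0 < m → 2 * m ≤ 5 / 4 * (t : ℝ) →
      (∀ j ∈ (Icc 1 k).filter (fun j => 4 * j ≤ t), (j : ℝ) ≤ m) →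
      ∑ j ∈ (Icc 1 k).filter (fun j => 4 * j ≤ t), 101 / 100 / (j : ℝ) * (hS (e + 1) (t - j) j / j)
        ≤ 1111 / 1000 * Real.exp (5 / 4) *
          (Real.exp (-(5 / 4 * (t : ℝ)) / m) * (1 / m ^ 2 + 1 / (5 / 4 * (t : ℝ)))) := by
    intro m h1 h2 h3
    rw [sum_congr rfl fun j hj => jn4e_A he' (mem_Icc.1 (mem_filter.1 hj).1).1 (mem_filter.1 hj).2,
      ← mul_sum]
    exact mul_le_mul_of_nonneg_left (exp_sum _ m h1 h2 _ fun j hj =>
      ⟨(mem_Icc.1 (mem_filter.1 hj).1).1, h3 j hj⟩) (by positivity)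
  have h0 : TB 1 k (fun e t k => hS e t k / k) e t =
      ∑ j ∈ Icc 1 k, 101 / 100 / (j : ℝ) * (hS (e + 1) (t - j) j / j) := by
    rw [TB, filter_true_of_mem fun j _ h => absurd h he']
  rw [h0, hS, if_pos he]
  by_cases h4 : 4 * k ≤ t
  · have h5 : 4 * (k : ℝ) ≤ t := by exact_mod_cast h4
    have h6 := hA k hK0 (by linarith) fun j hj => by exact_mod_cast (mem_Icc.1 (mem_filter.1 hj).1).2
    rw [filter_true_of_mem fun j hj => by have := (mem_Icc.1 hj).2; omega] at h6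
    refine h6.trans ?_
    rw [show -(5 / 4) * (t : ℝ) / k = -(5 / 4 * (t : ℝ)) / k by ring]
    have h7 : 1 / (k : ℝ) ^ 2 + 1 / (5 / 4 * (t : ℝ)) ≤ 201 / 1000 / k := by
      have h8 : 1 / (k : ℝ) ^ 2 ≤ 1 / 1000 / k := by
        rw [div_div]
        exact one_div_le_one_div_of_le (by positivity) (by nlinarith)
      have h9 : 1 / (5 / 4 * (t : ℝ)) ≤ 1 / 5 / k := by
        rw [div_div]
        exact one_div_le_one_div_of_le (by positivity) (by linarith)
      refine (add_le_add h8 h9).trans_eq (by ring)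
    calc _ ≤ 1111 / 1000 * (7 / 2) * (Real.exp (-(5 / 4 * (t : ℝ)) / k) * (201 / 1000 / k)) := by
          gcongr
      _ = 1111 / 1000 * (7 / 2) * (201 / 1000) * (Real.exp (-(5 / 4 * (t : ℝ)) / k) / k) := by ring
      _ ≤ _ := mul_le_mul_of_nonneg_right (by norm_num) (by positivity)
  · have h5 : (t : ℝ) ≤ 4 * k := by exact_mod_cast (not_le.1 h4).le
    have h6 := hA (t / 4) (by positivity) (by linarith) fun j hj => by
      have : 4 * (j : ℝ) ≤ t := by exact_mod_cast (mem_filter.1 hj).2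
      linarith
    have h7 := sum_le_card_nsmul ((Icc 1 k).filter fun j => ¬ 4 * j ≤ t) _ _ fun j hj =>
      jn4e_B (t := t) he' (by have := (mem_Icc.1 (mem_filter.1 hj).1).2; omega) (mem_filter.1 hj).2
    have h8 : (((Icc 1 k).filter fun j => ¬ 4 * j ≤ t).card : ℝ) ≤ k - t / 4 + 1 := by
      have h9 : ((Icc 1 k).filter fun j => ¬ 4 * j ≤ t).card ≤ (Ioc (t / 4) k).card :=
        card_le_card fun j hj => by
          have h10 := mem_filter.1 hj
          have h11 := mem_Icc.1 h10.1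
          exact mem_Ioc.2 ⟨by omega, h11.2⟩
      rw [Nat.card_Ioc] at h9
      have h10 : 4 * ((Icc 1 k).filter fun j => ¬ 4 * j ≤ t).card + t ≤ 4 * k + 4 := by omega
      have h11 : 4 * (((Icc 1 k).filter fun j => ¬ 4 * j ≤ t).card : ℝ) + t ≤ 4 * k + 4 := by
        exact_mod_cast h10
      linarith
    rw [nsmul_eq_mul] at h7
    rw [← sum_filter_add_sum_filter_not (Icc 1 k) fun j => 4 * j ≤ t]
    refine (add_le_add h6 (h7.trans (mul_le_mul_of_nonneg_right h8 (by positivity)))).trans ?_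
    obtain ⟨u, hu⟩ : ∃ u : ℝ, (t : ℝ) = (4 - u) * k := ⟨4 - t / k, by field_simp; ring⟩
    have u0 : 0 ≤ u := by nlinarith
    have u2 : u ≤ 2 := by nlinarith
    have u4 : 0 < 4 - u := by linarith
    have e1 : Real.exp (-(5 / 4 * (t : ℝ)) / (t / 4)) = Real.exp (-5) := by
      congr 1
      field_simp
    have e2 : Real.exp (-(15 / 4)) = Real.exp (5 / 4) * Real.exp (-5) := by
      rw [← Real.exp_add]
      norm_num
    have e3 : Real.exp (-(5 / 4) * (t : ℝ) / k) = Real.exp (5 / 4 * u) * Real.exp (-5) := by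
      rw [← Real.exp_add, hu]
      congr 1
      field_simp
      ring
    rw [e1, e2, e3, hu]
    have h9 : (35552 : ℝ) / 1000 / k ≤ 35552 / 1000000 := by
      rw [div_le_iff₀ hK0]
      linarith
    calc _ = Real.exp (5 / 4) * (35552 / 1000 / k + 8888 / 10000 * (4 - u) + 4444 / 1000 * u) *
          (Real.exp (-5) / ((4 - u) ^ 2 * k)) := by
          field_simp
          ring
      _ ≤ 7 / 2 * (35552 / 1000000 + 8888 / 10000 * (4 - u) + 4444 / 1000 * u) *
          (Real.exp (-5) / ((4 - u) ^ 2 * k)) := by gcongr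
      _ ≤ 873 / 1000 * (4 - u) ^ 2 * Real.exp (5 / 4 * u) * (Real.exp (-5) / ((4 - u) ^ 2 * k)) :=
          mul_le_mul_of_nonneg_right (jn4e_poly u0 u2) (by positivity)
      _ = _ := by field_simp

end

end Pool.Agent.Jac
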