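import Pool.Agent.P.MP_45ff98_nt.JN0

/-! The supersolution at odd nodes. -/

namespace Pool.Agent.Jac
open Finset

noncomputable section

theorem jn4o_exp : Real.exp (5 / 4) ≤ 7 / 2 := by
  have h4 : Real.exp (5 / 4) ^ 4 = Real.exp 1 ^ 5 := by
    rw [← Real.exp_nat_mul, ← Real.exp_nat_mul]; norm_num
  have h5 : Real.exp 1 ^ 5 ≤ (7 / 2) ^ 4 :=
    (pow_le_pow_left₀ (Real.exp_pos 1).le Real.exp_one_lt_d9.le 5).trans (by norm_num)
  exact le_of_pow_le_pow_left₀ (n := 4) (by norm_num) (by norm_num) (h4 ▸ h5)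

theorem jn4o_sum {e t k : ℕ} (he : ¬ Even e) :
    TB 1 k (fun e t k => hS e t k / k) e t = 101 / 100 * Real.exp (5 / 4) *
      ∑ j ∈ (Icc 1 k).filter (Cont e t), Real.exp (-(5 / 4 * (t : ℝ)) / j) / (j : ℝ) ^ 2 := by
  have he1 : Even (e + 1) := Nat.even_add_one.2 he
  rw [TB, mul_sum]
  refine sum_congr rfl fun j hj => ?_
  obtain ⟨h1, h2⟩ := mem_filter.1 hj
  have h3 : j ≤ t := by have := h2 he1; omega
  have h4 : (j : ℝ) ≠ 0 := by
    have := (mem_Icc.1 h1).1
    exact_mod_cast (by omega : j ≠ 0)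
  have h5 : -(5 / 4) * ((t : ℝ) - j) / j = 5 / 4 + -(5 / 4 * (t : ℝ)) / j := by
    field_simp; ring
  simp only [hS, if_pos he1]
  rw [Nat.cast_sub h3, h5, Real.exp_add]
  field_simp

theorem hS_odd {e t k : ℕ} (he : ¬ Even e) (hk : 1000 ≤ k) (ht : k ≤ t) :
    TB 1 k (fun e t k => hS e t k / k) e t ≤ 873 / 1000 * (hS e t k / k) := by
  have he1 : Even (e + 1) := Nat.even_add_one.2 he
  have hk' : (1000 : ℝ) ≤ k := by exact_mod_cast hk
  have ht' : (k : ℝ) ≤ t := by exact_mod_cast ht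
  have hk0 : (0 : ℝ) < k := by linarith
  have ht0 : (0 : ℝ) < t := by linarith
  have hc : 101 / 100 * Real.exp (5 / 4) ≤ 101 / 100 * (7 / 2) := by linarith [jn4o_exp]
  have hs0 : 0 ≤ ∑ j ∈ (Icc 1 k).filter (Cont e t),
      Real.exp (-(5 / 4 * (t : ℝ)) / j) / (j : ℝ) ^ 2 := sum_nonneg fun j _ => by positivity
  rw [jn4o_sum he]
  refine (mul_le_mul_of_nonneg_right hc hs0).trans ?_
  simp only [hS, if_neg he]
  split_ifs with h3
  · have h3' : 3 * (k : ℝ) ≤ t := by exact_mod_cast h3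
    have hb := exp_sum (5 / 4 * t) k hk0 (by linarith) ((Icc 1 k).filter (Cont e t))
      fun j hj => by
        have := mem_Icc.1 (mem_filter.1 hj).1
        exact ⟨this.1, by exact_mod_cast this.2⟩
    have e1 : -(5 / 4 * (t : ℝ)) / k = -(5 / 4) * t / k := by ring
    rw [e1] at hb
    have hE := Real.exp_pos (-(5 / 4) * (t : ℝ) / k)
    have h6 : 1 / (k : ℝ) ^ 2 ≤ 1 / 1000 * (1 / k) := by
      rw [div_mul_div_comm, div_le_div_iff₀ (by positivity) (by positivity)]; nlinarith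
    have h7 : 1 / (5 / 4 * (t : ℝ)) ≤ 4 / 15 * (1 / k) := by
      rw [div_mul_div_comm, div_le_div_iff₀ (by positivity) (by positivity)]; nlinarith
    have h8 := mul_le_mul_of_nonneg_left (add_le_add h6 h7) hE.le
    have h9 : 0 < Real.exp (-(5 / 4) * (t : ℝ) / k) * (1 / k) := by positivity
    have e2 : 11 / 10 * Real.exp (-(5 / 4) * (t : ℝ) / k) / k =
        11 / 10 * (Real.exp (-(5 / 4) * (t : ℝ) / k) * (1 / k)) := by ring
    rw [e2]
    nlinarith
  · have hb := exp_sum (5 / 4 * t) (t / 3) (by positivity) (by linarith)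
      ((Icc 1 k).filter (Cont e t)) fun j hj => by
        obtain ⟨h1, h2⟩ := mem_filter.1 hj
        have h4 : (3 * j : ℝ) ≤ t := by exact_mod_cast h2 he1
        exact ⟨(mem_Icc.1 h1).1, by linarith⟩
    have e1 : -(5 / 4 * (t : ℝ)) / (t / 3) = -(15 / 4) := by field_simp; ring
    rw [e1] at hb
    have hE := Real.exp_pos (-(15 / 4))
    have h6 : 1 / ((t : ℝ) / 3) ^ 2 ≤ 9 / 1000 * (1 / t) := by
      rw [div_mul_div_comm, div_le_div_iff₀ (by positivity) (by positivity)]; nlinarith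
    have h7 : 1 / (5 / 4 * (t : ℝ)) = 4 / 5 * (1 / t) := by field_simp
    have h8 := mul_le_mul_of_nonneg_left (add_le_add h6 h7.le) hE.le
    have h9 : 0 < Real.exp (-(15 / 4)) * (1 / t) := by positivity
    have e2 : 11 / 10 * Real.exp (-(15 / 4)) * (3 * (k : ℝ) / t) / k =
        33 / 10 * (Real.exp (-(15 / 4)) * (1 / t)) := by field_simp; ring
    rw [e2]
    nlinarith

end

end Pool.Agent.Jac
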