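import Pool.Agent.P.MP_45ff98_nt.JBase

/-! Recursions for the loss and for the gain. -/

namespace Pool.Agent.Jac
open Finset

noncomputable section

theorem JRec_not_mem {T : Finset ℕ} {q : ℕ} (h : ∀ r ∈ T, r < q) : q ∉ T :=
  fun hq => lt_irrefl _ (h q hq)

theorem JRec_mn_single (q : ℕ) : mn {q} = q :=
  mn_eq (mem_singleton_self q) fun _ hr => (mem_singleton.1 hr).ge

theorem JRec_mn_insert {T : Finset ℕ} {q : ℕ} (h : ∀ r ∈ T, r < q) (hT : T.Nonempty) :
    mn (insert q T) = mn T := by
  refine mn_eq (mem_insert_of_mem (mn_mem hT)) fun r hr => ?_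
  rcases mem_insert.1 hr with rfl | hr
  · exact (h _ (mn_mem hT)).le
  · exact mn_le hr

theorem JRec_top_self {T : Finset ℕ} {q : ℕ} (h : ∀ r ∈ T, r < q) : top (insert q T) q = {q} := by
  ext r
  simp only [top, mem_filter, mem_insert, mem_singleton]
  constructor
  · rintro ⟨rfl | h1, h2⟩
    · rfl
    · exact absurd (h r h1) (not_lt.2 h2)
  · rintro rfl
    exact ⟨Or.inl rfl, le_rfl⟩

theorem JRec_top_insert {T : Finset ℕ} {q p : ℕ} (h : ∀ r ∈ T, r < q) (hp : p ∈ T) :
    top (insert q T) p = insert q (top T p) := by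
  rw [top, filter_insert, if_pos (h p hp).le, top]

theorem JRec_abv_self {T : Finset ℕ} {q : ℕ} (h : ∀ r ∈ T, r < q) : abv (insert q T) q = ∅ := by
  refine filter_eq_empty_iff.2 fun r hr => ?_
  rcases mem_insert.1 hr with rfl | hr
  · exact lt_irrefl _
  · exact not_lt.2 (h r hr).le

theorem JRec_abv_insert {T : Finset ℕ} {q p : ℕ} (h : ∀ r ∈ T, r < q) (hp : p ∈ T) :
    abv (insert q T) p = insert q (abv T p) := by
  rw [abv, filter_insert, if_pos (h p hp), abv]

theorem JRec_ks_single (q : ℕ) : ks {q} = kk q := sum_singleton _ _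

theorem JRec_pr_single (q : ℕ) : pr {q} = q := prod_singleton _ _

theorem JRec_ok_single (e t q : ℕ) : okR e t {q} ↔ Cont e t (kk q) := by
  rw [okR, Cont, card_singleton, JRec_ks_single, JRec_mn_single]
  exact imp_congr_right fun _ => by omega

theorem JRec_ok_insert (e t : ℕ) {T : Finset ℕ} {q : ℕ} (h : ∀ r ∈ T, r < q) (hT : T.Nonempty) :
    okR e t (insert q T) ↔ okR (e + 1) (t - kk q) T := by
  rw [okR, okR, card_insert_of_notMem (JRec_not_mem h), ks_insert (JRec_not_mem h),
    JRec_mn_insert h hT, show e + (T.card + 1) = e + 1 + T.card by omega]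
  have := kk_pos (mn T)
  exact imp_congr_right fun _ => by omega

theorem JRec_valid_insert (e t : ℕ) {T : Finset ℕ} {q : ℕ} (h : ∀ r ∈ T, r < q) :
    Valid e t (insert q T) ↔ Cont e t (kk q) ∧ Valid (e + 1) (t - kk q) T := by
  rw [Valid, Valid, GV, GV, forall_mem_insert, JRec_top_self h, JRec_ok_single]
  refine and_congr_right fun _ => forall₂_congr fun p hp => ?_
  rw [JRec_top_insert h hp]
  exact JRec_ok_insert e t (fun r hr => h r (mem_filter.1 hr).1) ⟨p, mem_filter.2 ⟨hp, le_rfl⟩⟩

theorem JRec_valid_empty (e t : ℕ) : Valid e t ∅ := fun _ hp => absurd hp (notMem_empty _)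

theorem JRec_bd_empty (e t : ℕ) : ¬ Bd e t ∅ := fun h => not_nonempty_empty h.1

theorem JRec_bd_single (e t q : ℕ) : Bd e t {q} ↔ ¬ Cont e t (kk q) := by
  rw [Bd, GB, JRec_mn_single, erase_singleton, JRec_ok_single]
  exact ⟨fun h => h.2.2, fun h => ⟨singleton_nonempty q, JRec_valid_empty e t, h⟩⟩

theorem JRec_bd_insert (e t : ℕ) {T : Finset ℕ} {q : ℕ} (h : ∀ r ∈ T, r < q) (hT : T.Nonempty) :
    Bd e t (insert q T) ↔ Cont e t (kk q) ∧ Bd (e + 1) (t - kk q) T := by
  have h1 := JRec_valid_insert e t (T := T.erase (mn T)) (q := q)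
    fun r hr => h r (mem_of_mem_erase hr)
  rw [Valid, Valid] at h1
  rw [Bd, Bd, GB, GB, JRec_mn_insert h hT, erase_insert_of_ne (h _ (mn_mem hT)).ne', h1,
    JRec_ok_insert e t h hT]
  have := insert_nonempty q T
  tauto

theorem JRec_alw_insert (P : Par) (t : ℕ) {T : Finset ℕ} {q : ℕ} (h : ∀ r ∈ T, r < q) :
    Alw P t (insert q T) ↔ AlwS P t (kk q) ∧ Alw P (t - kk q) T := by
  rw [Alw, Alw, AlwS, forall_mem_insert, JRec_abv_self h, show ks ∅ = 0 from rfl]
  refine and_congr Iff.rfl (forall₂_congr fun p hp => ?_)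
  rw [JRec_abv_insert h hp,
    ks_insert (T := abv T p) (JRec_not_mem fun r hr => h r (mem_filter.1 hr).1)]
  generalize P.CW * P.kW = A
  omega

theorem JRec_term_single (P : Par) (t q : ℕ) : Term P t {q} ↔ TermS P t (kk q) := by
  rw [Term, TermS, JRec_mn_single, JRec_ks_single]
  omega

theorem JRec_term_insert (P : Par) (t : ℕ) {T : Finset ℕ} {q : ℕ} (h : ∀ r ∈ T, r < q)
    (hT : T.Nonempty) : Term P t (insert q T) ↔ Term P (t - kk q) T := by
  rw [Term, Term, JRec_mn_insert h hT, ks_insert (JRec_not_mem h)]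
  have := kk_pos (mn T)
  omega

theorem JRec_below {k q : ℕ} {T : Finset ℕ} (hT : T ∈ (PP k q).powerset) : ∀ r ∈ T, r < q :=
  fun _ hr => (mem_PP.1 (mem_powerset.1 hT hr)).1

theorem U_rec (C : ℝ) (G k0 e t p : ℕ) : UU C G k0 e t p = psi C k0 t +
    ∑ q ∈ PP k0 p, (if Cont e t (kk q) then UU C G k0 (e + 1) (t - kk q) q
      else bd C G (t - kk q) (kk q)) / q := by
  classical
  rw [UU, vals, bds, sum_filter, sum_filter, sum_PP_powerset, sum_PP_powerset,
    if_pos (JRec_valid_empty e t), if_neg (JRec_bd_empty e t), zero_add, add_assoc,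
    ← sum_add_distrib]
  congr 1
  · simp [ks, pr]
  refine sum_congr rfl fun q _ => ?_
  by_cases hc : Cont e t (kk q)
  · rw [if_pos hc, UU, vals, bds, sum_filter, sum_filter, add_div, sum_div, sum_div]
    congr 1
    · refine sum_congr rfl fun T hT => ?_
      have h := JRec_below hT
      by_cases hv : Valid (e + 1) (t - kk q) T
      · rw [if_pos hv, if_pos ((JRec_valid_insert e t h).2 ⟨hc, hv⟩),
          ks_insert (JRec_not_mem h), pr_insert (JRec_not_mem h), Nat.sub_add_eq, Nat.cast_mul,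
          div_div, mul_comm]
      · rw [if_neg hv, if_neg fun h1 => hv ((JRec_valid_insert e t h).1 h1).2, zero_div]
    · refine sum_congr rfl fun T hT => ?_
      have h := JRec_below hT
      by_cases hv : Bd (e + 1) (t - kk q) T
      · rw [if_pos hv, if_pos ((JRec_bd_insert e t h hv.1).2 ⟨hc, hv⟩),
          ks_insert (JRec_not_mem h), pr_insert (JRec_not_mem h), Nat.sub_add_eq, Nat.cast_mul,
          div_div, mul_comm, JRec_mn_insert h hv.1]
      · rw [if_neg hv, if_neg, zero_div]
        rcases T.eq_empty_or_nonempty with rfl | hn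
        · exact fun h1 => (JRec_bd_single e t q).1 h1 hc
        · exact fun h1 => hv ((JRec_bd_insert e t h hn).1 h1).2
  · rw [if_neg hc, sum_eq_zero, zero_add, sum_eq_single ∅]
    · rw [if_pos (show Bd e t (insert q ∅) from (JRec_bd_single e t q).2 hc)]
      rw [show insert q (∅ : Finset ℕ) = {q} from rfl, JRec_ks_single, JRec_mn_single,
        JRec_pr_single]
    · intro T hT hn
      exact if_neg fun h1 =>
        hc ((JRec_bd_insert e t (JRec_below hT) (nonempty_iff_ne_empty.2 hn)).1 h1).1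
    · exact fun h => absurd (empty_mem_powerset _) h
    · exact fun T hT => if_neg fun h1 => hc ((JRec_valid_insert e t (JRec_below hT)).1 h1).1

theorem JRec_gf_insert (P : Par) (e t : ℕ) {T : Finset ℕ} {q : ℕ} (h : ∀ r ∈ T, r < q)
    (hT : T.Nonempty) : GF P e t (insert q T) ↔
      AlwS P t (kk q) ∧ Cont e t (kk q) ∧ GF P (e + 1) (t - kk q) T := by
  rw [GF, GF, JRec_bd_insert e t h hT, JRec_alw_insert P t h, JRec_term_insert P t h hT]
  tauto

theorem JRec_gf_single (P : Par) (e t q : ℕ) : GF P e t (insert q ∅) ↔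
    AlwS P t (kk q) ∧ ¬ Cont e t (kk q) ∧ TermS P t (kk q) := by
  rw [GF, JRec_alw_insert P t (fun _ hr => absurd hr (notMem_empty _)),
    show insert q (∅ : Finset ℕ) = {q} from rfl, JRec_bd_single, JRec_term_single]
  have : Alw P (t - kk q) ∅ := fun _ hr => absurd hr (notMem_empty _)
  tauto

theorem Gam_rec (P : Par) (e t p : ℕ) : Gam P e t p =
    ∑ q ∈ PP P.k0 p, (if AlwS P t (kk q) then
      (if Cont e t (kk q) then Gam P (e + 1) (t - kk q) q
        else if TermS P t (kk q) then 1 / (kk q : ℝ) else 0) else 0) / q := by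
  classical
  rw [Gam, fam, sum_filter, sum_PP_powerset, if_neg (fun h => JRec_bd_empty e t h.1), zero_add]
  refine sum_congr rfl fun q _ => ?_
  by_cases ha : AlwS P t (kk q)
  swap
  · rw [if_neg ha, zero_div]
    exact sum_eq_zero fun T hT => if_neg fun h1 =>
      ha ((JRec_alw_insert P t (JRec_below hT)).1 h1.2.1).1
  rw [if_pos ha]
  by_cases hc : Cont e t (kk q)
  · rw [if_pos hc, Gam, fam, sum_filter, sum_div]
    refine sum_congr rfl fun T hT => ?_
    have h := JRec_below hT
    by_cases hv : GF P (e + 1) (t - kk q) T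
    · rw [if_pos hv, if_pos ((JRec_gf_insert P e t h hv.1.1).2 ⟨ha, hc, hv⟩),
        pr_insert (JRec_not_mem h), JRec_mn_insert h hv.1.1, Nat.cast_mul, div_div]
      congr 1
      ring
    · rw [if_neg hv, if_neg, zero_div]
      rcases T.eq_empty_or_nonempty with rfl | hn
      · exact fun h1 => ((JRec_gf_single P e t q).1 h1).2.1 hc
      · exact fun h1 => hv ((JRec_gf_insert P e t h hn).1 h1).2.2
  · rw [if_neg hc, sum_eq_single ∅]
    · by_cases ht : TermS P t (kk q)
      · rw [if_pos ht, if_pos ((JRec_gf_single P e t q).2 ⟨ha, hc, ht⟩),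
          show insert q (∅ : Finset ℕ) = {q} from rfl, JRec_mn_single, JRec_pr_single, div_div,
          mul_comm]
      · rw [if_neg ht, if_neg fun h1 => ht ((JRec_gf_single P e t q).1 h1).2.2, zero_div]
    · intro T hT hn
      exact if_neg fun h1 =>
        hc ((JRec_gf_insert P e t (JRec_below hT) (nonempty_iff_ne_empty.2 hn)).1 h1).2.1
    · exact fun h => absurd (empty_mem_powerset _) h

theorem Gam_nonneg (P : Par) (e t p : ℕ) : 0 ≤ Gam P e t p :=
  sum_nonneg fun _ _ => by positivity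

end

end Pool.Agent.Jac
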