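import Pool.Agent.P.MP_45ff98_nt.JN2
import Pool.Agent.P.MP_45ff98_nt.JN4o
import Pool.Agent.P.MP_45ff98_nt.JN4e
import Pool.Agent.P.MP_45ff98_nt.JRec

/-! The bound for the loss. -/

namespace Pool.Agent.Jac
open Finset

noncomputable section

theorem jn5_hS_nonneg (e t k : ℕ) : 0 ≤ hS e t k := by
  unfold hS
  split_ifs <;> positivity

theorem Sup_nonneg (k0 e t k : ℕ) : 0 ≤ Sup k0 e t k := by
  have := jn5_hS_nonneg e t k
  unfold Sup
  positivity

theorem jn5_log {k0 t k : ℕ} (h : 2 * k ≤ t) :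
    Nat.log 2 (t / k0) ≤ Nat.log 2 ((t - k) / k0) + 1 := by
  have h1 : t / k0 / 2 ≤ (t - k) / k0 := by
    rw [Nat.div_div_eq_div_mul, mul_comm, ← Nat.div_div_eq_div_mul]
    exact Nat.div_le_div_right (by omega)
  have h2 := Nat.log_mono_right (b := 2) h1
  rw [Nat.log_div_base] at h2
  omega

theorem sup_step {k0 e t k : ℕ} (h0 : 1000 ≤ k0) (hk : k0 ≤ k) (hs : St e t k) :
    TB k0 k (Sup k0) e t ≤ 97 / 100 * Sup k0 e t k := by
  have h1 : TB 1 k (fun e t k => hS e t k / k) e t ≤ 873 / 1000 * (hS e t k / k) := by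
    by_cases he : Even e
    · exact hS_even he (h0.trans hk) (hs.2 he)
    · exact hS_odd he (h0.trans hk) hs.1
  set A : ℝ := (9 / 10) ^ Nat.log 2 (t / k0) with hA
  have hA0 : 0 ≤ A := by positivity
  have h2 : TB k0 k (Sup k0) e t ≤ 10 / 9 * A * TB 1 k (fun e t k => hS e t k / k) e t := by
    unfold TB
    rw [mul_sum]
    refine (sum_le_sum fun k' hk' => ?_).trans (sum_le_sum_of_subset_of_nonneg
      (filter_subset_filter _ (Icc_subset_Icc_left (by omega : 1 ≤ k0))) fun k' _ _ => ?_)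
    · obtain ⟨h3, h4⟩ := mem_filter.1 hk'
      have h5 := (hs.child (mem_Icc.1 h3).2 h4).2
      have h6 : (9 / 10 : ℝ) ^ (Nat.log 2 ((t - k') / k0) + 1) ≤ A :=
        pow_le_pow_of_le_one (by norm_num) (by norm_num) (jn5_log h5)
      rw [pow_succ] at h6
      have h7 : 0 ≤ 101 / 100 / (k' : ℝ) * (hS (e + 1) (t - k') k' / k') := by
        have := jn5_hS_nonneg (e + 1) (t - k') k'
        positivity
      calc 101 / 100 / (k' : ℝ) * Sup k0 (e + 1) (t - k') k'
          = (9 / 10) ^ Nat.log 2 ((t - k') / k0) *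
            (101 / 100 / (k' : ℝ) * (hS (e + 1) (t - k') k' / k')) := by
            unfold Sup
            ring
        _ ≤ _ := mul_le_mul_of_nonneg_right (by linarith) h7
    · have := jn5_hS_nonneg (e + 1) (t - k') k'
      positivity
  refine h2.trans ((mul_le_mul_of_nonneg_left h1 (by positivity)).trans (le_of_eq ?_))
  unfold Sup
  rw [← hA]
  ring

theorem jn5_hS_ge {e t k : ℕ} (hk : 1 ≤ k) (ht : k ≤ t) :
    Real.exp (-(15 / 4)) * Real.exp (-(5 / 4) * t / k) ≤ hS e t k := by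
  have hk0 : (0 : ℝ) < k := by exact_mod_cast hk
  have ht0 : (0 : ℝ) < t := by exact_mod_cast hk.trans ht
  have h1 : Real.exp (-(15 / 4)) ≤ 1 := Real.exp_le_one_iff.2 (by norm_num)
  have h2 : Real.exp (-(5 / 4) * t / k) ≤ 1 :=
    Real.exp_le_one_iff.2 (div_nonpos_of_nonpos_of_nonneg (by linarith) hk0.le)
  have h3 := Real.exp_pos (-(15 / 4))
  have h4 := Real.exp_pos (-(5 / 4) * t / k)
  unfold hS
  split_ifs with he h
  · nlinarith
  · nlinarith
  · have h5 : (1 : ℝ) ≤ 3 * k / t := by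
      rw [le_div_iff₀ ht0]
      have : t ≤ 3 * k := by omega
      exact_mod_cast (by simpa using this : 1 * t ≤ 3 * k)
    nlinarith

theorem psiS_le : ∃ c : ℝ, 1 ≤ c ∧ ∀ (C : ℝ) (G k0 e t k : ℕ), 0 ≤ C → 1 ≤ k0 → G ≤ k0 → k0 ≤ k →
    St e t k → psiS C G k0 t k ≤ c * C * Sup k0 e t k := by
  refine ⟨5 * Real.exp (15 / 4), by linarith [Real.one_le_exp (by norm_num : (0 : ℝ) ≤ 15 / 4)],
    fun C G k0 e t k hC h0 hG hk hs => ?_⟩
  have hkt := hs.1
  have a0 : (0 : ℝ) < k0 := by exact_mod_cast h0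
  have a1 : (k0 : ℝ) ≤ k := by exact_mod_cast hk
  have a2 : (k : ℝ) ≤ t := by exact_mod_cast hkt
  have a3 : (G : ℝ) ≤ k0 := by exact_mod_cast hG
  have a4 : (0 : ℝ) < k := by linarith
  have a5 : (0 : ℝ) < t := by linarith
  set E := Real.exp (-(5 / 4) * t / k) with hE
  have hE0 : 0 < E := Real.exp_pos _
  have b1 : (k0 : ℝ) / t ≤ (9 / 10) ^ Nat.log 2 (t / k0) := by
    have h1 : 2 ^ Nat.log 2 (t / k0) ≤ t / k0 :=
      Nat.pow_log_le_self 2 (Nat.div_pos (hk.trans hkt) h0).ne'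
    have h2 : ((2 : ℝ) ^ Nat.log 2 (t / k0)) ≤ t / k0 :=
      le_trans (by exact_mod_cast h1) Nat.cast_div_le
    calc (k0 : ℝ) / t = 1 / (t / k0) := by field_simp
      _ ≤ 1 / 2 ^ Nat.log 2 (t / k0) := one_div_le_one_div_of_le (by positivity) h2
      _ = (1 / 2) ^ Nat.log 2 (t / k0) := by rw [one_div_pow]
      _ ≤ _ := pow_le_pow_left₀ (by norm_num) (by norm_num) _
  have b2 : (k0 : ℝ) / t * (Real.exp (-(15 / 4)) * E) / k ≤ Sup k0 e t k :=
    div_le_div_of_nonneg_right (mul_le_mul b1 (jn5_hS_ge (h0.trans hk) hkt) (by positivity)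
      (by positivity)) a4.le
  have b3 : (G : ℝ) ^ 2 / (t : ℝ) ^ 3 * E ≤ k0 / (t * k) * E := by
    refine mul_le_mul_of_nonneg_right ?_ hE0.le
    rw [div_le_div_iff₀ (by positivity) (by positivity)]
    have h1 : (G : ℝ) ^ 2 ≤ k0 * t :=
      (pow_le_pow_left₀ (by positivity) a3 2).trans (by nlinarith)
    calc (G : ℝ) ^ 2 * (t * k) ≤ k0 * t * (t * t) := by gcongr
      _ = k0 * (t : ℝ) ^ 3 := by ring
  have b4 : Real.exp (-2 * t / k0) / k0 ≤ 4 * (k0 / (t * k) * E) := by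
    have h1 : Real.exp (-2 * t / k0) * Real.exp (3 / 4 * (t / k0)) ≤ E := by
      rw [← Real.exp_add, hE]
      refine Real.exp_le_exp.2 ?_
      have : (t : ℝ) / k ≤ t / k0 := div_le_div_of_nonneg_left a5.le a0 a1
      have e1 : -2 * (t : ℝ) / k0 = -2 * (t / k0) := by ring
      have e2 : -(5 / 4) * (t : ℝ) / k = -(5 / 4) * (t / k) := by ring
      rw [e1, e2]
      linarith
    have h2 := Real.quadratic_le_exp_of_nonneg (by positivity : (0 : ℝ) ≤ 3 / 4 * (t / k0))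
    have h3 : (0 : ℝ) ≤ t / k0 := by positivity
    have h4 : ((t : ℝ) / k0) ^ 2 ≤ 4 * Real.exp (3 / 4 * (t / k0)) := by nlinarith
    have h5 : (t : ℝ) * k / (k0 : ℝ) ^ 2 ≤ (t / k0) ^ 2 := by
      rw [div_pow]
      exact div_le_div_of_nonneg_right (by nlinarith) (by positivity)
    have h6 := Real.exp_pos (-2 * t / k0)
    have h7 : Real.exp (-2 * t / k0) * ((t : ℝ) * k / (k0 : ℝ) ^ 2) ≤ 4 * E := by
      have := mul_le_mul_of_nonneg_left (h5.trans h4) h6.le
      linarith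
    calc Real.exp (-2 * t / k0) / k0
        = Real.exp (-2 * t / k0) * ((t : ℝ) * k / (k0 : ℝ) ^ 2) * (k0 / (t * k)) := by
          field_simp
      _ ≤ 4 * E * (k0 / (t * k)) := mul_le_mul_of_nonneg_right h7 (by positivity)
      _ = _ := by ring
  have b5 : Real.exp (15 / 4) * ((k0 : ℝ) / t * (Real.exp (-(15 / 4)) * E) / k) =
      k0 / (t * k) * E := by
    rw [Real.exp_neg]
    field_simp
  have b6 := mul_le_mul_of_nonneg_left b2 (Real.exp_pos (15 / 4)).le
  unfold psiS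
  rw [← hE]
  calc _ ≤ C * (5 * (Real.exp (15 / 4) * Sup k0 e t k)) :=
        mul_le_mul_of_nonneg_left (by linarith) hC
    _ = _ := by ring

theorem loss_bound : ∃ cR c1 : ℝ, 1 ≤ cR ∧ 1 ≤ c1 ∧ ∀ (C : ℝ) (G k0 : ℕ), 0 ≤ C → 1 ≤ G →
    G ≤ k0 → 1000 ≤ k0 → HB k0 → ∀ e t p : ℕ, St e t (kk p) → k0 ≤ kk p →
    XX C G k0 e t p ≤ psiS (cR * C) G k0 t (kk p) + TP k0 (XX C G k0) e t p ∧
      XX C G k0 e t p ≤ c1 * C * Sup k0 e t (kk p) := by
  obtain ⟨cR, hR, H1⟩ := conv_box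
  obtain ⟨c, hc, H2⟩ := psiS_le
  have hcc : 1 ≤ c * cR := one_le_mul_of_one_le_of_one_le hc hR
  refine ⟨cR, 100 / 3 * (c * cR), hR, by linarith, fun C G k0 hC hG hGk h0 hB => ?_⟩
  have first : ∀ e t p : ℕ, St e t (kk p) → k0 ≤ kk p →
      XX C G k0 e t p ≤ psiS (cR * C) G k0 t (kk p) + TP k0 (XX C G k0) e t p := by
    intro e t p hs hk
    have h1 := H1 C G k0 e t (kk p) hC hG (by omega) hk hs
    have h2 := TP_le_TB hB (Rr C) (fun e t k => by
      unfold Rr
      split_ifs <;> positivity) e t p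
    have h3 := box_upper hB ((PP k0 p).filter fun q => ¬ Cont e t (kk q))
      ((Icc k0 (kk p)).filter fun k' => ¬ Cont e t k') (fun q hq => by
        obtain ⟨h4, h5⟩ := mem_filter.1 hq
        obtain ⟨h6, h7, h8⟩ := mem_PP.1 h4
        exact ⟨h7, mem_filter.2 ⟨mem_Icc.2 ⟨h8, kk_mono h6.le⟩, h5⟩⟩)
      (fun k hk => (mem_Icc.1 (mem_filter.1 hk).1).1) (fun k' => bd C G (t - k') k')
      fun k' _ => by
        unfold bd
        split_ifs <;> positivity
    have h4 : UU C G k0 e t p = psi C k0 t + (TP k0 (XX C G k0) e t p +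
        TP k0 (fun e t q => Rr C e t (kk q)) e t p +
        ∑ q ∈ (PP k0 p).filter fun q => ¬ Cont e t (kk q), bd C G (t - kk q) (kk q) / q) := by
      rw [U_rec, TP, TP, ← sum_add_distrib, sum_filter, sum_filter, ← sum_add_distrib]
      congr 1
      refine sum_congr rfl fun q _ => ?_
      unfold XX
      split_ifs <;> ring
    unfold XX at h4 ⊢
    linarith
  refine fun e t p hs hk => ⟨first e t p hs hk, ?_⟩
  induction p using Nat.strong_induction_on generalizing e t with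
  | _ p ih =>
    have h1 := first e t p hs hk
    have h2 := H2 (cR * C) G k0 e t (kk p) (by positivity) (by omega) hGk hk hs
    have h3 := TP_le_TB hB (Sup k0) (Sup_nonneg k0) e t p
    have h4 := sup_step h0 hk hs
    have h5 : TP k0 (XX C G k0) e t p ≤
        100 / 3 * (c * cR) * C * TP k0 (fun e t q => Sup k0 e t (kk q)) e t p := by
      unfold TP
      rw [mul_sum]
      refine sum_le_sum fun q hq => ?_
      obtain ⟨h6, h7⟩ := mem_filter.1 hq
      obtain ⟨h8, -, h9⟩ := mem_PP.1 h6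
      rw [← mul_div_assoc]
      exact div_le_div_of_nonneg_right
        (ih q h8 _ _ (hs.child (kk_mono h8.le) h7).1 h9) (by positivity)
    have h6 := mul_le_mul_of_nonneg_left (h3.trans h4)
      (by positivity : 0 ≤ 100 / 3 * (c * cR) * C)
    linarith

end

end Pool.Agent.Jac
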