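import Pool.Agent.P.MP_45ff98_nt.JBase

/-! Counting lemma for the subsolution. -/

namespace Pool.Agent.Jac
open Finset

noncomputable section

theorem JN6a_amgm (k t : ℝ) : 256 / 27 * (k * (t - k) ^ 3) ≤ t ^ 4 := by
  have h1 : 0 ≤ (4 * k - t) ^ 2 * (16 * k ^ 2 - 40 * k * t + 27 * t ^ 2) := by
    apply mul_nonneg (sq_nonneg _)
    nlinarith [sq_nonneg (4 * k - 5 * t), sq_nonneg t]
  nlinarith [h1]

theorem JN6a_third (k t : ℝ) (ht : 0 ≤ t) (h1 : t ≤ 3 * k) (h2 : k ≤ t) :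
    81 / 8 * (k * (t - k) ^ 3) ≤ t ^ 4 := by
  have hv : 0 ≤ 3 * k - t := by linarith
  have h3 : 0 ≤ (3 * k - t) * (3 * k - t - 5 / 2 * t) ^ 2 := mul_nonneg hv (sq_nonneg _)
  have h4 : 0 ≤ t ^ 2 * (4 * t - (3 * k - t) / 4) := mul_nonneg (sq_nonneg _) (by linarith)
  have h5 : 0 ≤ (3 * k - t) * ((3 * k - t) * (3 * k - t - 5 / 2 * t) ^ 2 +
      t ^ 2 * (4 * t - (3 * k - t) / 4)) := mul_nonneg hv (add_nonneg h3 h4)
  nlinarith [h5]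

theorem JN6a_card (α β : ℝ) (t : ℕ) (K : Finset ℕ) (hα : 0 < α)
    (hK : ∀ k : ℕ, α * t ≤ k → (k : ℝ) < β * t → k ∈ K) :
    (β - α) * t - 1 ≤
      ((K.filter (fun k : ℕ => α * t ≤ k ∧ (k : ℝ) < β * t)).card : ℝ) := by
  have hsub : Ico ⌈α * t⌉₊ ⌈β * t⌉₊ ⊆ K.filter (fun k : ℕ => α * t ≤ k ∧ (k : ℝ) < β * t) := by
    intro k hk
    rw [mem_Ico, Nat.ceil_le, Nat.lt_ceil] at hk
    exact mem_filter.2 ⟨hK k hk.1 hk.2, hk.1, hk.2⟩
  have hc := card_le_card hsub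
  rw [Nat.card_Ico] at hc
  have h0 : 0 ≤ α * t := mul_nonneg hα.le (Nat.cast_nonneg _)
  have h1 : (⌈α * t⌉₊ : ℝ) < α * t + 1 := Nat.ceil_lt_add_one h0
  have h2 : β * t ≤ (⌈β * t⌉₊ : ℝ) := Nat.le_ceil _
  have h3 : ⌈β * t⌉₊ ≤ ⌈α * t⌉₊ +
      (K.filter (fun k : ℕ => α * t ≤ k ∧ (k : ℝ) < β * t)).card := by omega
  have h4 : (⌈β * t⌉₊ : ℝ) ≤ (⌈α * t⌉₊ : ℝ) +
      ((K.filter (fun k : ℕ => α * t ≤ k ∧ (k : ℝ) < β * t)).card : ℝ) := by exact_mod_cast h3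
  linarith

/-- Lower bound for the kernel on a range of children. -/
theorem kernel_lower (α β κ : ℝ) (t : ℕ) (K : Finset ℕ) (ht : 1 ≤ t) (hα : 0 < α) (hβ : β < 1)
    (hκ : κ = 256 / 27 ∨ (κ = 81 / 8 ∧ 1 / 3 ≤ α))
    (hK : ∀ k : ℕ, α * t ≤ k → (k : ℝ) < β * t → k ∈ K) (hK2 : ∀ k ∈ K, k < t) :
    κ * (β - α - 1 / t) / (t : ℝ) ^ 3 ≤
      ∑ k ∈ K.filter (fun k : ℕ => α * t ≤ k ∧ (k : ℝ) < β * t),
        1 / ((k : ℝ) * ((t - k : ℕ) : ℝ) ^ 3) := by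
  have htp : (0 : ℝ) < t := by exact_mod_cast ht
  have hκ0 : 0 < κ := by
    rcases hκ with h | h
    · rw [h]; norm_num
    · rw [h.1]; norm_num
  have hterm : ∀ k ∈ K.filter (fun k : ℕ => α * t ≤ k ∧ (k : ℝ) < β * t),
      κ / (t : ℝ) ^ 4 ≤ 1 / ((k : ℝ) * ((t - k : ℕ) : ℝ) ^ 3) := by
    intro k hk
    obtain ⟨hkK, hk1, _⟩ := mem_filter.1 hk
    have hkt := hK2 k hkK
    have hkt' : (k : ℝ) < t := by exact_mod_cast hkt
    have hk0 : (0 : ℝ) < k := lt_of_lt_of_le (mul_pos hα htp) hk1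
    rw [Nat.cast_sub hkt.le]
    have hd : (0 : ℝ) < (k : ℝ) * ((t : ℝ) - k) ^ 3 :=
      mul_pos hk0 (pow_pos (by linarith) 3)
    rw [div_le_div_iff₀ (pow_pos htp 4) hd, one_mul]
    rcases hκ with h | h
    · rw [h]; exact JN6a_amgm _ _
    · rw [h.1]
      apply JN6a_third _ _ htp.le _ hkt'.le
      have := mul_le_mul_of_nonneg_right h.2 htp.le
      linarith
  have hs := card_nsmul_le_sum _ _ _ hterm
  rw [nsmul_eq_mul] at hs
  refine le_trans ?_ hs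
  have hc := JN6a_card α β t K hα hK
  have e1 : κ * (β - α - 1 / t) / (t : ℝ) ^ 3 = ((β - α) * t - 1) * (κ / (t : ℝ) ^ 4) := by
    field_simp
  rw [e1]
  exact mul_le_mul_of_nonneg_right hc (div_nonneg hκ0.le (pow_nonneg htp.le 4))

theorem JN6a_ind_nonneg (a b : ℕ) : 0 ≤ ind a b := by
  unfold ind; split_ifs <;> norm_num

theorem JN6a_ind_le (a b : ℕ) : ind a b ≤ 1 := by
  unfold ind; split_ifs <;> norm_num

theorem JN6a_ind_zero {a b : ℕ} (h : b < a) : ind a b = 0 := by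
  unfold ind; rw [if_neg (by omega)]

theorem Gs_nonneg (e t k : ℕ) : 0 ≤ Gs e t k := by
  have h1 := JN6a_ind_nonneg (2 * t) (5 * k)
  have h2 := JN6a_ind_nonneg t (3 * k)
  have h3 := JN6a_ind_nonneg (2 * t) (7 * k)
  have h4 := JN6a_ind_nonneg t (4 * k)
  have h5 := JN6a_ind_nonneg (2 * t) (9 * k)
  have h6 := JN6a_ind_nonneg (4 * t) (21 * k)
  unfold Gs
  split_ifs <;> linarith

theorem Gs_le (e t k : ℕ) : Gs e t k ≤ 2 := by
  have h1 := JN6a_ind_le (2 * t) (5 * k)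
  have h2 := JN6a_ind_le t (3 * k)
  have h3 := JN6a_ind_le (2 * t) (7 * k)
  have h4 := JN6a_ind_le t (4 * k)
  have h5 := JN6a_ind_le (2 * t) (9 * k)
  have h6 := JN6a_ind_le (4 * t) (21 * k)
  unfold Gs
  split_ifs <;> linarith

theorem Gs_zero {e t k : ℕ} (h : 6 * k < t) : Gs e t k = 0 := by
  have h1 : ind (2 * t) (5 * k) = 0 := JN6a_ind_zero (by omega)
  have h2 : ind t (3 * k) = 0 := JN6a_ind_zero (by omega)
  have h3 : ind (2 * t) (7 * k) = 0 := JN6a_ind_zero (by omega)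
  have h4 : ind t (4 * k) = 0 := JN6a_ind_zero (by omega)
  have h5 : ind (2 * t) (9 * k) = 0 := JN6a_ind_zero (by omega)
  have h6 : ind (4 * t) (21 * k) = 0 := JN6a_ind_zero (by omega)
  unfold Gs
  rw [h1, h2, h3, h4, h5, h6]
  split_ifs <;> norm_num

end

end Pool.Agent.Jac
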