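import Pool.Agent.P.MP_45ff98_nt.JRec

/-! Landing, last six steps. -/

namespace Pool.Agent.Jac
open Finset

noncomputable section

theorem JN8a_drop {P : Par} (hB : HB P.k0) {e t p : ℕ} (K : Finset ℕ) (f : ℕ → ℝ)
    (hf : ∀ k ∈ K, 0 ≤ f k) (hK : ∀ k ∈ K, P.k0 ≤ k ∧ k < kk p)
    (h : ∀ q, kk q ∈ K → f (kk q) ≤ if AlwS P t (kk q) then
      (if Cont e t (kk q) then Gam P (e + 1) (t - kk q) q
        else if TermS P t (kk q) then 1 / (kk q : ℝ) else 0) else 0) :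
    ∑ k ∈ K, 99 / 100 / (k : ℝ) * f k ≤ Gam P e t p := by
  refine (box_lower hB p K hK f hf).trans ?_
  rw [Gam_rec, sum_filter]
  refine sum_le_sum fun q _ => ?_
  by_cases hq : kk q ∈ K
  · rw [if_pos hq]
    exact div_le_div_of_nonneg_right (h q hq) (Nat.cast_nonneg q)
  · rw [if_neg hq]
    have := Gam_nonneg P (e + 1) (t - kk q) q
    refine div_nonneg ?_ (Nat.cast_nonneg q)
    split_ifs <;> positivity

/-- One step down the tree. -/
theorem Gam_step {P : Par} (hB : HB P.k0) {e t p : ℕ} (K : Finset ℕ) (c : ℝ) (hc : 0 ≤ c)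
    (hK : ∀ k ∈ K, P.k0 ≤ k ∧ k < kk p ∧ AlwS P t k ∧ Cont e t k ∧
      ∀ q, kk q = k → c ≤ Gam P (e + 1) (t - k) q) :
    (∑ k ∈ K, 99 / 100 / (k : ℝ)) * c ≤ Gam P e t p := by
  rw [sum_mul]
  refine JN8a_drop hB K (fun _ => c) (fun _ _ => hc) (fun k hk => ⟨(hK k hk).1, (hK k hk).2.1⟩)
    fun q hq => ?_
  obtain ⟨-, -, h1, h2, h3⟩ := hK _ hq
  rw [if_pos h1, if_pos h2]
  exact h3 q rfl

theorem JN8a_alw {P : Par} (h1 : 11 * P.kw ≤ P.k1) (h2 : P.k1 ≤ P.kW) (h3 : 7 ≤ P.CW) {t k : ℕ}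
    (ht : t < 13 * P.kw) (hk : t ≤ 9 * k) : AlwS P t k := by
  have := Nat.mul_le_mul_right P.kW h3
  exact ⟨fun _ => by omega, fun _ => ⟨by omega, hk⟩⟩

theorem JN8a_mass (lo t : ℕ) (ht : 600 ≤ t) (g : ℕ → ℝ) (m : ℝ) (hm : 0 ≤ m)
    (h : ∀ k ∈ Ico lo (lo + t / 600), m ≤ g k) :
    t / 1200 * m ≤ ∑ k ∈ Ico lo (lo + t / 600), g k := by
  refine le_trans ?_ (card_nsmul_le_sum _ _ _ h)
  rw [Nat.card_Ico, Nat.add_sub_cancel_left, nsmul_eq_mul]
  refine mul_le_mul_of_nonneg_right ?_ hm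
  have : t ≤ 1200 * (t / 600) := by omega
  have : (t : ℝ) ≤ 1200 * (t / 600 : ℕ) := by exact_mod_cast this
  linarith

theorem JN8a_base {P : Par} (hB : HB P.k0) (h0 : 2 * P.k0 ≤ P.kw) (hw : 600 ≤ P.kw)
    (h1 : 11 * P.kw ≤ P.k1) (h2 : P.k1 ≤ P.kW) (h3 : 7 ≤ P.CW) (e t p : ℕ) (he : Odd (e + 0))
    (ha : 310 * P.kw ≤ 100 * t) (hb : t < 13 * P.kw) (hp : 10 * t ≤ 28 * kk p) :
    1 / 15600 / (P.kw : ℝ) ≤ Gam P e t p := by
  have ht : 600 ≤ t := by omega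
  have ht' : (0 : ℝ) < t := by exact_mod_cast (by omega : 0 < t)
  have hw' : (0 : ℝ) < P.kw := by exact_mod_cast (by omega : 0 < P.kw)
  refine le_trans ?_ (JN8a_drop hB (Ico (t / 3 + 1) (t / 3 + 1 + t / 600)) (fun k => 1 / (k : ℝ))
    (fun k _ => by positivity) (fun k hk => ?_) fun q hq => ?_)
  · refine le_trans ?_ (JN8a_mass _ t ht _ (1 / (t : ℝ) ^ 2) (by positivity) fun k hk => ?_)
    · have : (t : ℝ) ≤ 13 * P.kw := by exact_mod_cast hb.le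
      rw [div_div, div_le_iff₀ (by positivity)]
      have e1 : (t : ℝ) / 1200 * (1 / (t : ℝ) ^ 2) * (15600 * P.kw) = 13 * P.kw / t := by
        field_simp; ring
      rw [e1, le_div_iff₀ ht']
      linarith
    · rw [mem_Ico] at hk
      have hk0 : (0 : ℝ) < k := by exact_mod_cast (by omega : 0 < k)
      have : (2 : ℝ) * k ≤ t := by exact_mod_cast (by omega : 2 * k ≤ t)
      rw [div_mul_div_comm, div_le_div_iff₀ (by positivity) (by positivity)]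
      nlinarith
  · rw [mem_Ico] at hk
    omega
  · rw [mem_Ico] at hq
    have h4 : ¬ Cont e t (kk q) := fun h => by
      have := h (Odd.add_one he)
      omega
    have h5 : TermS P t (kk q) := ⟨by omega, by omega, by omega⟩
    rw [if_pos (JN8a_alw h1 h2 h3 hb (by omega)), if_neg h4, if_pos h5]

theorem JN8a_step {P : Par} (hB : HB P.k0) (h0 : 2 * P.k0 ≤ P.kw) (hw : 600 ≤ P.kw)
    (h1 : 11 * P.kw ≤ P.k1) (h2 : P.k1 ≤ P.kW) (h3 : 7 ≤ P.CW) {A A' B B' r : ℕ} {c : ℝ}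
    (hc : 0 ≤ c)
    (har : ∀ t k w : ℕ, B' * w ≤ 100 * t → 10 * t / (A + 10) + 1 ≤ k →
      k < 10 * t / (A + 10) + 1 + t / 600 → 10 * (t - k) ≤ A * k ∧ A' * k < 10 * t ∧
      B * w ≤ 100 * (t - k) ∧ w ≤ 2 * k ∧ 3 * k ≤ t ∧ t ≤ 9 * k)
    (hB' : 100 ≤ B')
    (H : ∀ e t p : ℕ, Odd (e + r) → B * P.kw ≤ 100 * t → t < 13 * P.kw → 10 * t ≤ A * kk p →
      c ≤ Gam P e t p) (e t p : ℕ) (he : Odd (e + (r + 1))) (ha : B' * P.kw ≤ 100 * t)
    (hb : t < 13 * P.kw) (hp : 10 * t ≤ A' * kk p) : 1 / 1200 * c ≤ Gam P e t p := by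
  have ht : 600 ≤ t := by
    have := Nat.mul_le_mul_right P.kw hB'
    omega
  have ht' : (0 : ℝ) < t := by exact_mod_cast (by omega : 0 < t)
  refine le_trans (mul_le_mul_of_nonneg_right ?_ hc)
    (Gam_step hB (Ico (10 * t / (A + 10) + 1) (10 * t / (A + 10) + 1 + t / 600)) c hc
      fun k hk => ?_)
  · refine le_trans (le_of_eq ?_) (JN8a_mass _ t ht _ (1 / (t : ℝ)) (by positivity) fun k hk => ?_)
    · field_simp
    · rw [mem_Ico] at hk
      obtain ⟨-, -, -, -, h4, h5⟩ := har t k P.kw ha hk.1 hk.2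
      have hk0 : (0 : ℝ) < k := by exact_mod_cast (by omega : 0 < k)
      have : (3 : ℝ) * k ≤ t := by exact_mod_cast h4
      rw [div_le_div_iff₀ ht' hk0]
      linarith
  · rw [mem_Ico] at hk
    obtain ⟨a1, a2, a3, a4, a5, a6⟩ := har t k P.kw ha hk.1 hk.2
    refine ⟨by omega, Nat.lt_of_mul_lt_mul_left (a2.trans_le hp), JN8a_alw h1 h2 h3 hb a6,
      fun _ => a5, fun q hq => H _ _ _ ?_ a3 (by omega) (by rw [hq]; exact a1)⟩
    rwa [add_assoc, add_comm 1 r]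

theorem landing_end : ∃ c : ℝ, 0 < c ∧ ∃ K : ℕ, ∀ P : Par, HB P.k0 → 2 * P.k0 ≤ P.kw → K ≤ P.kw →
    11 * P.kw ≤ P.k1 → P.k1 ≤ P.kW → 7 ≤ P.CW → ∀ e t p : ℕ, Even e → 47 * P.kw ≤ 5 * t →
    t < 13 * P.kw → t ≤ 7 * kk p → c / P.kw ≤ Gam P e t p := by
  refine ⟨(1 / 1200) ^ 5 * (1 / 15600), by positivity, 600,
    fun P hB h0 hw h1 h2 h3 e t p he ha hb hp => ?_⟩
  have s0 := JN8a_base hB h0 hw h1 h2 h3
  have s1 := JN8a_step hB h0 hw h1 h2 h3 (A' := 37) (B' := 425) (by positivity)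
    (fun t k w => by omega) (by norm_num) s0
  have s2 := JN8a_step hB h0 hw h1 h2 h3 (A' := 46) (B' := 544) (by positivity)
    (fun t k w => by omega) (by norm_num) s1
  have s3 := JN8a_step hB h0 hw h1 h2 h3 (A' := 55) (B' := 665) (by positivity)
    (fun t k w => by omega) (by norm_num) s2
  have s4 := JN8a_step hB h0 hw h1 h2 h3 (A' := 64) (B' := 789) (by positivity)
    (fun t k w => by omega) (by norm_num) s3
  have s5 := JN8a_step hB h0 hw h1 h2 h3 (A' := 73) (B' := 915) (by positivity)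
    (fun t k w => by omega) (by norm_num) s4
  refine le_trans (le_of_eq (by ring)) (s5 e t p (he.add_odd (by decide)) (by omega) hb (by omega))

end

end Pool.Agent.Jac
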