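import Pool.Agent.P.MP_45ff98_nt.JMert
import Pool.Agent.P.MP_78d079_nt.PNT

/-! Integers free of a given set of primes. -/

namespace Pool.Agent.Jac
open Finset

noncomputable section

theorem js1_primes : ∃ Y0 : ℝ, ∀ Y : ℝ, Y0 ≤ Y →
    Y / 20 ≤ (((Ioc ⌊Y⌋₊ ⌊11 / 10 * Y⌋₊).filter Nat.Prime).card : ℝ) * Real.log (11 / 10 * Y) := by
  have h1 := Pool.Agent.P.MP_78d079_nt.theta_lower (δ := 1 / 100) (by norm_num)
  have h2 := Pool.Agent.P.MP_78d079_nt.pnt.eventually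
    (gt_mem_nhds (show (1 : ℝ) < 101 / 100 by norm_num))
  obtain ⟨a, ha⟩ := Filter.eventually_atTop.1 h1
  obtain ⟨b, hb⟩ := Filter.eventually_atTop.1 h2
  refine ⟨max 1 (max a b), fun Y hY => ?_⟩
  have hY1 : 1 ≤ Y := (le_max_left _ _).trans hY
  have hYa : a ≤ Y := (le_max_left _ _).trans ((le_max_right _ _).trans hY)
  have hYb : b ≤ Y := (le_max_right _ _).trans ((le_max_right _ _).trans hY)
  have h3 := ha (11 / 10 * Y) (by linarith)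
  have h4 := hb Y hYb
  rw [div_lt_iff₀ (by linarith)] at h4
  have h5 := Chebyshev.theta_le_psi Y
  have hle : ⌊Y⌋₊ ≤ ⌊11 / 10 * Y⌋₊ := Nat.floor_le_floor (by linarith)
  have h6 : Chebyshev.theta (11 / 10 * Y) = Chebyshev.theta Y +
      ∑ p ∈ (Ioc ⌊Y⌋₊ ⌊11 / 10 * Y⌋₊).filter Nat.Prime, Real.log p := by
    unfold Chebyshev.theta
    rw [← Ioc_union_Ioc_eq_Ioc (Nat.zero_le _) hle, filter_union, sum_union]
    exact disjoint_filter_filter (Ioc_disjoint_Ioc_of_le le_rfl)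
  have h7 : ∑ p ∈ (Ioc ⌊Y⌋₊ ⌊11 / 10 * Y⌋₊).filter Nat.Prime, Real.log p ≤
      (((Ioc ⌊Y⌋₊ ⌊11 / 10 * Y⌋₊).filter Nat.Prime).card : ℝ) * Real.log (11 / 10 * Y) := by
    rw [← nsmul_eq_mul]
    refine sum_le_card_nsmul _ _ _ fun p hp => ?_
    obtain ⟨h8, h9⟩ := mem_filter.1 hp
    refine Real.log_le_log (by exact_mod_cast h9.pos) ?_
    exact (Nat.cast_le.2 (mem_Ioc.1 h8).2).trans (Nat.floor_le (by linarith))
  linarith

theorem js1_split (S : Finset ℕ) (hS : ∀ r ∈ S, r.Prime) (n : ℕ) (hn : n ≠ 0) :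
    ∃ a b : ℕ, a * b = n ∧ (∀ r ∈ S, ¬ r ∣ a) ∧ b ∈ Submonoid.closure (S : Set ℕ) := by
  induction n using Nat.strong_induction_on with
  | _ n ih =>
    by_cases h : ∀ r ∈ S, ¬ r ∣ n
    · exact ⟨n, 1, mul_one n, h, Submonoid.one_mem _⟩
    push Not at h
    obtain ⟨r, hr, m, rfl⟩ := h
    have hm : m ≠ 0 := fun h => hn (by rw [h, mul_zero])
    have h2 := (hS r hr).two_le
    obtain ⟨a, b, h1, h3, h4⟩ := ih m (by have := Nat.pos_of_ne_zero hm; nlinarith) hm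
    exact ⟨a, r * b, by rw [← h1]; ring, h3,
      Submonoid.mul_mem _ (Submonoid.subset_closure hr) h4⟩

theorem js1_harm (S : Finset ℕ) (hS : ∀ r ∈ S, r.Prime) (A : ℕ) :
    Real.log (A + 1) * ∏ r ∈ S, (1 - 1 / (r : ℝ)) ≤
      ∑ a ∈ (Ioc 0 A).filter (fun a => ∀ r ∈ S, ¬ r ∣ a), 1 / (a : ℝ) := by
  classical
  choose! a b hab ha hb using js1_split S hS
  have hlt : ∀ r ∈ S, 1 / (r : ℝ) < 1 := fun r hr => by
    rw [div_lt_one (by exact_mod_cast (hS r hr).pos)]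
    exact_mod_cast (hS r hr).one_lt
  have hP : 0 < ∏ r ∈ S, (1 - 1 / (r : ℝ)) := prod_pos fun r hr => by linarith [hlt r hr]
  have h1 : Real.log (A + 1) ≤ ∑ n ∈ Ioc 0 A, 1 / (n : ℝ) := by
    have := log_add_one_le_harmonic A
    rw [harmonic_eq_sum_Icc] at this
    push_cast at this
    rw [← Finset.Icc_add_one_left_eq_Ioc, zero_add]
    simpa only [one_div] using this
  let φ : ℕ → ℕ × ℕ := fun n => (a n, b n)
  have hne : ∀ n ∈ Ioc 0 A, n ≠ 0 := fun n hn => (mem_Ioc.1 hn).1.ne'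
  have hφ : Set.InjOn φ (Ioc 0 A : Finset ℕ) := by
    intro x hx y hy h
    simp only [φ, Prod.mk.injEq] at h
    rw [← hab x (hne x hx), ← hab y (hne y hy), h.1, h.2]
  let F : ℕ × ℕ → ℝ := fun x => 1 / (x.1 : ℝ) * (1 / (x.2 : ℝ))
  have hsub : (Ioc 0 A).image φ ⊆
      (Ioc 0 A).filter (fun a => ∀ r ∈ S, ¬ r ∣ a) ×ˢ (Ioc 0 A).image b := by
    intro x hx
    obtain ⟨n, hn, rfl⟩ := mem_image.1 hx
    have h2 := hab n (hne n hn)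
    have h3 : a n ∣ n := ⟨b n, h2.symm⟩
    have h4 := mem_Ioc.1 hn
    refine mem_product.2 ⟨mem_filter.2 ⟨mem_Ioc.2 ⟨Nat.pos_of_dvd_of_pos h3 h4.1,
      (Nat.le_of_dvd h4.1 h3).trans h4.2⟩, ha n (hne n hn)⟩, mem_image_of_mem _ hn⟩
  have h5 : ∑ v ∈ (Ioc 0 A).image b, 1 / (v : ℝ) ≤ ∏ r ∈ S, (1 - 1 / (r : ℝ))⁻¹ := by
    refine Pool.Agent.Lib.Sieve.sum_le_prod_inv (fun n : ℕ => 1 / (n : ℝ)) (fun _ => by positivity)
      (by simp) (fun x y => le_of_eq (by push_cast; rw [div_mul_div_comm, one_mul])) S hlt _ ?_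
    intro v hv
    obtain ⟨n, hn, rfl⟩ := mem_image.1 hv
    exact hb n (hne n hn)
  rw [prod_inv_distrib] at h5
  have h6 : ∑ n ∈ Ioc 0 A, 1 / (n : ℝ) ≤
      (∑ a ∈ (Ioc 0 A).filter (fun a => ∀ r ∈ S, ¬ r ∣ a), 1 / (a : ℝ)) *
        (∏ r ∈ S, (1 - 1 / (r : ℝ)))⁻¹ := by
    calc ∑ n ∈ Ioc 0 A, 1 / (n : ℝ) = ∑ n ∈ Ioc 0 A, F (φ n) := by
          refine sum_congr rfl fun n hn => ?_
          conv_lhs => rw [← hab n (hne n hn)]
          simp only [F, φ]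
          push_cast
          rw [div_mul_div_comm, one_mul]
      _ = ∑ x ∈ (Ioc 0 A).image φ, F x := (sum_image hφ).symm
      _ ≤ ∑ x ∈ (Ioc 0 A).filter (fun a => ∀ r ∈ S, ¬ r ∣ a) ×ˢ (Ioc 0 A).image b, F x :=
          sum_le_sum_of_subset_of_nonneg hsub fun _ _ _ => by simp only [F]; positivity
      _ = (∑ a ∈ (Ioc 0 A).filter (fun a => ∀ r ∈ S, ¬ r ∣ a), 1 / (a : ℝ)) *
          ∑ v ∈ (Ioc 0 A).image b, 1 / (v : ℝ) := by rw [sum_mul_sum, sum_product]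
      _ ≤ _ := mul_le_mul_of_nonneg_left h5 (sum_nonneg fun _ _ => by positivity)
  rw [← div_eq_mul_inv, le_div_iff₀ hP] at h6
  exact (mul_le_mul_of_nonneg_right h1 hP.le).trans h6

theorem subset_sieve : ∃ c X0 : ℝ, 0 < c ∧ ∀ (X : ℝ) (S : Finset ℕ), X0 ≤ X →
    (∀ r ∈ S, r.Prime ∧ (r : ℝ) ^ 5 ≤ X ^ 4) →
    c * X * ∏ r ∈ S, (1 - 1 / (r : ℝ)) ≤
      (((Ioc ⌊X⌋₊ ⌊11 / 10 * X⌋₊).filter (fun m => ∀ r ∈ S, ¬ r ∣ m)).card : ℝ) := by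
  classical
  obtain ⟨Y0, hY0⟩ := js1_primes
  refine ⟨1 / 400, (max 2 Y0) ^ 10, by norm_num, fun X S hX hS => ?_⟩
  have hm2 : (2 : ℝ) ≤ max 2 Y0 := le_max_left _ _
  have hX0 : 0 ≤ X := le_trans (by positivity) hX
  obtain ⟨Z, hZ0, rfl⟩ : ∃ Z : ℝ, 0 ≤ Z ∧ Z ^ 10 = X :=
    ⟨X ^ ((10 : ℕ) : ℝ)⁻¹, Real.rpow_nonneg hX0 _, Real.rpow_inv_natCast_pow hX0 (by norm_num)⟩
  have hZm : max 2 Y0 ≤ Z := le_of_pow_le_pow_left₀ (n := 10) (by norm_num) hZ0 hX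
  have hZ2 : 2 ≤ Z := hm2.trans hZm
  have hZ1 : 1 ≤ Z := by linarith
  have hZY : Y0 ≤ Z := (le_max_right _ _).trans hZm
  have hZ9 : Z ≤ Z ^ 9 := le_self_pow₀ hZ1 (by norm_num)
  have hZ89 : Z ^ 8 ≤ Z ^ 9 := pow_le_pow_right₀ hZ1 (by norm_num)
  have hZ10 : Z ≤ Z ^ 10 := le_self_pow₀ hZ1 (by norm_num)
  have hlog : 0 < Real.log Z := Real.log_pos (by linarith)
  set 𝒜 := (Ioc 0 ⌊Z⌋₊).filter (fun a => ∀ r ∈ S, ¬ r ∣ a) with h𝒜
  let Q : ℕ → Finset ℕ := fun a => (Ioc ⌊Z ^ 10 / a⌋₊ ⌊11 / 10 * (Z ^ 10 / a)⌋₊).filter Nat.Prime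
  have hA : ∀ a ∈ 𝒜, (1 : ℝ) ≤ a ∧ (a : ℝ) ≤ Z ∧ Z ^ 9 ≤ Z ^ 10 / a := by
    intro a ha
    obtain ⟨h1, h2⟩ := mem_Ioc.1 (mem_filter.1 ha).1
    have h3 : (1 : ℝ) ≤ a := by exact_mod_cast h1
    have h4 : (a : ℝ) ≤ Z := (Nat.cast_le.2 h2).trans (Nat.floor_le hZ0)
    refine ⟨h3, h4, ?_⟩
    rw [le_div_iff₀ (by linarith), pow_succ Z 9]
    exact mul_le_mul_of_nonneg_left h4 (by positivity)
  have hQ : ∀ a ∈ 𝒜, ∀ q ∈ Q a, q.Prime ∧ Z ^ 10 / a < q ∧ (q : ℝ) ≤ 11 / 10 * (Z ^ 10 / a) := by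
    intro a ha q hq
    obtain ⟨h1, h2⟩ := mem_filter.1 hq
    obtain ⟨h3, h4⟩ := mem_Ioc.1 h1
    exact ⟨h2, (Nat.floor_lt (by positivity)).1 h3,
      (Nat.cast_le.2 h4).trans (Nat.floor_le (by positivity))⟩
  have hcard : (𝒜.sigma Q).card ≤
      ((Ioc ⌊Z ^ 10⌋₊ ⌊11 / 10 * Z ^ 10⌋₊).filter (fun m => ∀ r ∈ S, ¬ r ∣ m)).card := by
    refine card_le_card_of_injOn (fun x => x.1 * x.2) (fun x hx => ?_) (fun x hx y hy h => ?_)
    · obtain ⟨ha, hq⟩ := mem_sigma.1 (mem_coe.1 hx)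
      obtain ⟨h1, h2, h3⟩ := hA _ ha
      obtain ⟨h4, h5, h6⟩ := hQ _ ha _ hq
      have h7 : Z ^ 10 < ((x.1 * x.2 : ℕ) : ℝ) := by
        rw [div_lt_iff₀ (by linarith)] at h5
        push_cast; linarith
      have h8 : ((x.1 * x.2 : ℕ) : ℝ) ≤ 11 / 10 * Z ^ 10 := by
        rw [← mul_div_assoc, le_div_iff₀ (by linarith)] at h6
        push_cast; linarith
      refine mem_coe.2 (mem_filter.2 ⟨mem_Ioc.2 ⟨(Nat.floor_lt (by positivity)).2 h7,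
        Nat.le_floor h8⟩, fun r hr hd => ?_⟩)
      rcases (hS r hr).1.dvd_mul.1 hd with h9 | h9
      · exact (mem_filter.1 ha).2 r hr h9
      · have h10 := (Nat.prime_dvd_prime_iff_eq (hS r hr).1 h4).1 h9
        have h11 : (r : ℝ) ≤ Z ^ 8 := by
          refine le_of_pow_le_pow_left₀ (n := 5) (by norm_num) (by positivity) ?_
          refine (hS r hr).2.trans (le_of_eq ?_)
          ring
        rw [h10] at h11
        linarith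
    · obtain ⟨ha, hq⟩ := mem_sigma.1 (mem_coe.1 hx)
      obtain ⟨ha', hq'⟩ := mem_sigma.1 (mem_coe.1 hy)
      obtain ⟨h1, h2, h3⟩ := hA _ ha
      obtain ⟨h4, h5, h6⟩ := hQ _ ha _ hq
      obtain ⟨h1', h2', h3'⟩ := hA _ ha'
      obtain ⟨h4', h5', h6'⟩ := hQ _ ha' _ hq'
      have h10 : x.1 * x.2 = y.1 * y.2 := h
      have h7 : x.2 ∣ y.1 * y.2 := ⟨x.1, by rw [← h10, mul_comm]⟩
      have h8 : x.2 = y.2 := by
        rcases h4.dvd_mul.1 h7 with h9 | h9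
        · have h10 : (x.2 : ℝ) ≤ y.1 := by
            exact_mod_cast Nat.le_of_dvd (by exact_mod_cast h1') h9
          linarith
        · exact (Nat.prime_dvd_prime_iff_eq h4 h4').1 h9
      have h9 : x.1 = y.1 := by
        rw [h8] at h10
        exact Nat.eq_of_mul_eq_mul_right h4'.pos h10
      exact Sigma.ext h9 (heq_of_eq h8)
  have hlow : ∀ a ∈ 𝒜, Z ^ 10 / (400 * Real.log Z) * (1 / (a : ℝ)) ≤ ((Q a).card : ℝ) := by
    intro a ha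
    obtain ⟨h1, h2, h3⟩ := hA _ ha
    have h4 := hY0 (Z ^ 10 / a) (by linarith)
    have h5 : Z ^ 10 / a ≤ Z ^ 10 := div_le_self (by positivity) h1
    have h6 : Real.log (11 / 10 * (Z ^ 10 / a)) ≤ 20 * Real.log Z := by
      have h7 : Real.log (Z ^ 20) = 20 * Real.log Z := by rw [Real.log_pow]; norm_num
      rw [← h7]
      refine Real.log_le_log (by positivity) ?_
      have h8 : Z ^ 20 = Z ^ 10 * Z ^ 10 := by ring
      rw [h8]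
      exact mul_le_mul (by linarith) h5 (by positivity) (by positivity)
    have h7 := h4.trans (mul_le_mul_of_nonneg_left h6 (Nat.cast_nonneg _))
    have h8 : Z ^ 10 / (400 * Real.log Z) * (1 / (a : ℝ)) =
        Z ^ 10 / a / 20 / (20 * Real.log Z) := by field_simp; norm_num
    rw [h8, div_le_iff₀ (by positivity)]
    exact h7
  have hh := js1_harm S (fun r hr => (hS r hr).1) ⌊Z⌋₊
  have hP : 0 ≤ ∏ r ∈ S, (1 - 1 / (r : ℝ)) := prod_nonneg fun r hr => by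
    have : 1 / (r : ℝ) ≤ 1 := by
      rw [div_le_one (by exact_mod_cast (hS r hr).1.pos)]
      exact_mod_cast (hS r hr).1.one_le
    linarith
  have hl : Real.log Z ≤ Real.log (⌊Z⌋₊ + 1) :=
    Real.log_le_log (by linarith) (Nat.lt_floor_add_one Z).le
  calc 1 / 400 * Z ^ 10 * ∏ r ∈ S, (1 - 1 / (r : ℝ))
      = Z ^ 10 / (400 * Real.log Z) * (Real.log Z * ∏ r ∈ S, (1 - 1 / (r : ℝ))) := by
        field_simp
    _ ≤ Z ^ 10 / (400 * Real.log Z) * ∑ a ∈ 𝒜, 1 / (a : ℝ) :=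
        mul_le_mul_of_nonneg_left ((mul_le_mul_of_nonneg_right hl hP).trans hh) (by positivity)
    _ ≤ ∑ a ∈ 𝒜, ((Q a).card : ℝ) := by
        rw [mul_sum]; exact sum_le_sum hlow
    _ = ((𝒜.sigma Q).card : ℝ) := by rw [card_sigma]; push_cast; rfl
    _ ≤ _ := by exact_mod_cast hcard

theorem js1_big (ε : ℝ) (hε : 0 < ε) (X0 : ℝ) :
    ∃ k : ℕ, 2 ≤ k ∧ ∀ K : ℕ, k ≤ K → (K : ℝ) ^ 2 ≤ ε * 2 ^ K ∧ 2 * X0 ≤ 2 ^ K := by
  have h1 := (tendsto_pow_const_div_const_pow_of_one_lt 2 (show (1 : ℝ) < 2 by norm_num)).eventually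
    (gt_mem_nhds hε)
  have h2 := (tendsto_pow_atTop_atTop_of_one_lt (show (1 : ℝ) < 2 by norm_num)).eventually_ge_atTop
    (2 * X0)
  obtain ⟨k, hk⟩ := Filter.eventually_atTop.1 (h1.and h2)
  refine ⟨max 2 k, le_max_left _ _, fun K hK => ?_⟩
  obtain ⟨h3, h4⟩ := hk K ((le_max_right _ _).trans hK)
  rw [div_lt_iff₀ (by positivity)] at h3
  exact ⟨h3.le, h4⟩

theorem m_count : ∃ c : ℝ, 0 < c ∧ ∀ B : ℕ, ∃ k : ℕ, ∀ (X : ℝ) (p a : ℕ) (S : Finset ℕ),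
    k ≤ kk p → 0 ≤ X → (p : ℝ) ^ 5 ≤ X ^ 4 → 1 ≤ a → a ≤ 2 ^ (B * kk p) →
    (∀ r ∈ S, r.Prime ∧ r < p) →
    c * X * ∏ r ∈ S, (1 - 1 / (r : ℝ)) ≤
      (((Ioc ⌊X⌋₊ ⌊11 / 10 * X⌋₊).filter (fun m => (∀ r ∈ S, ¬ r ∣ m) ∧
        ∀ r ∈ a.primeFactors, p ≤ r → ¬ r ∣ m)).card : ℝ) := by
  classical
  obtain ⟨c0, X0, hc0, hs⟩ := subset_sieve
  obtain ⟨c1, C1, hc1, -, hm⟩ := mertens_prod
  refine ⟨c0 / 2, by positivity, fun B => ?_⟩
  obtain ⟨k, hk2, hk⟩ := js1_big (c0 * c1 / (5 * (B + 1))) (by positivity) X0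
  refine ⟨k, fun X p a S hkp hX hpX ha1 haB hS => ?_⟩
  obtain ⟨hK1, hK2⟩ := hk (kk p) hkp
  have hp0 : p ≠ 0 := by
    rintro rfl
    have : kk 0 = 1 := by simp [kk]
    omega
  have hp2 : 2 ≤ p := by simpa using (le_kk_iff hp0).1 (hk2.trans hkp)
  have hpR : (2 : ℝ) ≤ p := by exact_mod_cast hp2
  have hKp : (2 : ℝ) ^ kk p ≤ 2 * p := by exact_mod_cast two_pow_kk_le' hp0
  have hpX' : (p : ℝ) ≤ X := by
    refine le_of_pow_le_pow_left₀ (n := 4) (by norm_num) hX (le_trans ?_ hpX)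
    exact pow_le_pow_right₀ (by linarith) (by norm_num)
  have h1 := hs X S (by linarith) fun r hr => ⟨(hS r hr).1, le_trans
    (pow_le_pow_left₀ (Nat.cast_nonneg _) (by exact_mod_cast (hS r hr).2.le) 5) hpX⟩
  have hfac : ∀ r : ℕ, r.Prime → 0 ≤ 1 - 1 / (r : ℝ) ∧ 1 - 1 / (r : ℝ) ≤ 1 := fun r hr => by
    have h2 : 1 / (r : ℝ) ≤ 1 := by
      rw [div_le_one (by exact_mod_cast hr.pos)]
      exact_mod_cast hr.one_le
    have h3 : 0 ≤ 1 / (r : ℝ) := by positivity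
    constructor <;> linarith
  have hsub : S ⊆ PP 0 p := fun r hr => mem_PP.2 ⟨(hS r hr).2, (hS r hr).1, Nat.zero_le _⟩
  have h2 : c1 / kk p ≤ ∏ r ∈ S, (1 - 1 / (r : ℝ)) := by
    refine (hm p hp2).1.trans ?_
    rw [← prod_sdiff hsub]
    refine mul_le_of_le_one_left (prod_nonneg fun r hr => (hfac r (hS r hr).1).1) ?_
    exact prod_le_one (fun r hr => (hfac r (mem_PP.1 (mem_sdiff.1 hr).1).2.1).1)
      fun r hr => (hfac r (mem_PP.1 (mem_sdiff.1 hr).1).2.1).2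
  set R := a.primeFactors.filter (fun r => p ≤ r) with hR
  have hRc : R.card ≤ B * kk p := by
    refine card_primes_dvd R (a : ℤ) _ (by exact_mod_cast (by omega : a ≠ 0)) ?_ fun r hr => ?_
    · rw [abs_of_nonneg (Int.natCast_nonneg a)]; exact_mod_cast haB
    · have := Nat.mem_primeFactors.1 (mem_filter.1 hr).1
      exact ⟨this.1, Int.natCast_dvd_natCast.2 this.2.1⟩
  have hcov : (Ioc ⌊X⌋₊ ⌊11 / 10 * X⌋₊).filter (fun m => ∀ r ∈ S, ¬ r ∣ m) ⊆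
      (Ioc ⌊X⌋₊ ⌊11 / 10 * X⌋₊).filter (fun m => (∀ r ∈ S, ¬ r ∣ m) ∧
        ∀ r ∈ a.primeFactors, p ≤ r → ¬ r ∣ m) ∪
      R.biUnion (fun r => (Ioc 0 ⌊11 / 10 * X⌋₊).filter (fun m => r ∣ m)) := by
    intro m hm
    obtain ⟨h3, h4⟩ := mem_filter.1 hm
    by_cases h5 : ∀ r ∈ a.primeFactors, p ≤ r → ¬ r ∣ m
    · exact mem_union_left _ (mem_filter.2 ⟨h3, h4, h5⟩)
    · push Not at h5
      obtain ⟨r, h6, h7, h8⟩ := h5
      have h9 := mem_Ioc.1 h3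
      exact mem_union_right _ (mem_biUnion.2 ⟨r, mem_filter.2 ⟨h6, h7⟩,
        mem_filter.2 ⟨mem_Ioc.2 ⟨by omega, h9.2⟩, h8⟩⟩)
  have h3 : ((R.biUnion (fun r => (Ioc 0 ⌊11 / 10 * X⌋₊).filter (fun m => r ∣ m))).card : ℝ) ≤
      B * kk p * (11 / 10 * X / p) := by
    have h4 : ((R.biUnion (fun r => (Ioc 0 ⌊11 / 10 * X⌋₊).filter (fun m => r ∣ m))).card : ℝ) ≤
        ∑ r ∈ R, (((Ioc 0 ⌊11 / 10 * X⌋₊).filter (fun m => r ∣ m)).card : ℝ) := by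
      exact_mod_cast card_biUnion_le
    refine h4.trans ((sum_le_card_nsmul _ _ (11 / 10 * X / p) fun r hr => ?_).trans ?_)
    · refine (Pool.Agent.Lib.Sieve.card_filter_dvd_le _ _).trans ?_
      exact div_le_div₀ (by positivity) (Nat.floor_le (by positivity)) (by linarith)
        (by exact_mod_cast (mem_filter.1 hr).2)
    · rw [nsmul_eq_mul]
      exact mul_le_mul_of_nonneg_right (by exact_mod_cast hRc) (by positivity)
  have h4 : (((Ioc ⌊X⌋₊ ⌊11 / 10 * X⌋₊).filter (fun m => ∀ r ∈ S, ¬ r ∣ m)).card : ℝ) ≤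
      (((Ioc ⌊X⌋₊ ⌊11 / 10 * X⌋₊).filter (fun m => (∀ r ∈ S, ¬ r ∣ m) ∧
        ∀ r ∈ a.primeFactors, p ≤ r → ¬ r ∣ m)).card : ℝ) +
      ((R.biUnion (fun r => (Ioc 0 ⌊11 / 10 * X⌋₊).filter (fun m => r ∣ m))).card : ℝ) := by
    exact_mod_cast (card_le_card hcov).trans (card_union_le _ _)
  have hKpos : (0 : ℝ) < kk p := by exact_mod_cast kk_pos p
  have h5 : (B : ℝ) * kk p * (11 / 10 * X / p) ≤ c0 / 2 * X * (c1 / kk p) := by
    have h6 : ((kk p : ℝ)) ^ 2 * (5 * (B + 1)) ≤ c0 * c1 * (2 * p) := by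
      have h7 : ((kk p : ℝ)) ^ 2 ≤ c0 * c1 / (5 * (B + 1)) * (2 * p) :=
        hK1.trans (mul_le_mul_of_nonneg_left hKp (by positivity))
      rwa [div_mul_eq_mul_div, le_div_iff₀ (by positivity)] at h7
    have h8 : (B : ℝ) * kk p * (11 / 10 * X / p) =
        X / (p * kk p) * (11 / 10 * B * (kk p : ℝ) ^ 2) := by field_simp
    have h9 : c0 / 2 * X * (c1 / kk p) = X / (p * kk p) * (c0 * c1 * p / 2) := by field_simp
    rw [h8, h9]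
    refine mul_le_mul_of_nonneg_left ?_ (by positivity)
    have h10 : (0 : ℝ) ≤ (kk p : ℝ) ^ 2 := by positivity
    have h11 : (0 : ℝ) ≤ B * (kk p : ℝ) ^ 2 := by positivity
    nlinarith
  have h6 : c0 / 2 * X * (c1 / kk p) ≤ c0 / 2 * X * ∏ r ∈ S, (1 - 1 / (r : ℝ)) :=
    mul_le_mul_of_nonneg_left h2 (by positivity)
  linarith

end

end Pool.Agent.Jac
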