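import Pool.Agent.P.MP_45ff98_nt.JSv

/-! Virtual counts, upper bound and comparison. -/

namespace Pool.Agent.Jac
open Finset

noncomputable section

theorem JS2_count (a b : ℤ) (hab : a ≤ b) (q : ℤ) (hq : 0 < q) (n N : ℤ) (h : IsCoprime n q) :
    |(((Ioc a b).filter (fun m : ℤ => q ∣ N + n * m)).card : ℝ) - ((b : ℝ) - a) / q| ≤ 1 := by
  obtain ⟨u, w, h⟩ := h
  have h1 : (Ioc a b).filter (fun m : ℤ => q ∣ N + n * m) =
      (Ioc a b).filter (fun m : ℤ => m ≡ -(N * u) [ZMOD q]) := by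
    refine filter_congr fun m _ => ?_
    rw [Int.modEq_iff_dvd]
    constructor
    · rintro ⟨c, hc⟩
      exact ⟨-(u * c + m * w), by linear_combination -u * hc + m * h⟩
    · rintro ⟨c, hc⟩
      exact ⟨N * w - n * c, by linear_combination -n * hc - N * h⟩
  have h2 := Int.Ioc_filter_modEq_card a b hq (-(N * u))
  have hq' : (0 : ℚ) < q := by exact_mod_cast hq
  have hab' : (a : ℚ) ≤ b := by exact_mod_cast hab
  rw [max_eq_left (sub_nonneg.2 (Int.floor_le_floor (by gcongr)))] at h2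
  rw [h1]
  have h3 := Int.floor_le (((b : ℚ) - (-(N * u) : ℤ)) / q)
  have h4 := Int.lt_floor_add_one (((b : ℚ) - (-(N * u) : ℤ)) / q)
  have h5 := Int.floor_le (((a : ℚ) - (-(N * u) : ℤ)) / q)
  have h6 := Int.lt_floor_add_one (((a : ℚ) - (-(N * u) : ℤ)) / q)
  have h7 : ((b : ℚ) - a) / q =
      ((b : ℚ) - (-(N * u) : ℤ)) / q - ((a : ℚ) - (-(N * u) : ℤ)) / q := by ring
  have h8 := congrArg (Int.cast : ℤ → ℚ) h2
  rw [Int.cast_sub, Int.cast_natCast] at h8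
  have h9 : |((((Ioc a b).filter (fun m : ℤ => m ≡ -(N * u) [ZMOD q])).card : ℚ)) -
      ((b : ℚ) - a) / q| ≤ 1 := by
    rw [h7, h8, abs_le]
    constructor <;> linarith
  exact_mod_cast h9

theorem JS2_sq (k : ℕ) : k ^ 2 ≤ 2 ^ (k + 1) := by
  induction k with
  | zero => simp
  | succ k ih =>
    have h : k < 2 ^ k := Nat.lt_two_pow_self
    rw [pow_succ 2 (k + 1), pow_succ 2 k] at *
    nlinarith

theorem JS2_kk {p : ℕ} (hp : p ≠ 0) : (kk p : ℝ) ≤ 2 * √p := by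
  have h1 := JS2_sq (kk p)
  have h2 := two_pow_kk_le' hp
  have h3 : kk p ^ 2 ≤ 4 * p := by rw [pow_succ 2] at h1; omega
  have h4 : (kk p : ℝ) ^ 2 ≤ 4 * p := by exact_mod_cast h3
  refine abs_le_of_sq_le_sq' ?_ (by positivity) |>.2
  rw [mul_pow, Real.sq_sqrt (Nat.cast_nonneg p)]
  linarith

theorem JS2_len (v y n : ℕ) (R : ℤ) (hn : 1 ≤ n) : R / n ≤ (R + v * y) / n ∧
    (n : ℤ) * ((R + v * y) / n - R / n) ≤ v * y + n := by
  have h0 : (0 : ℤ) < n := by exact_mod_cast hn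
  refine ⟨Int.ediv_le_ediv h0 (le_add_of_nonneg_right (by positivity)), ?_⟩
  have h1 := Int.mul_ediv_add_emod (R + v * y) n
  have h2 := Int.mul_ediv_add_emod R n
  have h4 := Int.emod_nonneg (R + v * y) h0.ne'
  have h7 := Int.emod_lt_of_pos R h0
  rw [mul_sub]
  linarith

theorem JS2_dvd {v f : ℕ} (hv : 1 ≤ v) {T : Finset ℕ} (hT : ∀ r ∈ T, r.Prime)
    (hf : f.Coprime (pr T)) (x : ℤ) :
    (((v * f : ℕ) : ℤ) ∣ x ∧ ∀ r ∈ T, ((v * r : ℕ) : ℤ) ∣ x) ↔ ((v * f * pr T : ℕ) : ℤ) ∣ x := by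
  have h0 : (v : ℤ) ≠ 0 := by positivity
  push_cast
  constructor
  · rintro ⟨⟨c, rfl⟩, h⟩
    rw [mul_assoc, mul_assoc]
    refine mul_dvd_mul_left _ ((Nat.isCoprime_iff_coprime.2 hf).mul_dvd (dvd_mul_right _ _) ?_)
    refine (pr_dvd_iff hT _).2 fun r hr => ?_
    have h1 := h r hr
    rwa [mul_assoc, mul_dvd_mul_iff_left h0] at h1
  · intro h
    refine ⟨(dvd_mul_right _ _).trans h, fun r hr => dvd_trans ?_ h⟩
    rw [mul_assoc]
    exact mul_dvd_mul_left _ (((pr_dvd_iff hT _).1 dvd_rfl r hr).mul_left _)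

theorem vc_upper : ∃ C : ℝ, 0 < C ∧ ∀ (v y n f p : ℕ) (Ns R : ℤ), 1 ≤ v → 1 ≤ n → 1 ≤ f → 2 ≤ p →
    IsCoprime Ns (v : ℤ) → n.Coprime f → (∀ r : ℕ, r.Prime → r ∣ n * f → p ≤ r) →
    p * (n * f) ≤ y → (vc v Ns R y n f p : ℝ) ≤ C * y / ((n : ℝ) * f * kk p) := by
  obtain ⟨C, hC, hS⟩ := sieve
  obtain ⟨_, K, -, hK, hM⟩ := mertens_prod
  refine ⟨2 * (1 + C) * K + 2, by positivity, ?_⟩
  intro v y n f p Ns R hv hn hf hp hc hnf hr hy
  have hk : (0 : ℝ) < kk p := by exact_mod_cast kk_pos p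
  by_cases hnv : n.Coprime v
  swap
  · have : vc v Ns R y n f p = 0 := by
      rw [vc, card_eq_zero, filter_eq_empty_iff]
      rintro m - ⟨h1, -⟩
      refine hnv (Nat.isCoprime_iff_coprime.1 ?_)
      have h2 : (v : ℤ) ∣ Ns + n * m := dvd_trans (by push_cast; exact dvd_mul_right _ _) h1
      obtain ⟨c, h2⟩ := h2
      obtain ⟨a, b, h3⟩ := hc
      exact ⟨-(a * m), a * c + b, by linear_combination h3 - a * h2⟩
    rw [this, Nat.cast_zero]
    positivity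
  obtain ⟨hl1, hl2⟩ := JS2_len v y n R hn
  have hp' : (2 : ℝ) ≤ p := by exact_mod_cast hp
  have hv' : (1 : ℝ) ≤ v := by exact_mod_cast hv
  have hn' : (1 : ℝ) ≤ n := by exact_mod_cast hn
  have hf' : (1 : ℝ) ≤ f := by exact_mod_cast hf
  have hy' : (p : ℝ) * (n * f) ≤ y := by exact_mod_cast hy
  have hD : 1 ≤ √(p : ℝ) := Real.one_le_sqrt.2 (by linarith)
  have hP : ∀ r ∈ PP 0 p, r.Prime := fun r h => (mem_PP.1 h).2.1
  set a : ℤ := R / n
  set b : ℤ := (R + v * y) / n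
  have hab : (0 : ℝ) ≤ (b : ℝ) - a := by
    rw [sub_nonneg]
    exact_mod_cast hl1
  have hl3 : (n : ℝ) * ((b : ℝ) - a) ≤ v * y + n := by exact_mod_cast hl2
  have h1 := hS ((Ioc a b).filter fun m : ℤ => ((v * f : ℕ) : ℤ) ∣ Ns + n * m) (fun _ => 1)
    (fun r m => ((v * r : ℕ) : ℤ) ∣ Ns + n * m) (PP 0 p) p (√p) (((b : ℝ) - a) / (v * f))
    (fun r => 1 / (r : ℝ)) (fun _ => 1) hp'
    (by
      have : √(p : ℝ) ^ 4 = (√(p : ℝ) ^ 2) ^ 2 := by ring
      rw [this, Real.sq_sqrt (by positivity)]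
      nlinarith)
    hD (fun r h => ⟨hP r h, by exact_mod_cast (mem_PP.1 h).1⟩)
    (fun r h => by
      have h2 : (2 : ℝ) ≤ r := by exact_mod_cast (hP r h).two_le
      exact ⟨by positivity, one_div_le_one_div_of_le (by norm_num) h2,
        one_div_le_one_div_of_le (by linarith) (by linarith)⟩)
    (fun _ _ => zero_le_one) (by positivity)
    (fun T hT _ => by
      have h2 : ∀ r ∈ T, r.Prime := fun r h => hP r (hT h)
      have h3 : (n * f).Coprime (pr T) := Nat.Coprime.prod_right fun r h =>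
        ((Nat.Prime.coprime_iff_not_dvd (h2 r h)).2 fun e =>
          absurd (hr r (h2 r h) e) (not_le.2 (mem_PP.1 (hT h)).1)).symm
      have h4 := JS2_count a b hl1 ((v * f * pr T : ℕ) : ℤ)
        (by have := pr_pos h2; positivity) n Ns
        (Nat.isCoprime_iff_coprime.2 ((hnv.mul_right hnf).mul_right h3.coprime_mul_right))
      rw [filter_filter, filter_congr fun m _ => JS2_dvd hv h2 h3.coprime_mul_left (Ns + n * m),
        sum_const, nsmul_one]
      convert h4 using 3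
      rw [prod_div_distrib, prod_const_one, pr]
      push_cast
      field_simp)
  have h2 : (vc v Ns R y n f p : ℝ) = ∑ x ∈ ((Ioc a b).filter fun m : ℤ =>
      ((v * f : ℕ) : ℤ) ∣ Ns + n * m).filter
        (fun m => ∀ r ∈ PP 0 p, ¬ ((v * r : ℕ) : ℤ) ∣ Ns + n * m), (1 : ℝ) := by
    rw [filter_filter, sum_const, nsmul_one, vc]
    congr 2
    refine filter_congr fun m _ => and_congr_right fun _ => ?_
    simp only [mem_PP, Nat.zero_le, and_true, and_imp]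
  rw [← h2, sum_const, nsmul_one] at h1
  have h3 := (level_card (PP 0 p) hP _ hD).1
  have h4 := (hM p hp).2
  have h5 : 0 ≤ ∏ r ∈ PP 0 p, (1 - 1 / (r : ℝ)) := prod_nonneg fun r h => by
    have h2 : (1 : ℝ) ≤ r := by exact_mod_cast (hP r h).one_le
    rw [sub_nonneg, div_le_one (by linarith)]
    exact h2
  have h6 : Real.exp (-4 * Real.log √(p : ℝ) / Real.log p) ≤ 1 := by
    rw [Real.exp_le_one_iff]
    have := Real.log_nonneg hD
    exact div_nonpos_of_nonpos_of_nonneg (by linarith) (Real.log_nonneg (by linarith))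
  have hny : (n : ℝ) ≤ v * y := by
    have : (n : ℝ) * 1 ≤ n * f := by gcongr
    have : (y : ℝ) * 1 ≤ y * v := by gcongr
    nlinarith
  have h7 : ((b : ℝ) - a) / (v * f) ≤ 2 * y / (n * f) := by
    rw [div_le_div_iff₀ (by positivity) (by positivity)]
    have : (n : ℝ) * ((b : ℝ) - a) * f ≤ (2 * (v * y)) * f :=
      mul_le_mul_of_nonneg_right (by linarith) (by linarith)
    linarith
  have h8 : ((b : ℝ) - a) / (v * f) * ∏ r ∈ PP 0 p, (1 - 1 / (r : ℝ)) ≤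
      2 * y / (n * f) * (K / kk p) := by gcongr
  have h9 : √(p : ℝ) ≤ 2 * y / ((n : ℝ) * f * kk p) := by
    rw [le_div_iff₀ (by positivity)]
    have h10 := JS2_kk (p := p) (by omega)
    calc √(p : ℝ) * ((n : ℝ) * f * kk p) ≤ √(p : ℝ) * ((n : ℝ) * f * (2 * √p)) := by gcongr
      _ = 2 * ((√(p : ℝ)) ^ 2 * (n * f)) := by ring
      _ ≤ 2 * y := by rw [Real.sq_sqrt (by positivity)]; linarith
  have h10 : 0 ≤ ((b : ℝ) - a) / (v * f) * ∏ r ∈ PP 0 p, (1 - 1 / (r : ℝ)) := by positivity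
  generalize ((b : ℝ) - a) / (v * f) * ∏ r ∈ PP 0 p, (1 - 1 / (r : ℝ)) = X at h1 h8 h10
  have h11 : C * Real.exp (-4 * Real.log √(p : ℝ) / Real.log p) * X ≤ C * 1 * X := by gcongr
  have h12 : (1 + C) * X ≤ (1 + C) * (2 * y / (n * f) * (K / kk p)) := by gcongr
  have h13 : (2 * (1 + C) * K + 2) * y / ((n : ℝ) * f * kk p) =
      (1 + C) * (2 * y / (n * f) * (K / kk p)) + 2 * y / ((n : ℝ) * f * kk p) := by
    field_simp
  rw [h13]
  linarith [(abs_le.1 h1).2]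

theorem vc_true (v y n f p : ℕ) (N R : ℤ) (hv : 1 ≤ v) (hn : 1 ≤ n) (hc : IsCoprime (v : ℤ) R)
    (hd : (n : ℤ) ∣ v * N - R) (hf : n.Coprime f) :
    vc v (v * N - R) R y n f p ≤ cntA N y (n * f) p := by
  have hv' : (0 : ℤ) < v := by exact_mod_cast hv
  have hn' : (0 : ℤ) < n := by exact_mod_cast hn
  have hnv : IsCoprime (n : ℤ) v := by
    obtain ⟨c, h1⟩ := hd
    obtain ⟨a, b, h2⟩ := hc
    exact ⟨-(b * c), a + b * N, by linear_combination h2 + b * h1⟩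
  have key : ∀ m : ℤ, m ∈ Ioc (R / n) ((R + v * y) / n) → ((v * f : ℕ) : ℤ) ∣ v * N - R + n * m →
      n * m - R = v * (((n * m - R) / v).toNat : ℕ) ∧ ((n * m - R) / v).toNat ∈ Icc 1 y := by
    intro m hm h
    obtain ⟨h1, h2⟩ := mem_Ioc.1 hm
    rw [Int.ediv_lt_iff_lt_mul hn'] at h1
    rw [Int.le_ediv_iff_mul_le hn'] at h2
    obtain ⟨c, h3⟩ := h
    have h4 : n * m - R = v * (f * c - N) := by push_cast at h3; linear_combination h3
    have h5 : 0 < f * c - N := (mul_pos_iff_of_pos_left hv').1 (by linarith)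
    have h6 : f * c - N ≤ y := le_of_mul_le_mul_left (by linarith) hv'
    rw [h4, Int.mul_ediv_cancel_left _ hv'.ne', Int.toNat_of_nonneg h5.le, mem_Icc]
    exact ⟨rfl, by omega, by omega⟩
  refine card_le_card_of_injOn (fun m : ℤ => ((n * m - R) / v).toNat) (fun m hm => ?_)
    fun m hm m' hm' e => ?_
  · obtain ⟨h1, h2, h3⟩ := mem_filter.1 (mem_coe.1 hm)
    obtain ⟨h4, h5⟩ := key m h1 h2
    refine mem_coe.2 (mem_filter.2 ⟨h5, ?_⟩)
    beta_reduce
    generalize ((n * m - R) / v).toNat = i at h4 ⊢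
    have h6 : v * N - R + n * m = v * (N + i) := by linear_combination h4
    rw [h6] at h2 h3
    push_cast at h2 h3 ⊢
    refine ⟨(Nat.isCoprime_iff_coprime.2 hf).mul_dvd (hnv.dvd_of_dvd_mul_left ?_)
      ((mul_dvd_mul_iff_left hv'.ne').1 h2), fun r h7 h8 h9 => h3 r h7 h8 (mul_dvd_mul_left _ h9)⟩
    rw [← h6]
    exact hd.add (dvd_mul_right _ _)
  · obtain ⟨h1, h2, -⟩ := mem_filter.1 (mem_coe.1 hm)
    obtain ⟨h3, h4, -⟩ := mem_filter.1 (mem_coe.1 hm')
    have h5 := (key m h1 h2).1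
    have h6 := (key m' h3 h4).1
    simp only at e
    rw [e, ← h6] at h5
    exact mul_left_cancel₀ hn'.ne' (by linarith)

end

end Pool.Agent.Jac
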