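import Pool.Agent.P.MP_45ff98_nt.JSv
import Pool.Agent.P.MP_45ff98_nt.JA8

/-! Sifted primes in a progression. -/

namespace Pool.Agent.Jac
open Finset

noncomputable section

theorem JS3_dvd_iff {v fu : ℕ} (hv : 1 ≤ v) {T : Finset ℕ} (hT : ∀ r ∈ T, r.Prime ∧ ¬ r ∣ fu)
    (n : ℤ) : (((v * fu : ℕ) : ℤ) ∣ n ∧ ∀ r ∈ T, ((v * r : ℕ) : ℤ) ∣ n) ↔
      ((v * fu * pr T : ℕ) : ℤ) ∣ n := by
  have hv0 : (v : ℤ) ≠ 0 := by exact_mod_cast (by omega : v ≠ 0)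
  have hp : ∀ r ∈ T, r.Prime := fun r hr => (hT r hr).1
  have hc : IsCoprime (fu : ℤ) (pr T : ℤ) := by
    rw [Nat.isCoprime_iff_coprime, pr]
    exact Nat.Coprime.prod_right fun r hr =>
      ((Nat.Prime.coprime_iff_not_dvd (hp r hr)).2 (hT r hr).2).symm
  push_cast
  constructor
  · rintro ⟨h1, h2⟩
    obtain ⟨k, rfl⟩ := (dvd_mul_right (v : ℤ) fu).trans h1
    rw [mul_assoc]
    refine mul_dvd_mul_left _ (hc.mul_dvd ((mul_dvd_mul_iff_left hv0).1 h1) ?_)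
    exact (pr_dvd_iff hp k).2 fun r hr => (mul_dvd_mul_iff_left hv0).1 (h2 r hr)
  · intro h
    refine ⟨(dvd_mul_right _ _).trans h, fun r hr => dvd_trans ?_ h⟩
    rw [mul_assoc]
    exact mul_dvd_mul_left _ (((pr_dvd_iff hp _).1 dvd_rfl r hr).mul_left _)

theorem JS3_class {M : ℕ} (hM : 1 ≤ M) {N1 m : ℤ} (h1 : IsCoprime N1 M) (h2 : IsCoprime m M) :
    ∃ c : ℕ, c.Coprime M ∧ ∀ q : ℕ, ((M : ℤ) ∣ N1 + q * m ↔ q ≡ c [MOD M]) := by
  obtain ⟨a, b, hab⟩ := h2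
  have h2 : IsCoprime m M := ⟨a, b, hab⟩
  have hM0 : (M : ℤ) ≠ 0 := by exact_mod_cast (by omega : M ≠ 0)
  obtain ⟨c, hc⟩ := Int.eq_ofNat_of_zero_le (Int.emod_nonneg (-N1 * a) hM0)
  have h3 := Int.mul_ediv_add_emod (-N1 * a) M
  rw [hc] at h3
  have h4 : N1 + c * m = M * (N1 * b - (-N1 * a) / M * m) := by
    linear_combination m * h3 - N1 * hab
  refine ⟨c, ?_, fun q => ?_⟩
  · have h5 : N1 = -(c * m) + M * (N1 * b - (-N1 * a) / M * m) := by linear_combination h4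
    rw [h5] at h1
    exact Nat.isCoprime_iff_coprime.1 (IsCoprime.of_mul_left_left
      ((IsCoprime.neg_left_iff _ _).1 (IsCoprime.of_add_mul_left_left h1)))
  · have h5 : N1 + q * m = -((c - q) * m) + M * (N1 * b - (-N1 * a) / M * m) := by
      linear_combination h4
    rw [Nat.modEq_iff_dvd, h5, dvd_add_left (dvd_mul_right _ _), dvd_neg]
    exact ⟨fun h => h2.symm.dvd_of_dvd_mul_right h, fun h => h.mul_right _⟩

/-- The density of the prime `r`. -/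
def JS3g (v r : ℕ) : ℝ := if r ∣ v then 1 / (r : ℝ) else 1 / ((r : ℝ) - 1)

theorem JS3_tot {v fu : ℕ} (T : Finset ℕ) (hT : ∀ r ∈ T, r.Prime ∧ ¬ r ∣ fu) :
    1 / (Nat.totient (v * fu) : ℝ) * ∏ r ∈ T, JS3g v r =
      1 / (Nat.totient (v * fu * pr T) : ℝ) := by
  induction T using Finset.induction_on with
  | empty => simp [pr]
  | insert r T hr ih =>
    have hT' : ∀ s ∈ T, s.Prime ∧ ¬ s ∣ fu := fun s hs => hT s (mem_insert_of_mem hs)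
    obtain ⟨h1, h2⟩ := hT r (mem_insert_self _ _)
    have e : v * fu * pr (insert r T) = r * (v * fu * pr T) := by rw [pr_insert hr]; ring
    rw [prod_insert hr, mul_left_comm, ih hT', e, JS3g]
    split_ifs with h
    · rw [Nat.totient_mul_of_prime_of_dvd h1 ((h.mul_right _).mul_right _)]
      push_cast
      rw [div_mul_div_comm, one_mul]
    · have hn : ¬ r ∣ v * fu * pr T := by
        rw [h1.dvd_mul, h1.dvd_mul, prime_dvd_pr (fun s hs => (hT' s hs).1) h1]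
        tauto
      rw [Nat.totient_mul_of_prime_of_not_dvd h1 hn, Nat.cast_mul, Nat.cast_pred h1.pos,
        div_mul_div_comm, one_mul]

theorem JS3_th {t1 t2 : ℝ} (h0 : 0 ≤ t1) (h : t1 ≤ t2) (M c : ℕ) :
    ∑ q ∈ (Icc 1 ⌊t2⌋₊).filter (fun q : ℕ => (q.Prime ∧ q ≡ c [MOD M]) ∧ t1 < q), Real.log q =
      thA t2 M c - thA t1 M c := by
  rw [eq_sub_iff_add_eq, thA, thA, ← filter_filter, ← sum_filter_add_sum_filter_not
    ((Icc 1 ⌊t2⌋₊).filter fun q => q.Prime ∧ q ≡ c [MOD M]) (fun q : ℕ => t1 < q)]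
  congr 1
  refine sum_congr ?_ fun _ _ => rfl
  ext q
  simp only [mem_filter, mem_Icc, not_lt, Nat.le_floor_iff h0, Nat.le_floor_iff (h0.trans h)]
  exact ⟨fun h1 => ⟨⟨⟨h1.1.1, h1.1.2.trans h⟩, h1.2⟩, h1.1.2⟩,
    fun h1 => ⟨⟨h1.1.1.1, h1.2⟩, h1.1.2⟩⟩

theorem JS3_tel1 (n : ℕ) : ∏ r ∈ Ico 2 (n + 2), (1 - 1 / (r : ℝ)) = 1 / ((n : ℝ) + 1) := by
  induction n with
  | zero => simp
  | succ n ih =>
    rw [show n + 1 + 2 = (n + 2) + 1 from rfl, prod_Ico_succ_top (by omega), ih]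
    push_cast
    field_simp
    ring

theorem JS3_tel2 (n : ℕ) : ∏ r ∈ Ico 3 (n + 3), (1 - 1 / ((r : ℝ) - 1) ^ 2) =
    ((n : ℝ) + 2) / (2 * ((n : ℝ) + 1)) := by
  induction n with
  | zero => simp
  | succ n ih =>
    rw [show n + 1 + 3 = (n + 3) + 1 from rfl, prod_Ico_succ_top (by omega), ih]
    push_cast
    rw [show (n : ℝ) + 3 - 1 = n + 2 by ring]
    field_simp
    ring

theorem JS3_W {S : Finset ℕ} {p : ℕ} (hp : 1 ≤ p) (hS : ∀ r ∈ S, r.Prime ∧ r < p) :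
    1 / (p : ℝ) ≤ ∏ r ∈ S, (1 - 1 / (r : ℝ)) := by
  obtain ⟨n, rfl⟩ : ∃ n, p = n + 1 := ⟨p - 1, by omega⟩
  push_cast
  rw [← JS3_tel1]
  refine prod_le_prod_of_subset_of_le_one
    (fun r hr => mem_Ico.2 ⟨(hS r hr).1.two_le, by have := (hS r hr).2; omega⟩)
    (fun r hr => ?_) fun r _ _ => ?_
  · have h1 : (1 : ℝ) ≤ r := by exact_mod_cast (by have := (mem_Ico.1 hr).1; omega : 1 ≤ r)
    rw [sub_nonneg]
    exact (div_le_one (by linarith)).2 h1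
  · have : (0 : ℝ) ≤ 1 / r := by positivity
    linarith

theorem JS3_half {S : Finset ℕ} {v p : ℕ} (hS : ∀ r ∈ S, r.Prime ∧ r < p ∧ (r ∣ v ∨ 3 ≤ r)) :
    1 / 2 * ∏ r ∈ S, (1 - 1 / (r : ℝ)) ≤ ∏ r ∈ S, (1 - JS3g v r) := by
  have h1 : ∏ r ∈ S, (1 - JS3g v r) = (∏ r ∈ S.filter (fun r => ¬ r ∣ v),
      (1 - 1 / ((r : ℝ) - 1) ^ 2)) * ∏ r ∈ S, (1 - 1 / (r : ℝ)) := by
    rw [prod_filter, ← prod_mul_distrib]
    refine prod_congr rfl fun r hr => ?_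
    unfold JS3g
    by_cases h : r ∣ v
    · simp [h]
    · have h3 : (3 : ℝ) ≤ r := by exact_mod_cast (hS r hr).2.2.resolve_left h
      have h4 : (r : ℝ) - 1 ≠ 0 := by linarith
      have h5 : (r : ℝ) ≠ 0 := by linarith
      rw [if_neg h, if_pos h]
      field_simp
      ring
  rw [h1]
  refine mul_le_mul_of_nonneg_right ?_ (prod_nonneg fun r hr => ?_)
  · refine le_trans ?_ (prod_le_prod_of_subset_of_le_one (t := Ico 3 (p + 3))
      (fun r hr => ?_) (fun r hr => ?_) fun r _ _ => ?_)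
    · rw [JS3_tel2, div_le_div_iff₀ (by norm_num) (by positivity)]
      have : (0 : ℝ) ≤ p := Nat.cast_nonneg p
      linarith
    · obtain ⟨h2, h3⟩ := mem_filter.1 hr
      exact mem_Ico.2 ⟨(hS r h2).2.2.resolve_left h3, by have := (hS r h2).2.1; omega⟩
    · have h3 : (3 : ℝ) ≤ r := by exact_mod_cast (mem_Ico.1 hr).1
      rw [sub_nonneg, div_le_one (by nlinarith)]
      nlinarith
    · have : (0 : ℝ) ≤ 1 / ((r : ℝ) - 1) ^ 2 := by positivity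
      linarith
  · have h1 : (1 : ℝ) ≤ r := by exact_mod_cast (hS r hr).1.one_le
    rw [sub_nonneg]
    exact (div_le_one (by linarith)).2 h1

theorem JS3_dens {S : Finset ℕ} {v : ℕ} (hS : ∀ r ∈ S, r.Prime ∧ (r ∣ v ∨ 3 ≤ r)) :
    Dens S (JS3g v) := by
  intro r hr
  have h2 : (2 : ℝ) ≤ r := by exact_mod_cast (hS r hr).1.two_le
  unfold JS3g
  split_ifs with h
  · exact ⟨by positivity, one_div_le_one_div_of_le (by norm_num) h2,
      one_div_le_one_div_of_le (by linarith) (by linarith)⟩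
  · have h3 : (3 : ℝ) ≤ r := by exact_mod_cast (hS r hr).2.resolve_left h
    exact ⟨div_nonneg zero_le_one (by linarith),
      one_div_le_one_div_of_le (by norm_num) (by linarith), le_rfl⟩

theorem JS3_cop {N : ℤ} {v fu : ℕ} {T : Finset ℕ} (h : IsCoprime N (v * fu : ℕ))
    (hT : ∀ r ∈ T, r.Prime ∧ (r ∣ v ∨ ¬ (r : ℤ) ∣ N)) : IsCoprime N (v * fu * pr T : ℕ) := by
  rw [Nat.cast_mul]
  refine h.mul_right ?_
  rw [pr, Nat.cast_prod]
  refine IsCoprime.prod_right fun r hr => ?_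
  rcases (hT r hr).2 with h1 | h1
  · exact h.of_isCoprime_of_dvd_right (Int.natCast_dvd_natCast.2 (h1.mul_right _))
  · exact ((Nat.prime_iff_prime_int.1 (hT r hr).1).irreducible.coprime_iff_not_dvd.2 h1).symm

theorem JS3_log {κ : ℕ} (hκ : 5 ≤ κ) {t : ℝ} (ht : 2 ^ (κ - 1) ≤ t) :
    2 ≤ t ∧ (κ : ℝ) ≤ Real.log t ^ 2 := by
  obtain ⟨n, rfl⟩ : ∃ n, κ = n + 1 := ⟨κ - 1, by omega⟩
  rw [Nat.add_sub_cancel] at ht
  have hn : (4 : ℝ) ≤ n := by exact_mod_cast (by omega : 4 ≤ n)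
  have h1 : (n : ℝ) * Real.log 2 ≤ Real.log t := by
    rw [← Real.log_pow]
    exact Real.log_le_log (by positivity) ht
  have h2 := Real.log_two_gt_d9
  have h3 : (n : ℝ) * (2 / 3) ≤ Real.log t := by nlinarith
  refine ⟨le_trans ?_ ht, ?_⟩
  · exact le_self_pow₀ (by norm_num) (by omega)
  · push_cast
    nlinarith

/-- The theorem of Siegel and Walfisz in a box. -/
theorem JS3_sw (j : ℕ) : ∃ C : ℝ, 0 < C ∧ ∀ (κ : ℕ) (t : ℝ) (M c : ℕ), 5 ≤ κ → 2 ^ (κ - 1) ≤ t →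
    t < 2 ^ κ → 1 ≤ M → M ≤ κ ^ j → c.Coprime M →
    |thA t M c - t / Nat.totient M| ≤ C * 2 ^ κ / (κ : ℝ) ^ j := by
  obtain ⟨C, hC, h⟩ := siegel_walfisz (2 * j)
  refine ⟨C, hC, fun κ t M c hκ h1 h2 hM hMj hc => ?_⟩
  obtain ⟨h3, h4⟩ := JS3_log hκ h1
  have hκ0 : (0 : ℝ) < κ := by exact_mod_cast (by omega : 0 < κ)
  have h5 : (κ : ℝ) ^ j ≤ Real.log t ^ (2 * j) := by
    rw [pow_mul]
    exact pow_le_pow_left₀ hκ0.le h4 j
  refine (h t M c h3 hM (le_trans (by exact_mod_cast hMj) h5) hc).trans ?_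
  exact div_le_div₀ (by positivity) (mul_le_mul_of_nonneg_left h2.le hC.le) (by positivity) h5

theorem JS3_num {K x W Φ p E Z : ℝ} {B : ℕ} (hK : 0 < K) (hZ : 0 < Z) (hΦ0 : 0 < Φ) (hp0 : 0 < p)
    (hΦ : Φ ≤ K ^ B) (hp : p ≤ K ^ B) (hW : 1 / p ≤ W) (hx : Z ≤ x * K ^ B)
    (hE : E * K ^ (3 * B) ≤ Z) : E ≤ x / Φ * W := by
  have h1 : 0 < K ^ B := by positivity
  have hx0 : 0 < x := by
    by_contra h
    nlinarith
  have h2 : x / K ^ B * (1 / K ^ B) ≤ x / Φ * W :=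
    mul_le_mul (div_le_div_of_nonneg_left hx0.le hΦ0 hΦ)
      ((one_div_le_one_div_of_le hp0 hp).trans hW) (by positivity) (by positivity)
  refine le_trans ?_ h2
  rw [div_mul_div_comm, mul_one, le_div_iff₀ (by positivity)]
  refine le_of_mul_le_mul_right ?_ h1
  have h3 : K ^ (3 * B) = K ^ B * K ^ B * K ^ B := by ring
  rw [h3] at hE
  nlinarith

theorem prime_count : ∃ c : ℝ, 0 < c ∧ ∀ B : ℕ, ∃ κ0 : ℕ, ∀ (κ v fu p : ℕ) (N1 m : ℤ)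
    (S X : Finset ℕ) (t1 t2 : ℝ), κ0 ≤ κ → 1 ≤ v → 1 ≤ fu → 2 ≤ p → p ≤ κ ^ B → v * fu ≤ κ ^ B →
    X.card ≤ κ ^ B → IsCoprime N1 (v * fu : ℕ) → IsCoprime m (v * fu : ℕ) →
    (∀ r ∈ S, r.Prime ∧ r < p ∧ ¬ r ∣ fu ∧ (r ∣ v ∨ (3 ≤ r ∧ ¬ (r : ℤ) ∣ N1 ∧ ¬ (r : ℤ) ∣ m))) →
    2 ^ (κ - 1) ≤ t1 → t2 < 2 ^ κ → 2 ^ (κ - 1) ≤ (t2 - t1) * (κ : ℝ) ^ B →
    c * (t2 - t1) / (κ * Nat.totient (v * fu)) * ∏ r ∈ S, (1 - 1 / (r : ℝ)) ≤
      (((Box κ \ X).filter (fun q : ℕ => t1 < q ∧ (q : ℝ) ≤ t2 ∧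
        ((v * fu : ℕ) : ℤ) ∣ N1 + q * m ∧ ∀ r ∈ S, ¬ ((v * r : ℕ) : ℤ) ∣ N1 + q * m)).card : ℝ) := by
  obtain ⟨Cs, hCs, hsv⟩ := sieve
  obtain ⟨u, hu⟩ := exists_nat_ge Cs
  have hu1 : 1 ≤ u := by exact_mod_cast hCs.trans hu
  have hexp : Cs * Real.exp (-4 * u) ≤ 1 / 2 := by
    have h1 := Real.add_one_le_exp (4 * (u : ℝ))
    rw [neg_mul, Real.exp_neg, ← div_eq_mul_inv, div_le_iff₀ (Real.exp_pos _)]
    linarith
  refine ⟨1 / 8, by norm_num, fun B => ?_⟩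
  obtain ⟨C, hC, hsw⟩ := JS3_sw (B * u + 3 * B + 1)
  obtain ⟨κ1, hκ1⟩ := Filter.eventually_atTop.1
    ((tendsto_pow_const_div_const_pow_of_one_lt (4 * B + 1) (by norm_num : (1 : ℝ) < 2)).eventually
      (gt_mem_nhds (by norm_num : (0 : ℝ) < 1 / 32)))
  obtain ⟨κ2, hκ2⟩ := exists_nat_ge (64 * C)
  refine ⟨κ1 + κ2 + 5, fun κ v fu p N1 m S X t1 t2 hκ hv hfu hp hpB hμB hX hN hm hS h1 h2 h3 => ?_⟩
  have hκ0 : (0 : ℝ) < κ := by exact_mod_cast (by omega : 0 < κ)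
  have hκC : 64 * C ≤ κ := hκ2.trans (by exact_mod_cast (by omega : κ2 ≤ κ))
  have hκP : 32 * (κ : ℝ) ^ (4 * B + 1) ≤ 2 ^ κ := by
    have := hκ1 κ (by omega)
    rw [div_lt_iff₀ (by positivity)] at this
    linarith
  have h2κ : (2 : ℝ) ^ κ = 2 * 2 ^ (κ - 1) := by
    rw [← pow_succ']
    congr 1
    omega
  have hp2 : (2 : ℝ) ≤ p := by exact_mod_cast hp
  have hμ : 1 ≤ v * fu := Nat.mul_pos hv hfu
  have hΦ : (0 : ℝ) < Nat.totient (v * fu) := by exact_mod_cast Nat.totient_pos.2 hμ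
  have ht1 : 0 ≤ t1 := le_trans (by positivity) h1
  have ht12 : t1 ≤ t2 := by
    by_contra h
    have h4 : (0 : ℝ) < 2 ^ (κ - 1) := by positivity
    have h5 : (0 : ℝ) < (κ : ℝ) ^ B := by positivity
    nlinarith
  have hD1 : (1 : ℝ) ≤ (p : ℝ) ^ u := one_le_pow₀ (by linarith)
  have hDB : (p : ℝ) ^ u ≤ (κ : ℝ) ^ (B * u) := by
    rw [pow_mul]
    exact pow_le_pow_left₀ (by linarith) (by exact_mod_cast hpB) u
  have hs := hsv ((Icc 1 ⌊t2⌋₊).filter fun q : ℕ =>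
      q.Prime ∧ t1 < q ∧ ((v * fu : ℕ) : ℤ) ∣ N1 + q * m) (fun q => Real.log q)
    (fun r q => ((v * r : ℕ) : ℤ) ∣ N1 + q * m) S p ((p : ℝ) ^ u)
    ((t2 - t1) / Nat.totient (v * fu)) (JS3g v)
    (fun _ => 2 * (C * 2 ^ κ / (κ : ℝ) ^ (B * u + 3 * B + 1))) hp2
    (by rw [← pow_mul]; exact le_self_pow₀ (by linarith) (by omega)) hD1
    (fun r hr => ⟨(hS r hr).1, by exact_mod_cast (hS r hr).2.1⟩)
    (JS3_dens fun r hr => ⟨(hS r hr).1, (hS r hr).2.2.2.imp_right And.left⟩)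
    (fun q _ => Real.log_natCast_nonneg q) (div_nonneg (by linarith) hΦ.le) (by
      intro T hT hTD
      have hT1 : ∀ r ∈ T, r.Prime ∧ ¬ r ∣ fu := fun r hr => ⟨(hS r (hT hr)).1, (hS r (hT hr)).2.2.1⟩
      have hM : 1 ≤ v * fu * pr T := Nat.mul_pos hμ (pr_pos fun r hr => (hT1 r hr).1)
      obtain ⟨c, hc, hq⟩ := JS3_class hM
        (JS3_cop hN fun r hr => ⟨(hT1 r hr).1, (hS r (hT hr)).2.2.2.imp_right fun h => h.2.1⟩)
        (JS3_cop hm fun r hr => ⟨(hT1 r hr).1, (hS r (hT hr)).2.2.2.imp_right fun h => h.2.2⟩)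
      have hMj : v * fu * pr T ≤ κ ^ (B * u + 3 * B + 1) := by
        have h4 : pr T ≤ κ ^ (B * u) := by exact_mod_cast hTD.trans hDB
        refine (Nat.mul_le_mul hμB h4).trans ?_
        rw [← pow_add]
        exact Nat.pow_le_pow_right (by omega) (by omega)
      have e1 : ((Icc 1 ⌊t2⌋₊).filter fun q : ℕ =>
          q.Prime ∧ t1 < q ∧ ((v * fu : ℕ) : ℤ) ∣ N1 + q * m).filter
            (fun q : ℕ => ∀ r ∈ T, ((v * r : ℕ) : ℤ) ∣ N1 + q * m) = (Icc 1 ⌊t2⌋₊).filter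
            (fun q : ℕ => (q.Prime ∧ q ≡ c [MOD v * fu * pr T]) ∧ t1 < q) := by
        rw [filter_filter]
        refine filter_congr fun q _ => ?_
        rw [← hq, ← JS3_dvd_iff hv hT1]
        tauto
      have e2 : (t2 - t1) / Nat.totient (v * fu) * ∏ r ∈ T, JS3g v r =
          t2 / Nat.totient (v * fu * pr T) - t1 / Nat.totient (v * fu * pr T) := by
        rw [div_eq_mul_one_div, mul_assoc, JS3_tot T hT1]
        ring
      have a1 := abs_le.1 (hsw κ t1 _ c (by omega) h1 (ht12.trans_lt h2) hM hMj hc)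
      have a2 := abs_le.1 (hsw κ t2 _ c (by omega) (h1.trans ht12) h2 hM hMj hc)
      rw [e1, e2, JS3_th ht1 ht12, abs_le]
      constructor <;> linarith [a1.1, a1.2, a2.1, a2.2])
  have hlog : -4 * Real.log ((p : ℝ) ^ u) / Real.log p = -4 * u := by
    have : Real.log p ≠ 0 := (Real.log_pos (by linarith)).ne'
    rw [Real.log_pow]
    field_simp
  rw [hlog, sum_const, nsmul_eq_mul] at hs
  have hcard := (level_card S (fun r hr => (hS r hr).1) _ hD1).1.trans hDB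
  have hW := JS3_W (by omega : 1 ≤ p) fun r hr => ⟨(hS r hr).1, (hS r hr).2.1⟩
  have hhalf := JS3_half (v := v) (p := p) fun r hr =>
    ⟨(hS r hr).1, (hS r hr).2.1, (hS r hr).2.2.2.imp_right And.left⟩
  have hΦB : (Nat.totient (v * fu) : ℝ) ≤ (κ : ℝ) ^ B := by
    exact_mod_cast (Nat.totient_le _).trans hμB
  have hpB' : (p : ℝ) ≤ (κ : ℝ) ^ B := by exact_mod_cast hpB
  have hE1 : 16 * ((κ : ℝ) ^ (B * u) * (2 * (C * 2 ^ κ / (κ : ℝ) ^ (B * u + 3 * B + 1)))) ≤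
      (t2 - t1) / Nat.totient (v * fu) * ∏ r ∈ S, (1 - 1 / (r : ℝ)) := by
    refine JS3_num hκ0 (by positivity) hΦ (by linarith) hΦB hpB' hW h3 ?_
    have e : 16 * ((κ : ℝ) ^ (B * u) * (2 * (C * 2 ^ κ / (κ : ℝ) ^ (B * u + 3 * B + 1)))) *
        (κ : ℝ) ^ (3 * B) = 64 * C / κ * 2 ^ (κ - 1) := by
      rw [h2κ]
      field_simp
      ring
    rw [e]
    exact mul_le_of_le_one_left (by positivity) ((div_le_one hκ0).2 hκC)
  have hE2 : 16 * ((κ : ℝ) ^ B * κ) ≤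
      (t2 - t1) / Nat.totient (v * fu) * ∏ r ∈ S, (1 - 1 / (r : ℝ)) := by
    refine JS3_num hκ0 (by positivity) hΦ (by linarith) hΦB hpB' hW h3 ?_
    have e : (κ : ℝ) ^ (4 * B + 1) = (κ : ℝ) ^ B * κ * (κ : ℝ) ^ (3 * B) := by ring
    rw [e, h2κ] at hκP
    linarith
  set A := ((Icc 1 ⌊t2⌋₊).filter fun q : ℕ =>
      q.Prime ∧ t1 < q ∧ ((v * fu : ℕ) : ℤ) ∣ N1 + q * m).filter
        (fun q : ℕ => ∀ r ∈ S, ¬ ((v * r : ℕ) : ℤ) ∣ N1 + q * m) with hA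
  set F := (Box κ \ X).filter (fun q : ℕ => t1 < q ∧ (q : ℝ) ≤ t2 ∧
        ((v * fu : ℕ) : ℤ) ∣ N1 + q * m ∧ ∀ r ∈ S, ¬ ((v * r : ℕ) : ℤ) ∣ N1 + q * m) with hF
  have hq2 : ∀ q ∈ A, (q : ℝ) ≤ t2 := fun q hq =>
    (Nat.le_floor_iff (ht1.trans ht12)).1 (mem_Icc.1 (mem_filter.1 (mem_filter.1 hq).1).1).2
  have hAF : A ⊆ F ∪ X := by
    intro q hq
    obtain ⟨h4, h5⟩ := mem_filter.1 hq
    obtain ⟨-, h6, h7, h8⟩ := mem_filter.1 h4
    by_cases hqX : q ∈ X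
    · exact mem_union_right _ hqX
    refine mem_union_left _ (mem_filter.2 ⟨mem_sdiff.2 ⟨mem_Box.2 ⟨h6, le_antisymm
      ((kk_le_iff h6.ne_zero).2 ?_) ((le_kk_iff h6.ne_zero).2 ?_)⟩, hqX⟩, h7, hq2 q hq, h8, h5⟩)
    · exact_mod_cast (hq2 q hq).trans_lt h2
    · exact_mod_cast (h1.trans_lt h7).le
  have hcA : (A.card : ℝ) ≤ F.card + (κ : ℝ) ^ B := by
    have := (card_le_card hAF).trans (card_union_le _ _)
    exact_mod_cast this.trans (Nat.add_le_add_left hX _)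
  have hsum : ∑ q ∈ A, Real.log q ≤ A.card * κ := by
    rw [← nsmul_eq_mul]
    refine sum_le_card_nsmul _ _ _ fun q hq => ?_
    have h4 : (0 : ℝ) < q := ht1.trans_lt (mem_filter.1 (mem_filter.1 hq).1).2.2.1
    have h5 := Real.log_le_log h4 ((hq2 q hq).trans h2.le)
    have h6 := Real.log_two_lt_d9
    rw [Real.log_pow] at h5
    nlinarith
  have hX0 : 0 ≤ (t2 - t1) / Nat.totient (v * fu) := div_nonneg (by linarith) hΦ.le
  have hR0 : 0 ≤ 2 * (C * 2 ^ κ / (κ : ℝ) ^ (B * u + 3 * B + 1)) := by positivity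
  have b1 := mul_le_mul_of_nonneg_left hhalf hX0
  have b2 := mul_le_mul_of_nonneg_right hcard hR0
  have b0 : 0 ≤ (t2 - t1) / Nat.totient (v * fu) * ∏ r ∈ S, (1 - 1 / (r : ℝ)) :=
    le_trans (by positivity) hE2
  have b3 := mul_le_mul_of_nonneg_right hexp (by linarith :
    0 ≤ (t2 - t1) / Nat.totient (v * fu) * ∏ r ∈ S, (1 - JS3g v r))
  have b4 := (abs_le.1 hs).1
  have b5 := mul_le_mul_of_nonneg_right hcA hκ0.le
  have e : 1 / 8 * (t2 - t1) / (κ * Nat.totient (v * fu)) * ∏ r ∈ S, (1 - 1 / (r : ℝ)) =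
      1 / 8 * ((t2 - t1) / Nat.totient (v * fu) * ∏ r ∈ S, (1 - 1 / (r : ℝ))) / κ := by
    field_simp
  rw [e, div_le_iff₀ hκ0]
  linarith

end

end Pool.Agent.Jac
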