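import Pool.Agent.P.MP_45ff98_nt.JS1
import Pool.Agent.P.MP_45ff98_nt.JS3

/-! Average of the virtual counts, positive range. -/

namespace Pool.Agent.Jac
open Finset

noncomputable section

theorem js5_pow (B : ℕ) : ∃ κ0 : ℕ, ∀ κ, κ0 ≤ κ → κ ^ B < 2 ^ (κ - 1) := by
  have h := (tendsto_pow_const_div_const_pow_of_one_lt B (r := (2 : ℝ)) one_lt_two).eventually
    (gt_mem_nhds (show (0 : ℝ) < 1 / 2 by norm_num))
  obtain ⟨k, hk⟩ := Filter.eventually_atTop.1 h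
  refine ⟨k + 1, fun κ hκ => ?_⟩
  obtain ⟨j, rfl⟩ : ∃ j, κ = j + 1 := ⟨κ - 1, by omega⟩
  have h1 := hk (j + 1) (by omega)
  rw [div_lt_iff₀ (by positivity), pow_succ (2 : ℝ)] at h1
  have h2 : (((j + 1 : ℕ) : ℝ)) ^ B < 2 ^ j := by linarith
  rw [Nat.add_sub_cancel]
  exact_mod_cast h2

theorem js5_fac {r : ℕ} (hr : r.Prime) : 0 < 1 - 1 / (r : ℝ) ∧ 1 - 1 / (r : ℝ) ≤ 1 := by
  have h1 : (1 : ℝ) < r := by exact_mod_cast hr.one_lt
  have h2 : 1 / (r : ℝ) < 1 := (div_lt_one (by linarith)).2 h1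
  have h3 : 0 ≤ 1 / (r : ℝ) := by positivity
  constructor <;> linarith

theorem js5_sub {S T : Finset ℕ} (h : S ⊆ T) (hT : ∀ r ∈ T, r.Prime) :
    ∏ r ∈ T, (1 - 1 / (r : ℝ)) ≤ ∏ r ∈ S, (1 - 1 / (r : ℝ)) :=
  prod_le_prod_of_subset_of_le_one h (fun r hr => (js5_fac (hT r hr)).1.le)
    fun r hr _ => (js5_fac (hT r hr)).2

theorem js5_phi {n : ℕ} {S : Finset ℕ} (h : S ⊆ n.primeFactors) :
    (Nat.totient n : ℝ) ≤ n * ∏ r ∈ S, (1 - 1 / (r : ℝ)) := by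
  have h1 := congrArg (fun x : ℚ => (x : ℝ)) (Nat.totient_eq_mul_prod_factors n)
  simp only [Rat.cast_natCast, Rat.cast_mul, Rat.cast_prod, Rat.cast_sub, Rat.cast_one,
    Rat.cast_inv] at h1
  simp only [one_div] at *
  rw [h1]
  refine mul_le_mul_of_nonneg_left ?_ (Nat.cast_nonneg n)
  simpa only [one_div] using js5_sub h fun r hr => Nat.prime_of_mem_primeFactors hr

theorem js5_swap (Q M A : Finset ℕ) (R R' : ℕ → ℕ → Prop) [∀ a b, Decidable (R a b)]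
    [∀ a b, Decidable (R' a b)] (g : ℕ → ℕ) (hg : Function.Injective g)
    (h : ∀ m ∈ M, ∀ q ∈ Q, R' m q → g m ∈ A ∧ R q (g m)) :
    ∑ m ∈ M, ((Q.filter (R' m)).card : ℝ) ≤ ∑ q ∈ Q, ((A.filter (R q)).card : ℝ) := by
  have e : ∑ m ∈ M, ((Q.filter (R' m)).card : ℝ) =
      ∑ q ∈ Q, ((M.filter (fun m => R' m q)).card : ℝ) := by
    simp only [card_filter, Nat.cast_sum]
    exact sum_comm
  rw [e]
  refine sum_le_sum fun q hq => Nat.cast_le.2 (card_le_card_of_injOn g (fun m hm => ?_) hg.injOn)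
  obtain ⟨h1, h2⟩ := mem_filter.1 (mem_coe.1 hm)
  exact mem_coe.2 (mem_filter.2 (h m h1 q hq h2))

/-- the arithmetic of the choice `m = fs W m2` -/
theorem js5_arith {v fs fu p W m2 : ℕ} {N1 : ℤ} (hv : 1 ≤ v) (hsq : Squarefree (fs * fu))
    (hp : 3 ≤ p) (hmin : ∀ r : ℕ, r.Prime → r ∣ fs * fu → p ≤ r) (hN : IsCoprime N1 (v : ℤ))
    (hfs : fs = Nat.gcd (fs * fu) N1.natAbs)
    (hW : (W = 2 ∧ ¬ (2 : ℤ) ∣ N1 ∧ ¬ 2 ∣ v) ∨ (W = 1 ∧ ((2 : ℤ) ∣ N1 ∨ 2 ∣ v)))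
    (h1 : ∀ r < p, r.Prime → ((r : ℤ) ∣ N1 ∨ r ∣ v) → ¬ r ∣ m2)
    (h2 : ∀ r ∈ (v * (fs * fu)).primeFactors, p ≤ r → ¬ r ∣ m2) :
    IsCoprime N1 ((v * fu : ℕ) : ℤ) ∧ IsCoprime ((fs * W * m2 : ℕ) : ℤ) ((v * fu : ℕ) : ℤ) ∧
    (∀ r < p, r.Prime → ¬ r ∣ fu ∧
      (¬ r ∣ v → ¬ (r : ℤ) ∣ N1 → ¬ (r : ℤ) ∣ ((fs * W * m2 : ℕ) : ℤ) → 3 ≤ r)) ∧
    ∀ q : ℕ, q.Prime → p ≤ q →
      (((v * fu : ℕ) : ℤ) ∣ N1 + q * ((fs * W * m2 : ℕ) : ℤ) →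
        ((v * (fs * fu) : ℕ) : ℤ) ∣ N1 + q * ((fs * W * m2 : ℕ) : ℤ)) ∧
      ∀ r < p, r.Prime → ¬ r ∣ v → ((r : ℤ) ∣ N1 ∨ (r : ℤ) ∣ ((fs * W * m2 : ℕ) : ℤ)) →
        ¬ ((v * r : ℕ) : ℤ) ∣ N1 + q * ((fs * W * m2 : ℕ) : ℤ) := by
  have c0 : fs.Coprime fu := Nat.coprime_of_squarefree_mul hsq
  have c1 : N1.natAbs.Coprime v := by simpa using Int.isCoprime_iff_nat_coprime.1 hN
  have c2 : fs ∣ N1.natAbs := hfs ▸ Nat.gcd_dvd_right _ _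
  have c3 : N1.natAbs.Coprime fu := Nat.coprime_of_dvd fun r hr a b => by
    have : r ∣ fs := hfs ▸ Nat.dvd_gcd (b.mul_left _) a
    exact hr.one_lt.ne' (Nat.eq_one_of_dvd_coprimes c0 this b)
  have c4 : N1.natAbs.Coprime (v * fu) := Nat.Coprime.mul_right c1 c3
  have c5 : fs.Coprime (v * fu) := c4.coprime_dvd_left c2
  have hf0 : fs * fu ≠ 0 := hsq.ne_zero
  have c6 : W.Coprime (v * fu) := by
    rcases hW with ⟨rfl, -, a⟩ | ⟨rfl, -⟩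
    · refine (Nat.Prime.coprime_iff_not_dvd Nat.prime_two).2 fun b => ?_
      rcases (Nat.Prime.dvd_mul Nat.prime_two).1 b with b | b
      · exact a b
      · have := hmin 2 Nat.prime_two (b.mul_left _)
        omega
    · exact Nat.coprime_one_left _
  have c7 : m2.Coprime (v * fu) := Nat.coprime_of_dvd fun r hr a b => by
    by_cases hrp : r < p
    · rcases (Nat.Prime.dvd_mul hr).1 b with b | b
      · exact h1 r hrp hr (Or.inr b) a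
      · have := hmin r hr (b.mul_left _)
        omega
    · refine h2 r (Nat.mem_primeFactors.2 ⟨hr, ?_, mul_ne_zero (by omega) hf0⟩) (by omega) a
      exact b.trans (Nat.mul_dvd_mul_left v (Dvd.intro_left fs rfl))
  refine ⟨Int.isCoprime_iff_nat_coprime.2 (by simpa only [Int.natAbs_natCast] using c4),
    Nat.isCoprime_iff_coprime.2 ((c5.mul_left c6).mul_left c7), fun r hr hpr => ⟨fun b => ?_,
      fun a b c => ?_⟩, fun q hq hpq => ⟨fun a => ?_, fun r hr hpr a b c => ?_⟩⟩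
  · have := hmin r hpr (b.mul_left _)
    omega
  · by_contra h3
    obtain rfl : r = 2 := by have := hpr.two_le; omega
    rcases hW with ⟨rfl, -⟩ | ⟨-, e | e⟩
    · exact c (Int.natCast_dvd_natCast.2 ((Dvd.intro_left fs rfl).mul_right _))
    · exact b e
    · exact a e
  · have e : ((v * (fs * fu) : ℕ) : ℤ) = (fs : ℤ) * ((v * fu : ℕ) : ℤ) := by push_cast; ring
    rw [e]
    refine (Nat.isCoprime_iff_coprime.2 c5).mul_dvd ?_ a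
    refine dvd_add (Int.natCast_dvd.2 c2) (Dvd.dvd.mul_left ?_ _)
    exact Int.natCast_dvd_natCast.2 ((Dvd.intro W rfl).mul_right _)
  · have c' : (r : ℤ) ∣ N1 + q * ((fs * W * m2 : ℕ) : ℤ) :=
      (Int.natCast_dvd_natCast.2 (Dvd.intro_left v rfl)).trans c
    have b' : (r : ℤ) ∣ N1 := b.elim id fun b => (dvd_add_left (b.mul_left _)).1 c'
    have d : r ∣ q * (fs * W * m2) := by
      have := (dvd_add_right b').1 c'
      exact_mod_cast this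
    rcases (Nat.Prime.dvd_mul hpr).1 d with d | d
    · have := (Nat.prime_dvd_prime_iff_eq hpr hq).1 d
      omega
    rcases (Nat.Prime.dvd_mul hpr).1 d with d | d
    · rcases (Nat.Prime.dvd_mul hpr).1 d with d | d
      · have := hmin r hpr (d.mul_right _)
        omega
      · rcases hW with ⟨rfl, e, -⟩ | ⟨rfl, -⟩
        · obtain rfl := (Nat.prime_dvd_prime_iff_eq hpr Nat.prime_two).1 d
          exact e b'
        · exact hpr.one_lt.ne' (Nat.dvd_one.1 d)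
    · exact h1 r hr hpr (Or.inl b') d

theorem js5_size {k : ℕ} {p Y : ℝ} (hk : 34 ≤ k) (hp0 : 0 ≤ p) (hp : p ≤ 2 ^ k) (hY : 0 ≤ Y)
    (h : 2 ^ (7 * k) ≤ (24 * Y) ^ 5) : p ^ 5 ≤ Y ^ 4 := by
  obtain ⟨j, rfl⟩ := Nat.exists_eq_add_of_le hk
  refine (pow_le_pow_left₀ hp0 hp 5).trans (le_of_pow_le_pow_left₀ (n := 5) (by norm_num)
    (by positivity) ?_)
  have h1 := pow_le_pow_left₀ (by positivity) h 4
  have h2 : ((24 * Y) ^ 5) ^ 4 = 24 ^ 20 * (Y ^ 4) ^ 5 := by ring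
  have h3 : ((2 : ℝ) ^ (7 * (34 + j))) ^ 4 =
      2 ^ 102 * (2 ^ j) ^ 3 * ((2 ^ (34 + j)) ^ 5) ^ 5 := by ring
  have h4 : (1 : ℝ) ≤ (2 ^ j) ^ 3 := one_le_pow₀ (one_le_pow₀ one_le_two)
  have h5 : (0 : ℝ) ≤ ((2 ^ (34 + j)) ^ 5) ^ 5 := by positivity
  rw [h2, h3] at h1
  generalize (((2 : ℝ) ^ (34 + j)) ^ 5) ^ 5 = a at *
  generalize ((2 : ℝ) ^ j) ^ 3 = b at *
  generalize (Y ^ 4) ^ 5 = c at *
  have h6 : (24 : ℝ) ^ 20 * a ≤ 2 ^ 102 * b * a :=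
    mul_le_mul_of_nonneg_right (le_trans (by norm_num)
      (le_mul_of_one_le_right (by positivity) h4)) h5
  exact le_of_mul_le_mul_left (h6.trans h1) (by positivity)

/-- the sizes attached to one value of `m2` -/
theorem js5_t {R h D P K Y m : ℝ} (hD : 0 < D) (hP : 0 < P) (hh : 0 ≤ h) (h1 : 10 * h ≤ R)
    (h2 : R ≤ K * h) (hY : Y * (3 / 2 * D * P) = R) (hY0 : 0 < Y) (m1 : Y < m)
    (m2 : m ≤ 11 / 10 * Y) :
    P ≤ R / (D * m) ∧ (R + h) / (D * m) < 2 * P ∧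
      P ≤ ((R + h) / (D * m) - R / (D * m)) * K ∧
      h / (D * (11 / 10 * Y)) ≤ (R + h) / (D * m) - R / (D * m) := by
  have m0 : 0 < m := hY0.trans m1
  have d0 : 0 < D * m := mul_pos hD m0
  have e : (R + h) / (D * m) - R / (D * m) = h / (D * m) := by ring
  have hDP : 0 < D * P := mul_pos hD hP
  have a1 : m * (D * P) ≤ 11 / 10 * Y * (D * P) := mul_le_mul_of_nonneg_right m2 hDP.le
  have a2 : Y * (D * P) < m * (D * P) := mul_lt_mul_of_pos_right m1 hDP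
  have a3 : 0 < Y * (D * P) := mul_pos hY0 hDP
  have a4 : P * (D * m) ≤ R := by nlinarith
  refine ⟨(le_div_iff₀ d0).2 a4, (div_lt_iff₀ d0).2 (by nlinarith), ?_, ?_⟩
  · rw [e, div_mul_eq_mul_div, le_div_iff₀ d0]
    linarith
  · rw [e]
    exact div_le_div_of_nonneg_left hh d0 (mul_le_mul_of_nonneg_left m2 hD.le)

theorem pos_lower : ∃ c : ℝ, 0 < c ∧ ∀ B : ℕ, ∃ κ0 : ℕ, ∀ (κ v f p d R1 h : ℕ) (N1 : ℤ)
    (X : Finset ℕ), κ0 ≤ κ → κ ≤ 2 ^ kk p → 1 ≤ v → 1 ≤ d → v ≤ κ ^ B → f ≤ κ ^ B →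
    X.card ≤ κ ^ B → Squarefree f → p.Prime → p ∣ f → (∀ r : ℕ, r.Prime → r ∣ f → p ≤ r) →
    IsCoprime N1 (v : ℤ) → 10 * h ≤ R1 → R1 ≤ κ ^ B * h →
    2 ^ (7 * kk p) * (d * 2 ^ (κ - 1) * f) ^ 5 ≤ (8 * R1) ^ 5 →
    c * h / ((v : ℝ) * d * f * kk p * κ) ≤
      ∑ q ∈ Box κ \ X, (((Icc 1 (R1 + h)).filter (fun m : ℕ => R1 < d * q * m ∧
        d * q * m ≤ R1 + h ∧ ((v * f : ℕ) : ℤ) ∣ N1 + q * m ∧
        ∀ r < p, r.Prime → ¬ ((v * r : ℕ) : ℤ) ∣ N1 + q * m)).card : ℝ) := by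
  classical
  obtain ⟨c1, c1p, H1⟩ := m_count
  obtain ⟨c2, c2p, H2⟩ := prime_count
  obtain ⟨c3, C3, c3p, -, H3⟩ := mertens_prod
  refine ⟨c1 * c2 * c3 / (11 / 5), by positivity, fun B => ?_⟩
  obtain ⟨k1, H1⟩ := H1 (2 * B)
  obtain ⟨k2, H2⟩ := H2 (2 * B)
  obtain ⟨k3, H4⟩ := js5_pow B
  refine ⟨2 ^ (k1 + 34) + k2 + k3, ?_⟩
  intro κ v f p d R1 h N1 X hκ hκp hv hd hvB hfB hXB hsq hp hpf hmin hN hh1 hh2 hbig
  have g1 : 2 ^ (k1 + 34) ≤ κ :=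
    le_trans (le_trans (Nat.le_add_right _ _) (Nat.le_add_right _ _)) hκ
  have g2 : k2 ≤ κ := le_trans (le_trans (Nat.le_add_left _ _) (Nat.le_add_right _ _)) hκ
  have g3 : k3 ≤ κ := le_trans (Nat.le_add_left _ _) hκ
  have hk : k1 + 34 ≤ kk p := (Nat.pow_le_pow_iff_right one_lt_two).1 (g1.trans hκp)
  have hκ1 : 1 ≤ κ := le_trans Nat.one_le_two_pow g1
  have hp3 : 3 ≤ p := by
    have h1 := two_pow_kk_le hp.ne_zero
    have h2 : 2 ^ 2 ≤ 2 ^ (kk p - 1) := Nat.pow_le_pow_right two_pos (by omega)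
    omega
  have hf0 : 0 < f := Nat.pos_of_ne_zero hsq.ne_zero
  have hBB : κ ^ B ≤ κ ^ (2 * B) := Nat.pow_le_pow_right hκ1 (by omega)
  have hpB : p ≤ κ ^ B := (Nat.le_of_dvd hf0 hpf).trans hfB
  have hvf : v * f ≤ κ ^ (2 * B) := by
    rw [two_mul, pow_add]; exact Nat.mul_le_mul hvB hfB
  obtain ⟨fs, fu, rfl, hfs⟩ : ∃ fs fu, f = fs * fu ∧ fs = Nat.gcd f N1.natAbs :=
    ⟨_, _, (Nat.mul_div_cancel' (Nat.gcd_dvd_left f N1.natAbs)).symm, rfl⟩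
  have fs0 : 0 < fs := Nat.pos_of_mul_pos_right hf0
  have fu0 : 0 < fu := Nat.pos_of_mul_pos_left hf0
  obtain ⟨W, hW⟩ : ∃ W : ℕ, (W = 2 ∧ ¬ (2 : ℤ) ∣ N1 ∧ ¬ 2 ∣ v) ∨
      (W = 1 ∧ ((2 : ℤ) ∣ N1 ∨ 2 ∣ v)) := by
    by_cases e : (2 : ℤ) ∣ N1 ∨ 2 ∣ v
    · exact ⟨1, Or.inr ⟨rfl, e⟩⟩
    · exact ⟨2, Or.inl ⟨rfl, not_or.1 e⟩⟩
  have W1 : 1 ≤ W ∧ W ≤ 2 := by omega
  have R0 : 0 < R1 := by
    refine Nat.pos_of_ne_zero fun e => ?_
    rw [e] at hbig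
    have : 0 < 2 ^ (7 * kk p) * (d * 2 ^ (κ - 1) * (fs * fu)) ^ 5 := by positivity
    omega
  have rd : (0 : ℝ) < d := by exact_mod_cast hd
  have rv : (0 : ℝ) < v := by exact_mod_cast hv
  have rs : (0 : ℝ) < fs := by exact_mod_cast fs0
  have ru : (1 : ℝ) ≤ fu := by exact_mod_cast fu0
  have rW : (1 : ℝ) ≤ W ∧ (W : ℝ) ≤ 2 := by exact_mod_cast W1
  have rR : (0 : ℝ) < R1 := by exact_mod_cast R0
  have rκ : (0 : ℝ) < κ := by exact_mod_cast hκ1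
  have rk : (0 : ℝ) < kk p := by exact_mod_cast kk_pos p
  have rP : (0 : ℝ) < 2 ^ (κ - 1) := by positivity
  have rD : (0 : ℝ) < d * (fs * W) := by have := rW.1; positivity
  obtain ⟨Y, hY⟩ : ∃ Y : ℝ, Y * (3 / 2 * (d * (fs * W)) * 2 ^ (κ - 1)) = R1 :=
    ⟨_, div_mul_cancel₀ _ (by positivity)⟩
  have Y0 : 0 < Y := (mul_pos_iff_of_pos_right (by positivity)).1 (hY ▸ rR)
  have hYp : (p : ℝ) ^ 5 ≤ Y ^ 4 := by
    refine js5_size (k := kk p) (by omega) (Nat.cast_nonneg p)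
      (by exact_mod_cast (lt_two_pow_kk p).le) Y0.le ?_
    have b1 : (2 : ℝ) ^ (7 * kk p) * (d * 2 ^ (κ - 1) * (fs * fu)) ^ 5 ≤ (8 * R1) ^ 5 := by
      exact_mod_cast hbig
    have b2 : (8 : ℝ) * R1 ≤ 24 * Y * (d * 2 ^ (κ - 1) * (fs * fu)) := by
      have b3 : (W : ℝ) ≤ 2 * fu := by linarith [rW.2]
      have b4 : 0 ≤ 12 * Y * (d * 2 ^ (κ - 1) * fs) := by positivity
      have b5 := mul_le_mul_of_nonneg_left b3 b4
      rw [← hY]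
      linarith
    have b6 := b1.trans (pow_le_pow_left₀ (by positivity) b2 5)
    rw [mul_pow (24 * Y)] at b6
    exact le_of_mul_le_mul_right b6 (by positivity)
  set S1 := (PP 0 p).filter (fun r : ℕ => (r : ℤ) ∣ N1 ∨ r ∣ v) with hS1
  set S2 := (PP 0 p).filter (fun r : ℕ => r ∣ v ∨ ¬ (r : ℤ) ∣ N1) with hS2
  set Sv := (PP 0 p).filter (fun r : ℕ => r ∣ v) with hSv
  have mP : ∀ r, r ∈ PP 0 p ↔ r < p ∧ r.Prime := fun r => by simp [mem_PP]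
  have hM := H1 Y p (v * (fs * fu)) S1 (by omega) Y0.le hYp (Nat.mul_pos hv hf0)
    (hvf.trans ((Nat.pow_le_pow_left hκp _).trans_eq (by rw [← pow_mul, mul_comm])))
    fun r hr => ((mP r).1 (mem_filter.1 hr).1).symm
  set M := (Ioc ⌊Y⌋₊ ⌊11 / 10 * Y⌋₊).filter (fun m => (∀ r ∈ S1, ¬ r ∣ m) ∧
    ∀ r ∈ (v * (fs * fu)).primeFactors, p ≤ r → ¬ r ∣ m) with hMdef
  have pos : ∀ S : Finset ℕ, S ⊆ PP 0 p → 0 < ∏ r ∈ S, (1 - 1 / (r : ℝ)) := fun S hS =>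
    prod_pos fun r hr => (js5_fac ((mP r).1 (hS hr)).2).1
  have p1 := pos S1 (filter_subset _ _)
  have p2 := pos S2 (filter_subset _ _)
  have pv := pos Sv (filter_subset _ _)
  have hprod : (∏ r ∈ PP 0 p, (1 - 1 / (r : ℝ))) * ∏ r ∈ Sv, (1 - 1 / (r : ℝ)) =
      (∏ r ∈ S1, (1 - 1 / (r : ℝ))) * ∏ r ∈ S2, (1 - 1 / (r : ℝ)) := by
    have e1 : S1 ∪ S2 = PP 0 p := by
      rw [hS1, hS2, ← filter_or]
      exact filter_true_of_mem fun r _ => by tauto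
    have e2 : S1 ∩ S2 = Sv := by
      rw [hS1, hS2, ← filter_and]
      exact filter_congr fun r _ => by tauto
    rw [← e1, ← e2, prod_union_inter]
  have hphi : (Nat.totient (v * fu) : ℝ) ≤ (v * fu : ℕ) * ∏ r ∈ Sv, (1 - 1 / (r : ℝ)) :=
    js5_phi fun r hr => Nat.mem_primeFactors.2 ⟨((mP r).1 (mem_filter.1 hr).1).2,
      (mem_filter.1 hr).2.mul_right _, (Nat.mul_pos hv fu0).ne'⟩
  have phi0 : (0 : ℝ) < Nat.totient (v * fu) := by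
    exact_mod_cast Nat.totient_pos.2 (Nat.mul_pos hv fu0)
  have key : ∀ m ∈ M, (Y < m ∧ (m : ℝ) ≤ 11 / 10 * Y) ∧ _ := fun m hm => by
    obtain ⟨a1, a2, a3⟩ := mem_filter.1 hm
    obtain ⟨a4, a5⟩ := mem_Ioc.1 a1
    exact ⟨⟨Nat.lt_of_floor_lt a4, (Nat.le_floor_iff (by positivity)).1 a5⟩,
      js5_arith (m2 := m) hv hsq hp3 hmin hN hfs hW
        (fun r hr hpr e => a2 r (mem_filter.2 ⟨(mP r).2 ⟨hr, hpr⟩, e⟩)) a3⟩
  have e2 : (2 : ℝ) * 2 ^ (κ - 1) = 2 ^ κ := by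
    rw [← pow_succ', Nat.sub_add_cancel hκ1]
  refine le_trans ?_ (js5_swap (Box κ \ X) M _ _ (fun m q =>
    (R1 : ℝ) / (d * (fs * W) * m) < q ∧ (q : ℝ) ≤ (R1 + h) / (d * (fs * W) * m) ∧
      ((v * fu : ℕ) : ℤ) ∣ N1 + q * ((fs * W * m : ℕ) : ℤ) ∧
      ∀ r ∈ (PP 0 p).filter (fun r : ℕ => r ∣ v ∨
        (¬ (r : ℤ) ∣ N1 ∧ ¬ (r : ℤ) ∣ ((fs * W * m : ℕ) : ℤ))),
        ¬ ((v * r : ℕ) : ℤ) ∣ N1 + q * ((fs * W * m : ℕ) : ℤ)) (fun m => fs * W * m)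
    (mul_right_injective₀ (Nat.mul_pos fs0 W1.1).ne') ?_)
  · have one : ∀ m ∈ M, c2 * (h / (d * (fs * W) * (11 / 10 * Y))) / (κ * Nat.totient (v * fu)) *
        ∏ r ∈ S2, (1 - 1 / (r : ℝ)) ≤ _ := fun m hm => by
      obtain ⟨⟨m1, m2⟩, a1, a2, a3, -⟩ := key m hm
      obtain ⟨t1, t2, t3, t4⟩ := js5_t (K := (κ : ℝ) ^ (2 * B)) rD rP (Nat.cast_nonneg h)
        (by exact_mod_cast hh1) (by exact_mod_cast hh2.trans (Nat.mul_le_mul_right h hBB)) hY Y0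
        m1 m2
      refine le_trans ?_ (H2 κ v fu p N1 ((fs * W * m : ℕ) : ℤ)
        ((PP 0 p).filter (fun r : ℕ => r ∣ v ∨
          (¬ (r : ℤ) ∣ N1 ∧ ¬ (r : ℤ) ∣ ((fs * W * m : ℕ) : ℤ)))) X _ _ g2 hv fu0 hp.two_le
        (hpB.trans hBB) (le_trans (Nat.mul_le_mul_left v (Nat.le_mul_of_pos_left fu fs0)) hvf)
        (hXB.trans hBB) a1 a2 (fun r hr => ?_) t1 (e2 ▸ t2) t3)
      · refine mul_le_mul (div_le_div_of_nonneg_right (mul_le_mul_of_nonneg_left t4 c2p.le)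
          (by positivity)) (js5_sub (fun r hr => ?_) fun r hr => ((mP r).1 (mem_filter.1 hr).1).2)
          p2.le ?_
        · exact mem_filter.2 ⟨(mem_filter.1 hr).1, (mem_filter.1 hr).2.imp_right And.left⟩
        · have : 0 ≤ (h : ℝ) / (d * (fs * W) * (11 / 10 * Y)) := by positivity
          have := this.trans t4
          positivity
      · obtain ⟨b1, b2⟩ := mem_filter.1 hr
        obtain ⟨b3, b4⟩ := (mP r).1 b1
        refine ⟨b4, b3, (a3 r b3 b4).1, ?_⟩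
        by_cases e : r ∣ v
        · exact Or.inl e
        · obtain ⟨b5, b6⟩ := b2.resolve_left e
          exact Or.inr ⟨(a3 r b3 b4).2 e b5 b6, b5, b6⟩
    refine le_trans ?_ (sum_le_sum one)
    rw [sum_const, nsmul_eq_mul]
    refine le_trans ?_ (mul_le_mul_of_nonneg_right hM (by positivity))
    have m3 := (H3 p hp.two_le).1
    push_cast at hphi ⊢
    generalize (∏ r ∈ PP 0 p, (1 - 1 / (r : ℝ))) = a at *
    generalize (∏ r ∈ S1, (1 - 1 / (r : ℝ))) = a1 at *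
    generalize (∏ r ∈ S2, (1 - 1 / (r : ℝ))) = a2 at *
    generalize (∏ r ∈ Sv, (1 - 1 / (r : ℝ))) = av at *
    generalize (Nat.totient (v * fu) : ℝ) = φ at *
    have w0 : (0 : ℝ) < W := by linarith [rW.1]
    have e3 : c1 * Y * a1 * (c2 * (h / (d * (fs * W) * (11 / 10 * Y))) / (κ * φ) * a2) =
        c1 * c2 * h / (11 / 10 * d * fs * κ) * (a * av / (W * φ)) := by
      rw [hprod]; field_simp
    have e4 : c1 * c2 * c3 / (11 / 5) * h / (v * d * (fs * fu) * kk p * κ) =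
        c1 * c2 * h / (11 / 10 * d * fs * κ) * (c3 / kk p * av / (2 * (v * fu * av))) := by
      field_simp; ring
    rw [e3, e4]
    refine mul_le_mul_of_nonneg_left ?_ (by positivity)
    have a0 : 0 ≤ c3 / kk p := by positivity
    exact div_le_div₀ (mul_nonneg (a0.trans m3) pv.le) (mul_le_mul_of_nonneg_right m3 pv.le)
      (by positivity) (mul_le_mul rW.2 hphi phi0.le (by norm_num))
  · rintro m hm q hq ⟨b1, b2, b3, b4⟩
    obtain ⟨⟨m1, -⟩, -, -, -, a4⟩ := key m hm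
    obtain ⟨q1, q2⟩ := mem_Box.1 (mem_sdiff.1 hq).1
    have q3 : p ≤ q := by
      have h1 := two_pow_kk_le q1.ne_zero
      have h2 := H4 κ g3
      rw [q2] at h1
      omega
    have m0 : (0 : ℝ) < m := Y0.trans m1
    have m0' : 0 < m := by exact_mod_cast m0
    rw [div_lt_iff₀ (by positivity)] at b1
    rw [le_div_iff₀ (by positivity)] at b2
    have b5 : R1 < d * q * (fs * W * m) := by
      have : (R1 : ℝ) < d * q * (fs * W * m) := by linarith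
      exact_mod_cast this
    have b6 : d * q * (fs * W * m) ≤ R1 + h := by
      have : (d : ℝ) * q * (fs * W * m) ≤ R1 + h := by linarith
      exact_mod_cast this
    refine ⟨mem_Icc.2 ⟨Nat.mul_pos (Nat.mul_pos fs0 W1.1) m0',
      (Nat.le_mul_of_pos_left _ (Nat.mul_pos hd q1.pos)).trans b6⟩, b5, b6, (a4 q q1 q3).1 b3,
      fun r hr hpr => ?_⟩
    by_cases e : r ∣ v ∨ (¬ (r : ℤ) ∣ N1 ∧ ¬ (r : ℤ) ∣ ((fs * W * m : ℕ) : ℤ))
    · exact b4 r (mem_filter.2 ⟨(mP r).2 ⟨hr, hpr⟩, e⟩)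
    · exact (a4 q q1 q3).2 r hr hpr (fun c => e (Or.inl c))
        (by by_contra c; exact e (Or.inr (not_or.1 c)))

end

end Pool.Agent.Jac
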