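import Pool.Agent.P.MP_45ff98_nt.JS5

/-! Average of the virtual counts. -/

namespace Pool.Agent.Jac
open Finset

noncomputable section

theorem JS6_card (v f p d q y R1 h : ℕ) (N1 R s : ℤ) (hs : s = 1 ∨ s = -1) (hd : 1 ≤ d)
    (hq : 1 ≤ q) (hc : IsCoprime ((d : ℤ) * N1) (v : ℤ))
    (hp : ∀ r : ℕ, r.Prime → r ∣ d → p ≤ r)
    (hM : ∀ M : ℤ, (R1 : ℤ) < M → M ≤ R1 + h → R < s * M ∧ s * M ≤ R + v * y) :
    ((Icc 1 (R1 + h)).filter (fun m : ℕ => R1 < d * q * m ∧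
        d * q * m ≤ R1 + h ∧ ((v * f : ℕ) : ℤ) ∣ s * N1 + q * m ∧
        ∀ r < p, r.Prime → ¬ ((v * r : ℕ) : ℤ) ∣ s * N1 + q * m)).card
      ≤ vc v (d * N1) R y (d * q) f p := by
  unfold vc
  have hn : (0 : ℤ) < ((d * q : ℕ) : ℤ) := by exact_mod_cast Nat.mul_pos hd hq
  have hss : s * s = 1 := by rcases hs with h | h <;> simp [h]
  refine card_le_card_of_injOn (fun m : ℕ => s * (m : ℤ)) ?_ ?_
  · intro m hm
    obtain ⟨-, h1, h2, h3, h4⟩ := mem_filter.1 (mem_coe.1 hm)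
    have e : (d : ℤ) * N1 + ((d * q : ℕ) : ℤ) * (s * m) = s * (d * (s * N1 + q * m)) := by
      push_cast
      linear_combination (-(d : ℤ) * N1) * hss
    obtain ⟨h5, h6⟩ := hM ((d * q * m : ℕ) : ℤ) (by exact_mod_cast h1) (by exact_mod_cast h2)
    have e2 : s * ((d * q * m : ℕ) : ℤ) = s * (m : ℤ) * ((d * q : ℕ) : ℤ) := by push_cast; ring
    rw [e2] at h5 h6
    refine mem_coe.2 (mem_filter.2 ⟨mem_Ioc.2 ⟨(Int.ediv_lt_iff_lt_mul hn).2 h5,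
      (Int.le_ediv_iff_mul_le hn).2 h6⟩, ?_, fun r hr hrp hdv => h4 r hr hrp ?_⟩)
    · rw [e]
      exact (h3.mul_left _).mul_left _
    · rw [e] at hdv
      have h7 : ((v * r : ℕ) : ℤ) ∣ d * (s * N1 + q * m) := by
        have := hdv.mul_left s
        rwa [← mul_assoc, hss, one_mul] at this
      have c1 : IsCoprime (v : ℤ) (d : ℤ) := hc.of_mul_left_left.symm
      have c2 : IsCoprime (r : ℤ) (d : ℤ) := by
        rw [Nat.isCoprime_iff_coprime, hrp.coprime_iff_not_dvd]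
        intro h8
        exact absurd (hp r hrp h8) (by omega)
      have c3 : IsCoprime ((v * r : ℕ) : ℤ) (d : ℤ) := by
        push_cast
        exact c1.mul_left c2
      exact c3.dvd_of_dvd_mul_left h7
  · intro a _ b _ hab
    have h0 : s ≠ 0 := by rcases hs with h | h <;> simp [h]
    exact_mod_cast mul_left_cancel₀ h0 hab

theorem JS6_choice (W K : ℕ) (R : ℤ) (hW : 80 ≤ W) (hK : 1 ≤ K) (hR : |R| ≤ ((K * W : ℕ) : ℤ)) :
    ∃ (R1 : ℕ) (s : ℤ), (s = 1 ∨ s = -1) ∧ W ≤ 4 * R1 ∧ R1 ≤ K * W ∧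
      ∀ M : ℤ, (R1 : ℤ) < M → M ≤ R1 + (W / 40 : ℕ) → R < s * M ∧ s * M ≤ R + W := by
  have h1 : W ≤ K * W := Nat.le_mul_of_pos_left _ hK
  obtain ⟨h2, h3⟩ := abs_le.1 hR
  generalize K * W = Z at h1 h2 h3
  by_cases h : -(W : ℤ) ≤ 2 * R
  · refine ⟨max R.toNat ((W + 3) / 4), 1, Or.inl rfl, by omega, by omega, fun M h4 h5 => ?_⟩
    omega
  · refine ⟨max (-R - W).toNat ((W + 3) / 4), -1, Or.inr rfl, by omega, by omega,
      fun M h4 h5 => ?_⟩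
    omega

theorem vc_lower : ∃ c : ℝ, 0 < c ∧ ∀ B : ℕ, ∃ κ0 : ℕ, ∀ (κ v f p d y T0 : ℕ) (Ns R : ℤ)
    (X : Finset ℕ), κ0 ≤ κ → κ ≤ 2 ^ kk p → 1 ≤ v → 1 ≤ d → v ≤ κ ^ B → f ≤ κ ^ B → T0 ≤ κ ^ B →
    X.card ≤ κ ^ B → Squarefree f → p.Prime → p ∣ f → (∀ r : ℕ, r.Prime → r ∣ f → p ≤ r) →
    IsCoprime Ns (v : ℤ) → (d : ℤ) ∣ Ns → (∀ r : ℕ, r.Prime → r ∣ d → p ≤ r) →
    |R| ≤ ((T0 * v * y : ℕ) : ℤ) → 2 ^ (7 * kk p) * (d * 2 ^ (κ - 1) * f) ^ 5 ≤ y ^ 5 →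
    c * y / ((d : ℝ) * f * kk p * κ) ≤ ∑ q ∈ Box κ \ X, (vc v Ns R y (d * q) f p : ℝ) := by
  obtain ⟨c, hc, H⟩ := pos_lower
  refine ⟨c / 80, by positivity, fun B => ?_⟩
  obtain ⟨κ0, H⟩ := H (B + 1)
  refine ⟨max κ0 80, ?_⟩
  intro κ v f p d y T0 Ns R X hκ hκp hv hd hvB hfB hTB hXB hsq hp hpf hfp hco hdN hdp hR hy
  have hκ0 : κ0 ≤ κ := (le_max_left _ _).trans hκ
  have hκ80 : 80 ≤ κ := (le_max_right _ _).trans hκ
  obtain ⟨N1, rfl⟩ := hdN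
  have hf : 1 ≤ f := Nat.pos_of_ne_zero hsq.ne_zero
  have hK : 1 ≤ κ ^ B := Nat.one_le_pow _ _ (by omega)
  have hBB : κ ^ B ≤ κ ^ (B + 1) := Nat.pow_le_pow_right (by omega) (by omega)
  have hy80 : 80 ≤ y := by
    have h1 : (d * 2 ^ (κ - 1) * f) ^ 5 ≤ y ^ 5 :=
      le_trans (Nat.le_mul_of_pos_left _ (by positivity)) hy
    have h2 : d * 2 ^ (κ - 1) * f ≤ y := (Nat.pow_le_pow_iff_left (by norm_num)).1 h1
    have h3 : 2 ^ 7 ≤ 2 ^ (κ - 1) := Nat.pow_le_pow_right (by norm_num) (by omega)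
    have h4 : 2 ^ (κ - 1) ≤ d * 2 ^ (κ - 1) := Nat.le_mul_of_pos_left _ hd
    have h5 : d * 2 ^ (κ - 1) ≤ d * 2 ^ (κ - 1) * f := Nat.le_mul_of_pos_right _ hf
    omega
  have hyW : y ≤ v * y := Nat.le_mul_of_pos_left _ hv
  have hR' : |R| ≤ ((κ ^ B * (v * y) : ℕ) : ℤ) := by
    refine hR.trans ?_
    rw [mul_assoc]
    exact_mod_cast Nat.mul_le_mul_right _ hTB
  obtain ⟨R1, s, hs, h1, h2, h3⟩ := JS6_choice (v * y) (κ ^ B) R (by omega) hK hR'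
  have hh : v * y ≤ 80 * (v * y / 40) := by omega
  have hco' : IsCoprime (s * N1) (v : ℤ) := by
    have := hco.of_mul_left_right
    rcases hs with h | h
    · simpa [h] using this
    · simpa [h] using this.neg_left
  have hR1 : R1 ≤ κ ^ (B + 1) * (v * y / 40) := by
    refine h2.trans ((Nat.mul_le_mul_left _ hh).trans ?_)
    rw [pow_succ, mul_assoc]
    exact Nat.mul_le_mul_left _ (Nat.mul_le_mul_right _ hκ80)
  have key := H κ v f p d R1 (v * y / 40) (s * N1) X hκ0 hκp hv hd (hvB.trans hBB) (hfB.trans hBB)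
    (hXB.trans hBB) hsq hp hpf hfp hco' (by omega) hR1
    (hy.trans (Nat.pow_le_pow_left (by omega) _))
  refine le_trans ?_ (key.trans (sum_le_sum fun q hq => ?_))
  · have hv' : (0 : ℝ) < v := by exact_mod_cast hv
    have hd' : (0 : ℝ) < d := by exact_mod_cast hd
    have hf' : (0 : ℝ) < f := by exact_mod_cast hf
    have hk' : (0 : ℝ) < kk p := by exact_mod_cast kk_pos p
    have hκ' : (0 : ℝ) < κ := by exact_mod_cast (by omega : 0 < κ)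
    have hh' : (v : ℝ) * y ≤ 80 * ((v * y / 40 : ℕ) : ℝ) := by exact_mod_cast hh
    have e : c / 80 * y / ((d : ℝ) * f * kk p * κ)
        = c * (v * y / 80) / ((v : ℝ) * d * f * kk p * κ) := by field_simp
    rw [e]
    refine div_le_div_of_nonneg_right (mul_le_mul_of_nonneg_left (by linarith) hc.le) ?_
    positivity
  · have hq1 : 1 ≤ q := (mem_Box.1 (mem_sdiff.1 hq).1).1.one_le
    exact_mod_cast JS6_card v f p d q y R1 (v * y / 40) N1 R s hs hd hq1 hco hdp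
      (fun M h4 h5 => by exact_mod_cast h3 M h4 h5)

end

end Pool.Agent.Jac
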