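import Pool.Agent.P.MP_45ff98_nt.JFL

/-! The fundamental lemma in applied form. -/

namespace Pool.Agent.Jac
open Finset

noncomputable section

theorem level_card (S : Finset ℕ) (hS : ∀ r ∈ S, r.Prime) (D : ℝ) (hD : 1 ≤ D) :
    ((S.powerset.filter (fun T => (pr T : ℝ) ≤ D)).card : ℝ) ≤ D ∧
      ∑ T ∈ S.powerset.filter (fun T => (pr T : ℝ) ≤ D), 1 / (pr T : ℝ) ≤ 1 + Real.log D := by
  have h0 : (0 : ℝ) ≤ D := by linarith
  have key : ∀ T ∈ S.powerset.filter (fun T => (pr T : ℝ) ≤ D),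
      (∀ p ∈ T, p.Prime) ∧ pr T ≤ ⌊D⌋₊ := by
    intro T hT
    rw [mem_filter, mem_powerset] at hT
    exact ⟨fun p hp => hS p (hT.1 hp), Nat.le_floor hT.2⟩
  have hfl : (⌊D⌋₊ : ℝ) ≤ D := Nat.floor_le h0
  have hpos : (0 : ℝ) < ⌊D⌋₊ := by
    have : 1 ≤ ⌊D⌋₊ := Nat.le_floor (by simpa using hD)
    exact_mod_cast this
  refine ⟨?_, ?_⟩
  · have := card_le_of_pr_le _ _ key
    exact le_trans (by exact_mod_cast this) hfl
  · have := sum_inv_pr_le _ _ key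
    have h2 := Real.log_le_log hpos hfl
    linarith

theorem JSv_swap {α : Type} (A : Finset α) (a : α → ℝ) (hit : ℕ → α → Prop)
    [∀ r x, Decidable (hit r x)] (S : Finset ℕ) (w : Finset ℕ → ℝ) :
    ∑ x ∈ A, a x * ∑ T ∈ (S.filter (fun r => hit r x)).powerset, w T =
      ∑ T ∈ S.powerset, w T * ∑ x ∈ A.filter (fun x => ∀ r ∈ T, hit r x), a x := by
  have h1 : ∀ x, (S.filter (fun r => hit r x)).powerset =
      S.powerset.filter (fun T => ∀ r ∈ T, hit r x) := by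
    intro x
    ext T
    simp only [mem_powerset, mem_filter]
    constructor
    · intro h
      exact ⟨fun r hr => (mem_filter.1 (h hr)).1, fun r hr => (mem_filter.1 (h hr)).2⟩
    · intro h r hr
      exact mem_filter.2 ⟨h.1 hr, h.2 r hr⟩
  simp only [h1, sum_filter, mul_sum]
  rw [sum_comm]
  refine sum_congr rfl fun T _ => sum_congr rfl fun x _ => ?_
  split_ifs
  · ring
  · ring

theorem JSv_ind {α : Type} (A : Finset α) (a : α → ℝ) (hit : ℕ → α → Prop)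
    [∀ r x, Decidable (hit r x)] (S : Finset ℕ) :
    ∑ x ∈ A.filter (fun x => ∀ r ∈ S, ¬ hit r x), a x =
      ∑ x ∈ A, a x * (if S.filter (fun r => hit r x) = ∅ then 1 else 0) := by
  rw [sum_filter]
  refine sum_congr rfl fun x _ => ?_
  by_cases h : ∀ r ∈ S, ¬ hit r x
  · rw [if_pos h, if_pos (filter_eq_empty_iff.2 h), mul_one]
  · rw [if_neg h, if_neg (fun h' => h (filter_eq_empty_iff.1 h')), mul_zero]

theorem JSv_err {α : Type} (A : Finset α) (a : α → ℝ) (hit : ℕ → α → Prop)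
    [∀ r x, Decidable (hit r x)] (S : Finset ℕ) (D X : ℝ) (g : ℕ → ℝ) (R : Finset ℕ → ℝ)
    (w : Finset ℕ → ℝ) (hw : Wts S D w)
    (hR : ∀ T ⊆ S, (pr T : ℝ) ≤ D →
      |∑ x ∈ A.filter (fun x => ∀ r ∈ T, hit r x), a x - X * ∏ r ∈ T, g r| ≤ R T) :
    |∑ T ∈ S.powerset, w T * ∑ x ∈ A.filter (fun x => ∀ r ∈ T, hit r x), a x -
      X * ∑ T ∈ S.powerset, w T * ∏ r ∈ T, g r| ≤
      ∑ T ∈ S.powerset.filter (fun T => (pr T : ℝ) ≤ D), R T := by
  rw [mul_sum, ← sum_sub_distrib, sum_filter]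
  refine (abs_sum_le_sum_abs _ _).trans (sum_le_sum fun T hT => ?_)
  have hTS : T ⊆ S := mem_powerset.1 hT
  have e : w T * ∑ x ∈ A.filter (fun x => ∀ r ∈ T, hit r x), a x - X * (w T * ∏ r ∈ T, g r) =
      w T * (∑ x ∈ A.filter (fun x => ∀ r ∈ T, hit r x), a x - X * ∏ r ∈ T, g r) := by ring
  rw [e, abs_mul]
  by_cases hD : (pr T : ℝ) ≤ D
  · rw [if_pos hD]
    have h1 := hR T hTS hD
    have h2 := (hw T).1
    have h3 := abs_nonneg (∑ x ∈ A.filter (fun x => ∀ r ∈ T, hit r x), a x - X * ∏ r ∈ T, g r)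
    nlinarith
  · rw [if_neg hD]
    have : w T = 0 := by
      by_contra h
      exact hD ((hw T).2 h).2
    rw [this, abs_zero, zero_mul]

theorem sieve : ∃ C : ℝ, 1 ≤ C ∧ ∀ {α : Type} (A : Finset α) (a : α → ℝ) (hit : ℕ → α → Prop)
    [∀ r x, Decidable (hit r x)] (S : Finset ℕ) (z D X : ℝ) (g : ℕ → ℝ) (R : Finset ℕ → ℝ),
    2 ≤ z → z ≤ D ^ 4 → 1 ≤ D → (∀ r ∈ S, r.Prime ∧ (r : ℝ) < z) → Dens S g →
    (∀ x ∈ A, 0 ≤ a x) → 0 ≤ X →
    (∀ T ⊆ S, (pr T : ℝ) ≤ D →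
      |∑ x ∈ A.filter (fun x => ∀ r ∈ T, hit r x), a x - X * ∏ r ∈ T, g r| ≤ R T) →
    |∑ x ∈ A.filter (fun x => ∀ r ∈ S, ¬ hit r x), a x - X * ∏ r ∈ S, (1 - g r)| ≤
      C * Real.exp (-4 * Real.log D / Real.log z) * (X * ∏ r ∈ S, (1 - g r)) +
        ∑ T ∈ S.powerset.filter (fun T => (pr T : ℝ) ≤ D), R T := by
  obtain ⟨C, hC, H⟩ := fund_lemma
  refine ⟨C, hC, ?_⟩
  intro α A a hit _ S z D X g R hz hzD hD hS hg ha hX hR
  obtain ⟨wu, wl, hwu, hwl, hs, hG⟩ := H S z D hz hzD hD hS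
  obtain ⟨hu, hl⟩ := hG g hg
  have eu := abs_le.1 (JSv_err A a hit S D X g R wu hwu hR)
  have el := abs_le.1 (JSv_err A a hit S D X g R wl hwl hR)
  rw [← JSv_swap] at eu el
  have up : ∑ x ∈ A.filter (fun x => ∀ r ∈ S, ¬ hit r x), a x ≤
      ∑ x ∈ A, a x * ∑ T ∈ (S.filter (fun r => hit r x)).powerset, wu T := by
    rw [JSv_ind]
    exact sum_le_sum fun x hx =>
      mul_le_mul_of_nonneg_left (hs _ (filter_subset _ _)).2 (ha x hx)
  have lo : ∑ x ∈ A, a x * ∑ T ∈ (S.filter (fun r => hit r x)).powerset, wl T ≤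
      ∑ x ∈ A.filter (fun x => ∀ r ∈ S, ¬ hit r x), a x := by
    rw [JSv_ind]
    exact sum_le_sum fun x hx =>
      mul_le_mul_of_nonneg_left (hs _ (filter_subset _ _)).1 (ha x hx)
  have hu' := mul_le_mul_of_nonneg_left hu hX
  have hl' := mul_le_mul_of_nonneg_left hl hX
  rw [abs_le]
  constructor
  · nlinarith [eu.1, eu.2, el.1, el.2]
  · nlinarith [eu.1, eu.2, el.1, el.2]

end

end Pool.Agent.Jac
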