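import Pool.Agent.P.MP_45ff98_nt.JS2
import Pool.Agent.P.MP_45ff98_nt.JS6
import Pool.Agent.P.MP_45ff98_nt.JG1b

/-! Virtual gains. -/

namespace Pool.Agent.Jac
open Finset

noncomputable section

theorem jv_cop {y : ℕ} {s : ℕ × ℤ} (hs : Fr y s) (N : ℤ) : IsCoprime (nf N s) (s.1 : ℤ) := by
  have h := hs.2.2.2.symm.neg_left.add_mul_left_left N
  have e : nf N s = -s.2 + (s.1 : ℤ) * N := by rw [nf]; ring
  rwa [e]

theorem jv_sqf {F : Finset ℕ} (h : ∀ p ∈ F, p.Prime) : Squarefree (pr F) := by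
  induction F using Finset.induction_on with
  | empty => simp [pr]
  | insert a F ha ih =>
    have h1 : ∀ p ∈ F, p.Prime := fun p hp => h p (mem_insert_of_mem hp)
    have h2 : a.Prime := h a (mem_insert_self a F)
    rw [pr_insert ha, Nat.squarefree_mul_iff]
    exact ⟨(Nat.Prime.coprime_iff_not_dvd h2).2 fun hd => ha ((prime_dvd_pr h1 h2).1 hd),
      h2.squarefree, ih h1⟩

theorem jv_phi (P : Par) (e t : ℕ) :
    phi P e t = ∑ F ∈ famW P e t, 1 / ((pr F : ℝ) * kk (mn F)) := rfl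

theorem vg_true {P : Par} {y z t0 L om : ℕ} (h : Setup P y z t0 L) {T : Finset ℕ}
    (hT : T ∈ NN P t0 z om) (N : ℤ) {s : ℕ × ℤ} (hs : Fr y s) (hd : (pr T : ℤ) ∣ nf N s) :
    vg P N y t0 s T ≤ gN P N y t0 T := by
  have hp : 0 < pr T := pr_pos fun p hp => ((NN_facts h hT).1 p hp).1
  unfold vg gN GA
  refine div_le_div_of_nonneg_right (sum_le_sum fun F hF => ?_) (Nat.cast_nonneg _)
  exact_mod_cast vc_true s.1 y (pr T) (pr F) (mn F) N s.2 hs.1 hp hs.2.2.2 hd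
    (pair_facts h hT hF).2

theorem vg_upper : ∃ C : ℝ, 0 < C ∧ ∀ (P : Par) (N : ℤ) (y z t0 L om : ℕ) (T : Finset ℕ)
    (s : ℕ × ℤ), Setup P y z t0 L → T ∈ NN P t0 z om → Fr y s →
    vg P N y t0 s T ≤ C * wN P t0 T := by
  obtain ⟨C, hC, H⟩ := vc_upper
  refine ⟨C, hC, fun P N y z t0 L om T s h hT hs => ?_⟩
  obtain ⟨h1, -, -, -, h5, -⟩ := NN_facts h hT
  have hpT : ∀ p ∈ T, p.Prime := fun p hp => (h1 p hp).1
  have hp : 0 < pr T := pr_pos hpT
  have hy : (0 : ℝ) < y := by exact_mod_cast (by omega : 0 < y)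
  unfold vg wN
  rw [jv_phi, div_le_iff₀ hy, sum_div, mul_sum, sum_mul]
  refine sum_le_sum fun F hF => ?_
  obtain ⟨g1, g2, -⟩ := fam_facts hF
  obtain ⟨k1, k2⟩ := pair_facts h hT hF
  have hpF : ∀ p ∈ F, p.Prime := fun p hp => (g2 p hp).1
  have hm := g2 _ (mn_mem g1)
  refine (H s.1 y (pr T) (pr F) (mn F) (nf N s) s.2 hs.1 hp (pr_pos hpF) hm.1.two_le (jv_cop hs N)
    k2 (fun r hr hd => ?_) ?_).trans (le_of_eq ?_)
  · rcases (Nat.Prime.dvd_mul hr).1 hd with hd | hd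
    · exact (hm.2.1.trans_le (h1 r ((prime_dvd_pr hpT hr).1 hd)).2.1).le
    · exact mn_le ((prime_dvd_pr hpF hr).1 hd)
  · refine (Nat.pow_le_pow_iff_left (by norm_num : 5 ≠ 0)).1 (le_trans ?_ k1)
    rw [mul_pow]
    refine Nat.mul_le_mul_right _ ((Nat.pow_le_pow_left (lt_two_pow_kk _).le 5).trans ?_)
    rw [← pow_mul]
    exact Nat.pow_le_pow_right (by norm_num) (by omega)
  · ring

theorem vg_lower : ∃ c : ℝ, 0 < c ∧ ∀ B : ℕ, ∃ κ0 : ℕ, ∀ (P : Par) (N : ℤ) (y z t0 L om T0 q : ℕ)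
    (T : Finset ℕ) (s : ℕ × ℤ), Setup P y z t0 L → T ∈ NN P t0 z om → q ∈ T → Fr y s →
    κ0 ≤ kk q → kk q ≤ 2 ^ P.kw → s.1 ≤ kk q ^ B → T0 ≤ kk q ^ B →
    2 ^ (P.CW * P.kW) ≤ kk q ^ B → om ≤ kk q ^ B → |s.2| ≤ ((T0 * s.1 * y : ℕ) : ℤ) →
    (∀ r ∈ T.erase q, (r : ℤ) ∣ nf N s) →
    c * ∑ q' ∈ Box (kk q) \ T.erase q, wN P t0 (insert q' (T.erase q)) ≤
      ∑ q' ∈ Box (kk q) \ T.erase q, vg P N y t0 s (insert q' (T.erase q)) := by
  obtain ⟨c, hc, H⟩ := vc_lower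
  refine ⟨c / 2, half_pos hc, fun B => ?_⟩
  obtain ⟨κ0, H⟩ := H B
  refine ⟨κ0, fun P N y z t0 L om T0 q T s h hT hq hs a1 a2 a3 a4 a5 a6 a7 a8 => ?_⟩
  obtain ⟨h1, -, h3, -, h5, -, h7⟩ := NN_facts h hT
  have hpT : ∀ p ∈ T, p.Prime := fun p hp => (h1 p hp).1
  have hpT' : ∀ p ∈ T.erase q, p.Prime := fun p hp => hpT p (mem_of_mem_erase hp)
  have hp : 0 < pr T := pr_pos hpT
  have hd : 0 < pr (T.erase q) := pr_pos hpT'
  have hy : (0 : ℝ) < y := by exact_mod_cast (by omega : 0 < y)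
  have hd' : (0 : ℝ) < pr (T.erase q) := by exact_mod_cast hd
  have hκ : (0 : ℝ) < kk q := by exact_mod_cast kk_pos q
  have hqn : q ∉ T.erase q := notMem_erase q T
  have eT : pr T = q * pr (T.erase q) := by rw [← pr_insert hqn, insert_erase hq]
  have ecard : ∀ q' ∈ Box (kk q) \ T.erase q, (insert q' (T.erase q)).card = T.card := by
    intro q' hq'
    rw [card_insert_of_notMem (mem_sdiff.1 hq').2, card_erase_add_one hq]
  have eks : ∀ q' ∈ Box (kk q) \ T.erase q, ks (insert q' (T.erase q)) = ks T := by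
    intro q' hq'
    rw [ks_insert (mem_sdiff.1 hq').2, (mem_Box.1 (mem_sdiff.1 hq').1).2, ← ks_insert hqn,
      insert_erase hq]
  have hφ := (phi_le P T.card (t0 - ks T)).1
  have hk0 : P.k0 ≤ kk q := by
    have := (h1 q hq).2.2.1
    have := h.kw
    have := h.k1
    have := h.kW
    omega
  have e1 : ∑ q' ∈ Box (kk q) \ T.erase q, wN P t0 (insert q' (T.erase q)) ≤
      phi P T.card (t0 - ks T) / pr (T.erase q) * (2 / kk q) := by
    calc _ = ∑ q' ∈ Box (kk q) \ T.erase q,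
          phi P T.card (t0 - ks T) / pr (T.erase q) * (1 / (q' : ℝ)) := by
          refine sum_congr rfl fun q' hq' => ?_
          rw [wN, ecard q' hq', eks q' hq', pr_insert (mem_sdiff.1 hq').2]
          push_cast
          ring
      _ ≤ _ := by
          rw [← mul_sum]
          refine mul_le_mul_of_nonneg_left ?_ (div_nonneg hφ hd'.le)
          refine (sum_le_sum_of_subset_of_nonneg sdiff_subset fun _ _ _ => by positivity).trans
            ((h.hB _ hk0).2.trans ?_)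
          exact div_le_div_of_nonneg_right (by norm_num) hκ.le
  have e2 : ∑ q' ∈ Box (kk q) \ T.erase q, vg P N y t0 s (insert q' (T.erase q)) =
      (∑ F ∈ famW P T.card (t0 - ks T), ∑ q' ∈ Box (kk q) \ T.erase q,
        (vc s.1 (nf N s) s.2 y (pr (T.erase q) * q') (pr F) (mn F) : ℝ)) / y := by
    rw [sum_comm, sum_div]
    refine sum_congr rfl fun q' hq' => ?_
    rw [vg, ecard q' hq', eks q' hq', pr_insert (mem_sdiff.1 hq').2, mul_comm q']
  rw [e2, le_div_iff₀ hy]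
  refine (mul_le_mul_of_nonneg_right (mul_le_mul_of_nonneg_left e1 (half_pos hc).le)
    hy.le).trans ?_
  rw [jv_phi, sum_div, sum_mul, mul_sum, sum_mul]
  refine sum_le_sum fun F hF => ?_
  obtain ⟨g1, g2, g3, -, g5, -⟩ := fam_facts hF
  obtain ⟨k1, -⟩ := pair_facts h hT hF
  have hpF : ∀ p ∈ F, p.Prime := fun p hp => (g2 p hp).1
  have hm := g2 _ (mn_mem g1)
  refine le_trans (le_of_eq ?_) (H (kk q) s.1 (pr F) (mn F) (pr (T.erase q)) y T0 (nf N s) s.2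
    (T.erase q) a1 (a2.trans (Nat.pow_le_pow_right (by norm_num) g3)) hs.1 hd a3
    (g5.trans ((Nat.pow_le_pow_right (by norm_num) h3).trans a5)) a4
    (card_erase_le.trans (h7.trans a6)) (jv_sqf hpF) hm.1
    ((prime_dvd_pr hpF hm.1).2 (mn_mem g1))
    (fun r hr hd => mn_le ((prime_dvd_pr hpF hr).1 hd)) (jv_cop hs N)
    ((pr_dvd_iff hpT' _).2 a8) (fun r hr hd => ?_) a7 (le_trans ?_ k1))
  · ring
  · exact (hm.2.1.trans_le (h1 r (mem_of_mem_erase ((prime_dvd_pr hpT' hr).1 hd))).2.1).le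
  · refine Nat.mul_le_mul_left _ (Nat.pow_le_pow_left (Nat.mul_le_mul_right _ ?_) 5)
    rw [eT, mul_comm]
    exact Nat.mul_le_mul_right _ (two_pow_kk_le (hpT q hq).ne_zero)

end

end Pool.Agent.Jac
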