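import Pool.Agent.P.MP_45ff98_nt.Par

/-! Prime free balls in polynomial rings over finite fields of odd characteristic. -/

namespace Pool.Agent.P.MP_45ff98_nt
open Polynomial Finset

/-- The sign relating the discriminant to the product of the derivatives at the roots. -/
def sg (n : ℕ) : ℕ := ∑ i : Fin n, (Ioi i).card

theorem disc_sg {E : Type} [CommRing E] {n : ℕ} (β : Fin n → E) :
    ∏ i, ∏ j ∈ univ.erase i, (β i - β j) = (-1) ^ sg n * (Matrix.vandermonde β).det ^ 2 := by
  simp_rw [← compl_singleton]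
  rw [← prod_prod_Ioi_mul_eq_prod_prod_off_diag (fun j i => β i - β j), Matrix.det_vandermonde,
    sg, ← prod_pow_eq_pow_sum, ← prod_pow, ← prod_mul_distrib]
  refine prod_congr rfl fun i _ => ?_
  rw [← prod_const, ← prod_pow, ← prod_mul_distrib]
  exact prod_congr rfl fun j _ => by ring

theorem res_key {E : Type} [Field E] {e w : ℕ} (β : Fin (e + 2 * w) → E) (γ : Fin e → E)
    (D H : E[X]) (c : E) (hD : D.natDegree ≤ e) (hH : H.natDegree ≤ 2 * w)
    (h : ∏ j, (X - C (β j)) = C c * ∏ j, (X - C (γ j)) + D * H) :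
    ∏ j, D.eval (β j) = c ^ e * D.coeff e ^ (2 * w) * ∏ j, D.eval (γ j) := by
  have dG : (∏ j, (X - C (γ j)) : E[X]).natDegree ≤ e := by
    rw [natDegree_finsetProd_X_sub_C_eq_card, card_fin]
  rw [← res_prod β D hD, ← res_prod γ D hD, h, resultant_comm,
    resultant_add_mul_right _ _ _ _ _ (by omega) hD, resultant_C_mul_right,
    resultant_add_right_deg _ _ _ _ _ dG, resultant_comm D, ← mul_assoc, ← mul_assoc, ← mul_assoc,
    show (-1 : E) ^ ((e + 2 * w) * e) = (-1) ^ (e * e) by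
      rw [add_mul, pow_add, mul_assoc, pow_mul (-1 : E) 2]; simp]
  have : ((-1 : E) ^ (e * e)) ^ 2 = 1 := by rw [← pow_mul, mul_comm, pow_mul]; simp
  linear_combination (c ^ e * D.coeff e ^ (2 * w) * resultant (∏ j, (X - C (γ j))) D e e) * this

variable {K : Type} [Field K] [Fintype K]

theorem roots_det {P : K[X]} (hm : P.Monic) (hp : Irreducible P) {n : ℕ} (hn : P.natDegree = n) :
    ∃ b : Fin n → AlgebraicClosure K, P.map (algebraMap K _) = ∏ j, (X - C (b j)) ∧
      (Matrix.vandermonde b).det ≠ 0 ∧ FiniteField.frobeniusAlgHom K _ (Matrix.vandermonde b).det =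
        (-1) ^ (n - 1) * (Matrix.vandermonde b).det := by
  obtain ⟨b, b1, b2, b3⟩ := orbit hp hn
  have hm' := hm.map (algebraMap K (AlgebraicClosure K))
  refine ⟨b, ?_, Matrix.det_vandermonde_ne_zero_iff.2 b1, ?_⟩
  · refine eq_of_monic_of_dvd_of_natDegree_le (monic_prod_X_sub_C _ _) hm' ?_
      (by rw [natDegree_finsetProd_X_sub_C_eq_card, card_fin, natDegree_map, hn])
    have := (Multiset.prod_X_sub_C_dvd_iff_le_roots hm'.ne_zero (univ.val.map b)).2
      ((Multiset.le_iff_subset (univ.nodup.map b1)).2 fun x hx => by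
        obtain ⟨i, -, rfl⟩ := Multiset.mem_map.1 hx
        exact (mem_roots hm'.ne_zero).2 (by rw [IsRoot.def, eval_map_algebraMap, b2]))
    rwa [Multiset.map_map] at this
  · have := Matrix.det_permute (finRotate n) (Matrix.vandermonde b)
    rw [sign_finRotate] at this
    rw [AlgHom.map_det, show (FiniteField.frobeniusAlgHom K _).mapMatrix (Matrix.vandermonde b) =
      (Matrix.vandermonde b).submatrix (finRotate n) id by
        ext i j; exact (map_pow _ (b i) (j : ℕ)).trans (by rw [b3]), this]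
    simp

theorem odd_parity (h2 : ringChar K ≠ 2) {ν : K} (hν : ¬ IsSquare ν) {F G H : K[X]} {e w : ℕ}
    (he : 2 ≤ e) (hw : 0 < w) (hF : F.Monic) (dF : F.natDegree = e + 2 * w) (F0 : F.eval 0 = 0)
    (F1 : X * F.derivative = C ((e + 2 * w : ℕ) : K) * F) (hG : G.Monic) (dG : G.natDegree = e)
    (hu : (e : K) ≠ (e + 2 * w : ℕ)) (hH : F = (X * G.derivative - C ((e + 2 * w : ℕ) : K) * G) * H)
    (iG : Irreducible G) :
    ¬ Irreducible (F + C ((-1) ^ sg (e + 2 * w) * (-1) ^ sg e * ν) * G) := fun iP => by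
  set c : K := (-1) ^ sg (e + 2 * w) * (-1) ^ sg e * ν with hc
  set N : K := ((e + 2 * w : ℕ) : K) with hN
  set D := X * G.derivative - C N * G with hD
  have ν0 : ν ≠ 0 := by rintro rfl; exact hν IsSquare.zero
  have c0 : c ≠ 0 := by simp [hc, ν0]
  have lt : (C c * G).degree < F.degree :=
    degree_lt_degree ((natDegree_C_mul_le _ _).trans_lt (by omega))
  have Dc : D.coeff e = e - N := by
    obtain ⟨d, rfl⟩ : ∃ d, e = d + 1 := ⟨e - 1, by omega⟩
    rw [hD, coeff_sub, coeff_X_mul, coeff_derivative, coeff_C_mul, ← dG, hG.coeff_natDegree, dG]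
    push_cast
    ring
  have Dl : D.natDegree ≤ e := by
    refine (natDegree_sub_le _ _).trans (max_le (natDegree_mul_le.trans ?_)
      ((natDegree_C_mul_le _ _).trans dG.le))
    have := natDegree_derivative_le G
    rw [natDegree_X]
    omega
  have De : D.natDegree = e := le_antisymm Dl (le_natDegree_of_ne_zero (by
    rw [Dc]; exact sub_ne_zero.2 hu))
  have Hl : H.natDegree ≤ 2 * w := by
    have := natDegree_mul (left_ne_zero_of_mul (hH ▸ hF.ne_zero : D * H ≠ 0))
      (right_ne_zero_of_mul (hH ▸ hF.ne_zero : D * H ≠ 0))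
    rw [← hH] at this
    omega
  have G0 : G.eval 0 ≠ 0 := fun h => by
    have := degree_eq_one_of_irreducible_of_root iG h
    rw [natDegree_eq_of_degree_eq_some (n := 1) this] at dG
    omega
  let E := AlgebraicClosure K
  let ι := algebraMap K E
  obtain ⟨β, β1, β2, β3⟩ := roots_det (hF.add_of_left lt) iP
    ((natDegree_add_eq_left_of_degree_lt lt).trans dF)
  obtain ⟨γ, γ1, γ2, γ3⟩ := roots_det hG iG dG
  replace β1 : (F + C c * G).map ι = ∏ j, (X - C (β j)) := β1
  replace γ1 : G.map ι = ∏ j, (X - C (γ j)) := γ1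
  have r := res_key β γ (D.map ι) (H.map ι) (ι c) (natDegree_map_le.trans Dl)
    (natDegree_map_le.trans Hl) (by
      rw [← β1, ← γ1, ← Polynomial.map_mul, ← hH, Polynomial.map_add, Polynomial.map_mul, map_C,
        add_comm])
  have rt : ∀ {n} (b : Fin n → E) (i : Fin n), (∏ j, (X - C (b j))).eval (b i) = 0 := fun b i => by
    rw [eval_prod]
    exact prod_eq_zero (mem_univ i) (by simp)
  have z : ∀ {n} (b : Fin n → E), (∏ j, (X - C (b j))).eval 0 = (-1) ^ n * ∏ j, b j := fun b => by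
    simp [eval_prod, prod_neg]
  have eβ : ∀ i, ι c * (D.map ι).eval (β i) = β i * ∏ j ∈ univ.erase i, (β i - β j) := fun i => by
    have h : C c * D = X * (F + C c * G).derivative - C N * (F + C c * G) := by
      rw [hD, derivative_add, derivative_C_mul, mul_add, F1]; ring
    have := congrArg (fun f => (f.map ι).eval (β i)) h
    simp only [Polynomial.map_mul, Polynomial.map_sub, map_C, map_X, ← derivative_map, β1, eval_mul,
      eval_sub, eval_C, eval_X, rt, eval_der] at this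
    rw [this]
    ring
  have eγ : ∀ i, (D.map ι).eval (γ i) = γ i * ∏ j ∈ univ.erase i, (γ i - γ j) := fun i => by
    simp only [hD, Polynomial.map_mul, Polynomial.map_sub, map_C, map_X, ← derivative_map, γ1,
      eval_mul, eval_sub, eval_C, eval_X, rt, eval_der]
    ring
  have pβ := prod_congr (rfl : (univ : Finset (Fin (e + 2 * w))) = univ) fun i _ => eβ i
  rw [prod_mul_distrib, prod_mul_distrib, prod_const, card_fin, r, disc_sg] at pβ
  simp_rw [eγ] at pβ
  rw [prod_mul_distrib, disc_sg, coeff_map, Dc] at pβ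
  have zβ := z β
  have zγ := z γ
  rw [← β1, ← map_zero ι, eval_map_apply, eval_add, F0, zero_add, eval_mul, eval_C, map_mul, pow_add,
    pow_mul, neg_one_sq, one_pow, mul_one] at zβ
  rw [← γ1, ← map_zero ι, eval_map_apply] at zγ
  have s1 : ∀ k : ℕ, ((-1 : E) ^ k) ^ 2 = 1 := fun k => by rw [← pow_mul, mul_comm, pow_mul]; simp
  have pr : ∏ j, β j = ι c * ∏ j, γ j := by
    have := s1 e
    rw [zγ] at zβ
    linear_combination (-(-1) ^ e) * zβ - (∏ j, β j - ι c * ∏ j, γ j) * this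
  have g0 : ∏ j, γ j ≠ 0 := fun h => G0 (ι.injective (by rw [zγ, h, mul_zero, map_zero]))
  set ρ : E := ι (c ^ (e + w) * (e - N) ^ w) * (Matrix.vandermonde γ).det /
    (Matrix.vandermonde β).det with hρ
  have sq : ρ ^ 2 = ι ν := by
    rw [hρ, div_pow, div_eq_iff (pow_ne_zero 2 β2), map_mul, map_pow, map_pow]
    refine mul_left_cancel₀ g0 ?_
    have hc' : ι c = (-1) ^ sg (e + 2 * w) * (-1) ^ sg e * ι ν := by simp [hc]
    have t1 := s1 (sg e)
    have t2 := s1 (sg (e + 2 * w))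
    rw [pr] at pβ
    linear_combination (-1) ^ sg e * pβ -
      (∏ j, γ j) * (ι c ^ (e + w) * ι (e - N) ^ w * (Matrix.vandermonde γ).det) ^ 2 * t1 +
      (-1) ^ sg e * (∏ j, γ j) * (-1) ^ sg (e + 2 * w) * (Matrix.vandermonde β).det ^ 2 * hc' +
      ι ν * (∏ j, γ j) * (Matrix.vandermonde β).det ^ 2 * (((-1) ^ sg e) ^ 2 * t2 + t1)
  have fr : ρ ^ Fintype.card K = ρ := by
    have : FiniteField.frobeniusAlgHom K E ρ = ρ := by
      rw [hρ, map_div₀, map_mul, AlgHom.commutes, β3, γ3,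
        show e + 2 * w - 1 = e - 1 + 2 * w by omega, pow_add (-1), pow_mul, neg_one_sq, one_pow, mul_one,
        mul_left_comm, mul_div_mul_left _ _ (by simp)]
    simpa using this
  have ρ0 : ρ ≠ 0 := fun h => ν0 (ι.injective (by rw [← sq, h]; simp))
  refine hν ((FiniteField.isSquare_iff h2 ν0).2 (ι.injective ?_))
  rw [map_pow, map_one, ← sq, ← pow_mul]
  refine mul_right_cancel₀ ρ0 ?_
  have := FiniteField.odd_card_of_char_ne_two h2
  rw [← pow_succ, one_mul, show 2 * (Fintype.card K / 2) + 1 = Fintype.card K by omega, fr]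

variable (K) in
/-- The product of all monic polynomials of degree `e` whose lower terms have exponents in `J`. -/
noncomputable def LJ (e : ℕ) (J : Finset ℕ) : K[X] :=
  ∏ φ : J → K, (X ^ e + ∑ j : J, monomial j (φ j))

theorem LJ_deg (e : ℕ) (J : Finset ℕ) (hJ : ∀ j ∈ J, j < e) :
    (LJ K e J).Monic ∧ (LJ K e J).natDegree = e * Fintype.card K ^ J.card := by
  have l : ∀ φ : J → K, (∑ j : J, monomial j (φ j) : K[X]).degree < (X ^ e : K[X]).degree :=
    fun φ => by
      rw [degree_X_pow]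
      exact (degree_sum_le _ _).trans_lt ((Finset.sup_lt_iff (WithBot.bot_lt_coe _)).2 fun j _ =>
        (degree_monomial_le _ _).trans_lt (by exact_mod_cast hJ j j.2))
  have m := fun φ (_ : φ ∈ univ) => (monic_X_pow e).add_of_left (l φ)
  refine ⟨monic_prod_of_monic _ _ m, (natDegree_prod_of_monic _ _ m).trans ?_⟩
  rw [sum_congr rfl fun φ _ => natDegree_add_eq_left_of_degree_lt (l φ)]
  simp [mul_comm]

theorem dvd_LJ {e : ℕ} {J : Finset ℕ} (hJ : ∀ j ∈ J, j < e) {M : K[X]} (h1 : M.coeff e = 1)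
    (h0 : ∀ j, j ≠ e → j ∉ J → M.coeff j = 0) : M ∣ LJ K e J := by
  refine Dvd.dvd.trans (Eq.dvd ?_) (dvd_prod_of_mem _ (mem_univ fun j : J => M.coeff j))
  ext i
  rw [coeff_add, coeff_X_pow, finsetSum_coeff, sum_coe_sort J fun j => (monomial j (M.coeff j)).coeff i]
  simp only [coeff_monomial, sum_ite_eq']
  split_ifs with a b b
  · exact absurd (hJ i b) (by omega)
  · simp [a, h1]
  · simp
  · simp [h0 i a b]

theorem odd_core (p : ℕ) [CharP K p] (hp : p ≠ 2) {n e : ℕ} (he : 2 ≤ e) (h2 : e % 2 = n % 2)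
    (hne : ¬ e ≡ n [MOD p]) (hn : 2 * p * e * Fintype.card K ^ (e - e / p) < n) :
    ∃ f : K[X], f.Monic ∧ f.natDegree = n ∧ ∀ P : K[X], Irreducible P → e ≤ (P - f).natDegree := by
  have pp := CharP.char_is_prime K p
  have p2 := pp.two_le
  have rc : ringChar K ≠ 2 := by rwa [ringChar.eq K p]
  have q1 : 1 ≤ Fintype.card K := Fintype.card_pos
  obtain ⟨ν, hν⟩ := FiniteField.exists_nonsquare rc
  set J := (range e).filter fun j => ¬ j ≡ n [MOD p] with hJ
  have Je : ∀ j ∈ J, j < e := fun j hj => mem_range.1 (mem_filter.1 hj).1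
  have Jc : J.card ≤ e - e / p := by
    have := card_filter_add_card_filter_not (s := range e) fun j => j ≡ n [MOD p]
    rw [← Nat.count_eq_card_filter_range, Nat.count_modEq_card _ pp.pos, card_range, ← hJ] at this
    omega
  obtain ⟨A1, A2⟩ := LJ_deg (K := K) e J Je
  obtain ⟨B1, B2⟩ := LL_deg (K := K) (e / 2)
  set L := LJ K e J * LL K (e / 2) with hL
  have L1 : L.Monic := A1.mul B1
  have ep : e / p ≤ e / 2 := Nat.div_le_div_left p2 two_pos
  have L2 : L.natDegree ≤ 2 * e * Fintype.card K ^ (e - e / p) := by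
    have := sum_le_card_nsmul (Ioc 0 (e / 2)) (fun j => Fintype.card K ^ j)
      (Fintype.card K ^ (e - e / p)) fun j hj =>
        Nat.pow_le_pow_right q1 (by have := (mem_Ioc.1 hj).2; omega)
    rw [Nat.card_Ioc, smul_eq_mul] at this
    rw [A1.natDegree_mul B1, A2, B2, mul_assoc, two_mul]
    exact add_le_add (Nat.mul_le_mul_left _ (Nat.pow_le_pow_right q1 Jc))
      (this.trans (Nat.mul_le_mul_right _ (by omega)))
  obtain ⟨m, hm⟩ : ∃ m, n = m + 1 + p * L.natDegree :=
    ⟨n - 1 - p * L.natDegree, by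
      have := Nat.mul_le_mul_left p L2
      rw [mul_comm 2 p, mul_assoc p, mul_assoc p] at hn
      omega⟩
  obtain ⟨w, hw, w0⟩ : ∃ w, n = e + 2 * w ∧ 0 < w := by
    have : e * 1 ≤ 2 * p * e * Fintype.card K ^ (e - e / p) :=
      Nat.mul_le_mul (Nat.le_mul_of_pos_left _ (by omega)) (Nat.pow_pos q1)
    exact ⟨(n - e) / 2, by omega, by omega⟩
  set F := X ^ (m + 1) * L ^ p with hF
  have F1 : F.Monic := (monic_X_pow _).mul (L1.pow _)
  have F2 : F.natDegree = n := by
    rw [(monic_X_pow _).natDegree_mul (L1.pow _), natDegree_X_pow, L1.natDegree_pow, hm]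
  have F3 : X * F.derivative = C (n : K) * F := by
    rw [hF, hm, derivative_mul, derivative_X_pow, derivative_pow]
    simp
    ring
  have LF : L ∣ F := (dvd_pow_self L pp.ne_zero).mul_left _
  set c : K := (-1) ^ sg n * (-1) ^ sg e * ν with hc
  have c0 : c ≠ 0 := by
    have : ν ≠ 0 := by rintro rfl; exact hν IsSquare.zero
    simp [hc, this]
  have lt : ∀ G : K[X], G.natDegree = e → (C c * G).degree < F.degree := fun G h =>
    degree_lt_degree ((natDegree_C_mul_le _ _).trans_lt (by omega))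
  refine ⟨F + C c * X ^ e, F1.add_of_left (lt _ (natDegree_X_pow _)),
    (natDegree_add_eq_left_of_degree_lt (lt _ (natDegree_X_pow _))).trans F2, fun P hP => ?_⟩
  set g := P - (F + C c * X ^ e) with hg
  by_contra! h
  have l : (C c⁻¹ * g).degree < (X ^ e : K[X]).degree :=
    degree_lt_degree ((natDegree_C_mul_le _ _).trans_lt (by rwa [natDegree_X_pow]))
  set G := X ^ e + C c⁻¹ * g with hG
  have G1 : G.Monic := (monic_X_pow _).add_of_left l
  have G2 : G.natDegree = e := by rw [natDegree_add_eq_left_of_degree_lt l, natDegree_X_pow]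
  have eP : P = F + C c * G := by
    rw [hG, mul_add, ← mul_assoc, ← C_mul, mul_inv_cancel₀ c0, C_1, hg]
    ring
  rw [eP] at hP
  have hu : (e : K) ≠ n := fun h => hne ((CharP.natCast_eq_natCast K p).1 h)
  have co : ∀ j : ℕ, (X * G.derivative - C (n : K) * G).coeff j = ((j : K) - n) * G.coeff j := fun j => by
    rw [coeff_sub, coeff_C_mul, sub_mul]
    congr 1
    cases j with
    | zero => simp
    | succ j => rw [coeff_X_mul, coeff_derivative]; push_cast; ring
  obtain ⟨H, hH⟩ : X * G.derivative - C (n : K) * G ∣ F := by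
    refine Dvd.dvd.trans ?_ ((dvd_mul_right _ _).trans LF)
    rw [← C_mul_dvd (inv_ne_zero (sub_ne_zero.2 hu))]
    refine dvd_LJ Je ?_ fun j h1 h2 => ?_
    · rw [coeff_C_mul, co, ← G2, G1.coeff_natDegree, G2, mul_one, inv_mul_cancel₀ (sub_ne_zero.2 hu)]
    · rw [coeff_C_mul, co]
      obtain h | h := h1.lt_or_gt
      · rw [(CharP.natCast_eq_natCast K p (a := j) (b := n)).2 (by simpa [hJ, h] using h2), sub_self,
          zero_mul, mul_zero]
      · rw [coeff_eq_zero_of_natDegree_lt (by omega), mul_zero, mul_zero]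
  have F0 : F.eval 0 = 0 := by simp [hF]
  subst hw
  refine odd_parity rc hν he w0 F1 F2 F0 F3 G1 G2 hu hH ?_ hP
  refine (G1.irreducible_iff_lt_natDegree_lt (by rintro h; simp [h] at G2; omega)).2
    fun u mu du hu => ?_
  rw [G2, mem_Ioc] at du
  have := natDegree_le_of_dvd ((hP.dvd_iff.1 (dvd_add (((dvd_LL _ u mu.ne_zero du.2).mul_left _).trans LF)
    (hu.mul_left _))).resolve_left (not_isUnit_of_natDegree_pos u du.1)).dvd mu.ne_zero
  rw [natDegree_add_eq_left_of_degree_lt (lt _ G2), F2] at this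
  omega

theorem odd_all (p : ℕ) [CharP K p] (hp : p ≠ 2) {n : ℕ} (hn : 2 ≤ n) :
    ∃ f : K[X], f.Monic ∧ f.natDegree = n ∧ ∃ E : ℕ, 2 ^ (E / 2) ≤ n ∧
      n ≤ 2 * p * (E + 1) * Fintype.card K ^ (E + 1 - (E + 1) / p) ∧
      ∀ P : K[X], Irreducible P → E ≤ (P - f).natDegree + 4 := by
  have pp := CharP.char_is_prime K p
  have p2 := pp.two_le
  have q1 : 1 < Fintype.card K := Fintype.one_lt_card
  have ex : ∃ E, n ≤ 2 * p * E * Fintype.card K ^ (E - E / p) :=
    ⟨n, (Nat.le_mul_of_pos_left n (by omega : 0 < 2 * p)).trans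
      (Nat.le_mul_of_pos_right _ (Nat.pow_pos q1.le))⟩
  obtain ⟨E, hE⟩ : ∃ E, Nat.find ex = E + 1 := Nat.exists_eq_succ_of_ne_zero fun h => by
    have := Nat.find_spec ex
    simp [h] at this
    omega
  have h1 := hE ▸ Nat.find_spec ex
  have h2 : ∀ e ≤ E, 2 * p * e * Fintype.card K ^ (e - e / p) < n := fun e he =>
    not_le.1 (Nat.find_min ex (by omega))
  have h3 : 2 ^ (E / 2) ≤ n := by
    obtain rfl | h := E.eq_zero_or_pos
    · omega
    have : E / p ≤ E / 2 := Nat.div_le_div_left p2 two_pos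
    exact (Nat.pow_le_pow_left q1 _).trans ((Nat.pow_le_pow_right q1.le (by omega)).trans
      ((Nat.le_mul_of_pos_left _ (by positivity)).trans (h2 E le_rfl).le))
  obtain h | h := le_or_gt E 4
  · exact ⟨X ^ n, monic_X_pow n, natDegree_X_pow n, E, h3, h1, fun P _ => by omega⟩
  obtain ⟨e, e1, e2, e3, e4⟩ : ∃ e, e ≤ E ∧ E ≤ e + 3 ∧ e % 2 = n % 2 ∧ ¬ e ≡ n [MOD p] := by
    obtain ⟨e, e1, e2, e3⟩ : ∃ e, e + 2 ≤ E ∧ E ≤ e + 3 ∧ e % 2 = n % 2 := by
      by_cases h : E % 2 = n % 2
      · exact ⟨E - 2, by omega, by omega, by omega⟩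
      · exact ⟨E - 3, by omega, by omega, by omega⟩
    by_cases h : e ≡ n [MOD p]
    · refine ⟨e + 2, e1, by omega, by omega, fun h' => hp ?_⟩
      have := (Nat.modEq_iff_dvd' (by omega)).1 (h.trans h'.symm)
      rw [Nat.add_sub_cancel_left] at this
      exact (Nat.prime_dvd_prime_iff_eq pp Nat.prime_two).1 this
    · exact ⟨e, by omega, e2, e3, h⟩
  obtain ⟨f, f1, f2, f3⟩ := odd_core p hp (by omega) e3 e4 (h2 e e1)
  exact ⟨f, f1, f2, E, h3, h1, fun P hP => by have := f3 P hP; omega⟩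

theorem odd_gap (p : ℕ) [CharP K p] (hp : p ≠ 2) :
    ∃ c : ℝ, 0 < c ∧ ∀ n : ℕ, 2 ≤ n → ∃ f : K[X], f.Monic ∧ f.natDegree = n ∧
      ∀ P : K[X], Irreducible P → c * ((n : ℝ) / Real.log n) ^ ((p : ℝ) / (p - 1)) ≤
        (Fintype.card K : ℝ) ^ (P - f).natDegree := by
  have p2 : (2 : ℝ) ≤ p := by exact_mod_cast (CharP.char_is_prime K p).two_le
  have q1 : (1 : ℝ) ≤ Fintype.card K := by exact_mod_cast Fintype.card_pos
  set q : ℝ := (Fintype.card K : ℝ) with hq
  set A : ℝ := 12 * p * q ^ 6 with hA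
  have A0 : 0 < A := by positivity
  have s0 : 0 < (p : ℝ) / (p - 1) := div_pos (by linarith) (by linarith)
  refine ⟨(A ^ ((p : ℝ) / (p - 1)))⁻¹, by positivity, fun n hn => ?_⟩
  obtain ⟨f, f1, f2, E, h1, h2, h3⟩ := odd_all (K := K) p hp hn
  refine ⟨f, f1, f2, fun P hP => ?_⟩
  have h3 := h3 P hP
  set d := (P - f).natDegree
  have n2 : (2 : ℝ) ≤ n := by exact_mod_cast hn
  have l2 := Real.log_two_gt_d9
  have ln : Real.log 2 ≤ Real.log n := Real.log_le_log two_pos n2
  have hE : (E + 1 : ℝ) ≤ 6 * Real.log n := by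
    have a : ((E / 2 : ℕ) : ℝ) * Real.log 2 ≤ Real.log n := by
      rw [← Real.log_pow]
      exact Real.log_le_log (by positivity) (by exact_mod_cast h1)
    have b : (E : ℝ) ≤ 2 * (E / 2 : ℕ) + 1 := by exact_mod_cast (by omega : E ≤ 2 * (E / 2) + 1)
    have c : (0 : ℝ) ≤ (E / 2 : ℕ) := by positivity
    nlinarith
  have hx : ((E + 1 - (E + 1) / p : ℕ) : ℝ) ≤ 6 + d * ((p - 1) / p) := by
    have p0 : 0 < p := by exact_mod_cast (by linarith : (0 : ℝ) < p)
    have a : (E + 1 : ℝ) ≤ p * ((E + 1) / p : ℕ) + p := by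
      have := Nat.div_add_mod (E + 1) p
      have := Nat.mod_lt (E + 1) p0
      exact_mod_cast (by omega : E + 1 ≤ p * ((E + 1) / p) + p)
    have b : (E : ℝ) ≤ d + 4 := by exact_mod_cast h3
    rw [Nat.cast_sub (Nat.div_le_self _ _), ← mul_div_assoc, add_div' _ _ _ (by linarith),
      le_div_iff₀ (by linarith)]
    push_cast
    nlinarith
  have key : (n : ℝ) / Real.log n ≤ A * q ^ ((d : ℝ) * ((p - 1) / p)) := by
    rw [div_le_iff₀ (by linarith)]
    calc (n : ℝ) ≤ 2 * p * (E + 1) * q ^ (E + 1 - (E + 1) / p) := by rw [hq]; exact_mod_cast h2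
      _ ≤ 2 * p * (6 * Real.log n) * q ^ ((6 : ℝ) + d * ((p - 1) / p)) := by
        rw [← Real.rpow_natCast]
        gcongr
      _ = _ := by
        rw [Real.rpow_add (by linarith), hA, Real.rpow_ofNat]
        ring
  rw [inv_mul_le_iff₀ (by positivity)]
  refine (Real.rpow_le_rpow (div_nonneg (by linarith) (by linarith)) key s0.le).trans_eq ?_
  rw [Real.mul_rpow A0.le (by positivity), ← Real.rpow_mul (by linarith), mul_assoc (d : ℝ),
    show ((p : ℝ) - 1) / p * (p / (p - 1)) = 1 by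
      have : (p : ℝ) - 1 ≠ 0 := by linarith
      field_simp, mul_one, Real.rpow_natCast]

end Pool.Agent.P.MP_45ff98_nt
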