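import Mathlib

/-! Random sieve: the average over residue classes and its bounds. -/

namespace Pool.Agent.RSv
open Finset MeasureTheory

/-- Probability that uniformly random classes modulo the members of the list cover `S`. -/
noncomputable def av : List ℕ → Finset ℕ → ℝ
  | [], S => if S = ∅ then 1 else 0
  | p :: L, S => (∑ t ∈ range p, av L (S.filter fun n => n % p ≠ t)) / p

theorem av_nonneg : ∀ (L : List ℕ) (S : Finset ℕ), 0 ≤ av L S
  | [], S => by unfold av; split_ifs <;> norm_num
  | p :: L, S => by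
    unfold av
    exact div_nonneg (sum_nonneg fun t _ => av_nonneg L _) (Nat.cast_nonneg p)

theorem meas_le {Ω : Type} [MeasurableSpace Ω] (μ : Measure Ω) [IsProbabilityMeasure μ]
    (a : ℕ → Ω → ℕ)
    (hc : ∀ (U : Finset ℕ) (r : ℕ → ℕ), (∀ q ∈ U, q.Prime ∧ r q < q) →
      μ.real {ω | ∀ q ∈ U, a q ω = r q} = ∏ q ∈ U, 1 / (q : ℝ))
    (hn : ∀ p : ℕ, p.Prime → μ.real {ω | p ≤ a p ω} = 0) :
    ∀ (L : List ℕ), L.Nodup → (∀ p ∈ L, p.Prime) → ∀ (U : Finset ℕ) (r : ℕ → ℕ) (S : Finset ℕ),
      (∀ q ∈ U, q.Prime ∧ r q < q) → (∀ p ∈ L, p ∉ U) →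
      μ.real ({ω | ∀ q ∈ U, a q ω = r q} ∩ {ω | ∀ n ∈ S, ∃ p ∈ L, n % p = a p ω}) ≤
        (∏ q ∈ U, 1 / (q : ℝ)) * av L S := by
  intro L
  induction L with
  | nil =>
    intro _ _ U r S hU _
    unfold av
    split_ifs with h
    · rw [mul_one, ← hc U r hU]
      exact measureReal_mono Set.inter_subset_left
    · have : ({ω | ∀ q ∈ U, a q ω = r q} ∩ {ω | ∀ n ∈ S, ∃ p ∈ ([] : List ℕ), n % p = a p ω})
          = ∅ := by
        obtain ⟨n, hn⟩ := nonempty_iff_ne_empty.2 h
        ext ω
        simp only [Set.mem_inter_iff, Set.mem_ofPred_eq, Set.mem_empty_iff_false, iff_false,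
          not_and]
        intro _ h2
        obtain ⟨p, hp, _⟩ := h2 n hn
        simp at hp
      rw [this]; simp
  | cons p L ih =>
    intro hnd hpr U r S hU hd
    have hp : p.Prime := hpr p (by simp)
    have hpU : p ∉ U := hd p (by simp)
    have hpL : p ∉ L := (List.nodup_cons.1 hnd).1
    have hsub : ({ω | ∀ q ∈ U, a q ω = r q} ∩ {ω | ∀ n ∈ S, ∃ q ∈ p :: L, n % q = a q ω}) ⊆
        {ω | p ≤ a p ω} ∪ ⋃ t ∈ range p,
          ({ω | ∀ q ∈ insert p U, a q ω = Function.update r p t q} ∩
            {ω | ∀ n ∈ S.filter (fun n => n % p ≠ t), ∃ q ∈ L, n % q = a q ω}) := by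
      rintro ω ⟨h1, h2⟩
      by_cases h : p ≤ a p ω
      · exact Or.inl h
      · right
        simp only [Set.mem_iUnion]
        refine ⟨a p ω, mem_range.2 (not_le.1 h), ?_, ?_⟩
        · intro q hq
          rcases mem_insert.1 hq with rfl | hq
          · simp
          · rw [Function.update_of_ne (fun e : q = p => hpU (e ▸ hq))]
            exact h1 q hq
        · intro n hn
          obtain ⟨hn1, hn2⟩ := mem_filter.1 hn
          obtain ⟨q, hq, e⟩ := h2 n hn1
          rcases List.mem_cons.1 hq with rfl | hq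
          · exact absurd e hn2
          · exact ⟨q, hq, e⟩
    refine (measureReal_mono hsub).trans ((measureReal_union_le _ _).trans ?_)
    rw [hn p hp, zero_add]
    refine (measureReal_biUnion_finset_le _ _).trans ?_
    unfold av
    rw [← mul_div_assoc, mul_sum, sum_div]
    refine sum_le_sum fun t ht => ?_
    refine (ih (List.nodup_cons.1 hnd).2 (fun q hq => hpr q (by simp [hq])) (insert p U)
      (Function.update r p t) _ ?_ ?_).trans (le_of_eq ?_)
    · intro q hq
      rcases mem_insert.1 hq with rfl | hq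
      · exact ⟨hp, by simpa using mem_range.1 ht⟩
      · rw [Function.update_of_ne (fun e : q = p => hpU (e ▸ hq))]
        exact hU q hq
    · intro q hq hq2
      rcases mem_insert.1 hq2 with rfl | hq2
      · exact hpL hq
      · exact hd q (by simp [hq]) hq2
    · rw [prod_insert hpU]; ring

theorem step {p : ℕ} (hp : 0 < p) (L : List ℕ) (S : Finset ℕ) {l k : ℝ} (hl : 0 ≤ l) (hk : 0 ≤ k)
    (h1 : ∀ T ⊆ S, av L T ≤ l ^ T.card) (b : ℕ)
    (hb : ∀ t, (S.filter fun n => n % p = t).card ≤ b)
    (h2 : ∀ X : ℕ, X ≤ b → X ≤ S.card →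
      l ^ (S.card - X) ≤ l ^ S.card + X * (k * l ^ (S.card - 1))) :
    av (p :: L) S ≤ (l + k / p) ^ S.card := by
  have hp' : (0 : ℝ) < p := by exact_mod_cast hp
  have hsum : ∑ t ∈ range p, ((S.filter fun n => n % p = t).card : ℝ) = S.card := by
    have := card_eq_sum_card_fiberwise (f := fun n => n % p) (s := S) (t := range p)
      (fun n _ => mem_coe.2 (mem_range.2 (Nat.mod_lt n hp)))
    rw [this]; push_cast; rfl
  have h3 : ∑ t ∈ range p, av L (S.filter fun n => n % p ≠ t) ≤
      ∑ t ∈ range p, (l ^ S.card +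
        ((S.filter fun n => n % p = t).card : ℝ) * (k * l ^ (S.card - 1))) := by
    refine sum_le_sum fun t _ => (h1 _ (filter_subset _ _)).trans ?_
    have e := card_filter_add_card_filter_not (s := S) (fun n => n % p = t)
    have e2 : (S.filter fun n => n % p ≠ t).card =
        S.card - (S.filter fun n => n % p = t).card := by
      have : (S.filter fun n => n % p ≠ t).card = (S.filter fun n => ¬ n % p = t).card := rfl
      omega
    rw [e2]
    exact h2 _ (hb t) (card_filter_le _ _)
  rw [sum_add_distrib, ← sum_mul, hsum, sum_const, card_range, nsmul_eq_mul] at h3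
  have h4 := pow_add_mul_le_add_pow hl (b := k / p) (by positivity) S.card
  refine le_trans ?_ h4
  unfold av
  rw [div_le_iff₀ hp']
  refine h3.trans (le_of_eq ?_)
  field_simp

theorem prod_mem (f : ℕ → ℝ) : ∀ L : List ℕ, (∀ p ∈ L, 0 ≤ f p ∧ f p ≤ 1) →
    0 ≤ (L.map f).prod ∧ (L.map f).prod ≤ 1
  | [], _ => by simp
  | p :: L, h => by
    obtain ⟨h0, h1⟩ := prod_mem f L fun q hq => h q (by simp [hq])
    obtain ⟨h2, h3⟩ := h p (by simp)
    simp only [List.map_cons, List.prod_cons]
    exact ⟨by positivity, by nlinarith⟩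

theorem av_big (S0 : Finset ℕ) : ∀ L : List ℕ,
    (∀ p ∈ L, 0 < p ∧ ∀ t, (S0.filter fun n => n % p = t).card ≤ 1) →
    ∀ S ⊆ S0, av L S ≤ (1 - (L.map fun p : ℕ => 1 - 1 / (p : ℝ)).prod) ^ S.card
  | [], _, S, _ => by
    unfold av
    split_ifs with h
    · simp [h]
    · have := (nonempty_iff_ne_empty.2 h).card_pos
      simp [this.ne']
  | p :: L, h, S, hS => by
    have hL : ∀ q ∈ L, 0 < q ∧ ∀ t, (S0.filter fun n => n % q = t).card ≤ 1 :=
      fun q hq => h q (by simp [hq])
    obtain ⟨h0, h1⟩ := prod_mem (fun p : ℕ => 1 - 1 / (p : ℝ)) L fun q hq => by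
      have : (1 : ℝ) ≤ q := by exact_mod_cast (hL q hq).1
      have h2 : 1 / (q : ℝ) ≤ 1 := by rw [div_le_one (by linarith)]; exact this
      have h3 : 0 ≤ 1 / (q : ℝ) := by positivity
      constructor <;> linarith
    obtain ⟨hp, hb⟩ := h p (by simp)
    set v := (L.map fun p : ℕ => 1 - 1 / (p : ℝ)).prod with hv
    have := step hp L S (l := 1 - v) (k := v) (by linarith) h0
      (fun T hT => av_big S0 L hL T (hT.trans hS)) 1
      (fun t => (card_le_card (filter_subset_filter _ hS)).trans (hb t)) (by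
        intro X hX hX2
        interval_cases X
        · simp
        · obtain ⟨m, hm⟩ : ∃ m, S.card = m + 1 := ⟨S.card - 1, by omega⟩
          rw [hm, Nat.add_sub_cancel, pow_succ]
          apply le_of_eq; push_cast; ring)
    refine this.trans (le_of_eq ?_)
    simp only [List.map_cons, List.prod_cons, ← hv]
    congr 1; ring

theorem av_mid (S0 : Finset ℕ) (L2 : List ℕ) {v : ℝ} (hv0 : 0 ≤ v) (hv1 : v ≤ 1) (b : ℕ)
    (hvb : v * b ≤ 1 / 2) (h2 : ∀ S ⊆ S0, av L2 S ≤ (1 - v) ^ S.card) : ∀ L : List ℕ,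
    (∀ p ∈ L, 2 ≤ p ∧ ∀ t, (S0.filter fun n => n % p = t).card ≤ b) →
    ∀ S ⊆ S0, av (L ++ L2) S ≤ (1 - v * (L.map fun p : ℕ => 1 - 2 / (p : ℝ)).prod) ^ S.card
  | [], _, S, hS => by simpa using h2 S hS
  | p :: L, h, S, hS => by
    have hL : ∀ q ∈ L, 2 ≤ q ∧ ∀ t, (S0.filter fun n => n % q = t).card ≤ b :=
      fun q hq => h q (by simp [hq])
    obtain ⟨h0, h1⟩ := prod_mem (fun p : ℕ => 1 - 2 / (p : ℝ)) L fun q hq => by
      have : (2 : ℝ) ≤ q := by exact_mod_cast (hL q hq).1
      have h2 : 2 / (q : ℝ) ≤ 1 := by rw [div_le_one (by linarith)]; exact this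
      have h3 : 0 ≤ 2 / (q : ℝ) := by positivity
      constructor <;> linarith
    obtain ⟨hp, hb⟩ := h p (by simp)
    set c := (L.map fun p : ℕ => 1 - 2 / (p : ℝ)).prod with hc
    have hu0 : 0 ≤ v * c := by positivity
    have hu1 : v * c ≤ v := by nlinarith
    have hl : 0 ≤ 1 - v * c := by linarith
    have := step (by omega : 0 < p) (L ++ L2) S (l := 1 - v * c) (k := 2 * (v * c)) hl
      (by positivity) (fun T hT => av_mid S0 L2 hv0 hv1 b hvb h2 L hL T (hT.trans hS)) b
      (fun t => (card_le_card (filter_subset_filter _ hS)).trans (hb t)) (by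
        intro X hX hX2
        set u := v * c with hu
        have hX' : (X : ℝ) ≤ b := by exact_mod_cast hX
        have hX0 : (0 : ℝ) ≤ X := Nat.cast_nonneg X
        have hb0 : (0 : ℝ) ≤ b := Nat.cast_nonneg b
        have hux : u * X ≤ 1 / 2 := by nlinarith
        have hB := one_add_mul_le_pow (a := -u) (by linarith) X
        have e : (1 - u) ^ S.card = (1 - u) ^ (S.card - X) * (1 - u) ^ X := by
          rw [← pow_add]; congr 1; omega
        have hp0 : 0 ≤ (1 - u) ^ (S.card - X) := pow_nonneg hl _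
        have h5 : (1 - u) ^ S.card ≤ (1 - u) ^ (S.card - 1) :=
          pow_le_pow_of_le_one hl (by linarith) (by omega)
        have h6 : 1 ≤ (1 - u) ^ X * (1 + 2 * u * X) := by
          have h7 : 1 - u * X ≤ (1 - u) ^ X := by
            have : (1 + -u) = 1 - u := by ring
            rw [this] at hB; linarith
          have h8 : 0 ≤ u * X := by positivity
          nlinarith
        have h9 : (1 - u) ^ (S.card - X) ≤ (1 - u) ^ S.card * (1 + 2 * u * X) := by
          rw [e, mul_assoc]; nlinarith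
        have h10 : 0 ≤ 2 * u * X := by positivity
        nlinarith)
    refine this.trans (le_of_eq ?_)
    simp only [List.map_cons, List.prod_cons, ← hc]
    congr 1; ring

theorem av_small (L : List ℕ) (c : ℝ) : ∀ L0 : List ℕ, L0.Nodup → (∀ q ∈ L0, 0 < q) →
    ∀ S : Finset ℕ, (∀ r : ℕ → ℕ, av L (S.filter fun n => ∀ q ∈ L0, n % q ≠ r q) ≤ c) →
    av (L0 ++ L) S ≤ c
  | [], _, _, S, h => by simpa using h fun _ => 0
  | p :: L0, hnd, hq, S, h => by
    have hp : (0 : ℝ) < p := by exact_mod_cast hq p (by simp)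
    have hpL : p ∉ L0 := (List.nodup_cons.1 hnd).1
    rw [List.cons_append]
    unfold av
    rw [div_le_iff₀ hp]
    refine (sum_le_card_nsmul _ _ c fun t _ => ?_).trans (by simp [mul_comm])
    refine av_small L c L0 (List.nodup_cons.1 hnd).2 (fun q h => hq q (by simp [h])) _ fun r => ?_
    have e : ((S.filter fun n => n % p ≠ t).filter fun n => ∀ q ∈ L0, n % q ≠ r q) =
        S.filter fun n => ∀ q ∈ p :: L0, n % q ≠ Function.update r p t q := by
      ext n
      simp only [mem_filter, List.forall_mem_cons, Function.update_self, and_assoc]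
      refine and_congr_right fun _ => and_congr_right fun _ => forall₂_congr fun q hq => ?_
      rw [Function.update_of_ne (fun e : q = p => hpL (e ▸ hq))]
    rw [e]
    exact h _

end Pool.Agent.RSv
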