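import Pool.Agent.P.MP_45ff98_nt.RM1
import Pool.Agent.Lib.Sieve.Mertens

/-! Random sieve: the probability that one interval is covered. -/

namespace Pool.Agent.RSv
open Finset MeasureTheory Real

/-- The Mertens product. -/
noncomputable def Th (N : ℕ) : ℝ := ∏ q ∈ Nat.primesLE N, (1 - 1 / (q : ℝ))

theorem fac_mem {q : ℕ} (hq : q.Prime) : 0 < 1 - 1 / (q : ℝ) ∧ 1 - 1 / (q : ℝ) ≤ 1 := by
  have h : (2 : ℝ) ≤ q := by exact_mod_cast hq.two_le
  have h2 : 1 / (q : ℝ) ≤ 1 / 2 := one_div_le_one_div_of_le (by norm_num) h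
  have h3 : 0 ≤ 1 / (q : ℝ) := by positivity
  constructor <;> linarith

theorem th_pos (N : ℕ) : 0 < Th N :=
  prod_pos fun _ hq => (fac_mem (Nat.prime_of_mem_primesLE hq)).1

theorem th_log (N : ℕ) : Th N * log ((N : ℝ) + 1) ≤ 1 := by
  have h := Pool.Agent.Lib.Sieve.sum_le_prod_inv (fun n : ℕ => 1 / (n : ℝ))
    (fun n => by positivity) (by simp) (fun a b => by
      push_cast; rw [one_div_mul_one_div]) (Nat.primesLE N)
    (fun q hq => by linarith [(fac_mem (Nat.prime_of_mem_primesLE hq)).1]) (Icc 1 N)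
    (fun v hv => Pool.Agent.Lib.Sieve.mem_closure_of_primes (by have := (mem_Icc.1 hv).1; omega)
      fun p hp hd => mem_coe.2 (Nat.mem_primesLE.2
        ⟨(Nat.le_of_dvd (mem_Icc.1 hv).1 hd).trans (mem_Icc.1 hv).2, hp⟩))
  have h2 := log_add_one_le_harmonic N
  rw [harmonic_eq_sum_Icc] at h2
  push_cast at h2
  rw [prod_inv_distrib] at h
  have h3 : log ((N : ℝ) + 1) ≤ (Th N)⁻¹ := by
    refine h2.trans (le_trans (le_of_eq ?_) h)
    simp
  have h4 := th_pos N
  calc Th N * log ((N : ℝ) + 1) ≤ Th N * (Th N)⁻¹ := by gcongr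
    _ = 1 := mul_inv_cancel₀ h4.ne'

theorem class_card (S0 : Finset ℕ) {m Y p : ℕ}
    (hS : ∀ n ∈ S0, m < n ∧ n ≤ m + Y) (t : ℕ) :
    (S0.filter fun n => n % p = t).card ≤ Y / p + 1 := by
  rw [← card_range (Y / p + 1)]
  refine card_le_card_of_injOn (fun n => (n - m) / p) (fun n hn => ?_) fun n hn n' hn' e => ?_
  · have := hS n (mem_filter.1 (mem_coe.1 hn)).1
    exact mem_coe.2 (mem_range.2 (Nat.lt_succ_of_le (Nat.div_le_div_right (by omega))))
  · obtain ⟨h1, h2⟩ := mem_filter.1 (mem_coe.1 hn)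
    obtain ⟨h3, h4⟩ := mem_filter.1 (mem_coe.1 hn')
    have h5 := hS n h1
    have h6 := hS n' h3
    have h7 : m + (n - m) ≡ m + (n' - m) [MOD p] := by
      rw [Nat.add_sub_cancel' h5.1.le, Nat.add_sub_cancel' h6.1.le]
      exact h2.trans h4.symm
    have h8 : (n - m) % p = (n' - m) % p := Nat.ModEq.add_left_cancel' m h7
    have h9 := Nat.div_add_mod (n - m) p
    have h10 := Nat.div_add_mod (n' - m) p
    simp only at e
    rw [e, h8] at h9
    omega

theorem mid_prod {Y Z : ℕ} (h3 : 3 ≤ Z) (hZY : Z ≤ Y) (hlog : log Y ≤ 2 * log ((Z : ℝ) + 1)) :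
    exp (-12) ≤ ∏ p ∈ Nat.primesLE Y \ Nat.primesLE Z, (1 - 2 / (p : ℝ)) := by
  have hZ : (4 : ℝ) ≤ (Z : ℝ) + 1 := by
    have : (3 : ℝ) ≤ Z := by exact_mod_cast h3
    linarith
  have hl4 : log 4 ≤ log ((Z : ℝ) + 1) := log_le_log (by norm_num) hZ
  have hl0 : 0 < log ((Z : ℝ) + 1) := log_pos (by linarith)
  have hm : ∀ p ∈ Nat.primesLE Y \ Nat.primesLE Z, (Z : ℝ) + 1 ≤ p := by
    intro p hp
    obtain ⟨h1, h2⟩ := mem_sdiff.1 hp
    have : Z + 1 ≤ p := by
      by_contra h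
      exact h2 (Nat.mem_primesLE.2 ⟨by omega, Nat.prime_of_mem_primesLE h1⟩)
    exact_mod_cast this
  have h1 : (∑ p ∈ Nat.primesLE Y \ Nat.primesLE Z, 1 / (p : ℝ)) * log ((Z : ℝ) + 1) ≤
      3 * log ((Z : ℝ) + 1) := by
    have h := Pool.Agent.Lib.Sieve.sum_log_div_le (N := Y) (by omega)
    have h2 : ∑ p ∈ Nat.primesLE Y \ Nat.primesLE Z, log p / (p : ℝ) ≤
        ∑ p ∈ Nat.primesLE Y, log p / (p : ℝ) :=
      sum_le_sum_of_subset_of_nonneg sdiff_subset fun p _ _ =>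
        div_nonneg (log_natCast_nonneg p) (Nat.cast_nonneg p)
    have h4 : (∑ p ∈ Nat.primesLE Y \ Nat.primesLE Z, 1 / (p : ℝ)) * log ((Z : ℝ) + 1) ≤
        ∑ p ∈ Nat.primesLE Y \ Nat.primesLE Z, log p / (p : ℝ) := by
      rw [sum_mul]
      refine sum_le_sum fun p hp => ?_
      have h5 := log_le_log (by linarith) (hm p hp)
      rw [one_div_mul_eq_div]
      exact div_le_div_of_nonneg_right h5 (Nat.cast_nonneg p)
    linarith
  have h2 := le_of_mul_le_mul_right h1 hl0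
  calc exp (-12) ≤ exp (∑ p ∈ Nat.primesLE Y \ Nat.primesLE Z, -(4 * (1 / (p : ℝ)))) := by
        rw [sum_neg_distrib, ← mul_sum]
        exact exp_le_exp.2 (by linarith)
    _ ≤ _ := by
        rw [exp_sum]
        refine prod_le_prod (fun p _ => (exp_pos _).le) fun p hp => ?_
        have h4 : (4 : ℝ) ≤ p := hZ.trans (hm p hp)
        have h5 : 1 / (p : ℝ) ≤ 1 / 4 := one_div_le_one_div_of_le (by norm_num) h4
        have h6 : 0 ≤ 1 / (p : ℝ) := by positivity
        have h7 : 2 / (p : ℝ) = 2 * (1 / (p : ℝ)) := by ring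
        have h8 := add_one_le_exp (4 * (1 / (p : ℝ)))
        rw [h7, exp_neg, inv_le_iff_one_le_mul₀ (exp_pos _)]
        nlinarith

theorem big_prod {Y K : ℕ} (hY : Y + 1 ≤ K) (hK : 2 ≤ K) :
    log ((Y : ℝ) + 1) / log K ≤
      ∏ p ∈ (Nat.primesLE K).filter (fun p => Y < p ∧ 1 / log K ≤ Th p), (1 - 1 / (p : ℝ)) := by
  have hK' : (1 : ℝ) < K := by exact_mod_cast hK
  have hl : 0 < log K := log_pos hK'
  have hY0 : (0 : ℝ) < (Y : ℝ) + 1 := by positivity
  have hlY : 0 ≤ log ((Y : ℝ) + 1) := log_nonneg (by linarith [Nat.cast_nonneg (α := ℝ) Y])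
  set F := (Nat.primesLE K).filter (fun p => Y < p ∧ 1 / log K ≤ Th p) with hF
  rcases F.eq_empty_or_nonempty with h | h
  · rw [h, prod_empty, div_le_one hl]
    exact log_le_log hY0 (by exact_mod_cast hY)
  · have hm := mem_filter.1 (F.max'_mem h)
    have hd : Disjoint (Nat.primesLE Y) F := disjoint_left.2 fun p h1 h2 => by
      have := (mem_filter.1 h2).2.1
      have := Nat.le_of_mem_primesLE h1
      omega
    have hsub : Nat.primesLE Y ∪ F ⊆ Nat.primesLE (F.max' h) := by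
      intro p hp
      rcases mem_union.1 hp with h1 | h1
      · have := Nat.le_of_mem_primesLE h1
        exact Nat.mem_primesLE.2 ⟨by omega, Nat.prime_of_mem_primesLE h1⟩
      · exact Nat.mem_primesLE.2 ⟨F.le_max' p h1, Nat.prime_of_mem_primesLE (mem_filter.1 h1).1⟩
    have h1 : Th (F.max' h) ≤ Th Y * ∏ p ∈ F, (1 - 1 / (p : ℝ)) := by
      unfold Th
      rw [← prod_union hd]
      exact prod_le_prod_of_subset_of_le_one hsub
        (fun p hp => (fac_mem (Nat.prime_of_mem_primesLE hp)).1.le)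
        fun p hp _ => (fac_mem (Nat.prime_of_mem_primesLE hp)).2
    have h2 : 0 ≤ ∏ p ∈ F, (1 - 1 / (p : ℝ)) :=
      prod_nonneg fun p hp => (fac_mem (Nat.prime_of_mem_primesLE (mem_filter.1 hp).1)).1.le
    have h3 := th_log Y
    calc log ((Y : ℝ) + 1) / log K = 1 / log K * log ((Y : ℝ) + 1) := by ring
      _ ≤ (Th Y * ∏ p ∈ F, (1 - 1 / (p : ℝ))) * log ((Y : ℝ) + 1) :=
          mul_le_mul_of_nonneg_right (hm.2.2.trans h1) hlY
      _ = (Th Y * log ((Y : ℝ) + 1)) * ∏ p ∈ F, (1 - 1 / (p : ℝ)) := by ring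
      _ ≤ _ := by nlinarith

theorem fixed {Ω : Type} [MeasurableSpace Ω] (μ : Measure Ω) [IsProbabilityMeasure μ]
    (a : ℕ → Ω → ℕ)
    (hc : ∀ (U : Finset ℕ) (r : ℕ → ℕ), (∀ q ∈ U, q.Prime ∧ r q < q) →
      μ.real {ω | ∀ q ∈ U, a q ω = r q} = ∏ q ∈ U, 1 / (q : ℝ))
    (hn : ∀ p : ℕ, p.Prime → μ.real {ω | p ≤ a p ω} = 0)
    {m Y Z : ℕ} (S0 : Finset ℕ) (hS : ∀ n ∈ S0, m < n ∧ n ≤ m + Y) {W : ℝ}
    (hW : ∀ r : ℕ → ℕ, W ≤ (S0.filter fun n => ∀ q ∈ Nat.primesLE Z, n % q ≠ r q).card)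
    (h3 : 3 ≤ Z) (hZY : Z ≤ Y) (hlog : log Y ≤ 2 * log ((Z : ℝ) + 1)) (hYm : Y < m)
    (hvb : log ((Y : ℝ) + 1) / log (2 * m : ℕ) * (Y / (Z + 1) + 1 : ℕ) ≤ 1 / 2) :
    μ.real {ω | ∀ n ∈ S0, ∃ p : ℕ, p.Prime ∧ 1 / log n ≤ Th p ∧ n % p = a p ω} ≤
      exp (-(log ((Y : ℝ) + 1) / log (2 * m : ℕ) * exp (-12) * W)) := by
  classical
  set K := 2 * m with hK
  set v := log ((Y : ℝ) + 1) / log K with hv
  set F0 := Nat.primesLE Z with hF0
  set F1 := Nat.primesLE Y \ Nat.primesLE Z with hF1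
  set F2 := (Nat.primesLE K).filter (fun p => Y < p ∧ 1 / log K ≤ Th p) with hF2
  have hK1 : (1 : ℝ) < K := by exact_mod_cast (by omega : 1 < K)
  have hlK : 0 < log K := log_pos hK1
  have hv0 : 0 ≤ v :=
    div_nonneg (log_nonneg (by linarith [Nat.cast_nonneg (α := ℝ) Y])) hlK.le
  have hv1 : v ≤ 1 := by
    rw [hv, div_le_one hlK]
    exact log_le_log (by positivity) (by exact_mod_cast (by omega : Y + 1 ≤ K))
  have m0 : ∀ p ∈ F0, p.Prime ∧ p ≤ Z := fun p hp =>
    ⟨Nat.prime_of_mem_primesLE hp, Nat.le_of_mem_primesLE hp⟩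
  have m1 : ∀ p ∈ F1, p.Prime ∧ Z < p ∧ p ≤ Y := fun p hp => by
    obtain ⟨h1, h2⟩ := mem_sdiff.1 hp
    refine ⟨Nat.prime_of_mem_primesLE h1, ?_, Nat.le_of_mem_primesLE h1⟩
    by_contra h
    exact h2 (Nat.mem_primesLE.2 ⟨by omega, Nat.prime_of_mem_primesLE h1⟩)
  have m2 : ∀ p ∈ F2, p.Prime ∧ Y < p := fun p hp =>
    ⟨Nat.prime_of_mem_primesLE (mem_filter.1 hp).1, (mem_filter.1 hp).2.1⟩
  have hnd : (F0.toList ++ (F1.toList ++ F2.toList)).Nodup := by
    refine List.Nodup.append F0.nodup_toList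
      (List.Nodup.append F1.nodup_toList F2.nodup_toList fun p h1 h2 => ?_) fun p h1 h2 => ?_
    · have := m1 p (mem_toList.1 h1)
      have := m2 p (mem_toList.1 h2)
      omega
    · have := m0 p (mem_toList.1 h1)
      rcases List.mem_append.1 h2 with h | h
      · have := m1 p (mem_toList.1 h); omega
      · have := m2 p (mem_toList.1 h); omega
  have hpr : ∀ p ∈ F0.toList ++ (F1.toList ++ F2.toList), p.Prime := by
    intro p hp
    simp only [List.mem_append, mem_toList] at hp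
    rcases hp with h | h | h
    exacts [(m0 p h).1, (m1 p h).1, (m2 p h).1]
  have hmeas := meas_le μ a hc hn _ hnd hpr ∅ (fun _ => 0) S0 (by simp) (by simp)
  rw [prod_empty, one_mul] at hmeas
  refine le_trans (le_trans (measureReal_mono ?_) hmeas) ?_
  · intro ω hω
    refine ⟨by simp, fun n hn => ?_⟩
    obtain ⟨p, hp, h1, h2⟩ := hω n hn
    refine ⟨p, ?_, h2⟩
    simp only [List.mem_append, mem_toList]
    by_cases c0 : p ≤ Z
    · exact Or.inl (Nat.mem_primesLE.2 ⟨c0, hp⟩)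
    by_cases c1 : p ≤ Y
    · exact Or.inr (Or.inl (mem_sdiff.2 ⟨Nat.mem_primesLE.2 ⟨c1, hp⟩,
        fun h => c0 (Nat.le_of_mem_primesLE h)⟩))
    have hn1 := hS n hn
    have hn2 : (1 : ℝ) < n := by exact_mod_cast (by omega : 1 < n)
    have hln : 0 < log n := log_pos hn2
    have hnK : log n ≤ log K := log_le_log (by linarith) (by exact_mod_cast (by omega : n ≤ K))
    have h4 : log ((p : ℝ) + 1) ≤ log n := by
      have h5 := th_log p
      have h6 : 0 ≤ log ((p : ℝ) + 1) := log_nonneg (by linarith [Nat.cast_nonneg (α := ℝ) p])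
      have h7 : 1 / log n * log ((p : ℝ) + 1) ≤ 1 := (mul_le_mul_of_nonneg_right h1 h6).trans h5
      rwa [one_div_mul_eq_div, div_le_one hln] at h7
    have h8 : p + 1 ≤ n := by
      exact_mod_cast (log_le_log_iff (by positivity) (by linarith)).1 h4
    exact Or.inr (Or.inr (mem_filter.2 ⟨Nat.mem_primesLE.2 ⟨by omega, hp⟩, by omega,
      (one_div_le_one_div_of_le hln hnK).trans h1⟩))
  · refine av_small _ _ _ F0.nodup_toList (fun q hq => (m0 q (mem_toList.1 hq)).1.pos) S0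
      fun r => ?_
    have hbig : ∀ S ⊆ S0, av F2.toList S ≤ (1 - v) ^ S.card := by
      intro S hS'
      have h1 := av_big S0 F2.toList (fun p hp => by
        have h := m2 p (mem_toList.1 hp)
        refine ⟨h.1.pos, fun t => (class_card S0 hS t).trans ?_⟩
        rw [Nat.div_eq_of_lt h.2]) S hS'
      rw [prod_map_toList] at h1
      have h2 := big_prod (Y := Y) (K := K) (by omega) (by omega)
      have h4 : ∏ p ∈ F2, (1 - 1 / (p : ℝ)) ≤ 1 :=
        prod_le_one (fun p hp => (fac_mem (m2 p hp).1).1.le) fun p hp => (fac_mem (m2 p hp).1).2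
      exact h1.trans (pow_le_pow_left₀ (by linarith) (by linarith) _)
    have h1 := av_mid S0 F2.toList hv0 hv1 (Y / (Z + 1) + 1) hvb hbig F1.toList (fun p hp => by
      have h := m1 p (mem_toList.1 hp)
      refine ⟨h.1.two_le, fun t => (class_card S0 hS t).trans ?_⟩
      exact Nat.succ_le_succ (Nat.div_le_div_left h.2.1 (by omega)))
      (S0.filter fun n => ∀ q ∈ F0.toList, n % q ≠ r q) (filter_subset _ _)
    rw [prod_map_toList] at h1
    have h2 := mid_prod h3 hZY hlog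
    have h4 : ∏ p ∈ F1, (1 - 2 / (p : ℝ)) ≤ 1 := by
      refine prod_le_one (fun p hp => ?_) fun p hp => ?_
      · have : (2 : ℝ) ≤ p := by exact_mod_cast (m1 p hp).1.two_le
        have : 2 / (p : ℝ) ≤ 1 := by rw [div_le_one (by linarith)]; exact this
        linarith
      · have : 0 ≤ 2 / (p : ℝ) := by positivity
        linarith
    have h5 := hW r
    have e : (S0.filter fun n => ∀ q ∈ F0, n % q ≠ r q) =
        S0.filter fun n => ∀ q ∈ F0.toList, n % q ≠ r q := by simp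
    rw [e] at h5
    set c := ∏ p ∈ F1, (1 - 2 / (p : ℝ)) with hc'
    set N := (S0.filter fun n => ∀ q ∈ F0.toList, n % q ≠ r q).card with hN
    have he := exp_pos (-12)
    have h6 : 1 - v * c ≤ exp (-(v * c)) := by linarith [add_one_le_exp (-(v * c))]
    have h7 : v * c ≤ 1 := by nlinarith
    refine h1.trans ((pow_le_pow_left₀ (by linarith) h6 N).trans ?_)
    rw [← exp_nat_mul]
    refine exp_le_exp.2 ?_
    have h8 : v * exp (-12) * W ≤ v * exp (-12) * N := by gcongr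
    have h9 : v * exp (-12) * N ≤ v * c * N := by gcongr
    linarith

end Pool.Agent.RSv
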