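import Pool.Agent.P.MP_45ff98_nt.RM2
import Pool.Agent.P.MP_45ff98_nt.JEnd

/-! Random sieve: gaps, almost surely. -/

namespace Pool.Agent.RSv
open Finset MeasureTheory Real Filter ProbabilityTheory

/-- The scale of the gap bound in terms of `L = log x`. -/
noncomputable def FF (L : ℝ) : ℝ := L ^ 2 * log L / log (log L)

theorem transfer {y z W : ℝ} (hz : 0 ≤ z)
    (h : ∀ x : ℝ, W ≤ (Set.ncard {n : ℤ | x < n ∧ n < x + y ∧
      ∀ p : ℕ, p.Prime → (p : ℝ) ≤ z → ¬ (p : ℤ) ∣ n} : ℝ)) (m : ℕ) (r : ℕ → ℕ) :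
    W ≤ ((((range ⌈(m : ℝ) + y⌉₊).filter fun n => m < n).filter
      fun n => ∀ q ∈ Nat.primesLE ⌊z⌋₊, n % q ≠ r q).card : ℝ) := by
  obtain ⟨k, hk⟩ := Nat.chineseRemainderOfFinset r id (Nat.primesLE ⌊z⌋₊)
    (fun q hq => (Nat.prime_of_mem_primesLE hq).ne_zero)
    (fun p hp q hq hne => (Nat.coprime_primes (Nat.prime_of_mem_primesLE (mem_coe.1 hp))
      (Nat.prime_of_mem_primesLE (mem_coe.1 hq))).2 hne)
  refine (h ((m : ℝ) - k)).trans ?_
  rw [← Set.ncard_coe_finset, Nat.cast_le]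
  have key : ∀ n : ℤ, (m : ℝ) - k < n → (m : ℤ) < n + k := by
    intro n h1
    have : (m : ℝ) < n + k := by linarith
    exact_mod_cast this
  refine Set.ncard_le_ncard_of_injOn (fun n : ℤ => (n + k).toNat) ?_ ?_ (finite_toSet _)
  · rintro n ⟨h1, h2, h3⟩
    have h4 := key n h1
    have h5 : (((n + k).toNat : ℕ) : ℤ) = n + k := Int.toNat_of_nonneg (by omega)
    have h6 : (((n + k).toNat : ℕ) : ℝ) = n + k := by exact_mod_cast h5
    refine mem_coe.2 (mem_filter.2 ⟨mem_filter.2 ⟨mem_range.2 (Nat.lt_ceil.2 (by linarith)),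
      by omega⟩, fun q hq e => ?_⟩)
    have hq1 := Nat.prime_of_mem_primesLE hq
    refine h3 q hq1 ((Nat.le_floor_iff hz).1 (Nat.le_of_mem_primesLE hq)) ?_
    have h7 : k ≡ (n + k).toNat [MOD q] := by
      have h8 : k ≡ r q [MOD q] := hk q hq
      rw [← e] at h8
      exact h8.trans (Nat.mod_modEq _ _)
    have h9 := h7.dvd
    rw [h5] at h9
    simpa using h9
  · rintro n ⟨h1, _⟩ n' ⟨h2, _⟩ e
    have := key n h1
    have := key n' h2
    simp only at e
    omega

theorem ev_L (e y1 : ℝ) (he : 0 < e) : ∀ᶠ L : ℝ in atTop,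
    1 ≤ log (log L) ∧ 1 ≤ e * L ∧ e * log L ≤ L ∧ y1 ≤ L ∧ 256 * e ≤ log L ∧ 16 * log L ≤ L ∧
      L ^ 3 < exp L ∧ 1 ≤ L := by
  have t1 := tendsto_log_atTop
  have o1 := isLittleO_log_id_atTop
  have o2 := (isLittleO_pow_exp_atTop (n := 3)).def (c := 1 / 2) (by norm_num)
  filter_upwards [(t1.comp t1).eventually_ge_atTop 1, eventually_ge_atTop (1 / e),
    o1.def (c := 1 / e) (by positivity), eventually_ge_atTop y1, t1.eventually_ge_atTop (256 * e),
    o1.def (c := 1 / 16) (by norm_num), o2, eventually_ge_atTop 1] with L h1 h2 h3 h4 h5 h6 h7 h8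
  have hl : 0 ≤ log L := log_nonneg h8
  simp only [id, norm_eq_abs, abs_of_nonneg hl, abs_of_nonneg (by linarith : 0 ≤ L)] at h3 h6
  rw [norm_of_nonneg (by positivity), norm_of_nonneg (exp_pos L).le] at h7
  refine ⟨h1, ?_, ?_, h4, h5, by linarith, by linarith [exp_pos L], h8⟩
  · rw [div_le_iff₀ he] at h2; linarith
  · rw [one_div_mul_eq_div, le_div_iff₀ he] at h3; linarith

theorem ev_m {Ω : Type} [MeasurableSpace Ω] (μ : Measure Ω) [IsProbabilityMeasure μ]
    (a : ℕ → Ω → ℕ)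
    (hc : ∀ (U : Finset ℕ) (r : ℕ → ℕ), (∀ q ∈ U, q.Prime ∧ r q < q) →
      μ.real {ω | ∀ q ∈ U, a q ω = r q} = ∏ q ∈ U, 1 / (q : ℝ))
    (hn : ∀ p : ℕ, p.Prime → μ.real {ω | p ≤ a p ω} = 0) {e : ℝ} (he : 0 < e) :
    ∀ᶠ m : ℕ in atTop, μ.real {ω | ∀ n ∈ (range ⌈(m : ℝ) + e * FF (log m)⌉₊).filter
      (fun n => m < n), ∃ p : ℕ, p.Prime ∧ 1 / log n ≤ Th p ∧ n % p = a p ω} ≤ 1 / (m : ℝ) ^ 2 := by
  set A : ℝ := 2 + 12 * exp 12 / e with hA
  have hA2 : 2 ≤ A := by
    have : 0 ≤ 12 * exp 12 / e := by positivity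
    linarith
  obtain ⟨y0, h0⟩ := Pool.Agent.Jac.main_real A
  obtain ⟨y2, h2⟩ := eventually_atTop.1
    ((isLittleO_log_rpow_rpow_atTop A (s := 1 / 2) (by norm_num)).def (c := 1) one_pos)
  filter_upwards [(tendsto_log_atTop.comp tendsto_natCast_atTop_atTop).eventually
    (ev_L e (max (max y0 y2) 16) he), eventually_ge_atTop 2] with m hm hm2
  simp only [Function.comp] at hm
  obtain ⟨g1, g2, g3, g4, g5, g6, g7, g8⟩ := hm
  have hm' : (2 : ℝ) ≤ m := by exact_mod_cast hm2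
  rw [exp_log (by linarith)] at g7
  set L := log (m : ℝ) with hL
  set y := e * FF L with hy
  have hl2 : 0 < log L := by
    by_contra h
    have h1 : log L = 0 := le_antisymm (not_lt.1 h) (log_nonneg g8)
    rw [h1, log_zero] at g1; linarith
  have h32 : log (log L) ≤ log L := by linarith [log_le_sub_one_of_pos hl2]
  have hl21 : 1 ≤ log L := g1.trans h32
  have hq1 : 1 ≤ log L / log (log L) := by rw [le_div_iff₀ (by linarith)]; linarith
  have hq2 : log L / log (log L) ≤ log L := div_le_self hl2.le g1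
  have hyq : y = e * L ^ 2 * (log L / log (log L)) := by rw [hy, FF]; ring
  have hL0 : 0 < L := by linarith
  have hy1 : L ≤ y := by
    rw [hyq]
    have : L ≤ e * L ^ 2 := by nlinarith
    nlinarith [mul_pos he (pow_pos hL0 2)]
  have hy2 : y ≤ e * L ^ 2 * log L := by rw [hyq]; gcongr
  have hy3 : y ≤ L ^ 3 := by nlinarith [pow_pos hL0 2]
  have hy16 : 16 ≤ y := ((le_max_right _ _).trans g4).trans hy1
  have hly1 : log L ≤ log y := log_le_log hL0 hy1
  have hly2 : log y ≤ 3 * log L := by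
    have := log_le_log (by linarith) hy3
    rwa [log_pow, Nat.cast_ofNat] at this
  have hs4 : 4 ≤ √y := le_sqrt_of_sq_le (by linarith)
  have hss : √y * √y = y := mul_self_sqrt (by linarith)
  have hp1 : log y ^ A ≤ √y := by
    have := h2 y ((((le_max_right _ _).trans (le_max_left _ _)).trans g4).trans hy1)
    rwa [one_mul, norm_of_nonneg (rpow_nonneg (by linarith) _),
      norm_of_nonneg (rpow_nonneg (by linarith) _), ← sqrt_eq_rpow] at this
  have hp2 : log L ^ 2 ≤ log y ^ A := by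
    calc log L ^ 2 ≤ log y ^ 2 := by gcongr
      _ = log y ^ (2 : ℝ) := by rw [← rpow_natCast]; norm_num
      _ ≤ _ := rpow_le_rpow_of_exponent_le (by linarith) hA2
  have hp3 : 1 ≤ log y ^ A := le_trans (one_le_pow₀ hl21) hp2
  set z := √y * log y ^ A with hz
  have hz1 : √y ≤ z := le_mul_of_one_le_right (sqrt_nonneg y) hp3
  have hz2 : z ≤ y := (mul_le_mul_of_nonneg_left hp1 (sqrt_nonneg y)).trans hss.le
  have hZ := Nat.lt_floor_add_one z
  have hY := Nat.floor_le (a := y) (by linarith)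
  have hY' := Nat.lt_floor_add_one y
  have hY1 : (0 : ℝ) < ⌊y⌋₊ := by linarith
  have hlK : log ((2 * m : ℕ) : ℝ) = log 2 + L := by
    push_cast; rw [log_mul (by norm_num) (by linarith)]
  have hlog2 : log 2 ≤ L := log_le_log (by norm_num) hm'
  have hlog0 : 0 < log 2 := log_pos (by norm_num)
  have hv1 : log y ≤ log ((⌊y⌋₊ : ℝ) + 1) := log_le_log (by linarith) hY'.le
  have hv2 : log ((⌊y⌋₊ : ℝ) + 1) ≤ 4 * log L := by
    have h1 : log ((⌊y⌋₊ : ℝ) + 1) ≤ log (2 * y) := log_le_log (by linarith) (by linarith)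
    rw [log_mul (by norm_num) (by linarith)] at h1
    linarith [log_two_lt_d9]
  refine (fixed μ a hc hn (m := m) (Y := ⌊y⌋₊) (Z := ⌊z⌋₊) _ (fun n hn => ?_)
    (transfer (by linarith) (h0 y ((((le_max_left _ _).trans (le_max_left _ _)).trans g4).trans
      hy1)) m) (Nat.le_floor (by push_cast; linarith)) (Nat.floor_le_floor hz2) ?_ ?_ ?_).trans ?_
  · obtain ⟨h1, h3⟩ := mem_filter.1 hn
    have h4 := Nat.lt_ceil.1 (mem_range.1 h1)
    have h5 : (n : ℝ) < m + ⌊y⌋₊ + 1 := by linarith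
    have h6 : n < m + ⌊y⌋₊ + 1 := by exact_mod_cast h5
    exact ⟨h3, by omega⟩
  · have h1 : log (⌊y⌋₊ : ℝ) ≤ log (√y * √y) := log_le_log hY1 (by linarith)
    rw [log_mul (by linarith) (by linarith)] at h1
    have h3 : log √y ≤ log ((⌊z⌋₊ : ℝ) + 1) := log_le_log (by linarith) (by linarith)
    linarith
  · have : (⌊y⌋₊ : ℝ) < m := by linarith
    exact_mod_cast this
  · have hb : ((⌊y⌋₊ / (⌊z⌋₊ + 1) + 1 : ℕ) : ℝ) ≤ √y / log L ^ 2 + 1 := by
      have h1 : ((⌊y⌋₊ / (⌊z⌋₊ + 1) : ℕ) : ℝ) ≤ (⌊y⌋₊ : ℝ) / ((⌊z⌋₊ + 1 : ℕ) : ℝ) :=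
        Nat.cast_div_le
      have h3 : (⌊y⌋₊ : ℝ) / ((⌊z⌋₊ + 1 : ℕ) : ℝ) ≤ √y / log L ^ 2 := by
        rw [div_le_div_iff₀ (by positivity) (by positivity)]
        push_cast
        have h4 : √y * log L ^ 2 ≤ z := by rw [hz]; gcongr
        calc (⌊y⌋₊ : ℝ) * log L ^ 2 ≤ y * log L ^ 2 := by gcongr
          _ = √y * (√y * log L ^ 2) := by rw [← mul_assoc, hss]
          _ ≤ _ := by gcongr; linarith
      rw [Nat.cast_add, Nat.cast_one]; linarith
    have hv : log ((⌊y⌋₊ : ℝ) + 1) / log ((2 * m : ℕ) : ℝ) ≤ 4 * log L / L := by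
      rw [hlK]
      exact div_le_div₀ (by positivity) hv2 hL0 (by linarith)
    have hs : √y ≤ L * log L / 16 := by
      refine sqrt_le_iff.2 ⟨by positivity, hy2.trans ?_⟩
      have : 0 < L ^ 2 * log L := by positivity
      nlinarith
    have h5 : √y / log L ^ 2 ≤ L / (16 * log L) := by
      rw [div_le_div_iff₀ (by positivity) (by positivity)]
      nlinarith
    have h6 : 4 * log L / L * (L / (16 * log L) + 1) = 1 / 4 + 4 * log L / L := by
      field_simp; ring
    have h7 : 4 * log L / L ≤ 1 / 4 := by rw [div_le_iff₀ hL0]; linarith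
    calc _ ≤ 4 * log L / L * (L / (16 * log L) + 1) :=
          mul_le_mul hv (by linarith) (Nat.cast_nonneg _) (by positivity)
      _ ≤ 1 / 2 := by linarith
  · have hly0 : 0 < log y := by linarith
    have hll : log (log L) ≤ log (log y) := log_le_log hl2 hly1
    have hv : log y / (2 * L) ≤ log ((⌊y⌋₊ : ℝ) + 1) / log ((2 * m : ℕ) : ℝ) := by
      rw [hlK]
      exact div_le_div₀ (by linarith) hv1 (by linarith) (by linarith)
    have h1 : e * L ^ 2 * log L ≤ y * log (log y) := by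
      have : y * log (log L) = e * L ^ 2 * log L := by
        rw [hyq]; field_simp
      rw [← this]; gcongr
    have h3 : e * L ^ 2 / 3 ≤ y * log (log y) / log y := by
      rw [div_le_div_iff₀ (by norm_num) hly0]
      have : e * L ^ 2 * log y ≤ e * L ^ 2 * (3 * log L) := by gcongr
      linarith
    have h4 : 12 * exp 12 / e ≤ A := by linarith
    have hW : 0 ≤ A * y * log (log y) / log y ^ 2 := by
      have : 0 ≤ log (log y) := by linarith
      have : 0 ≤ A := by linarith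
      positivity
    have h5 : 2 * L ≤ log y / (2 * L) * exp (-12) * (A * y * log (log y) / log y ^ 2) := by
      have e1 : log y / (2 * L) * exp (-12) * (A * y * log (log y) / log y ^ 2) =
          exp (-12) / (2 * L) * (A * (y * log (log y) / log y)) := by field_simp
      have e2 : 2 * L = exp (-12) / (2 * L) * (12 * exp 12 / e * (e * L ^ 2 / 3)) := by
        rw [exp_neg]; field_simp; ring
      rw [e1]
      refine e2.le.trans ?_
      gcongr
    have h6 : log y / (2 * L) * exp (-12) * (A * y * log (log y) / log y ^ 2) ≤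
        log ((⌊y⌋₊ : ℝ) + 1) / log ((2 * m : ℕ) : ℝ) * exp (-12) *
          (A * y * log (log y) / log y ^ 2) := by gcongr
    have e3 : 1 / (m : ℝ) ^ 2 = exp (-(2 * L)) := by
      rw [exp_neg, two_mul, exp_add, hL, exp_log (by linarith), one_div, sq]
    rw [e3]
    exact exp_le_exp.2 (by linarith)

end Pool.Agent.RSv
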