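import Pool.Agent.P.MP_45ff98_nt.RM3

/-! Random sieve: Borel-Cantelli and real starting points. -/

namespace Pool.Agent.RSv
open Finset MeasureTheory Real Filter ProbabilityTheory
open scoped ENNReal

theorem cyl {Ω : Type} [MeasurableSpace Ω] (μ : Measure Ω) (a : ℕ → Ω → ℕ)
    (hi : iIndepFun (fun p : Nat.Primes => a p) μ)
    (hu : ∀ p r : ℕ, p.Prime → r < p → μ {ω | a p ω = r} = (p : ℝ≥0∞)⁻¹)
    (U : Finset ℕ) (r : ℕ → ℕ) (hU : ∀ q ∈ U, q.Prime ∧ r q < q) :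
    μ.real {ω | ∀ q ∈ U, a q ω = r q} = ∏ q ∈ U, 1 / (q : ℝ) := by
  have h := hi.measure_inter_preimage_eq_mul (U.subtype Nat.Prime)
    (sets := fun p : Nat.Primes => {r p}) (fun _ _ => trivial)
  have e1 : {ω | ∀ q ∈ U, a q ω = r q} =
      ⋂ p ∈ (U.subtype Nat.Prime : Finset Nat.Primes), a p ⁻¹' {r p} := by
    ext ω
    simp only [Set.mem_ofPred_eq, Set.mem_iInter, Set.mem_preimage, Set.mem_singleton_iff]
    exact ⟨fun h p hp => h p (mem_subtype.1 hp),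
      fun h q hq => h ⟨q, (hU q hq).1⟩ (mem_subtype.2 hq)⟩
  have e2 : ∏ p ∈ (U.subtype Nat.Prime : Finset Nat.Primes), μ (a p ⁻¹' {r p}) =
      ∏ q ∈ U, (q : ℝ≥0∞)⁻¹ := by
    rw [← prod_subtype_of_mem (p := Nat.Prime) (fun q : ℕ => (q : ℝ≥0∞)⁻¹)
      fun q hq => (hU q hq).1]
    exact prod_congr rfl fun p hp => hu p (r p) p.2 (hU p (mem_subtype.1 hp)).2
  have e3 : μ {ω | ∀ q ∈ U, a q ω = r q} = ∏ q ∈ U, (q : ℝ≥0∞)⁻¹ :=
    (congrArg μ e1).trans (h.trans e2)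
  rw [measureReal_def, e3, ENNReal.toReal_prod]
  simp

theorem nul {Ω : Type} [MeasurableSpace Ω] (μ : Measure Ω) [IsProbabilityMeasure μ]
    (a : ℕ → Ω → ℕ) (hm : ∀ p, Measurable (a p))
    (hu : ∀ p r : ℕ, p.Prime → r < p → μ {ω | a p ω = r} = (p : ℝ≥0∞)⁻¹) (p : ℕ) (hp : p.Prime) :
    μ.real {ω | p ≤ a p ω} = 0 := by
  have h1 := sum_measure_preimage_singleton (μ := μ) (range p) (f := a p)
    fun y _ => hm p trivial
  have h2 : ∑ b ∈ range p, μ (a p ⁻¹' {b}) = 1 := by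
    refine (sum_congr rfl fun b hb => hu p b hp (mem_range.1 hb)).trans ?_
    rw [sum_const, card_range, nsmul_eq_mul]
    exact ENNReal.mul_inv_cancel (by exact_mod_cast hp.ne_zero) (by simp)
  have h3 : {ω | p ≤ a p ω} = (a p ⁻¹' (range p : Set ℕ))ᶜ := by
    ext ω; simp
  rw [measureReal_def, h3, (prob_compl_eq_zero_iff (hm p trivial)).2 (h1 ▸ h2)]
  simp

theorem ae_nat {Ω : Type} [MeasurableSpace Ω] (μ : Measure Ω) [IsProbabilityMeasure μ]
    (a : ℕ → Ω → ℕ) (hm : ∀ p, Measurable (a p))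
    (hi : iIndepFun (fun p : Nat.Primes => a p) μ)
    (hu : ∀ p r : ℕ, p.Prime → r < p → μ {ω | a p ω = r} = (p : ℝ≥0∞)⁻¹) {e : ℝ} (he : 0 < e) :
    ∀ᵐ ω ∂μ, ∀ᶠ m : ℕ in atTop, ∃ n : ℕ, m < n ∧ (n : ℝ) < m + e * FF (log m) ∧
      ∀ p : ℕ, p.Prime → 1 / log n ≤ Th p → n % p ≠ a p ω := by
  obtain ⟨M, hM⟩ := eventually_atTop.1 (ev_m μ a (cyl μ a hi hu) (nul μ a hm hu) he)
  set s : ℕ → Set Ω := fun m => {ω | M ≤ m ∧ ∀ n ∈ (range ⌈(m : ℝ) + e * FF (log m)⌉₊).filter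
    (fun n => m < n), ∃ p : ℕ, p.Prime ∧ 1 / log n ≤ Th p ∧ n % p = a p ω} with hs
  have h1 : ∀ m, μ (s m) ≤ ENNReal.ofReal (1 / (m : ℝ) ^ 2) := by
    intro m
    by_cases h : M ≤ m
    · rw [← ofReal_measureReal]
      refine ENNReal.ofReal_le_ofReal (le_trans (measureReal_mono fun ω hω => hω.2) (hM m h))
    · have : s m = ∅ := Set.eq_empty_of_forall_notMem fun ω hω => h hω.1
      simp [this]
  have h2 : ∑' m, μ (s m) ≠ ∞ := by
    refine ne_top_of_le_ne_top ?_ (ENNReal.tsum_le_tsum h1)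
    rw [← ENNReal.ofReal_tsum_of_nonneg (fun m => by positivity)
      (summable_one_div_nat_pow.2 one_lt_two)]
    exact ENNReal.ofReal_ne_top
  filter_upwards [ae_eventually_notMem h2] with ω hω
  filter_upwards [hω, eventually_ge_atTop M] with m h3 h4
  by_contra h5
  refine h3 ⟨h4, fun n hn => ?_⟩
  obtain ⟨h6, h7⟩ := mem_filter.1 hn
  by_contra h8
  exact h5 ⟨n, h7, Nat.lt_ceil.1 (mem_range.1 h6), fun p hp h9 h10 => h8 ⟨p, hp, h9, h10⟩⟩

theorem FF_le {L M : ℝ} (h1 : 1 ≤ log (log L)) (h8 : 1 ≤ L) (hLM : L ≤ M) (hM : M ≤ 2 * L) :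
    FF M ≤ 8 * FF L ∧ L ≤ FF L := by
  have hl2 : 0 < log L := by
    by_contra h
    have h2 : log L = 0 := le_antisymm (not_lt.1 h) (log_nonneg h8)
    rw [h2, log_zero] at h1; linarith
  have h32 : log (log L) ≤ log L := by linarith [log_le_sub_one_of_pos hl2]
  have a1 : log L ≤ log M := log_le_log (by linarith) hLM
  have a2 : log (log L) ≤ log (log M) := log_le_log hl2 a1
  have a3 : log M ≤ 2 * log L := by
    have := log_le_log (by linarith) hM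
    rw [log_mul (by norm_num) (by linarith)] at this
    linarith [log_two_lt_d9]
  unfold FF
  constructor
  · rw [← mul_div_assoc]
    refine div_le_div₀ (by positivity) ?_ (by linarith) a2
    calc M ^ 2 * log M ≤ (2 * L) ^ 2 * (2 * log L) := by
          gcongr
          · linarith
          · linarith
      _ = _ := by ring
  · rw [le_div_iff₀ (by linarith)]
    have : L ≤ L ^ 2 := by nlinarith
    exact mul_le_mul this h32 (by linarith) (by positivity)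

theorem main {Ω : Type} [MeasurableSpace Ω] (μ : Measure Ω) [IsProbabilityMeasure μ]
    (a : ℕ → Ω → ℕ) (hm : ∀ p, Measurable (a p))
    (hi : iIndepFun (fun p : Nat.Primes => a p) μ)
    (hu : ∀ p r : ℕ, p.Prime → r < p → μ {ω | a p ω = r} = (p : ℝ≥0∞)⁻¹) :
    ∀ᵐ ω ∂μ, ∀ ε : ℝ, 0 < ε → ∃ x0 : ℝ, ∀ x : ℝ, x0 ≤ x → ∃ n : ℕ, x < n ∧
      (n : ℝ) < x + ε * FF (log x) ∧ exp 2 ≤ n ∧
      ∀ p : ℕ, p.Prime → 1 / log n ≤ Th p → n % p ≠ a p ω := by
  have h := ae_all_iff.2 fun k : ℕ =>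
    ae_nat μ a hm hi hu (e := 1 / ((k : ℝ) + 1)) (by positivity)
  filter_upwards [h] with ω hω ε hε
  obtain ⟨k, hk⟩ := exists_nat_one_div_lt (show 0 < ε / 16 by positivity)
  obtain ⟨M, hM⟩ := eventually_atTop.1 (hω k)
  rw [← eventually_atTop]
  filter_upwards [tendsto_log_atTop.eventually (ev_L 1 (2 / ε) one_pos),
    eventually_ge_atTop (M : ℝ), eventually_ge_atTop (exp 2), eventually_ge_atTop (2 : ℝ)]
    with x hx hx1 hx2 hx3
  obtain ⟨g1, -, -, g4, -, -, -, g8⟩ := hx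
  have f1 := Nat.floor_le (a := x) (by linarith)
  have f2 := Nat.lt_floor_add_one x
  have f3 : M ≤ ⌊x⌋₊ + 1 := by
    have : (M : ℝ) ≤ ⌊x⌋₊ + 1 := by linarith
    exact_mod_cast this
  obtain ⟨n, n1, n2, n3⟩ := hM _ f3
  have n4 : (⌊x⌋₊ : ℝ) + 1 < n := by exact_mod_cast n1
  push_cast at n2
  have b1 : log x ≤ log ((⌊x⌋₊ : ℝ) + 1) := log_le_log (by linarith) f2.le
  have b2 : log ((⌊x⌋₊ : ℝ) + 1) ≤ 2 * log x := by
    have : log ((⌊x⌋₊ : ℝ) + 1) ≤ log (x * x) := log_le_log (by linarith) (by nlinarith)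
    rw [log_mul (by linarith) (by linarith)] at this
    linarith
  obtain ⟨c1, c2⟩ := FF_le g1 g8 b1 b2
  have c3 : 2 ≤ ε * FF (log x) := by
    rw [div_le_iff₀ hε] at g4
    nlinarith
  have c4 : 1 / ((k : ℝ) + 1) * FF (log ((⌊x⌋₊ : ℝ) + 1)) ≤ ε / 16 * (8 * FF (log x)) :=
    (mul_le_mul_of_nonneg_left c1 (by positivity)).trans
      (mul_le_mul_of_nonneg_right hk.le (by linarith))
  exact ⟨n, by linarith, by linarith, by linarith, n3⟩

end Pool.Agent.RSv
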